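import Pool.Agent.Lib.MP_60079e_gt.Glue

/-! The quotient of a manifold by a free orientation preserving diffeomorphism of order 3. -/

open Set Metric Topology
open scoped ContDiff

namespace Wu

/-- The action of the group of order 3. -/
@[reducible] private def Quot_act {T : Type} (g : T → T) (h3 : ∀ x, g (g (g x)) = x) :
    MulAction (Multiplicative (ZMod 3)) T where
  smul k x := g^[k.toAdd.val] x
  one_smul x := rfl
  mul_smul a b x := by
    change g^[(a.toAdd + b.toAdd).val] x = g^[a.toAdd.val] (g^[b.toAdd.val] x)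
    rw [← Function.iterate_add_apply, ZMod.val_add]
    have h : Function.IsPeriodicPt g 3 x := h3 x
    exact h.iterate_mod_apply _

private lemma Quot_cases (k : Multiplicative (ZMod 3)) : k.toAdd.val = 0 ∨ k.toAdd.val = 1 ∨
    k.toAdd.val = 2 := by
  have := ZMod.val_lt k.toAdd
  omega

/-- The quotient as a topological space. -/
private lemma Quot_top {T : Type} [TopologicalSpace T] [T2Space T] [LocallyCompactSpace T]
    (g : T → T) (hg : Continuous g) (h3 : ∀ x, g (g (g x)) = x) (hfree : ∀ x, g x ≠ x) :
    ∃ (A : Type) (_ : TopologicalSpace A) (_ : T2Space A) (π : T → A), Function.Surjective π ∧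
      (∀ x y, π x = π y ↔ y = x ∨ y = g x ∨ y = g (g x)) ∧ IsCoveringMap π := by
  let act := Quot_act g h3
  have hsmul : ∀ (k : Multiplicative (ZMod 3)) (x : T), k • x = g^[k.toAdd.val] x :=
    fun _ _ => rfl
  have : ContinuousConstSMul (Multiplicative (ZMod 3)) T := ⟨fun k => by
    change Continuous (g^[k.toAdd.val])
    exact hg.iterate _⟩
  have : IsCancelSMul (Multiplicative (ZMod 3)) T := by
    rw [isCancelSMul_iff_eq_one_of_smul_eq]
    intro k x hk
    rw [hsmul] at hk
    rcases Quot_cases k with h | h | h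
    · have h4 : k.toAdd = 0 := (ZMod.val_eq_zero _).1 h
      exact h4
    · rw [h] at hk
      exact absurd hk (hfree x)
    · rw [h] at hk
      have h4 : g (g x) = x := hk
      have h5 := h3 x
      rw [h4] at h5
      exact absurd h5 (hfree x)
  refine ⟨Quotient (MulAction.orbitRel (Multiplicative (ZMod 3)) T), inferInstance, inferInstance,
    Quotient.mk _, Quotient.mk_surjective, ?_, ?_⟩
  · intro x y
    rw [eq_comm, Quotient.eq, MulAction.orbitRel_apply]
    constructor
    · rintro ⟨k, hk⟩
      simp only [hsmul] at hk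
      rcases Quot_cases k with h | h | h
      · rw [h] at hk
        exact Or.inl hk.symm
      · rw [h] at hk
        exact Or.inr (Or.inl hk.symm)
      · rw [h] at hk
        exact Or.inr (Or.inr hk.symm)
    · rintro (rfl | rfl | rfl)
      · exact ⟨1, one_smul _ _⟩
      · exact ⟨Multiplicative.ofAdd 1, rfl⟩
      · exact ⟨Multiplicative.ofAdd 2, rfl⟩
  · exact isQuotientCoveringMap_quotientMk_of_properlyDiscontinuousSMul.isCoveringMap

@[reducible] private noncomputable def Quot_charted (M : Mfd E5) : ChartedSpace E5 M.X where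
  atlas := M.atlas
  chartAt x := Classical.choose (M.cover x)
  mem_chart_source x := (Classical.choose_spec (M.cover x)).2
  chart_mem_atlas x := (Classical.choose_spec (M.cover x)).1

theorem exists_quot (M : Mfd E5) (g : M.X → M.X) (hg : ∀ x, OPAt M M g x)
    (h3 : ∀ x, g (g (g x)) = x) (hfree : ∀ x, g x ≠ x) :
    ∃ (A : Mfd E5) (π : M.X → A.X), Function.Surjective π ∧ (∀ x, OPAt M A π x) ∧
      (∀ x y, π x = π y ↔ y = x ∨ y = g x ∨ y = g (g x)) ∧ IsCoveringMap π := by
  have hgc : Continuous g := continuous_iff_continuousAt.2 fun x => (hg x).1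
  have : LocallyCompactSpace M.X := by
    let _ := Quot_charted M
    exact ChartedSpace.locallyCompactSpace E5 M.X
  obtain ⟨A, topA, t2A, π, hsurj, hfib, hcov⟩ := Quot_top g hgc h3 hfree
  have hfree2 : ∀ x, g (g x) ≠ x := by
    intro x h
    have h5 := h3 x
    rw [h] at h5
    exact hfree x h5
  have hfree3 : ∀ x, g (g x) ≠ g x := fun x => hfree (g x)
  -- the local inverses
  have hc : ∀ y : A, ∃ i : {e : OpenPartialHomeomorph A M.X // ∀ y ∈ e.source, π (e y) = y},
      y ∈ i.1.source := by
    intro y
    obtain ⟨x, rfl⟩ := hsurj y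
    obtain ⟨e, hxe, he⟩ := hcov.isLocalHomeomorph x
    refine ⟨⟨e.symm, ?_⟩, ?_⟩
    · intro y hy
      rw [he]
      exact e.right_inv hy
    · change π x ∈ e.target
      rw [he]
      exact e.map_source hxe
  have hev : ∀ {φ ψ : M.X → M.X} {x : M.X}, ContinuousAt φ x → ContinuousAt ψ x → φ x ≠ ψ x →
      ∀ᶠ y in 𝓝 x, φ y ≠ ψ y := by
    intro φ ψ x h1 h2 h
    obtain ⟨u, v, hu, hv, hxu, hxv, huv⟩ := t2_separation h
    filter_upwards [h1 (hu.mem_nhds hxu), h2 (hv.mem_nhds hxv)] with y hy1 hy2 hy
    rw [mem_preimage] at hy1 hy2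
    rw [hy] at hy1
    exact Set.disjoint_left.1 huv hy1 hy2
  have ht : ∀ (i j : {e : OpenPartialHomeomorph A M.X // ∀ y ∈ e.source, π (e y) = y}) (y : A),
      y ∈ i.1.source → y ∈ j.1.source →
      OPAt M M (fun x => j.1 (i.1.symm x)) (i.1 y) := by
    intro i j y hi hj
    have hi' : i.1 y ∈ i.1.target := i.1.map_source hi
    have hcont : ContinuousAt (fun x => j.1 (i.1.symm x)) (i.1 y) := by
      have h1 : ContinuousAt i.1.symm (i.1 y) := i.1.continuousAt_symm hi'
      refine ContinuousAt.comp (g := j.1) ?_ h1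
      rw [i.1.left_inv hi]
      exact j.1.continuousAt hj
    have hval : ∀ᶠ x in 𝓝 (i.1 y), j.1 (i.1.symm x) = x ∨ j.1 (i.1.symm x) = g x ∨
        j.1 (i.1.symm x) = g (g x) := by
      have h1 : ∀ᶠ x in 𝓝 (i.1 y), i.1.symm x ∈ j.1.source := by
        have h2 : ContinuousAt i.1.symm (i.1 y) := i.1.continuousAt_symm hi'
        apply h2.eventually_mem
        apply j.1.open_source.mem_nhds
        rw [i.1.left_inv hi]
        exact hj
      filter_upwards [h1, i.1.open_target.mem_nhds hi'] with x hx1 hx2
      rw [← hfib, j.2 _ hx1]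
      conv_lhs => rw [← i.1.right_inv hx2]
      exact i.2 _ (i.1.map_target hx2)
    have hg1 : ContinuousAt (fun x : M.X => x) (i.1 y) := continuousAt_id
    have hg2 : ContinuousAt g (i.1 y) := hgc.continuousAt
    have hg3 : ContinuousAt (fun x => g (g x)) (i.1 y) := (hgc.comp hgc).continuousAt
    rcases hval.self_of_nhds with h | h | h
    · have e1 := hev hcont hg2 (by rw [h]; exact (hfree _).symm)
      have e2 := hev hcont hg3 (by rw [h]; exact (hfree2 _).symm)
      refine (opAt_id M (i.1 y)).congr ?_
      filter_upwards [hval, e1, e2] with x h1 h2 h3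
      rcases h1 with h1 | h1 | h1
      · exact h1.symm
      · exact absurd h1 h2
      · exact absurd h1 h3
    · have e1 := hev hcont hg1 (by rw [h]; exact hfree _)
      have e2 := hev hcont hg3 (by rw [h]; exact (hfree3 _).symm)
      refine (hg (i.1 y)).congr ?_
      filter_upwards [hval, e1, e2] with x h1 h2 h3
      rcases h1 with h1 | h1 | h1
      · exact absurd h1 h2
      · exact h1.symm
      · exact absurd h1 h3
    · have e1 := hev hcont hg1 (by rw [h]; exact hfree2 _)
      have e2 := hev hcont hg2 (by rw [h]; exact hfree3 _)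
      refine ((hg (g (i.1 y))).comp (hg (i.1 y))).congr ?_
      filter_upwards [hval, e1, e2] with x h1 h2 h3
      rcases h1 with h1 | h1 | h1
      · exact absurd h1 h2
      · exact absurd h1 h3
      · exact h1.symm
  refine ⟨glue A (fun _ => M) (fun i : {e : OpenPartialHomeomorph A M.X //
    ∀ y ∈ e.source, π (e y) = y} => i.1) hc ht, π, hsurj, ?_, hfib, hcov⟩
  intro x
  obtain ⟨e, hxe, he⟩ := hcov.isLocalHomeomorph x
  have hes : ∀ y ∈ e.symm.source, π (e.symm y) = y := by
    intro y hy
    rw [he]
    exact e.right_inv hy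
  have h1 := opAt_glue_symm (fun _ => M) (fun i : {e : OpenPartialHomeomorph A M.X //
    ∀ y ∈ e.source, π (e y) = y} => i.1) hc ht ⟨e.symm, hes⟩ (x := x) hxe
  exact h1.congr (Filter.Eventually.of_forall fun y => (congrFun he y).symm)

end Wu
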