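import Pool.Agent.Lib.MP_60079e_gt.WGa

/-! The map `S³ × D̄ → W` is onto with connected fibres; `W` is closed. -/

open Set Metric Topology Matrix
open scoped ContDiff

namespace Wu

/-- relations of the block case -/
private structure Rel (b0 b1 b2 w : ℂ) : Prop where
  r1 : b0 * (starRingEnd ℂ) b0 + b1 * (starRingEnd ℂ) b1 = 1
  r2 : b0 * (starRingEnd ℂ) b1 + b1 * (starRingEnd ℂ) b2 = 0
  r3 : w * (starRingEnd ℂ) w = 1
  r4 : w * (b0 * b2 - b1 ^ 2) = 1

/-- fixed vectors of the antilinear involution -/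
private structure Fx (b0 b1 b2 w u0 u1 : ℂ) : Prop where
  e1 : b0 * (starRingEnd ℂ) u0 + b1 * (starRingEnd ℂ) u1 = -(starRingEnd ℂ) w * u0
  e2 : b1 * (starRingEnd ℂ) u0 + b2 * (starRingEnd ℂ) u1 = -(starRingEnd ℂ) w * u1

private theorem Rel.r2' {b0 b1 b2 w : ℂ} (h : Rel b0 b1 b2 w) :
    b1 * (starRingEnd ℂ) b0 + b2 * (starRingEnd ℂ) b1 = 0 := by
  have := congrArg (starRingEnd ℂ) h.r2
  simp only [map_add, map_mul, Complex.conj_conj, map_zero] at this
  linear_combination this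

private theorem Rel.k1 {b0 b1 b2 w : ℂ} (h : Rel b0 b1 b2 w) : w * b2 = (starRingEnd ℂ) b0 := by
  linear_combination (-w * b2) * h.r1 + ((starRingEnd ℂ) b0) * h.r4 + (w * b1) * h.r2'

private theorem Rel.k2 {b0 b1 b2 w : ℂ} (h : Rel b0 b1 b2 w) : w * b1 = -(starRingEnd ℂ) b1 := by
  linear_combination (-w * b1) * h.r1 - ((starRingEnd ℂ) b1) * h.r4 + (w * b0) * h.r2'

private theorem Rel.k3 {b0 b1 b2 w : ℂ} (h : Rel b0 b1 b2 w) : (starRingEnd ℂ) b2 = w * b0 := by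
  have := congrArg (starRingEnd ℂ) h.k1
  simp only [map_mul, Complex.conj_conj] at this
  linear_combination w * this - ((starRingEnd ℂ) b2) * h.r3

private theorem Fx.e4 {b0 b1 b2 w u0 u1 : ℂ} (h : Rel b0 b1 b2 w) (f : Fx b0 b1 b2 w u0 u1) :
    b2 * u0 - b1 * u1 = -(starRingEnd ℂ) u0 := by
  have h1 := congrArg (starRingEnd ℂ) f.e1
  simp only [map_add, map_mul, map_neg, Complex.conj_conj] at h1
  rw [← h.k1] at h1
  have hk : (starRingEnd ℂ) b1 = -(w * b1) := by rw [h.k2]; ring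
  rw [hk] at h1
  linear_combination ((starRingEnd ℂ) w) * h1 -
    (b2 * u0 - b1 * u1 + (starRingEnd ℂ) u0) * h.r3

private theorem Fx.e3 {b0 b1 b2 w u0 u1 : ℂ} (h : Rel b0 b1 b2 w) (f : Fx b0 b1 b2 w u0 u1) :
    b0 * u1 - b1 * u0 = -(starRingEnd ℂ) u1 := by
  have h1 := congrArg (starRingEnd ℂ) f.e2
  simp only [map_add, map_mul, map_neg, Complex.conj_conj] at h1
  rw [h.k3] at h1
  have hk : (starRingEnd ℂ) b1 = -(w * b1) := by rw [h.k2]; ring
  rw [hk] at h1
  linear_combination ((starRingEnd ℂ) w) * h1 -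
    (b0 * u1 - b1 * u0 + (starRingEnd ℂ) u1) * h.r3

/-- block matrices -/
private structure Blk (S : M3) : Prop where
  s02 : S 0 2 = 0
  s12 : S 1 2 = 0
  s20 : S 2 0 = 0
  s21 : S 2 1 = 0
  s10 : S 1 0 = S 0 1
  rel : Rel (S 0 0) (S 0 1) (S 1 1) (S 2 2)

private theorem sym_apply {S : M3} (hT : Sᵀ = S) (i j : Fin 3) : S i j = S j i := by
  conv_lhs => rw [← hT]
  rfl

private theorem blk_of {S : M3} (hS : S ∈ SU3) (hT : Sᵀ = S)
    (h : 1 ≤ Complex.normSq (S 2 2)) : Blk S := by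
  have hc := col_normSq hS 2
  have n0 := Complex.normSq_nonneg (S 0 2)
  have n1 := Complex.normSq_nonneg (S 1 2)
  have z0 : S 0 2 = 0 := Complex.normSq_eq_zero.1 (by linarith)
  have z1 : S 1 2 = 0 := Complex.normSq_eq_zero.1 (by linarith)
  have hw : Complex.normSq (S 2 2) = 1 := by rw [z0, z1] at hc; simpa using hc
  have t0 : S 2 0 = 0 := by rw [sym_apply hT, z0]
  have t1 : S 2 1 = 0 := by rw [sym_apply hT, z1]
  have t2 : S 1 0 = S 0 1 := sym_apply hT 1 0
  have hu := (Matrix.mem_specialUnitaryGroup_iff.1 hS)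
  have hu1 : S * star S = 1 := Matrix.mem_unitaryGroup_iff.1 hu.1
  have hd := hu.2
  have e00 := congrFun (congrFun hu1 0) 0
  have e01 := congrFun (congrFun hu1 0) 1
  simp [Matrix.mul_apply, Fin.sum_univ_three, Matrix.star_apply, z0, z1, t2] at e00 e01
  rw [Matrix.det_fin_three] at hd
  simp only [z0, z1, t0, t1, t2] at hd
  refine ⟨z0, z1, t0, t1, t2, ⟨e00, e01, ?_, ?_⟩⟩
  · rw [Complex.mul_conj, hw]; norm_num
  · linear_combination hd

private theorem fW_of_fx {S : M3} (hB : Blk S) (y : C2) (hy : ‖y‖ = 1)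
    (f : Fx (S 0 0) (S 0 1) (S 1 1) (S 2 2) (y 0) (y 1)) : fW y (S 2 2) = S := by
  have hn := WGa_norm' y hy
  simp only [Complex.star_def] at hn
  have h3 := f.e3 hB.rel
  have h4 := f.e4 hB.rel
  have ha : Real.sqrt (1 - Complex.normSq (S 2 2)) = 0 := by
    have : ((Complex.normSq (S 2 2) : ℝ) : ℂ) = 1 := by
      rw [← Complex.mul_conj]; exact hB.rel.r3
    have h2 : Complex.normSq (S 2 2) = 1 := by exact_mod_cast this
    rw [h2]; simp
  have E00 : -((starRingEnd ℂ) (S 2 2) * y 0 ^ 2 + (starRingEnd ℂ) (y 1) ^ 2) = S 0 0 := by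
    linear_combination (-(y 0)) * f.e1 - ((starRingEnd ℂ) (y 1)) * h3 + (S 0 0) * hn
  have E01 : -((starRingEnd ℂ) (S 2 2) * y 0 * y 1 - (starRingEnd ℂ) (y 0) * (starRingEnd ℂ) (y 1))
      = S 0 1 := by
    linear_combination (-(y 1)) * f.e1 + ((starRingEnd ℂ) (y 0)) * h3 + (S 0 1) * hn
  have E11 : -((starRingEnd ℂ) (S 2 2) * y 1 ^ 2 + (starRingEnd ℂ) (y 0) ^ 2) = S 1 1 := by
    linear_combination (-(y 1)) * f.e2 - ((starRingEnd ℂ) (y 0)) * h4 + (S 1 1) * hn
  ext i j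
  fin_cases i <;> fin_cases j
  · simpa [fW] using E00
  · simpa [fW] using E01
  · simp [fW, ha, hB.s02]
  · show fW y (S 2 2) 1 0 = S 1 0
    rw [hB.s10]
    simpa [fW] using E01
  · simpa [fW] using E11
  · simp [fW, ha, hB.s12]
  · simp [fW, ha, hB.s20]
  · simp [fW, ha, hB.s21]
  · simp [fW]

private theorem fx_of_fW {S : M3} (y : C2) (hy : ‖y‖ = 1) (w : ℂ) (h : fW y w = S) :
    w = S 2 2 ∧ Fx (S 0 0) (S 0 1) (S 1 1) (S 2 2) (y 0) (y 1) := by
  subst h
  have hn := WGa_norm' y hy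
  simp only [Complex.star_def] at hn
  refine ⟨by simp [fW], ⟨?_, ?_⟩⟩
  · simp [fW]
    linear_combination (-(starRingEnd ℂ) w * y 0) * hn
  · simp [fW]
    linear_combination (-(starRingEnd ℂ) w * y 1) * hn

private theorem exists_fx {b0 b1 b2 w : ℂ} (h : Rel b0 b1 b2 w) :
    ∃ u0 u1 : ℂ, Complex.normSq u0 + Complex.normSq u1 ≠ 0 ∧ Fx b0 b1 b2 w u0 u1 := by
  by_cases hv : 1 - w * b0 = 0 ∧ w * b1 = 0
  · refine ⟨Complex.I * (1 + w * b0), Complex.I * (w * b1), ?_, ⟨?_, ?_⟩⟩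
    · have h1 : w * b0 = 1 := by linear_combination -hv.1
      rw [h1, hv.2]
      norm_num
    · simp only [map_mul, map_add, map_one, Complex.conj_I]
      linear_combination (-Complex.I * (starRingEnd ℂ) w) * h.r1 + (Complex.I * b0) * h.r3
    · simp only [map_mul, map_add, map_one, Complex.conj_I]
      linear_combination (-Complex.I * (starRingEnd ℂ) w) * h.r2' + (Complex.I * b1) * h.r3
  · refine ⟨1 - w * b0, -(w * b1), ?_, ⟨?_, ?_⟩⟩
    · intro h0
      apply hv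
      have n0 := Complex.normSq_nonneg (1 - w * b0)
      have n1 := Complex.normSq_nonneg (-(w * b1))
      refine ⟨Complex.normSq_eq_zero.1 (by linarith), ?_⟩
      have : -(w * b1) = 0 := Complex.normSq_eq_zero.1 (by linarith)
      linear_combination -this
    · simp only [map_mul, map_sub, map_neg, map_one]
      linear_combination (-(starRingEnd ℂ) w) * h.r1 - b0 * h.r3
    · simp only [map_mul, map_sub, map_neg, map_one]
      linear_combination (-(starRingEnd ℂ) w) * h.r2' - b1 * h.r3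

private theorem Fx.smul_add {b0 b1 b2 w u0 u1 v0 v1 : ℂ} (f : Fx b0 b1 b2 w u0 u1)
    (g : Fx b0 b1 b2 w v0 v1) (a b : ℝ) :
    Fx b0 b1 b2 w (a * u0 + b * v0) (a * u1 + b * v1) := by
  constructor
  · simp only [map_mul, map_add, Complex.conj_ofReal]
    linear_combination a * f.e1 + b * g.e1
  · simp only [map_mul, map_add, Complex.conj_ofReal]
    linear_combination a * f.e2 + b * g.e2

private theorem Fx.zero (b0 b1 b2 w : ℂ) : Fx b0 b1 b2 w 0 0 := by
  constructor <;> simp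

private theorem Fx.norm_mul {b0 b1 b2 w u0 u1 c : ℂ} (h : Rel b0 b1 b2 w)
    (f : Fx b0 b1 b2 w u0 u1) (hc : c ^ 2 = w) (hcc : c * (starRingEnd ℂ) c = 1) :
    Fx b0 b1 b2 w (c * -(starRingEnd ℂ) u1) (c * (starRingEnd ℂ) u0) := by
  have h3 := f.e3 h
  have h4 := f.e4 h
  have hw : (starRingEnd ℂ) w = (starRingEnd ℂ) c ^ 2 := by rw [← hc, map_pow]
  constructor
  · simp only [map_mul, map_neg, Complex.conj_conj]
    rw [hw]
    linear_combination (-(starRingEnd ℂ) c) * h3 -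
      ((starRingEnd ℂ) c * (starRingEnd ℂ) u1) * hcc
  · simp only [map_mul, map_neg, Complex.conj_conj]
    rw [hw]
    linear_combination ((starRingEnd ℂ) c) * h4 +
      ((starRingEnd ℂ) c * (starRingEnd ℂ) u0) * hcc

private theorem exists_unit_fx {S : M3} (hB : Blk S) :
    ∃ u : C2, ‖u‖ = 1 ∧ Fx (S 0 0) (S 0 1) (S 1 1) (S 2 2) (u 0) (u 1) := by
  obtain ⟨v0, v1, hv, f⟩ := exists_fx hB.rel
  set v : C2 := !₂[v0, v1] with hvd
  have hvn : ‖v‖ ^ 2 = Complex.normSq v0 + Complex.normSq v1 := by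
    rw [WGa_norm]; simp [hvd]
  have hv0 : v ≠ 0 := by
    rintro h0
    apply hv
    rw [← hvn, h0]
    simp
  have hn0 : ‖v‖ ≠ 0 := norm_ne_zero_iff.2 hv0
  refine ⟨(‖v‖⁻¹ : ℝ) • v, ?_, ?_⟩
  · rw [norm_smul, norm_inv, norm_norm, inv_mul_cancel₀ hn0]
  · have := f.smul_add (Fx.zero _ _ _ _) ‖v‖⁻¹ 0
    convert this using 1
    · simp [hvd]
    · simp [hvd]

private theorem eq_of_lt {S : M3} (hS : S ∈ SU3) (hT : Sᵀ = S)
    (h : Complex.normSq (S 2 2) < 1) (y : C2)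
    (h0 : (Real.sqrt (1 - Complex.normSq (S 2 2)) : ℝ) * y 0 = S 0 2)
    (h1 : (Real.sqrt (1 - Complex.normSq (S 2 2)) : ℝ) * y 1 = S 1 2) : fW y (S 2 2) = S := by
  have hc := col_normSq hS 2
  set a : ℝ := Real.sqrt (1 - Complex.normSq (S 2 2)) with ha
  have ha2 : a ^ 2 = 1 - Complex.normSq (S 2 2) := Real.sq_sqrt (by linarith)
  have ha0 : 0 < a := Real.sqrt_pos.2 (by linarith)
  have hne : S 0 2 ≠ 0 ∨ S 1 2 ≠ 0 := by
    by_contra hcon
    push Not at hcon
    rw [hcon.1, hcon.2] at hc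
    simp at hc
    linarith
  have haC : (a : ℂ) ≠ 0 := by exact_mod_cast ha0.ne'
  have hsig := sig_of_col S hS hT hne
  have key : fW y (S 2 2) = sig (fun i => S i 2) := by
    have hn : ((Complex.normSq (S 0 2) + Complex.normSq (S 1 2) : ℝ) : ℂ) = (a : ℂ) ^ 2 := by
      have : Complex.normSq (S 0 2) + Complex.normSq (S 1 2) = a ^ 2 := by rw [ha2]; linarith
      rw [this]; push_cast; ring
    unfold sig fW
    simp only [hc, Real.sqrt_one, hn, ← ha]
    rw [← h0, ← h1]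
    ext i j
    fin_cases i <;> fin_cases j <;> simp <;> field_simp
  rw [key, hsig]

theorem fW_surj (S : M3) (hS : S ∈ SU3) (hT : Sᵀ = S) :
    ∃ (y : C2) (w : ℂ), ‖y‖ = 1 ∧ ‖w‖ ≤ 1 ∧ fW y w = S := by
  have hc := col_normSq hS 2
  have n0 := Complex.normSq_nonneg (S 0 2)
  have n1 := Complex.normSq_nonneg (S 1 2)
  have hw : ‖S 2 2‖ ≤ 1 := by
    have : ‖S 2 2‖ ^ 2 ≤ 1 := by rw [Complex.sq_norm]; linarith
    nlinarith [norm_nonneg (S 2 2)]
  rcases lt_or_ge (Complex.normSq (S 2 2)) 1 with h | h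
  · set a : ℝ := Real.sqrt (1 - Complex.normSq (S 2 2)) with ha
    have ha2 : a ^ 2 = 1 - Complex.normSq (S 2 2) := Real.sq_sqrt (by linarith)
    have ha0 : 0 < a := Real.sqrt_pos.2 (by linarith)
    have haC : (a : ℂ) ≠ 0 := by exact_mod_cast ha0.ne'
    set y : C2 := !₂[S 0 2 / a, S 1 2 / a] with hy
    have y0 : y 0 = S 0 2 / a := by simp [hy]
    have y1 : y 1 = S 1 2 / a := by simp [hy]
    refine ⟨y, S 2 2, ?_, hw, eq_of_lt hS hT h y ?_ ?_⟩
    · have : ‖y‖ ^ 2 = 1 := by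
        rw [WGa_norm, y0, y1, Complex.normSq_div, Complex.normSq_div, Complex.normSq_ofReal]
        field_simp
        rw [ha2]
        linarith
      nlinarith [norm_nonneg y]
    · rw [← ha, y0]; field_simp
    · rw [← ha, y1]; field_simp
  · have hB := blk_of hS hT h
    obtain ⟨u, hu, f⟩ := exists_unit_fx hB
    exact ⟨u, S 2 2, hu, hw, fW_of_fx hB u hu f⟩

private theorem exists_angle (α β : ℝ) (h : α ^ 2 + β ^ 2 = 1) :
    ∃ ψ : ℝ, Real.cos ψ = α ∧ Real.sin ψ = β := by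
  set z : ℂ := ⟨α, β⟩ with hz
  have hn : ‖z‖ = 1 := by
    have : ‖z‖ ^ 2 = 1 := by
      rw [Complex.sq_norm, Complex.normSq_apply, hz]
      simp only
      linarith
    nlinarith [norm_nonneg z]
  have hz0 : z ≠ 0 := by
    intro h0
    rw [h0] at hn
    simp at hn
  refine ⟨Complex.arg z, ?_, ?_⟩
  · rw [Complex.cos_arg hz0, hn]; simp [hz]
  · rw [Complex.sin_arg, hn]; simp [hz]

private theorem fibre_blk {S : M3} (hB : Blk S) {u : C2} (hu : ‖u‖ = 1)
    (f : Fx (S 0 0) (S 0 1) (S 1 1) (S 2 2) (u 0) (u 1)) {c : ℂ} (hc : c ^ 2 = S 2 2)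
    (hcc : c * (starRingEnd ℂ) c = 1) {y : C2} (hy : ‖y‖ = 1)
    (g : Fx (S 0 0) (S 0 1) (S 1 1) (S 2 2) (y 0) (y 1)) :
    ∃ ψ : ℝ, y 0 = Real.cos ψ * u 0 + Real.sin ψ * (c * -(starRingEnd ℂ) (u 1)) ∧
      y 1 = Real.cos ψ * u 1 + Real.sin ψ * (c * (starRingEnd ℂ) (u 0)) := by
  have hnu := WGa_norm' u hu
  have hny := WGa_norm' y hy
  simp only [Complex.star_def] at hnu hny
  have hr3 := hB.rel.r3
  have e3 := f.e3 hB.rel
  have e4 := f.e4 hB.rel
  set w := S 2 2 with hw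
  have hwc : (starRingEnd ℂ) w = (starRingEnd ℂ) c ^ 2 := by rw [← hc, map_pow]
  set A : ℂ := (starRingEnd ℂ) (u 0) * y 0 + (starRingEnd ℂ) (u 1) * y 1 with hA
  set δ : ℂ := -(u 1) * y 0 + u 0 * y 1 with hδ
  set B : ℂ := (starRingEnd ℂ) c * δ with hBd
  have hAc : (starRingEnd ℂ) A = A := by
    rw [hA]
    simp only [map_add, map_mul, Complex.conj_conj]
    have h1 : (starRingEnd ℂ) w * (u 0 * (starRingEnd ℂ) (y 0) + u 1 * (starRingEnd ℂ) (y 1)) =
        (starRingEnd ℂ) w * ((starRingEnd ℂ) (u 0) * y 0 + (starRingEnd ℂ) (u 1) * y 1) := by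
      linear_combination (-(starRingEnd ℂ) (u 0)) * g.e1 - ((starRingEnd ℂ) (u 1)) * g.e2 +
        ((starRingEnd ℂ) (y 0)) * f.e1 + ((starRingEnd ℂ) (y 1)) * f.e2
    have h2 := congrArg (fun z => w * z) h1
    simp only at h2
    linear_combination h2 -
      (u 0 * (starRingEnd ℂ) (y 0) + u 1 * (starRingEnd ℂ) (y 1) -
        ((starRingEnd ℂ) (u 0) * y 0 + (starRingEnd ℂ) (u 1) * y 1)) * hr3
  have hδc : (starRingEnd ℂ) δ = (starRingEnd ℂ) w * δ := by
    rw [hδ]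
    simp only [map_add, map_mul, map_neg]
    linear_combination (u 1) * g.e1 - (u 0) * g.e2 - ((starRingEnd ℂ) (y 0)) * e3 +
      ((starRingEnd ℂ) (y 1)) * e4
  have hBc : (starRingEnd ℂ) B = B := by
    rw [hBd, map_mul, Complex.conj_conj, hδc, hwc]
    linear_combination ((starRingEnd ℂ) c * δ) * hcc
  obtain ⟨α, hα⟩ := Complex.conj_eq_iff_real.1 hAc
  obtain ⟨β, hβ⟩ := Complex.conj_eq_iff_real.1 hBc
  have hδB : δ = c * B := by
    rw [hBd]
    linear_combination (-δ) * hcc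
  have hy0 : y 0 = A * u 0 + δ * -(starRingEnd ℂ) (u 1) := by
    rw [hA, hδ]
    linear_combination (-(y 0)) * hnu
  have hy1 : y 1 = A * u 1 + δ * (starRingEnd ℂ) (u 0) := by
    rw [hA, hδ]
    linear_combination (-(y 1)) * hnu
  have hsum : α ^ 2 + β ^ 2 = 1 := by
    have h1 : A * (starRingEnd ℂ) A + δ * (starRingEnd ℂ) δ = 1 := by
      rw [hA, hδ]
      simp only [map_add, map_mul, map_neg, Complex.conj_conj]
      linear_combination (y 0 * (starRingEnd ℂ) (y 0) + y 1 * (starRingEnd ℂ) (y 1)) * hnu + hny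
    rw [hδB, map_mul, hBc, hAc, hα, hβ] at h1
    have h2 : (α : ℂ) ^ 2 + (β : ℂ) ^ 2 = 1 := by
      linear_combination h1 - (β : ℂ) ^ 2 * hcc
    exact_mod_cast h2
  obtain ⟨ψ, h1, h2⟩ := exists_angle α β hsum
  refine ⟨ψ, ?_, ?_⟩
  · rw [h1, h2, ← hα, ← hβ]
    rw [hδB] at hy0
    linear_combination hy0
  · rw [h1, h2, ← hα, ← hβ]
    rw [hδB] at hy1
    linear_combination hy1

theorem fW_fibre (S : M3) (hS : S ∈ SU3) (hT : Sᵀ = S) :
    IsPreconnected {p : C2 × ℂ | ‖p.1‖ = 1 ∧ ‖p.2‖ ≤ 1 ∧ fW p.1 p.2 = S} := by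
  rcases lt_or_ge (Complex.normSq (S 2 2)) 1 with h | h
  · refine Set.Subsingleton.isPreconnected ?_
    rintro ⟨y, w⟩ ⟨-, -, h1⟩ ⟨y', w'⟩ ⟨-, -, h2⟩
    simp only at h1 h2
    have ha0 : 0 < Real.sqrt (1 - Complex.normSq (S 2 2)) := Real.sqrt_pos.2 (by linarith)
    have haC : ((Real.sqrt (1 - Complex.normSq (S 2 2)) : ℝ) : ℂ) ≠ 0 := by
      exact_mod_cast ha0.ne'
    have w1 : w = S 2 2 := by rw [← h1]; simp [fW]
    have w2 : w' = S 2 2 := by rw [← h2]; simp [fW]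
    subst w1
    subst w2
    have a0 : ((Real.sqrt (1 - Complex.normSq (S 2 2)) : ℝ) : ℂ) * y 0 = S 0 2 := by
      conv_rhs => rw [← h1]
      simp [fW]
    have a1 : ((Real.sqrt (1 - Complex.normSq (S 2 2)) : ℝ) : ℂ) * y 1 = S 1 2 := by
      conv_rhs => rw [← h1]
      simp [fW]
    have b0 : ((Real.sqrt (1 - Complex.normSq (S 2 2)) : ℝ) : ℂ) * y' 0 = S 0 2 := by
      conv_rhs => rw [← h2]
      simp [fW]
    have b1 : ((Real.sqrt (1 - Complex.normSq (S 2 2)) : ℝ) : ℂ) * y' 1 = S 1 2 := by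
      conv_rhs => rw [← h2]
      simp [fW]
    have e0 : y 0 = y' 0 := mul_left_cancel₀ haC (a0.trans b0.symm)
    have e1 : y 1 = y' 1 := mul_left_cancel₀ haC (a1.trans b1.symm)
    have : y = y' := by
      ext i
      fin_cases i
      · exact e0
      · exact e1
    rw [this]
  · have hB := blk_of hS hT h
    obtain ⟨u, hu, f⟩ := exists_unit_fx hB
    obtain ⟨c, hc⟩ := IsAlgClosed.exists_pow_nat_eq (S 2 2) (n := 2) (by norm_num)
    have hcc : c * (starRingEnd ℂ) c = 1 := by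
      have h1 := hB.rel.r3
      rw [Complex.mul_conj] at h1 ⊢
      have h2 : Complex.normSq (S 2 2) = 1 := by exact_mod_cast h1
      rw [← hc, map_pow] at h2
      have h3 : Complex.normSq c = 1 := by nlinarith [Complex.normSq_nonneg c]
      rw [h3]; norm_num
    have hnu := WGa_norm' u hu
    simp only [Complex.star_def] at hnu
    set v : C2 := !₂[c * -(starRingEnd ℂ) (u 1), c * (starRingEnd ℂ) (u 0)] with hv
    have hv0 : v 0 = c * -(starRingEnd ℂ) (u 1) := by simp [hv]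
    have hv1 : v 1 = c * (starRingEnd ℂ) (u 0) := by simp [hv]
    have fv : Fx (S 0 0) (S 0 1) (S 1 1) (S 2 2) (v 0) (v 1) := by
      rw [hv0, hv1]; exact f.norm_mul hB.rel hc hcc
    have hset : {p : C2 × ℂ | ‖p.1‖ = 1 ∧ ‖p.2‖ ≤ 1 ∧ fW p.1 p.2 = S} =
        range (fun ψ : ℝ => (((Real.cos ψ : ℝ) : ℂ) • u + ((Real.sin ψ : ℝ) : ℂ) • v, S 2 2)) := by
      ext ⟨y, w⟩
      constructor
      · rintro ⟨h1, -, h2⟩
        simp only at h1 h2
        obtain ⟨hw, g⟩ := fx_of_fW y h1 w h2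
        obtain ⟨ψ, g0, g1⟩ := fibre_blk hB hu f hc hcc h1 g
        refine ⟨ψ, ?_⟩
        simp only [Prod.mk.injEq]
        refine ⟨?_, hw.symm⟩
        ext i
        fin_cases i
        · show (Real.cos ψ : ℂ) * u 0 + (Real.sin ψ : ℂ) * v 0 = y 0
          rw [hv0, g0]
        · show (Real.cos ψ : ℂ) * u 1 + (Real.sin ψ : ℂ) * v 1 = y 1
          rw [hv1, g1]
      · rintro ⟨ψ, hψ⟩
        simp only [Prod.mk.injEq] at hψ
        obtain ⟨rfl, rfl⟩ := hψ
        have hn : ‖((Real.cos ψ : ℝ) : ℂ) • u + ((Real.sin ψ : ℝ) : ℂ) • v‖ = 1 := by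
          have h2 : ‖((Real.cos ψ : ℝ) : ℂ) • u + ((Real.sin ψ : ℝ) : ℂ) • v‖ ^ 2 = 1 := by
            rw [WGa_norm]
            have c0 : (((Real.cos ψ : ℝ) : ℂ) • u + ((Real.sin ψ : ℝ) : ℂ) • v) 0 =
                (Real.cos ψ : ℂ) * u 0 + (Real.sin ψ : ℂ) * (c * -(starRingEnd ℂ) (u 1)) := by
              rw [← hv0]; rfl
            have c1 : (((Real.cos ψ : ℝ) : ℂ) • u + ((Real.sin ψ : ℝ) : ℂ) • v) 1 =
                (Real.cos ψ : ℂ) * u 1 + (Real.sin ψ : ℂ) * (c * (starRingEnd ℂ) (u 0)) := by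
              rw [← hv1]; rfl
            rw [c0, c1]
            have hcs : ((Real.cos ψ : ℝ) : ℂ) ^ 2 + ((Real.sin ψ : ℝ) : ℂ) ^ 2 = 1 := by
              have := Real.cos_sq_add_sin_sq ψ
              exact_mod_cast this
            have h3 : ((Complex.normSq ((Real.cos ψ : ℂ) * u 0 +
                (Real.sin ψ : ℂ) * (c * -(starRingEnd ℂ) (u 1))) +
                Complex.normSq ((Real.cos ψ : ℂ) * u 1 +
                (Real.sin ψ : ℂ) * (c * (starRingEnd ℂ) (u 0))) : ℝ) : ℂ) = 1 := by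
              rw [Complex.ofReal_add, ← Complex.mul_conj, ← Complex.mul_conj]
              simp only [map_add, map_mul, map_neg, Complex.conj_conj, Complex.conj_ofReal]
              generalize ((Real.cos ψ : ℝ) : ℂ) = C at hcs ⊢
              generalize ((Real.sin ψ : ℝ) : ℂ) = D at hcs ⊢
              linear_combination hcs + (C ^ 2) * hnu +
                (D ^ 2 * c * (starRingEnd ℂ) c) * hnu + (D ^ 2) * hcc
            exact_mod_cast h3
          nlinarith [norm_nonneg (((Real.cos ψ : ℝ) : ℂ) • u + ((Real.sin ψ : ℝ) : ℂ) • v)]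
        refine ⟨hn, ?_, ?_⟩
        · have h1 := hB.rel.r3
          rw [Complex.mul_conj] at h1
          have h2 : Complex.normSq (S 2 2) = 1 := by exact_mod_cast h1
          rw [Complex.normSq_eq_norm_sq] at h2
          simp only
          nlinarith [norm_nonneg (S 2 2)]
        · exact fW_of_fx hB _ hn (f.smul_add fv _ _)
    rw [hset]
    refine isPreconnected_range ?_
    fun_prop

private theorem sphere_conn : IsConnected (sphere (0 : C2) 1) := by
  let _ : NormedSpace ℝ C2 := NormedSpace.restrictScalars ℝ ℂ C2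
  refine isConnected_sphere ?_ 0 (by norm_num)
  have h1 : Module.finrank ℝ C2 = 4 := by
    have h2 : Module.finrank ℝ ℂ * Module.finrank ℂ C2 = Module.finrank ℝ C2 :=
      Module.finrank_mul_finrank ℝ ℂ C2
    rw [Complex.finrank_real_complex, finrank_euclideanSpace_fin] at h2
    omega
  rw [← Module.finrank_eq_rank, h1]
  norm_num

private theorem base_comp : IsCompact ((sphere (0 : C2) 1) ×ˢ (closedBall (0 : ℂ) 1)) :=
  (isCompact_sphere _ _).prod (isCompact_closedBall _ _)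

private theorem base_conn : IsConnected ((sphere (0 : C2) 1) ×ˢ (closedBall (0 : ℂ) 1)) :=
  sphere_conn.prod ((convex_closedBall (0 : ℂ) 1).isConnected ⟨0, by simp⟩)

private noncomputable def gW (p : ↥((sphere (0 : C2) 1) ×ˢ (closedBall (0 : ℂ) 1))) : WX :=
  ⟨fW p.1.1 p.1.2, fW_mem _ _ (by simpa using p.2.1) (by simpa using p.2.2)⟩

private theorem gW_cont : Continuous gW :=
  (continuous_fW.comp continuous_subtype_val).subtype_mk _

private theorem gW_surj : Function.Surjective gW := by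
  rintro ⟨S, hS, hT⟩
  obtain ⟨y, w, hy, hw, h⟩ := fW_surj S hS hT
  refine ⟨⟨(y, w), by simpa using hy, by simpa using hw⟩, ?_⟩
  apply Subtype.ext
  exact h

theorem closed_WM : WM.Closed := by
  have _ : CompactSpace ↥((sphere (0 : C2) 1) ×ˢ (closedBall (0 : ℂ) 1)) :=
    isCompact_iff_compactSpace.1 base_comp
  have _ : ConnectedSpace ↥((sphere (0 : C2) 1) ×ˢ (closedBall (0 : ℂ) 1)) :=
    isConnected_iff_connectedSpace.1 base_conn
  exact ⟨gW_surj.compactSpace gW_cont, gW_surj.connectedSpace gW_cont⟩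

end Wu
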