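import Pool.Agent.Lib.MP_60079e_gt.FnC
import Pool.Agent.Lib.MP_60079e_gt.Quot
import Pool.Agent.Lib.MP_60079e_gt.WGb

/-! The quotient `A = W / μ₃` and the function `F` on `A × ℝ`. -/

open Set Metric Topology Matrix
open scoped ContDiff

namespace Wu

/-- `A = W/μ₃` with the function `F`. -/
structure BaseA where
  A : Mfd E5
  closed : A.Closed
  π : WX → A.X
  surj : Function.Surjective π
  op : ∀ x, OPAt WM A π x
  fib : ∀ x y : WX, π x = π y ↔ ∃ k < 3, x = omW k y
  cov : IsCoveringMap π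
  F : A.X × ℝ → ℝ
  hF : ∀ T h, F (π T, h) = FW (T, h)
  smF : ∀ p, SmAt (prodR A) F p
  regF : ∀ p, F p = 0 → SubmAt (prodR A) F p
  properF : ∃ b : ℝ, ∀ p, F p = 0 → |p.2| ≤ b

theorem baseA_omW_zero (T : WX) : omW 0 T = T := by
  apply Subtype.ext
  show om ^ 0 • T.1 = T.1
  rw [pow_zero, one_smul]

theorem baseA_omW_two (T : WX) : omW 2 T = omW 1 (omW 1 T) := by
  apply Subtype.ext
  show om ^ 2 • T.1 = om ^ 1 • (om ^ 1 • T.1)
  rw [smul_smul, ← pow_add]

theorem baseA_omW_three (T : WX) : omW 1 (omW 1 (omW 1 T)) = T := by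
  apply Subtype.ext
  show om ^ 1 • (om ^ 1 • (om ^ 1 • T.1)) = T.1
  rw [smul_smul, smul_smul, ← pow_add, ← pow_add, om_cube, one_smul]

theorem baseA_FW (T : WX) (k : ℕ) (h : ℝ) : FW (omW k T, h) = FW (T, h) := by
  show h ^ 3 + al (om ^ k • T.1) * h + be (om ^ k • T.1) = h ^ 3 + al T.1 * h + be T.1
  rw [al_om, be_om]

theorem baseA_cubic (a b h B : ℝ) (ha : -3 ≤ a) (hb : |b| ≤ B) (h0 : h ^ 3 + a * h + b = 0) :
    |h| ≤ 3 + B := by
  have hB : 0 ≤ B := (abs_nonneg b).trans hb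
  have hb1 := (abs_le.1 hb).1
  have hb2 := (abs_le.1 hb).2
  by_contra hcon
  push Not at hcon
  rcases le_or_gt 0 h with hh | hh
  · rw [abs_of_nonneg hh] at hcon
    have h1 : 0 ≤ (a + 3) * h := mul_nonneg (by linarith) hh
    have h2 : 6 * h ≤ h * (h ^ 2 - 3) := by
      have : 9 ≤ h ^ 2 := by nlinarith
      nlinarith
    nlinarith
  · rw [abs_of_neg hh] at hcon
    have h1 : 0 ≤ (a + 3) * (-h) := mul_nonneg (by linarith) (by linarith)
    have h2 : 6 * (-h) ≤ (-h) * (h ^ 2 - 3) := by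
      have : 9 ≤ h ^ 2 := by nlinarith
      nlinarith
    nlinarith

theorem exists_baseA : Nonempty BaseA := by
  obtain ⟨A, π, surj, op, fib', cov⟩ := exists_quot WM (omW 1) (opAt_omW 1) baseA_omW_three
    (fun x => omW_ne (Or.inl rfl) x)
  have fib : ∀ x y : WX, π x = π y ↔ ∃ k < 3, x = omW k y := by
    intro x y
    rw [eq_comm, fib' y x]
    constructor
    · rintro (h | h | h)
      · exact ⟨0, by norm_num, by rw [baseA_omW_zero]; exact h⟩
      · exact ⟨1, by norm_num, h⟩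
      · exact ⟨2, by norm_num, by rw [baseA_omW_two]; exact h⟩
    · rintro ⟨k, hk, h⟩
      interval_cases k
      · left; rw [baseA_omW_zero] at h; exact h
      · right; left; exact h
      · right; right; rw [baseA_omW_two] at h; exact h
  have hcont : Continuous π := continuous_iff_continuousAt.2 fun x => (op x).1
  have hclosed : A.Closed := by
    obtain ⟨h1, h2⟩ := closed_WM
    have := h1
    have := h2
    exact ⟨surj.compactSpace hcont, surj.connectedSpace hcont⟩
  set F : A.X × ℝ → ℝ := fun p => FW (Function.surjInv surj p.1, p.2) with hFdef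
  have hF : ∀ T h, F (π T, h) = FW (T, h) := by
    intro T h
    obtain ⟨k, _, hk⟩ := (fib (Function.surjInv surj (π T)) T).1 (Function.surjInv_eq surj (π T))
    show FW (Function.surjInv surj (π T), h) = FW (T, h)
    rw [hk, baseA_FW]
  refine ⟨⟨A, hclosed, π, surj, op, fib, cov, F, hF, ?_, ?_, ?_⟩⟩
  · rintro ⟨a, h⟩
    obtain ⟨T, rfl⟩ := surj a
    have h1 : SmAt (prodR WM) (fun y : (prodR WM).X => F ((fun p : (prodR WM).X => (π p.1, p.2)) y))
        (T, h) := by
      have h2 : (fun y : (prodR WM).X => F ((fun p : (prodR WM).X => (π p.1, p.2)) y)) = FW :=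
        funext fun y => hF y.1 y.2
      rw [h2]
      exact smAt_FW (T, h)
    exact SmAt.of_comp_op (M := prodR WM) (N := prodR A) (opAt_prodR (op T) h) h1
  · rintro ⟨a, h⟩ h0
    obtain ⟨T, rfl⟩ := surj a
    have h1 : SubmAt (prodR WM)
        (fun y : (prodR WM).X => F ((fun p : (prodR WM).X => (π p.1, p.2)) y)) (T, h) := by
      have h2 : (fun y : (prodR WM).X => F ((fun p : (prodR WM).X => (π p.1, p.2)) y)) = FW :=
        funext fun y => hF y.1 y.2
      rw [h2]
      exact submAt_FW (T, h) (by rw [← hF]; exact h0)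
    exact SubmAt.of_comp_op (M := prodR WM) (N := prodR A) (opAt_prodR (op T) h) h1
  · obtain ⟨b, hb⟩ := be_bound
    refine ⟨3 + b, ?_⟩
    rintro ⟨a, h⟩ h0
    obtain ⟨T, rfl⟩ := surj a
    rw [hF] at h0
    exact baseA_cubic (al T.1) (be T.1) h b (al_ge T) (hb T) h0

namespace BaseA
variable (B : BaseA)

/-- the second cell, in `A` -/
theorem oEmb_ib : OEmb (euc E5) B.A (fun x : E5 => B.π (ib x)) univ := by
  refine ⟨fun x _ => (B.op (ib x)).comp (opAt_ib x), ?_⟩
  intro x _ y _ hxy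
  obtain ⟨k, _, hk⟩ := (B.fib (ib x) (ib y)).1 hxy
  exact ib_inj x y k hk

/-- Outside of the second cell `F (a, h) = h³ + h`. -/
theorem F_outside : ∃ R : ℝ, 0 < R ∧ ∀ a : B.A.X,
    a ∉ (fun x : E5 => B.π (ib x)) '' closedBall (0 : E5) R → ∀ h, B.F (a, h) = h ^ 3 + h := by
  obtain ⟨R, hR, hib⟩ := ib_tube
  refine ⟨R, hR, ?_⟩
  intro a ha h
  obtain ⟨T, rfl⟩ := B.surj a
  have key : ∀ k < 3, 4 * rr < mu (om ^ k • T.1) := by
    intro k hk
    by_contra hcon
    push Not at hcon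
    obtain ⟨x, hx, hxT⟩ := hib (omW k T) hcon
    apply ha
    refine ⟨x, ?_, ?_⟩
    · rw [mem_closedBall, dist_zero_right]
      exact hx
    · show B.π (ib x) = B.π T
      rw [hxT]
      exact (B.fib (omW k T) T).2 ⟨k, hk, rfl⟩
  rw [B.hF]
  show h ^ 3 + al T.1 * h + be T.1 = h ^ 3 + h
  have hrr : 0 ≤ rr := by
    unfold rr
    positivity
  rw [al_outside T.1 (fun k hk => by linarith [key k hk]),
    be_outside T.1 (fun k hk => (key k hk).le)]
  ring

end BaseA

end Wu
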