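import Pool.Agent.Lib.MP_60079e_gt.BaseP

/-! Mapping to `P`. -/

open Set Metric Topology Matrix
open scoped ContDiff

namespace Wu

/-- Mapping to `P`. -/
theorem BaseP.exists_map {B : BaseA} {S0 : WX} (Q : BaseP B S0) (N : Mfd E5) (U : Set N.X)
    (hU : IsOpen U) (hUc : IsPreconnected U) (x0 : N.X) (hx0 : x0 ∈ U) (f : N.X → B.A.X)
    (ρ : N.X → ℝ) (hf : ∀ x ∈ U, OPAt N B.A f x) (hρ : ∀ x ∈ U, ContinuousAt ρ x)
    (hF : ∀ x ∈ U, B.F (f x, ρ x) = 0) (hd : ∀ x ∈ U, 0 < deriv (fun h => B.F (f x, h)) (ρ x))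
    (hinj : ∀ x ∈ U, ∀ y ∈ U, f x = f y → ρ x = ρ y → x = y) (hb : f x0 = B.π S0)
    (hb' : ρ x0 = 0) :
    ∃ Φ : N.X → Q.P.X, OEmb N Q.P Φ U ∧ ∀ x ∈ U, Q.ι (Φ x) = (f x, ρ x) := by
  have hcont : ∀ x ∈ U, ContinuousAt (fun x => (f x, ρ x)) x := fun x hx =>
    (hf x hx).1.prodMk (hρ x hx)
  have hC : IsPreconnected ((fun x => (f x, ρ x)) '' U) :=
    hUc.image _ (fun x hx => (hcont x hx).continuousWithinAt)
  have hsub := Q.comp _ hC ⟨x0, hx0, Prod.ext hb hb'⟩ (by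
    rintro p ⟨x, hx, rfl⟩
    exact hF x hx)
  have hne : Nonempty Q.P.X := by
    obtain ⟨y, _⟩ := hsub ⟨x0, hx0, rfl⟩
    exact ⟨y⟩
  have hι : ∀ x ∈ U, Q.ι (Function.invFun Q.ι (f x, ρ x)) = (f x, ρ x) := fun x hx =>
    Function.invFun_eq (hsub ⟨x, hx, rfl⟩)
  refine ⟨fun x => Function.invFun Q.ι (f x, ρ x), ⟨?_, ?_⟩, hι⟩
  · intro x hx
    have hUx : U ∈ 𝓝 x := hU.mem_nhds hx
    refine OPAt.lift (q := fun y' => (Q.ι y').1) ?_ ?_ ?_
    · refine Q.op _ ?_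
      rw [hι x hx]
      exact hd x hx
    · rw [Q.emb.isInducing.continuousAt_iff]
      refine (hcont x hx).congr ?_
      filter_upwards [hUx] with y hy
      exact (hι y hy).symm
    · refine (hf x hx).congr ?_
      filter_upwards [hUx] with y hy
      rw [hι y hy]
  · intro x hx y hy h
    have h1 : (f x, ρ x) = (f y, ρ y) := by
      rw [← hι x hx, ← hι y hy]
      exact congrArg Q.ι h
    rw [Prod.mk.injEq] at h1
    exact hinj x hx y hy h1.1 h1.2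

end Wu
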