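import Pool.Agent.Lib.MP_60079e_gt.OPb

/-! Construction of manifolds from local homeomorphisms to other manifolds; open submanifolds. -/

open Set Metric Topology
open scoped ContDiff

namespace Wu

variable {E : Type} [NormedAddCommGroup E] [NormedSpace ℝ E]

theorem glue_cover {Y : Type} [TopologicalSpace Y] {ι : Type} (M : ι → Mfd E)
    (e : (i : ι) → OpenPartialHomeomorph Y (M i).X) (hc : ∀ y, ∃ i, y ∈ (e i).source) (y : Y) :
    ∃ c ∈ {c : OpenPartialHomeomorph Y E | ∃ i, ∃ d ∈ (M i).atlas, c = (e i).trans d},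
      y ∈ c.source := by
  obtain ⟨i, hi⟩ := hc y
  obtain ⟨d, hd, hyd⟩ := (M i).cover (e i y)
  refine ⟨(e i).trans d, ⟨i, d, hd, rfl⟩, ?_⟩
  rw [OpenPartialHomeomorph.trans_source]
  exact ⟨hi, hyd⟩

theorem glue_compat {Y : Type} [TopologicalSpace Y] {ι : Type} (M : ι → Mfd E)
    (e : (i : ι) → OpenPartialHomeomorph Y (M i).X)
    (ht : ∀ i j y, y ∈ (e i).source → y ∈ (e j).source →
      OPAt (M i) (M j) (fun x => e j ((e i).symm x)) (e i y)) :
    ∀ c ∈ {c : OpenPartialHomeomorph Y E | ∃ i, ∃ d ∈ (M i).atlas, c = (e i).trans d},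
    ∀ d ∈ {c : OpenPartialHomeomorph Y E | ∃ i, ∃ d ∈ (M i).atlas, c = (e i).trans d},
    ∀ x : Y, x ∈ c.source → x ∈ d.source →
    ContDiffAt ℝ ∞ (d ∘ c.symm) (c x) ∧ 0 < (fderiv ℝ (d ∘ c.symm) (c x)).det := by
  rintro c ⟨i, a, ha, rfl⟩ d ⟨j, b, hb, rfl⟩ x hxc hxd
  rw [OpenPartialHomeomorph.trans_source] at hxc hxd
  obtain ⟨hxi, hxa⟩ := hxc
  obtain ⟨hxj, hxb⟩ := hxd
  refine (ht i j x hxi hxj).chart ha hb hxa ?_
  show e j ((e i).symm (e i x)) ∈ b.source
  rw [(e i).left_inv hxi]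
  exact hxb

/-- The manifold structure on `Y` for which the local homeomorphisms `e i : Y → M i` are
orientation preserving local diffeomorphisms. -/
@[reducible] def glue (Y : Type) [TopologicalSpace Y] [T2Space Y] {ι : Type} (M : ι → Mfd E)
    (e : (i : ι) → OpenPartialHomeomorph Y (M i).X) (hc : ∀ y, ∃ i, y ∈ (e i).source)
    (ht : ∀ i j y, y ∈ (e i).source → y ∈ (e j).source →
      OPAt (M i) (M j) (fun x => e j ((e i).symm x)) (e i y)) : Mfd E where
  X := Y
  atlas := {c | ∃ i, ∃ d ∈ (M i).atlas, c = (e i).trans d}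
  cover := glue_cover M e hc
  compat := glue_compat M e ht

section
variable {Y : Type} [TopologicalSpace Y] [T2Space Y] {ι : Type} (M : ι → Mfd E)
    (e : (i : ι) → OpenPartialHomeomorph Y (M i).X) (hc : ∀ y, ∃ i, y ∈ (e i).source)
    (ht : ∀ i j y, y ∈ (e i).source → y ∈ (e j).source →
      OPAt (M i) (M j) (fun x => e j ((e i).symm x)) (e i y))

theorem opAt_glue (i : ι) {y : Y} (hy : y ∈ (e i).source) :
    OPAt (glue Y M e hc ht) (M i) (e i) y := by
  obtain ⟨d, hd, hyd⟩ := (M i).cover (e i y)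
  have hys : y ∈ ((e i).trans d).source := by
    rw [OpenPartialHomeomorph.trans_source]
    exact ⟨hy, hyd⟩
  refine ⟨(e i).continuousAt hy, (e i).trans d, ⟨i, d, hd, rfl⟩, d, hd, hys, hyd, ?_⟩
  exact glue_compat M e ht _ ⟨i, d, hd, rfl⟩ _ ⟨i, d, hd, rfl⟩ y hys hys

theorem opAt_glue_symm (i : ι) {x : (M i).X} (hx : x ∈ (e i).target) :
    OPAt (M i) (glue Y M e hc ht) (e i).symm x := by
  obtain ⟨d, hd, hxd⟩ := (M i).cover x
  have hr : e i ((e i).symm x) = x := (e i).right_inv hx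
  have hys : (e i).symm x ∈ ((e i).trans d).source := by
    rw [OpenPartialHomeomorph.trans_source]
    refine ⟨(e i).map_target hx, ?_⟩
    show e i ((e i).symm x) ∈ d.source
    rw [hr]
    exact hxd
  refine ⟨(e i).continuousAt_symm hx, d, hd, (e i).trans d, ⟨i, d, hd, rfl⟩, hxd, hys, ?_⟩
  have h := glue_compat M e ht _ ⟨i, d, hd, rfl⟩ _ ⟨i, d, hd, rfl⟩ _ hys hys
  have h1 : ((e i).trans d) ((e i).symm x) = d x := by
    show d (e i ((e i).symm x)) = d x
    rw [hr]
  rw [h1] at h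
  exact h

end

/-- Open submanifolds. -/
theorem exists_restr (M : Mfd E) (U : Set M.X) (hU : IsOpen U) (hne : U.Nonempty) :
    ∃ (R : Mfd E) (v : R.X → M.X), IsOpenEmbedding v ∧ range v = U ∧
      ∀ x, OPAt R M v x := by
  have : Nonempty U := hne.to_subtype
  have he := hU.isOpenEmbedding_subtypeVal
  let e0 : OpenPartialHomeomorph U M.X := he.toOpenPartialHomeomorph
  have hs : ∀ y : U, y ∈ e0.source := fun y => by simp [e0]
  have ht : ∀ (i j : Unit) (y : U), y ∈ ((fun _ : Unit => e0) i).source →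
      y ∈ ((fun _ : Unit => e0) j).source →
      OPAt M M (fun x => ((fun _ : Unit => e0) j) ((((fun _ : Unit => e0) i)).symm x))
        (((fun _ : Unit => e0) i) y) := by
    intro i j y hy _
    refine (opAt_id M _).congr ?_
    have h1 : e0.target ∈ 𝓝 (e0 y) := e0.open_target.mem_nhds (e0.map_source hy)
    filter_upwards [h1] with x hx
    exact (e0.right_inv hx).symm
  refine ⟨glue U (fun _ : Unit => M) (fun _ => e0) (fun y => ⟨(), hs y⟩) ht, Subtype.val, he,
    Subtype.range_coe, fun x => ?_⟩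
  exact opAt_glue (fun _ : Unit => M) (fun _ => e0) (fun y => ⟨(), hs y⟩) ht () (hs x)

end Wu
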