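import Pool.Agent.Lib.MP_60079e_gt.HypA
import Pool.Agent.Lib.MP_60079e_gt.Glue

/-! Regular hypersurfaces `{F = 0}` in `M × ℝ` are manifolds. -/

open Set Metric Topology
open scoped ContDiff

namespace Wu

/-- The chart of `{F = 0}` given by a slice chart. -/
theorem exists_sliceChart (M : Mfd E5) (F : M.X × ℝ → ℝ) (hne : ∃ p, F p = 0)
    (Θ : OpenPartialHomeomorph (M.X × ℝ) (E5 × ℝ)) (hΘ : IsSlice M F Θ) :
    ∃ e : OpenPartialHomeomorph {p : M.X × ℝ // F p = 0} E5,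
      (∀ y, y ∈ e.source ↔ (y : M.X × ℝ) ∈ Θ.source) ∧ (∀ y, e y = (Θ y).1) ∧
      (∀ z, z ∈ e.target ↔ (z, (0 : ℝ)) ∈ Θ.target) ∧
      ∀ z ∈ e.target, ((e.symm z : {p : M.X × ℝ // F p = 0}) : M.X × ℝ) = Θ.symm (z, 0) := by
  classical
  obtain ⟨p0, hp0⟩ := hne
  have hF0 : ∀ z : E5, (z, (0 : ℝ)) ∈ Θ.target → F (Θ.symm (z, 0)) = 0 := by
    intro z hz
    rw [← hΘ.1 _ (Θ.map_target hz), Θ.right_inv hz]
  have hΘ0 : ∀ y : {p : M.X × ℝ // F p = 0}, (y : M.X × ℝ) ∈ Θ.source →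
      ((Θ y).1, (0 : ℝ)) = Θ y := by
    intro y hy
    have h1 := hΘ.1 _ hy
    rw [y.2] at h1
    exact Prod.ext rfl h1.symm
  have hcont1 : ContinuousOn (fun y : {p : M.X × ℝ // F p = 0} => (Θ y).1)
      (Subtype.val ⁻¹' Θ.source) := by
    refine continuous_fst.comp_continuousOn ?_
    exact Θ.continuousOn.comp continuous_subtype_val.continuousOn fun y hy => hy
  refine ⟨{
    toFun := fun y => (Θ y).1
    invFun := fun z => if h : F (Θ.symm (z, 0)) = 0 then ⟨Θ.symm (z, 0), h⟩ else ⟨p0, hp0⟩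
    source := Subtype.val ⁻¹' Θ.source
    target := (fun z : E5 => (z, (0 : ℝ))) ⁻¹' Θ.target
    map_source' := fun y hy => by
      change ((Θ y).1, (0 : ℝ)) ∈ Θ.target
      rw [hΘ0 y hy]
      exact Θ.map_source hy
    map_target' := fun z hz => by
      have h1 := hF0 z hz
      simp only [h1, dite_true]
      exact Θ.map_target hz
    left_inv' := fun y hy => by
      have h2 : Θ.symm ((Θ y).1, (0 : ℝ)) = y := by
        rw [hΘ0 y hy, Θ.left_inv hy]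
      have h1 : F (Θ.symm ((Θ y).1, (0 : ℝ))) = 0 := by
        rw [h2]
        exact y.2
      simp only [h1, dite_true]
      exact Subtype.ext h2
    right_inv' := fun z hz => by
      have h1 := hF0 z hz
      simp only [h1, dite_true]
      rw [Θ.right_inv hz]
    open_source := Θ.open_source.preimage continuous_subtype_val
    open_target := Θ.open_target.preimage (by fun_prop)
    continuousOn_toFun := hcont1
    continuousOn_invFun := ?_ }, fun y => Iff.rfl, fun y => rfl, fun z => Iff.rfl, ?_⟩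
  · have hind : IsInducing (Subtype.val : {p : M.X × ℝ // F p = 0} → M.X × ℝ) :=
      IsInducing.subtypeVal (t := {p | F p = 0})
    rw [hind.continuousOn_iff]
    have h2 : ContinuousOn (fun z : E5 => Θ.symm (z, (0 : ℝ)))
        ((fun z : E5 => (z, (0 : ℝ))) ⁻¹' Θ.target) := by
      refine Θ.continuousOn_symm.comp (Continuous.continuousOn (by fun_prop)) fun z hz => hz
    refine h2.congr fun z hz => ?_
    have h1 := hF0 z hz
    simp only [Function.comp_apply, h1, dite_true]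
  · intro z hz
    have h1 := hF0 z hz
    change ((if h : F (Θ.symm (z, 0)) = 0 then ⟨Θ.symm (z, 0), h⟩ else ⟨p0, hp0⟩ :
      {p : M.X × ℝ // F p = 0}) : M.X × ℝ) = Θ.symm (z, 0)
    rw [dif_pos h1]

/-- Transition maps between slice charts. -/
theorem slice_transition (M : Mfd E5) (F : M.X × ℝ → ℝ)
    (Θ Θ' : OpenPartialHomeomorph (M.X × ℝ) (E5 × ℝ)) (hΘ : IsSlice M F Θ)
    (hΘ' : IsSlice M F Θ') (p : M.X × ℝ) (hp : F p = 0) (h1 : p ∈ Θ.source)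
    (h2 : p ∈ Θ'.source) :
    OPAt (euc E5) (euc E5) (fun z : E5 => (Θ' (Θ.symm (z, 0))).1) (Θ p).1 := by
  have hemb : OEmb (prodR M) (euc (E5 × ℝ)) Θ Θ.source := ⟨hΘ.2, Θ.injOn⟩
  have hs : OPAt (euc (E5 × ℝ)) (prodR M) Θ.symm (Θ p) :=
    hemb.inv Θ.open_source (fun x hx => Θ.left_inv hx) p h1
  have hs' : OPAt (prodR M) (euc (E5 × ℝ)) Θ' (Θ.symm (Θ p)) := by
    rw [Θ.left_inv h1]
    exact hΘ'.2 p h2
  have hG : OPAt (euc (E5 × ℝ)) (euc (E5 × ℝ)) (fun q => Θ' (Θ.symm q)) (Θ p) := hs'.comp hs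
  rw [OPAt.euc_iff] at hG ⊢
  obtain ⟨hG1, hG2⟩ := hG
  have hzp : Θ p = ((Θ p).1, (0 : ℝ)) := by
    have h3 := hΘ.1 _ h1
    rw [hp] at h3
    exact Prod.ext rfl h3
  rw [hzp] at hG1 hG2
  set z0 : E5 := (Θ p).1 with hz0
  have hzt : (z0, (0 : ℝ)) ∈ Θ.target := by
    rw [← hzp]
    exact Θ.map_source h1
  have hG1' : ContDiffAt ℝ ∞ (fun q : E5 × ℝ => Θ' (Θ.symm q)) (z0, (0 : ℝ)) := hG1
  have hd : HasFDerivAt (fun q : E5 × ℝ => Θ' (Θ.symm q))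
      (fderiv ℝ (fun q : E5 × ℝ => Θ' (Θ.symm q)) (z0, (0 : ℝ))) (z0, (0 : ℝ)) :=
    (hG1'.differentiableAt (by simp)).hasFDerivAt
  set L := fderiv ℝ (fun q : E5 × ℝ => Θ' (Θ.symm q)) (z0, (0 : ℝ)) with hL
  -- the last coordinate is preserved
  have hlast : (fun q : E5 × ℝ => (Θ' (Θ.symm q)).2) =ᶠ[𝓝 (z0, (0 : ℝ))] fun q => q.2 := by
    have e1 : ∀ᶠ q in 𝓝 (z0, (0 : ℝ)), Θ.symm q ∈ Θ'.source := by
      apply (Θ.continuousAt_symm hzt).eventually_mem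
      apply Θ'.open_source.mem_nhds
      rw [← hzp, Θ.left_inv h1]
      exact h2
    filter_upwards [e1, Θ.open_target.mem_nhds hzt] with q hq1 hq2
    rw [hΘ'.1 _ hq1, ← hΘ.1 _ (Θ.map_target hq2), Θ.right_inv hq2]
  have hL2 : ∀ v, (L v).2 = v.2 := by
    have h3 : HasFDerivAt (fun q : E5 × ℝ => (Θ' (Θ.symm q)).2)
        ((ContinuousLinearMap.snd ℝ E5 ℝ).comp L) (z0, (0 : ℝ)) := hd.snd
    have h4 : HasFDerivAt (fun q : E5 × ℝ => q.2) (ContinuousLinearMap.snd ℝ E5 ℝ)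
      (z0, (0 : ℝ)) := hasFDerivAt_snd
    have h5 := h3.congr_of_eventuallyEq hlast.symm
    intro v
    exact congrArg (fun T : E5 × ℝ →L[ℝ] ℝ => T v) (h5.unique h4)
  have hinl : HasFDerivAt (fun z : E5 => (z, (0 : ℝ))) (ContinuousLinearMap.inl ℝ E5 ℝ) z0 :=
    hasFDerivAt_prodMk_left z0 (0 : ℝ)
  have hcomp : HasFDerivAt (fun z : E5 => (Θ' (Θ.symm (z, (0 : ℝ)))).1)
      (((ContinuousLinearMap.fst ℝ E5 ℝ).comp L).comp (ContinuousLinearMap.inl ℝ E5 ℝ)) z0 :=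
    HasFDerivAt.comp (g := fun q : E5 × ℝ => (Θ' (Θ.symm q)).1) z0 hd.fst hinl
  constructor
  · have h6 : ContDiffAt ℝ ∞ (fun z : E5 => (z, (0 : ℝ))) z0 := by fun_prop
    exact (ContDiffAt.comp z0 hG1' h6).fst
  · rw [hcomp.fderiv, ← det_block_snd L hL2]
    exact hG2

/-- Regular hypersurfaces. -/
theorem exists_hyp (M : Mfd E5) (F : M.X × ℝ → ℝ) (hF : ∀ p, SmAt (prodR M) F p)
    (hreg : ∀ p, F p = 0 → SubmAt (prodR M) F p) :
    ∃ (H : Mfd E5) (ι : H.X → M.X × ℝ), IsClosedEmbedding ι ∧ range ι = {p | F p = 0} ∧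
      ∀ y, 0 < deriv (fun h => F ((ι y).1, h)) (ι y).2 →
        OPAt H M (fun y' => (ι y').1) y := by
  have hFc : Continuous F := continuous_iff_continuousAt.2 fun p => (hF p).continuousAt
  have hcl : IsClosed {p | F p = 0} := isClosed_eq hFc continuous_const
  by_cases hne : ∃ p, F p = 0
  swap
  · refine ⟨{
      X := {p : M.X × ℝ // F p = 0}
      atlas := ∅
      cover := fun y => absurd ⟨y.1, y.2⟩ hne
      compat := fun c hc => absurd hc (Set.notMem_empty c) }, Subtype.val,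
      hcl.isClosedEmbedding_subtypeVal, Subtype.range_coe, fun y => absurd ⟨y.1, y.2⟩ hne⟩
  choose e he1 he2 he3 he4 using fun Θ : {Θ // IsSlice M F Θ} =>
    exists_sliceChart M F hne Θ.1 Θ.2
  have hc : ∀ y : {p : M.X × ℝ // F p = 0}, ∃ Θ : {Θ // IsSlice M F Θ}, y ∈ (e Θ).source := by
    intro y
    obtain ⟨Θ, hΘ, hy⟩ := exists_slice M F hF y.1 (hreg y.1 y.2)
    exact ⟨⟨Θ, hΘ⟩, (he1 ⟨Θ, hΘ⟩ y).2 hy⟩
  have ht : ∀ (i j : {Θ // IsSlice M F Θ}) (y : {p : M.X × ℝ // F p = 0}),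
      y ∈ (e i).source → y ∈ (e j).source →
      OPAt (euc E5) (euc E5) (fun x => e j ((e i).symm x)) (e i y) := by
    intro i j y hi hj
    have h1 := slice_transition M F i.1 j.1 i.2 j.2 y.1 y.2 ((he1 i y).1 hi) ((he1 j y).1 hj)
    rw [← he2 i y] at h1
    refine h1.congr ?_
    filter_upwards [(e i).open_target.mem_nhds ((e i).map_source hi)] with z hz
    rw [he2 j, he4 i z hz]
  refine ⟨glue {p : M.X × ℝ // F p = 0} (fun _ => euc E5) e hc ht, Subtype.val,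
    hcl.isClosedEmbedding_subtypeVal, Subtype.range_coe, ?_⟩
  intro y hy
  obtain ⟨c, hcM, hyc⟩ := M.cover y.1.1
  obtain ⟨Θ, hΘ, hyΘ, hΘc⟩ := exists_slice_graph M F hF y.1 hy hcM hyc
  have hys : y ∈ (e ⟨Θ, hΘ⟩).source := (he1 ⟨Θ, hΘ⟩ y).2 hyΘ
  have h1 : OPAt (glue {p : M.X × ℝ // F p = 0} (fun _ => euc E5) e hc ht) (euc E5)
      (e ⟨Θ, hΘ⟩) y := opAt_glue (fun _ => euc E5) e hc ht ⟨Θ, hΘ⟩ hys
  have hval : ∀ y' ∈ (e ⟨Θ, hΘ⟩).source, e ⟨Θ, hΘ⟩ y' = c y'.1.1 := by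
    intro y' hy'
    rw [he2]
    exact (hΘc y'.1 ((he1 ⟨Θ, hΘ⟩ y').1 hy')).2
  have hmem : e ⟨Θ, hΘ⟩ y ∈ c.target := by
    rw [hval y hys]
    exact c.map_source hyc
  have h2 : OPAt (euc E5) M c.symm (e ⟨Θ, hΘ⟩ y) := opAt_chart_symm M hcM hmem
  refine (h2.comp h1).congr ?_
  filter_upwards [(e ⟨Θ, hΘ⟩).open_source.mem_nhds hys] with y' hy'
  rw [hval y' hy', c.left_inv (hΘc y'.1 ((he1 ⟨Θ, hΘ⟩ y').1 hy')).1]

end Wu
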