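import Pool.Agent.Lib.MP_60079e_gt.OPb

/-! A connected manifold minus a point is connected; local connectedness; local compactness;
connected components. -/

open Set Metric Topology
open scoped ContDiff

namespace Wu

private lemma Punct_rank : 1 < Module.rank ℝ E5 := by
  rw [← Module.finrank_eq_rank, finrank_euclideanSpace, Fintype.card_fin]
  norm_num

/-- The punctured ball is connected. -/
private lemma Punct_ball (a : E5) {r : ℝ} (hr : 0 < r) : IsConnected (ball a r \ {a}) := by
  have h1 : IsConnected (Ioo (0 : ℝ) r ×ˢ sphere (0 : E5) 1) :=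
    (isConnected_Ioo hr).prod (isConnected_sphere Punct_rank 0 zero_le_one)
  have h2 : (fun p : ℝ × E5 => a + p.1 • p.2) '' (Ioo (0 : ℝ) r ×ˢ sphere (0 : E5) 1) =
      ball a r \ {a} := by
    ext y
    constructor
    · rintro ⟨⟨t, u⟩, ⟨ht, hu⟩, rfl⟩
      have ht1 : 0 < t := ht.1
      have ht2 : t < r := ht.2
      have hu' : ‖u‖ = 1 := by simpa using hu
      have hn : ‖t • u‖ = t := by
        rw [norm_smul, hu', mul_one, Real.norm_eq_abs, abs_of_pos ht1]
      refine ⟨?_, ?_⟩
      · rw [mem_ball, dist_eq_norm, add_sub_cancel_left, hn]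
        exact ht2
      · rw [mem_singleton_iff]
        intro h
        have h3 : t • u = 0 := by simpa using h
        rw [h3, norm_zero] at hn
        linarith
    · rintro ⟨h1, h2⟩
      have h3 : y - a ≠ 0 := sub_ne_zero.2 h2
      have h4 : 0 < ‖y - a‖ := norm_pos_iff.2 h3
      refine ⟨(‖y - a‖, ‖y - a‖⁻¹ • (y - a)), ⟨⟨h4, ?_⟩, ?_⟩, ?_⟩
      · rw [mem_ball, dist_eq_norm] at h1
        exact h1
      · simp only [mem_sphere_iff_norm, sub_zero]
        rw [norm_smul, norm_inv, norm_norm, inv_mul_cancel₀ h4.ne']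
      · simp only
        rw [smul_smul, mul_inv_cancel₀ h4.ne', one_smul, add_sub_cancel]
  rw [← h2]
  refine h1.image _ (Continuous.continuousOn ?_)
  fun_prop

theorem isConnected_compl_point (M : Mfd E5) (hM : ConnectedSpace M.X) (x : M.X) :
    IsConnected ({x}ᶜ : Set M.X) := by
  obtain ⟨c, hc, hxc⟩ := M.cover x
  have hcx : c x ∈ c.target := c.map_source hxc
  obtain ⟨r, hr, hball⟩ := Metric.isOpen_iff.1 c.open_target (c x) hcx
  -- the neighbourhood `B` and the punctured neighbourhood `B'`
  have hBo : IsOpen (c.symm '' ball (c x) r) := by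
    apply c.symm.isOpen_image_of_subset_source isOpen_ball
    exact hball
  have hxB : x ∈ c.symm '' ball (c x) r :=
    ⟨c x, mem_ball_self hr, c.left_inv hxc⟩
  have hB' : IsConnected (c.symm '' (ball (c x) r \ {c x})) := by
    refine (Punct_ball (c x) hr).image _ ?_
    refine c.continuousOn_symm.mono ?_
    exact sdiff_subset.trans hball
  have hBB' : c.symm '' ball (c x) r = insert x (c.symm '' (ball (c x) r \ {c x})) := by
    ext y
    constructor
    · rintro ⟨z, hz, rfl⟩
      by_cases h : z = c x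
      · left
        rw [h, c.left_inv hxc]
      · right
        exact ⟨z, ⟨hz, h⟩, rfl⟩
    · rintro (rfl | ⟨z, ⟨hz, h⟩, rfl⟩)
      · exact hxB
      · exact ⟨z, hz, rfl⟩
  have hxB' : x ∉ c.symm '' (ball (c x) r \ {c x}) := by
    rintro ⟨z, ⟨hz, h⟩, hzx⟩
    apply h
    rw [mem_singleton_iff, ← hzx, c.right_inv (hball hz)]
  have hsub : c.symm '' (ball (c x) r \ {c x}) ⊆ {x}ᶜ := by
    intro y hy h
    rw [mem_singleton_iff] at h
    rw [h] at hy
    exact hxB' hy
  refine ⟨hB'.nonempty.mono hsub, ?_⟩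
  -- the main lemma
  have key : ∀ u v : Set M.X, IsOpen u → IsOpen v → {x}ᶜ ⊆ u ∪ v → ({x}ᶜ ∩ u).Nonempty →
      ({x}ᶜ ∩ v).Nonempty → ¬ ({x}ᶜ ∩ (u ∩ v)).Nonempty →
      ¬ c.symm '' (ball (c x) r \ {c x}) ⊆ u ∩ {x}ᶜ := by
    intro u v hu hv huv hnu hnv hne hB'u
    have hpre := hM.toPreconnectedSpace.isPreconnected_univ
    have ho1 : IsOpen (u ∪ c.symm '' ball (c x) r) := hu.union hBo
    have ho2 : IsOpen (v ∩ {x}ᶜ) := hv.inter isOpen_compl_singleton
    obtain ⟨y, -, hy1, hy2, hy3⟩ := hpre _ _ ho1 ho2 (by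
      intro y _
      by_cases hyx : y = x
      · left; right; rw [hyx]; exact hxB
      · rcases huv hyx with h | h
        · left; left; exact h
        · right; exact ⟨h, hyx⟩) (by
      obtain ⟨y, hy⟩ := hnu
      exact ⟨y, mem_univ _, Or.inl hy.2⟩) (by
      obtain ⟨y, hy⟩ := hnv
      exact ⟨y, mem_univ _, hy.2, hy.1⟩)
    apply hne
    refine ⟨y, hy3, ?_, hy2⟩
    rcases hy1 with h | h
    · exact h
    · rw [hBB'] at h
      rcases h with h | h
      · exact absurd h hy3
      · exact (hB'u h).1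
  intro u v hu hv huv hnu hnv
  by_contra hne
  have hd : Disjoint (u ∩ {x}ᶜ) (v ∩ {x}ᶜ) := by
    rw [Set.disjoint_left]
    intro y h1 h2
    exact hne ⟨y, h1.2, h1.1, h2.1⟩
  rcases hB'.isPreconnected.subset_or_subset (hu.inter isOpen_compl_singleton)
    (hv.inter isOpen_compl_singleton) hd (by
      intro y hy
      have hyx := hsub hy
      rcases huv hyx with h | h
      · left; exact ⟨h, hyx⟩
      · right; exact ⟨h, hyx⟩) with h | h
  · exact key u v hu hv huv hnu hnv hne h
  · refine key v u hv hu (by rwa [union_comm]) hnv hnu ?_ h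
    rwa [inter_comm v u]

@[reducible] private noncomputable def Punct_charted (M : Mfd E5) : ChartedSpace E5 M.X where
  atlas := M.atlas
  chartAt x := Classical.choose (M.cover x)
  mem_chart_source x := (Classical.choose_spec (M.cover x)).2
  chart_mem_atlas x := (Classical.choose_spec (M.cover x)).1

theorem locallyConnected_mfd (M : Mfd E5) : LocallyConnectedSpace M.X := by
  let _ := Punct_charted M
  exact ChartedSpace.locallyConnectedSpace E5 M.X

theorem locallyCompact_mfd (M : Mfd E5) : LocallyCompactSpace M.X := by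
  let _ := Punct_charted M
  exact ChartedSpace.locallyCompactSpace E5 M.X

end Wu
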