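import Pool.Agent.Lib.MP_60079e_gt.FnB

/-! Regularity of `F` on `W × ℝ`. -/

open Set Metric Topology Matrix
open scoped ContDiff

namespace Wu

theorem FnC_FW_om (k : ℕ) (T : WX) (h : ℝ) : FW (omW k T, h) = FW (T, h) := by
  show h ^ 3 + al (om ^ k • T.1) * h + be (om ^ k • T.1) = h ^ 3 + al T.1 * h + be T.1
  rw [al_om, be_om]

theorem FnC_of_curve {T : WX} {h : ℝ} {γ : ℝ → WX} {η : ℝ → ℝ} (h0 : γ 0 = T) (h1 : η 0 = h)
    (hγ : ContinuousAt γ 0)
    (hγd : ∀ c ∈ WM.atlas, T ∈ c.source → DifferentiableAt ℝ (fun s => c (γ s)) 0)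
    (hη : DifferentiableAt ℝ η 0)
    (hd : deriv (fun s => FW (γ s, η s)) 0 ≠ 0) : SubmAt (prodR WM) FW (T, h) := by
  obtain ⟨d, hd1, hd2⟩ := WM.cover T
  have hc : (d.prod (OpenPartialHomeomorph.refl ℝ)) ∈ (prodR WM).atlas := ⟨d, hd1, rfl⟩
  refine SubmAt.of_curve (M := prodR WM) (f := FW) (x := (T, h)) (smAt_FW (T, h))
    (γ := fun s => (γ s, η s)) ?_ hc ?_ ?_ ?_ hd
  · show (γ 0, η 0) = (T, h)
    rw [h0, h1]
  · rw [OpenPartialHomeomorph.prod_source]
    exact ⟨hd2, trivial⟩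
  · exact hγ.prodMk hη.continuousAt
  · exact (hγd d hd1 hd2).prodMk hη

/-- the function `F` along the curves of `exists_tube_curve` -/
noncomputable def FnC_G (p q l a b : ℂ) (h s : ℝ) : ℝ :=
  h ^ 3 + (-3 + 4 * th (((p.re + s * a.re) ^ 2 + (p.im + s * a.im) ^ 2 + ((q.re + s * b.re) ^ 2 +
    (q.im + s * b.im) ^ 2)) / rr)) * h + (2 * (p.re + s * a.re) * (p.im + s * a.im) +
    (2 * (q.re + s * b.re) * (q.im + s * b.im) * l.re +
      ((q.re + s * b.re) ^ 2 - (q.im + s * b.im) ^ 2) * l.im))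

theorem FnC_th_diff (x : ℝ) : ∃ A : ℝ, 0 ≤ A ∧ HasDerivAt th A x := by
  have h1 : Differentiable ℝ Real.smoothTransition :=
    (Real.smoothTransition.contDiff (n := 1)).differentiable (by norm_num)
  have h2 : DifferentiableAt ℝ th x := by
    unfold th
    exact (h1 _).comp x ((differentiableAt_id).sub_const 1)
  refine ⟨deriv th x, ?_, h2.hasDerivAt⟩
  have hm : Monotone th := by
    intro x y hxy
    exact Real.smoothTransition.monotone (by linarith)
  exact hm.deriv_nonneg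

theorem FnC_G_deriv (p q l a b : ℂ) (h A : ℝ)
    (hA : HasDerivAt th A ((p.re ^ 2 + p.im ^ 2 + (q.re ^ 2 + q.im ^ 2)) / rr)) :
    HasDerivAt (FnC_G p q l a b h)
      (4 * A / rr * (2 * (p.re * a.re + p.im * a.im + q.re * b.re + q.im * b.im)) * h +
        (2 * (p.re * a.im + p.im * a.re) + 2 * (q.re * b.im + q.im * b.re) * l.re +
          2 * (q.re * b.re - q.im * b.im) * l.im)) 0 := by
  have lin : ∀ c d : ℝ, HasDerivAt (fun s : ℝ => c + s * d) d 0 := by
    intro c d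
    simpa using ((hasDerivAt_id (0 : ℝ)).mul_const d).const_add c
  have h1 := lin p.re a.re
  have h2 := lin p.im a.im
  have h3 := lin q.re b.re
  have h4 := lin q.im b.im
  have hmu := (((h1.pow 2).add (h2.pow 2)).add ((h3.pow 2).add (h4.pow 2))).div_const rr
  have hA' : HasDerivAt th A ((fun s : ℝ => ((p.re + s * a.re) ^ 2 + (p.im + s * a.im) ^ 2 +
      ((q.re + s * b.re) ^ 2 + (q.im + s * b.im) ^ 2)) / rr) 0) := by
    simpa using hA
  have hth := HasDerivAt.comp (0 : ℝ) hA' hmu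
  have htot := (((((hth.const_mul 4).const_add (-3)).mul_const h).const_add (h ^ 3))).add
    (((h1.const_mul 2).mul h2).add ((((h3.const_mul 2).mul h4).mul_const l.re).add
      (((h3.pow 2).sub (h4.pow 2)).mul_const l.im)))
  have key : HasDerivAt (FnC_G p q l a b h) _ 0 := htot
  refine key.congr_deriv ?_
  simp
  ring

theorem FnC_alg (p1 p2 q1 q2 l1 l2 h A : ℝ) (hl : l1 ^ 2 + l2 ^ 2 ≠ 0) (hA : 0 ≤ A)
    (e1 : A * p1 * h + p2 = 0) (e2 : A * p2 * h + p1 = 0)
    (e3 : A * q1 * h + q2 * l1 + q1 * l2 = 0) (e4 : A * q2 * h + q1 * l1 - q2 * l2 = 0)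
    (e5 : 2 * p1 * p2 + (2 * q1 * q2 * l1 + (q1 ^ 2 - q2 ^ 2) * l2) = 2 * h ^ 3) :
    h = 0 ∧ p1 = 0 ∧ p2 = 0 ∧ q1 = 0 ∧ q2 = 0 := by
  have h1 : h * (2 * h ^ 2 + A * (p1 ^ 2 + p2 ^ 2 + q1 ^ 2 + q2 ^ 2)) = 0 := by
    linear_combination (-1) * e5 + p1 * e1 + p2 * e2 + q1 * e3 + q2 * e4
  have h2 : h = 0 := by
    rcases mul_eq_zero.1 h1 with h2 | h2
    · exact h2
    · have h3 : 0 ≤ A * (p1 ^ 2 + p2 ^ 2 + q1 ^ 2 + q2 ^ 2) := by positivity
      have h4 : h ^ 2 ≤ 0 := by linarith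
      nlinarith [sq_nonneg h, pow_eq_zero_iff (two_ne_zero) |>.1 (le_antisymm h4 (sq_nonneg h))]
  subst h2
  have h5 : (q1 ^ 2 + q2 ^ 2) * (l1 ^ 2 + l2 ^ 2) = 0 := by
    linear_combination (q2 * l1 + q1 * l2) * e3 + (q1 * l1 - q2 * l2) * e4
  have h6 : q1 ^ 2 + q2 ^ 2 = 0 := by
    rcases mul_eq_zero.1 h5 with h6 | h6
    · exact h6
    · exact absurd h6 hl
  refine ⟨rfl, by linarith, by linarith, ?_, ?_⟩
  · nlinarith [sq_nonneg q1, sq_nonneg q2, pow_eq_zero_iff (two_ne_zero) |>.1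
      (show q1 ^ 2 = 0 by nlinarith [sq_nonneg q1, sq_nonneg q2])]
  · nlinarith [sq_nonneg q1, sq_nonneg q2, pow_eq_zero_iff (two_ne_zero) |>.1
      (show q2 ^ 2 = 0 by nlinarith [sq_nonneg q1, sq_nonneg q2])]

theorem rr_pos' : 0 < rr := by
  unfold rr kap
  norm_num

theorem submAt_tube (T : WX) (hT : mu T.1 < 2 * rr) (h : ℝ) (h0 : FW (T, h) = 0)
    (h1 : 3 * h ^ 2 + al T.1 = 0) : SubmAt (prodR WM) FW (T, h) := by
  by_contra hne
  have hrr : 0 < rr := rr_pos'
  set p : ℂ := T.1 0 2 + kap with hp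
  set q : ℂ := T.1 1 2 with hq
  set l : ℂ := star (T.1 2 2) / (‖T.1 2 2‖ : ℝ) with hl
  have hmuT : mu T.1 = p.re ^ 2 + p.im ^ 2 + (q.re ^ 2 + q.im ^ 2) := by
    unfold mu
    rw [Complex.normSq_apply, Complex.normSq_apply]
    ring
  obtain ⟨A, hA0, hA⟩ := FnC_th_diff ((p.re ^ 2 + p.im ^ 2 + (q.re ^ 2 + q.im ^ 2)) / rr)
  -- values in the tube
  have hval : ∀ (S : M3) (p' q' : ℂ), mu S < 2 * rr → S 0 2 + kap = p' → S 1 2 = q' →
      star (S 2 2) / (‖S 2 2‖ : ℝ) = l → ∀ h : ℝ, h ^ 3 + al S * h + be S =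
      h ^ 3 + (-3 + 4 * th ((p'.re ^ 2 + p'.im ^ 2 + (q'.re ^ 2 + q'.im ^ 2)) / rr)) * h +
        (2 * p'.re * p'.im + (2 * q'.re * q'.im * l.re + (q'.re ^ 2 - q'.im ^ 2) * l.im)) := by
    intro S p' q' hS hp' hq' hl' h
    have hmu : mu S = p'.re ^ 2 + p'.im ^ 2 + (q'.re ^ 2 + q'.im ^ 2) := by
      unfold mu
      rw [Complex.normSq_apply, Complex.normSq_apply, hp', hq']
      ring
    have hta : ta (mu S / rr) = 1 := by
      unfold ta
      rw [Real.smoothTransition.zero_of_nonpos, sub_zero]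
      have : mu S / rr < 2 := by
        rw [div_lt_iff₀ hrr]; exact hS
      linarith
    have hnu : nu S = 2 * p'.re * p'.im +
        (2 * q'.re * q'.im * l.re + (q'.re ^ 2 - q'.im ^ 2) * l.im) := by
      have : nu S = (p' ^ 2 + q' ^ 2 * l).im := by
        unfold nu
        rw [hp', hq', mul_div_assoc, hl']
      rw [this]
      simp only [Complex.add_im, Complex.mul_im, pow_two, Complex.mul_re]
      ring
    rw [al_tube S (by linarith), be_tube S (by linarith), hta, one_mul, hnu, hmu]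
  have hzero : ∀ a b : ℂ, 4 * A / rr * (2 * (p.re * a.re + p.im * a.im + q.re * b.re +
      q.im * b.im)) * h + (2 * (p.re * a.im + p.im * a.re) + 2 * (q.re * b.im + q.im * b.re) * l.re +
          2 * (q.re * b.re - q.im * b.im) * l.im) = 0 := by
    intro a b
    by_contra hab
    apply hne
    obtain ⟨γ, hγ0, hγc, hγd, hγe⟩ := exists_tube_curve T (by linarith) a b
    refine FnC_of_curve hγ0 (η := fun _ => h) rfl hγc hγd (differentiableAt_const h) ?_
    have hcont : ContinuousAt (fun s : ℝ => (p.re + s * a.re) ^ 2 + (p.im + s * a.im) ^ 2 +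
        ((q.re + s * b.re) ^ 2 + (q.im + s * b.im) ^ 2)) 0 := by
      fun_prop
    have hlt : ∀ᶠ s in 𝓝 (0 : ℝ), (p.re + s * a.re) ^ 2 + (p.im + s * a.im) ^ 2 +
        ((q.re + s * b.re) ^ 2 + (q.im + s * b.im) ^ 2) < 2 * rr := by
      refine hcont.eventually_lt continuousAt_const ?_
      simp only [zero_mul, add_zero]
      rw [← hmuT]
      exact hT
    have hev : (fun s => FW (γ s, h)) =ᶠ[𝓝 0] FnC_G p q l a b h := by
      filter_upwards [hlt, hγe] with s hs hse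
      obtain ⟨hs1, hs2, hs3⟩ := hse
      have e1 : (γ s).1 0 2 + kap = ((⟨p.re + s * a.re, p.im + s * a.im⟩ : ℂ)) := by
        rw [hs1]
        apply Complex.ext
        · simp [hp]; ring
        · simp [hp]
      have e2 : (γ s).1 1 2 = ((⟨q.re + s * b.re, q.im + s * b.im⟩ : ℂ)) := by
        rw [hs2]
        apply Complex.ext
        · simp [hq]
        · simp [hq]
      have hmu : mu (γ s).1 < 2 * rr := by
        unfold mu
        rw [Complex.normSq_apply, Complex.normSq_apply, e1, e2]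
        refine lt_of_eq_of_lt ?_ hs
        ring
      exact hval (γ s).1 _ _ hmu e1 e2 hs3 h
    rw [hev.deriv_eq, (FnC_G_deriv p q l a b h A hA).deriv]
    exact hab
  have hw := (tube_ne T (by linarith)).1
  have hln : l.re ^ 2 + l.im ^ 2 ≠ 0 := by
    have h2 : l ≠ 0 := by
      rw [hl]
      refine div_ne_zero (star_ne_zero.2 hw) ?_
      exact_mod_cast (norm_ne_zero_iff.2 hw)
    have h3 : Complex.normSq l ≠ 0 := fun h => h2 (Complex.normSq_eq_zero.1 h)
    rw [Complex.normSq_apply] at h3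
    intro h4
    apply h3
    rw [← h4]
    ring
  have e1 := hzero 1 0
  have e2 := hzero Complex.I 0
  have e3 := hzero 0 1
  have e4 := hzero 0 Complex.I
  simp only [Complex.one_re, Complex.one_im, Complex.zero_re, Complex.zero_im, Complex.I_re,
    Complex.I_im] at e1 e2 e3 e4
  have hF := hval T.1 p q hT rfl rfl rfl h
  have hF0 : h ^ 3 + al T.1 * h + be T.1 = 0 := h0
  have hal : al T.1 = -3 + 4 * th ((p.re ^ 2 + p.im ^ 2 + (q.re ^ 2 + q.im ^ 2)) / rr) := by
    rw [al_tube T.1 (by linarith), hmuT]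
  rw [hF0, ← hal] at hF
  obtain ⟨k0, k1, k2, k3, k4⟩ := FnC_alg p.re p.im q.re q.im l.re l.im h (4 * A / rr) hln
    (by positivity) (by linarith) (by linarith) (by linarith) (by linarith) (by
      linear_combination (-1) * hF - h * h1)
  rw [k1, k2, k3, k4] at hal
  have hth0 : th ((0 ^ 2 + 0 ^ 2 + (0 ^ 2 + 0 ^ 2)) / rr) = 0 := by
    unfold th
    apply Real.smoothTransition.zero_of_nonpos
    simp
  rw [hth0] at hal
  rw [hal, k0] at h1
  norm_num at h1

theorem submAt_FW (p : WX × ℝ) (h0 : FW p = 0) : SubmAt (prodR WM) FW p := by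
  obtain ⟨T, h⟩ := p
  by_cases h1 : 3 * h ^ 2 + al T.1 = 0
  · have h2 : ∃ k < 3, mu (om ^ k • T.1) < 2 * rr := by
      by_contra hcon
      push Not at hcon
      have := al_outside T.1 hcon
      rw [this] at h1
      nlinarith [sq_nonneg h]
    obtain ⟨k, -, hk⟩ := h2
    have h3 : SubmAt (prodR WM) FW (omW k T, h) := by
      apply submAt_tube (omW k T) hk h
      · rw [FnC_FW_om]; exact h0
      · show 3 * h ^ 2 + al (om ^ k • T.1) = 0
        rw [al_om]; exact h1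
    have h4 := SubmAt.comp_op (M := prodR WM) (N := prodR WM) (f := FW)
      (g := fun p : WX × ℝ => (omW k p.1, p.2)) (x := (T, h)) h3 (opAt_prodR (opAt_omW k T) h)
    have h5 : (fun y : WX × ℝ => FW (omW k y.1, y.2)) = FW := by
      funext y
      exact FnC_FW_om k y.1 y.2
    rw [h5] at h4
    exact h4
  · refine FnC_of_curve (γ := fun _ => T) (η := fun s => h + s) rfl (add_zero h) continuousAt_const
      (fun c _ _ => differentiableAt_const _) (by fun_prop) ?_
    have h2 : deriv (fun s : ℝ => FW (T, h + s)) 0 = deriv (fun h => FW (T, h)) (h + 0) :=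
      deriv_comp_const_add (f := fun h => FW (T, h)) h 0
    rw [h2, deriv_FW, add_zero]
    exact h1

end Wu
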