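import Pool.Agent.Lib.MP_60079e_gt.GmB

/-! Self-intersections of `G` on `Kc` modulo `μ₃`. -/

open Set Metric Topology Matrix
open scoped ContDiff

namespace Wu

theorem GmI_s3 : Real.sqrt 3 ^ 2 = 3 := Real.sq_sqrt (by norm_num)

theorem GmI_om2 : om ^ 2 = star om := by
  refine Complex.ext ?_ ?_
  · rw [pow_two, Complex.mul_re]
    show om.re * om.re - om.im * om.im = om.re
    show (-1 / 2 : ℝ) * (-1 / 2) - Real.sqrt 3 / 2 * (Real.sqrt 3 / 2) = -1 / 2
    nlinarith [GmI_s3]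
  · rw [pow_two, Complex.mul_im]
    show om.re * om.im + om.im * om.re = -om.im
    show (-1 / 2 : ℝ) * (Real.sqrt 3 / 2) + Real.sqrt 3 / 2 * (-1 / 2) = -(Real.sqrt 3 / 2)
    ring

theorem GmI_sum : 1 + om + star om = 0 := by
  refine Complex.ext ?_ ?_
  · show (1 : ℝ) + (-1 / 2) + (-1 / 2) = 0
    norm_num
  · show (0 : ℝ) + Real.sqrt 3 / 2 + -(Real.sqrt 3 / 2) = 0
    ring

theorem GmI_ne : om ≠ 1 := by
  intro h
  have h1 := congrArg Complex.re h
  have h2 : om.re = -1 / 2 := rfl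
  rw [h2, Complex.one_re] at h1
  norm_num at h1

theorem GmI_w (k : ℕ) (hk : k < 3) : k = 0 ∨ (k ≠ 0 ∧ star (om ^ k) = (om ^ k) ^ 2 ∧
    om ^ k * star (om ^ k) = 1 ∧ om ^ k ≠ 1 ∧ 1 + om ^ k + star (om ^ k) = 0) := by
  have h3 := om_cube
  have hmul : om * star om = 1 := by
    rw [← GmI_om2]
    linear_combination h3
  have hk3 : k = 0 ∨ k = 1 ∨ k = 2 := by omega
  rcases hk3 with rfl | rfl | rfl
  · exact Or.inl rfl
  · refine Or.inr ⟨one_ne_zero, ?_, ?_, ?_, ?_⟩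
    · rw [pow_one, GmI_om2]
    · rw [pow_one, hmul]
    · rw [pow_one]
      exact GmI_ne
    · rw [pow_one]
      exact GmI_sum
  · have h4 : star (om ^ 2) = om := by rw [GmI_om2, star_star]
    refine Or.inr ⟨two_ne_zero, ?_, ?_, ?_, ?_⟩
    · rw [h4]
      linear_combination (-om) * h3
    · rw [h4]
      linear_combination h3
    · intro h5
      rw [h5, star_one] at h4
      exact GmI_ne h4.symm
    · rw [h4, GmI_om2]
      linear_combination GmI_sum

noncomputable def GmI_F (s : ℝ) : ℝ :=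
  (1 - (7 / 24) ^ 2 * s - 2 * (7 / 24) * Real.sqrt (1 - s)) / (1 + (7 / 24) ^ 2 * s)

theorem GmI_num (s : ℝ) (h0 : 0 ≤ s) (h1 : s ≤ 1) :
    0 < 1 - (7 / 24) ^ 2 * s - 2 * (7 / 24) * Real.sqrt (1 - s) := by
  have hu0 : 0 ≤ Real.sqrt (1 - s) := Real.sqrt_nonneg _
  have hu1 : Real.sqrt (1 - s) ^ 2 = 1 - s := Real.sq_sqrt (by linarith)
  generalize Real.sqrt (1 - s) = u at *
  have hu2 : u ≤ 1 := by nlinarith
  have hs : s = 1 - u ^ 2 := by linarith
  subst hs
  nlinarith [mul_nonneg hu0 (sub_nonneg.2 hu2)]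

theorem GmI_pos (s : ℝ) (h0 : 0 ≤ s) (h1 : s ≤ 1) : 0 < GmI_F s := by
  unfold GmI_F
  exact div_pos (GmI_num s h0 h1) (by positivity)

theorem GmI_numlt (s s' : ℝ) (h0 : 0 ≤ s) (h : s < s') (h1 : s' ≤ 1) :
    1 - (7 / 24) ^ 2 * s - 2 * (7 / 24) * Real.sqrt (1 - s) <
      1 - (7 / 24) ^ 2 * s' - 2 * (7 / 24) * Real.sqrt (1 - s') := by
  have hu0 : 0 ≤ Real.sqrt (1 - s) := Real.sqrt_nonneg _
  have hu1 : Real.sqrt (1 - s) ^ 2 = 1 - s := Real.sq_sqrt (by linarith)
  have hv0 : 0 ≤ Real.sqrt (1 - s') := Real.sqrt_nonneg _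
  have hv1 : Real.sqrt (1 - s') ^ 2 = 1 - s' := Real.sq_sqrt (by linarith)
  have hlt : Real.sqrt (1 - s') < Real.sqrt (1 - s) := Real.sqrt_lt_sqrt (by linarith) (by linarith)
  generalize Real.sqrt (1 - s) = u at *
  generalize Real.sqrt (1 - s') = v at *
  have hu2 : u ≤ 1 := by nlinarith
  have hs : s = 1 - u ^ 2 := by linarith
  have hs' : s' = 1 - v ^ 2 := by linarith
  subst hs hs'
  have h5 : 0 < (u - v) * (2 - 7 / 24 * (u + v)) := mul_pos (by linarith) (by linarith)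
  nlinarith

theorem GmI_mono (s s' : ℝ) (h0 : 0 ≤ s) (h : s < s') (h1 : s' ≤ 1) :
    s * GmI_F s ^ 2 < s' * GmI_F s' ^ 2 := by
  have hN := GmI_num s h0 (by linarith)
  have hlt := GmI_numlt s s' h0 h h1
  unfold GmI_F
  generalize 1 - (7 / 24) ^ 2 * s - 2 * (7 / 24) * Real.sqrt (1 - s) = N at *
  generalize 1 - (7 / 24) ^ 2 * s' - 2 * (7 / 24) * Real.sqrt (1 - s') = N' at *
  have hD : 0 < 1 + (7 / 24 : ℝ) ^ 2 * s := by positivity
  have hs' : 0 < s' := by linarith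
  have hD' : 0 < 1 + (7 / 24 : ℝ) ^ 2 * s' := by positivity
  rw [div_pow N, div_pow N', ← mul_div_assoc s, ← mul_div_assoc s', div_lt_div_iff₀ (by positivity)
    (by positivity)]
  have h2 : s * (1 + (7 / 24) ^ 2 * s') ^ 2 ≤ s' * (1 + (7 / 24) ^ 2 * s) ^ 2 := by
    have h3 : s' * (1 + (7 / 24) ^ 2 * s) ^ 2 - s * (1 + (7 / 24) ^ 2 * s') ^ 2 =
        (s' - s) * (1 - (7 / 24) ^ 4 * (s * s')) := by ring
    have h4 : s * s' ≤ 1 := by nlinarith
    have h5 : 0 ≤ (s' - s) * (1 - (7 / 24) ^ 4 * (s * s')) :=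
      mul_nonneg (by linarith) (by nlinarith [mul_nonneg h0 hs'.le])
    linarith
  have h6 : N ^ 2 < N' ^ 2 := by nlinarith
  calc s * N ^ 2 * (1 + (7 / 24) ^ 2 * s') ^ 2 = N ^ 2 * (s * (1 + (7 / 24) ^ 2 * s') ^ 2) := by ring
    _ ≤ N ^ 2 * (s' * (1 + (7 / 24) ^ 2 * s) ^ 2) := mul_le_mul_of_nonneg_left h2 (sq_nonneg N)
    _ < N' ^ 2 * (s' * (1 + (7 / 24) ^ 2 * s) ^ 2) := mul_lt_mul_of_pos_right h6 (by positivity)
    _ = s' * N' ^ 2 * (1 + (7 / 24) ^ 2 * s) ^ 2 := by ring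

theorem GmI_F_one : GmI_F 1 = 527 / 625 := by
  unfold GmI_F
  rw [sub_self, Real.sqrt_zero]
  norm_num

theorem GmI_ext (S T : WX) (h00 : S.1 0 0 = T.1 0 0) (h01 : S.1 0 1 = T.1 0 1)
    (h02 : S.1 0 2 = T.1 0 2) (h11 : S.1 1 1 = T.1 1 1) (h12 : S.1 1 2 = T.1 1 2)
    (h22 : S.1 2 2 = T.1 2 2) : S = T := by
  have hS : ∀ i j, S.1 i j = S.1 j i := fun i j => by
    have h := congrFun (congrFun S.2.2 j) i
    exact h
  have hT : ∀ i j, T.1 i j = T.1 j i := fun i j => by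
    have h := congrFun (congrFun T.2.2 j) i
    exact h
  refine Subtype.ext (Matrix.ext fun i j => ?_)
  fin_cases i <;> fin_cases j
  · exact h00
  · exact h01
  · exact h02
  · exact (hS 1 0).trans (h01.trans (hT 0 1))
  · exact h11
  · exact h12
  · exact (hS 2 0).trans (h02.trans (hT 0 2))
  · exact (hS 2 1).trans (h12.trans (hT 1 2))
  · exact h22

theorem GmI_le (S : WX) : ‖S.1 2 2‖ ≤ 1 := by
  have h := col_normSq S.2.1 2
  have h0 := Complex.normSq_nonneg (S.1 0 2)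
  have h1 := Complex.normSq_nonneg (S.1 1 2)
  have h2 : ‖S.1 2 2‖ ^ 2 ≤ 1 := by
    rw [← Complex.normSq_eq_norm_sq]
    linarith
  nlinarith [norm_nonneg (S.1 2 2)]

theorem GmI_kap : (kap : ℂ) ≠ 0 := by
  unfold kap
  norm_num

theorem GmI_ns22 (S : WX) (hS : S ∈ Kc) (h : ‖S.1 2 2‖ < 1) :
    Complex.normSq ((GW S).1 2 2) =
      Complex.normSq (S.1 2 2) * GmI_F (Complex.normSq (S.1 2 2)) ^ 2 := by
  obtain ⟨-, -, -, -, h22⟩ := GW_Kc S hS h
  rw [h22, map_mul, Complex.normSq_ofReal]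
  unfold GmI_F
  ring

theorem GmI_lt1 (S : WX) (h : ‖S.1 2 2‖ < 1) : Complex.normSq (S.1 2 2) < 1 := by
  rw [Complex.normSq_eq_norm_sq]
  nlinarith [norm_nonneg (S.1 2 2)]

/-- one point on the circle, one not, no rotation -/
theorem GmI_mixed (S T : WX) (hT : T ∈ Kc) (h1 : ‖S.1 2 2‖ = 1) (h2 : ‖T.1 2 2‖ < 1)
    (h11 : (GW S).1 1 1 = (GW T).1 1 1) (h22 : (GW S).1 2 2 = (GW T).1 2 2) : False := by
  obtain ⟨-, hS11, -, hS22⟩ := GW_M S h1
  obtain ⟨hT11, -, -, -, -⟩ := GW_Kc T hT h2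
  rw [hS11, hT11] at h11
  rw [h11, star_neg, star_one] at hS22
  have h3 := congrArg Complex.normSq h22
  rw [GmI_ns22 T hT h2, hS22, map_mul] at h3
  have h4 : (576 / 625 + 49 / 625 * -1 : ℂ) = ((527 / 625 : ℝ) : ℂ) := by
    push_cast
    norm_num
  have h5 : Complex.normSq (S.1 2 2) = 1 := by
    rw [Complex.normSq_eq_norm_sq, h1]
    norm_num
  rw [h4, Complex.normSq_ofReal, h5, one_mul] at h3
  have h6 := GmI_mono (Complex.normSq (T.1 2 2)) 1 (Complex.normSq_nonneg _) (GmI_lt1 T h2) le_rfl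
  rw [GmI_F_one, ← h3] at h6
  norm_num at h6

/-- Self-intersections of `G` on `Kc` modulo `μ₃`: only at the crossing circles. -/
theorem GW_inter (S T : WX) (hS : S ∈ Kc) (hT : T ∈ Kc) (k : ℕ) (hk : k < 3)
    (h : (GW S).1 = om ^ k • (GW T).1) : S = T ∨
      (k ≠ 0 ∧ ‖S.1 2 2‖ = 1 ∧ ‖T.1 2 2‖ = 1 ∧ star (S.1 1 1) = -(om ^ k) ∧
        star (T.1 1 1) = -(star (om ^ k))) := by
  have e : ∀ i j, (GW S).1 i j = om ^ k * (GW T).1 i j := fun i j => by
    rw [h, Matrix.smul_apply, smul_eq_mul]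
  have e02 := e 0 2
  have e11 := e 1 1
  have e12 := e 1 2
  have e22 := e 2 2
  rcases lt_or_eq_of_le (GmI_le S) with hS1 | hS1 <;> rcases lt_or_eq_of_le (GmI_le T) with hT1 | hT1
  · -- both off the circle
    obtain ⟨hSa, -, -, -, hSe⟩ := GW_Kc S hS hS1
    obtain ⟨hTa, -, -, -, hTe⟩ := GW_Kc T hT hT1
    rw [hSa, hTa] at e11
    have hw : om ^ k = 1 := by linear_combination e11
    rw [hw, one_mul] at e22
    have e3 := congrArg Complex.normSq e22
    rw [GmI_ns22 S hS hS1, GmI_ns22 T hT hT1] at e3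
    have hs : Complex.normSq (S.1 2 2) = Complex.normSq (T.1 2 2) := by
      rcases lt_trichotomy (Complex.normSq (S.1 2 2)) (Complex.normSq (T.1 2 2)) with h1 | h1 | h1
      · have h2 := GmI_mono _ _ (Complex.normSq_nonneg _) h1 (GmI_lt1 T hT1).le
        exact absurd h2 (by rw [e3]; exact lt_irrefl _)
      · exact h1
      · have h2 := GmI_mono _ _ (Complex.normSq_nonneg _) h1 (GmI_lt1 S hS1).le
        exact absurd h2 (by rw [e3]; exact lt_irrefl _)
    have hF := GmI_pos _ (Complex.normSq_nonneg (T.1 2 2)) (GmI_lt1 T hT1).le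
    have hSe' : (GW S).1 2 2 = S.1 2 2 * (GmI_F (Complex.normSq (S.1 2 2)) : ℂ) := hSe
    have hTe' : (GW T).1 2 2 = T.1 2 2 * (GmI_F (Complex.normSq (T.1 2 2)) : ℂ) := hTe
    rw [hSe', hTe', hs] at e22
    have hF2 : (GmI_F (Complex.normSq (T.1 2 2)) : ℂ) ≠ 0 := by
      exact_mod_cast hF.ne'
    have h22 : S.1 2 2 = T.1 2 2 := mul_right_cancel₀ hF2 e22
    obtain ⟨a1, a2, a3, a4, a5⟩ := Kc_entries S hS hS1
    obtain ⟨b1, b2, b3, b4, b5⟩ := Kc_entries T hT hT1
    left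
    refine GmI_ext S T ?_ ?_ ?_ ?_ ?_ h22
    · rw [a4, b4, h22]
    · rw [a3, b3]
    · rw [a5, b5, h22]
    · rw [a2, b2]
    · rw [a1, b1]
  · -- S off, T on
    exfalso
    obtain ⟨hSa, -, him, hre, -⟩ := GW_Kc S hS hS1
    obtain ⟨hT02, hT11, -, -⟩ := GW_M T hT1
    rcases GmI_w k hk with rfl | ⟨hk0, w1, w2, w3, w4⟩
    · rw [pow_zero, one_mul] at e11 e22
      exact GmI_mixed T S hS hT1 hS1 e11.symm e22.symm
    · rw [hSa, hT11] at e11
      have hT : T.1 1 1 = -star (om ^ k) := by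
        linear_combination (-star (om ^ k)) * e11 - (T.1 1 1) * w2
      rw [hT02, hT, star_neg, star_star] at e02
      have hx : (GW S).1 0 2 = -(kap : ℂ) := by
        rw [e02]
        linear_combination (kap : ℂ) * (om ^ k) * w4 - (kap : ℂ) * w2
      rw [hx] at hre
      have h3 : (-(kap : ℂ)).re = -kap := by simp
      rw [h3] at hre
      unfold kap at hre
      norm_num at hre
  · -- S on, T off
    exfalso
    obtain ⟨hTa, -, him, hre, -⟩ := GW_Kc T hT hT1
    obtain ⟨hS02, hS11, -, -⟩ := GW_M S hS1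
    rcases GmI_w k hk with rfl | ⟨hk0, w1, w2, w3, w4⟩
    · rw [pow_zero, one_mul] at e11 e22
      exact GmI_mixed S T hT hS1 hT1 e11 e22
    · rw [hTa, hS11] at e11
      have hS : star (S.1 1 1) = -star (om ^ k) := by
        rw [e11, mul_neg, mul_one, star_neg]
      rw [hS02, hS] at e02
      have hx : (GW T).1 0 2 = -(kap : ℂ) := by
        have h4 : (om ^ k) * ((GW T).1 0 2 + (kap : ℂ)) = 0 := by
          linear_combination (-1 : ℂ) * e02 + (kap : ℂ) * w4
        have h5 : om ^ k ≠ 0 := by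
          intro h6
          rw [h6, zero_mul] at w2
          exact zero_ne_one w2
        have h6 := (mul_eq_zero.1 h4).resolve_left h5
        linear_combination h6
      rw [hx] at hre
      have h3 : (-(kap : ℂ)).re = -kap := by simp
      rw [h3] at hre
      unfold kap at hre
      norm_num at hre
  · -- both on the circle
    obtain ⟨hS02, hS11, hS12, hS22⟩ := GW_M S hS1
    obtain ⟨hT02, hT11, hT12, hT22⟩ := GW_M T hT1
    rw [hS11, hT11] at e11
    rw [hS02, hT02] at e02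
    rcases GmI_w k hk with rfl | ⟨hk0, w1, w2, w3, w4⟩
    · left
      rw [pow_zero, one_mul] at e11 e12 e22
      obtain ⟨a1, a2, a3, a4, -⟩ := M_entries S hS1
      obtain ⟨b1, b2, b3, b4, -⟩ := M_entries T hT1
      rw [hS22, hT22, e11] at e22
      have hc : (576 / 625 + 49 / 625 * star (T.1 1 1) : ℂ) ≠ 0 := by
        intro hc
        have h1 : star (T.1 1 1) = ((-(576 / 49) : ℝ) : ℂ) := by
          push_cast
          linear_combination (625 / 49 : ℂ) * hc
        have h2 := congrArg Complex.normSq h1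
        have h3 : Complex.normSq (star (T.1 1 1)) = Complex.normSq (T.1 1 1) :=
          Complex.normSq_conj _
        rw [h3, Complex.normSq_ofReal] at h2
        have h4 := Complex.normSq_nonneg (T.1 0 1)
        linarith
      have h22 : S.1 2 2 = T.1 2 2 := mul_right_cancel₀ hc e22
      have hne : T.1 2 2 ≠ 0 := by
        intro h1
        rw [h1, norm_zero] at hT1
        exact zero_ne_one hT1
      have h01 : S.1 0 1 = T.1 0 1 := by
        rw [hS12, hT12, h22] at e12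
        have h1 : T.1 2 2 * S.1 0 1 = T.1 2 2 * T.1 0 1 := by
          linear_combination (-(25 / 7) : ℂ) * e12
        exact mul_left_cancel₀ hne h1
      refine GmI_ext S T ?_ h01 ?_ e11 ?_ h22
      · rw [a3, b3, h22, e11]
      · rw [a1, b1]
      · rw [a2, b2]
    · right
      have hP : star (S.1 1 1) = star (om ^ k) * star (T.1 1 1) := by
        rw [e11, star_mul, mul_comm]
      have h1 : (1 - star (S.1 1 1)) = om ^ k * (1 - star (T.1 1 1)) := by
        apply mul_left_cancel₀ GmI_kap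
        linear_combination e02
      have h2 : (1 - om ^ k) * (1 + om ^ k * star (T.1 1 1)) = 0 := by
        rw [hP, w1] at h1
        linear_combination h1
      have h3 : (1 - om ^ k) ≠ 0 := fun h4 => w3 (by linear_combination (-1 : ℂ) * h4)
      have h4 := (mul_eq_zero.1 h2).resolve_left h3
      have h5 : star (T.1 1 1) = -star (om ^ k) := by
        linear_combination (star (om ^ k)) * h4 - (star (T.1 1 1)) * w2
      refine ⟨hk0, hS1, hT1, ?_, h5⟩
      rw [hP, h5]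
      have h6 : star (om ^ k) * star (om ^ k) = om ^ k := by
        have h7 : star (om ^ k) * star (om ^ k) = star (om ^ k) * (om ^ k) ^ 2 := by rw [← w1]
        rw [h7]
        linear_combination (om ^ k) * w2
      linear_combination (-1 : ℂ) * h6

end Wu
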