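import Mathlib

/-! The largest root of `h³ + a h + b`. -/

open Set Metric Topology

namespace Wu

/-- the largest root of `h³ + a h + b` -/
noncomputable def rootT (a b : ℝ) : ℝ := sSup {h : ℝ | h ^ 3 + a * h + b = 0}

/-- parameters for which the largest root is simple (sufficient conditions) -/
def OmT : Set (ℝ × ℝ) := {p | 0 < p.1 ∨ p.2 < 0 ∨ 4 * p.1 ^ 3 + 27 * p.2 ^ 2 < 0}

theorem isOpen_OmT : IsOpen OmT := by
  have h1 : IsOpen {p : ℝ × ℝ | 0 < p.1} := isOpen_lt continuous_const continuous_fst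
  have h2 : IsOpen {p : ℝ × ℝ | p.2 < 0} := isOpen_lt continuous_snd continuous_const
  have h3 : IsOpen {p : ℝ × ℝ | 4 * p.1 ^ 3 + 27 * p.2 ^ 2 < 0} :=
    isOpen_lt (by fun_prop) continuous_const
  exact h1.union (h2.union h3)

theorem roots_pos {a b h : ℝ} (hh : 1 + |a| + |b| ≤ h) : 0 < h ^ 3 + a * h + b := by
  have ha := abs_nonneg a
  have hb := abs_nonneg b
  have h1 : 1 ≤ h := by linarith
  have h2 : h ≤ h ^ 2 := by nlinarith
  have h3 : 1 + |b| ≤ h ^ 2 - |a| := by linarith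
  have h4 : 1 + |b| ≤ h * (h ^ 2 - |a|) := by nlinarith
  have h5 : -(|a| * h) ≤ a * h := by
    have := mul_le_mul_of_nonneg_right (neg_abs_le a) (show 0 ≤ h by linarith)
    linarith
  have h6 := neg_abs_le b
  nlinarith

theorem roots_neg {a b h : ℝ} (hh : h ≤ -(1 + |a| + |b|)) : h ^ 3 + a * h + b < 0 := by
  have := roots_pos (a := a) (b := -b) (h := -h) (by rw [abs_neg]; linarith)
  nlinarith

theorem roots_cont (a b : ℝ) : Continuous (fun h : ℝ => h ^ 3 + a * h + b) := by fun_prop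

theorem roots_bdd (a b : ℝ) : BddAbove {h : ℝ | h ^ 3 + a * h + b = 0} := by
  refine ⟨1 + |a| + |b|, fun h hh => ?_⟩
  by_contra hc
  have := roots_pos (a := a) (b := b) (h := h) (not_le.1 hc).le
  exact this.ne' hh

/-- every point with nonpositive value lies below a root -/
theorem roots_exists {a b h : ℝ} (hh : h ^ 3 + a * h + b ≤ 0) :
    ∃ r, h ≤ r ∧ r ^ 3 + a * r + b = 0 := by
  have h1 : h ≤ max h (1 + |a| + |b|) := le_max_left _ _
  have h2 := roots_pos (a := a) (b := b) (h := max h (1 + |a| + |b|)) (le_max_right _ _)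
  obtain ⟨r, hr, hr'⟩ := intermediate_value_Icc h1 (roots_cont a b).continuousOn ⟨hh, h2.le⟩
  exact ⟨r, hr.1, hr'⟩

theorem rootT_root (a b : ℝ) : rootT a b ^ 3 + a * rootT a b + b = 0 := by
  have hcl : IsClosed {h : ℝ | h ^ 3 + a * h + b = 0} :=
    isClosed_eq (roots_cont a b) continuous_const
  have hne : {h : ℝ | h ^ 3 + a * h + b = 0}.Nonempty := by
    obtain ⟨r, _, hr⟩ := roots_exists (a := a) (b := b) (h := -(1 + |a| + |b|))
      (roots_neg le_rfl).le
    exact ⟨r, hr⟩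
  exact hcl.csSup_mem hne (roots_bdd a b)

theorem roots_le_rootT {a b h : ℝ} (hh : h ^ 3 + a * h + b ≤ 0) : h ≤ rootT a b := by
  obtain ⟨r, hr, hr'⟩ := roots_exists hh
  exact hr.trans (le_csSup (roots_bdd a b) hr')

theorem roots_pos_of_gt {a b h : ℝ} (hh : rootT a b < h) : 0 < h ^ 3 + a * h + b := by
  by_contra hc
  exact absurd (roots_le_rootT (not_lt.1 hc)) (not_le.2 hh)

theorem roots_simple_le (a b : ℝ) : 0 ≤ 3 * rootT a b ^ 2 + a := by
  by_contra hc
  have hr := rootT_root a b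
  set r := rootT a b with hrdef
  set δ := -(3 * r ^ 2 + a) with hδ
  have hδ0 : 0 < δ := by linarith [not_le.1 hc]
  have hk : 0 < 2 * (3 * |r| + 1) := by positivity
  set ε := min 1 (δ / (2 * (3 * |r| + 1))) with hε
  have hε0 : 0 < ε := lt_min one_pos (div_pos hδ0 hk)
  have hε1 : ε ≤ 1 := min_le_left _ _
  have hε2 : ε * (2 * (3 * |r| + 1)) ≤ δ := by
    calc ε * (2 * (3 * |r| + 1)) ≤ δ / (2 * (3 * |r| + 1)) * (2 * (3 * |r| + 1)) :=
          mul_le_mul_of_nonneg_right (min_le_right _ _) hk.le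
      _ = δ := div_mul_cancel₀ _ hk.ne'
  have h1 := roots_pos_of_gt (a := a) (b := b) (h := r + ε) (by linarith)
  have h2 : (r + ε) ^ 3 + a * (r + ε) + b = ε * (ε ^ 2 + 3 * r * ε - δ) := by
    rw [hδ]
    linear_combination hr
  rw [h2] at h1
  have h3 : 0 < ε ^ 2 + 3 * r * ε - δ := by
    by_contra hcc
    have := mul_nonpos_of_nonneg_of_nonpos hε0.le (not_lt.1 hcc)
    linarith
  have h4 : 3 * r * ε ≤ 3 * |r| * ε :=
    mul_le_mul_of_nonneg_right (by linarith [le_abs_self r]) hε0.le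
  have h5 : ε ^ 2 ≤ ε := by nlinarith
  nlinarith

theorem rootT_simple {a b : ℝ} (h : (a, b) ∈ OmT) : 0 < 3 * rootT a b ^ 2 + a := by
  refine lt_of_le_of_ne (roots_simple_le a b) fun h0 => ?_
  have hr := rootT_root a b
  set r := rootT a b with hrdef
  have ha : a = -3 * r ^ 2 := by linarith
  have hb : b = 2 * r ^ 3 := by
    rw [ha] at hr
    linarith
  rcases h with h | h | h
  · simp only at h
    nlinarith [sq_nonneg r]
  · simp only at h
    have h1 : (0 : ℝ) ≤ r := roots_le_rootT (a := a) (b := b) (h := 0) (by simpa using h.le)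
    have h2 : 0 ≤ r ^ 3 := pow_nonneg h1 3
    linarith
  · simp only at h
    rw [ha, hb] at h
    ring_nf at h
    exact lt_irrefl _ h

theorem rootT_continuousAt {a b : ℝ} (h : (a, b) ∈ OmT) :
    ContinuousAt (fun p : ℝ × ℝ => rootT p.1 p.2) (a, b) := by
  have hs := rootT_simple h
  have hr := rootT_root a b
  set r := rootT a b with hrdef
  rw [Metric.continuousAt_iff']
  intro ε hε
  -- lower bound
  have hlow : ∃ δ, 0 < δ ∧ δ < ε ∧ (r - δ) ^ 3 + a * (r - δ) + b < 0 := by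
    set s := 3 * r ^ 2 + a with hsd
    have hk : 0 < 2 * (3 * |r| + 1) := by positivity
    refine ⟨min (ε / 2) (s / (2 * (3 * |r| + 1))), lt_min (by linarith) (div_pos hs hk),
      (min_le_left _ _).trans_lt (by linarith), ?_⟩
    set δ := min (ε / 2) (s / (2 * (3 * |r| + 1))) with hδ
    have hδ0 : 0 < δ := lt_min (by linarith) (div_pos hs hk)
    have hδ2 : δ * (2 * (3 * |r| + 1)) ≤ s := by
      calc δ * (2 * (3 * |r| + 1)) ≤ s / (2 * (3 * |r| + 1)) * (2 * (3 * |r| + 1)) :=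
            mul_le_mul_of_nonneg_right (min_le_right _ _) hk.le
        _ = s := div_mul_cancel₀ _ hk.ne'
    have h2 : (r - δ) ^ 3 + a * (r - δ) + b = -(δ * (s - 3 * r * δ + δ ^ 2)) := by
      rw [hsd]
      linear_combination hr
    rw [h2, neg_lt_zero]
    refine mul_pos hδ0 ?_
    have h4 : 3 * r * δ ≤ 3 * |r| * δ :=
      mul_le_mul_of_nonneg_right (by linarith [le_abs_self r]) hδ0.le
    have h5 : 0 ≤ |r| * δ := mul_nonneg (abs_nonneg r) hδ0.le
    nlinarith
  obtain ⟨δ, hδ0, hδε, hδ⟩ := hlow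
  have e1 : ∀ᶠ p : ℝ × ℝ in 𝓝 (a, b), (r - δ) ^ 3 + p.1 * (r - δ) + p.2 < 0 := by
    have hc : Continuous (fun p : ℝ × ℝ => (r - δ) ^ 3 + p.1 * (r - δ) + p.2) := by fun_prop
    exact (isOpen_lt hc continuous_const).mem_nhds hδ
  -- upper bound
  have e2 : ∀ᶠ p : ℝ × ℝ in 𝓝 (a, b), ∀ h ∈ Icc (r + ε) (3 + |a| + |b|),
      0 < h ^ 3 + p.1 * h + p.2 := by
    refine (isCompact_Icc).eventually_forall_of_forall_eventually fun h hh => ?_
    have hc : Continuous (fun z : (ℝ × ℝ) × ℝ => z.2 ^ 3 + z.1.1 * z.2 + z.1.2) := by fun_prop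
    refine (isOpen_lt continuous_const hc).mem_nhds ?_
    exact roots_pos_of_gt (by linarith [hh.1])
  have e3 : ∀ᶠ p : ℝ × ℝ in 𝓝 (a, b), |p.1| < |a| + 1 := by
    have hc : Continuous (fun p : ℝ × ℝ => |p.1|) := by fun_prop
    exact (isOpen_lt hc continuous_const).mem_nhds (by simp)
  have e4 : ∀ᶠ p : ℝ × ℝ in 𝓝 (a, b), |p.2| < |b| + 1 := by
    have hc : Continuous (fun p : ℝ × ℝ => |p.2|) := by fun_prop
    exact (isOpen_lt hc continuous_const).mem_nhds (by simp)
  filter_upwards [e1, e2, e3, e4] with p h1 h2 h3 h4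
  have hp := rootT_root p.1 p.2
  have hl : r - δ ≤ rootT p.1 p.2 := roots_le_rootT h1.le
  have hu : rootT p.1 p.2 < r + ε := by
    by_contra hc
    have hM : rootT p.1 p.2 ≤ 3 + |a| + |b| := by
      by_contra hcc
      have := roots_pos (a := p.1) (b := p.2) (h := rootT p.1 p.2) (by linarith [not_le.1 hcc])
      exact this.ne' hp
    exact (h2 _ ⟨not_lt.1 hc, hM⟩).ne' hp
  rw [Real.dist_eq, abs_lt]
  change -ε < rootT p.1 p.2 - r ∧ rootT p.1 p.2 - r < ε
  constructor <;> linarith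

theorem rootT_one : rootT 1 0 = 0 := by
  have h := rootT_root 1 0
  set r := rootT 1 0
  have h1 : r * (r ^ 2 + 1) = 0 := by linarith
  rcases mul_eq_zero.1 h1 with h2 | h2
  · exact h2
  · nlinarith [sq_nonneg r]

theorem rootT_neg_three : 0 < rootT (-3) 0 := by
  have : (1 : ℝ) ≤ rootT (-3) 0 := roots_le_rootT (by norm_num)
  linarith

end Wu
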