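import Pool.Agent.Lib.MP_60079e_gt.GmE
import Pool.Agent.Lib.MP_60079e_gt.GmI
import Pool.Agent.Lib.MP_60079e_gt.Roots
import Pool.Agent.Lib.MP_60079e_gt.FnC

/-! The height function `ρ` near `Kc`. -/

open Set Metric Topology Matrix
open scoped ContDiff

namespace Wu

private theorem Rho_rr : 0 < rr := by
  unfold rr kap
  norm_num

private noncomputable def Rho_A (x : WX) : ℝ := al (GW x).1

private noncomputable def Rho_B (x : WX) : ℝ := be (GW x).1

private noncomputable def Rho_i (x : WX) : ℝ := (x.1 1 1).im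

private theorem Rho_cA : Continuous Rho_A := by
  rw [continuous_iff_continuousAt]
  intro x
  have h1 : ContinuousAt (fun T : WX => al T.1) (GW x) := (smAt_al (GW x)).continuousAt
  exact ContinuousAt.comp (g := fun T : WX => al T.1) h1 continuous_GW.continuousAt

private theorem Rho_cB : Continuous Rho_B := by
  rw [continuous_iff_continuousAt]
  intro x
  have h1 : ContinuousAt (fun T : WX => be T.1) (GW x) := (smAt_be (GW x)).continuousAt
  exact ContinuousAt.comp (g := fun T : WX => be T.1) h1 continuous_GW.continuousAt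

private theorem Rho_entry (i j : Fin 3) : Continuous (fun x : WX => x.1 i j) := by
  have h1 : Continuous (fun S : M3 => S i j) := by fun_prop
  exact h1.comp continuous_subtype_val

private theorem Rho_ci : Continuous Rho_i := Complex.continuous_im.comp (Rho_entry 1 1)

private theorem Rho_cmu (k : ℕ) : Continuous (fun x : WX => mu (om ^ k • (GW x).1)) := by
  have h1 : ∀ i j, Continuous (fun x : WX => (GW x).1 i j) := fun i j =>
    (Rho_entry i j).comp continuous_GW
  have h2 : (fun x : WX => mu (om ^ k • (GW x).1)) = fun x =>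
      Complex.normSq (om ^ k * (GW x).1 0 2 + kap) + Complex.normSq (om ^ k * (GW x).1 1 2) := by
    funext x
    simp [mu]
  rw [h2]
  exact (Complex.continuous_normSq.comp ((continuous_const.mul (h1 0 2)).add
    continuous_const)).add (Complex.continuous_normSq.comp (continuous_const.mul (h1 1 2)))

/-- the height function -/
private noncomputable def Rho_f (x : WX) : ℝ :=
  if 0 < Rho_i x then rootT (Rho_A x) (Rho_B x)
  else if Rho_i x < 0 then -rootT (Rho_A x) (-Rho_B x) else 0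

private theorem Rho_pos {x : WX} (h : 0 < Rho_i x) : Rho_f x = rootT (Rho_A x) (Rho_B x) := by
  unfold Rho_f
  rw [if_pos h]

private theorem Rho_neg {x : WX} (h : Rho_i x < 0) : Rho_f x = -rootT (Rho_A x) (-Rho_B x) := by
  unfold Rho_f
  rw [if_neg (not_lt.2 h.le), if_pos h]

private def Rho_O1 : Set WX := {x | 0 < Rho_i x ∧ (Rho_A x, Rho_B x) ∈ OmT}

private def Rho_O2 : Set WX := {x | Rho_i x < 0 ∧ (Rho_A x, -Rho_B x) ∈ OmT}

private def Rho_O3 : Set WX := {x | ∀ k < 3, 4 * rr < mu (om ^ k • (GW x).1)}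

private theorem Rho_open1 : IsOpen Rho_O1 :=
  (isOpen_lt continuous_const Rho_ci).inter (isOpen_OmT.preimage (Rho_cA.prodMk Rho_cB))

private theorem Rho_open2 : IsOpen Rho_O2 :=
  (isOpen_lt Rho_ci continuous_const).inter (isOpen_OmT.preimage (Rho_cA.prodMk Rho_cB.neg))

private theorem Rho_open3 : IsOpen Rho_O3 := by
  have h : Rho_O3 = {x | 4 * rr < mu (om ^ 0 • (GW x).1)} ∩
      ({x | 4 * rr < mu (om ^ 1 • (GW x).1)} ∩ {x | 4 * rr < mu (om ^ 2 • (GW x).1)}) := by
    ext x
    constructor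
    · intro h
      exact ⟨h 0 (by omega), h 1 (by omega), h 2 (by omega)⟩
    · rintro ⟨h0, h1, h2⟩ k hk
      interval_cases k
      · exact h0
      · exact h1
      · exact h2
  rw [h]
  exact (isOpen_lt continuous_const (Rho_cmu 0)).inter
    ((isOpen_lt continuous_const (Rho_cmu 1)).inter (isOpen_lt continuous_const (Rho_cmu 2)))

private theorem Rho_vals3 {x : WX} (h : x ∈ Rho_O3) : Rho_A x = 1 ∧ Rho_B x = 0 := by
  have hr := Rho_rr
  constructor
  · exact al_outside _ fun k hk => by linarith [h k hk]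
  · exact be_outside _ fun k hk => (h k hk).le

private theorem Rho_zero3 {x : WX} (h : x ∈ Rho_O3) : Rho_f x = 0 := by
  obtain ⟨h1, h2⟩ := Rho_vals3 h
  unfold Rho_f
  rw [h1, h2, neg_zero, rootT_one, neg_zero, ite_self, ite_self]

private theorem Rho_cont1 {x : WX} (h : x ∈ Rho_O1) : ContinuousAt Rho_f x := by
  have h1 : Rho_f =ᶠ[𝓝 x] fun y => rootT (Rho_A y) (Rho_B y) := by
    filter_upwards [Rho_open1.mem_nhds h] with y hy
    exact Rho_pos hy.1
  refine ContinuousAt.congr ?_ h1.symm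
  exact ContinuousAt.comp (f := fun y => (Rho_A y, Rho_B y))
    (g := fun p : ℝ × ℝ => rootT p.1 p.2) (rootT_continuousAt h.2)
    (Rho_cA.prodMk Rho_cB).continuousAt

private theorem Rho_cont2 {x : WX} (h : x ∈ Rho_O2) : ContinuousAt Rho_f x := by
  have h1 : Rho_f =ᶠ[𝓝 x] fun y => -rootT (Rho_A y) (-Rho_B y) := by
    filter_upwards [Rho_open2.mem_nhds h] with y hy
    exact Rho_neg hy.1
  refine ContinuousAt.congr ?_ h1.symm
  refine ContinuousAt.neg ?_
  exact ContinuousAt.comp (f := fun y => (Rho_A y, -Rho_B y))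
    (g := fun p : ℝ × ℝ => rootT p.1 p.2) (rootT_continuousAt h.2)
    (Rho_cA.prodMk Rho_cB.neg).continuousAt

private theorem Rho_cont3 {x : WX} (h : x ∈ Rho_O3) : ContinuousAt Rho_f x := by
  have h1 : Rho_f =ᶠ[𝓝 x] fun _ => (0 : ℝ) := by
    filter_upwards [Rho_open3.mem_nhds h] with y hy
    exact Rho_zero3 hy
  exact ContinuousAt.congr continuousAt_const h1.symm

private theorem Rho_star {z w : ℂ} (h : star z = w) : z.im = -w.im := by
  have h1 : (star z).im = -z.im := rfl
  rw [← h, h1, neg_neg]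

private theorem Rho_om_im : om.im = Real.sqrt 3 / 2 := rfl

private theorem Rho_om2_im : (om ^ 2).im = -(Real.sqrt 3 / 2) := by
  rw [sq, Complex.mul_im]
  unfold om
  simp only
  ring

private theorem Rho_star_om : star om = om ^ 2 := by
  have h3 : Real.sqrt 3 * Real.sqrt 3 = 3 := Real.mul_self_sqrt (by norm_num)
  apply Complex.ext
  · rw [sq, Complex.mul_re]
    change om.re = _
    unfold om
    simp only
    nlinarith [h3]
  · rw [Rho_om2_im]
    change -om.im = _
    rw [Rho_om_im]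

private theorem Rho_star_om2 : star (om ^ 2) = om := by
  rw [← Rho_star_om, star_star]

private theorem Rho_s3 : 0 < Real.sqrt 3 / 2 := by positivity

theorem exists_rho : ∃ (ρ : WX → ℝ) (O : Set WX), IsOpen O ∧ Kc ⊆ O ∧
    (∀ x ∈ O, ContinuousAt ρ x ∧ FW (GW x, ρ x) = 0 ∧ 0 < 3 * ρ x ^ 2 + al (GW x).1) ∧
    ∀ x ∈ Kc, ∀ y ∈ Kc, ∀ k < 3, GW x = omW k (GW y) → ρ x = ρ y → x = y := by
  refine ⟨Rho_f, Rho_O1 ∪ (Rho_O2 ∪ Rho_O3), Rho_open1.union (Rho_open2.union Rho_open3),
    ?_, ?_, ?_⟩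
  · intro x hx
    rcases lt_trichotomy (Rho_i x) 0 with h | h | h
    · refine Or.inr (Or.inl ⟨h, ?_⟩)
      rcases GW_sheet_neg x hx h with h1 | h1 | ⟨h1, h2⟩
      · exact Or.inl h1
      · refine Or.inr (Or.inl ?_)
        change -Rho_B x < 0
        exact neg_lt_zero.2 h1
      · refine Or.inr (Or.inr ?_)
        change 4 * Rho_A x ^ 3 + 27 * (-Rho_B x) ^ 2 < 0
        have e1 : Rho_A x = -3 := h1
        have e2 : Rho_B x = 0 := h2
        rw [e1, e2]
        norm_num
    · exact Or.inr (Or.inr fun k hk => GW_sheet_zero x hx h k hk)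
    · refine Or.inl ⟨h, ?_⟩
      rcases GW_sheet_pos x hx h with h1 | h1 | ⟨h1, h2⟩
      · exact Or.inl h1
      · exact Or.inr (Or.inl h1)
      · refine Or.inr (Or.inr ?_)
        change 4 * Rho_A x ^ 3 + 27 * (Rho_B x) ^ 2 < 0
        have e1 : Rho_A x = -3 := h1
        have e2 : Rho_B x = 0 := h2
        rw [e1, e2]
        norm_num
  · rintro x (h | h | h)
    · refine ⟨Rho_cont1 h, ?_, ?_⟩
      · change Rho_f x ^ 3 + Rho_A x * Rho_f x + Rho_B x = 0
        rw [Rho_pos h.1]
        exact rootT_root _ _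
      · change 0 < 3 * Rho_f x ^ 2 + Rho_A x
        rw [Rho_pos h.1]
        exact rootT_simple h.2
    · refine ⟨Rho_cont2 h, ?_, ?_⟩
      · change Rho_f x ^ 3 + Rho_A x * Rho_f x + Rho_B x = 0
        rw [Rho_neg h.1]
        have h1 := rootT_root (Rho_A x) (-Rho_B x)
        linear_combination -h1
      · change 0 < 3 * Rho_f x ^ 2 + Rho_A x
        rw [Rho_neg h.1, neg_sq]
        exact rootT_simple h.2
    · refine ⟨Rho_cont3 h, ?_, ?_⟩
      · change Rho_f x ^ 3 + Rho_A x * Rho_f x + Rho_B x = 0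
        rw [Rho_zero3 h, (Rho_vals3 h).2]
        ring
      · change 0 < 3 * Rho_f x ^ 2 + Rho_A x
        rw [Rho_zero3 h, (Rho_vals3 h).1]
        norm_num
  · intro x hx y hy k hk hxy hρ
    have h0 : (GW x).1 = om ^ k • (GW y).1 := congrArg Subtype.val hxy
    rcases GW_inter x y hx hy k hk h0 with h | ⟨hk0, h1, h2, h3, h4⟩
    · exact h
    · exfalso
      have hk12 : k = 1 ∨ k = 2 := by omega
      have hr3 := rootT_neg_three
      have hs3 := Rho_s3
      rcases hk12 with rfl | rfl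
      · rw [pow_one] at h3 h4
        rw [Rho_star_om] at h4
        have hx1 : 0 < Rho_i x := by
          have := Rho_star h3
          rw [Complex.neg_im, neg_neg, Rho_om_im] at this
          change 0 < (x.1 1 1).im
          rw [this]
          exact hs3
        have hy1 : Rho_i y < 0 := by
          have := Rho_star h4
          rw [Complex.neg_im, neg_neg, Rho_om2_im] at this
          change (y.1 1 1).im < 0
          rw [this]
          linarith
        obtain ⟨a1, a2⟩ := GW_crossing x h1 1 (Or.inl rfl) (by rw [pow_one]; exact h3)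
        obtain ⟨b1, b2⟩ := GW_crossing y h2 2 (Or.inr rfl) h4
        have e1 : Rho_A x = -3 := a1
        have e2 : Rho_B x = 0 := a2
        have e3 : Rho_A y = -3 := b1
        have e4 : Rho_B y = 0 := b2
        rw [Rho_pos hx1, Rho_neg hy1, e1, e2, e3, e4, neg_zero] at hρ
        linarith
      · rw [Rho_star_om2] at h4
        have hx1 : Rho_i x < 0 := by
          have := Rho_star h3
          rw [Complex.neg_im, neg_neg, Rho_om2_im] at this
          change (x.1 1 1).im < 0
          rw [this]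
          linarith
        have hy1 : 0 < Rho_i y := by
          have := Rho_star h4
          rw [Complex.neg_im, neg_neg, Rho_om_im] at this
          change 0 < (y.1 1 1).im
          rw [this]
          exact hs3
        obtain ⟨a1, a2⟩ := GW_crossing x h1 2 (Or.inr rfl) h3
        obtain ⟨b1, b2⟩ := GW_crossing y h2 1 (Or.inl rfl) (by rw [pow_one]; exact h4)
        have e1 : Rho_A x = -3 := a1
        have e2 : Rho_B x = 0 := a2
        have e3 : Rho_A y = -3 := b1
        have e4 : Rho_B y = 0 := b2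
        rw [Rho_neg hx1, Rho_pos hy1, e1, e2, e3, e4, neg_zero] at hρ
        linarith

private def Rho_U : C3 := ![1, 0, 0]

private theorem Rho_U_ne : Rho_U 0 ≠ 0 ∨ Rho_U 1 ≠ 0 := Or.inl one_ne_zero

private noncomputable def Rho_S0 : WX := ⟨sig Rho_U, sig_mem _ Rho_U_ne⟩

private theorem Rho_S0_col (i : Fin 3) : Rho_S0.1 i 2 = Rho_U i := by
  have h1 := sig_col Rho_U i
  have h2 : Real.sqrt (Complex.normSq (Rho_U 0) + Complex.normSq (Rho_U 1) +
      Complex.normSq (Rho_U 2)) = 1 := by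
    simp [Rho_U]
  rw [h2, Complex.ofReal_one, div_one] at h1
  exact h1

private theorem Rho_S0_02 : Rho_S0.1 0 2 = 1 := Rho_S0_col 0

private theorem Rho_S0_12 : Rho_S0.1 1 2 = 0 := Rho_S0_col 1

private theorem Rho_S0_22 : Rho_S0.1 2 2 = 0 := Rho_S0_col 2

private theorem Rho_om_norm (k : ℕ) : ‖om ^ k‖ = 1 := by
  have h : ‖om‖ ^ 3 = 1 := by
    rw [← norm_pow, om_cube, norm_one]
  have h1 : ‖om‖ = 1 := by
    have h0 := norm_nonneg om
    exact (pow_eq_one_iff_of_nonneg h0 (by norm_num)).1 h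
  rw [norm_pow, h1, one_pow]

private theorem Rho_mu0 (k : ℕ) : 4 * rr < mu (om ^ k • Rho_S0.1) := by
  have h1 : mu (om ^ k • Rho_S0.1) = Complex.normSq (om ^ k + kap) := by
    simp [mu, Rho_S0_02, Rho_S0_12]
  rw [h1, Complex.normSq_eq_norm_sq]
  have hk : ‖((kap : ℝ) : ℂ)‖ = kap := by
    rw [Complex.norm_real, Real.norm_eq_abs, abs_of_nonneg]
    unfold kap
    norm_num
  have h2 : 1 - kap ≤ ‖om ^ k + (kap : ℂ)‖ := by
    have h3 := norm_sub_norm_le (om ^ k) (-((kap : ℝ) : ℂ))
    rw [norm_neg, hk, Rho_om_norm, sub_neg_eq_add] at h3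
    exact h3
  have h4 : (1 - kap) ^ 2 ≤ ‖om ^ k + (kap : ℂ)‖ ^ 2 := by
    refine pow_le_pow_left₀ ?_ h2 2
    unfold kap
    norm_num
  refine lt_of_lt_of_le ?_ h4
  unfold rr kap
  norm_num

/-- the base point `S₀ = sig(1,0,0) ∈ Kc`, fixed by `G`, far from the tubes -/
theorem exists_base : ∃ S0 : WX, S0 ∈ Kc ∧ GW S0 = S0 ∧ al S0.1 = 1 ∧ be S0.1 = 0 ∧
    ∀ (x : E5) (k : ℕ), S0 ≠ omW k (ib x) := by
  refine ⟨Rho_S0, ?_, ?_, ?_, ?_, ?_⟩
  · refine ⟨Rho_S0_12, ?_, ?_⟩
    · rw [Rho_S0_02]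
      exact Complex.one_im
    · rw [Rho_S0_02, Complex.one_re]
      norm_num
  · apply Subtype.ext
    change tr (Dm (Rho_S0.1 2 2)) Rho_S0.1 = Rho_S0.1
    rw [Rho_S0_22]
    have h1 : Dm 0 = 1 := by
      ext i j
      fin_cases i <;> fin_cases j <;> simp [Dm, cw]
    rw [h1]
    unfold tr
    rw [Matrix.transpose_one, Matrix.one_mul, Matrix.mul_one]
  · exact al_outside _ fun k _ => by linarith [Rho_mu0 k, Rho_rr]
  · exact be_outside _ fun k _ => (Rho_mu0 k).le
  · intro x k h
    have h1 : Rho_S0.1 = om ^ k • sig (Ub x) := congrArg Subtype.val h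
    have h2 : (1 : ℂ) = om ^ k * sig (Ub x) 0 2 := by
      rw [← Rho_S0_02, h1]
      rfl
    obtain ⟨N, hN⟩ : ∃ N : ℝ, N = Real.sqrt (Complex.normSq (Ub x 0) + Complex.normSq (Ub x 1) +
      Complex.normSq (Ub x 2)) := ⟨_, rfl⟩
    rw [sig_col, ← hN] at h2
    have hN0 : (N : ℂ) ≠ 0 := by
      intro h0
      rw [h0, div_zero, mul_zero] at h2
      exact one_ne_zero h2
    have hNp : 0 < N := by
      have h3 : 0 ≤ N := by rw [hN]; exact Real.sqrt_nonneg _
      refine lt_of_le_of_ne h3 ?_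
      intro h4
      rw [← h4] at hN0
      exact hN0 rfl
    have h3 : (Ub x 0) ^ 3 = ((N ^ 3 : ℝ) : ℂ) := by
      have h4 : (1 : ℂ) = (Ub x 0 / N) ^ 3 := by
        have h5 := congrArg (fun z : ℂ => z ^ 3) h2
        rw [mul_pow, ← pow_mul, mul_comm k 3, pow_mul, om_cube, one_pow, one_pow, one_mul] at h5
        exact h5
      rw [div_pow, eq_div_iff (pow_ne_zero 3 hN0), one_mul] at h4
      rw [← h4]
      push_cast
      rfl
    obtain ⟨n, hn⟩ : ∃ n : ℝ, n = 2 * Real.sqrt (1 + x 0 ^ 2 + x 1 ^ 2 + x 2 ^ 2) := ⟨_, rfl⟩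
    have hU : Ub x 0 = ⟨-1, -(x 0) / n⟩ := by rw [hn]; rfl
    obtain ⟨y, hy⟩ : ∃ y : ℝ, y = -(x 0) / n := ⟨_, rfl⟩
    have hn2 : n ^ 2 = 4 * (1 + x 0 ^ 2 + x 1 ^ 2 + x 2 ^ 2) := by
      rw [hn, mul_pow, Real.sq_sqrt (by positivity)]
      norm_num
    have hy2 : y ^ 2 ≤ 1 / 4 := by
      rw [hy, div_pow, neg_sq, hn2, div_le_iff₀ (by positivity)]
      nlinarith [sq_nonneg (x 1), sq_nonneg (x 2)]
    rw [hU, ← hy] at h3
    have h4 := congrArg Complex.re h3
    rw [Complex.ofReal_re] at h4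
    have h5 : ((⟨-1, y⟩ : ℂ) ^ 3).re = -1 + 3 * y ^ 2 := by
      rw [pow_succ, sq, Complex.mul_re, Complex.mul_re, Complex.mul_im]
      simp only
      ring
    rw [h5] at h4
    have h6 : 0 < N ^ 3 := by positivity
    linarith

end Wu
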