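import Pool.Agent.Lib.MP_60079e_gt.BaseA
import Pool.Agent.Lib.MP_60079e_gt.HypB
import Pool.Agent.Lib.MP_60079e_gt.Rho
import Pool.Agent.Lib.MP_60079e_gt.Punct

/-! The closed manifold `P`: the component of `{F = 0}` containing the base point. -/

open Set Metric Topology Matrix
open scoped ContDiff

namespace Wu

/-- The component `P` of `{F = 0}` through `(π S₀, 0)`. -/
structure BaseP (B : BaseA) (S0 : WX) where
  P : Mfd E5
  closed : P.Closed
  ι : P.X → B.A.X × ℝ
  emb : IsClosedEmbedding ι
  zero : ∀ y, B.F (ι y) = 0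
  comp : ∀ C : Set (B.A.X × ℝ), IsPreconnected C → (B.π S0, (0 : ℝ)) ∈ C →
    (∀ p ∈ C, B.F p = 0) → C ⊆ range ι
  op : ∀ y, 0 < deriv (fun h => B.F ((ι y).1, h)) (ι y).2 → OPAt P B.A (fun y' => (ι y').1) y

theorem exists_baseP (B : BaseA) (S0 : WX) (h : B.F (B.π S0, 0) = 0) :
    Nonempty (BaseP B S0) := by
  obtain ⟨H, ι, hι, hr, hop⟩ := exists_hyp B.A B.F B.smF B.regF
  obtain ⟨y0, hy0⟩ : (B.π S0, (0 : ℝ)) ∈ range ι := by
    rw [hr]
    exact h
  have hzero : ∀ y, B.F (ι y) = 0 := by
    intro y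
    have h1 : ι y ∈ range ι := ⟨y, rfl⟩
    rw [hr] at h1
    exact h1
  have hlc : LocallyConnectedSpace H.X := locallyConnected_mfd H
  obtain ⟨R, v, hv, hvr, hvo⟩ := exists_restr H (connectedComponent y0) isOpen_connectedComponent
    ⟨y0, mem_connectedComponent⟩
  have hvc : IsClosedEmbedding v := ⟨hv.isEmbedding, by
    rw [hvr]
    exact isClosed_connectedComponent⟩
  have hcA : CompactSpace B.A.X := B.closed.1
  have hHc : IsCompact (range ι) := by
    obtain ⟨b, hb⟩ := B.properF
    have h1 : IsCompact ((univ : Set B.A.X) ×ˢ Icc (-b) b) :=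
      isCompact_univ.prod isCompact_Icc
    refine h1.of_isClosed_subset hι.isClosed_range ?_
    rw [hr]
    intro p hp
    have h2 := hb p hp
    exact ⟨mem_univ _, abs_le.1 h2⟩
  have hHcomp : CompactSpace H.X := by
    rw [← isCompact_univ_iff, hι.isInducing.isCompact_iff, image_univ]
    exact hHc
  have hRc : CompactSpace R.X := hvc.compactSpace
  have hRn : IsConnected (univ : Set R.X) := by
    constructor
    · have : y0 ∈ range v := by
        rw [hvr]
        exact mem_connectedComponent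
      obtain ⟨z, _⟩ := this
      exact ⟨z, mem_univ z⟩
    · rw [← hv.isInducing.isPreconnected_image, image_univ, hvr]
      exact isPreconnected_connectedComponent
  refine ⟨⟨R, ⟨hRc, connectedSpace_iff_univ.2 hRn⟩, ι ∘ v, hι.comp hvc, fun y => hzero (v y),
    ?_, ?_⟩⟩
  · intro C hC h0 hF
    have hCr : C ⊆ range ι := by
      intro p hp
      rw [hr]
      exact hF p hp
    have him : ι '' (ι ⁻¹' C) = C := image_preimage_eq_of_subset hCr
    have hpre : IsPreconnected (ι ⁻¹' C) := by
      rw [← hι.isInducing.isPreconnected_image, him]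
      exact hC
    have hy : y0 ∈ ι ⁻¹' C := by
      change ι y0 ∈ C
      rw [hy0]
      exact h0
    have hsub : ι ⁻¹' C ⊆ range v := by
      rw [hvr]
      exact hpre.subset_connectedComponent hy
    rw [← him]
    rintro _ ⟨y, hyC, rfl⟩
    obtain ⟨z, rfl⟩ := hsub hyC
    exact ⟨z, rfl⟩
  · intro y hy
    exact OPAt.comp (N := H) (g := fun y' => (ι y').1) (hop (v y) hy) (hvo y)

end Wu
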