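import Pool.Agent.Lib.MP_60079e_gt.Glue
import Pool.Agent.Lib.MP_60079e_gt.Punct

/-! Capping, part A: the one point compactification of the open set
`P \ Φ (M \ i (ball 0 1))` of `P`. -/

open Set Metric Topology
open scoped ContDiff

namespace Wu

private theorem CapA_norm {x : E5} (hx : x ≠ 0) :
    HasFDerivAt (fun y : E5 => ‖y‖) (‖x‖⁻¹ • innerSL ℝ x) x := by
  have hx0 : ‖x‖ ≠ 0 := norm_ne_zero_iff.2 hx
  have h1 := (hasStrictFDerivAt_norm_sq x).hasFDerivAt.sqrt (pow_ne_zero 2 hx0)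
  have h2 : (fun y : E5 => √(‖y‖ ^ 2)) = fun y : E5 => ‖y‖ := by
    funext y
    exact Real.sqrt_sq (norm_nonneg y)
  rw [h2] at h1
  have h3 : (1 / (2 * √(‖x‖ ^ 2))) • (2 • innerSL ℝ x) = ‖x‖⁻¹ • innerSL ℝ x := by
    rw [Real.sqrt_sq (norm_nonneg x), ← Nat.cast_smul_eq_nsmul ℝ, smul_smul]
    congr 1
    push_cast
    field_simp
  rw [h3] at h1
  exact h1

private theorem CapA_eq : (fun y : E5 => -(((1 - ‖y‖) / ‖y‖) • y)) =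
    fun y : E5 => (1 - ‖y‖⁻¹) • y := by
  funext y
  rcases eq_or_ne y 0 with rfl | hy
  · simp
  · have h : ‖y‖ ≠ 0 := norm_ne_zero_iff.2 hy
    rw [← neg_smul]
    congr 1
    field_simp
    ring

private theorem CapA_deriv {x : E5} (hx : x ≠ 0) :
    HasFDerivAt (fun y : E5 => (1 - ‖y‖⁻¹) • y)
      ((1 - ‖x‖⁻¹) • ContinuousLinearMap.id ℝ E5 +
        ((‖x‖ ^ 2)⁻¹ • (‖x‖⁻¹ • innerSL ℝ x)).smulRight x) x := by
  have hx0 : ‖x‖ ≠ 0 := norm_ne_zero_iff.2 hx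
  have h1 : HasFDerivAt (fun y : E5 => ‖y‖⁻¹) (-(‖x‖ ^ 2)⁻¹ • (‖x‖⁻¹ • innerSL ℝ x)) x :=
    (hasDerivAt_inv hx0).comp_hasFDerivAt x (CapA_norm hx)
  have h2 : HasFDerivAt (fun y : E5 => 1 - ‖y‖⁻¹) ((‖x‖ ^ 2)⁻¹ • (‖x‖⁻¹ • innerSL ℝ x)) x := by
    have h3 := h1.const_sub 1
    rwa [neg_smul, neg_neg] at h3
  exact h2.smul (hasFDerivAt_id x)

private theorem CapA_transvection (c : ℝ) (hc : c ≠ 0) (L : E5 →L[ℝ] ℝ) (x : E5) :
    ((c • ContinuousLinearMap.id ℝ E5 + L.smulRight x : E5 →L[ℝ] E5) : E5 →ₗ[ℝ] E5) =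
      c • LinearMap.transvection (c⁻¹ • (L : E5 →ₗ[ℝ] ℝ)) x := by
  refine LinearMap.ext fun y => ?_
  show c • y + L y • x = c • (y + (c⁻¹ * L y) • x)
  rw [smul_add, smul_smul, mul_inv_cancel_left₀ hc]

private theorem CapA_det {x : E5} (h0 : 0 < ‖x‖) (h1 : ‖x‖ < 1) :
    0 < ((1 - ‖x‖⁻¹) • ContinuousLinearMap.id ℝ E5 +
        ((‖x‖ ^ 2)⁻¹ • (‖x‖⁻¹ • innerSL ℝ x)).smulRight x).det := by
  have ha : 1 - ‖x‖⁻¹ ≠ 0 := by
    have : 1 < ‖x‖⁻¹ := (one_lt_inv₀ h0).2 h1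
    linarith
  unfold ContinuousLinearMap.det
  rw [CapA_transvection _ ha, LinearMap.det_smul, LinearMap.transvection.det, finrank_euclideanSpace,
    Fintype.card_fin]
  have e2 : ((1 - ‖x‖⁻¹)⁻¹ • (((‖x‖ ^ 2)⁻¹ • (‖x‖⁻¹ • innerSL ℝ x) : E5 →L[ℝ] ℝ) :
      E5 →ₗ[ℝ] ℝ)) x = (1 - ‖x‖⁻¹)⁻¹ * ((‖x‖ ^ 2)⁻¹ * (‖x‖⁻¹ * ‖x‖ ^ 2)) := by
    rw [← real_inner_self_eq_norm_sq]
    rfl
  rw [e2]
  have e3 : (1 - ‖x‖⁻¹) ^ 5 * (1 + (1 - ‖x‖⁻¹)⁻¹ * ((‖x‖ ^ 2)⁻¹ * (‖x‖⁻¹ * ‖x‖ ^ 2))) =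
      (1 - ‖x‖⁻¹) ^ 4 := by
    have h3 : (‖x‖ ^ 2)⁻¹ * (‖x‖⁻¹ * ‖x‖ ^ 2) = ‖x‖⁻¹ := by
      field_simp
    rw [h3]
    have h4 : (1 - ‖x‖⁻¹) ^ 5 * (1 + (1 - ‖x‖⁻¹)⁻¹ * ‖x‖⁻¹) =
        (1 - ‖x‖⁻¹) ^ 4 * ((1 - ‖x‖⁻¹) + ((1 - ‖x‖⁻¹) * (1 - ‖x‖⁻¹)⁻¹) * ‖x‖⁻¹) := by ring
    rw [h4, mul_inv_cancel₀ ha]
    ring
  rw [e3]
  positivity

/-- The reflected radial flip `x ↦ -((1 - ‖x‖) / ‖x‖) x` of the punctured ball is an orientation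
preserving diffeomorphism (in dimension 5). -/
theorem opAt_flip (x : E5) (h0 : 0 < ‖x‖) (h1 : ‖x‖ < 1) :
    OPAt (euc E5) (euc E5) (fun y : E5 => -(((1 - ‖y‖) / ‖y‖) • y)) x := by
  have hx : x ≠ 0 := norm_pos_iff.1 h0
  rw [CapA_eq]
  refine opAt_euc ?_ ?_
  · exact (contDiffAt_const.sub ((contDiffAt_norm ℝ hx).inv h0.ne')).smul contDiffAt_id
  · rw [(CapA_deriv hx).fderiv]
    exact CapA_det h0 h1

section
variable (M P : Mfd E5) (hM : M.Closed) (hP : P.Closed) (i : E5 → M.X) (Φ : M.X → P.X)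
  (hi : OEmb (euc E5) M i (ball (0 : E5) 1)) (hΦ : OEmb M P Φ {i 0}ᶜ)

include hM hP hi hΦ

theorem isClosed_capSet (r : ℝ) (h0 : 0 < r) (h1 : r ≤ 1) :
    IsClosed (Φ '' (i '' ball (0 : E5) r)ᶜ) := by
  have : CompactSpace M.X := hM.1
  have h2 : IsOpen (i '' ball (0 : E5) r) :=
    (hi.mono (ball_subset_ball h1)).isOpen_image isOpen_ball
  have h3 : (i '' ball (0 : E5) r)ᶜ ⊆ ({i 0}ᶜ : Set M.X) := by
    rw [compl_subset_compl, singleton_subset_iff]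
    exact ⟨0, mem_ball_self h0, rfl⟩
  exact (h2.isClosed_compl.isCompact.image_of_continuousOn (hΦ.continuousOn.mono h3)).isClosed

theorem capOut_nonempty : (Φ '' (i '' ball (0 : E5) 1)ᶜ)ᶜ.Nonempty := by
  obtain ⟨x, hx⟩ : ∃ x : E5, ‖x‖ = 1 / 2 := exists_norm_eq E5 (by norm_num)
  have h0 : (0 : E5) ∈ ball (0 : E5) 1 := mem_ball_self one_pos
  have hx1 : x ∈ ball (0 : E5) 1 := by
    rw [mem_ball_zero_iff, hx]
    norm_num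
  have hx0 : x ≠ 0 := by
    rintro rfl
    rw [norm_zero] at hx
    norm_num at hx
  refine ⟨Φ (i x), ?_⟩
  rintro ⟨a, ha, hax⟩
  have ha0 : a ≠ i 0 := fun h => ha ⟨0, h0, h.symm⟩
  have hix : i x ≠ i 0 := fun h => hx0 (hi.2 hx1 h0 h)
  have h1 : a = i x := hΦ.2 ha0 hix hax
  exact ha ⟨x, hx1, h1.symm⟩

/-- The neighbourhoods of the added point: for a compact set `K` of the complement there is
`δ` such that `Φ (i x) ∉ K` for `1 - δ < ‖x‖ < 1`. -/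
theorem cap_nhds (K : Set P.X) (hK : IsCompact K) (hK' : K ⊆ (Φ '' (i '' ball (0 : E5) 1)ᶜ)ᶜ) :
    ∃ δ : ℝ, 0 < δ ∧ δ < 1 ∧ ∀ x : E5, 1 - δ < ‖x‖ → ‖x‖ < 1 → Φ (i x) ∉ K := by
  have h0 : (0 : E5) ∈ ball (0 : E5) 1 := mem_ball_self one_pos
  have hpos : ∀ n : ℕ, (0 : ℝ) < 1 / ((n : ℝ) + 2) := fun n => by positivity
  have hlt : ∀ n : ℕ, 1 / ((n : ℝ) + 2) < 1 := fun n => by
    rw [div_lt_one (by positivity)]
    have : (0 : ℝ) ≤ n := Nat.cast_nonneg n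
    linarith
  have hanti : ∀ m n : ℕ, m ≤ n → 1 / ((n : ℝ) + 2) ≤ 1 / ((m : ℝ) + 2) := fun m n h => by
    apply one_div_le_one_div_of_le (by positivity)
    have : (m : ℝ) ≤ n := Nat.cast_le.2 h
    linarith
  have hne : ∀ (n : ℕ) (a : M.X), a ∈ (i '' ball (0 : E5) (1 - 1 / ((n : ℝ) + 2)))ᶜ → a ≠ i 0 :=
    fun n a ha h => ha ⟨0, mem_ball_self (by linarith [hlt n]), h.symm⟩
  obtain ⟨n, hn⟩ := hK.elim_directed_family_closed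
    (fun n : ℕ => Φ '' (i '' ball (0 : E5) (1 - 1 / ((n : ℝ) + 2)))ᶜ)
    (fun n => isClosed_capSet M P hM hP i Φ hi hΦ _ (by linarith [hlt n]) (by linarith [hpos n]))
    (by
      rw [eq_empty_iff_forall_notMem]
      rintro p ⟨hpK, hp⟩
      rw [mem_iInter] at hp
      obtain ⟨a, ha, hap⟩ := hp 0
      refine hK' hpK ⟨a, ?_, hap⟩
      rintro ⟨x, hx, hxa⟩
      rw [mem_ball_zero_iff] at hx
      obtain ⟨n, hn⟩ := exists_nat_gt (1 / (1 - ‖x‖))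
      have hx' : 0 < 1 - ‖x‖ := by linarith
      have h1 : ‖x‖ < 1 - 1 / ((n : ℝ) + 2) := by
        have h2 : 1 / ((n : ℝ) + 2) < 1 - ‖x‖ := by
          rw [div_lt_iff₀ (by positivity)]
          rw [div_lt_iff₀ hx'] at hn
          nlinarith
        linarith
      obtain ⟨b, hb, hbp⟩ := hp n
      have h3 : b = a := hΦ.2 (hne n b hb) (hne 0 a ha) (hbp.trans hap.symm)
      refine hb ⟨x, ?_, hxa.trans h3.symm⟩
      rw [mem_ball_zero_iff]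
      exact h1)
    (by
      intro m n
      refine ⟨max m n, ?_, ?_⟩
      · refine image_mono (compl_subset_compl.2 (image_mono (ball_subset_ball ?_)))
        have := hanti m (max m n) (le_max_left _ _)
        linarith
      · refine image_mono (compl_subset_compl.2 (image_mono (ball_subset_ball ?_)))
        have := hanti n (max m n) (le_max_right _ _)
        linarith)
  refine ⟨1 / ((n : ℝ) + 2), hpos n, hlt n, fun x hx hx1 hxK => ?_⟩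
  have h1 : Φ (i x) ∈ K ∩ Φ '' (i '' ball (0 : E5) (1 - 1 / ((n : ℝ) + 2)))ᶜ := by
    refine ⟨hxK, i x, ?_, rfl⟩
    rintro ⟨y, hy, hyx⟩
    rw [mem_ball_zero_iff] at hy
    have h2 : y = x := hi.2 (mem_ball_zero_iff.2 (by linarith [hpos n]))
      (mem_ball_zero_iff.2 hx1) hyx
    rw [h2] at hy
    linarith
  rw [hn] at h1
  exact h1

end

end Wu
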