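import Pool.Agent.Lib.MP_60079e_gt.CapA

/-! Capping, part B: the space `N`, with the chart at the added point. -/

open Set Metric Topology
open scoped ContDiff

namespace Wu

section
variable (M P : Mfd E5) (hM : M.Closed) (hP : P.Closed) (i : E5 → M.X) (Φ : M.X → P.X)
  (hi : OEmb (euc E5) M i (ball (0 : E5) 1)) (hΦ : OEmb M P Φ {i 0}ᶜ)

/-- The open part of `P` outside the image of `M \ i (ball 0 1)`. -/
abbrev CapOut (M P : Mfd E5) (i : E5 → M.X) (Φ : M.X → P.X) : Type :=
  {p : P.X // p ∉ Φ '' (i '' ball (0 : E5) 1)ᶜ}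

/-- the reflected radial flip -/
private noncomputable def cfl (y : E5) : E5 := -(((1 - ‖y‖) / ‖y‖) • y)

private theorem cfl_norm {y : E5} (h0 : 0 < ‖y‖) (h1 : ‖y‖ < 1) : ‖cfl y‖ = 1 - ‖y‖ := by
  unfold cfl
  rw [norm_neg, norm_smul, Real.norm_of_nonneg (div_nonneg (by linarith) h0.le)]
  field_simp

private theorem cfl_cfl {y : E5} (h0 : 0 < ‖y‖) (h1 : ‖y‖ < 1) : cfl (cfl y) = y := by
  have h := cfl_norm h0 h1
  have h2 : cfl (cfl y) = -(((1 - ‖cfl y‖) / ‖cfl y‖) • cfl y) := rfl
  rw [h2, h]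
  have h3 : cfl y = -(((1 - ‖y‖) / ‖y‖) • y) := rfl
  rw [h3, smul_neg, neg_neg, smul_smul]
  have h4 : (1 - (1 - ‖y‖)) / (1 - ‖y‖) * ((1 - ‖y‖) / ‖y‖) = 1 := by
    have : 1 - ‖y‖ ≠ 0 := by linarith
    field_simp
    ring
  rw [h4, one_smul]

private theorem cfl_mem {y : E5} (h0 : 0 < ‖y‖) (h1 : ‖y‖ < 1) :
    0 < ‖cfl y‖ ∧ ‖cfl y‖ < 1 := by
  rw [cfl_norm h0 h1]
  constructor <;> linarith

private theorem cfl_cont {y : E5} (h0 : 0 < ‖y‖) : ContinuousAt cfl y := by
  unfold cfl
  have h : ‖y‖ ≠ 0 := h0.ne'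
  have h1 : ContinuousAt (fun y : E5 => ‖y‖) y := continuous_norm.continuousAt
  exact (((continuousAt_const.sub h1).div h1 h).smul continuousAt_id).neg

private theorem exists_norm5 (r : ℝ) (h : 0 ≤ r) : ∃ x : E5, ‖x‖ = r := by
  refine ⟨r • EuclideanSpace.single (0 : Fin 5) (1 : ℝ), ?_⟩
  rw [norm_smul, Real.norm_of_nonneg h]
  simp

include hM hP hi hΦ

theorem cap_space : T2Space (OnePoint (CapOut M P i Φ)) ∧
    CompactSpace (OnePoint (CapOut M P i Φ)) ∧ ConnectedSpace (OnePoint (CapOut M P i Φ)) := by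
  have : LocallyCompactSpace P.X := locallyCompact_mfd P
  have hcl := isClosed_capSet M P hM hP i Φ hi hΦ 1 one_pos le_rfl
  have hv : IsOpenEmbedding (Subtype.val : CapOut M P i Φ → P.X) :=
    hcl.isOpen_compl.isOpenEmbedding_subtypeVal
  have : LocallyCompactSpace (CapOut M P i Φ) := hv.locallyCompactSpace
  refine ⟨inferInstance, inferInstance, ?_⟩
  have : ConnectedSpace P.X := hP.2
  have key : ∀ U : Set (OnePoint (CapOut M P i Φ)), IsClopen U → OnePoint.infty ∉ U → U = ∅ := by
    intro U hU hinf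
    have hUr : U ⊆ range ((↑) : CapOut M P i Φ → OnePoint (CapOut M P i Φ)) := by
      intro x hx
      rcases OnePoint.ne_infty_iff_exists.mp (fun h => hinf (h ▸ hx)) with ⟨q, hq⟩
      exact ⟨q, hq⟩
    have hc1 : IsCompact (((↑) : CapOut M P i Φ → OnePoint (CapOut M P i Φ)) ⁻¹' U) :=
      (OnePoint.isOpenEmbedding_coe.isInducing.isCompact_preimage_iff hUr).mpr hU.1.isCompact
    have ho1 : IsOpen (((↑) : CapOut M P i Φ → OnePoint (CapOut M P i Φ)) ⁻¹' U) :=
      hU.2.preimage OnePoint.continuous_coe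
    set V : Set P.X := Subtype.val ''
      (((↑) : CapOut M P i Φ → OnePoint (CapOut M P i Φ)) ⁻¹' U) with hV
    have hVc : IsCompact V := hc1.image hv.continuous
    have hVo : IsOpen V := hv.isOpenMap _ ho1
    rcases isClopen_iff.mp ⟨hVc.isClosed, hVo⟩ with h | h
    · rw [hV, image_eq_empty] at h
      rw [eq_empty_iff_forall_notMem]
      intro x hx
      obtain ⟨q, rfl⟩ := hUr hx
      have : q ∈ ((↑) : CapOut M P i Φ → OnePoint (CapOut M P i Φ)) ⁻¹' U := hx
      rw [h] at this
      exact this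
    · exfalso
      obtain ⟨δ, hδ0, hδ1, hδ⟩ := cap_nhds M P hM hP i Φ hi hΦ V hVc (by
        rintro p ⟨q, _, rfl⟩
        exact q.2)
      obtain ⟨x, hx⟩ := exists_norm5 (1 - δ / 2) (by linarith)
      exact hδ x (by linarith) (by linarith) (h ▸ mem_univ _)
  have hpre : PreconnectedSpace (OnePoint (CapOut M P i Φ)) := by
    rw [preconnectedSpace_iff_clopen]
    intro s hs
    by_cases h : OnePoint.infty ∈ s
    · right
      have := key sᶜ hs.compl (fun h' => h' h)
      rw [compl_empty_iff] at this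
      exact this
    · left
      exact key s hs h
  exact { toPreconnectedSpace := hpre, toNonempty := inferInstance }

omit hM hP in
private theorem cap_out {y : E5} (h0 : 0 < ‖y‖) (h1 : ‖y‖ < 1) :
    Φ (i y) ∉ Φ '' (i '' ball (0 : E5) 1)ᶜ := by
  rintro ⟨m, hm, he⟩
  have hi0 : i 0 ∈ i '' ball (0 : E5) 1 := mem_image_of_mem _ (by simp)
  have hy : y ∈ ball (0 : E5) 1 := by simpa using h1
  have hne : i y ≠ i 0 := by
    intro h
    have := hi.2 hy (by simp) h
    rw [this, norm_zero] at h0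
    exact lt_irrefl _ h0
  have hmne : m ≠ i 0 := by
    rintro rfl
    exact hm hi0
  have := hΦ.2 (mem_compl_singleton_iff.mpr hmne) (mem_compl_singleton_iff.mpr hne) he
  rw [this] at hm
  exact hm (mem_image_of_mem _ hy)

open Classical in
omit hM hP in
private theorem exists_capF : ∃ f : E5 → OnePoint (CapOut M P i Φ),
    f 0 = OnePoint.infty ∧ ∀ x : E5, 0 < ‖x‖ → ‖x‖ < 1 → ∃ q : CapOut M P i Φ,
      f x = (q : OnePoint (CapOut M P i Φ)) ∧ (q : P.X) = Φ (i (cfl x)) := by
  refine ⟨fun x => if h : 0 < ‖x‖ ∧ ‖x‖ < 1 then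
    (((⟨Φ (i (cfl x)), cap_out M P i Φ hi hΦ (cfl_mem h.1 h.2).1 (cfl_mem h.1 h.2).2⟩ :
      CapOut M P i Φ)) : OnePoint (CapOut M P i Φ)) else OnePoint.infty, ?_, ?_⟩
  · simp
  · intro x h0 h1
    exact ⟨_, dif_pos ⟨h0, h1⟩, rfl⟩

/-- The chart at the added point. -/
theorem exists_capChart : ∃ e : OpenPartialHomeomorph (OnePoint (CapOut M P i Φ)) E5,
    e.target = ball 0 1 ∧ OnePoint.infty ∈ e.source ∧ e OnePoint.infty = 0 ∧
    (∀ q : CapOut M P i Φ, (q : OnePoint (CapOut M P i Φ)) ∈ e.source ↔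
      (q : P.X) ∈ Φ '' (i '' (ball (0 : E5) 1 \ {0}))) ∧
    ∀ x : E5, 0 < ‖x‖ → ‖x‖ < 1 → ∃ q : CapOut M P i Φ,
      e.symm x = (q : OnePoint (CapOut M P i Φ)) ∧
      (q : P.X) = Φ (i (-(((1 - ‖x‖) / ‖x‖) • x))) := by
  have hcl := isClosed_capSet M P hM hP i Φ hi hΦ 1 one_pos le_rfl
  have hv : IsOpenEmbedding (Subtype.val : CapOut M P i Φ → P.X) :=
    hcl.isOpen_compl.isOpenEmbedding_subtypeVal
  have : CompactSpace M.X := hM.1
  have : CompactSpace P.X := hP.1
  obtain ⟨f, hf0, hf⟩ := exists_capF M P i Φ hi hΦ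
  have hne : ∀ y : E5, 0 < ‖y‖ → ‖y‖ < 1 → i y ≠ i 0 := by
    intro y h0 h1 h
    have := hi.2 (by simpa using h1 : y ∈ ball (0 : E5) 1) (by simp) h
    rw [this, norm_zero] at h0
    exact lt_irrefl _ h0
  -- injectivity
  have hpos : ∀ x : E5, x ≠ 0 → 0 < ‖x‖ := fun x hx => norm_pos_iff.mpr hx
  have hinj : InjOn f (ball (0 : E5) 1) := by
    intro x hx y hy hxy
    have hx1 : ‖x‖ < 1 := by simpa using hx
    have hy1 : ‖y‖ < 1 := by simpa using hy
    by_cases hx0 : x = 0
    · by_cases hy0 : y = 0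
      · rw [hx0, hy0]
      · exfalso
        obtain ⟨q, hq, _⟩ := hf y (hpos y hy0) hy1
        rw [hx0, hf0, hq] at hxy
        exact OnePoint.coe_ne_infty q hxy.symm
    · by_cases hy0 : y = 0
      · exfalso
        obtain ⟨q, hq, _⟩ := hf x (hpos x hx0) hx1
        rw [hy0, hf0, hq] at hxy
        exact OnePoint.coe_ne_infty q hxy
      · obtain ⟨q, hq, hq'⟩ := hf x (hpos x hx0) hx1
        obtain ⟨r, hr, hr'⟩ := hf y (hpos y hy0) hy1
        rw [hq, hr] at hxy
        have hqr : q = r := OnePoint.coe_injective hxy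
        rw [hqr, hr'] at hq'
        have hmx := cfl_mem (hpos x hx0) hx1
        have hmy := cfl_mem (hpos y hy0) hy1
        have h1 := hΦ.2 (mem_compl_singleton_iff.mpr (hne _ hmy.1 hmy.2))
          (mem_compl_singleton_iff.mpr (hne _ hmx.1 hmx.2)) hq'
        have h2 := hi.2 (by simpa using hmy.2 : cfl y ∈ ball (0 : E5) 1)
          (by simpa using hmx.2 : cfl x ∈ ball (0 : E5) 1) h1
        rw [← cfl_cfl (hpos x hx0) hx1, ← cfl_cfl (hpos y hy0) hy1, h2]
  -- continuity
  have hcont : ContinuousOn f (ball (0 : E5) 1) := by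
    intro x hx
    apply ContinuousAt.continuousWithinAt
    have hx1 : ‖x‖ < 1 := by simpa using hx
    by_cases hx0 : x = 0
    · subst hx0
      rw [ContinuousAt, hf0, Filter.tendsto_def]
      intro O hO
      obtain ⟨O', hO'O, hO'o, hO'i⟩ := mem_nhds_iff.mp hO
      have h1 := (OnePoint.isOpen_iff_of_mem hO'i).mp hO'o
      obtain ⟨δ, hδ0, hδ1, hδ⟩ := cap_nhds M P hM hP i Φ hi hΦ
        (Subtype.val '' (((↑) : CapOut M P i Φ → OnePoint (CapOut M P i Φ)) ⁻¹' O')ᶜ)
        (h1.2.image hv.continuous) (by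
          rintro p ⟨q, _, rfl⟩
          exact q.2)
      refine Filter.mem_of_superset (ball_mem_nhds (0 : E5) hδ0) ?_
      intro y hy
      have hyd : ‖y‖ < δ := by simpa using hy
      apply hO'O
      by_cases hy0 : y = 0
      · rw [hy0, hf0]; exact hO'i
      · have hy1 : ‖y‖ < 1 := by linarith
        obtain ⟨q, hq, hq'⟩ := hf y (hpos y hy0) hy1
        rw [hq]
        by_contra hcon
        have hn := cfl_norm (hpos y hy0) hy1
        have hp := hpos y hy0
        apply hδ (cfl y) (by linarith) (by linarith)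
        rw [← hq']
        exact mem_image_of_mem _ hcon
    · have hxp := hpos x hx0
      have hmx := cfl_mem hxp hx1
      rw [ContinuousAt, Filter.tendsto_def]
      intro O hO
      obtain ⟨O', hO'O, hO'o, hO'i⟩ := mem_nhds_iff.mp hO
      obtain ⟨q, hq, hq'⟩ := hf x hxp hx1
      have h1 : IsOpen (Subtype.val '' (((↑) : CapOut M P i Φ → OnePoint (CapOut M P i Φ)) ⁻¹' O')) :=
        hv.isOpenMap _ (hO'o.preimage OnePoint.continuous_coe)
      have hcx : ContinuousAt (fun y : E5 => Φ (i (cfl y))) x := by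
        have h2 : ContinuousAt i (cfl x) :=
          (hi.1 (cfl x) (by simpa using hmx.2)).1
        have h3 : ContinuousAt Φ (i (cfl x)) :=
          (hΦ.1 (i (cfl x)) (mem_compl_singleton_iff.mpr (hne _ hmx.1 hmx.2))).1
        exact ContinuousAt.comp (f := fun y : E5 => i (cfl y)) (g := Φ) h3
          (ContinuousAt.comp (f := cfl) (g := i) h2 (cfl_cont hxp))
      have h4 : Φ (i (cfl x)) ∈
          Subtype.val '' (((↑) : CapOut M P i Φ → OnePoint (CapOut M P i Φ)) ⁻¹' O') := by
        rw [← hq']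
        refine mem_image_of_mem _ ?_
        rw [mem_preimage, ← hq]
        exact hO'i
      have h5 := hcx (h1.mem_nhds h4)
      have h6 : {y : E5 | 0 < ‖y‖ ∧ ‖y‖ < 1} ∈ 𝓝 x := by
        apply IsOpen.mem_nhds
        · exact (isOpen_lt continuous_const continuous_norm).inter
            (isOpen_lt continuous_norm continuous_const)
        · exact ⟨hxp, hx1⟩
      filter_upwards [h5, h6] with y hy hy'
      apply hO'O
      obtain ⟨r, hr, hr'⟩ := hf y hy'.1 hy'.2
      rw [hr]
      obtain ⟨t, ht, ht'⟩ := hy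
      have : t = r := by
        apply Subtype.val_injective
        rw [ht', hr']
      rw [← this]
      exact ht
  -- open images
  have himg : ∀ V : Set E5, IsOpen V → V ⊆ ball (0 : E5) 1 → (0 : E5) ∉ V → IsOpen (f '' V) := by
    intro V hV hVb hV0
    have hVn : ∀ x ∈ V, 0 < ‖x‖ ∧ ‖x‖ < 1 := by
      intro x hx
      exact ⟨hpos x (fun h => hV0 (h ▸ hx)), by simpa using hVb hx⟩
    have hfl : cfl '' V = cfl ⁻¹' V ∩ {y : E5 | 0 < ‖y‖ ∧ ‖y‖ < 1} := by
      ext y
      constructor
      · rintro ⟨x, hx, rfl⟩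
        obtain ⟨h0, h1⟩ := hVn x hx
        refine ⟨?_, cfl_mem h0 h1⟩
        rw [mem_preimage, cfl_cfl h0 h1]
        exact hx
      · rintro ⟨hy, h0, h1⟩
        exact ⟨cfl y, hy, cfl_cfl h0 h1⟩
    have hflo : IsOpen (cfl '' V) := by
      rw [hfl, inter_comm]
      apply ContinuousOn.isOpen_inter_preimage _ _ hV
      · intro y hy
        exact (cfl_cont hy.1).continuousWithinAt
      · exact (isOpen_lt continuous_const continuous_norm).inter
            (isOpen_lt continuous_norm continuous_const)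
    have hsub1 : cfl '' V ⊆ ball (0 : E5) 1 := by
      rw [hfl]
      rintro y ⟨_, _, h1⟩
      simpa using h1
    have ho1 : IsOpen (i '' (cfl '' V)) := (hi.mono hsub1).isOpen_image hflo
    have hsub2 : i '' (cfl '' V) ⊆ {i 0}ᶜ := by
      rintro _ ⟨y, hy, rfl⟩
      rw [hfl] at hy
      exact mem_compl_singleton_iff.mpr (hne y hy.2.1 hy.2.2)
    have ho2 : IsOpen (Φ '' (i '' (cfl '' V))) := (hΦ.mono hsub2).isOpen_image ho1
    have himeq : f '' V = ((↑) : CapOut M P i Φ → OnePoint (CapOut M P i Φ)) ''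
        (Subtype.val ⁻¹' (Φ '' (i '' (cfl '' V)))) := by
      ext z
      constructor
      · rintro ⟨x, hx, rfl⟩
        obtain ⟨h0, h1⟩ := hVn x hx
        obtain ⟨q, hq, hq'⟩ := hf x h0 h1
        refine ⟨q, ?_, hq.symm⟩
        rw [mem_preimage, hq']
        exact mem_image_of_mem _ (mem_image_of_mem _ (mem_image_of_mem _ hx))
      · rintro ⟨q, ⟨_, ⟨_, ⟨x, hx, rfl⟩, rfl⟩, hq⟩, rfl⟩
        obtain ⟨h0, h1⟩ := hVn x hx
        obtain ⟨r, hr, hr'⟩ := hf x h0 h1
        refine ⟨x, hx, ?_⟩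
        rw [hr]
        congr 1
        apply Subtype.val_injective
        rw [hr', hq]
    rw [himeq, OnePoint.isOpen_image_coe]
    exact ho2.preimage continuous_subtype_val
  have himg0 : ∀ V : Set E5, IsOpen V → V ⊆ ball (0 : E5) 1 → IsOpen (f '' V) := by
    intro V hV hVb
    by_cases h0 : (0 : E5) ∈ V
    · obtain ⟨ε0, hε0, hε0V⟩ := Metric.isOpen_iff.mp hV 0 h0
      obtain ⟨ε, hε, hε1, hεV⟩ : ∃ ε : ℝ, 0 < ε ∧ ε < 1 ∧ ball (0 : E5) ε ⊆ V := by
        refine ⟨min ε0 (1 / 2), lt_min hε0 (by norm_num), ?_, ?_⟩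
        · exact lt_of_le_of_lt (min_le_right _ _) (by norm_num)
        · exact (ball_subset_ball (min_le_left _ _)).trans hε0V
      have hc2 : IsCompact (i '' closedBall (0 : E5) (1 - ε)) := by
        apply (isCompact_closedBall _ _).image_of_continuousOn
        apply hi.continuousOn.mono
        intro y hy
        rw [mem_closedBall, dist_zero_right] at hy
        rw [mem_ball, dist_zero_right]
        linarith
      have hi0c : i 0 ∈ i '' closedBall (0 : E5) (1 - ε) :=
        mem_image_of_mem _ (by simp; linarith)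
      have ho3 : IsOpen (Φ '' (i '' closedBall (0 : E5) (1 - ε))ᶜ) := by
        apply (hΦ.mono _).isOpen_image hc2.isClosed.isOpen_compl
        intro m hm
        rw [mem_compl_singleton_iff]
        rintro rfl
        exact hm hi0c
      set Kc : Set P.X := (Φ '' (i '' closedBall (0 : E5) (1 - ε))ᶜ)ᶜ with hKc
      have hKcc : IsCompact Kc := ho3.isClosed_compl.isCompact
      have hKsub : Kc ⊆ range (Subtype.val : CapOut M P i Φ → P.X) := by
        intro p hp
        rw [Subtype.range_coe_subtype]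
        intro hp'
        apply hp
        obtain ⟨m, hm, rfl⟩ := hp'
        refine mem_image_of_mem _ ?_
        intro hm'
        apply hm
        obtain ⟨y, hy, rfl⟩ := hm'
        refine mem_image_of_mem _ ?_
        rw [mem_closedBall, dist_zero_right] at hy
        rw [mem_ball, dist_zero_right]
        linarith
      have hcv : IsCompact (Subtype.val ⁻¹' Kc : Set (CapOut M P i Φ)) :=
        (hv.isInducing.isCompact_preimage_iff hKsub).mpr hKcc
      have hOo : IsOpen (((↑) : CapOut M P i Φ → OnePoint (CapOut M P i Φ)) ''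
          (Subtype.val ⁻¹' Kc))ᶜ :=
        OnePoint.isOpen_compl_image_coe.mpr ⟨hKcc.isClosed.preimage continuous_subtype_val, hcv⟩
      have hOsub : (((↑) : CapOut M P i Φ → OnePoint (CapOut M P i Φ)) ''
          (Subtype.val ⁻¹' Kc))ᶜ ⊆ f '' V := by
        intro z hz
        rcases Classical.em (z = OnePoint.infty) with hzi | hzi
        · exact ⟨0, h0, by rw [hf0, hzi]⟩
        · obtain ⟨q, rfl⟩ := OnePoint.ne_infty_iff_exists.mp hzi
          have hq1 : q.1 ∉ Kc := fun h => hz (mem_image_of_mem _ h)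
          rw [hKc, mem_compl_iff, not_not] at hq1
          obtain ⟨m, hm, hmq⟩ := hq1
          have hm2 : m ∈ i '' ball (0 : E5) 1 := by
            by_contra hcon
            exact q.2 ⟨m, hcon, hmq⟩
          obtain ⟨y, hy, rfl⟩ := hm2
          have hy1 : ‖y‖ < 1 := by simpa using hy
          have hy2 : 1 - ε < ‖y‖ := by
            by_contra hcon
            apply hm
            refine mem_image_of_mem _ ?_
            rw [mem_closedBall, dist_zero_right]
            exact not_lt.mp hcon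
          have hy0 : 0 < ‖y‖ := by linarith
          have hmy := cfl_mem hy0 hy1
          obtain ⟨r, hr, hr'⟩ := hf (cfl y) hmy.1 hmy.2
          refine ⟨cfl y, hεV ?_, ?_⟩
          · rw [mem_ball, dist_zero_right, cfl_norm hy0 hy1]
            linarith
          · rw [hr]
            congr 1
            apply Subtype.val_injective
            rw [hr', cfl_cfl hy0 hy1, hmq]
      have hsplit : f '' V = (((↑) : CapOut M P i Φ → OnePoint (CapOut M P i Φ)) ''
          (Subtype.val ⁻¹' Kc))ᶜ ∪ f '' (V \ {0}) := by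
        apply Subset.antisymm
        · rintro _ ⟨x, hx, rfl⟩
          by_cases hx0 : x = 0
          · left
            rw [hx0, hf0]
            rintro ⟨q, _, hq⟩
            exact OnePoint.coe_ne_infty q hq
          · right
            exact mem_image_of_mem _ ⟨hx, hx0⟩
        · exact union_subset hOsub (image_mono sdiff_subset)
      rw [hsplit]
      apply hOo.union
      apply himg _ (hV.sdiff isClosed_singleton) (sdiff_subset.trans hVb)
      simp
    · exact himg V hV hVb h0
  -- the chart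
  have hopen : IsOpenMap ((ball (0 : E5) 1).domRestrict f) := by
    intro O hO
    obtain ⟨V, hV, rfl⟩ := isOpen_induced_iff.mp hO
    have : (ball (0 : E5) 1).domRestrict f '' (Subtype.val ⁻¹' V) = f '' (V ∩ ball (0 : E5) 1) := by
      ext z
      constructor
      · rintro ⟨x, hx, rfl⟩
        exact ⟨x.1, ⟨hx, x.2⟩, rfl⟩
      · rintro ⟨x, ⟨hx, hx'⟩, rfl⟩
        exact ⟨⟨x, hx'⟩, hx, rfl⟩
    rw [this]
    exact himg0 _ (hV.inter isOpen_ball) inter_subset_right
  let e0 : PartialEquiv E5 (OnePoint (CapOut M P i Φ)) := hinj.toPartialEquiv f (ball (0 : E5) 1)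
  let e : OpenPartialHomeomorph E5 (OnePoint (CapOut M P i Φ)) :=
    OpenPartialHomeomorph.ofContinuousOpenRestrict e0 hcont hopen isOpen_ball
  have he : ∀ x, e x = f x := fun x => rfl
  have hes : e.source = ball (0 : E5) 1 := rfl
  have het : e.target = f '' ball (0 : E5) 1 := rfl
  refine ⟨e.symm, rfl, ?_, ?_, ?_, ?_⟩
  · change OnePoint.infty ∈ e.target
    rw [het]
    exact ⟨0, by simp, hf0⟩
  · have h1 : (0 : E5) ∈ e.source := by rw [hes]; simp
    have h2 := e.left_inv h1
    rw [he, hf0] at h2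
    exact h2
  · intro q
    change (q : OnePoint (CapOut M P i Φ)) ∈ e.target ↔ _
    rw [het]
    constructor
    · rintro ⟨x, hx, hxq⟩
      have hx1 : ‖x‖ < 1 := by simpa using hx
      have hx0 : x ≠ 0 := by
        rintro rfl
        rw [hf0] at hxq
        exact OnePoint.coe_ne_infty q hxq.symm
      obtain ⟨r, hr, hr'⟩ := hf x (hpos x hx0) hx1
      rw [hr] at hxq
      have : r = q := OnePoint.coe_injective hxq
      rw [← this, hr']
      have hmx := cfl_mem (hpos x hx0) hx1
      refine mem_image_of_mem _ (mem_image_of_mem _ ⟨by simpa using hmx.2, ?_⟩)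
      rw [mem_singleton_iff, ← norm_eq_zero]
      exact hmx.1.ne'
    · rintro ⟨_, ⟨y, ⟨hy, hy0⟩, rfl⟩, hyq⟩
      have hy1 : ‖y‖ < 1 := by simpa using hy
      have hyp : 0 < ‖y‖ := hpos y hy0
      have hmy := cfl_mem hyp hy1
      obtain ⟨r, hr, hr'⟩ := hf (cfl y) hmy.1 hmy.2
      refine ⟨cfl y, by simpa using hmy.2, ?_⟩
      rw [hr]
      congr 1
      apply Subtype.val_injective
      rw [hr', cfl_cfl hyp hy1, hyq]
  · intro x h0 h1
    exact hf x h0 h1

end

end Wu
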