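import Pool.Agent.Lib.MP_60079e_gt.CapB

/-! Capping: if `M \ {pt}` embeds in the closed manifold `P`, then `P` is a connected sum
`M # N`. -/

open Set Metric Topology
open scoped ContDiff

namespace Wu

theorem CapC_chartP (M P : Mfd E5) (i : E5 → M.X) (Φ : M.X → P.X)
    (hcl : IsClosed (Φ '' (i '' ball (0 : E5) 1)ᶜ))
    (hne : (Φ '' (i '' ball (0 : E5) 1)ᶜ)ᶜ.Nonempty) :
    ∃ e : OpenPartialHomeomorph (OnePoint (CapOut M P i Φ)) P.X,
      (∀ y, y ∈ e.source ↔ y ≠ OnePoint.infty) ∧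
      ∀ q : CapOut M P i Φ, e (q : OnePoint (CapOut M P i Φ)) = (q : P.X) := by
  obtain ⟨p, hp⟩ := hne
  have : Nonempty (CapOut M P i Φ) := ⟨⟨p, hp⟩⟩
  have hv : IsOpenEmbedding (Subtype.val : CapOut M P i Φ → P.X) :=
    hcl.isOpen_compl.isOpenEmbedding_subtypeVal
  have hc : IsOpenEmbedding ((↑) : CapOut M P i Φ → OnePoint (CapOut M P i Φ)) :=
    OnePoint.isOpenEmbedding_coe
  refine ⟨(hc.toOpenPartialHomeomorph _).symm.trans (hv.toOpenPartialHomeomorph _), ?_, ?_⟩
  · intro y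
    rw [OpenPartialHomeomorph.trans_source]
    have h1 : (hc.toOpenPartialHomeomorph _).symm.source = range ((↑) : CapOut M P i Φ → _) := by
      rw [OpenPartialHomeomorph.symm_source, IsOpenEmbedding.toOpenPartialHomeomorph_target]
    rw [h1, IsOpenEmbedding.toOpenPartialHomeomorph_source, preimage_univ, inter_univ,
      ← OnePoint.compl_infty]
    rfl
  · intro q
    rw [OpenPartialHomeomorph.trans_apply]
    have h2 : (hc.toOpenPartialHomeomorph _).symm (q : OnePoint (CapOut M P i Φ)) = q :=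
      (hc.toOpenPartialHomeomorph _).left_inv (by simp)
    rw [h2]
    rfl

theorem CapC_norm (x : E5) (h0 : 0 < ‖x‖) (h1 : ‖x‖ < 1) :
    ‖((1 - ‖x‖) / ‖x‖) • x‖ = 1 - ‖x‖ := by
  rw [norm_smul, Real.norm_of_nonneg (div_nonneg (by linarith) h0.le), div_mul_cancel₀ _ h0.ne']

theorem CapC_id {M : Mfd E5} {Y : Type} [TopologicalSpace Y] (e : OpenPartialHomeomorph Y M.X)
    {y : Y} (hy : y ∈ e.source) : OPAt M M (fun x => e (e.symm x)) (e y) := by
  refine (opAt_id M (e y)).congr ?_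
  filter_upwards [e.open_target.mem_nhds (e.map_source hy)] with x hx
  exact (e.right_inv hx).symm

theorem exists_cap (M P : Mfd E5) (hM : M.Closed) (hP : P.Closed) (i : E5 → M.X)
    (Φ : M.X → P.X) (hi : OEmb (euc E5) M i (ball (0 : E5) 1)) (hΦ : OEmb M P Φ {i 0}ᶜ) :
    ∃ N : Mfd E5, N.Closed ∧ ∃ j Ψ, ConnSumData M N P i j Φ Ψ := by
  obtain ⟨hT2, hcomp, hconn⟩ := cap_space M P hM hP i Φ hi hΦ
  obtain ⟨ec, het, hinf, hinf0, hsrc, hsymm⟩ := exists_capChart M P hM hP i Φ hi hΦ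
  obtain ⟨eP, hePs, hePv⟩ := CapC_chartP M P i Φ
    (isClosed_capSet M P hM hP i Φ hi hΦ 1 one_pos le_rfl) (capOut_nonempty M P hM hP i Φ hi hΦ)
  have hec0 : ec.symm 0 = OnePoint.infty := (congrArg ec.symm hinf0.symm).trans (ec.left_inv hinf)
  -- the transition
  have hflip : ∀ x : E5, 0 < ‖x‖ → ‖x‖ < 1 →
      OPAt (euc E5) P (fun x : E5 => Φ (i (-(((1 - ‖x‖) / ‖x‖) • x)))) x := by
    intro x h0 h1
    have hn : ‖-(((1 - ‖x‖) / ‖x‖) • x)‖ = 1 - ‖x‖ := by rw [norm_neg, CapC_norm x h0 h1]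
    have hb : -(((1 - ‖x‖) / ‖x‖) • x) ∈ ball (0 : E5) 1 := by
      rw [mem_ball_zero_iff, hn]; linarith
    have hne : i (-(((1 - ‖x‖) / ‖x‖) • x)) ≠ i 0 := by
      intro h
      have h3 := hi.2 hb (mem_ball_self one_pos) h
      rw [h3, norm_zero] at hn
      linarith
    exact (hΦ.1 _ hne).comp ((hi.1 _ hb).comp (opAt_flip x h0 h1))
  have heval : ∀ x : E5, 0 < ‖x‖ → ‖x‖ < 1 →
      eP (ec.symm x) = Φ (i (-(((1 - ‖x‖) / ‖x‖) • x))) := by
    intro x h0 h1
    obtain ⟨q, hq1, hq2⟩ := hsymm x h0 h1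
    rw [hq1, hePv, hq2]
  have hpos : ∀ y, y ∈ ec.source → y ∈ eP.source → 0 < ‖ec y‖ ∧ ‖ec y‖ < 1 := by
    intro y hy hy'
    have h1 := ec.map_source hy
    rw [het, mem_ball_zero_iff] at h1
    refine ⟨norm_pos_iff.2 fun h => ?_, h1⟩
    have h2 := ec.left_inv hy
    rw [h, hec0] at h2
    exact (hePs y).1 hy' h2.symm
  have hopen : IsOpen {x : E5 | 0 < ‖x‖ ∧ ‖x‖ < 1} :=
    (isOpen_lt continuous_const continuous_norm).inter (isOpen_lt continuous_norm continuous_const)
  have hEP : ∀ y, y ∈ ec.source → y ∈ eP.source →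
      OPAt (euc E5) P (fun x => eP (ec.symm x)) (ec y) := by
    intro y hy hy'
    obtain ⟨h0, h1⟩ := hpos y hy hy'
    refine (hflip (ec y) h0 h1).congr ?_
    filter_upwards [hopen.mem_nhds ⟨h0, h1⟩] with x hx
    exact (heval x hx.1 hx.2).symm
  have hPE : ∀ y, y ∈ eP.source → y ∈ ec.source →
      OPAt P (euc E5) (fun x => ec (eP.symm x)) (eP y) := by
    intro y hy hy'
    have h1 : OPAt (euc E5) P (fun x => eP (ec.symm x)) (ec (eP.symm (eP y))) := by
      rw [eP.left_inv hy]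
      exact hEP y hy' hy
    have hc : ContinuousAt (fun x => ec (eP.symm x)) (eP y) := by
      refine ContinuousAt.comp (g := ec) (f := eP.symm) ?_
        (eP.continuousAt_symm (eP.map_source hy))
      rw [eP.left_inv hy]
      exact ec.continuousAt hy'
    refine OPAt.lift (q := fun x => eP (ec.symm x)) h1 hc ?_
    refine (opAt_id P (eP y)).congr ?_
    have hn1 : ∀ᶠ x in 𝓝 (eP y), eP.symm x ∈ ec.source := by
      have := (eP.continuousAt_symm (eP.map_source hy)).preimage_mem_nhds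
        (t := ec.source) (by rw [eP.left_inv hy]; exact ec.open_source.mem_nhds hy')
      exact this
    filter_upwards [hn1, eP.open_target.mem_nhds (eP.map_source hy)] with x hx1 hx2
    rw [ec.left_inv hx1, eP.right_inv hx2]
  let M' : Bool → Mfd E5 := fun b => match b with
    | true => P
    | false => euc E5
  let e : (b : Bool) → OpenPartialHomeomorph (OnePoint (CapOut M P i Φ)) (M' b).X :=
    fun b => match b with
    | true => eP
    | false => ec
  have hc : ∀ y, ∃ b, y ∈ (e b).source := by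
    intro y
    by_cases h : y = OnePoint.infty
    · exact ⟨false, by rw [h]; exact hinf⟩
    · exact ⟨true, (hePs y).2 h⟩
  have ht : ∀ b b' y, y ∈ (e b).source → y ∈ (e b').source →
      OPAt (M' b) (M' b') (fun x => e b' ((e b).symm x)) (e b y) := by
    intro b b' y hy hy'
    cases b with
    | true =>
      cases b' with
      | true => exact CapC_id (M := P) eP hy
      | false => exact hPE y hy hy'
    | false =>
      cases b' with
      | true => exact hEP y hy hy'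
      | false => exact CapC_id (M := euc E5) ec hy
  refine ⟨glue (OnePoint (CapOut M P i Φ)) M' e hc ht, ⟨hcomp, hconn⟩,
    fun x => ec.symm (-x), eP, ?_⟩
  have hj0 : ec.symm (-(0 : E5)) = OnePoint.infty := by rw [neg_zero, hec0]
  refine ⟨hi, ⟨?_, ?_⟩, hΦ, ⟨?_, ?_⟩, ?_, ?_, ?_⟩
  · intro x hx
    simp only [neg_neg]
    exact opAt_glue_symm M' e hc ht false (by change x ∈ ec.target; rw [het]; exact hx)
  · intro x hx x' hx' h
    simp only [neg_neg] at h
    exact ec.symm.injOn (by rw [OpenPartialHomeomorph.symm_source, het]; exact hx)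
      (by rw [OpenPartialHomeomorph.symm_source, het]; exact hx') h
  · intro y hy
    have hy' : y ∈ eP.source := (hePs y).2 fun h => hy (by rw [h]; exact hj0.symm)
    exact opAt_glue M' e hc ht true hy'
  · intro y hy y' hy' h
    have h1 : y ∈ eP.source := (hePs y).2 fun h => hy (by rw [h]; exact hj0.symm)
    have h2 : y' ∈ eP.source := (hePs y').2 fun h => hy' (by rw [h]; exact hj0.symm)
    exact eP.injOn h1 h2 h
  · intro x h0 h1
    change Φ (i x) = eP (ec.symm (-(((1 - ‖x‖) / ‖x‖) • x)))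
    have hn := CapC_norm x h0 h1
    rw [heval _ (by rw [norm_neg, hn]; linarith) (by rw [norm_neg, hn]; linarith)]
    congr 2
    rw [norm_neg, hn, smul_neg, neg_neg, smul_smul]
    have h3 : (1 - (1 - ‖x‖)) / (1 - ‖x‖) * ((1 - ‖x‖) / ‖x‖) = 1 := by
      have h4 : (1 - ‖x‖) ≠ 0 := by linarith
      field_simp
      ring
    rw [h3, one_smul]
  · intro p
    by_cases hp : p ∈ Φ '' (i '' ball (0 : E5) 1)ᶜ
    · obtain ⟨a, ha, rfl⟩ := hp
      exact Or.inl ⟨a, fun h => ha ⟨0, mem_ball_self one_pos, h.symm⟩, rfl⟩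
    · refine Or.inr ⟨((⟨p, hp⟩ : CapOut M P i Φ) : OnePoint (CapOut M P i Φ)), ?_, hePv _⟩
      intro h
      exact OnePoint.coe_ne_infty _ (h.trans hj0)
  · intro a b ha hb hab
    have hb' : b ≠ OnePoint.infty := fun h => hb (by rw [h]; exact hj0.symm)
    obtain ⟨q, rfl⟩ := OnePoint.ne_infty_iff_exists.1 hb'
    rw [hePv] at hab
    have h1 : a ∈ i '' ball (0 : E5) 1 := by
      by_contra h
      exact q.2 ⟨a, h, hab⟩
    obtain ⟨x, hx, rfl⟩ := h1
    exact ⟨x, norm_pos_iff.2 fun h => ha (by rw [h]), mem_ball_zero_iff.1 hx, rfl⟩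

end Wu
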