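import Pool.Agent.Lib.MP_60079e_gt.OPa

/-! Orientation preserving local diffeomorphisms: local inverses, lifting, open embeddings. -/

open Set Metric Topology
open scoped ContDiff

namespace Wu

variable {E : Type} [NormedAddCommGroup E] [NormedSpace ℝ E] [FiniteDimensional ℝ E]

theorem opb_local_inv {F : E → E} {a : E} (h : OPaP F a) :
    ∃ Φ : OpenPartialHomeomorph E E, a ∈ Φ.source ∧ (∀ y, Φ y = F y) ∧ OPaP Φ.symm (F a) := by
  have : CompleteSpace E := FiniteDimensional.complete ℝ E
  obtain ⟨h1, h2⟩ := h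
  have h3 : HasFDerivAt F (((fderiv ℝ F a).toContinuousLinearEquivOfDetNeZero h2.ne' :
      E ≃L[ℝ] E) : E →L[ℝ] E) a := by
    rw [ContinuousLinearMap.coe_toContinuousLinearEquivOfDetNeZero]
    exact (h1.differentiableAt (by simp)).hasFDerivAt
  have hn : (∞ : WithTop ℕ∞) ≠ 0 := by simp
  refine ⟨h1.toOpenPartialHomeomorph F h3 hn, h1.mem_toOpenPartialHomeomorph_source h3 hn,
    fun y => by rw [h1.toOpenPartialHomeomorph_coe h3 hn], ?_⟩
  have h4 : ContDiffAt ℝ ∞ (h1.toOpenPartialHomeomorph F h3 hn).symm (F a) :=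
    h1.to_localInverse h3 hn
  refine ⟨h4, ?_⟩
  have h5 : ((h1.toOpenPartialHomeomorph F h3 hn).symm ∘ F) =ᶠ[𝓝 a] id := by
    filter_upwards [(h1.toOpenPartialHomeomorph F h3 hn).open_source.mem_nhds
      (h1.mem_toOpenPartialHomeomorph_source h3 hn)] with y hy
    have := (h1.toOpenPartialHomeomorph F h3 hn).left_inv hy
    rw [h1.toOpenPartialHomeomorph_coe h3 hn] at this
    exact this
  have h6 := h5.fderiv_eq (𝕜 := ℝ)
  rw [fderiv_comp a (h4.differentiableAt (by simp)) (h1.differentiableAt (by simp)),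
    show fderiv ℝ (id : E → E) a = ContinuousLinearMap.id ℝ E from fderiv_id] at h6
  have h7 : (fderiv ℝ (h1.toOpenPartialHomeomorph F h3 hn).symm (F a)).det
      * (fderiv ℝ F a).det = 1 := by
    have h8 : ((fderiv ℝ (h1.toOpenPartialHomeomorph F h3 hn).symm (F a)).comp
        (fderiv ℝ F a)).det = 1 := by
      rw [h6]
      show LinearMap.det (LinearMap.id : E →ₗ[ℝ] E) = 1
      exact LinearMap.det_id
    have h9 : ((fderiv ℝ (h1.toOpenPartialHomeomorph F h3 hn).symm (F a)).comp
        (fderiv ℝ F a)).det = (fderiv ℝ (h1.toOpenPartialHomeomorph F h3 hn).symm (F a)).det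
        * (fderiv ℝ F a).det := by
      unfold ContinuousLinearMap.det
      rw [← LinearMap.det_comp]
      rfl
    rw [← h9, h8]
  by_contra hcon
  push Not at hcon
  have := mul_nonpos_of_nonpos_of_nonneg hcon h2.le
  linarith

/-- Inverse function theorem. -/
theorem OPAt.exists_local {M N : Mfd E} {f : M.X → N.X} {x : M.X} (h : OPAt M N f x) :
    ∃ e : OpenPartialHomeomorph M.X N.X, x ∈ e.source ∧ (∀ y ∈ e.source, e y = f y) ∧
      OPAt N M e.symm (f x) := by
  obtain ⟨hfc, c, hc, d, hd, hx, hfx, h0⟩ := h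
  obtain ⟨Φ, hΦ1, hΦ2, hΦ3⟩ := opb_local_inv (show OPaP (d ∘ f ∘ c.symm) (c x) from h0)
  have h1 : ∀ᶠ y in 𝓝 x, f y ∈ d.source := hfc.eventually (d.open_source.mem_nhds hfx)
  obtain ⟨U, hU1, hU2, hU3⟩ := mem_nhds_iff.1 h1
  have h2 : (d ∘ f ∘ c.symm) (c x) = d (f x) := by simp [c.left_inv hx]
  rw [h2] at hΦ3
  have h5 : x ∈ ((c.trans (Φ.trans d.symm)).restrOpen U hU2).source := by
    rw [OpenPartialHomeomorph.restrOpen_source]
    refine ⟨?_, hU3⟩
    rw [OpenPartialHomeomorph.trans_source, OpenPartialHomeomorph.trans_source]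
    refine ⟨hx, hΦ1, ?_⟩
    show Φ (c x) ∈ d.symm.source
    rw [hΦ2, h2]
    exact d.map_source hfx
  refine ⟨(c.trans (Φ.trans d.symm)).restrOpen U hU2, h5, ?_, ?_⟩
  · intro y hy
    rw [OpenPartialHomeomorph.restrOpen_source, OpenPartialHomeomorph.trans_source,
      OpenPartialHomeomorph.trans_source] at hy
    have hy1 : y ∈ c.source := hy.1.1
    have hy2 : f y ∈ d.source := hU1 hy.2
    show d.symm (Φ (c y)) = f y
    rw [hΦ2]
    simp only [Function.comp_apply]
    rw [c.left_inv hy1, d.left_inv hy2]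
  · have h6 : Φ.symm (d (f x)) = c x := by
      have := Φ.left_inv hΦ1
      rw [hΦ2, h2] at this
      exact this
    have h7 : OPAt N (euc E) d (f x) := opAt_chart N hd hfx
    have h8 : OPAt (euc E) (euc E) Φ.symm (d (f x)) := opAt_euc hΦ3.1 hΦ3.2
    have h9 : OPAt (euc E) M c.symm (Φ.symm (d (f x))) := by
      rw [h6]
      exact opAt_chart_symm M hc (c.map_source hx)
    have h10 : OPAt N (euc E) (fun y => Φ.symm (d y)) (f x) :=
      OPAt.comp (M := N) (N := euc E) (K := euc E) (g := Φ.symm) (f := d) h8 h7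
    have h11 : OPAt N M (fun y => c.symm (Φ.symm (d y))) (f x) :=
      OPAt.comp (M := N) (N := euc E) (K := M) (g := c.symm) (f := fun y => Φ.symm (d y)) h9 h10
    exact h11

/-- A continuous lift through a local diffeomorphism of a local diffeomorphism is a local
diffeomorphism. -/
theorem OPAt.lift {M N K : Mfd E} {q : N.X → K.X} {g : M.X → N.X} {x : M.X}
    (hq : OPAt N K q (g x)) (hg : ContinuousAt g x) (hqg : OPAt M K (fun y => q (g y)) x) :
    OPAt M N g x := by
  obtain ⟨e, he1, he2, he3⟩ := hq.exists_local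
  have h1 : OPAt M N (fun y => e.symm (q (g y))) x := OPAt.comp he3 hqg
  apply h1.congr
  filter_upwards [hg.eventually (e.open_source.mem_nhds he1)] with y hy
  rw [← he2 _ hy, e.left_inv hy]

theorem isOpen_image_of_opAt {M N : Mfd E} {f : M.X → N.X} {U : Set M.X} (hU : IsOpen U)
    (hf : ∀ x ∈ U, OPAt M N f x) : IsOpen (f '' U) := by
  rw [isOpen_iff_mem_nhds]
  rintro _ ⟨x, hx, rfl⟩
  obtain ⟨e, he1, he2, he3⟩ := (hf x hx).exists_local
  have h1 : IsOpen (e '' (e.source ∩ U)) := e.isOpen_image_source_inter hU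
  refine Filter.mem_of_superset (h1.mem_nhds ⟨x, ⟨he1, hx⟩, he2 x he1⟩) ?_
  rintro _ ⟨y, ⟨hy1, hy2⟩, rfl⟩
  exact ⟨y, hy2, (he2 y hy1).symm⟩

theorem OEmb.isOpen_image {M N : Mfd E} {f : M.X → N.X} {U : Set M.X} (hf : OEmb M N f U)
    (hU : IsOpen U) : IsOpen (f '' U) := by
  exact isOpen_image_of_opAt hU hf.1

theorem OEmb.mono {M N : Mfd E} {f : M.X → N.X} {U V : Set M.X} (hf : OEmb M N f U)
    (hV : V ⊆ U) : OEmb M N f V := by
  exact ⟨fun x hx => hf.1 x (hV hx), hf.2.mono hV⟩

theorem OEmb.continuousOn {M N : Mfd E} {f : M.X → N.X} {U : Set M.X} (hf : OEmb M N f U) :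
    ContinuousOn f U := by
  exact fun x hx => (hf.1 x hx).1.continuousWithinAt

theorem OEmb.comp {M N K : Mfd E} {f : M.X → N.X} {g : N.X → K.X} {U : Set M.X} {V : Set N.X}
    (hg : OEmb N K g V) (hf : OEmb M N f U) (h : MapsTo f U V) :
    OEmb M K (fun x => g (f x)) U := by
  exact ⟨fun x hx => (hg.1 _ (h hx)).comp (hf.1 x hx), hg.2.comp hf.2 h⟩

/-- The inverse of an open embedding. -/
theorem OEmb.inv {M N : Mfd E} {f : M.X → N.X} {U : Set M.X} (hf : OEmb M N f U)
    (hU : IsOpen U) {g : N.X → M.X} (hg : ∀ x ∈ U, g (f x) = x) :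
    ∀ x ∈ U, OPAt N M g (f x) := by
  intro x hx
  obtain ⟨e, he1, he2, he3⟩ := (hf.1 x hx).exists_local
  apply he3.congr
  have h1 : f x ∈ e.target := by
    rw [← he2 x he1]
    exact e.map_source he1
  have h2 : e.symm (f x) = x := by
    rw [← he2 x he1]
    exact e.left_inv he1
  have h3 : ContinuousAt e.symm (f x) := e.continuousAt_symm h1
  have h4 : ∀ᶠ z in 𝓝 (f x), e.symm z ∈ U := by
    apply h3.eventually
    rw [h2]
    exact hU.mem_nhds hx
  filter_upwards [h4, e.open_target.mem_nhds h1] with z hz1 hz2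
  have h5 := hg _ hz1
  rw [← he2 _ (e.map_target hz2), e.right_inv hz2] at h5
  exact h5.symm

/-- An open embedding is an open partial homeomorphism. -/
theorem OEmb.exists_oph {M N : Mfd E} {f : M.X → N.X} {U : Set M.X} (hf : OEmb M N f U)
    (hU : IsOpen U) (hne : U.Nonempty) : ∃ e : OpenPartialHomeomorph M.X N.X, e.source = U ∧
      e.target = f '' U ∧ (∀ y ∈ U, e y = f y) ∧ ∀ z ∈ e.target, OPAt N M e.symm z := by
  have : Nonempty M.X := ⟨hne.some⟩
  have h1 : ∀ x ∈ U, Function.invFunOn f U (f x) = x := fun x hx => hf.2.leftInvOn_invFunOn hx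
  have h2 := hf.inv hU h1
  refine ⟨{ toFun := f
            invFun := Function.invFunOn f U
            source := U
            target := f '' U
            map_source' := fun x hx => ⟨x, hx, rfl⟩
            map_target' := by
              rintro _ ⟨x, hx, rfl⟩
              rw [h1 x hx]
              exact hx
            left_inv' := fun x hx => h1 x hx
            right_inv' := by
              rintro _ ⟨x, hx, rfl⟩
              rw [h1 x hx]
            open_source := hU
            open_target := hf.isOpen_image hU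
            continuousOn_toFun := hf.continuousOn
            continuousOn_invFun := by
              rintro _ ⟨x, hx, rfl⟩
              exact (h2 x hx).1.continuousWithinAt }, rfl, rfl, fun y hy => rfl, ?_⟩
  rintro _ ⟨x, hx, rfl⟩
  exact h2 x hx

end Wu
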