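import Pool.Agent.Lib.MP_60079e_gt.CatDefs
import Pool.Agent.Lib.MP_60079e_gt.OPb

/-! From smooth manifolds (`Wu.Mfd`) to the two categories. -/

open Set Metric Topology
open scoped ContDiff

namespace Wu

open WuCat (Cat Germ LocIso LocParam)

/-- A smooth local diffeomorphism with positive determinant is a germ of both categories. -/
theorem germ_of_smooth (C : Cat) (g : E5 → E5) (x : E5)
    (h : ContDiffAt ℝ ∞ g x ∧ 0 < (fderiv ℝ g x).det) : Germ C g x := by
  cases C with
  | Diff => exact h
  | Top =>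
    obtain ⟨h1, h2⟩ := h
    have hu : IsUnit (fderiv ℝ g x : E5 →ₗ[ℝ] E5).det := isUnit_iff_ne_zero.2 h2.ne'
    set L' : E5 ≃L[ℝ] E5 :=
      ((fderiv ℝ g x : E5 →ₗ[ℝ] E5).equivOfIsUnitDet (by exact hu)).toContinuousLinearEquiv
      with hL'
    have hLe : ∀ u, L' u = fderiv ℝ g x u := fun u => by
      rw [hL', LinearEquiv.coe_toContinuousLinearEquiv']
      simp
    have hLe' : (L' : E5 →L[ℝ] E5) = fderiv ℝ g x := by
      ext1 u
      exact hLe u
    have hstrict : HasStrictFDerivAt g (L' : E5 →L[ℝ] E5) x := by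
      rw [hLe']
      exact h1.hasStrictFDerivAt (by simp)
    set e := hstrict.toOpenPartialHomeomorph g with he
    have hcoe : ∀ y, e y = g y := fun y => by
      rw [he, HasStrictFDerivAt.toOpenPartialHomeomorph_coe]
    have hxs : x ∈ e.source := hstrict.mem_toOpenPartialHomeomorph_source
    obtain ⟨ε₁, hε₁, hball⟩ := Metric.isOpen_iff.1 e.open_source x hxs
    -- lower bound for the derivative
    set b : ℝ := ‖(L'.symm : E5 →L[ℝ] E5)‖ + 1 with hb
    have hb0 : 0 < b := by positivity
    have hlow : ∀ u : E5, ‖u‖ ≤ b * ‖fderiv ℝ g x u‖ := by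
      intro u
      have h3 : L'.symm (fderiv ℝ g x u) = u := by rw [← hLe, L'.symm_apply_apply]
      calc ‖u‖ = ‖(L'.symm : E5 →L[ℝ] E5) (fderiv ℝ g x u)‖ := by
            rw [ContinuousLinearEquiv.coe_coe, h3]
        _ ≤ ‖(L'.symm : E5 →L[ℝ] E5)‖ * ‖fderiv ℝ g x u‖ := ContinuousLinearMap.le_opNorm _ _
        _ ≤ b * ‖fderiv ℝ g x u‖ := by
            refine mul_le_mul_of_nonneg_right ?_ (norm_nonneg _)
            rw [hb]
            linarith
    have hd : HasFDerivAt g (fderiv ℝ g x) x := (h1.differentiableAt (by simp)).hasFDerivAt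
    have hlit := (hasFDerivAt_iff_isLittleO_nhds_zero.1 hd).def (show 0 < 1 / (2 * b) by positivity)
    obtain ⟨δ, hδ, hδ2⟩ := Metric.eventually_nhds_iff_ball.1 hlit
    set ε : ℝ := min (ε₁ / 2) (δ / 2) with hε
    have hε0 : 0 < ε := lt_min (by linarith) (by linarith)
    have hεδ : ε < δ := (min_le_right _ _).trans_lt (by linarith)
    have hε1 : ε < ε₁ := (min_le_left _ _).trans_lt (by linarith)
    have hcb : closedBall x ε ⊆ e.source := (closedBall_subset_ball hε1).trans hball
    have hest : ∀ u ∈ sphere (0 : E5) 1,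
        ‖g (x + ε • u) - g x - fderiv ℝ g x (ε • u)‖ ≤ 1 / (2 * b) * ε := by
      intro u hu
      rw [mem_sphere_zero_iff_norm] at hu
      have h3 : ‖ε • u‖ = ε := by rw [norm_smul, hu, mul_one, Real.norm_of_nonneg hε0.le]
      have h4 := hδ2 (ε • u) (by rw [mem_ball_zero_iff, h3]; exact hεδ)
      rwa [h3] at h4
    refine ⟨e, hxs, fun y _ => hcoe y, ε, hε0, hcb, ε • fderiv ℝ g x,
      fun t u => (1 - t) • ((ε • fderiv ℝ g x) u) + t • (g (x + ε • u) - g x), ?_, ?_, ?_, ?_⟩
    · have h3 : (ε • fderiv ℝ g x).det = ε ^ (Module.finrank ℝ E5) * (fderiv ℝ g x).det := by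
        unfold ContinuousLinearMap.det
        rw [ContinuousLinearMap.toLinearMap_smul, LinearMap.det_smul]
      rw [h3]
      positivity
    · have hg : ContinuousOn g (closedBall x ε) :=
        (e.continuousOn.mono hcb).congr fun y _ => (hcoe y).symm
      have hg2 : ContinuousOn (fun p : ℝ × E5 => g (x + ε • p.2)) (Icc 0 1 ×ˢ sphere 0 1) := by
        refine hg.comp (by fun_prop) ?_
        intro p hp
        have h3 := mem_sphere_zero_iff_norm.1 hp.2
        rw [mem_closedBall, dist_eq_norm, add_sub_cancel_left, norm_smul, h3, mul_one,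
          Real.norm_of_nonneg hε0.le]
      have hA : Continuous fun p : ℝ × E5 => (1 - p.1) • ((ε • fderiv ℝ g x) p.2) := by
        fun_prop
      exact hA.continuousOn.add (continuousOn_fst.smul (hg2.sub continuousOn_const))
    · intro t ht u hu h0
      have h3 := hest u hu
      rw [mem_sphere_zero_iff_norm] at hu
      have h4 := hlow (ε • u)
      rw [norm_smul, hu, mul_one, Real.norm_of_nonneg hε0.le] at h4
      have h5 : fderiv ℝ g x (ε • u) = -(t • (g (x + ε • u) - g x - fderiv ℝ g x (ε • u))) := by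
        have h6 : (1 - t) • fderiv ℝ g x (ε • u) + t • (g (x + ε • u) - g x) = 0 := by
          rw [← h0]
          congr 2
          rw [map_smul]
          rfl
        rw [eq_neg_iff_add_eq_zero, ← h6]
        module
      have h6 : ‖fderiv ℝ g x (ε • u)‖ ≤ 1 / (2 * b) * ε := by
        rw [h5, norm_neg, norm_smul, Real.norm_of_nonneg ht.1]
        calc t * ‖g (x + ε • u) - g x - fderiv ℝ g x (ε • u)‖
            ≤ 1 * ‖g (x + ε • u) - g x - fderiv ℝ g x (ε • u)‖ :=
              mul_le_mul_of_nonneg_right ht.2 (norm_nonneg _)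
          _ ≤ _ := by rw [one_mul]; exact h3
      have h7 : b * ‖fderiv ℝ g x (ε • u)‖ ≤ ε / 2 := by
        calc b * ‖fderiv ℝ g x (ε • u)‖ ≤ b * (1 / (2 * b) * ε) :=
              mul_le_mul_of_nonneg_left h6 hb0.le
          _ = ε / 2 := by
              field_simp
      linarith
    · intro u _
      constructor
      · simp
      · simp

/-- The manifold in the category `C` underlying an oriented smooth manifold. -/
@[reducible] def toC (C : Cat) (M : Mfd E5) : WuCat.Mfd C where
  X := M.X
  atlas := M.atlas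
  cover := M.cover
  compat := fun c hc d hd x h1 h2 => germ_of_smooth C _ _ (M.compat c hc d hd x h1 h2)

theorem locIso_of_opAt (C : Cat) {M N : Mfd E5} {f : M.X → N.X} {x : M.X}
    (h : OPAt M N f x) : LocIso (toC C M) (toC C N) f x := by
  obtain ⟨h1, c, hc, d, hd, h2, h3, h4⟩ := h
  exact ⟨h1, c, hc, d, hd, h2, h3, germ_of_smooth C _ _ h4⟩

theorem locParam_of_opAt (C : Cat) {M : Mfd E5} {f : E5 → M.X} {x : E5}
    (h : OPAt (euc E5) M f x) : LocParam (toC C M) f x := by
  obtain ⟨h1, c, hc, d, hd, h2, h3, h4⟩ := h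
  have hc' : c = OpenPartialHomeomorph.refl E5 := hc
  subst hc'
  exact ⟨h1, d, hd, h3, germ_of_smooth C _ _ h4⟩

end Wu
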