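import Pool.Agent.Lib.MP_60079e_gt.Defs

/-! Determinants of block triangular maps of `E × ℝ`; determinant of `1 + small`. -/

open Set Metric Topology
open scoped ContDiff

namespace Wu

section
variable {E : Type} [NormedAddCommGroup E] [NormedSpace ℝ E] [FiniteDimensional ℝ E]

omit [FiniteDimensional ℝ E] in
theorem detB_inl {ι : Type} (b : Module.Basis ι ℝ E) (c : Module.Basis Unit ℝ ℝ) (j : ι) :
    b.prod c (Sum.inl j) = (b j, 0) :=
  Prod.ext (Module.Basis.prod_apply_inl_fst b c j) (Module.Basis.prod_apply_inl_snd b c j)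

omit [FiniteDimensional ℝ E] in
theorem detB_inr {ι : Type} (b : Module.Basis ι ℝ E) (j : Unit) :
    b.prod (Module.Basis.singleton Unit ℝ) (Sum.inr j) = ((0 : E), (1 : ℝ)) :=
  Prod.ext (Module.Basis.prod_apply_inr_fst b _ j)
    ((Module.Basis.prod_apply_inr_snd b _ j).trans (Module.Basis.singleton_apply Unit ℝ j))

/-- `(y, t) ↦ (A y + t b, t)` has determinant `det A`. -/
theorem det_block_snd (L : (E × ℝ) →L[ℝ] (E × ℝ)) (hL : ∀ p, (L p).2 = p.2) :
    L.det = (((ContinuousLinearMap.fst ℝ E ℝ).comp L).comp (ContinuousLinearMap.inl ℝ E ℝ)).det := by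
  classical
  set b := Module.finBasis ℝ E with hb
  set c : Module.Basis Unit ℝ ℝ := Module.Basis.singleton Unit ℝ with hc
  set A : E →L[ℝ] E := ((ContinuousLinearMap.fst ℝ E ℝ).comp L).comp (ContinuousLinearMap.inl ℝ E ℝ) with hA
  show LinearMap.det (L : (E × ℝ) →ₗ[ℝ] (E × ℝ)) = LinearMap.det (A : E →ₗ[ℝ] E)
  rw [← LinearMap.det_toMatrix (b.prod c) (L : (E × ℝ) →ₗ[ℝ] (E × ℝ)), ← LinearMap.det_toMatrix b (A : E →ₗ[ℝ] E)]
  have h : LinearMap.toMatrix (b.prod c) (b.prod c) (L : (E × ℝ) →ₗ[ℝ] (E × ℝ)) =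
      Matrix.fromBlocks (LinearMap.toMatrix b b (A : E →ₗ[ℝ] E))
        (fun i _ => b.repr (L (0, 1)).1 i) 0 1 := by
    ext i j
    rcases i with i | i <;> rcases j with j | j
    · rw [LinearMap.toMatrix_apply, Matrix.fromBlocks_apply₁₁, LinearMap.toMatrix_apply,
        Module.Basis.prod_repr_inl, detB_inl]
      rfl
    · rw [LinearMap.toMatrix_apply, Matrix.fromBlocks_apply₁₂, Module.Basis.prod_repr_inl, detB_inr]
      rfl
    · rw [LinearMap.toMatrix_apply, Matrix.fromBlocks_apply₂₁, Module.Basis.prod_repr_inr, detB_inl]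
      show c.repr (L (b j, 0)).2 i = 0
      rw [hL]
      exact DFunLike.congr_fun (map_zero c.repr) i
    · rw [LinearMap.toMatrix_apply, Matrix.fromBlocks_apply₂₂, Module.Basis.prod_repr_inr, detB_inr]
      show c.repr (L (0, 1)).2 i = (1 : Matrix Unit Unit ℝ) i j
      rw [hL, hc, Module.Basis.singleton_repr]
      cases i
      cases j
      rw [Matrix.one_apply_eq]
  rw [h, Matrix.det_fromBlocks_zero₂₁, Matrix.det_one, mul_one]

/-- `(y, t) ↦ (A y, L₁ y + l t)` has determinant `l * det A`. -/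
theorem det_block_fst (L : (E × ℝ) →L[ℝ] (E × ℝ)) (A : E →L[ℝ] E) (hA : ∀ p, (L p).1 = A p.1) :
    L.det = (L (0, 1)).2 * A.det := by
  classical
  set b := Module.finBasis ℝ E with hb
  set c : Module.Basis Unit ℝ ℝ := Module.Basis.singleton Unit ℝ with hc
  show LinearMap.det (L : (E × ℝ) →ₗ[ℝ] (E × ℝ)) = (L (0, 1)).2 * LinearMap.det (A : E →ₗ[ℝ] E)
  rw [← LinearMap.det_toMatrix (b.prod c) (L : (E × ℝ) →ₗ[ℝ] (E × ℝ)), ← LinearMap.det_toMatrix b (A : E →ₗ[ℝ] E)]
  have h : LinearMap.toMatrix (b.prod c) (b.prod c) (L : (E × ℝ) →ₗ[ℝ] (E × ℝ)) =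
      Matrix.fromBlocks (LinearMap.toMatrix b b (A : E →ₗ[ℝ] E)) 0
        (fun _ j => (L (b j, 0)).2) (fun _ _ => (L (0, 1)).2) := by
    ext i j
    rcases i with i | i <;> rcases j with j | j
    · rw [LinearMap.toMatrix_apply, Matrix.fromBlocks_apply₁₁, LinearMap.toMatrix_apply,
        Module.Basis.prod_repr_inl, detB_inl]
      show b.repr (L (b j, 0)).1 i = b.repr (A (b j)) i
      rw [hA]
    · rw [LinearMap.toMatrix_apply, Matrix.fromBlocks_apply₁₂, Module.Basis.prod_repr_inl, detB_inr]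
      show b.repr (L (0, 1)).1 i = 0
      rw [hA]
      show b.repr (A 0) i = 0
      rw [map_zero, map_zero]
      rfl
    · rw [LinearMap.toMatrix_apply, Matrix.fromBlocks_apply₂₁, Module.Basis.prod_repr_inr, detB_inl]
      show c.repr (L (b j, 0)).2 i = (L (b j, 0)).2
      rw [hc, Module.Basis.singleton_repr]
    · rw [LinearMap.toMatrix_apply, Matrix.fromBlocks_apply₂₂, Module.Basis.prod_repr_inr, detB_inr]
      show c.repr (L (0, 1)).2 i = (L (0, 1)).2
      rw [hc, Module.Basis.singleton_repr]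
  rw [h, Matrix.det_fromBlocks_zero₁₂, mul_comm, Matrix.det_unique]

/-- `det (1 + T) > 0` if `T` is strictly contracting for a homogeneous function `N`. -/
theorem det_one_add_pos (T : E →L[ℝ] E) (N : E → ℝ) (hN0 : ∀ x, 0 ≤ N x)
    (hN : ∀ (a : ℝ) x, N (a • x) = |a| * N x)
    (hT : ∀ x, x ≠ 0 → N (T x) < N x) : 0 < (ContinuousLinearMap.id ℝ E + T).det := by
  have hcont : Continuous fun t : ℝ => (ContinuousLinearMap.id ℝ E + t • T).det :=
    ContinuousLinearMap.continuous_det.comp (continuous_const.add (continuous_id.smul continuous_const))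
  have hne : ∀ t ∈ Icc (0 : ℝ) 1, (ContinuousLinearMap.id ℝ E + t • T).det ≠ 0 := by
    intro t ht h0
    have h1 := LinearMap.bot_lt_ker_of_det_eq_zero h0
    obtain ⟨x, hx, hx0⟩ := (Submodule.ne_bot_iff _).1 h1.ne'
    have h2 : x + t • T x = 0 := hx
    have h3 : x = (-t) • T x := by
      rw [neg_smul]
      exact eq_neg_of_add_eq_zero_left h2
    have h4 := hT x hx0
    have h5 : N x = |t| * N (T x) := by
      conv_lhs => rw [h3]
      rw [hN, abs_neg]
    rw [abs_of_nonneg ht.1] at h5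
    have h6 := mul_le_mul_of_nonneg_right ht.2 (hN0 (T x))
    linarith
  by_contra hneg
  rw [not_lt] at hneg
  have h1 : (ContinuousLinearMap.id ℝ E + (1 : ℝ) • T).det ≤ 0 := by
    rw [one_smul]
    exact hneg
  have h0 : 0 ≤ (ContinuousLinearMap.id ℝ E + (0 : ℝ) • T).det := by
    rw [zero_smul, add_zero]
    have h2 : (ContinuousLinearMap.id ℝ E).det = 1 := LinearMap.det_id
    rw [h2]
    exact zero_le_one
  obtain ⟨t, ht, h2⟩ := intermediate_value_Icc' (zero_le_one (α := ℝ)) hcont.continuousOn ⟨h1, h0⟩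
  exact hne t ht h2

end

/-- A non-zero functional on `E5 × ℝ` can be completed to an orientation preserving
isomorphism. -/
theorem exists_complete (L : (E5 × ℝ) →L[ℝ] ℝ) (hL : L ≠ 0) :
    ∃ T : (E5 × ℝ) →L[ℝ] E5, 0 < (T.prod L).det := by
  have key : ∃ T : (E5 × ℝ) →L[ℝ] E5, ∀ p, T p = 0 → L p = 0 → p = 0 := by
    by_cases hl : L (0, 1) = 0
    · have h1 : ∃ y : E5, L (y, 0) ≠ 0 := by
        by_contra hcon
        push Not at hcon
        apply hL
        ext p
        · exact hcon p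
        · exact hl
      obtain ⟨y, hy⟩ := h1
      refine ⟨ContinuousLinearMap.fst ℝ E5 ℝ + (ContinuousLinearMap.snd ℝ E5 ℝ).smulRight y, ?_⟩
      rintro ⟨z, h⟩ h2 h3
      have h2' : z + h • y = 0 := h2
      have h4 : L (z, h) = L (z, 0) := by
        have : ((z, h) : E5 × ℝ) = (z, 0) + h • (0, 1) := by
          ext
          · simp
          · simp
        rw [this, map_add, map_smul, hl, smul_zero, add_zero]
      have h5 : z = -(h • y) := eq_neg_of_add_eq_zero_left h2'
      have h6 : L (z, 0) = -(h * L (y, 0)) := by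
        have : ((z, 0) : E5 × ℝ) = (-h) • (y, 0) := by
          rw [h5]
          ext
          · simp
          · simp
        rw [this, map_smul, smul_eq_mul, neg_mul]
      rw [h4, h6, neg_eq_zero] at h3
      rcases mul_eq_zero.1 h3 with h7 | h7
      · rw [h7] at h5
        rw [h5, h7, zero_smul, neg_zero]
        rfl
      · exact absurd h7 hy
    · refine ⟨ContinuousLinearMap.fst ℝ E5 ℝ, ?_⟩
      rintro ⟨z, h⟩ h2 h3
      have h2' : z = 0 := h2
      subst h2'
      have : ((0, h) : E5 × ℝ) = h • (0, 1) := by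
        ext
        · simp
        · simp
      rw [this, map_smul, smul_eq_mul] at h3
      rcases mul_eq_zero.1 h3 with h7 | h7
      · rw [h7]
        rfl
      · exact absurd h7 hl
  obtain ⟨T, hT⟩ := key
  have hne : (T.prod L).det ≠ 0 := by
    intro h0
    have h1 := LinearMap.bot_lt_ker_of_det_eq_zero h0
    obtain ⟨x, hx, hx0⟩ := (Submodule.ne_bot_iff _).1 h1.ne'
    have h2 : (T x, L x) = ((0, 0) : E5 × ℝ) := hx
    exact hx0 (hT x (congrArg Prod.fst h2) (congrArg Prod.snd h2))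
  rcases lt_or_gt_of_ne hne with h | h
  · refine ⟨-T, ?_⟩
    set M : (E5 × ℝ) →L[ℝ] (E5 × ℝ) :=
      (-ContinuousLinearMap.fst ℝ E5 ℝ).prod (ContinuousLinearMap.snd ℝ E5 ℝ) with hM
    have h1 : M.det = -1 := by
      rw [det_block_snd M fun p => rfl]
      have h2 : ((ContinuousLinearMap.fst ℝ E5 ℝ).comp M).comp (ContinuousLinearMap.inl ℝ E5 ℝ) =
          (-1 : ℝ) • ContinuousLinearMap.id ℝ E5 := by
        ext x
        simp [hM]
      rw [h2]
      show LinearMap.det ((-1 : ℝ) • (LinearMap.id : E5 →ₗ[ℝ] E5)) = -1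
      rw [LinearMap.det_smul, LinearMap.det_id, mul_one, finrank_euclideanSpace_fin]
      norm_num
    have h3 : (-T).prod L = M.comp (T.prod L) := by
      ext x <;> simp [hM]
    rw [h3]
    show 0 < LinearMap.det ((M : (E5 × ℝ) →ₗ[ℝ] (E5 × ℝ)).comp (T.prod L : (E5 × ℝ) →ₗ[ℝ] (E5 × ℝ)))
    rw [LinearMap.det_comp]
    exact mul_pos_of_neg_of_neg (lt_of_eq_of_lt h1 (by norm_num)) h
  · exact ⟨T, h⟩

end Wu
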