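import Pool.Agent.Lib.MP_60079e_gt.OPb
import Pool.Agent.Lib.MP_60079e_gt.DetB

/-! Smooth functions, submersions to `ℝ`; product with `ℝ`. -/

open Set Metric Topology
open scoped ContDiff

namespace Wu

section
variable {E : Type} [NormedAddCommGroup E] [NormedSpace ℝ E]
  {V : Type} [NormedAddCommGroup V] [NormedSpace ℝ V]
  {V' : Type} [NormedAddCommGroup V'] [NormedSpace ℝ V']

/-- smooth at `x`. -/
def SmAt (M : Mfd E) (f : M.X → V) (x : M.X) : Prop :=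
  ∃ c ∈ M.atlas, x ∈ c.source ∧ ContDiffAt ℝ ∞ (f ∘ c.symm) (c x)

/-- smooth with non-zero differential at `x`. -/
def SubmAt (M : Mfd E) (f : M.X → ℝ) (x : M.X) : Prop :=
  ∃ c ∈ M.atlas, x ∈ c.source ∧ ContDiffAt ℝ ∞ (f ∘ c.symm) (c x) ∧
    fderiv ℝ (f ∘ c.symm) (c x) ≠ 0

theorem sm_val {X Y : Type} [TopologicalSpace X] [TopologicalSpace Y]
    (c : OpenPartialHomeomorph X Y) {x : X} (hx : x ∈ c.source) : c.symm (c x) = x :=
  c.left_inv hx

theorem SmAt.chart {M : Mfd E} {f : M.X → V} {x : M.X} (h : SmAt M f x)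
    {c : OpenPartialHomeomorph M.X E} (hc : c ∈ M.atlas) (hx : x ∈ c.source) :
    ContDiffAt ℝ ∞ (f ∘ c.symm) (c x) := by
  obtain ⟨c0, hc0, hx0, h0⟩ := h
  have h1 : ContDiffAt ℝ ∞ (c0 ∘ c.symm) (c x) := (M.compat c hc c0 hc0 x hx hx0).1
  have h2 : (c0 ∘ c.symm) (c x) = c0 x := by simp [c.left_inv hx]
  have h3 : ContDiffAt ℝ ∞ (f ∘ c0.symm) ((c0 ∘ c.symm) (c x)) := by
    rw [h2]
    exact h0
  apply (h3.comp (c x) h1).congr_of_eventuallyEq
  have h6 : ∀ᶠ y in 𝓝 x, y ∈ c0.source := c0.open_source.mem_nhds hx0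
  filter_upwards [opa_symm_ev c hx h6] with z hz
  simp only [Function.comp_apply]
  rw [c0.left_inv hz]

theorem SmAt.continuousAt {M : Mfd E} {f : M.X → V} {x : M.X} (h : SmAt M f x) :
    ContinuousAt f x := by
  obtain ⟨c, hc, hx, h0⟩ := h
  have h1 : ContinuousAt ((f ∘ c.symm) ∘ c) x :=
    ContinuousAt.comp (f := c) h0.continuousAt (c.continuousAt hx)
  apply h1.congr
  filter_upwards [c.open_source.mem_nhds hx] with z hz
  simp only [Function.comp_apply]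
  rw [c.left_inv hz]

theorem SmAt.congr {M : Mfd E} {f g : M.X → V} {x : M.X} (h : SmAt M f x)
    (hfg : f =ᶠ[𝓝 x] g) : SmAt M g x := by
  obtain ⟨c, hc, hx, h0⟩ := h
  refine ⟨c, hc, hx, h0.congr_of_eventuallyEq ?_⟩
  filter_upwards [opa_symm_ev c hx hfg] with z hz
  exact hz.symm

theorem SmAt.postcomp {M : Mfd E} {f : M.X → V} {x : M.X} (h : SmAt M f x) {φ : V → V'}
    (hφ : ContDiffAt ℝ ∞ φ (f x)) : SmAt M (fun y => φ (f y)) x := by
  obtain ⟨c, hc, hx, h0⟩ := h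
  refine ⟨c, hc, hx, ?_⟩
  have h1 : ContDiffAt ℝ ∞ φ ((f ∘ c.symm) (c x)) := by
    simp only [Function.comp_apply]
    rw [c.left_inv hx]
    exact hφ
  exact h1.comp (c x) h0

theorem SmAt.prodMk {M : Mfd E} {f : M.X → V} {g : M.X → V'} {x : M.X} (hf : SmAt M f x)
    (hg : SmAt M g x) : SmAt M (fun y => (f y, g y)) x := by
  obtain ⟨c, hc, hx⟩ := M.cover x
  exact ⟨c, hc, hx, (hf.chart hc hx).prodMk (hg.chart hc hx)⟩

theorem smAt_const (M : Mfd E) (v : V) (x : M.X) : SmAt M (fun _ => v) x := by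
  obtain ⟨c, hc, hx⟩ := M.cover x
  exact ⟨c, hc, hx, contDiffAt_const⟩

theorem SmAt.comp_op {M N : Mfd E} {f : N.X → V} {g : M.X → N.X} {x : M.X}
    (hf : SmAt N f (g x)) (hg : OPAt M N g x) : SmAt M (fun y => f (g y)) x := by
  obtain ⟨hgc, c, hc, d, hd, hx, hgx, h0⟩ := hg
  refine ⟨c, hc, hx, ?_⟩
  have h1 := hf.chart hd hgx
  have h2 : (d ∘ g ∘ c.symm) (c x) = d (g x) := by simp [c.left_inv hx]
  have h3 : ContDiffAt ℝ ∞ (f ∘ d.symm) ((d ∘ g ∘ c.symm) (c x)) := by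
    rw [h2]
    exact h1
  apply (h3.comp (c x) h0.1).congr_of_eventuallyEq
  have h6 : ∀ᶠ y in 𝓝 x, g y ∈ d.source := hgc.eventually (d.open_source.mem_nhds hgx)
  filter_upwards [opa_symm_ev c hx h6] with z hz
  simp only [Function.comp_apply]
  rw [d.left_inv hz]

theorem SubmAt.smAt {M : Mfd E} {f : M.X → ℝ} {x : M.X} (h : SubmAt M f x) : SmAt M f x := by
  obtain ⟨c, hc, hx, h0, h1⟩ := h
  exact ⟨c, hc, hx, h0⟩

theorem SubmAt.congr {M : Mfd E} {f g : M.X → ℝ} {x : M.X} (h : SubmAt M f x)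
    (hfg : f =ᶠ[𝓝 x] g) : SubmAt M g x := by
  obtain ⟨c, hc, hx, h0, h1⟩ := h
  have h2 : (g ∘ c.symm) =ᶠ[𝓝 (c x)] (f ∘ c.symm) := by
    filter_upwards [opa_symm_ev c hx hfg] with z hz
    exact hz.symm
  refine ⟨c, hc, hx, h0.congr_of_eventuallyEq h2, ?_⟩
  rw [h2.fderiv_eq]
  exact h1

theorem SubmAt.comp_op [FiniteDimensional ℝ E] {M N : Mfd E} {f : N.X → ℝ} {g : M.X → N.X} {x : M.X}
    (hf : SubmAt N f (g x)) (hg : OPAt M N g x) : SubmAt M (fun y => f (g y)) x := by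
  obtain ⟨d, hd, hgx, h0, h1⟩ := hf
  obtain ⟨c, hc, hx⟩ := M.cover x
  have h4 := hg.chart hc hd hx hgx
  have h2 : (d ∘ g ∘ c.symm) (c x) = d (g x) := by simp [c.left_inv hx]
  have h3 : ContDiffAt ℝ ∞ (f ∘ d.symm) ((d ∘ g ∘ c.symm) (c x)) := by
    rw [h2]
    exact h0
  have h6 : ∀ᶠ y in 𝓝 x, g y ∈ d.source := hg.1.eventually (d.open_source.mem_nhds hgx)
  have h5 : ((fun y => f (g y)) ∘ c.symm) =ᶠ[𝓝 (c x)] (f ∘ d.symm) ∘ (d ∘ g ∘ c.symm) := by
    filter_upwards [opa_symm_ev c hx h6] with z hz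
    simp only [Function.comp_apply]
    rw [d.left_inv hz]
  refine ⟨c, hc, hx, (h3.comp (c x) h4.1).congr_of_eventuallyEq h5, ?_⟩
  rw [h5.fderiv_eq, fderiv_comp (c x) (h3.differentiableAt (by simp))
    (h4.1.differentiableAt (by simp)), h2]
  intro h7
  apply h1
  ext v
  obtain ⟨w, hw⟩ : ∃ w, fderiv ℝ (d ∘ g ∘ c.symm) (c x) w = v := by
    refine ⟨((fderiv ℝ (d ∘ g ∘ c.symm) (c x)).toContinuousLinearEquivOfDetNeZero
      h4.2.ne').symm v, ?_⟩
    have := ((fderiv ℝ (d ∘ g ∘ c.symm) (c x)).toContinuousLinearEquivOfDetNeZero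
      h4.2.ne').apply_symm_apply v
    rwa [ContinuousLinearMap.toContinuousLinearEquivOfDetNeZero_apply] at this
  rw [← hw]
  exact congrArg (fun T : E →L[ℝ] ℝ => T w) h7

/-- Non-vanishing of the differential can be tested along a curve. -/
theorem SubmAt.of_curve {M : Mfd E} {f : M.X → ℝ} {x : M.X} (h : SmAt M f x) {γ : ℝ → M.X}
    (h0 : γ 0 = x) {c : OpenPartialHomeomorph M.X E} (hc : c ∈ M.atlas) (hx : x ∈ c.source)
    (hγ0 : ContinuousAt γ 0) (hγ : DifferentiableAt ℝ (fun s => c (γ s)) 0)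
    (hd : deriv (fun s => f (γ s)) 0 ≠ 0) : SubmAt M f x := by
  have h1 := h.chart hc hx
  refine ⟨c, hc, hx, h1, ?_⟩
  intro h2
  apply hd
  have h3 : (fun s => f (γ s)) =ᶠ[𝓝 0] (f ∘ c.symm) ∘ (fun s => c (γ s)) := by
    have h4 : ∀ᶠ s in 𝓝 (0 : ℝ), γ s ∈ c.source := by
      apply hγ0.eventually
      rw [h0]
      exact c.open_source.mem_nhds hx
    filter_upwards [h4] with s hs
    simp only [Function.comp_apply]
    rw [c.left_inv hs]
  have h5 : DifferentiableAt ℝ (f ∘ c.symm) (c (γ 0)) := by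
    rw [h0]
    exact h1.differentiableAt (by simp)
  rw [h3.deriv_eq]
  rw [fderiv_comp_deriv (0 : ℝ) h5 hγ, h0, h2]
  rfl

end

section
variable {E : Type} [NormedAddCommGroup E] [NormedSpace ℝ E] [FiniteDimensional ℝ E]
  {V : Type} [NormedAddCommGroup V] [NormedSpace ℝ V]

theorem SmAt.of_comp_op {M N : Mfd E} {f : N.X → V} {g : M.X → N.X} {x : M.X}
    (hg : OPAt M N g x) (hf : SmAt M (fun y => f (g y)) x) : SmAt N f (g x) := by
  obtain ⟨e, he1, he2, he3⟩ := hg.exists_local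
  have h1 : g x ∈ e.target := by
    rw [← he2 x he1]
    exact e.map_source he1
  have h2 : e.symm (g x) = x := by
    rw [← he2 x he1]
    exact e.left_inv he1
  have h3 : SmAt M (fun y => f (g y)) (e.symm (g x)) := by
    rw [h2]
    exact hf
  have h4 : SmAt N (fun z => f (g (e.symm z))) (g x) :=
    SmAt.comp_op (f := fun y => f (g y)) (g := e.symm) h3 he3
  apply h4.congr
  filter_upwards [e.open_target.mem_nhds h1] with z hz
  rw [← he2 _ (e.map_target hz), e.right_inv hz]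

theorem SubmAt.of_comp_op {M N : Mfd E} {f : N.X → ℝ} {g : M.X → N.X} {x : M.X}
    (hg : OPAt M N g x) (hf : SubmAt M (fun y => f (g y)) x) : SubmAt N f (g x) := by
  obtain ⟨e, he1, he2, he3⟩ := hg.exists_local
  have h1 : g x ∈ e.target := by
    rw [← he2 x he1]
    exact e.map_source he1
  have h2 : e.symm (g x) = x := by
    rw [← he2 x he1]
    exact e.left_inv he1
  have h3 : SubmAt M (fun y => f (g y)) (e.symm (g x)) := by
    rw [h2]
    exact hf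
  have h4 : SubmAt N (fun z => f (g (e.symm z))) (g x) :=
    SubmAt.comp_op (f := fun y => f (g y)) (g := e.symm) h3 he3
  apply h4.congr
  filter_upwards [e.open_target.mem_nhds h1] with z hz
  rw [← he2 _ (e.map_target hz), e.right_inv hz]

theorem prodR_cover (M : Mfd E) (x : M.X × ℝ) :
    ∃ c ∈ {c : OpenPartialHomeomorph (M.X × ℝ) (E × ℝ) | ∃ d ∈ M.atlas,
      c = d.prod (OpenPartialHomeomorph.refl ℝ)}, x ∈ c.source := by
  obtain ⟨c, hc, hx⟩ := M.cover x.1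
  refine ⟨c.prod (OpenPartialHomeomorph.refl ℝ), ⟨c, hc, rfl⟩, ?_⟩
  rw [OpenPartialHomeomorph.prod_source]
  exact ⟨hx, mem_univ _⟩

theorem sm_prod_opaP {f : E → E} {a : E} (h : OPaP f a) (t : ℝ) :
    ContDiffAt ℝ ∞ (Prod.map f (id : ℝ → ℝ)) (a, t) ∧
      0 < (fderiv ℝ (Prod.map f (id : ℝ → ℝ)) (a, t)).det := by
  have h1 : ContDiffAt ℝ ∞ f ((a, t) : E × ℝ).1 := h.1
  have h2 : ContDiffAt ℝ ∞ (id : ℝ → ℝ) ((a, t) : E × ℝ).2 := contDiffAt_id
  refine ⟨h1.prodMap' h2, ?_⟩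
  have h3 : HasFDerivAt (Prod.map f (id : ℝ → ℝ))
      ((fderiv ℝ f a).prodMap (ContinuousLinearMap.id ℝ ℝ)) (a, t) :=
    HasFDerivAt.prodMap (a, t) (h1.differentiableAt (by simp)).hasFDerivAt (hasFDerivAt_id t)
  rw [h3.fderiv]
  rw [det_block_snd _ (fun p => by simp)]
  have h4 : ((ContinuousLinearMap.fst ℝ E ℝ).comp
      ((fderiv ℝ f a).prodMap (ContinuousLinearMap.id ℝ ℝ))).comp
      (ContinuousLinearMap.inl ℝ E ℝ) = fderiv ℝ f a := by
    ext v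
    simp
  rw [h4]
  exact h.2

theorem prodR_compat (M : Mfd E) :
    ∀ c ∈ {c : OpenPartialHomeomorph (M.X × ℝ) (E × ℝ) | ∃ d ∈ M.atlas,
      c = d.prod (OpenPartialHomeomorph.refl ℝ)},
    ∀ d ∈ {c : OpenPartialHomeomorph (M.X × ℝ) (E × ℝ) | ∃ d ∈ M.atlas,
      c = d.prod (OpenPartialHomeomorph.refl ℝ)},
    ∀ x : M.X × ℝ, x ∈ c.source → x ∈ d.source →
    ContDiffAt ℝ ∞ (d ∘ c.symm) (c x) ∧ 0 < (fderiv ℝ (d ∘ c.symm) (c x)).det := by
  rintro _ ⟨c, hc, rfl⟩ _ ⟨d, hd, rfl⟩ ⟨x, t⟩ hx hx'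
  rw [OpenPartialHomeomorph.prod_source] at hx hx'
  have h1 : OPaP (d ∘ c.symm) (c x) := M.compat c hc d hd x hx.1 hx'.1
  exact sm_prod_opaP h1 t

/-- The product `M × ℝ`. -/
@[reducible] def prodR (M : Mfd E) : Mfd (E × ℝ) where
  X := M.X × ℝ
  atlas := {c | ∃ d ∈ M.atlas, c = d.prod (OpenPartialHomeomorph.refl ℝ)}
  cover := prodR_cover M
  compat := prodR_compat M

theorem opAt_prodR {M N : Mfd E} {g : M.X → N.X} {x : M.X} (hg : OPAt M N g x) (h : ℝ) :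
    OPAt (prodR M) (prodR N) (fun p => (g p.1, p.2)) (x, h) := by
  obtain ⟨hgc, c, hc, d, hd, hx, hgx, h0⟩ := hg
  refine ⟨?_, c.prod (OpenPartialHomeomorph.refl ℝ), ⟨c, hc, rfl⟩,
    d.prod (OpenPartialHomeomorph.refl ℝ), ⟨d, hd, rfl⟩, ?_, ?_, ?_⟩
  · have h1 : ContinuousAt (fun p : M.X × ℝ => g p.1) (x, h) :=
      ContinuousAt.comp (f := Prod.fst) hgc continuousAt_fst
    exact h1.prodMk continuousAt_snd
  · rw [OpenPartialHomeomorph.prod_source]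
    exact ⟨hx, mem_univ _⟩
  · rw [OpenPartialHomeomorph.prod_source]
    exact ⟨hgx, mem_univ _⟩
  · exact sm_prod_opaP (f := d ∘ g ∘ c.symm) h0 h

theorem smAt_prodR_fst {M : Mfd E} {f : M.X → V} {x : M.X} (hf : SmAt M f x) (h : ℝ) :
    SmAt (prodR M) (fun p => f p.1) (x, h) := by
  obtain ⟨c, hc, hx, h0⟩ := hf
  refine ⟨c.prod (OpenPartialHomeomorph.refl ℝ), ⟨c, hc, rfl⟩, ?_, ?_⟩
  · rw [OpenPartialHomeomorph.prod_source]
    exact ⟨hx, mem_univ _⟩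
  · have h1 : ContDiffAt ℝ ∞ (f ∘ c.symm) ((c x, h) : E × ℝ).1 := h0
    exact h1.comp ((c x, h) : E × ℝ) contDiffAt_fst

theorem smAt_prodR_snd (M : Mfd E) (p : (prodR M).X) :
    SmAt (prodR M) (fun p => p.2) p := by
  obtain ⟨c, hc, hx⟩ := M.cover p.1
  refine ⟨c.prod (OpenPartialHomeomorph.refl ℝ), ⟨c, hc, rfl⟩, ?_, ?_⟩
  · rw [OpenPartialHomeomorph.prod_source]
    exact ⟨hx, mem_univ _⟩
  · exact contDiffAt_snd

end

end Wu
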