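import Pool.Agent.Lib.MP_60079e_gt.WE
import Pool.Agent.Lib.MP_60079e_gt.Sm

/-! Criteria for local diffeomorphisms and smooth functions on `W`. -/

open Set Metric Topology Matrix
open scoped ContDiff

namespace Wu

theorem WF_det_comp (A B : E5 →L[ℝ] E5) : (A.comp B).det = A.det * B.det := by
  change LinearMap.det ((A : E5 →ₗ[ℝ] E5) ∘ₗ (B : E5 →ₗ[ℝ] E5)) = _
  rw [LinearMap.det_comp]

theorem WF_continuousAt {X : Type} [TopologicalSpace X] {f : X → WX} {x : X}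
    (hf : ContinuousAt (fun y => toA (f y).1) x) : ContinuousAt f x := by
  rw [Topology.IsInducing.subtypeVal.continuousAt_iff]
  exact hf

/-- Maps from `E5` to `W`, tested in a frame. -/
theorem opAt_frame (f : E5 → WX) (x : E5) (hf : ContDiffAt ℝ ∞ (fun y => toA (f y).1) x)
    (C : M3) (hC : C ∈ SU3) (hCf : (f x).1 = C * Cᵀ) (m : E5 →L[ℝ] E5) (hm : 0 < m.det)
    (hd : fderiv ℝ (fun y => toA (f y).1) x = (FrL C).comp m) : OPAt (euc E5) WM f x := by
  obtain ⟨c, ⟨g, hg, hc⟩, hxc⟩ := wchart_cover (f x)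
  obtain ⟨κ, hκ, H⟩ := wchart_frame hg hc (f x) hxc C hC hCf
  obtain ⟨h1, h2⟩ := H f x rfl hf m hd
  refine ⟨WF_continuousAt hf.continuousAt, OpenPartialHomeomorph.refl E5, rfl, c, ⟨g, hg, hc⟩,
    mem_univ _, hxc, h1, ?_⟩
  change 0 < (fderiv ℝ (fun y => c (f y)) x).det
  rw [h2]
  exact mul_pos hκ hm

/-- Maps from `E5` to `W` given by their last column. -/
theorem opAt_sig (f : E5 → WX) (U : E5 → C3) (x : E5) (hU : ContDiffAt ℝ ∞ U x)
    (h0 : U x 0 ≠ 0 ∨ U x 1 ≠ 0) (hfU : ∀ᶠ y in 𝓝 x, (f y).1 = sig (U y))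
    (hd : 0 < det6 (U x) (fun k => fderiv ℝ U x (bE k))) : OPAt (euc E5) WM f x := by
  have hfx : (f x).1 = sig (U x) := hfU.self_of_nhds
  have hsig : ContDiffAt ℝ ∞ (fun y => toA (sig (U y))) x :=
    ContDiffAt.comp x (g := fun V : C3 => toA (sig V)) (sig_contDiffAt (U x) h0) hU
  have hev : (fun y => toA (f y).1) =ᶠ[𝓝 x] (fun y => toA (sig (U y))) := by
    filter_upwards [hfU] with y hy
    rw [hy]
  have hf : ContDiffAt ℝ ∞ (fun y => toA (f y).1) x := hsig.congr_of_eventuallyEq hev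
  obtain ⟨C, hC, hCS⟩ := takagi (f x).1 (f x).2.1 (f x).2.2
  obtain ⟨m, hm⟩ := tangent_frame (fun y => toA (f y).1) x (hf.differentiableAt (by simp))
    (Filter.Eventually.of_forall fun y => (f y).2) C hC (by rw [hCS])
  refine opAt_frame f x hf C hC hCS.symm m ?_ hm
  -- the last column
  have hNpos : 0 < WE_N (U x) := WE_N_pos _ h0
  have hcomp : ∀ i, ContDiffAt ℝ ∞ (fun y => U y i) x := fun i =>
    contDiffAt_pi.mp hU i
  have hns : ∀ i, ContDiffAt ℝ ∞ (fun y => Complex.normSq (U y i)) x := by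
    intro i
    have e : (fun y => Complex.normSq (U y i)) =
        fun y => (U y i).re * (U y i).re + (U y i).im * (U y i).im := by
      funext y
      exact Complex.normSq_apply _
    rw [e]
    have hre : ContDiffAt ℝ ∞ (fun y => (U y i).re) x :=
      Complex.reCLM.contDiff.contDiffAt.comp x (hcomp i)
    have him : ContDiffAt ℝ ∞ (fun y => (U y i).im) x :=
      Complex.imCLM.contDiff.contDiffAt.comp x (hcomp i)
    exact (hre.mul hre).add (him.mul him)
  have hin : Complex.normSq (U x 0) + Complex.normSq (U x 1) + Complex.normSq (U x 2) ≠ 0 :=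
    (Real.sqrt_pos.mp hNpos).ne'
  have hN : ContDiffAt ℝ ∞ (fun y => WE_N (U y)) x :=
    (((hns 0).add (hns 1)).add (hns 2)).sqrt hin
  have hρ : ContDiffAt ℝ ∞ (fun y => (WE_N (U y))⁻¹) x := hN.inv hNpos.ne'
  have hcol : (fun y => colL (toA (f y).1)) =ᶠ[𝓝 x] (fun y => (WE_N (U y))⁻¹ • U y) := by
    filter_upwards [hfU] with y hy
    rw [hy, ← WE_sig_col]
    funext i
    rw [colL_apply]
    rfl
  have hcx : (fun i => (C * Cᵀ) i 2 : C3) = (WE_N (U x))⁻¹ • U x := by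
    rw [hCS, hfx, WE_sig_col]
  have hder : fderiv ℝ (fun y => (WE_N (U y))⁻¹ • U y) x = (colL.comp (FrL C)).comp m := by
    rw [← hcol.fderiv_eq]
    have d1 : HasFDerivAt (fun y => toA (f y).1) ((FrL C).comp m) x := by
      rw [← hm]
      exact (hf.differentiableAt (by simp)).hasFDerivAt
    exact (colL.hasFDerivAt.comp x d1).fderiv
  have hsc := det6_scale U (fun y => (WE_N (U y))⁻¹) x (hU.differentiableAt (by simp))
    (hρ.differentiableAt (by simp))
  rw [hder, ← hcx] at hsc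
  have h7 := det6_comp (fun i => (C * Cᵀ) i 2 : C3) (colL.comp (FrL C)) m
  have h8 : det6 (fun i => (C * Cᵀ) i 2 : C3)
      (fun k => ((colL.comp (FrL C)).comp m) (bE k)) =
      m.det * det6 (fun i => (C * Cᵀ) i 2 : C3) (fun k => colL (FrL C (bE k))) := h7
  have hne : (C * Cᵀ) 0 2 ≠ 0 ∨ (C * Cᵀ) 1 2 ≠ 0 := by
    have e0 := congrFun hcx 0
    have e1 := congrFun hcx 1
    simp only [Pi.smul_apply] at e0 e1
    rw [e0, e1]
    rcases h0 with h0 | h0
    · left; exact smul_ne_zero (inv_pos.mpr hNpos).ne' h0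
    · right; exact smul_ne_zero (inv_pos.mpr hNpos).ne' h0
  have h9 := det6_frame_pos C hC hne
  rw [h8] at hsc
  have h10 : 0 < m.det * det6 (fun i => (C * Cᵀ) i 2 : C3) (fun k => colL (FrL C (bE k))) := by
    rw [hsc]
    exact mul_pos (pow_pos (inv_pos.mpr hNpos) 6) hd
  exact (pos_iff_pos_of_mul_pos h10).mpr h9

/-- Maps from `W` to `W` given by ambient formulas. -/
theorem opAt_WW (f : WX → WX) (F : A3 → A3) (S : WX) (hF : ContDiffAt ℝ ∞ F (toA S.1))
    (hfF : ∀ᶠ T : WX in 𝓝 S, toA (f T).1 = F (toA T.1)) (C : M3) (hC : C ∈ SU3)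
    (hCS : S.1 = C * Cᵀ) (D : M3) (hD : D ∈ SU3) (hDS : (f S).1 = D * Dᵀ) (m : E5 →L[ℝ] E5)
    (hm : 0 < m.det) (hd : (fderiv ℝ F (toA S.1)).comp (FrL C) = (FrL D).comp m) :
    OPAt WM WM f S := by
  have hcontf : ContinuousAt f S := by
    apply WF_continuousAt
    have h1 : ContinuousAt (fun T : WX => F (toA T.1)) S :=
      ContinuousAt.comp (f := fun T : WX => toA T.1) (g := F) hF.continuousAt
        WE_cont_toA.continuousAt
    exact h1.congr (hfF.mono fun T hT => hT.symm)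
  obtain ⟨c, ⟨g, hg, hc⟩, hSc⟩ := wchart_cover S
  obtain ⟨d, ⟨h, hh, hdd⟩, hSd⟩ := wchart_cover (f S)
  obtain ⟨h1, mc, hmc, h2⟩ := wchart_symm_frame hg hc S hSc C hC hCS
  obtain ⟨κ, hκ, H⟩ := wchart_frame hh hdd (f S) hSd D hD hDS
  have hsS : c.symm (c S) = S := c.left_inv hSc
  have hcs : ContinuousAt c.symm (c S) := c.symm.continuousAt (c.map_source hSc)
  have hev : (fun y => toA (f (c.symm y)).1) =ᶠ[𝓝 (c S)] (fun y => F (toA (c.symm y).1)) := by
    have := hcs.eventually (p := fun T : WX => toA (f T).1 = F (toA T.1)) (by rw [hsS]; exact hfF)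
    exact this
  have hFx : ContDiffAt ℝ ∞ F (toA (c.symm (c S)).1) := by rw [hsS]; exact hF
  have hcd : ContDiffAt ℝ ∞ (fun y => F (toA (c.symm y).1)) (c S) :=
    ContDiffAt.comp (c S) (g := F) (f := fun y => toA (c.symm y).1) hFx h1
  have hcd' : ContDiffAt ℝ ∞ (fun y => toA (f (c.symm y)).1) (c S) :=
    hcd.congr_of_eventuallyEq hev
  have hder : fderiv ℝ (fun y => toA (f (c.symm y)).1) (c S) = (FrL D).comp (m.comp mc) := by
    rw [hev.fderiv_eq]
    have d1 : HasFDerivAt (fun y => toA (c.symm y).1) ((FrL C).comp mc) (c S) := by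
      rw [← h2]
      exact (h1.differentiableAt (by simp)).hasFDerivAt
    have d2 : HasFDerivAt F (fderiv ℝ F (toA S.1)) (toA (c.symm (c S)).1) := by
      rw [hsS]
      exact (hF.differentiableAt (by simp)).hasFDerivAt
    have d3 : HasFDerivAt (fun y => F (toA (c.symm y).1))
        ((fderiv ℝ F (toA S.1)).comp ((FrL C).comp mc)) (c S) :=
      HasFDerivAt.comp (c S) (g := F) (f := fun y => toA (c.symm y).1) d2 d1
    rw [d3.fderiv, ← ContinuousLinearMap.comp_assoc, hd, ContinuousLinearMap.comp_assoc]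
  obtain ⟨h5, h6⟩ := H (fun y => f (c.symm y)) (c S) (by rw [hsS]) hcd' (m.comp mc) hder
  refine ⟨hcontf, c, ⟨g, hg, hc⟩, d, ⟨h, hh, hdd⟩, hSc, hSd, h5, ?_⟩
  change 0 < (fderiv ℝ (fun y => d (f (c.symm y))) (c S)).det
  rw [h6, WF_det_comp]
  exact mul_pos hκ (mul_pos hm hmc)

/-- Translations. -/
noncomputable def trW (g : M3) (hg : g ∈ SU3) (S : WX) : WX := ⟨tr g S.1, tr_mem hg S.2⟩

theorem opAt_tr (g : M3) (hg : g ∈ SU3) (S : WX) : OPAt WM WM (trW g hg) S := by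
  obtain ⟨C, hC, hCS⟩ := takagi S.1 S.2.1 S.2.2
  refine opAt_WW (trW g hg) (trL g) S (trL g).contDiff.contDiffAt
    (Filter.Eventually.of_forall fun T => rfl) C hC hCS.symm (g * C) (mul_mem hg hC) ?_
    (ContinuousLinearMap.id ℝ E5) (by simp [ContinuousLinearMap.det]) ?_
  · change tr g S.1 = _
    rw [← hCS, tr_mulT]
  · rw [(trL g).fderiv, trL_comp_FrL, ContinuousLinearMap.comp_id]

/-- Restrictions of smooth functions of the ambient space. -/
theorem smAt_W {V : Type} [NormedAddCommGroup V] [NormedSpace ℝ V] (φ : A3 → V) (S : WX)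
    (hφ : ContDiffAt ℝ ∞ φ (toA S.1)) : SmAt WM (fun T : WX => φ (toA T.1)) S := by
  obtain ⟨c, ⟨g, hg, hc⟩, hSc⟩ := wchart_cover S
  obtain ⟨C, hC, hCS⟩ := takagi S.1 S.2.1 S.2.2
  obtain ⟨h1, -, -, -⟩ := wchart_symm_frame hg hc S hSc C hC hCS.symm
  refine ⟨c, ⟨g, hg, hc⟩, hSc, ?_⟩
  have hφx : ContDiffAt ℝ ∞ φ (toA (c.symm (c S)).1) := by rw [c.left_inv hSc]; exact hφ
  exact ContDiffAt.comp (c S) (g := φ) (f := fun y => toA (c.symm y).1) hφx h1

theorem isWu_WM : IsWu WM := by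
  refine ⟨fun S : WX => toA S.1, WE_cont_toA, fun S T h => Subtype.ext h, ?_, ?_⟩
  · ext T
    constructor
    · rintro ⟨S, rfl⟩
      obtain ⟨C, hC, hCS⟩ := takagi S.1 S.2.1 S.2.2
      exact ⟨C, hC, hCS.symm⟩
    · rintro ⟨A, hA, rfl⟩
      exact ⟨⟨A * Aᵀ, mulT_mem hA⟩, rfl⟩
  · intro S
    obtain ⟨c, ⟨g, hg, hc⟩, hSc⟩ := wchart_cover S
    obtain ⟨C, hC, hCS⟩ := takagi S.1 S.2.1 S.2.2
    obtain ⟨h1, m, hm, h2⟩ := wchart_symm_frame hg hc S hSc C hC hCS.symm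
    refine ⟨c, ⟨g, hg, hc⟩, hSc, h1, ?_⟩
    change Function.Injective (fderiv ℝ (fun y => toA (c.symm y).1) (c S))
    rw [h2]
    refine (FrL_injective hC).comp ?_
    have hu : IsUnit (LinearMap.det (m : E5 →ₗ[ℝ] E5)) := isUnit_iff_ne_zero.mpr hm.ne'
    have h3 := LinearMap.isUnit_iff_ker_eq_bot (m : E5 →ₗ[ℝ] E5)
    have h4 : IsUnit (m : E5 →ₗ[ℝ] E5) := (LinearMap.isUnit_iff_isUnit_det _).mpr hu
    exact LinearMap.ker_eq_bot.mp (h3.mp h4)

end Wu
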