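import Pool.Agent.Lib.MP_60079e_gt.CatA
import Pool.Agent.Lib.MP_60079e_gt.WF

/-! From smooth manifolds to the two categories, part B. -/

open Set Metric Topology
open scoped ContDiff

namespace Wu

open WuCat (Cat Germ LocIso LocParam)

theorem connSumData_toC (C : Cat) {M N P : Mfd E5} {i j Φ Ψ}
    (h : ConnSumData M N P i j Φ Ψ) :
    WuCat.ConnSumData (toC C M) (toC C N) (toC C P) i j Φ Ψ where
  i_loc := fun x hx => locParam_of_opAt C (h.i_emb.1 x hx)
  i_inj := h.i_emb.2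
  j_loc := fun x hx => locParam_of_opAt C (h.j_emb.1 x hx)
  j_inj := by
    intro x hx y hy hxy
    have h1 := h.j_emb.2 (show -x ∈ ball (0 : E5) 1 by simpa using hx)
      (show -y ∈ ball (0 : E5) 1 by simpa using hy) (by simpa using hxy)
    exact neg_injective h1
  Φ_loc := fun a ha => locIso_of_opAt C (h.Φ_emb.1 a ha)
  Φ_inj := h.Φ_emb.2
  Ψ_loc := fun b hb => locIso_of_opAt C (h.Ψ_emb.1 b hb)
  Ψ_inj := h.Ψ_emb.2
  glue := h.glue
  cover := h.cover
  sep := h.sep

/-- germs are open at the point -/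
theorem catB_germ_map_nhds {C : Cat} {g : E5 → E5} {p : E5} (h : Germ C g p) :
    Filter.map g (𝓝 p) = 𝓝 (g p) := by
  cases C with
  | Top =>
    obtain ⟨e, hp, he, -⟩ := h
    have h1 : g =ᶠ[𝓝 p] e := by
      filter_upwards [e.open_source.mem_nhds hp] with y hy
      exact (he y hy).symm
    rw [Filter.map_congr h1, e.map_nhds_eq hp, he p hp]
  | Diff =>
    obtain ⟨h1, h2⟩ := h
    have hs : HasStrictFDerivAt g (fderiv ℝ g p) p :=
      h1.hasStrictFDerivAt (by simp)
    have he : ((fderiv ℝ g p).toContinuousLinearEquivOfDetNeZero h2.ne' : E5 →L[ℝ] E5) =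
        fderiv ℝ g p := by
      ext
      rfl
    rw [← he] at hs
    exact hs.map_nhds_eq_of_equiv

/-- local isomorphisms are open at the point -/
theorem catB_map_nhds {C : Cat} {M N : WuCat.Mfd C} {f : M.X → N.X} {x : M.X}
    (h : LocIso M N f x) : Filter.map f (𝓝 x) = 𝓝 (f x) := by
  obtain ⟨hc, c, -, d, -, hx, hfx, hg⟩ := h
  have h1 := catB_germ_map_nhds hg
  have h2 : f =ᶠ[𝓝 x] (fun y => d.symm ((d ∘ f ∘ c.symm) (c y))) := by
    filter_upwards [c.open_source.mem_nhds hx, hc (d.open_source.mem_nhds hfx)] with y hy hy'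
    simp only [Function.comp]
    rw [c.left_inv hy, d.left_inv hy']
  have h3 : (d ∘ f ∘ c.symm) (c x) = d (f x) := by
    simp only [Function.comp]
    rw [c.left_inv hx]
  calc Filter.map f (𝓝 x) = Filter.map (fun y => d.symm ((d ∘ f ∘ c.symm) (c y))) (𝓝 x) :=
        Filter.map_congr h2
    _ = Filter.map d.symm (Filter.map (d ∘ f ∘ c.symm) (Filter.map c (𝓝 x))) := by
        rw [Filter.map_map, Filter.map_map]
        rfl
    _ = Filter.map d.symm (𝓝 (d (f x))) := by rw [c.map_nhds_eq hx, h1, h3]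
    _ = 𝓝 (d.symm (d (f x))) := d.symm.map_nhds_eq (d.map_source hfx)
    _ = 𝓝 (f x) := by rw [d.left_inv hfx]

/-- Local isomorphisms are open maps. -/
theorem isOpen_image_of_locIso {C : Cat} {M N : WuCat.Mfd C} {f : M.X → N.X} {U : Set M.X}
    (hf : ∀ x ∈ U, LocIso M N f x) (V : Set M.X) (hV : V ⊆ U) (hVo : IsOpen V) :
    IsOpen (f '' V) := by
  rw [isOpen_iff_mem_nhds]
  rintro _ ⟨x, hx, rfl⟩
  rw [← catB_map_nhds (hf x (hV hx))]
  exact Filter.image_mem_map (hVo.mem_nhds hx)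

theorem isWu_toC (C : Cat) : WuCat.IsWu (toC C WM) := by
  obtain ⟨ι, h1, h2, h3, h4⟩ := isWu_WM
  exact ⟨ι, h1, h2, h3, fun _ => h4⟩

end Wu
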