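import Mathlib

/-!
# Closed oriented 5-manifolds in `Top` and `Diff`, connected sums, the Wu manifold

Statement-level definitions for MP_60079e_gt.
-/

open Set Metric
open scoped ContDiff

namespace WuCat

/-- Model space of dimension `5`. -/
abbrev E5 : Type := EuclideanSpace ℝ (Fin 5)

/-- The two categories of manifolds. -/
inductive Cat
  | Top
  | Diff

/-- `Germ C g x`: the map `g` is, near `x`, an orientation preserving local isomorphism of
`ℝ⁵` in the category `C`.
* `Diff`: `g` is smooth at `x` with positive Jacobian determinant.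
* `Top`: near `x` the map `g` is a homeomorphism between open sets, of local degree `1` at `x`:
  for some `ε > 0` the map `u ↦ g (x + ε u) - g x` of the unit sphere to `ℝ⁵ \ {0}` is homotopic
  to (the restriction of) a linear map of positive determinant. -/
def Germ : Cat → (E5 → E5) → E5 → Prop
  | .Diff, g, x => ContDiffAt ℝ ∞ g x ∧ 0 < (fderiv ℝ g x).det
  | .Top, g, x => ∃ e : OpenPartialHomeomorph E5 E5, x ∈ e.source ∧ (∀ y ∈ e.source, e y = g y) ∧
      ∃ ε : ℝ, 0 < ε ∧ closedBall x ε ⊆ e.source ∧ ∃ (A : E5 →L[ℝ] E5) (H : ℝ → E5 → E5),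
        0 < A.det ∧ ContinuousOn (fun p : ℝ × E5 => H p.1 p.2) (Icc 0 1 ×ˢ sphere 0 1) ∧
        (∀ t ∈ Icc (0 : ℝ) 1, ∀ u ∈ sphere (0 : E5) 1, H t u ≠ 0) ∧
        ∀ u ∈ sphere (0 : E5) 1, H 0 u = A u ∧ H 1 u = g (x + ε • u) - g x

/-- An oriented 5-manifold (without boundary) in the category `C`: a Hausdorff space with an
atlas of charts to open subsets of `ℝ⁵` whose transition maps are orientation preserving local
isomorphisms of `C`. -/
structure Mfd (C : Cat) where
  /-- the underlying space -/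
  X : Type
  [top : TopologicalSpace X]
  [t2 : T2Space X]
  /-- the oriented atlas -/
  atlas : Set (OpenPartialHomeomorph X E5)
  cover : ∀ x : X, ∃ c ∈ atlas, x ∈ c.source
  compat : ∀ c ∈ atlas, ∀ d ∈ atlas, ∀ x : X, x ∈ c.source → x ∈ d.source →
    Germ C (d ∘ c.symm) (c x)

attribute [instance] Mfd.top Mfd.t2

variable {C : Cat}

/-- Closed manifold: compact and connected (in particular non-empty). -/
def Mfd.Closed (M : Mfd C) : Prop := CompactSpace M.X ∧ ConnectedSpace M.X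

/-- `f : M → N` is an orientation preserving local isomorphism at `x`. -/
def LocIso (M N : Mfd C) (f : M.X → N.X) (x : M.X) : Prop :=
  ContinuousAt f x ∧ ∃ c ∈ M.atlas, ∃ d ∈ N.atlas, x ∈ c.source ∧ f x ∈ d.source ∧
    Germ C (d ∘ f ∘ c.symm) (c x)

/-- `i : ℝ⁵ → M` is an orientation preserving local isomorphism at `x`. -/
def LocParam (M : Mfd C) (i : E5 → M.X) (x : E5) : Prop :=
  ContinuousAt i x ∧ ∃ d ∈ M.atlas, i x ∈ d.source ∧ Germ C (d ∘ i) x

/-- The gluing data of a connected sum `P = M # N` (Kervaire and Milnor): an orientation preserving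
embedding `i` of the open unit ball in `M`, an orientation reversing embedding `j` of the open
unit ball in `N` (`x ↦ j (-x)` preserves the orientation; `-1` reverses it in dimension `5`), and
`P` is obtained from `M \ {i 0}` and `N \ {j 0}` by gluing `i (t u)` to `j ((1 - t) u)` for
`0 < t < 1` and unit vectors `u`: `Φ`, `Ψ` are orientation preserving open embeddings of
`M \ {i 0}`, `N \ {j 0}` in `P`, which cover `P` and meet exactly according to this rule. -/
structure ConnSumData (M N P : Mfd C) (i : E5 → M.X) (j : E5 → N.X) (Φ : M.X → P.X)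
    (Ψ : N.X → P.X) : Prop where
  i_loc : ∀ x ∈ ball (0 : E5) 1, LocParam M i x
  i_inj : InjOn i (ball (0 : E5) 1)
  j_loc : ∀ x ∈ ball (0 : E5) 1, LocParam N (fun x => j (-x)) x
  j_inj : InjOn j (ball (0 : E5) 1)
  Φ_loc : ∀ a, a ≠ i 0 → LocIso M P Φ a
  Φ_inj : InjOn Φ {i 0}ᶜ
  Ψ_loc : ∀ b, b ≠ j 0 → LocIso N P Ψ b
  Ψ_inj : InjOn Ψ {j 0}ᶜ
  glue : ∀ x : E5, 0 < ‖x‖ → ‖x‖ < 1 → Φ (i x) = Ψ (j (((1 - ‖x‖) / ‖x‖) • x))
  cover : ∀ p : P.X, (∃ a, a ≠ i 0 ∧ Φ a = p) ∨ (∃ b, b ≠ j 0 ∧ Ψ b = p)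
  sep : ∀ a b, a ≠ i 0 → b ≠ j 0 → Φ a = Ψ b → ∃ x : E5, 0 < ‖x‖ ∧ ‖x‖ < 1 ∧ a = i x

/-- `P` is a connected sum of `M` and `N`. -/
def IsConnSum (M N P : Mfd C) : Prop := ∃ i j Φ Ψ, ConnSumData M N P i j Φ Ψ

/-- `W` divides `X` in the monoid of closed connected oriented 5-manifolds of `C`. -/
def Divides (W X : Mfd C) : Prop := ∃ Y : Mfd C, Y.Closed ∧ IsConnSum W Y X

/-- `W` is (a copy, with one of its orientations, of) the Wu manifold
`SU(3)/SO(3) ≅ {A Aᵀ : A ∈ SU(3)} ⊆ ℂ^{3×3}`: there is a continuous injection `ι` of `W` in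
`ℂ^{3×3}` with image `{A Aᵀ : A ∈ SU(3)}`, in the category `Diff` moreover a smooth immersion. -/
def IsWu (W : Mfd C) : Prop :=
  ∃ ι : W.X → (Fin 3 → Fin 3 → ℂ), Continuous ι ∧ Function.Injective ι ∧
    range ι = {S | ∃ A ∈ Matrix.specialUnitaryGroup (Fin 3) ℂ, S = A * A.transpose} ∧
    (C = Cat.Diff → ∀ x : W.X, ∃ c ∈ W.atlas, x ∈ c.source ∧
      ContDiffAt ℝ ∞ (ι ∘ c.symm) (c x) ∧ Function.Injective (fderiv ℝ (ι ∘ c.symm) (c x)))

end WuCat
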