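import Pool.Agent.Lib.MP_60079e_gt.CholA

/-! Local unitary square roots of symmetric unitary matrices. -/

open Set Metric Topology
open scoped ContDiff ComplexOrder

namespace Wu

/-- the real matrix `2 + 2 Re S` -/
private noncomputable def cholG (S : Matrix (Fin 3) (Fin 3) ℂ) : Matrix (Fin 3) (Fin 3) ℝ :=
  Matrix.of fun i j => 2 * (if i = j then 1 else 0) + 2 * (S i j).re

/-- complexification of a real matrix -/
private noncomputable def cholC (A : Matrix (Fin 3) (Fin 3) ℝ) : Matrix (Fin 3) (Fin 3) ℂ :=
  A.map (Complex.ofRealHom : ℝ →+* ℂ)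

private theorem cholC_mul (A B : Matrix (Fin 3) (Fin 3) ℝ) : cholC (A * B) = cholC A * cholC B :=
  Matrix.map_mul

private theorem cholC_one : cholC 1 = 1 := by
  unfold cholC
  exact Matrix.map_one _ (map_zero _) (map_one _)

private theorem cholC_transpose (A : Matrix (Fin 3) (Fin 3) ℝ) :
    cholC A.transpose = (cholC A).transpose := by
  ext i j
  rfl

private theorem cholC_star (A : Matrix (Fin 3) (Fin 3) ℝ) :
    (cholC A).conjTranspose = (cholC A).transpose := by
  ext i j
  simp [cholC, Matrix.conjTranspose_apply]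

private theorem cholG_eq {S : Matrix (Fin 3) (Fin 3) ℂ}
    (hS : S ∈ Matrix.unitaryGroup (Fin 3) ℂ) (hsym : S.transpose = S) :
    (1 + S).conjTranspose * (1 + S) = cholC (cholG S) := by
  have h1 : S.conjTranspose * S = 1 := Matrix.mem_unitaryGroup_iff'.1 hS
  have h2 : (1 + S).conjTranspose * (1 + S) = 2 • (1 : Matrix (Fin 3) (Fin 3) ℂ) +
      (S + S.conjTranspose) := by
    rw [Matrix.conjTranspose_add, Matrix.conjTranspose_one, add_mul, mul_add, mul_add, h1]
    simp only [one_mul, mul_one]
    rw [two_smul]
    abel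
  rw [h2]
  ext i j
  have h3 : S j i = S i j := by
    have := congrFun (congrFun hsym i) j
    simpa [Matrix.transpose_apply] using this
  simp only [Matrix.add_apply, Matrix.smul_apply, Matrix.conjTranspose_apply, h3, cholC, cholG,
    Matrix.map_apply, Matrix.of_apply, Matrix.one_apply]
  apply Complex.ext
  · by_cases hij : i = j
    · simp [hij]; ring
    · simp [hij]; ring
  · by_cases hij : i = j
    · simp [hij]
    · simp [hij]

private theorem cholG_posDef {S : Matrix (Fin 3) (Fin 3) ℂ}
    (hS : S ∈ Matrix.unitaryGroup (Fin 3) ℂ) (hsym : S.transpose = S) (hdet : (1 + S).det ≠ 0) :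
    (cholG S).PosDef := by
  have hinj : Function.Injective (1 + S).mulVec := by
    apply Matrix.mulVec_injective_of_isUnit
    rw [Matrix.isUnit_iff_isUnit_det]
    exact isUnit_iff_ne_zero.2 hdet
  have h1 : ((1 + S).conjTranspose * (1 + S)).PosDef := Matrix.PosDef.conjTranspose_mul_self _ hinj
  rw [cholG_eq hS hsym] at h1
  rw [Matrix.posDef_iff_dotProduct_mulVec] at h1 ⊢
  refine ⟨?_, fun x hx => ?_⟩
  · ext i j
    have h3 : S j i = S i j := by
      have := congrFun (congrFun hsym i) j
      simpa [Matrix.transpose_apply] using this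
    simp [Matrix.conjTranspose_apply, cholG, h3, eq_comm]
  · have hx' : (fun i => ((x i : ℝ) : ℂ)) ≠ 0 := by
      intro h
      apply hx
      funext i
      have := congrFun h i
      simpa using this
    have h2 := h1.2 hx'
    have h3 : star (fun i => ((x i : ℝ) : ℂ)) ⬝ᵥ (cholC (cholG S)).mulVec (fun i => ((x i : ℝ) : ℂ))
        = ((star x ⬝ᵥ (cholG S).mulVec x : ℝ) : ℂ) := by
      simp [dotProduct, Matrix.mulVec, cholC]
    rw [h3] at h2
    exact_mod_cast h2

private theorem cholG_continuous : Continuous cholG := by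
  unfold cholG
  refine continuous_matrix fun i j => ?_
  simp only [Matrix.of_apply]
  have : Continuous fun S : Matrix (Fin 3) (Fin 3) ℂ => S i j := continuous_id.matrix_elem i j
  fun_prop

private theorem cholC_continuous : Continuous cholC := by
  unfold cholC
  exact continuous_id.matrix_map Complex.continuous_ofReal

/-- Local sections of `V ↦ V Vᵀ`: for symmetric unitary `S` without eigenvalue `-1`. -/
theorem exists_unitaryRoot : ∃ σ : Matrix (Fin 3) (Fin 3) ℂ → Matrix (Fin 3) (Fin 3) ℂ,
    ∀ S : Matrix (Fin 3) (Fin 3) ℂ, S ∈ Matrix.unitaryGroup (Fin 3) ℂ → S.transpose = S →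
      (1 + S).det ≠ 0 → ContinuousAt σ S ∧ σ S ∈ Matrix.unitaryGroup (Fin 3) ℂ ∧
        σ S * (σ S).transpose = S := by
  obtain ⟨T, -, hT⟩ := exists_chol 3
  refine ⟨fun S => (1 + S) * cholC (T (cholG S)), fun S hS hsym hdet => ?_⟩
  have hG := cholG_posDef hS hsym hdet
  obtain ⟨hc, h1⟩ := hT _ hG
  have hGe := cholG_eq hS hsym
  have h1c : (cholC (T (cholG S))).transpose * cholC (cholG S) * cholC (T (cholG S)) = 1 := by
    rw [← cholC_transpose, ← cholC_mul, ← cholC_mul, h1, cholC_one]
  refine ⟨?_, ?_, ?_⟩
  · have h2 : ContinuousAt (fun S => T (cholG S)) S :=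
      ContinuousAt.comp (f := cholG) (g := T) hc cholG_continuous.continuousAt
    have h3 : ContinuousAt (fun S => cholC (T (cholG S))) S :=
      ContinuousAt.comp (f := fun S => T (cholG S)) (g := cholC)
        cholC_continuous.continuousAt h2
    have h4 : ContinuousAt (fun S : Matrix (Fin 3) (Fin 3) ℂ => 1 + S) S :=
      (continuous_const.add continuous_id).continuousAt
    exact h4.mul h3
  · rw [Matrix.mem_unitaryGroup_iff']
    show ((1 + S) * cholC (T (cholG S))).conjTranspose * ((1 + S) * cholC (T (cholG S))) = 1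
    rw [Matrix.conjTranspose_mul, cholC_star]
    calc (cholC (T (cholG S))).transpose * (1 + S).conjTranspose *
          ((1 + S) * cholC (T (cholG S)))
        = (cholC (T (cholG S))).transpose * ((1 + S).conjTranspose * (1 + S)) *
          cholC (T (cholG S)) := by simp only [mul_assoc]
      _ = 1 := by rw [hGe, h1c]
  · have h5 : S.conjTranspose * S = 1 := Matrix.mem_unitaryGroup_iff'.1 hS
    have hP : (1 + S).conjTranspose * S = 1 + S := by
      rw [Matrix.conjTranspose_add, Matrix.conjTranspose_one, add_mul, h5, one_mul, add_comm]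
    have hPt : (1 + S).transpose = 1 + S := by
      rw [Matrix.transpose_add, Matrix.transpose_one, hsym]
    obtain ⟨X, hX⟩ : ∃ X, X = cholC (T (cholG S)) * (cholC (T (cholG S))).transpose := ⟨_, rfl⟩
    have h6 : X * cholC (cholG S) = 1 := by
      have h7 : (cholC (T (cholG S))).transpose * cholC (cholG S) * cholC (T (cholG S)) = 1 := h1c
      have h8 := mul_eq_one_comm.1 h7
      rw [hX, mul_assoc]
      exact h8
    have h9 : cholC (cholG S) * X = 1 := mul_eq_one_comm.1 h6
    have h10 : (1 + S).conjTranspose * ((1 + S) * X) = 1 := by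
      rw [← mul_assoc, hGe, h9]
    have h11 : ((1 + S) * X) * (1 + S).conjTranspose = 1 := mul_eq_one_comm.1 h10
    show (1 + S) * cholC (T (cholG S)) * ((1 + S) * cholC (T (cholG S))).transpose = S
    rw [Matrix.transpose_mul, hPt]
    calc (1 + S) * cholC (T (cholG S)) * ((cholC (T (cholG S))).transpose * (1 + S))
        = ((1 + S) * X) * (1 + S) := by rw [hX]; simp only [mul_assoc]
      _ = ((1 + S) * X) * ((1 + S).conjTranspose * S) := by rw [hP]
      _ = (((1 + S) * X) * (1 + S).conjTranspose) * S := by simp only [mul_assoc]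
      _ = S := by rw [h11, one_mul]

end Wu
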