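import Mathlib

/-! Continuous orthonormalisation. -/

open Set Metric Topology
open scoped ContDiff

namespace Wu

/-- one step of the Cholesky algorithm -/
noncomputable def CholA_E {n : ℕ} (k : Fin n) (G : Matrix (Fin n) (Fin n) ℝ) :
    Matrix (Fin n) (Fin n) ℝ :=
  fun i j => if i = k then (if j = k then (Real.sqrt (G k k))⁻¹ else -(G k j / G k k))
    else if i = j then 1 else 0

theorem CholA_mulE {n : ℕ} (k : Fin n) (G X : Matrix (Fin n) (Fin n) ℝ) (a j : Fin n) :
    (X * CholA_E k G) a j = (if j = k then 0 else X a j) + X a k * CholA_E k G k j := by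
  have h : ∀ b, X a b * CholA_E k G b j =
      (if b = k then X a k * CholA_E k G k j else 0) +
        (if b = j then (if j = k then 0 else X a j) else 0) := by
    intro b
    by_cases hb : b = k
    · subst hb
      by_cases hj : b = j
      · subst hj; simp
      · simp [hj]
    · by_cases hj : b = j
      · subst hj; simp [CholA_E, hb]
      · simp [CholA_E, hb, hj]
  rw [Matrix.mul_apply, Finset.sum_congr rfl (fun b _ => h b), Finset.sum_add_distrib,
    Finset.sum_ite_eq', Finset.sum_ite_eq']
  simp only [Finset.mem_univ, if_true]
  ring

theorem CholA_tmul {n : ℕ} (k : Fin n) (G X : Matrix (Fin n) (Fin n) ℝ) (i j : Fin n) :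
    ((CholA_E k G).transpose * X) i j =
      (if i = k then 0 else X i j) + CholA_E k G k i * X k j := by
  have h := CholA_mulE k G X.transpose j i
  have h2 : ((CholA_E k G).transpose * X) i j = (X.transpose * CholA_E k G) j i := by
    rw [← Matrix.transpose_apply (X.transpose * CholA_E k G), Matrix.transpose_mul,
      Matrix.transpose_transpose]
  rw [h2, h]
  simp only [Matrix.transpose_apply]
  ring

theorem CholA_cont {n : ℕ} (k : Fin n) (G : Matrix (Fin n) (Fin n) ℝ) (hG : 0 < G k k) :
    ContinuousAt (CholA_E k) G := by
  have hk : ∀ i j : Fin n, ContinuousAt (fun G : Matrix (Fin n) (Fin n) ℝ => G i j) G :=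
    fun i j => (continuous_id.matrix_elem i j).continuousAt
  refine continuousAt_pi.2 fun i => continuousAt_pi.2 fun j => ?_
  unfold CholA_E
  by_cases hi : i = k
  · by_cases hj : j = k
    · simp only [hi, hj, if_true]
      exact ((Real.continuous_sqrt.continuousAt).comp (hk k k)).inv₀
        (Real.sqrt_pos.2 hG).ne'
    · simp only [hi, hj, if_true, if_false]
      exact ((hk k j).div (hk k k) hG.ne').neg
  · simp only [hi, if_false]
    exact continuousAt_const

theorem CholA_step {n : ℕ} (t : Finset (Fin n)) :
    ∃ T : Matrix (Fin n) (Fin n) ℝ → Matrix (Fin n) (Fin n) ℝ,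
      T 1 = 1 ∧ ∀ G : Matrix (Fin n) (Fin n) ℝ, G.PosDef →
        (∀ i, i ∉ t → ∀ j, G i j = if i = j then 1 else 0) →
        ContinuousAt T G ∧ (T G).transpose * G * T G = 1 := by
  induction t using Finset.induction_on with
  | empty =>
    refine ⟨fun _ => 1, rfl, fun G _ h => ⟨continuousAt_const, ?_⟩⟩
    rw [Matrix.transpose_one, one_mul, mul_one]
    ext i j
    rw [h i (Finset.notMem_empty i) j, Matrix.one_apply]
  | insert k t hk ih =>
    obtain ⟨T, hT1, hT⟩ := ih
    refine ⟨fun G => CholA_E k G * T ((CholA_E k G).transpose * G * CholA_E k G), ?_, ?_⟩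
    · have h1 : CholA_E k (1 : Matrix (Fin n) (Fin n) ℝ) = 1 := by
        ext i j
        unfold CholA_E
        by_cases hi : i = k
        · subst hi
          by_cases hj : j = i
          · subst hj; simp
          · simp [hj, Ne.symm hj]
        · simp [hi, Matrix.one_apply]
      show CholA_E k 1 * T ((CholA_E k 1).transpose * 1 * CholA_E k 1) = 1
      rw [h1, Matrix.transpose_one, mul_one, mul_one, hT1, mul_one]
    · intro G hG hcl
      have hsym : ∀ i j, G i j = G j i := by
        intro i j
        have := hG.isHermitian.apply i j
        simpa using this.symm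
      have hpos : 0 < G k k := hG.diag_pos
      have hs : 0 < Real.sqrt (G k k) := Real.sqrt_pos.2 hpos
      have hss : Real.sqrt (G k k) * Real.sqrt (G k k) = G k k := Real.mul_self_sqrt hpos.le
      set E := CholA_E k G with hE
      have hEkk : E k k = (Real.sqrt (G k k))⁻¹ := by simp [hE, CholA_E]
      have hEkj : ∀ j, j ≠ k → E k j = -(G k j / G k k) := by
        intro j hj; simp [hE, CholA_E, hj]
      have hinj : Function.Injective E.mulVec := by
        intro x y hxy
        have hoff : ∀ (z : Fin n → ℝ) (i : Fin n), i ≠ k → E.mulVec z i = z i := by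
          intro z i hi
          rw [Matrix.mulVec, dotProduct]
          have : ∀ j, E i j * z j = if i = j then z i else 0 := by
            intro j
            by_cases hij : i = j
            · subst hij; simp [hE, CholA_E, hi]
            · simp [hE, CholA_E, hi, hij]
          rw [Finset.sum_congr rfl (fun j _ => this j), Finset.sum_ite_eq]
          simp
        have hne : ∀ i, i ≠ k → x i = y i := by
          intro i hi
          rw [← hoff x i hi, ← hoff y i hi, hxy]
        funext i
        by_cases hi : i = k
        · subst hi
          have h1 : E.mulVec x i = E.mulVec y i := by rw [hxy]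
          rw [Matrix.mulVec, Matrix.mulVec, dotProduct, dotProduct,
            ← Finset.add_sum_erase _ _ (Finset.mem_univ i),
            ← Finset.add_sum_erase _ (fun j => E i j * y j) (Finset.mem_univ i)] at h1
          have h2 : ∑ j ∈ Finset.univ.erase i, E i j * x j =
              ∑ j ∈ Finset.univ.erase i, E i j * y j := by
            refine Finset.sum_congr rfl fun j hj => ?_
            rw [hne j (Finset.ne_of_mem_erase hj)]
          rw [h2] at h1
          have h3 : E i i * x i = E i i * y i := by linarith
          rw [hEkk] at h3
          exact mul_left_cancel₀ (inv_ne_zero hs.ne') h3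
        · exact hne i hi
      have hM : (E.transpose * G * E).PosDef := by
        have := hG.conjTranspose_mul_mul_same (B := E) hinj
        simpa [Matrix.conjTranspose_eq_transpose_of_trivial] using this
      have hME : ∀ i j, (E.transpose * G * E) i j =
          (if i = k then 0 else (G * E) i j) + E k i * (G * E) k j := by
        intro i j
        rw [Matrix.mul_assoc, CholA_tmul]
      have hGE : ∀ a j, (G * E) a j = (if j = k then 0 else G a j) + G a k * E k j :=
        fun a j => CholA_mulE k G G a j
      have hkk : (G * E) k k = Real.sqrt (G k k) := by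
        rw [hGE, if_pos rfl, hEkk, zero_add]
        field_simp
        nlinarith
      have hkj : ∀ j, j ≠ k → (G * E) k j = 0 := by
        intro j hj
        rw [hGE, if_neg hj, hEkj j hj]
        field_simp
        ring
      have hclM : ∀ i, i ∉ t → ∀ j, (E.transpose * G * E) i j = if i = j then 1 else 0 := by
        intro i hi j
        rw [hME]
        by_cases hik : i = k
        · subst hik
          rw [if_pos rfl, zero_add]
          by_cases hj : j = i
          · subst hj
            rw [if_pos rfl, hkk, hEkk]
            exact inv_mul_cancel₀ hs.ne'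
          · rw [hkj j hj, mul_zero, if_neg (Ne.symm hj)]
        · have hi' : i ∉ insert k t := by
            rw [Finset.mem_insert]
            tauto
          have h0 : G k i = 0 := by
            rw [hsym k i, hcl i hi' k, if_neg hik]
          have h0' : G i k = 0 := by rw [hcl i hi' k, if_neg hik]
          rw [if_neg hik, hEkj i hik, h0, zero_div, neg_zero, zero_mul, add_zero, hGE, h0', zero_mul,
            add_zero]
          by_cases hj : j = k
          · rw [if_pos hj, hj, if_neg hik]
          · rw [if_neg hj, hcl i hi' j]
      obtain ⟨hc, hid⟩ := hT _ hM hclM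
      have hEc : ContinuousAt (CholA_E k) G := CholA_cont k G hpos
      constructor
      · refine hEc.mul (ContinuousAt.comp (g := T) hc ?_)
        exact (((continuous_id.matrix_transpose).continuousAt.comp hEc).mul continuousAt_id).mul
          hEc
      · show (E * T (E.transpose * G * E)).transpose * G * (E * T (E.transpose * G * E)) = 1
        rw [Matrix.transpose_mul]
        calc (T (E.transpose * G * E)).transpose * E.transpose * G * (E * T (E.transpose * G * E))
            = (T (E.transpose * G * E)).transpose * (E.transpose * G * E) *
                T (E.transpose * G * E) := by simp only [Matrix.mul_assoc]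
          _ = 1 := hid

/-- A continuous choice of `T` with `Tᵀ G T = 1` for positive definite `G`. -/
theorem exists_chol (n : ℕ) : ∃ T : Matrix (Fin n) (Fin n) ℝ → Matrix (Fin n) (Fin n) ℝ,
    T 1 = 1 ∧ ∀ G : Matrix (Fin n) (Fin n) ℝ, G.PosDef →
      ContinuousAt T G ∧ (T G).transpose * G * T G = 1 := by
  obtain ⟨T, h1, h2⟩ := CholA_step (n := n) Finset.univ
  exact ⟨T, h1, fun G hG => h2 G hG (fun i hi => absurd (Finset.mem_univ i) hi)⟩

end Wu
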