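import Pool.Agent.Lib.MP_60079e_gt.WGb

/-! Collapsing the complement of an open copy of `W \ {m}` in `W`. -/

open Set Metric Topology Matrix
open scoped ContDiff

namespace Wu

theorem exists_collapse (m : WX) (Φ' : WX → WX) (hc : ContinuousOn Φ' {m}ᶜ)
    (hinj : InjOn Φ' {m}ᶜ) (hopen : ∀ U : Set WX, U ⊆ {m}ᶜ → IsOpen U → IsOpen (Φ' '' U))
    (K : Set WX) (hK : IsCompact K) (hmK : m ∉ K) :
    ∃ (p : WX → WX) (κ : E5 → WX) (q : WX → E5), Continuous p ∧ (∀ x ∈ K, p (Φ' x) = x) ∧
      ContinuousOn κ (closedBall 0 1) ∧ ContinuousOn q (Φ' '' {m}ᶜ)ᶜ ∧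
      ∀ y, y ∉ Φ' '' {m}ᶜ → q y ∈ closedBall (0 : E5) 1 ∧ p y = κ (q y) := by
  classical
  have hcomp : CompactSpace WX := closed_WM.1
  obtain ⟨c, -, hmc⟩ := WM.cover m
  change OpenPartialHomeomorph WX E5 at c
  -- a small ball in the chart
  have hNopen : IsOpen (c.target ∩ c.symm ⁻¹' Kᶜ) :=
    c.isOpen_inter_preimage_symm hK.isClosed.isOpen_compl
  have hcm : c m ∈ c.target ∩ c.symm ⁻¹' Kᶜ := by
    refine ⟨c.map_source hmc, ?_⟩
    show c.symm (c m) ∉ K
    rw [c.left_inv hmc]; exact hmK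
  obtain ⟨ε, hε, hεN⟩ := Metric.nhds_basis_closedBall.mem_iff.1 (hNopen.mem_nhds hcm)
  let a : E5 → E5 := fun u => c m + ε • u
  have hac : Continuous a := by fun_prop
  have ha : ∀ u ∈ closedBall (0 : E5) 1, a u ∈ closedBall (c m) ε := by
    intro u hu
    rw [mem_closedBall_zero_iff] at hu
    simp only [a, mem_closedBall, dist_self_add_left, norm_smul, Real.norm_eq_abs, abs_of_pos hε]
    nlinarith
  have haN : ∀ u ∈ closedBall (0 : E5) 1, a u ∈ c.target ∧ c.symm (a u) ∉ K :=
    fun u hu => hεN (ha u hu)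
  let κ : E5 → WX := fun u => c.symm (a u)
  have hκc : ContinuousOn κ (closedBall 0 1) :=
    c.continuousOn_symm.comp hac.continuousOn (fun u hu => (haN u hu).1)
  have hκinj : InjOn κ (closedBall 0 1) := by
    intro u hu v hv h
    have h1 : a u = a v := c.symm.injOn (haN u hu).1 (haN v hv).1 h
    have h2 : ε • u = ε • v := add_left_cancel h1
    exact smul_right_injective E5 hε.ne' h2
  have hκ0 : κ 0 = m := by
    show c.symm (c m + ε • (0 : E5)) = m
    rw [smul_zero, add_zero, c.left_inv hmc]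
  have h0mem : (0 : E5) ∈ closedBall (0 : E5) 1 := by simp
  let U : Set WX := κ '' ball 0 1
  let B : Set WX := κ '' closedBall 0 1
  have hUB : U ⊆ B := image_mono ball_subset_closedBall
  have hUopen : IsOpen U := by
    have h1 : U = c.symm '' ball (c m) ε := by
      ext x
      constructor
      · rintro ⟨u, hu, rfl⟩
        refine ⟨a u, ?_, rfl⟩
        rw [mem_ball_zero_iff] at hu
        simp only [a, mem_ball, dist_self_add_left, norm_smul, Real.norm_eq_abs, abs_of_pos hε]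
        nlinarith
      · rintro ⟨z, hz, rfl⟩
        refine ⟨ε⁻¹ • (z - c m), ?_, ?_⟩
        · rw [mem_ball_zero_iff, norm_smul, norm_inv, Real.norm_eq_abs, abs_of_pos hε,
            inv_mul_lt_iff₀ hε, mul_one, ← dist_eq_norm]
          exact hz
        · show c.symm (c m + ε • ε⁻¹ • (z - c m)) = c.symm z
          rw [smul_inv_smul₀ hε.ne', add_sub_cancel]
    rw [h1]
    exact c.isOpen_image_symm_of_subset_target isOpen_ball
      (fun z hz => (hεN (ball_subset_closedBall hz)).1)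
  have hBclosed : IsClosed B := ((isCompact_closedBall (0 : E5) 1).image_of_continuousOn hκc).isClosed
  have hmU : m ∈ U := ⟨0, by simp, hκ0⟩
  have hUc : Uᶜ ⊆ ({m}ᶜ : Set WX) := by
    intro x hx h
    apply hx
    rw [mem_singleton_iff.1 h]; exact hmU
  have hBc : Bᶜ ⊆ Uᶜ := compl_subset_compl.2 hUB
  let Z : Set WX := Φ' '' Uᶜ
  have hZ : IsClosed Z := ((hUopen.isClosed_compl.isCompact).image_of_continuousOn
    (hc.mono hUc)).isClosed
  let V : Set WX := Φ' '' Bᶜ
  have hV : IsOpen V := hopen Bᶜ (hBc.trans hUc) hBclosed.isOpen_compl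
  have hVZ : V ⊆ Z := image_mono hBc
  -- the inverse on `Z`
  have : Nonempty WX := ⟨m⟩
  let inv : WX → WX := Function.invFunOn Φ' Uᶜ
  have hinv : ∀ x ∈ Uᶜ, inv (Φ' x) = x := by
    intro x hx
    have h1 : ∃ a ∈ Uᶜ, Φ' a = Φ' x := ⟨x, hx, rfl⟩
    exact hinj (hUc (Function.invFunOn_mem h1)) (hUc hx) (Function.invFunOn_eq h1)
  have hinvc : ContinuousOn inv Z := by
    rw [continuousOn_iff_isClosed]
    intro t ht
    refine ⟨Φ' '' (t ∩ Uᶜ), ?_, ?_⟩
    · exact (((ht.inter hUopen.isClosed_compl).isCompact).image_of_continuousOn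
        (hc.mono (inter_subset_right.trans hUc))).isClosed
    · ext y
      constructor
      · rintro ⟨h1, x, hx, rfl⟩
        have h2 : inv (Φ' x) ∈ t := h1
        rw [hinv x hx] at h2
        exact ⟨⟨x, ⟨h2, hx⟩, rfl⟩, ⟨x, hx, rfl⟩⟩
      · rintro ⟨⟨x, ⟨h2, hx⟩, rfl⟩, h3⟩
        refine ⟨?_, h3⟩
        show inv (Φ' x) ∈ t
        rw [hinv x hx]; exact h2
  -- the extension
  have hS : ∀ u : sphere (0 : E5) 1, (u : E5) ∈ closedBall (0 : E5) 1 := fun u =>
    sphere_subset_closedBall u.2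
  have hSm : ∀ u : sphere (0 : E5) 1, κ u ∈ ({m}ᶜ : Set WX) := by
    intro u h
    have h1 : κ u = κ 0 := by rw [hκ0]; exact h
    have h2 := hκinj (hS u) h0mem h1
    have h3 := u.2
    rw [h2] at h3
    simp at h3
  let e : sphere (0 : E5) 1 → WX := fun u => Φ' (κ u)
  have hec : Continuous e := by
    refine hc.comp_continuous ?_ hSm
    exact hκc.comp_continuous continuous_subtype_val hS
  have heinj : Function.Injective e := by
    intro u v h
    have h1 := hinj (hSm u) (hSm v) h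
    exact Subtype.ext (hκinj (hS u) (hS v) h1)
  have hee : IsClosedEmbedding e := hec.isClosedEmbedding heinj
  have hTE : TietzeExtension (closedBall (0 : E5) 1) :=
    Set.instTietzeExtensionUnitClosedBall (𝕜 := ℝ)
  obtain ⟨q, hq1, hq2⟩ := ContinuousMap.exists_extension_forall_mem hee
    (⟨fun u => (u : E5), continuous_subtype_val⟩ : C(sphere (0 : E5) 1, E5))
    (t := closedBall (0 : E5) 1) hS
  have hq : ∀ u : sphere (0 : E5) 1, q (Φ' (κ u)) = u := fun u =>
    congrArg (fun f : C(sphere (0 : E5) 1, E5) => f u) hq2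
  let p : WX → WX := fun y => if y ∈ Z then inv y else κ (q y)
  have hp1 : ∀ y ∈ Z, p y = inv y := fun y hy => if_pos hy
  have hp2 : ∀ y ∈ Vᶜ, p y = κ (q y) := by
    intro y hy
    by_cases hyZ : y ∈ Z
    · rw [hp1 y hyZ]
      obtain ⟨x, hx, rfl⟩ := hyZ
      rw [hinv x hx]
      have hxB : x ∈ B := by
        by_contra h
        exact hy ⟨x, h, rfl⟩
      obtain ⟨u, hu, rfl⟩ := hxB
      have hu1 : u ∈ sphere (0 : E5) 1 := by
        rw [mem_closedBall_zero_iff] at hu
        rw [mem_sphere_zero_iff_norm]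
        refine le_antisymm hu ?_
        by_contra h
        exact hx ⟨u, by rw [mem_ball_zero_iff]; exact not_le.1 h, rfl⟩
      rw [hq ⟨u, hu1⟩]
    · exact if_neg hyZ
  have hpc1 : ContinuousOn p Z := hinvc.congr hp1
  have hpc2 : ContinuousOn p Vᶜ :=
    (hκc.comp q.continuous.continuousOn (fun y _ => hq1 y)).congr hp2
  have hpc : Continuous p := by
    rw [← continuousOn_univ]
    have : (univ : Set WX) = Z ∪ Vᶜ := by
      ext y
      simp only [mem_univ, mem_union, mem_compl_iff, true_iff]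
      by_cases hy : y ∈ V
      · exact Or.inl (hVZ hy)
      · exact Or.inr hy
    rw [this]
    exact hpc1.union_of_isClosed hpc2 hZ hV.isClosed_compl
  refine ⟨p, κ, q, hpc, ?_, hκc, q.continuous.continuousOn, ?_⟩
  · intro x hx
    have hxU : x ∈ Uᶜ := by
      rintro ⟨u, hu, rfl⟩
      exact (haN u (ball_subset_closedBall hu)).2 hx
    rw [hp1 _ ⟨x, hxU, rfl⟩]
    exact hinv x hxU
  · intro y hy
    refine ⟨hq1 y, hp2 y ?_⟩
    rintro ⟨x, hx, rfl⟩
    exact hy ⟨x, hUc (hBc hx), rfl⟩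

end Wu
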