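import Mathlib

/-!
# Definitions for the Wu manifold problem (MP_60079e_gt)

Oriented smooth manifolds, orientation preserving local diffeomorphisms, open embeddings,
the connected sum (in the form of Kervaire and Milnor), divisibility, the Wu manifold.
-/

open Set Metric
open scoped ContDiff

namespace Wu

/-- Model space of dimension `5`. -/
abbrev E5 : Type := EuclideanSpace ℝ (Fin 5)

/-- An oriented smooth manifold (without boundary, not necessarily compact or connected),
modelled on the real normed space `E`: a Hausdorff space with an atlas of charts whose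
transition maps are smooth with positive Jacobian determinant. -/
structure Mfd (E : Type) [NormedAddCommGroup E] [NormedSpace ℝ E] where
  /-- the underlying space -/
  X : Type
  [top : TopologicalSpace X]
  [t2 : T2Space X]
  /-- the oriented atlas -/
  atlas : Set (OpenPartialHomeomorph X E)
  cover : ∀ x : X, ∃ c ∈ atlas, x ∈ c.source
  compat : ∀ c ∈ atlas, ∀ d ∈ atlas, ∀ x : X, x ∈ c.source → x ∈ d.source →
    ContDiffAt ℝ ∞ (d ∘ c.symm) (c x) ∧ 0 < (fderiv ℝ (d ∘ c.symm) (c x)).det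

attribute [instance] Mfd.top Mfd.t2

section
variable {E : Type} [NormedAddCommGroup E] [NormedSpace ℝ E]

/-- Closed manifold: compact, connected (and non-empty). -/
def Mfd.Closed (M : Mfd E) : Prop := CompactSpace M.X ∧ ConnectedSpace M.X

/-- The model space as a manifold. -/
@[reducible] def euc (E : Type) [NormedAddCommGroup E] [NormedSpace ℝ E] : Mfd E where
  X := E
  atlas := {OpenPartialHomeomorph.refl E}
  cover := fun x => ⟨OpenPartialHomeomorph.refl E, rfl, by simp⟩
  compat := by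
    rintro c rfl d rfl x - -
    have h : (⇑(OpenPartialHomeomorph.refl E) ∘ ⇑(OpenPartialHomeomorph.refl E).symm : E → E)
        = id := by
      funext y; simp
    rw [h]
    refine ⟨contDiffAt_id, ?_⟩
    rw [fderiv_id]
    simp [ContinuousLinearMap.det]

/-- `f` is smooth near (in charts: at) `x`, and an orientation preserving local diffeomorphism
there. -/
def OPAt (M N : Mfd E) (f : M.X → N.X) (x : M.X) : Prop :=
  ContinuousAt f x ∧ ∃ c ∈ M.atlas, ∃ d ∈ N.atlas, x ∈ c.source ∧ f x ∈ d.source ∧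
    ContDiffAt ℝ ∞ (d ∘ f ∘ c.symm) (c x) ∧ 0 < (fderiv ℝ (d ∘ f ∘ c.symm) (c x)).det

/-- `f` restricts to an orientation preserving smooth open embedding of the open set `U`. -/
def OEmb (M N : Mfd E) (f : M.X → N.X) (U : Set M.X) : Prop :=
  (∀ x ∈ U, OPAt M N f x) ∧ InjOn f U

end

/-- The gluing data of a connected sum `P = M # N` (Kervaire and Milnor): an orientation preserving
embedding `i` of the open unit ball in `M`, an orientation reversing embedding `j` of the open
unit ball in `N` (`x ↦ j (-x)` preserves the orientation; `-1` reverses it in dimension `5`), and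
`P` is obtained from `M \ {i 0}` and `N \ {j 0}` by gluing `i (t u)` to `j ((1 - t) u)` for
`0 < t < 1` and unit vectors `u`. -/
structure ConnSumData (M N P : Mfd E5) (i : E5 → M.X) (j : E5 → N.X) (Φ : M.X → P.X)
    (Ψ : N.X → P.X) : Prop where
  i_emb : OEmb (euc E5) M i (ball (0 : E5) 1)
  j_emb : OEmb (euc E5) N (fun x : E5 => j (-x)) (ball (0 : E5) 1)
  Φ_emb : OEmb M P Φ {i 0}ᶜ
  Ψ_emb : OEmb N P Ψ {j 0}ᶜ
  glue : ∀ x : E5, 0 < ‖x‖ → ‖x‖ < 1 → Φ (i x) = Ψ (j (((1 - ‖x‖) / ‖x‖) • x))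
  cover : ∀ p : P.X, (∃ a, a ≠ i 0 ∧ Φ a = p) ∨ (∃ b, b ≠ j 0 ∧ Ψ b = p)
  sep : ∀ a b, a ≠ i 0 → b ≠ j 0 → Φ a = Ψ b → ∃ x : E5, 0 < ‖x‖ ∧ ‖x‖ < 1 ∧ a = i x

/-- `P` is a connected sum of `M` and `N`. -/
def IsConnSum (M N P : Mfd E5) : Prop := ∃ i j Φ Ψ, ConnSumData M N P i j Φ Ψ

/-- `W` divides `X` in the monoid of closed connected oriented smooth 5-manifolds. -/
def Divides (W X : Mfd E5) : Prop := ∃ C : Mfd E5, C.Closed ∧ IsConnSum W C X

/-- `W` is (a copy, with one of its orientations, of) the Wu manifold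
`SU(3)/SO(3) ≅ {A Aᵀ : A ∈ SU(3)} ⊆ ℂ^{3×3}`: there is an injective smooth immersion of `W` in
`ℂ^{3×3}` with image `{A Aᵀ : A ∈ SU(3)}`. -/
def IsWu (W : Mfd E5) : Prop :=
  ∃ ι : W.X → (Fin 3 → Fin 3 → ℂ), Continuous ι ∧ Function.Injective ι ∧
    range ι = {S | ∃ A ∈ Matrix.specialUnitaryGroup (Fin 3) ℂ, S = A * A.transpose} ∧
    ∀ x : W.X, ∃ c ∈ W.atlas, x ∈ c.source ∧ ContDiffAt ℝ ∞ (ι ∘ c.symm) (c x) ∧
      Function.Injective (fderiv ℝ (ι ∘ c.symm) (c x))

end Wu
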