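import Pool.Agent.Lib.MP_60079e_gt.StretchA

/-! `M \ {i 0}` embeds in `M \ i (closedBall 0 R)`, by the identity outside a compact set. -/

open Set Metric Topology
open scoped ContDiff

namespace Wu

theorem exists_stretch (M : Mfd E5) (i : E5 → M.X) (hi : OEmb (euc E5) M i univ) (R : ℝ)
    (hR : 0 < R) : ∃ s : M.X → M.X, OEmb M M s {i 0}ᶜ ∧
      (∀ x, x ≠ i 0 → s x ∉ i '' closedBall (0 : E5) R) ∧
      ∃ R' : ℝ, R < R' ∧ ∀ x, x ∉ i '' closedBall (0 : E5) R' → s x = x := by
  classical
  obtain ⟨s0, R', hRR', hout, hid, hinj, hin, hdiff⟩ := exists_radial R hR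
  have hi_inj : Function.Injective i := fun a b hab => hi.2 (mem_univ a) (mem_univ b) hab
  have hi_cont : Continuous i := continuousOn_univ.1 hi.continuousOn
  have hi_open : IsOpen (range i) := by
    have := hi.isOpen_image isOpen_univ
    rwa [image_univ] at this
  let gi : M.X → E5 := Function.invFun i
  have hgi : ∀ y, gi (i y) = y := fun y => Function.leftInverse_invFun hi_inj y
  let s : M.X → M.X := fun x => if x ∈ range i then i (s0 (gi x)) else x
  have hs1 : ∀ y, s (i y) = i (s0 y) := by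
    intro y
    have h : i y ∈ range i := ⟨y, rfl⟩
    show (if i y ∈ range i then i (s0 (gi (i y))) else i y) = i (s0 y)
    rw [if_pos h, hgi]
  have hs2 : ∀ x, x ∉ range i → s x = x := fun x hx => if_neg hx
  have hs3 : ∀ x, x ∉ i '' closedBall (0 : E5) R' → s x = x := by
    intro x hx
    by_cases h : x ∈ range i
    · obtain ⟨y, rfl⟩ := h
      have hy : R' ≤ ‖y‖ := by
        by_contra hlt
        push Not at hlt
        exact hx ⟨y, by rw [mem_closedBall_zero_iff]; exact hlt.le, rfl⟩
      rw [hs1, hid y hy]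
    · exact hs2 x h
  refine ⟨s, ⟨?_, ?_⟩, ?_, R', hRR', hs3⟩
  · intro x hx
    have hx0 : x ≠ i 0 := hx
    by_cases h : x ∈ range i
    · obtain ⟨y, rfl⟩ := h
      have hy0 : y ≠ 0 := fun h0 => hx0 (by rw [h0])
      have h1 : OPAt M (euc E5) gi (i y) := hi.inv isOpen_univ (fun z _ => hgi z) y (mem_univ y)
      have h2 : OPAt (euc E5) (euc E5) s0 (gi (i y)) := by
        rw [hgi]
        exact opAt_euc (hdiff y hy0).1 (hdiff y hy0).2
      have h3 : OPAt (euc E5) M i (s0 (gi (i y))) := hi.1 _ (mem_univ _)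
      have h4 : OPAt M (euc E5) (fun z => s0 (gi z)) (i y) :=
        OPAt.comp (M := M) (N := euc E5) (K := euc E5) (g := s0) (f := gi) h2 h1
      have h5 : OPAt M M (fun z => i (s0 (gi z))) (i y) :=
        OPAt.comp (M := M) (N := euc E5) (K := M) (g := i) (f := fun z => s0 (gi z)) h3 h4
      refine h5.congr ?_
      filter_upwards [hi_open.mem_nhds ⟨y, rfl⟩] with z hz
      exact (if_pos hz).symm
    · have hcl : IsClosed (i '' closedBall (0 : E5) R') :=
        ((isCompact_closedBall (0 : E5) R').image hi_cont).isClosed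
      have hx' : x ∉ i '' closedBall (0 : E5) R' := by
        rintro ⟨y, -, hy⟩
        exact h ⟨y, hy⟩
      refine (opAt_id M x).congr ?_
      filter_upwards [hcl.isOpen_compl.mem_nhds hx'] with z hz
      exact (hs3 z hz).symm
  · intro a ha b hb hab
    have ha0 : a ≠ i 0 := ha
    have hb0 : b ≠ i 0 := hb
    by_cases h1 : a ∈ range i
    · obtain ⟨y, rfl⟩ := h1
      by_cases h2 : b ∈ range i
      · obtain ⟨z, rfl⟩ := h2
        rw [hs1, hs1] at hab
        have h3 := hinj (show y ∈ ({0}ᶜ : Set E5) from fun h0 => ha0 (by rw [h0]))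
          (show z ∈ ({0}ᶜ : Set E5) from fun h0 => hb0 (by rw [h0])) (hi_inj hab)
        rw [h3]
      · rw [hs1, hs2 b h2] at hab
        exact absurd ⟨_, hab⟩ h2
    · by_cases h2 : b ∈ range i
      · obtain ⟨z, rfl⟩ := h2
        rw [hs1, hs2 a h1] at hab
        exact absurd ⟨_, hab.symm⟩ h1
      · rw [hs2 a h1, hs2 b h2] at hab
        exact hab
  · intro x hx hmem
    obtain ⟨w, hw, hwx⟩ := hmem
    by_cases h : x ∈ range i
    · obtain ⟨y, rfl⟩ := h
      have hy0 : y ≠ 0 := fun h0 => hx (by rw [h0])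
      rw [hs1] at hwx
      have h1 := hi_inj hwx
      have h2 := hout y hy0
      rw [mem_closedBall_zero_iff, h1] at hw
      linarith
    · rw [hs2 x h] at hwx
      exact h ⟨w, hwx⟩

end Wu
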