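import Pool.Agent.Lib.MP_60079e_gt.BaseM
import Pool.Agent.Lib.MP_60079e_gt.StretchB

/-! `A \ {pt}` embeds in `P`. -/

open Set Metric Topology Matrix
open scoped ContDiff

namespace Wu

/-- `A \ {pt}` embeds in `P`. -/
theorem exists_PhiA (B : BaseA) (S0 : WX) (h1 : ∀ (x : E5) (k : ℕ), S0 ≠ omW k (ib x))
    (Q : BaseP B S0) :
    ∃ Φ : B.A.X → Q.P.X, OEmb B.A Q.P Φ {B.π (ib 0)}ᶜ ∧
      ∃ R : ℝ, 1 < R ∧ ∀ a, a ∉ (fun x : E5 => B.π (ib x)) '' closedBall (0 : E5) R →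
        Q.ι (Φ a) = (a, 0) := by
  obtain ⟨R0, _, hR0⟩ := B.F_outside
  have hR1 : (0 : ℝ) < max R0 1 := lt_of_lt_of_le one_pos (le_max_right _ _)
  obtain ⟨s, hs, hsout, R', hR', hsid⟩ :=
    exists_stretch B.A (fun x : E5 => B.π (ib x)) B.oEmb_ib (max R0 1) hR1
  -- the base point is outside of the second cell
  have hS0 : ∀ x : E5, B.π (ib x) ≠ B.π S0 := by
    intro x hx
    obtain ⟨k, _, hk⟩ := (B.fib S0 (ib x)).1 hx.symm
    exact h1 x k hk
  have hS0' : ∀ T : Set E5, B.π S0 ∉ (fun x : E5 => B.π (ib x)) '' T := by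
    rintro T ⟨x, _, hx⟩
    exact hS0 x hx
  have hFs : ∀ x, x ≠ B.π (ib 0) → ∀ h, B.F (s x, h) = h ^ 3 + h := by
    intro x hx
    refine hR0 (s x) fun hmem => ?_
    exact hsout x hx (image_mono (closedBall_subset_closedBall (le_max_left _ _)) hmem)
  have hfun : ∀ x, x ≠ B.π (ib 0) → (fun h => B.F (s x, h)) = fun h : ℝ => h ^ 3 + h :=
    fun x hx => funext (hFs x hx)
  haveI := B.closed.2
  obtain ⟨Φ, hΦ, hΦι⟩ := Q.exists_map B.A {B.π (ib 0)}ᶜ isOpen_compl_singleton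
    (isConnected_compl_point B.A B.closed.2 _).isPreconnected (B.π S0)
    (fun h => hS0 0 (by rw [mem_singleton_iff] at h; exact h.symm)) s (fun _ => 0)
    (fun x hx => hs.1 x hx) (fun x _ => continuousAt_const)
    (fun x hx => by
      have := hFs x hx 0
      simpa using this)
    (fun x hx => by
      rw [hfun x hx]
      have h2 : HasDerivAt (fun h : ℝ => h ^ 3 + h) (3 * (0 : ℝ) ^ 2 * 1 + 1) 0 := by
        have h3 := ((hasDerivAt_pow 3 (0 : ℝ)).add (hasDerivAt_id (0 : ℝ)))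
        refine (h3.congr_deriv (by norm_num)).congr_of_eventuallyEq ?_
        exact Filter.Eventually.of_forall fun h => by simp
      rw [h2.deriv]
      norm_num)
    (fun x hx y hy hxy _ => hs.2 hx hy hxy) (hsid _ (hS0' _)) rfl
  refine ⟨Φ, hΦ, R', lt_of_le_of_lt (le_max_right _ _) hR', fun a ha => ?_⟩
  have ha0 : a ≠ B.π (ib 0) := by
    intro h
    apply ha
    refine ⟨0, mem_closedBall_self (le_trans hR1.le hR'.le), h.symm⟩
  rw [hΦι a ha0, hsid a ha]

end Wu
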