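import Pool.Agent.Lib.MP_60079e_gt.BaseA
import Pool.Agent.Lib.MP_60079e_gt.Rho

/-! `j(x) = (π (G x), ρ x)` is an embedding near `Kc`. -/

open Set Metric Topology Matrix
open scoped ContDiff

namespace Wu

/-- `j(x) = (π (G x), ρ x)` is an embedding near `Kc`. -/
theorem exists_j (B : BaseA) : ∃ (S0 : WX) (ρ : WX → ℝ) (O : Set WX), IsOpen O ∧ Kc ⊆ O ∧
    S0 ∈ Kc ∧ GW S0 = S0 ∧ ρ S0 = 0 ∧ al S0.1 = 1 ∧ be S0.1 = 0 ∧
    (∀ (x : E5) (k : ℕ), S0 ≠ omW k (ib x)) ∧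
    (∀ x ∈ O, ContinuousAt ρ x ∧ FW (GW x, ρ x) = 0 ∧ 0 < 3 * ρ x ^ 2 + al (GW x).1) ∧
    ∀ x ∈ O, ∀ y ∈ O, B.π (GW x) = B.π (GW y) → ρ x = ρ y → x = y := by
  obtain ⟨ρ, O1, hO1, hK1, h1, h2⟩ := exists_rho
  obtain ⟨S0, hS0K, hS0G, hal, hbe, hib⟩ := exists_base
  have hop : ∀ x : WX, OPAt WM B.A (fun y => B.π (GW y)) x := fun x =>
    OPAt.comp (M := WM) (N := WM) (K := B.A) (B.op (GW x)) (opAt_GW x)
  let j : WX → B.A.X × ℝ := fun x => (B.π (GW x), ρ x)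
  have hcont : ∀ x ∈ Kc, ContinuousAt j x := fun x hx => (hop x).1.prodMk (h1 x (hK1 hx)).1
  have hinj : InjOn j Kc := by
    intro x hx y hy hxy
    have e1 : B.π (GW x) = B.π (GW y) := congrArg Prod.fst hxy
    have e2 : ρ x = ρ y := congrArg Prod.snd hxy
    obtain ⟨k, hk, e3⟩ := (B.fib _ _).mp e1
    exact h2 x hx y hy k hk e3 e2
  have hloc : ∀ x ∈ Kc, ∃ u ∈ 𝓝 x, InjOn j u := by
    intro x _
    obtain ⟨e, hxe, he, _⟩ := (hop x).exists_local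
    refine ⟨e.source, e.open_source.mem_nhds hxe, ?_⟩
    intro y hy z hz hyz
    refine e.injOn hy hz ?_
    rw [he y hy, he z hz]
    exact congrArg Prod.fst hyz
  obtain ⟨u, huo, hKu, hju⟩ := hinj.exists_isOpen_superset isCompact_Kc hcont hloc
  refine ⟨S0, ρ, O1 ∩ u, hO1.inter huo, subset_inter hK1 hKu, hS0K, hS0G, ?_, hal, hbe, hib, ?_, ?_⟩
  · have h3 := (h1 S0 (hK1 hS0K)).2.1
    rw [hS0G] at h3
    have h4 : ρ S0 ^ 3 + al S0.1 * ρ S0 + be S0.1 = 0 := h3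
    rw [hal, hbe] at h4
    have h5 : ρ S0 * (ρ S0 ^ 2 + 1) = 0 := by linarith
    rcases mul_eq_zero.mp h5 with h6 | h6
    · exact h6
    · nlinarith [sq_nonneg (ρ S0)]
  · intro x hx
    exact h1 x hx.1
  · intro x hx y hy e1 e2
    exact hju hx.2 hy.2 (Prod.ext e1 e2)

end Wu
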