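import Pool.Agent.Lib.MP_60079e_gt.BaseM
import Pool.Agent.Lib.MP_60079e_gt.StretchB

/-! `W \ {pt}` embeds in `P`. -/

open Set Metric Topology Matrix
open scoped ContDiff

namespace Wu

/-- `W \ {pt}` embeds in `P`. -/
theorem exists_PhiW (B : BaseA) (S0 : WX) (ρ : WX → ℝ) (O : Set WX) (hO : IsOpen O)
    (hK : Kc ⊆ O) (hS0 : S0 ∈ Kc) (hG : GW S0 = S0) (hρ0 : ρ S0 = 0)
    (h1 : ∀ x ∈ O, ContinuousAt ρ x ∧ FW (GW x, ρ x) = 0 ∧ 0 < 3 * ρ x ^ 2 + al (GW x).1)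
    (h2 : ∀ x ∈ O, ∀ y ∈ O, B.π (GW x) = B.π (GW y) → ρ x = ρ y → x = y)
    (Q : BaseP B S0) : ∃ Φ : WX → Q.P.X, OEmb WM Q.P Φ {cell 0}ᶜ := by
  obtain ⟨R, hR, hRO⟩ := exists_ball_cell O hO hK
  obtain ⟨s, hs, hsR, R', hRR', hid⟩ := exists_stretch WM cell oEmb_cell R hR
  have hsO : ∀ x : WX, x ∈ ({cell 0}ᶜ : Set WX) → s x ∈ O := by
    intro x hx
    exact hRO _ (hsR x hx)
  have hS0r : S0 ∉ range cell := by
    rw [← mem_compl_iff]
    have h3 : (range cell)ᶜ = Kc := by rw [range_cell, compl_compl]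
    rw [h3]
    exact hS0
  have hS0ne : S0 ∈ ({cell 0}ᶜ : Set WX) := by
    intro h
    exact hS0r ⟨0, h.symm⟩
  have hsS0 : s S0 = S0 := by
    apply hid
    rintro ⟨y, -, hy⟩
    exact hS0r ⟨y, hy⟩
  obtain ⟨Φ, hΦ, -⟩ := Q.exists_map WM ({cell 0}ᶜ : Set WX) isOpen_compl_singleton
    (isConnected_compl_point WM closed_WM.2 (cell 0)).isPreconnected S0 hS0ne
    (fun x : WX => B.π (GW (s x))) (fun x : WX => ρ (s x))
    (fun x hx => OPAt.comp (B.op _) (OPAt.comp (opAt_GW _) (hs.1 x hx)))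
    (fun x hx => ContinuousAt.comp (f := s) (g := ρ) (h1 _ (hsO x hx)).1 (hs.1 x hx).1)
    (fun x hx => by
      rw [B.hF]
      exact (h1 _ (hsO x hx)).2.1)
    (fun x hx => by
      have h3 : (fun h => B.F (B.π (GW (s x)), h)) = fun h => FW (GW (s x), h) := by
        funext h
        exact B.hF _ _
      rw [h3, deriv_FW]
      exact (h1 _ (hsO x hx)).2.2)
    (fun x hx y hy hxy hr => hs.2 hx hy (h2 _ (hsO x hx) _ (hsO y hy) hxy hr))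
    (by rw [hsS0, hG]) (by rw [hsS0, hρ0])
  exact ⟨Φ, hΦ⟩

end Wu
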