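import Pool.Agent.Lib.MP_60079e_gt.WI

/-! The functions `α, β` on `W`: tubes, invariance, smoothness. -/

open Set Metric Topology Matrix
open scoped ContDiff

namespace Wu

noncomputable def nu (T : M3) : ℝ :=
  ((T 0 2 + kap) ^ 2 + (T 1 2) ^ 2 * star (T 2 2) / (‖T 2 2‖ : ℝ)).im

/-- `0` for `s ≤ 1`, `1` for `s ≥ 2` -/
noncomputable def th (s : ℝ) : ℝ := Real.smoothTransition (s - 1)

/-- `1` for `s ≤ 2`, `0` for `s ≥ 4` -/
noncomputable def ta (s : ℝ) : ℝ := 1 - Real.smoothTransition (s / 2 - 1)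

noncomputable def al (T : M3) : ℝ :=
  1 - 4 * ∑ k ∈ Finset.range 3, (1 - th (mu (om ^ k • T) / rr))

noncomputable def be (T : M3) : ℝ :=
  ∑ k ∈ Finset.range 3, ta (mu (om ^ k • T) / rr) * nu (om ^ k • T)

private theorem FnA_kap_pos : 0 < kap := by
  unfold kap; norm_num

private theorem FnA_rr_pos : 0 < rr := by
  unfold rr
  have := FnA_kap_pos
  positivity

private theorem FnA_sum (f : M3 → ℝ) (T : M3) (k : ℕ) :
    ∑ j ∈ Finset.range 3, f (om ^ j • (om ^ k • T)) = ∑ j ∈ Finset.range 3, f (om ^ j • T) := by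
  induction k with
  | zero => simp
  | succ k ih =>
    rw [← ih]
    have h : ∀ j : ℕ, om ^ j • (om ^ (k + 1) • T) = om ^ (j + 1) • (om ^ k • T) := by
      intro j
      rw [smul_smul, smul_smul]
      congr 1
      ring
    simp only [h]
    rw [Finset.sum_range_succ, Finset.sum_range_succ, Finset.sum_range_succ, Finset.sum_range_succ,
      Finset.sum_range_succ, Finset.sum_range_succ, Finset.sum_range_zero, om_cube, pow_zero]
    simp only [Nat.reduceAdd]
    ring

theorem al_om (T : M3) (k : ℕ) : al (om ^ k • T) = al T := by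
  unfold al
  rw [FnA_sum (fun S => 1 - th (mu S / rr)) T k]

theorem be_om (T : M3) (k : ℕ) : be (om ^ k • T) = be T := by
  unfold be
  rw [FnA_sum (fun S => ta (mu S / rr) * nu S) T k]

private theorem FnA_th_one {s : ℝ} (h : 2 ≤ s) : th s = 1 := by
  unfold th
  exact Real.smoothTransition.one_of_one_le (by linarith)

private theorem FnA_ta_zero {s : ℝ} (h : 4 ≤ s) : ta s = 0 := by
  unfold ta
  rw [Real.smoothTransition.one_of_one_le (by linarith), sub_self]

private theorem FnA_th_nonneg (s : ℝ) : 0 ≤ th s := Real.smoothTransition.nonneg _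

private theorem FnA_ta_mem (s : ℝ) : 0 ≤ ta s ∧ ta s ≤ 1 := by
  unfold ta
  exact ⟨by linarith [Real.smoothTransition.le_one (s / 2 - 1)],
    by linarith [Real.smoothTransition.nonneg (s / 2 - 1)]⟩

private theorem FnA_disj (w z z' : ℂ) (hw : w.re = -1 / 2) (hw' : w.im ^ 2 = 3 / 4)
    (h : Complex.normSq (z + kap) ≤ 4 * rr) :
    4 * rr < Complex.normSq (w * z + kap) + Complex.normSq (w * z') := by
  have hκ := FnA_kap_pos
  have hn : 0 ≤ Complex.normSq (w * z') := Complex.normSq_nonneg _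
  refine lt_of_lt_of_le ?_ (le_add_of_nonneg_right hn)
  unfold rr at *
  simp only [Complex.normSq_apply, Complex.add_re, Complex.add_im, Complex.ofReal_re,
    Complex.ofReal_im, add_zero, Complex.mul_re, Complex.mul_im, hw] at *
  set a := z.re
  set b := z.im
  set s := w.im
  have h1 : (a + kap) * (a + kap) ≤ kap ^ 2 / 16 := by
    nlinarith [mul_self_nonneg b]
  have h2 : a ≤ -(3 / 4) * kap := by
    by_contra hc
    push Not at hc
    nlinarith
  have h3 : (-1 / 2 * a - s * b + kap) * (-1 / 2 * a - s * b + kap) +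
      (-1 / 2 * b + s * a) * (-1 / 2 * b + s * a) =
      (b - s * kap) ^ 2 + a ^ 2 + kap ^ 2 / 4 - kap * a := by
    linear_combination (b ^ 2 + a ^ 2 - kap ^ 2) * hw'
  rw [h3]
  nlinarith [sq_nonneg (b - s * kap), sq_nonneg a, mul_pos hκ hκ]

private theorem FnA_om_sq : om ^ 2 = ⟨-1 / 2, -(Real.sqrt 3 / 2)⟩ := by
  have hs : Real.sqrt 3 * Real.sqrt 3 = 3 := Real.mul_self_sqrt (by norm_num)
  apply Complex.ext
  · simp only [om, pow_two, Complex.mul_re]
    linear_combination (-1 / 4) * hs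
  · simp only [om, pow_two, Complex.mul_im]
    ring

/-- the three tubes are disjoint -/
theorem tube_disj (T : M3) (h : mu T ≤ 4 * rr) (k : ℕ) (hk : k = 1 ∨ k = 2) :
    4 * rr < mu (om ^ k • T) := by
  have hs : Real.sqrt 3 ^ 2 = 3 := Real.sq_sqrt (by norm_num)
  have h' : Complex.normSq (T 0 2 + kap) ≤ 4 * rr := by
    unfold mu at h
    linarith [Complex.normSq_nonneg (T 1 2)]
  unfold mu
  simp only [Matrix.smul_apply, smul_eq_mul]
  rcases hk with rfl | rfl
  · rw [pow_one]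
    refine FnA_disj om _ _ rfl ?_ h'
    simp only [om]
    linear_combination (1 / 4) * hs
  · rw [FnA_om_sq]
    refine FnA_disj _ _ _ rfl ?_ h'
    linear_combination (1 / 4) * hs

theorem al_outside (T : M3) (h : ∀ k < 3, 2 * rr ≤ mu (om ^ k • T)) : al T = 1 := by
  unfold al
  have h1 : ∀ k ∈ Finset.range 3, (1 - th (mu (om ^ k • T) / rr)) = 0 := by
    intro k hk
    rw [FnA_th_one, sub_self]
    rw [le_div_iff₀ FnA_rr_pos]
    exact h k (Finset.mem_range.mp hk)
  rw [Finset.sum_eq_zero h1]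
  norm_num

theorem be_outside (T : M3) (h : ∀ k < 3, 4 * rr ≤ mu (om ^ k • T)) : be T = 0 := by
  unfold be
  refine Finset.sum_eq_zero ?_
  intro k hk
  rw [FnA_ta_zero, zero_mul]
  rw [le_div_iff₀ FnA_rr_pos]
  exact h k (Finset.mem_range.mp hk)

theorem al_tube (T : M3) (h : mu T ≤ 4 * rr) : al T = -3 + 4 * th (mu T / rr) := by
  unfold al
  have hr := FnA_rr_pos
  have h1 : th (mu (om ^ 1 • T) / rr) = 1 := by
    apply FnA_th_one
    rw [le_div_iff₀ hr]
    linarith [tube_disj T h 1 (Or.inl rfl)]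
  have h2 : th (mu (om ^ 2 • T) / rr) = 1 := by
    apply FnA_th_one
    rw [le_div_iff₀ hr]
    linarith [tube_disj T h 2 (Or.inr rfl)]
  rw [Finset.sum_range_succ, Finset.sum_range_succ, Finset.sum_range_one, h1, h2, pow_zero,
    one_smul]
  ring

theorem be_tube (T : M3) (h : mu T ≤ 4 * rr) : be T = ta (mu T / rr) * nu T := by
  unfold be
  have hr := FnA_rr_pos
  have h1 : ta (mu (om ^ 1 • T) / rr) = 0 := by
    apply FnA_ta_zero
    rw [le_div_iff₀ hr]
    linarith [tube_disj T h 1 (Or.inl rfl)]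
  have h2 : ta (mu (om ^ 2 • T) / rr) = 0 := by
    apply FnA_ta_zero
    rw [le_div_iff₀ hr]
    linarith [tube_disj T h 2 (Or.inr rfl)]
  rw [Finset.sum_range_succ, Finset.sum_range_succ, Finset.sum_range_one, h1, h2, pow_zero,
    one_smul]
  ring

/-- In the tube the last entry does not vanish. -/
theorem tube_ne (T : WX) (h : mu T.1 ≤ 4 * rr) : T.1 2 2 ≠ 0 ∧ ‖T.1 2 2‖ < 1 := by
  have hcol := col_normSq T.2.1 2
  have h1 : Complex.normSq (T.1 0 2 + kap) ≤ kap ^ 2 / 16 := by
    unfold mu rr at h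
    linarith [Complex.normSq_nonneg (T.1 1 2)]
  have h2 : Complex.normSq (T.1 1 2) ≤ kap ^ 2 / 16 := by
    unfold mu rr at h
    linarith [Complex.normSq_nonneg (T.1 0 2 + kap)]
  have hκ : kap = 168 / 625 := rfl
  have hκ0 := FnA_kap_pos
  simp only [Complex.normSq_apply (T.1 0 2 + kap), Complex.add_re, Complex.add_im,
    Complex.ofReal_re, Complex.ofReal_im, add_zero] at h1
  rw [Complex.normSq_apply (T.1 0 2)] at hcol
  set a := (T.1 0 2).re
  set b := (T.1 0 2).im
  have ha1 : (a + kap) * (a + kap) ≤ (kap / 4) ^ 2 := by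
    nlinarith [mul_self_nonneg b]
  have ha2 : a ≤ -(3 / 4) * kap := by
    by_contra hc
    push Not at hc
    nlinarith
  have ha3 : -(5 / 4) * kap ≤ a := by
    by_contra hc
    push Not at hc
    nlinarith
  have hb : b * b ≤ (kap / 4) ^ 2 := by
    nlinarith [mul_self_nonneg (a + kap)]
  have h3 : 0 < Complex.normSq (T.1 2 2) := by
    nlinarith
  have h4 : Complex.normSq (T.1 2 2) < 1 := by
    nlinarith [Complex.normSq_nonneg (T.1 1 2), mul_self_nonneg b]
  refine ⟨Complex.normSq_pos.mp h3, ?_⟩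
  rw [Complex.normSq_eq_norm_sq] at h4
  nlinarith [norm_nonneg (T.1 2 2)]

theorem al_ge (T : WX) : -3 ≤ al T.1 := by
  by_cases h : ∀ k < 3, 2 * rr ≤ mu (om ^ k • T.1)
  · rw [al_outside _ h]
    norm_num
  · push Not at h
    obtain ⟨k, -, hk⟩ := h
    rw [← al_om T.1 k, al_tube _ (by linarith [FnA_rr_pos])]
    linarith [FnA_th_nonneg (mu (om ^ k • T.1) / rr)]

private theorem FnA_nu_le (T : WX) : |nu T.1| ≤ 5 := by
  have hcol := col_normSq T.2.1 2
  have h0 : ‖T.1 0 2‖ ≤ 1 := by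
    have h := Complex.normSq_nonneg (T.1 1 2)
    have h' := Complex.normSq_nonneg (T.1 2 2)
    rw [Complex.normSq_eq_norm_sq (T.1 0 2)] at hcol
    nlinarith [norm_nonneg (T.1 0 2)]
  have h1 : ‖T.1 1 2‖ ≤ 1 := by
    have h := Complex.normSq_nonneg (T.1 0 2)
    have h' := Complex.normSq_nonneg (T.1 2 2)
    rw [Complex.normSq_eq_norm_sq (T.1 1 2)] at hcol
    nlinarith [norm_nonneg (T.1 1 2)]
  have hκ : ‖(kap : ℂ)‖ ≤ 1 := by
    rw [Complex.norm_real, Real.norm_eq_abs, abs_of_pos FnA_kap_pos]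
    unfold kap
    norm_num
  have h2 : ‖T.1 0 2 + kap‖ ≤ 2 := (norm_add_le _ _).trans (by linarith)
  have h3 : ‖(T.1 0 2 + kap) ^ 2‖ ≤ 4 := by
    rw [norm_pow]
    nlinarith [norm_nonneg (T.1 0 2 + kap)]
  have h4 : ‖(T.1 1 2) ^ 2 * star (T.1 2 2) / (‖T.1 2 2‖ : ℝ)‖ ≤ 1 := by
    rw [norm_div, norm_mul, norm_pow, norm_star, Complex.norm_real, Real.norm_eq_abs,
      abs_of_nonneg (norm_nonneg _), mul_div_assoc]
    have h5 : ‖T.1 2 2‖ / ‖T.1 2 2‖ ≤ 1 := div_self_le_one _
    have h6 : 0 ≤ ‖T.1 2 2‖ / ‖T.1 2 2‖ := by positivity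
    have h7 : ‖T.1 1 2‖ ^ 2 ≤ 1 := by
      nlinarith [norm_nonneg (T.1 1 2)]
    calc ‖T.1 1 2‖ ^ 2 * (‖T.1 2 2‖ / ‖T.1 2 2‖) ≤ 1 * 1 :=
          mul_le_mul h7 h5 h6 zero_le_one
      _ = 1 := one_mul 1
  unfold nu
  refine (Complex.abs_im_le_norm _).trans ((norm_add_le _ _).trans ?_)
  linarith

theorem be_bound : ∃ b : ℝ, ∀ T : WX, |be T.1| ≤ b := by
  refine ⟨15, fun T => ?_⟩
  unfold be
  have h : ∀ k ∈ Finset.range 3, |ta (mu (om ^ k • T.1) / rr) * nu (om ^ k • T.1)| ≤ 5 := by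
    intro k _
    have h1 := FnA_nu_le (omW k T)
    have h2 := FnA_ta_mem (mu (om ^ k • T.1) / rr)
    rw [abs_mul, abs_of_nonneg h2.1]
    have h3 : |nu (om ^ k • T.1)| ≤ 5 := h1
    nlinarith [abs_nonneg (nu (om ^ k • T.1))]
  refine (Finset.abs_sum_le_sum_abs _ _).trans ((Finset.sum_le_sum h).trans ?_)
  rw [Finset.sum_const, Finset.card_range]
  norm_num

private theorem FnA_normSq_contDiff : ContDiff ℝ ∞ (fun z : ℂ => Complex.normSq z) := by
  have h : (fun z : ℂ => Complex.normSq z) = fun z => z.re * z.re + z.im * z.im := by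
    funext z
    rw [Complex.normSq_apply]
  rw [h]
  have hre : ContDiff ℝ ∞ (fun z : ℂ => z.re) := Complex.reCLM.contDiff
  have him : ContDiff ℝ ∞ (fun z : ℂ => z.im) := Complex.imCLM.contDiff
  exact (hre.mul hre).add (him.mul him)

private theorem FnA_entry (i j : Fin 3) (c : ℂ) : ContDiff ℝ ∞ (fun A : A3 => c * A i j) := by
  fun_prop

private theorem FnA_mu_contDiff (k : ℕ) :
    ContDiff ℝ ∞ (fun A : A3 => mu (om ^ k • (Matrix.of A))) := by
  have h : (fun A : A3 => mu (om ^ k • (Matrix.of A))) = fun A : A3 =>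
      Complex.normSq (om ^ k * A 0 2 + kap) + Complex.normSq (om ^ k * A 1 2) := by
    funext A
    simp [mu, Matrix.smul_apply]
  rw [h]
  exact (FnA_normSq_contDiff.comp ((FnA_entry 0 2 _).add contDiff_const)).add
    (FnA_normSq_contDiff.comp (FnA_entry 1 2 _))

theorem smAt_al (S : WX) : SmAt WM (fun T : WX => al T.1) S := by
  refine smAt_W (fun A : A3 => al (Matrix.of A)) S ?_
  apply ContDiff.contDiffAt
  unfold al th
  refine contDiff_const.sub (contDiff_const.mul (ContDiff.sum ?_))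
  intro k _
  exact contDiff_const.sub (Real.smoothTransition.contDiff.comp
    (((FnA_mu_contDiff k).div_const _).sub contDiff_const))

theorem smAt_be (S : WX) : SmAt WM (fun T : WX => be T.1) S := by
  refine smAt_W (fun A : A3 => be (Matrix.of A)) S ?_
  unfold be
  refine ContDiffAt.sum ?_
  intro k _
  have hof : (Matrix.of (toA S.1) : M3) = S.1 := rfl
  by_cases hk : (om ^ k • S.1) 2 2 = 0
  · have hmu : 4 * rr < mu (om ^ k • S.1) := by
      by_contra hc
      push Not at hc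
      exact (tube_ne (omW k S) hc).1 hk
    have hev : ∀ᶠ A : A3 in 𝓝 (toA S.1), 4 * rr < mu (om ^ k • (Matrix.of A)) := by
      have hcont : ContinuousAt (fun A : A3 => mu (om ^ k • (Matrix.of A))) (toA S.1) :=
        (FnA_mu_contDiff k).continuous.continuousAt
      exact hcont.eventually (lt_mem_nhds (by simpa only [hof] using hmu))
    refine ContDiffAt.congr_of_eventuallyEq (contDiffAt_const (c := (0 : ℝ))) ?_
    filter_upwards [hev] with A hA
    rw [FnA_ta_zero, zero_mul]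
    rw [le_div_iff₀ FnA_rr_pos]
    exact hA.le
  · refine ContDiffAt.mul ?_ ?_
    · apply ContDiff.contDiffAt
      unfold ta
      exact contDiff_const.sub (Real.smoothTransition.contDiff.comp
        ((((FnA_mu_contDiff k).div_const _).div_const _).sub contDiff_const))
    · have h : (fun A : A3 => nu (om ^ k • (Matrix.of A))) = fun A : A3 =>
          ((om ^ k * A 0 2 + kap) ^ 2 + (om ^ k * A 1 2) ^ 2 * star (om ^ k * A 2 2) *
            ((‖om ^ k * A 2 2‖ : ℝ) : ℂ)⁻¹).im := by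
        funext A
        simp [nu, Matrix.smul_apply, div_eq_mul_inv]
      rw [h]
      have him : ContDiff ℝ ∞ (fun z : ℂ => z.im) := Complex.imCLM.contDiff
      have hstar : ContDiff ℝ ∞ (fun z : ℂ => star z) := Complex.conjCLE.contDiff
      have hof : ContDiff ℝ ∞ (fun x : ℝ => (x : ℂ)) := Complex.ofRealCLM.contDiff
      have hne : om ^ k * (toA S.1) 2 2 ≠ 0 := hk
      refine him.contDiffAt.comp _ (ContDiffAt.add ?_ (ContDiffAt.mul ?_ (ContDiffAt.inv ?_ ?_)))
      · exact (((FnA_entry 0 2 _).add contDiff_const).pow 2).contDiffAt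
      · exact (((FnA_entry 1 2 _).pow 2).mul (hstar.comp (FnA_entry 2 2 _))).contDiffAt
      · exact hof.contDiffAt.comp _ ((FnA_entry 2 2 _).contDiffAt.norm ℝ hne)
      · rw [Complex.ofReal_ne_zero]
        exact norm_ne_zero_iff.mpr hne

end Wu
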