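import Pool.Agent.Lib.MP_60079e_gt.FnA

/-! Regularity of `h³ + α h + β` on `W × ℝ`. -/

open Set Metric Topology Matrix
open scoped ContDiff

namespace Wu

/-- `F (T, h) = h³ + α(T) h + β(T)` -/
noncomputable def FW (p : WX × ℝ) : ℝ := p.2 ^ 3 + al p.1.1 * p.2 + be p.1.1

theorem smAt_FW (p : WX × ℝ) : SmAt (prodR WM) FW p := by
  obtain ⟨S, h⟩ := p
  have h1 : SmAt (prodR WM) (fun q => al q.1.1) (S, h) := smAt_prodR_fst (smAt_al S) h
  have h2 : SmAt (prodR WM) (fun q => be q.1.1) (S, h) := smAt_prodR_fst (smAt_be S) h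
  have h3 : SmAt (prodR WM) (fun q => q.2) (S, h) := smAt_prodR_snd WM (S, h)
  have h4 := ((h1.prodMk h3).prodMk h2).postcomp (φ := fun x : (ℝ × ℝ) × ℝ =>
    x.1.2 ^ 3 + x.1.1 * x.1.2 + x.2) (ContDiff.contDiffAt (by fun_prop))
  exact h4

theorem deriv_FW (T : WX) (h : ℝ) : deriv (fun h => FW (T, h)) h = 3 * h ^ 2 + al T.1 := by
  have h1 : HasDerivAt (fun h : ℝ => h ^ 3 + al T.1 * h + be T.1) (3 * h ^ 2 + al T.1) h := by
    have h2 := ((hasDerivAt_pow 3 h).add ((hasDerivAt_id h).const_mul (al T.1))).add_const (be T.1)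
    have e : ((3 : ℕ) : ℝ) * h ^ (3 - 1) + al T.1 * 1 = 3 * h ^ 2 + al T.1 := by norm_num
    rw [e] at h2
    exact h2
  exact h1.deriv

/-- Curves in the tube: last column `(p + s a, q + s b, ·)`, constant argument of the last
entry. -/
theorem exists_tube_curve (T : WX) (h : mu T.1 ≤ 4 * rr) (a b : ℂ) :
    ∃ γ : ℝ → WX, γ 0 = T ∧ ContinuousAt γ 0 ∧
      (∀ c ∈ WM.atlas, T ∈ c.source → DifferentiableAt ℝ (fun s => c (γ s)) 0) ∧
      (∀ᶠ s in 𝓝 (0 : ℝ), (γ s).1 0 2 = T.1 0 2 + s * a ∧ (γ s).1 1 2 = T.1 1 2 + s * b ∧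
        star ((γ s).1 2 2) / (‖(γ s).1 2 2‖ : ℝ) = star (T.1 2 2) / (‖T.1 2 2‖ : ℝ)) := by
  obtain ⟨hw0, hw1⟩ := tube_ne T h
  have hcol := col_normSq T.2.1 2
  set p : ℂ := T.1 0 2 with hp
  set q : ℂ := T.1 1 2 with hq
  set w : ℂ := T.1 2 2 with hw
  set R : ℝ → ℝ := fun s => 1 - (p.re + s * a.re) ^ 2 - (p.im + s * a.im) ^ 2
    - (q.re + s * b.re) ^ 2 - (q.im + s * b.im) ^ 2 with hR
  have hw2 : 0 < ‖w‖ := norm_pos_iff.2 hw0
  have hnp : ∀ s : ℝ, Complex.normSq (p + s * a) = (p.re + s * a.re) ^ 2 + (p.im + s * a.im) ^ 2 := by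
    intro s
    rw [Complex.normSq_apply]
    simp only [Complex.add_re, Complex.add_im, Complex.re_ofReal_mul, Complex.im_ofReal_mul]
    ring
  have hnq : ∀ s : ℝ, Complex.normSq (q + s * b) = (q.re + s * b.re) ^ 2 + (q.im + s * b.im) ^ 2 := by
    intro s
    rw [Complex.normSq_apply]
    simp only [Complex.add_re, Complex.add_im, Complex.re_ofReal_mul, Complex.im_ofReal_mul]
    ring
  have hRn : ∀ s : ℝ, Complex.normSq (p + s * a) + Complex.normSq (q + s * b) + R s = 1 := by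
    intro s
    rw [hnp, hnq]
    show _ + (1 - (p.re + s * a.re) ^ 2 - (p.im + s * a.im) ^ 2
    - (q.re + s * b.re) ^ 2 - (q.im + s * b.im) ^ 2) = 1
    ring
  have hR0 : R 0 = ‖w‖ ^ 2 := by
    have h1 := hRn 0
    rw [Complex.ofReal_zero, zero_mul, zero_mul, add_zero, add_zero] at h1
    rw [← Complex.normSq_eq_norm_sq]
    linarith
  have hRpos : 0 < R 0 := by
    rw [hR0]
    positivity
  set U : ℝ → C3 := fun s => ![p + s * a, q + s * b, w / (‖w‖ : ℝ) * ((Real.sqrt (R s) : ℝ) : ℂ)] with hU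
  have hU0 : U 0 = fun i => T.1 i 2 := by
    funext i
    fin_cases i
    · show p + ((0 : ℝ) : ℂ) * a = p
      rw [Complex.ofReal_zero, zero_mul, add_zero]
    · show q + ((0 : ℝ) : ℂ) * b = q
      rw [Complex.ofReal_zero, zero_mul, add_zero]
    · show w / (‖w‖ : ℝ) * ((Real.sqrt (R 0) : ℝ) : ℂ) = w
      rw [hR0, Real.sqrt_sq hw2.le, div_mul_cancel₀]
      exact_mod_cast hw2.ne'
  have hne0 : T.1 0 2 ≠ 0 ∨ T.1 1 2 ≠ 0 := by
    by_contra hcon
    push Not at hcon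
    rw [hp, hq, hcon.1, hcon.2, map_zero, add_zero, zero_add, Complex.normSq_eq_norm_sq] at hcol
    nlinarith
  have hRd : Differentiable ℝ R := by
    rw [hR]
    fun_prop
  have hUd : DifferentiableAt ℝ U 0 := by
    rw [differentiableAt_pi]
    intro i
    fin_cases i
    · show DifferentiableAt ℝ (fun s : ℝ => p + (s : ℂ) * a) 0
      exact (Complex.ofRealCLM.differentiableAt.mul_const a).const_add p
    · show DifferentiableAt ℝ (fun s : ℝ => q + (s : ℂ) * b) 0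
      exact (Complex.ofRealCLM.differentiableAt.mul_const b).const_add q
    · show DifferentiableAt ℝ (fun s : ℝ => w / (‖w‖ : ℝ) * ((Real.sqrt (R s) : ℝ) : ℂ)) 0
      have h1 : DifferentiableAt ℝ (fun s : ℝ => Real.sqrt (R s)) 0 :=
        (hRd 0).sqrt hRpos.ne'
      have h2 : DifferentiableAt ℝ (fun s : ℝ => ((Real.sqrt (R s) : ℝ) : ℂ)) 0 :=
        Complex.ofRealCLM.differentiableAt.comp (0 : ℝ) h1
      exact h2.const_mul _
  classical
  set γ : ℝ → WX := fun s => if h : U s 0 ≠ 0 ∨ U s 1 ≠ 0 then ⟨sig (U s), sig_mem _ h⟩ else T with hγ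
  have hsig0 : sig (U 0) = T.1 := by
    rw [hU0]
    exact sig_of_col T.1 T.2.1 T.2.2 hne0
  have hγ0 : γ 0 = T := by
    rw [hγ]
    simp only
    split_ifs with h1
    · exact Subtype.ext hsig0
    · rfl
  have hUc : ContinuousAt U 0 := hUd.continuousAt
  have hev1 : ∀ᶠ s in 𝓝 (0 : ℝ), U s 0 ≠ 0 ∨ U s 1 ≠ 0 := by
    rcases hne0 with h1 | h1
    · have h2 : ContinuousAt (fun s => U s 0) 0 := (continuousAt_pi.1 hUc) 0
      have h3 : U 0 0 ≠ 0 := by
        rw [hU0]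
        exact h1
      exact (h2.eventually_ne h3).mono fun s hs => Or.inl hs
    · have h2 : ContinuousAt (fun s => U s 1) 0 := (continuousAt_pi.1 hUc) 1
      have h3 : U 0 1 ≠ 0 := by
        rw [hU0]
        exact h1
      exact (h2.eventually_ne h3).mono fun s hs => Or.inr hs
  have hev2 : ∀ᶠ s in 𝓝 (0 : ℝ), 0 < R s :=
    (hRd.continuous.continuousAt (x := (0 : ℝ))).eventually (lt_mem_nhds hRpos)
  have hγs : ∀ᶠ s in 𝓝 (0 : ℝ), (γ s).1 = sig (U s) := by
    filter_upwards [hev1] with s hs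
    show (if h : U s 0 ≠ 0 ∨ U s 1 ≠ 0 then (⟨sig (U s), sig_mem _ h⟩ : WX) else T).1 = _
    rw [dif_pos hs]
  have hU0ne : U 0 0 ≠ 0 ∨ U 0 1 ≠ 0 := hev1.self_of_nhds
  have hsd : DifferentiableAt ℝ (fun s => toA (sig (U s))) 0 :=
    ((sig_contDiffAt (U 0) hU0ne).differentiableAt (by simp)).comp (0 : ℝ) hUd
  have hγc : ContinuousAt γ 0 := by
    rw [Topology.IsInducing.subtypeVal.continuousAt_iff]
    have h1 : ContinuousAt (fun s => toA (sig (U s))) 0 := hsd.continuousAt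
    have h2 : (fun s => toA (sig (U s))) =ᶠ[𝓝 0] fun s => toA ((γ s).1) := by
      filter_upwards [hγs] with s hs
      rw [hs]
    exact h1.congr h2
  refine ⟨γ, hγ0, hγc, ?_, ?_⟩
  · intro c hc hTc
    obtain ⟨g, hg, hch⟩ := hc
    obtain ⟨hc1, hc2, hc3, hc4⟩ := hch
    have hev3 : ∀ᶠ s in 𝓝 (0 : ℝ), γ s ∈ c.source := by
      apply hγc.eventually_mem
      rw [hγ0]
      exact c.open_source.mem_nhds hTc
    let L : A3 →ₗ[ℝ] C3 :=
      { toFun := fun S i => (gᴴ * (Matrix.of S) * gᴴᵀ) i 2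
        map_add' := fun S S' => by
          funext i
          have h1 : Matrix.of (S + S') = Matrix.of S + Matrix.of S' := rfl
          rw [h1, mul_add, add_mul]
          rfl
        map_smul' := fun r S => by
          funext i
          have h1 : Matrix.of (r • S) = r • Matrix.of S := rfl
          rw [h1, mul_smul_comm, smul_mul_assoc]
          rfl }
    have hLd : DifferentiableAt ℝ (fun s => L (toA (sig (U s)))) 0 :=
      (LinearMap.toContinuousLinearMap L).differentiableAt.comp (0 : ℝ) hsd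
    have hL0 : (L (toA (sig (U 0))) 0).re ≠ 0 := by
      have h1 := (hc1 T).1 hTc
      rw [← hsig0] at h1
      exact h1.ne'
    have h5' : DifferentiableAt ℝ gnom (L (toA (sig (U 0)))) :=
      (gnom_contDiffAt _ hL0).differentiableAt (by simp)
    have h5 : DifferentiableAt ℝ (fun s => gnom (L (toA (sig (U s))))) 0 :=
      DifferentiableAt.comp (g := gnom) (f := fun s => L (toA (sig (U s)))) (0 : ℝ) h5' hLd
    refine h5.congr_of_eventuallyEq ?_
    filter_upwards [hev3, hγs] with s h6 h7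
    rw [hc3 _ h6, h7]
    rfl
  · filter_upwards [hγs, hev2] with s h1 h2
    have h3 : Complex.normSq (w / (‖w‖ : ℝ) * ((Real.sqrt (R s) : ℝ) : ℂ)) = R s := by
      rw [map_mul, map_div₀, Complex.normSq_ofReal, Complex.normSq_ofReal, Real.mul_self_sqrt h2.le,
        Complex.normSq_eq_norm_sq, ← sq, div_self (by positivity), one_mul]
    have h4 : Real.sqrt (Complex.normSq (U s 0) + Complex.normSq (U s 1) + Complex.normSq (U s 2)) = 1 := by
      have e : Complex.normSq (U s 0) + Complex.normSq (U s 1) + Complex.normSq (U s 2) = 1 := by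
        show Complex.normSq (p + s * a) + Complex.normSq (q + s * b) +
          Complex.normSq (w / (‖w‖ : ℝ) * ((Real.sqrt (R s) : ℝ) : ℂ)) = 1
        rw [h3]
        exact hRn s
      rw [e, Real.sqrt_one]
    have h5 : ∀ i, (γ s).1 i 2 = U s i := by
      intro i
      rw [h1, sig_col, h4, Complex.ofReal_one, div_one]
    refine ⟨h5 0, h5 1, ?_⟩
    rw [h5 2]
    show star (w / (‖w‖ : ℝ) * ((Real.sqrt (R s) : ℝ) : ℂ)) /
      ((‖w / (‖w‖ : ℝ) * ((Real.sqrt (R s) : ℝ) : ℂ)‖ : ℝ) : ℂ) = star w / (‖w‖ : ℝ)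
    have h6 : 0 < Real.sqrt (R s) := Real.sqrt_pos.2 h2
    have h7 : ‖w / (‖w‖ : ℝ) * ((Real.sqrt (R s) : ℝ) : ℂ)‖ = Real.sqrt (R s) := by
      rw [norm_mul, norm_div, Complex.norm_real, Complex.norm_real, Real.norm_of_nonneg h6.le,
        Real.norm_of_nonneg hw2.le, div_self hw2.ne', one_mul]
    rw [h7, star_mul', star_div₀]
    have h8 : star (((Real.sqrt (R s) : ℝ) : ℂ)) = ((Real.sqrt (R s) : ℝ) : ℂ) := Complex.conj_ofReal _
    have h9 : star (((‖w‖ : ℝ) : ℂ)) = ((‖w‖ : ℝ) : ℂ) := Complex.conj_ofReal _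
    rw [h8, h9, mul_div_assoc, div_self, mul_one]
    exact_mod_cast h6.ne'

end Wu
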