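import Pool.Agent.Lib.MP_60079e_gt.WI

/-! The perturbation `G`. -/

open Set Metric Topology Matrix
open scoped ContDiff

namespace Wu

noncomputable def cw (w : ℂ) : ℝ := 1 / Real.sqrt (1 + (7 / 24) ^ 2 * Complex.normSq w)

noncomputable def Dm (w : ℂ) : M3 :=
  !![(cw w : ℂ), 0, (7 / 24) * (cw w : ℂ) * star w; 0, 1, 0;
     -((7 / 24) * (cw w : ℂ) * w), 0, (cw w : ℂ)]

theorem GmA_pos (w : ℂ) : 0 < 1 + (7 / 24 : ℝ) ^ 2 * Complex.normSq w := by
  have := Complex.normSq_nonneg w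
  positivity

theorem GmA_cw_pos (w : ℂ) : 0 < cw w := by
  unfold cw
  have := GmA_pos w
  positivity

theorem GmA_cw_sq (w : ℂ) : cw w ^ 2 * (1 + (7 / 24) ^ 2 * Complex.normSq w) = 1 := by
  have h := GmA_pos w
  unfold cw
  rw [div_pow, one_pow, Real.sq_sqrt h.le, one_div, inv_mul_cancel₀ h.ne']

theorem GmA_cw_le (w : ℂ) : cw w ^ 2 ≤ 1 := by
  have h := GmA_cw_sq w
  have h1 := Complex.normSq_nonneg w
  have h2 : 0 ≤ cw w ^ 2 * ((7 / 24) ^ 2 * Complex.normSq w) := by positivity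
  nlinarith

theorem GmA_cw_sqC (w : ℂ) :
    (cw w : ℂ) ^ 2 * (1 + (7 / 24) ^ 2 * (w * (starRingEnd ℂ) w)) = 1 := by
  have h := GmA_cw_sq w
  rw [Complex.mul_conj]
  have h2 := congrArg (fun r : ℝ => (r : ℂ)) h
  simpa using h2

theorem Dm_mem (w : ℂ) : Dm w ∈ SU3 := by
  have h := GmA_cw_sqC w
  rw [Matrix.mem_specialUnitaryGroup_iff, Matrix.mem_unitaryGroup_iff]
  constructor
  · ext i j
    rw [Matrix.mul_apply, Fin.sum_univ_three]
    simp only [Matrix.star_apply]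
    fin_cases i <;> fin_cases j <;>
      simp [Dm, -mul_eq_mul_right_iff, -mul_eq_mul_left_iff] <;>
      first | linear_combination h | ring
  · rw [Matrix.det_fin_three]
    simp only [Dm, Matrix.of_apply, Matrix.cons_val', Matrix.cons_val_zero, Matrix.cons_val_one,
      Matrix.cons_val_fin_one, Matrix.cons_val]
    have h2 : star w = (starRingEnd ℂ) w := rfl
    rw [h2]
    linear_combination h

/-- `G S = D_w S D_wᵀ`, `w = S₂₂`. -/
noncomputable def GW (S : WX) : WX := ⟨tr (Dm (S.1 2 2)) S.1, tr_mem (Dm_mem _) S.2⟩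

theorem GmA_tr_apply (D S : M3) (i j : Fin 3) :
    tr D S i j = ∑ l, (∑ k, D i k * S k l) * D j l := by
  unfold tr
  rw [Matrix.mul_apply]
  refine Finset.sum_congr rfl fun l _ => ?_
  rw [Matrix.mul_apply]
  rfl

/-- the ambient formula -/
noncomputable def GmA_F (S : A3) : A3 := toA (tr (Dm (S 2 2)) S)

theorem GmA_cw_contDiff : ContDiff ℝ ∞ cw := by
  have h1 : ContDiff ℝ ∞ (fun w : ℂ => 1 + (7 / 24 : ℝ) ^ 2 * Complex.normSq w) := by
    have h2 : (fun w : ℂ => 1 + (7 / 24 : ℝ) ^ 2 * Complex.normSq w) =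
        fun w : ℂ => 1 + (7 / 24 : ℝ) ^ 2 * (Complex.reCLM w * Complex.reCLM w +
          Complex.imCLM w * Complex.imCLM w) := by
      funext w
      rfl
    rw [h2]
    exact contDiff_const.add (contDiff_const.mul
      ((Complex.reCLM.contDiff.mul Complex.reCLM.contDiff).add
        (Complex.imCLM.contDiff.mul Complex.imCLM.contDiff)))
  unfold cw
  rw [contDiff_iff_contDiffAt]
  intro w
  have h3 := GmA_pos w
  exact (contDiffAt_const).div (h1.contDiffAt.sqrt h3.ne') (Real.sqrt_pos.mpr h3).ne'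

theorem GmA_Dm_contDiff (i j : Fin 3) : ContDiff ℝ ∞ (fun w : ℂ => Dm w i j) := by
  have hc : ContDiff ℝ ∞ (fun w : ℂ => (cw w : ℂ)) := Complex.ofRealCLM.contDiff.comp GmA_cw_contDiff
  have hs : ContDiff ℝ ∞ (fun w : ℂ => star w) := Complex.conjCLE.contDiff
  have hid : ContDiff ℝ ∞ (fun w : ℂ => w) := contDiff_id
  fin_cases i <;> fin_cases j <;> simp only [Dm, Matrix.of_apply, Matrix.cons_val', Matrix.cons_val_zero, Matrix.cons_val_one,
      Matrix.cons_val_fin_one, Matrix.cons_val, Fin.zero_eta, Fin.mk_one, Fin.reduceFinMk]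
  · exact hc
  · exact contDiff_const
  · exact (contDiff_const.mul hc).mul hs
  · exact contDiff_const
  · exact contDiff_const
  · exact contDiff_const
  · exact ((contDiff_const.mul hc).mul hid).neg
  · exact contDiff_const
  · exact hc

theorem GmA_F_contDiff : ContDiff ℝ ∞ GmA_F := by
  have hp : ∀ i j : Fin 3, ContDiff ℝ ∞ (fun S : A3 => S i j) := by
    intro i j
    exact (contDiff_pi.mp ((contDiff_pi.mp contDiff_id) i)) j
  have hD : ∀ i j : Fin 3, ContDiff ℝ ∞ (fun S : A3 => Dm (S 2 2) i j) := by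
    intro i j
    exact (GmA_Dm_contDiff i j).comp (hp 2 2)
  rw [contDiff_pi]
  intro i
  rw [contDiff_pi]
  intro j
  have h : (fun S : A3 => GmA_F S i j) =
      fun S : A3 => ∑ l, (∑ k, Dm (S 2 2) i k * S k l) * Dm (S 2 2) j l := by
    funext S
    exact GmA_tr_apply _ _ _ _
  rw [h]
  exact ContDiff.sum fun l _ => (ContDiff.sum fun k _ => (hD i k).mul (hp k l)).mul (hD j l)

theorem continuous_GW : Continuous GW := by
  refine Continuous.subtype_mk ?_ _
  exact GmA_F_contDiff.continuous.comp continuous_subtype_val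

/-! ### derivative of `Dm` -/

/-- derivative of `cw` at `w` in the direction `η` -/
noncomputable def GmA_cd (w η : ℂ) : ℝ := -(cw w ^ 3 * (7 / 24) ^ 2 * (w.re * η.re + w.im * η.im))

/-- derivative of `Dm` at `w` in the direction `η` -/
noncomputable def GmA_Dd (w η : ℂ) : M3 :=
  !![(GmA_cd w η : ℂ), 0, (7 / 24) * ((GmA_cd w η : ℂ) * star w + (cw w : ℂ) * star η); 0, 0, 0;
     -((7 / 24) * ((GmA_cd w η : ℂ) * w + (cw w : ℂ) * η)), 0, (GmA_cd w η : ℂ)]

theorem GmA_cw_deriv (w η : ℂ) :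
    HasDerivAt (fun s : ℝ => cw (w + s • η)) (GmA_cd w η) 0 := by
  have h0 : HasDerivAt (fun s : ℝ => 1 + (7 / 24 : ℝ) ^ 2 * Complex.normSq (w + s • η))
      ((7 / 24 : ℝ) ^ 2 * (2 * (w.re * η.re + w.im * η.im))) 0 := by
    have h1 : (fun s : ℝ => 1 + (7 / 24 : ℝ) ^ 2 * Complex.normSq (w + s • η)) =
        fun s : ℝ => 1 + (7 / 24 : ℝ) ^ 2 * ((w.re + s * η.re) * (w.re + s * η.re) +
          (w.im + s * η.im) * (w.im + s * η.im)) := by
      funext s
      rw [Complex.normSq_apply]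
      simp
    rw [h1]
    have hr : HasDerivAt (fun s : ℝ => w.re + s * η.re) η.re 0 := by
      simpa using ((hasDerivAt_id (0 : ℝ)).mul_const η.re).const_add w.re
    have hi : HasDerivAt (fun s : ℝ => w.im + s * η.im) η.im 0 := by
      simpa using ((hasDerivAt_id (0 : ℝ)).mul_const η.im).const_add w.im
    have h2 := (((hr.mul hr).add (hi.mul hi)).const_mul ((7 / 24 : ℝ) ^ 2)).const_add 1
    refine h2.congr_deriv ?_
    simp only [zero_mul, add_zero]
    ring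
  have hpos := GmA_pos w
  have hw0 : w + (0 : ℝ) • η = w := by rw [zero_smul, add_zero]
  have h3 := h0.sqrt (by rw [hw0]; exact hpos.ne')
  have h4 := h3.inv (by rw [hw0]; exact (Real.sqrt_pos.mpr hpos).ne')
  have h5 : (fun s : ℝ => cw (w + s • η)) =
      fun s : ℝ => (Real.sqrt (1 + (7 / 24 : ℝ) ^ 2 * Complex.normSq (w + s • η)))⁻¹ := by
    funext s
    unfold cw
    rw [one_div]
  rw [h5]
  refine h4.congr_deriv ?_
  rw [hw0]
  unfold GmA_cd cw
  have hs := Real.sq_sqrt hpos.le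
  have hs0 := Real.sqrt_pos.mpr hpos
  set r := Real.sqrt (1 + (7 / 24 : ℝ) ^ 2 * Complex.normSq w) with hr
  field_simp
  try ring

theorem GmA_Dm_deriv (w η : ℂ) (i j : Fin 3) :
    HasDerivAt (fun s : ℝ => Dm (w + s • η) i j) (GmA_Dd w η i j) 0 := by
  have hc : HasDerivAt (fun s : ℝ => (cw (w + s • η) : ℂ)) (GmA_cd w η : ℂ) 0 :=
    (GmA_cw_deriv w η).ofReal_comp
  have hid : HasDerivAt (fun s : ℝ => w + s • η) η 0 := by
    simpa using ((hasDerivAt_id (0 : ℝ)).smul_const η).const_add w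
  have hs : HasDerivAt (fun s : ℝ => star (w + s • η)) (star η) 0 := by
    have h := (Complex.conjCLE.toContinuousLinearMap.hasFDerivAt (x := w + (0 : ℝ) • η)).comp_hasDerivAt
      (0 : ℝ) hid
    exact h
  have hw0 : w + (0 : ℝ) • η = w := by rw [zero_smul, add_zero]
  have h02 : HasDerivAt (fun s : ℝ => (7 / 24 : ℂ) * (cw (w + s • η) : ℂ) * star (w + s • η))
      ((7 / 24) * ((GmA_cd w η : ℂ) * star w + (cw w : ℂ) * star η)) 0 := by
    have h := ((hc.mul hs).const_mul (7 / 24 : ℂ))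
    have h2 : (fun s : ℝ => (7 / 24 : ℂ) * (cw (w + s • η) : ℂ) * star (w + s • η)) =
        fun s : ℝ => (7 / 24 : ℂ) * ((cw (w + s • η) : ℂ) * star (w + s • η)) := by
      funext s
      ring
    rw [h2]
    refine h.congr_deriv ?_
    rw [hw0]
  have h20 : HasDerivAt (fun s : ℝ => -((7 / 24 : ℂ) * (cw (w + s • η) : ℂ) * (w + s • η)))
      (-((7 / 24) * ((GmA_cd w η : ℂ) * w + (cw w : ℂ) * η))) 0 := by
    have h := ((hc.mul hid).const_mul (7 / 24 : ℂ)).neg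
    have h2 : (fun s : ℝ => -((7 / 24 : ℂ) * (cw (w + s • η) : ℂ) * (w + s • η))) =
        fun s : ℝ => -((7 / 24 : ℂ) * ((cw (w + s • η) : ℂ) * (w + s • η))) := by
      funext s
      ring
    rw [h2]
    refine h.congr_deriv ?_
    rw [hw0]
  have h0 : ∀ a : ℂ, HasDerivAt (fun _ : ℝ => a) 0 (0 : ℝ) := fun a => hasDerivAt_const _ _
  fin_cases i <;> fin_cases j
  · exact hc
  · exact h0 _
  · exact h02
  · exact h0 _
  · exact h0 _
  · exact h0 _
  · exact h20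
  · exact h0 _
  · exact hc

theorem GmA_mul_deriv {A B : ℝ → M3} {A' B' : M3}
    (hA : ∀ i j, HasDerivAt (fun s => A s i j) (A' i j) 0)
    (hB : ∀ i j, HasDerivAt (fun s => B s i j) (B' i j) 0) (i j : Fin 3) :
    HasDerivAt (fun s => (A s * B s) i j) ((A' * B 0 + A 0 * B') i j) 0 := by
  have h : (fun s => (A s * B s) i j) = fun s => ∑ k, A s i k * B s k j := by
    funext s
    rw [Matrix.mul_apply]
  rw [h]
  have h2 := HasDerivAt.fun_sum (u := (Finset.univ : Finset (Fin 3))) (A := fun k s => A s i k * B s k j)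
    (A' := fun k => A' i k * B 0 k j + A 0 i k * B' k j) (x := (0 : ℝ))
    (fun k _ => (hA i k).mul (hB k j))
  refine h2.congr_deriv ?_
  rw [Matrix.add_apply, Matrix.mul_apply, Matrix.mul_apply, ← Finset.sum_add_distrib]

/-- derivative of the ambient formula along a line -/
theorem GmA_F_deriv (S δ : M3) :
    fderiv ℝ GmA_F (toA S) (toA δ) =
      toA ((GmA_Dd (S 2 2) (δ 2 2) * S + Dm (S 2 2) * δ) * (Dm (S 2 2))ᵀ +
        Dm (S 2 2) * S * (GmA_Dd (S 2 2) (δ 2 2))ᵀ) := by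
  have hid : HasDerivAt (fun s : ℝ => toA S + s • toA δ) (toA δ) 0 := by
    simpa using ((hasDerivAt_id (0 : ℝ)).smul_const (toA δ)).const_add (toA S)
  have hF : HasFDerivAt GmA_F (fderiv ℝ GmA_F (toA S)) (toA S + (0 : ℝ) • toA δ) := by
    rw [zero_smul, add_zero]
    exact ((GmA_F_contDiff.differentiable (by simp)) (toA S)).hasFDerivAt
  have h1 := hF.comp_hasDerivAt (0 : ℝ) hid
  refine h1.unique ?_
  rw [hasDerivAt_pi]
  intro i
  rw [hasDerivAt_pi]
  intro j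
  have hS : ∀ i j : Fin 3, HasDerivAt (fun s : ℝ => (S + s • δ) i j) (δ i j) 0 := by
    intro i j
    have h2 : HasDerivAt (fun s : ℝ => S i j + s • δ i j) (δ i j) 0 := by
      simpa using ((hasDerivAt_id (0 : ℝ)).smul_const (δ i j)).const_add (S i j)
    exact h2
  have hD := GmA_Dm_deriv (S 2 2) (δ 2 2)
  have h3 := GmA_mul_deriv (A := fun s => Dm (S 2 2 + s • δ 2 2)) (B := fun s => S + s • δ) hD hS
  have h4 := GmA_mul_deriv (A := fun s => Dm (S 2 2 + s • δ 2 2) * (S + s • δ))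
    (B := fun s => (Dm (S 2 2 + s • δ 2 2))ᵀ) (B' := (GmA_Dd (S 2 2) (δ 2 2))ᵀ) h3
    (fun i j => hD j i) i j
  refine h4.congr_deriv ?_
  simp only [zero_smul, add_zero]
  rfl

/-- `Dᴴ dD` -/
noncomputable def GmA_Xi (w η : ℂ) : M3 :=
  !![((cw w : ℂ) ^ 2 * (7 / 24) ^ 2 / 2) * (star w * η - w * star η), 0,
      (cw w : ℂ) ^ 2 * (7 / 24) * star η; 0, 0, 0;
     -((cw w : ℂ) ^ 2 * (7 / 24) * η), 0,
      -((cw w : ℂ) ^ 2 * (7 / 24) ^ 2 / 2) * (star w * η - w * star η)]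

theorem GmA_cdC (w η : ℂ) : (GmA_cd w η : ℂ) =
    -((cw w : ℂ) ^ 3 * (7 / 24) ^ 2 / 2 * (w * (starRingEnd ℂ) η + (starRingEnd ℂ) w * η)) := by
  have h : w * (starRingEnd ℂ) η + (starRingEnd ℂ) w * η =
      ((2 * (w.re * η.re + w.im * η.im) : ℝ) : ℂ) := by
    apply Complex.ext
    · simp
      ring
    · simp
      ring
  rw [h]
  unfold GmA_cd
  push_cast
  ring

theorem GmA_D_mul_Xi (w η : ℂ) : Dm w * GmA_Xi w η = GmA_Dd w η := by
  have h := GmA_cw_sqC w
  have hd := GmA_cdC w η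
  ext i j
  rw [Matrix.mul_apply, Fin.sum_univ_three]
  fin_cases i <;> fin_cases j <;> simp [Dm, GmA_Xi, GmA_Dd, hd, -mul_eq_mul_right_iff, -mul_eq_mul_left_iff]
  · ring
  · linear_combination (7 / 24 : ℂ) * (cw w : ℂ) * (starRingEnd ℂ) η * h
  · linear_combination -((7 / 24 : ℂ) * (cw w : ℂ) * η * h)
  · ring

theorem GmA_Xi_skew (w η : ℂ) : (GmA_Xi w η)ᴴ = -GmA_Xi w η := by
  ext i j
  fin_cases i <;> fin_cases j <;> simp [GmA_Xi] <;> ring

theorem GmA_Xi_trace (w η : ℂ) : (GmA_Xi w η).trace = 0 := by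
  rw [Matrix.trace_fin_three]
  simp [GmA_Xi]

/-- squared Frobenius norm -/
noncomputable def GmA_q (A : M3) : ℝ := ∑ i, ∑ j, Complex.normSq (A i j)

theorem GmA_q_nonneg (A : M3) : 0 ≤ GmA_q A :=
  Finset.sum_nonneg fun _ _ => Finset.sum_nonneg fun _ _ => Complex.normSq_nonneg _

theorem GmA_q_trace (A : M3) : ((GmA_q A : ℝ) : ℂ) = (A * Aᴴ).trace := by
  unfold GmA_q
  rw [Matrix.trace]
  push_cast
  refine Finset.sum_congr rfl fun i _ => ?_
  rw [Matrix.diag_apply, Matrix.mul_apply]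
  refine Finset.sum_congr rfl fun j _ => ?_
  rw [Matrix.conjTranspose_apply]
  exact (Complex.mul_conj _).symm

theorem GmA_q_mul_right (A U : M3) (hU : U * Uᴴ = 1) : GmA_q (A * U) = GmA_q A := by
  have h : ((GmA_q (A * U) : ℝ) : ℂ) = ((GmA_q A : ℝ) : ℂ) := by
    rw [GmA_q_trace, GmA_q_trace, Matrix.conjTranspose_mul, Matrix.mul_assoc, ← Matrix.mul_assoc U,
      hU, Matrix.one_mul]
  exact_mod_cast h

theorem GmA_q_mul_left (A U : M3) (hU : Uᴴ * U = 1) : GmA_q (U * A) = GmA_q A := by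
  have h : ((GmA_q (U * A) : ℝ) : ℂ) = ((GmA_q A : ℝ) : ℂ) := by
    rw [GmA_q_trace, GmA_q_trace, Matrix.conjTranspose_mul, Matrix.trace_mul_comm,
      Matrix.mul_assoc, ← Matrix.mul_assoc Uᴴ, hU, Matrix.one_mul, Matrix.trace_mul_comm]
  exact_mod_cast h

theorem GmA_q_transpose (A : M3) : GmA_q Aᵀ = GmA_q A := by
  unfold GmA_q
  rw [Finset.sum_comm]
  rfl

theorem GmA_q_add (A B : M3) : GmA_q (A + B) ≤ 2 * GmA_q A + 2 * GmA_q B := by
  unfold GmA_q
  rw [Finset.mul_sum, Finset.mul_sum, ← Finset.sum_add_distrib]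
  refine Finset.sum_le_sum fun i _ => ?_
  rw [Finset.mul_sum, Finset.mul_sum, ← Finset.sum_add_distrib]
  refine Finset.sum_le_sum fun j _ => ?_
  rw [Matrix.add_apply, Complex.normSq_apply, Complex.normSq_apply, Complex.normSq_apply,
    Complex.add_re, Complex.add_im]
  nlinarith [sq_nonneg ((A i j).re - (B i j).re), sq_nonneg ((A i j).im - (B i j).im)]

theorem GmA_q_I (A : M3) : GmA_q (Complex.I • A) = GmA_q A := by
  unfold GmA_q
  refine Finset.sum_congr rfl fun i _ => Finset.sum_congr rfl fun j _ => ?_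
  rw [Matrix.smul_apply, smul_eq_mul, Complex.normSq_mul, Complex.normSq_I, one_mul]

theorem GmA_q_smul (a : ℝ) (A : M3) : GmA_q (a • A) = a ^ 2 * GmA_q A := by
  unfold GmA_q
  rw [Finset.mul_sum]
  refine Finset.sum_congr rfl fun i _ => ?_
  rw [Finset.mul_sum]
  refine Finset.sum_congr rfl fun j _ => ?_
  rw [Matrix.smul_apply, Complex.real_smul, Complex.normSq_mul, Complex.normSq_ofReal]
  ring

theorem GmA_q_entry (A : M3) (i j : Fin 3) : Complex.normSq (A i j) ≤ GmA_q A := by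
  unfold GmA_q
  refine le_trans ?_ (Finset.single_le_sum (f := fun i => ∑ j, Complex.normSq (A i j))
    (fun i _ => Finset.sum_nonneg fun j _ => Complex.normSq_nonneg _) (Finset.mem_univ i))
  exact Finset.single_le_sum (f := fun j => Complex.normSq (A i j))
    (fun j _ => Complex.normSq_nonneg _) (Finset.mem_univ j)

theorem GmA_q_Xi (w η : ℂ) : GmA_q (GmA_Xi w η) ≤ 2 * (7 / 24) ^ 2 * Complex.normSq η := by
  have h1 : GmA_q (GmA_Xi w η) = 2 * ((cw w ^ 2 * (7 / 24) ^ 2) ^ 2 * (w.re * η.im - w.im * η.re) ^ 2) +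
      2 * ((cw w ^ 2 * (7 / 24)) ^ 2 * Complex.normSq η) := by
    have ed : star w * η - w * star η = ((2 * (w.re * η.im - w.im * η.re) : ℝ) : ℂ) * Complex.I := by
      apply Complex.ext
      · simp
      · simp
        ring
    have e00 : Complex.normSq (((cw w : ℂ) ^ 2 * (7 / 24) ^ 2 / 2) * (star w * η - w * star η)) =
        (cw w ^ 2 * (7 / 24) ^ 2) ^ 2 * (w.re * η.im - w.im * η.re) ^ 2 := by
      have e : ((cw w : ℂ) ^ 2 * (7 / 24) ^ 2 / 2) * (star w * η - w * star η) =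
          ((cw w ^ 2 * (7 / 24) ^ 2 * (w.re * η.im - w.im * η.re) : ℝ) : ℂ) * Complex.I := by
        rw [ed]
        push_cast
        ring
      rw [e, Complex.normSq_mul, Complex.normSq_I, Complex.normSq_ofReal]
      ring
    have e02 : ∀ z : ℂ, Complex.normSq ((cw w : ℂ) ^ 2 * (7 / 24) * z) =
        (cw w ^ 2 * (7 / 24)) ^ 2 * Complex.normSq z := by
      intro z
      have e : (cw w : ℂ) ^ 2 * (7 / 24) * z = ((cw w ^ 2 * (7 / 24) : ℝ) : ℂ) * z := by
        push_cast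
        ring
      rw [e, Complex.normSq_mul, Complex.normSq_ofReal]
      ring
    have e22 : -((cw w : ℂ) ^ 2 * (7 / 24) ^ 2 / 2) * (star w * η - w * star η) =
        -(((cw w : ℂ) ^ 2 * (7 / 24) ^ 2 / 2) * (star w * η - w * star η)) := by ring
    have estar : Complex.normSq (star η) = Complex.normSq η := Complex.normSq_conj η
    unfold GmA_q
    simp only [Fin.sum_univ_three, GmA_Xi, Matrix.of_apply, Matrix.cons_val', Matrix.cons_val_zero,
      Matrix.cons_val_one, Matrix.cons_val_fin_one, Matrix.cons_val, Complex.normSq_zero]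
    simp only [e22, Complex.normSq_neg]
    rw [e00, e02, e02, estar]
    ring
  have h2 := GmA_cw_sq w
  have h3 := GmA_cw_le w
  have h4 : (w.re * η.im - w.im * η.re) ^ 2 ≤ Complex.normSq w * Complex.normSq η := by
    rw [Complex.normSq_apply, Complex.normSq_apply]
    nlinarith [sq_nonneg (w.re * η.re + w.im * η.im)]
  rw [h1]
  have h5 := Complex.normSq_nonneg η
  have h6 : (cw w ^ 2 * (7 / 24) ^ 2) ^ 2 * (w.re * η.im - w.im * η.re) ^ 2 ≤
      (cw w ^ 2 * (7 / 24) ^ 2) ^ 2 * (Complex.normSq w * Complex.normSq η) :=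
    mul_le_mul_of_nonneg_left h4 (by positivity)
  have h7 : 2 * ((cw w ^ 2 * (7 / 24) ^ 2) ^ 2 * (Complex.normSq w * Complex.normSq η)) +
      2 * ((cw w ^ 2 * (7 / 24)) ^ 2 * Complex.normSq η) =
      2 * (7 / 24) ^ 2 * cw w ^ 2 * (cw w ^ 2 * (1 + (7 / 24) ^ 2 * Complex.normSq w)) * Complex.normSq η := by
    ring
  have h8 : 2 * (7 / 24) ^ 2 * cw w ^ 2 * (cw w ^ 2 * (1 + (7 / 24) ^ 2 * Complex.normSq w)) * Complex.normSq η ≤
      2 * (7 / 24) ^ 2 * Complex.normSq η := by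
    rw [h2]
    nlinarith
  linarith

theorem GmA_exists_Xm (Z : M3) (hT : Zᵀ = Z) (hH : Zᴴ = -Z) (htr : Z.trace = 0) :
    ∃ y : E5, Z = Complex.I • Xm y := by
  have hT' : ∀ i j, Z j i = Z i j := fun i j => congrFun (congrFun hT i) j
  have hre : ∀ i j, (Z i j).re = 0 := by
    intro i j
    have h1 := congrFun (congrFun hH i) j
    rw [Matrix.conjTranspose_apply, Matrix.neg_apply, hT' i j] at h1
    have h2 := congrArg Complex.re h1
    rw [Complex.neg_re] at h2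
    have h3 : (star (Z i j)).re = (Z i j).re := rfl
    rw [h3] at h2
    linarith
  rw [Matrix.trace_fin_three] at htr
  have htr' : (Z 0 0).im + (Z 1 1).im + (Z 2 2).im = 0 := by
    have := congrArg Complex.im htr
    simpa using this
  refine ⟨!₂[((Z 0 0).im - (Z 1 1).im) / 2, (Z 0 1).im, (Z 0 2).im, (Z 1 2).im, -(Z 2 2).im / 2], ?_⟩
  have e10 := hT' 0 1
  have e20 := hT' 0 2
  have e21 := hT' 1 2
  ext i j
  apply Complex.ext
  · rw [hre]
    fin_cases i <;> fin_cases j <;> simp [Xm]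
  · fin_cases i <;> fin_cases j <;> simp [Xm, e10, e20, e21] <;> linarith

theorem GmA_ct {U : M3} (hU : U ∈ SU3) : (Uᵀ)ᴴ * Uᵀ = 1 := by
  have h := mul_ct hU
  have h2 := congrArg Matrix.transpose h
  rw [Matrix.transpose_mul, Matrix.transpose_one] at h2
  exact h2

theorem GmA_q_left {U : M3} (hU : U ∈ SU3) (A : M3) : GmA_q (U * A) = GmA_q A :=
  GmA_q_mul_left A U (ct_mul hU)

theorem GmA_q_right {U : M3} (hU : U ∈ SU3) (A : M3) : GmA_q (A * U) = GmA_q A :=
  GmA_q_mul_right A U (mul_ct hU)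

theorem GmA_q_rightT {U : M3} (hU : U ∈ SU3) (A : M3) : GmA_q (A * Uᵀ) = GmA_q A := by
  rw [← GmA_q_transpose, Matrix.transpose_mul, Matrix.transpose_transpose, GmA_q_left hU,
    GmA_q_transpose]

theorem GmA_q_FrL {E : M3} (hE : E ∈ SU3) (x : E5) :
    GmA_q (E * (Complex.I • Xm x) * Eᵀ) = GmA_q (Xm x) := by
  rw [GmA_q_rightT hE, GmA_q_left hE, GmA_q_I]

theorem GmA_q_Xm_pos {x : E5} (hx : x ≠ 0) : 0 < GmA_q (Xm x) := by
  rcases (GmA_q_nonneg (Xm x)).lt_or_eq with h | h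
  · exact h
  · exfalso
    have h1 : ∀ i j, Xm x i j = 0 := by
      intro i j
      have h2 := GmA_q_entry (Xm x) i j
      rw [← h] at h2
      exact Complex.normSq_eq_zero.mp (le_antisymm h2 (Complex.normSq_nonneg _))
    apply hx
    have h00 := congrArg Complex.re (h1 0 0)
    have h11 := congrArg Complex.re (h1 1 1)
    have h01 := congrArg Complex.re (h1 0 1)
    have h02 := congrArg Complex.re (h1 0 2)
    have h12 := congrArg Complex.re (h1 1 2)
    simp [Xm] at h00 h11 h01 h02 h12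
    ext k
    fin_cases k
    · show x 0 = 0
      linarith
    · show x 1 = 0
      exact h01
    · show x 2 = 0
      exact h02
    · show x 3 = 0
      exact h12
    · show x 4 = 0
      linarith

/-- the difference term is tangent -/
theorem GmA_tangent {C : M3} (hC : C ∈ SU3) (w η : ℂ) :
    ∃ y : E5, GmA_Dd w η * (C * Cᵀ) * (Dm w)ᵀ + Dm w * (C * Cᵀ) * (GmA_Dd w η)ᵀ =
      (Dm w * C) * (Complex.I • Xm y) * (Dm w * C)ᵀ := by
  have hcc := mul_ct hC
  have hcc' : C * (Cᴴ * GmA_Xi w η * C) = GmA_Xi w η * C := by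
    rw [← Matrix.mul_assoc, ← Matrix.mul_assoc, hcc, Matrix.one_mul]
  obtain ⟨Y, hY⟩ : ∃ Y : M3, Cᴴ * GmA_Xi w η * C = Y := ⟨_, rfl⟩
  rw [hY] at hcc'
  have hYs : Yᴴ = -Y := by
    rw [← hY, Matrix.conjTranspose_mul, Matrix.conjTranspose_mul, Matrix.conjTranspose_conjTranspose,
      GmA_Xi_skew, Matrix.neg_mul, Matrix.mul_neg, Matrix.mul_assoc]
  have hYt : Y.trace = 0 := by
    rw [← hY, Matrix.trace_mul_comm, ← Matrix.mul_assoc, hcc, Matrix.one_mul, GmA_Xi_trace]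
  obtain ⟨y, hy⟩ := GmA_exists_Xm (Y + Yᵀ)
    (by rw [Matrix.transpose_add, Matrix.transpose_transpose, add_comm])
    (by
      rw [Matrix.conjTranspose_add, hYs]
      have h1 : (Yᵀ)ᴴ = (Yᴴ)ᵀ := rfl
      rw [h1, hYs, Matrix.transpose_neg, neg_add])
    (by rw [Matrix.trace_add, Matrix.trace_transpose, hYt, add_zero])
  refine ⟨y, ?_⟩
  rw [← hy, ← GmA_D_mul_Xi, Matrix.transpose_mul, Matrix.transpose_mul, Matrix.mul_add,
    Matrix.add_mul]
  congr 1
  · have h1 : Dm w * GmA_Xi w η * (C * Cᵀ) * (Dm w)ᵀ = Dm w * (GmA_Xi w η * C) * (Cᵀ * (Dm w)ᵀ) := by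
      simp only [Matrix.mul_assoc]
    rw [h1, ← hcc']
    simp only [Matrix.mul_assoc]
  · have h2 := congrArg Matrix.transpose hcc'
    rw [Matrix.transpose_mul, Matrix.transpose_mul] at h2
    have h1 : Dm w * (C * Cᵀ) * ((GmA_Xi w η)ᵀ * (Dm w)ᵀ) =
        Dm w * C * (Cᵀ * (GmA_Xi w η)ᵀ) * (Dm w)ᵀ := by
      simp only [Matrix.mul_assoc]
    rw [h1, ← h2]
    simp only [Matrix.mul_assoc]

theorem GmA_q_diff {C : M3} (hC : C ∈ SU3) (w η : ℂ) :
    GmA_q (GmA_Dd w η * (C * Cᵀ) * (Dm w)ᵀ + Dm w * (C * Cᵀ) * (GmA_Dd w η)ᵀ) ≤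
      8 * (7 / 24) ^ 2 * Complex.normSq η := by
  have hS := (mulT_mem hC).1
  have hD := Dm_mem w
  refine le_trans (GmA_q_add _ _) ?_
  have h1 : GmA_q (GmA_Dd w η * (C * Cᵀ) * (Dm w)ᵀ) = GmA_q (GmA_Xi w η) := by
    rw [GmA_q_rightT hD, GmA_q_right hS, ← GmA_D_mul_Xi, GmA_q_left hD]
  have h2 : GmA_q (Dm w * (C * Cᵀ) * (GmA_Dd w η)ᵀ) = GmA_q (GmA_Xi w η) := by
    rw [Matrix.mul_assoc, GmA_q_left hD, GmA_q_left hS, GmA_q_transpose, ← GmA_D_mul_Xi,
      GmA_q_left hD]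
  rw [h1, h2]
  have h3 := GmA_q_Xi w η
  linarith

theorem opAt_GW (S : WX) : OPAt WM WM GW S := by
  obtain ⟨C, hC, hCS⟩ := takagi S.1 S.2.1 S.2.2
  have hDC : Dm (S.1 2 2) * C ∈ SU3 := mul_mem (Dm_mem _) hC
  have hinj := FrL_injective hDC
  obtain ⟨g, hg⟩ := LinearMap.exists_leftInverse_of_injective
    (FrL (Dm (S.1 2 2) * C)).toLinearMap (LinearMap.ker_eq_bot.mpr hinj)
  have hg' : ∀ y, g (FrL (Dm (S.1 2 2) * C) y) = y := fun y => LinearMap.congr_fun hg y
  -- the difference term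
  have hdiff : ∀ x : E5, ∃ y : E5, (fderiv ℝ GmA_F (toA S.1)) (FrL C x) =
      FrL (Dm (S.1 2 2) * C) x + FrL (Dm (S.1 2 2) * C) y ∧ GmA_q (Xm y) ≤ 8 * (7 / 24) ^ 2 * GmA_q (Xm x) := by
    intro x
    obtain ⟨δ, hδ⟩ : ∃ δ : M3, C * (Complex.I • Xm x) * Cᵀ = δ := ⟨_, rfl⟩
    obtain ⟨y, hy⟩ := GmA_tangent hC (S.1 2 2) (δ 2 2)
    refine ⟨y, ?_, ?_⟩
    · rw [FrL_apply, hδ, GmA_F_deriv, FrL_apply, FrL_apply, ← hy, hCS, Matrix.add_mul,
        Matrix.transpose_mul]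
      have h1 : Dm (S.1 2 2) * C * (Complex.I • Xm x) * (Cᵀ * (Dm (S.1 2 2))ᵀ) =
          Dm (S.1 2 2) * δ * (Dm (S.1 2 2))ᵀ := by
        rw [← hδ]
        simp only [Matrix.mul_assoc]
      rw [h1]
      have e3 : ∀ X Y : M3, toA X + toA Y = toA (X + Y) := fun _ _ => rfl
      rw [e3]
      refine congrArg toA ?_
      abel
    · have h1 := GmA_q_diff hC (S.1 2 2) (δ 2 2)
      rw [hy, GmA_q_FrL hDC] at h1
      refine le_trans h1 ?_
      have h2 := GmA_q_entry δ 2 2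
      have h3 : GmA_q δ = GmA_q (Xm x) := by
        rw [← hδ, GmA_q_FrL hC]
      rw [h3] at h2
      exact mul_le_mul_of_nonneg_left h2 (by norm_num)
  obtain ⟨T, hT⟩ : ∃ T : E5 →L[ℝ] E5, T = LinearMap.toContinuousLinearMap
      ((g ∘ₗ ((fderiv ℝ GmA_F (toA S.1)).comp (FrL C)).toLinearMap) - LinearMap.id) := ⟨_, rfl⟩
  have hTx : ∀ x, T x = g ((fderiv ℝ GmA_F (toA S.1)) (FrL C x)) - x := by
    intro x
    rw [hT]
    rfl
  have hTy : ∀ x, (fderiv ℝ GmA_F (toA S.1)) (FrL C x) = FrL (Dm (S.1 2 2) * C) (x + T x) ∧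
      GmA_q (Xm (T x)) ≤ 8 * (7 / 24) ^ 2 * GmA_q (Xm x) := by
    intro x
    obtain ⟨y, hy1, hy2⟩ := hdiff x
    have h1 : T x = y := by
      rw [hTx, hy1, ← map_add, hg', add_sub_cancel_left]
    rw [h1]
    refine ⟨?_, hy2⟩
    rw [hy1, map_add]
  refine opAt_WW GW GmA_F S GmA_F_contDiff.contDiffAt
    (Filter.Eventually.of_forall fun T => rfl) C hC hCS.symm (Dm (S.1 2 2) * C) hDC ?_
    (ContinuousLinearMap.id ℝ E5 + T) ?_ ?_
  · show tr (Dm (S.1 2 2)) S.1 = _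
    conv_lhs => rw [← hCS]
    rw [tr_mulT, hCS]
  · refine det_one_add_pos T (fun x => Real.sqrt (GmA_q (Xm x))) (fun x => Real.sqrt_nonneg _) ?_ ?_
    · intro a x
      show Real.sqrt (GmA_q (Xm (a • x))) = |a| * Real.sqrt (GmA_q (Xm x))
      rw [Xm_smul, GmA_q_smul, Real.sqrt_mul (sq_nonneg a), Real.sqrt_sq_eq_abs]
    · intro x hx
      have h1 := (hTy x).2
      have h2 := GmA_q_Xm_pos hx
      refine Real.sqrt_lt_sqrt (GmA_q_nonneg _) ?_
      norm_num at h1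
      linarith
  · ext1 x
    exact (hTy x).1

end Wu
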