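import Pool.Agent.Lib.MP_60079e_gt.WF

/-! The cell `E5 ≅ W \ Kc`. -/

open Set Metric Topology Matrix
open scoped ContDiff

namespace Wu

noncomputable def Ucell (x : E5) : C3 :=
  let s : ℝ := x 0 ^ 2 + x 1 ^ 2 + x 2 ^ 2
  ![⟨s - 1, -2 * x 0⟩, ⟨2 * x 1, 2 * x 2⟩, ⟨(s + 1) * x 3, (s + 1) * x 4⟩]

private noncomputable def WHs (x : E5) : ℝ := x 0 ^ 2 + x 1 ^ 2 + x 2 ^ 2

private theorem WHs_pos (x : E5) : 0 < WHs x + 1 := by
  unfold WHs
  positivity

private theorem WHc0 (x : E5) : Ucell x 0 = ⟨WHs x - 1, -2 * x 0⟩ := rfl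
private theorem WHc1 (x : E5) : Ucell x 1 = ⟨2 * x 1, 2 * x 2⟩ := rfl
private theorem WHc2 (x : E5) : Ucell x 2 = ⟨(WHs x + 1) * x 3, (WHs x + 1) * x 4⟩ := rfl

private theorem WH_norm (x : E5) :
    Complex.normSq (Ucell x 0) + Complex.normSq (Ucell x 1) = (WHs x + 1) ^ 2 := by
  rw [WHc0, WHc1, Complex.normSq_mk, Complex.normSq_mk, WHs]
  ring

theorem Ucell_ne (x : E5) : Ucell x 0 ≠ 0 ∨ Ucell x 1 ≠ 0 := by
  by_contra h
  push Not at h
  have h1 := WH_norm x
  rw [h.1, h.2] at h1
  have h2 := WHs_pos x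
  simp at h1
  nlinarith

noncomputable def cell (x : E5) : WX := ⟨sig (Ucell x), sig_mem _ (Ucell_ne x)⟩

/-- `Kc = {S : last column (p, 0, w), p ≥ 0}`. -/
def Kc : Set WX := {S | S.1 1 2 = 0 ∧ (S.1 0 2).im = 0 ∧ 0 ≤ (S.1 0 2).re}

private theorem WH_smooth : ContDiff ℝ ∞ Ucell := by
  have hx : ∀ i : Fin 5, ContDiff ℝ ∞ (fun x : E5 => x i) := fun i => by fun_prop
  have hmk : ∀ a b : E5 → ℝ, ContDiff ℝ ∞ a → ContDiff ℝ ∞ b →
      ContDiff ℝ ∞ (fun x => (⟨a x, b x⟩ : ℂ)) := by
    intro a b ha hb
    have : (fun x => (⟨a x, b x⟩ : ℂ)) = fun x => (a x : ℂ) + (b x : ℂ) * Complex.I := by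
      funext x
      exact Complex.mk_eq_add_mul_I _ _
    rw [this]
    exact (Complex.ofRealCLM.contDiff.comp ha).add
      ((Complex.ofRealCLM.contDiff.comp hb).mul contDiff_const)
  have hs : ContDiff ℝ ∞ (fun x : E5 => x 0 ^ 2 + x 1 ^ 2 + x 2 ^ 2) :=
    (((hx 0).pow 2).add ((hx 1).pow 2)).add ((hx 2).pow 2)
  rw [contDiff_pi]
  intro i
  fin_cases i
  · exact hmk _ _ (hs.sub contDiff_const) (contDiff_const.mul (hx 0))
  · exact hmk _ _ (contDiff_const.mul (hx 1)) (contDiff_const.mul (hx 2))
  · exact hmk _ _ ((hs.add contDiff_const).mul (hx 3)) ((hs.add contDiff_const).mul (hx 4))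

/-- the derivative of `Ucell` -/
private noncomputable def WHd (x v : E5) : C3 :=
  let d : ℝ := 2 * (x 0 * v 0 + x 1 * v 1 + x 2 * v 2)
  ![⟨d, -2 * v 0⟩, ⟨2 * v 1, 2 * v 2⟩,
    ⟨d * x 3 + (WHs x + 1) * v 3, d * x 4 + (WHs x + 1) * v 4⟩]

private theorem WH_mk_deriv {a b : ℝ → ℝ} {a' b' : ℝ} (ha : HasDerivAt a a' 0)
    (hb : HasDerivAt b b' 0) : HasDerivAt (fun t => (⟨a t, b t⟩ : ℂ)) ⟨a', b'⟩ 0 := by
  have h1 : (fun t => (⟨a t, b t⟩ : ℂ)) = fun t => (a t : ℂ) + (b t : ℂ) * Complex.I := by
    funext x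
    exact Complex.mk_eq_add_mul_I _ _
  rw [h1, Complex.mk_eq_add_mul_I]
  exact ha.ofReal_comp.add (hb.ofReal_comp.mul_const _)

private theorem WH_coord (x v : E5) (i : Fin 5) :
    HasDerivAt (fun t : ℝ => (x + t • v) i) (v i) 0 := by
  have h : (fun t : ℝ => (x + t • v) i) = fun t => x i + t * v i := by
    funext t
    simp
  rw [h]
  simpa using ((hasDerivAt_id (0 : ℝ)).mul_const (v i)).const_add (x i)

private theorem WH_fderiv (x v : E5) : fderiv ℝ Ucell x v = WHd x v := by
  have h1 : HasDerivAt (fun t : ℝ => Ucell (x + t • v)) (fderiv ℝ Ucell x v) 0 := by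
    have hd : HasFDerivAt Ucell (fderiv ℝ Ucell x) (x + (0 : ℝ) • v) := by
      rw [zero_smul, add_zero]
      exact (WH_smooth.differentiable (by simp)).differentiableAt.hasFDerivAt
    have hl : HasDerivAt (fun t : ℝ => x + t • v) v 0 := by
      simpa using ((hasDerivAt_id (0 : ℝ)).smul_const v).const_add x
    exact hd.comp_hasDerivAt (0 : ℝ) hl
  have hc := WH_coord x v
  have hs : HasDerivAt (fun t : ℝ => WHs (x + t • v)) (2 * (x 0 * v 0 + x 1 * v 1 + x 2 * v 2))
      0 := by
    have h := (((hc 0).pow 2).add ((hc 1).pow 2)).add ((hc 2).pow 2)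
    simp only [zero_smul, add_zero] at h
    refine h.congr_deriv ?_
    push_cast
    ring
  have h2 : HasDerivAt (fun t : ℝ => Ucell (x + t • v)) (WHd x v) 0 := by
    rw [hasDerivAt_pi]
    intro i
    fin_cases i
    · exact WH_mk_deriv (hs.sub_const 1) ((hc 0).const_mul (-2))
    · exact WH_mk_deriv ((hc 1).const_mul 2) ((hc 2).const_mul 2)
    · have h3 := (hs.add_const 1).mul (hc 3)
      have h4 := (hs.add_const 1).mul (hc 4)
      simp only [zero_smul, add_zero] at h3 h4
      exact WH_mk_deriv h3 h4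
  exact h1.unique h2

private theorem WH_det (x : E5) :
    det6 (Ucell x) (fun k => WHd x (bE k)) = 8 * (WHs x + 1) ^ 3 := by
  have hM : (Matrix.of (Fin.cons (real6 (Ucell x)) (fun k => real6 (WHd x (bE k))) :
      Fin 6 → Fin 6 → ℝ)) =
      !![WHs x - 1, -2 * x 0, 2 * x 1, 2 * x 2, (WHs x + 1) * x 3, (WHs x + 1) * x 4;
         2 * x 0, -2, 0, 0, 2 * x 0 * x 3, 2 * x 0 * x 4;
         2 * x 1, 0, 2, 0, 2 * x 1 * x 3, 2 * x 1 * x 4;
         2 * x 2, 0, 0, 2, 2 * x 2 * x 3, 2 * x 2 * x 4;
         0, 0, 0, 0, WHs x + 1, 0;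
         0, 0, 0, 0, 0, WHs x + 1] := by
    have hF : (Fin.cons (real6 (Ucell x)) (fun k => real6 (WHd x (bE k))) :
        Fin 6 → Fin 6 → ℝ) = ![real6 (Ucell x), real6 (WHd x (bE 0)), real6 (WHd x (bE 1)),
          real6 (WHd x (bE 2)), real6 (WHd x (bE 3)), real6 (WHd x (bE 4))] := by
      funext i
      fin_cases i <;> rfl
    rw [hF]
    ext i j
    fin_cases i <;> fin_cases j <;>
      simp [real6, WHd, bE, WHc0, WHc1, WHc2]
  rw [det6, hM]
  simp [Matrix.det_succ_row_zero, Fin.sum_univ_succ, Fin.succAbove]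
  unfold WHs
  ring

private theorem WH_col (x : E5) : ∃ N : ℝ, 0 < N ∧ ∀ i, (cell x).1 i 2 = Ucell x i / N := by
  refine ⟨Real.sqrt (Complex.normSq (Ucell x 0) + Complex.normSq (Ucell x 1) +
    Complex.normSq (Ucell x 2)), ?_, fun i => ?_⟩
  · apply Real.sqrt_pos.2
    rw [WH_norm]
    have := WHs_pos x
    have := Complex.normSq_nonneg (Ucell x 2)
    positivity
  · exact sig_col _ i

theorem oEmb_cell : OEmb (euc E5) WM cell univ := by
  constructor
  · intro x _
    refine opAt_sig cell Ucell x WH_smooth.contDiffAt (Ucell_ne x)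
      (Filter.Eventually.of_forall fun _ => rfl) ?_
    have h : (fun k => fderiv ℝ Ucell x (bE k)) = fun k => WHd x (bE k) := by
      funext k
      exact WH_fderiv x _
    rw [h, WH_det]
    have := WHs_pos x
    positivity
  · intro x _ y _ hxy
    obtain ⟨N, hN, hx⟩ := WH_col x
    obtain ⟨N', hN', hy⟩ := WH_col y
    rw [hxy] at hx
    have hNC : (N : ℂ) ≠ 0 := by exact_mod_cast hN.ne'
    have hNC' : (N' : ℂ) ≠ 0 := by exact_mod_cast hN'.ne'
    set t : ℝ := N / N' with ht
    have ht0 : 0 < t := div_pos hN hN'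
    have key : ∀ i, Ucell x i = (t : ℂ) * Ucell y i := by
      intro i
      have h := (hx i).symm.trans (hy i)
      rw [ht]
      push_cast
      rw [div_eq_div_iff hNC hNC'] at h
      field_simp
      linear_combination h
    have sx := WHs_pos x
    have sy := WHs_pos y
    have h1 : (WHs x + 1) ^ 2 = (t * (WHs y + 1)) ^ 2 := by
      rw [← WH_norm x, key 0, key 1, Complex.normSq_mul, Complex.normSq_mul, ← mul_add, WH_norm y,
        Complex.normSq_ofReal]
      ring
    have h2 : WHs x + 1 = t * (WHs y + 1) := by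
      have h3 : 0 < t * (WHs y + 1) := by positivity
      nlinarith
    have k0 := key 0
    have k1 := key 1
    have k2 := key 2
    rw [WHc0, WHc0] at k0
    rw [WHc1, WHc1] at k1
    rw [WHc2, WHc2] at k2
    have r0 := congrArg Complex.re k0
    have i0 := congrArg Complex.im k0
    have r1 := congrArg Complex.re k1
    have i1 := congrArg Complex.im k1
    have r2 := congrArg Complex.re k2
    have i2 := congrArg Complex.im k2
    simp at r0 i0 r1 i1 r2 i2
    have ht1 : t = 1 := by linarith
    rw [ht1] at h2 i0 r1 i1 r2 i2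
    have h2' : WHs x = WHs y := by linarith
    rw [h2'] at r2 i2
    have sy0 : WHs y + 1 ≠ 0 := sy.ne'
    ext i
    fin_cases i
    · show x 0 = y 0
      linarith
    · show x 1 = y 1
      linarith
    · show x 2 = y 2
      linarith
    · show x 3 = y 3
      apply mul_left_cancel₀ sy0
      linarith
    · show x 4 = y 4
      apply mul_left_cancel₀ sy0
      linarith

theorem range_cell : range cell = Kcᶜ := by
  ext S
  constructor
  · rintro ⟨x, rfl⟩ ⟨h1, h2, h3⟩
    obtain ⟨N, hN, hx⟩ := WH_col x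
    have hNC : (N : ℂ) ≠ 0 := by exact_mod_cast hN.ne'
    rw [hx 1, div_eq_zero_iff] at h1
    have h1' : Ucell x 1 = 0 := h1.resolve_right hNC
    rw [hx 0, Complex.div_ofReal_im, div_eq_zero_iff] at h2
    have h2' := h2.resolve_right hN.ne'
    rw [hx 0, Complex.div_ofReal_re] at h3
    have h3' : 0 ≤ (Ucell x 0).re := by
      by_contra hcon
      push Not at hcon
      have := div_neg_of_neg_of_pos hcon hN
      linarith
    rw [WHc1] at h1'
    rw [WHc0] at h2' h3'
    have a1 := congrArg Complex.re h1'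
    have a2 := congrArg Complex.im h1'
    simp at a1 a2 h2' h3'
    unfold WHs at h3'
    rw [a1, a2, h2'] at h3'
    norm_num at h3'
  · intro hS
    have hS3 := S.2.1
    have hST := S.2.2
    have hc := col_normSq hS3 2
    have hn0 := Complex.normSq_nonneg (S.1 0 2)
    have hn1 := Complex.normSq_nonneg (S.1 1 2)
    set p := S.1 0 2 with hp
    set q := S.1 1 2 with hq
    have hne : p ≠ 0 ∨ q ≠ 0 := by
      by_contra h
      push Not at h
      apply hS
      refine ⟨h.2, ?_, ?_⟩
      · rw [← hp, h.1]; simp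
      · rw [← hp, h.1]; simp
    have hpos : 0 < Complex.normSq p + Complex.normSq q := by
      rcases hne with h | h
      · have := Complex.normSq_pos.2 h; linarith
      · have := Complex.normSq_pos.2 h; linarith
    set r : ℝ := Real.sqrt (Complex.normSq p + Complex.normSq q) with hr
    have hr0 : 0 < r := Real.sqrt_pos.2 hpos
    have hr2 : r ^ 2 = Complex.normSq p + Complex.normSq q := Real.sq_sqrt hpos.le
    rw [Complex.normSq_apply, Complex.normSq_apply] at hr2
    have har : p.re < r := by
      by_contra hcon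
      push Not at hcon
      have hpr : 0 ≤ p.re := hr0.le.trans hcon
      have hsq : r ^ 2 ≤ p.re * p.re := by nlinarith
      have e1 : p.im * p.im + q.re * q.re + q.im * q.im ≤ 0 := by linarith
      have z1 : p.im = 0 := by
        have := mul_self_nonneg p.im
        have := mul_self_nonneg q.re
        have := mul_self_nonneg q.im
        exact mul_self_eq_zero.1 (by linarith)
      have z2 : q.re = 0 := by
        have := mul_self_nonneg p.im
        have := mul_self_nonneg q.re
        have := mul_self_nonneg q.im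
        exact mul_self_eq_zero.1 (by linarith)
      have z3 : q.im = 0 := by
        have := mul_self_nonneg p.im
        have := mul_self_nonneg q.re
        have := mul_self_nonneg q.im
        exact mul_self_eq_zero.1 (by linarith)
      apply hS
      refine ⟨Complex.ext z2 z3, z1, hpr⟩
    have hd : r - p.re ≠ 0 := by
      have : 0 < r - p.re := by linarith
      exact this.ne'
    have hd0 : 0 < r - p.re := by linarith
    set w := S.1 2 2 with hw
    set x : E5 := !₂[-p.im / (r - p.re), q.re / (r - p.re), q.im / (r - p.re), w.re / r, w.im / r]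
      with hx
    have x0 : x 0 = -p.im / (r - p.re) := by simp [hx]
    have x1 : x 1 = q.re / (r - p.re) := by simp [hx]
    have x2 : x 2 = q.im / (r - p.re) := by simp [hx]
    have x3 : x 3 = w.re / r := by simp [hx]
    have x4 : x 4 = w.im / r := by simp [hx]
    have hs : WHs x = (r + p.re) / (r - p.re) := by
      unfold WHs
      rw [x0, x1, x2]
      field_simp
      linear_combination -hr2
    have hs1 : WHs x + 1 = 2 * r / (r - p.re) := by
      rw [hs]
      field_simp
      ring
    have hs2 : WHs x - 1 = 2 * p.re / (r - p.re) := by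
      rw [hs]
      field_simp
      ring
    refine ⟨x, ?_⟩
    apply Subtype.ext
    show sig (Ucell x) = S.1
    have hU : Ucell x = (2 / (r - p.re) : ℝ) • (fun i => S.1 i 2) := by
      funext i
      fin_cases i
      · show Ucell x 0 = (2 / (r - p.re) : ℝ) • p
        rw [WHc0, hs2, x0]
        apply Complex.ext
        · rw [Complex.smul_re, smul_eq_mul]
          show 2 * p.re / (r - p.re) = 2 / (r - p.re) * p.re
          ring
        · rw [Complex.smul_im, smul_eq_mul]
          show -2 * (-p.im / (r - p.re)) = 2 / (r - p.re) * p.im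
          ring
      · show Ucell x 1 = (2 / (r - p.re) : ℝ) • q
        rw [WHc1, x1, x2]
        apply Complex.ext
        · rw [Complex.smul_re, smul_eq_mul]
          show 2 * (q.re / (r - p.re)) = 2 / (r - p.re) * q.re
          ring
        · rw [Complex.smul_im, smul_eq_mul]
          show 2 * (q.im / (r - p.re)) = 2 / (r - p.re) * q.im
          ring
      · show Ucell x 2 = (2 / (r - p.re) : ℝ) • w
        rw [WHc2, hs1, x3, x4]
        apply Complex.ext
        · rw [Complex.smul_re, smul_eq_mul]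
          show 2 * r / (r - p.re) * (w.re / r) = 2 / (r - p.re) * w.re
          field_simp
        · rw [Complex.smul_im, smul_eq_mul]
          show 2 * r / (r - p.re) * (w.im / r) = 2 / (r - p.re) * w.im
          field_simp
    rw [hU, sig_smul_pos _ _ (by positivity)]
    exact sig_of_col S.1 hS3 hST hne

private theorem WH_compact : CompactSpace WX := by
  refine isCompact_iff_compactSpace.1 ?_
  have hbox : IsCompact {S : M3 | ∀ i j, ‖S i j‖ ≤ 1} := by
    have h := isCompact_univ_pi (fun _ : Fin 3 => isCompact_univ_pi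
      (fun _ : Fin 3 => isCompact_closedBall (0 : ℂ) 1))
    have he : {S : M3 | ∀ i j, ‖S i j‖ ≤ 1} = (Set.pi univ (fun _ : Fin 3 =>
        Set.pi univ (fun _ : Fin 3 => closedBall (0 : ℂ) 1)) : Set (Fin 3 → Fin 3 → ℂ)) := by
      ext S
      constructor
      · intro hS i _ j _
        exact mem_closedBall_zero_iff.2 (hS i j)
      · intro hS i j
        exact mem_closedBall_zero_iff.1 (hS i (mem_univ i) j (mem_univ j))
    rw [he]
    exact h
  refine hbox.of_isClosed_subset ?_ ?_
  · have h1 : IsClosed {S : M3 | S * star S = 1} := by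
      refine isClosed_eq ?_ continuous_const
      exact continuous_id.matrix_mul (continuous_id.matrix_conjTranspose)
    have h2 : IsClosed {S : M3 | S.det = 1} :=
      isClosed_eq continuous_id.matrix_det continuous_const
    have h3 : IsClosed {S : M3 | Sᵀ = S} :=
      isClosed_eq continuous_id.matrix_transpose continuous_id
    have he : {S : M3 | S ∈ SU3 ∧ Sᵀ = S} =
        ({S : M3 | S * star S = 1} ∩ {S : M3 | S.det = 1}) ∩ {S : M3 | Sᵀ = S} := by
      ext S
      constructor
      · rintro ⟨h, h'⟩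
        have h4 := Matrix.mem_specialUnitaryGroup_iff.1 h
        exact ⟨⟨Matrix.mem_unitaryGroup_iff.1 h4.1, h4.2⟩, h'⟩
      · rintro ⟨⟨h4, h5⟩, h'⟩
        exact ⟨Matrix.mem_specialUnitaryGroup_iff.2 ⟨Matrix.mem_unitaryGroup_iff.2 h4, h5⟩, h'⟩
    have h6 := (h1.inter h2).inter h3
    rw [← he] at h6
    exact h6
  · rintro S ⟨hS, -⟩ i j
    have hc := col_normSq hS j
    have n0 := Complex.normSq_nonneg (S 0 j)
    have n1 := Complex.normSq_nonneg (S 1 j)
    have n2 := Complex.normSq_nonneg (S 2 j)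
    have h1 : Complex.normSq (S i j) ≤ 1 := by
      fin_cases i
      · show Complex.normSq (S 0 j) ≤ 1
        linarith
      · show Complex.normSq (S 1 j) ≤ 1
        linarith
      · show Complex.normSq (S 2 j) ≤ 1
        linarith
    rw [Complex.normSq_eq_norm_sq] at h1
    nlinarith [norm_nonneg (S i j)]

private theorem WH_entry (i j : Fin 3) : Continuous (fun S : WX => S.1 i j) :=
  (continuous_apply_apply i j).comp continuous_subtype_val

theorem isCompact_Kc : IsCompact Kc := by
  have _ := WH_compact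
  refine IsClosed.isCompact ?_
  have h1 : IsClosed {S : WX | S.1 1 2 = 0} := isClosed_eq (WH_entry 1 2) continuous_const
  have h2 : IsClosed {S : WX | (S.1 0 2).im = 0} :=
    isClosed_eq (Complex.continuous_im.comp (WH_entry 0 2)) continuous_const
  have h3 : IsClosed {S : WX | 0 ≤ (S.1 0 2).re} :=
    isClosed_le continuous_const (Complex.continuous_re.comp (WH_entry 0 2))
  exact h1.inter (h2.inter h3)

/-- The complements of the balls are small neighbourhoods of `Kc`. -/
theorem exists_ball_cell (O : Set WX) (hO : IsOpen O) (hK : Kc ⊆ O) :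
    ∃ R : ℝ, 0 < R ∧ ∀ S : WX, S ∉ cell '' closedBall (0 : E5) R → S ∈ O := by
  have _ := WH_compact
  have hcomp : IsCompact Oᶜ := hO.isClosed_compl.isCompact
  have hop : ∀ n : ℕ, IsOpen (cell '' ball (0 : E5) (n + 1)) := fun n =>
    isOpen_image_of_opAt (M := euc E5) (N := WM) (U := ball (0 : E5) (n + 1)) isOpen_ball
      (fun x _ => oEmb_cell.1 x (mem_univ x))
  obtain ⟨n, hn⟩ := hcomp.elim_directed_cover (fun n : ℕ => cell '' ball (0 : E5) (n + 1)) hop
    (by
      intro S hS
      have h1 : S ∈ range cell := by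
        rw [range_cell]
        exact fun h => hS (hK h)
      obtain ⟨x, rfl⟩ := h1
      obtain ⟨n, hn⟩ := exists_nat_gt ‖x‖
      refine mem_iUnion.2 ⟨n, x, ?_, rfl⟩
      rw [mem_ball_zero_iff]
      linarith)
    (by
      refine directed_of_isDirected_le ?_
      intro m n hmn
      apply image_mono
      apply ball_subset_ball
      have : (m : ℝ) ≤ n := by exact_mod_cast hmn
      linarith)
  refine ⟨n + 1, by positivity, fun S hS => ?_⟩
  by_contra hSO
  exact hS (image_mono ball_subset_closedBall (hn hSO))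

end Wu
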