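import Pool.Agent.Lib.MP_60079e_gt.GmA
import Pool.Agent.Lib.MP_60079e_gt.WH
import Pool.Agent.Lib.MP_60079e_gt.FnA

/-! `G` on `Kc`: self-intersections modulo `μ₃`. -/

open Set Metric Topology Matrix
open scoped ContDiff

set_option linter.unusedSimpArgs false

namespace Wu

private theorem GmB_entry (g S : M3) (i j : Fin 3) : tr g S i j =
    (g i 0 * S 0 0 + g i 1 * S 1 0 + g i 2 * S 2 0) * g j 0 +
    (g i 0 * S 0 1 + g i 1 * S 1 1 + g i 2 * S 2 1) * g j 1 +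
    (g i 0 * S 0 2 + g i 1 * S 1 2 + g i 2 * S 2 2) * g j 2 := by
  simp [tr, Matrix.mul_apply, Fin.sum_univ_three]

private theorem GmB_sym (S : WX) (i j : Fin 3) : S.1 i j = S.1 j i := by
  have h := congrFun (congrFun S.2.2 j) i
  exact h

private theorem GmB_conj (S : WX) (i j : Fin 3) :
    S.1 i 0 * star (S.1 0 j) + S.1 i 1 * star (S.1 1 j) + S.1 i 2 * star (S.1 2 j) =
      if i = j then 1 else 0 := by
  have h := mul_conj_of_mem S.2.1 S.2.2
  have h2 := congrFun (congrFun h i) j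
  simp only [Matrix.mul_apply, Fin.sum_univ_three, Matrix.map_apply, Matrix.one_apply] at h2
  exact h2

private theorem GmB_det (S : WX) : S.1.det = 1 :=
  (Matrix.mem_specialUnitaryGroup_iff.mp S.2.1).2

private theorem GmB_ss (z : ℂ) : z * star z = (Complex.normSq z : ℂ) := by
  rw [Complex.star_def, Complex.mul_conj]

private theorem GmB_nsq (z : ℂ) : Complex.normSq z = ‖z‖ ^ 2 := Complex.normSq_eq_norm_sq z

/-- The entries of `S ∈ W` with `|S₂₂| = 1`. -/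
theorem M_entries (S : WX) (h : ‖S.1 2 2‖ = 1) :
    S.1 0 2 = 0 ∧ S.1 1 2 = 0 ∧ S.1 0 0 = star (S.1 2 2) * star (S.1 1 1) ∧
    Complex.normSq (S.1 1 1) + Complex.normSq (S.1 0 1) = 1 ∧
    S.1 2 2 * (S.1 0 1) ^ 2 = -(Complex.normSq (S.1 0 1) : ℂ) := by
  have hcol := col_normSq S.2.1 2
  have hw1 : Complex.normSq (S.1 2 2) = 1 := by rw [GmB_nsq, h]; norm_num
  have h0 : 0 ≤ Complex.normSq (S.1 0 2) := Complex.normSq_nonneg _
  have h1 : 0 ≤ Complex.normSq (S.1 1 2) := Complex.normSq_nonneg _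
  have hc : S.1 0 2 = 0 := Complex.normSq_eq_zero.mp (by linarith)
  have he : S.1 1 2 = 0 := Complex.normSq_eq_zero.mp (by linarith)
  have hc' : S.1 2 0 = 0 := by rw [GmB_sym]; exact hc
  have he' : S.1 2 1 = 0 := by rw [GmB_sym]; exact he
  have hb' : S.1 1 0 = S.1 0 1 := GmB_sym S 1 0
  have hdet := GmB_det S
  rw [Matrix.det_fin_three] at hdet
  have e00 := GmB_conj S 0 0
  have e01 := GmB_conj S 0 1
  have e10 := GmB_conj S 1 0
  have e11 := GmB_conj S 1 1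
  rw [if_pos rfl, hc, hb'] at e00
  rw [if_neg (by decide), hc] at e01
  rw [if_neg (by decide), he, hb'] at e10
  rw [if_pos rfl, he, hb'] at e11
  rw [hc, he, hc', he', hb'] at hdet
  have hww : S.1 2 2 * star (S.1 2 2) = 1 := by rw [GmB_ss, hw1]; norm_num
  generalize S.1 0 0 = a at *
  generalize S.1 0 1 = b at *
  generalize S.1 1 1 = d at *
  generalize S.1 2 2 = w at *
  have hd : star d = w * a := by
    linear_combination (-star d) * hdet + w * a * e11 - w * b * e01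
  have hb : star b = - (w * b) := by
    linear_combination (-star b) * hdet + w * a * e10 - w * b * e00
  refine ⟨hc, he, ?_, ?_, ?_⟩
  · rw [hd]
    linear_combination (-a) * hww
  · have h2 : ((Complex.normSq d + Complex.normSq b : ℝ) : ℂ) = ((1 : ℝ) : ℂ) := by
      push_cast
      rw [← GmB_ss, ← GmB_ss]
      linear_combination e11
    exact_mod_cast h2
  · rw [← GmB_ss, hb]
    ring

private theorem GmB_D (w : ℂ) : Dm w 0 0 = (cw w : ℂ) ∧ Dm w 0 1 = 0 ∧ Dm w 0 2 = (7 / 24) * (cw w : ℂ) * star w ∧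
    Dm w 1 0 = 0 ∧ Dm w 1 1 = 1 ∧ Dm w 1 2 = 0 ∧ Dm w 2 0 = -((7 / 24) * (cw w : ℂ) * w) ∧ Dm w 2 1 = 0 ∧
    Dm w 2 2 = (cw w : ℂ) := by
  refine ⟨rfl, rfl, rfl, rfl, rfl, rfl, rfl, rfl, rfl⟩

/-- The entries of `G S` for `|S₂₂| = 1`, `P = conj S₁₁`. -/
theorem GW_M (S : WX) (h : ‖S.1 2 2‖ = 1) :
    (GW S).1 0 2 = kap * (1 - star (S.1 1 1)) ∧ (GW S).1 1 1 = S.1 1 1 ∧
    (GW S).1 1 2 = -(7 / 25) * (S.1 2 2 * S.1 0 1) ∧
    (GW S).1 2 2 = S.1 2 2 * (576 / 625 + 49 / 625 * star (S.1 1 1)) := by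
  obtain ⟨hc, he, ha, hn, hb2⟩ := M_entries S h
  have hc' : S.1 2 0 = 0 := by rw [GmB_sym]; exact hc
  have he' : S.1 2 1 = 0 := by rw [GmB_sym]; exact he
  have hb' : S.1 1 0 = S.1 0 1 := GmB_sym S 1 0
  have hw1 : Complex.normSq (S.1 2 2) = 1 := by rw [GmB_nsq, h]; norm_num
  have hww : S.1 2 2 * star (S.1 2 2) = 1 := by rw [GmB_ss, hw1]; norm_num
  have hcw : ((cw (S.1 2 2) : ℝ) : ℂ) = 24 / 25 := by
    unfold cw
    rw [hw1]
    have h1 : (1 + (7 / 24 : ℝ) ^ 2 * 1) = (25 / 24) ^ 2 := by norm_num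
    rw [h1, Real.sqrt_sq (by norm_num)]
    push_cast
    norm_num
  obtain ⟨d00, d01, d02, d10, d11, d12, d20, d21, d22⟩ := GmB_D (S.1 2 2)
  have hkap : (kap : ℂ) = 168 / 625 := by unfold kap; push_cast; rfl
  have hGW : (GW S).1 = tr (Dm (S.1 2 2)) S.1 := rfl
  rw [hGW]
  simp only [GmB_entry, d00, d01, d02, d10, d11, d12, d20, d21, d22, hcw, hc, he, hc', he', hb', ha, hkap]
  generalize S.1 0 1 = b at *
  generalize S.1 1 1 = d at *
  generalize S.1 2 2 = w at *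
  refine ⟨?_, ?_, ?_, ?_⟩
  · linear_combination (168 / 625) * (1 - star d) * hww
  · ring
  · ring
  · linear_combination (49 / 625) * w * star d * hww

/-- The points of `Kc` off `M`. -/
theorem Kc_entries (S : WX) (hS : S ∈ Kc) (h : ‖S.1 2 2‖ < 1) :
    S.1 1 2 = 0 ∧ S.1 1 1 = -1 ∧ S.1 0 1 = 0 ∧ S.1 0 0 = -star (S.1 2 2) ∧
    S.1 0 2 = (Real.sqrt (1 - Complex.normSq (S.1 2 2)) : ℂ) := by
  obtain ⟨he, him, hre⟩ := hS
  have hcol := col_normSq S.2.1 2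
  rw [he, map_zero] at hcol
  have hw1 : Complex.normSq (S.1 2 2) < 1 := by
    rw [GmB_nsq]
    have := norm_nonneg (S.1 2 2)
    nlinarith
  have hcr : S.1 0 2 = (((S.1 0 2).re : ℝ) : ℂ) := by
    apply Complex.ext
    · simp
    · simp [him]
  have hcn : Complex.normSq (S.1 0 2) = (S.1 0 2).re ^ 2 := by
    rw [Complex.normSq_apply, him]
    ring
  have hcs : (S.1 0 2).re = Real.sqrt (1 - Complex.normSq (S.1 2 2)) := by
    symm
    rw [Real.sqrt_eq_iff_mul_self_eq (by linarith) hre]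
    rw [hcn] at hcol
    linarith
  have hcpos : 0 < Real.sqrt (1 - Complex.normSq (S.1 2 2)) := Real.sqrt_pos.mpr (by linarith)
  have hc0 : S.1 0 2 ≠ 0 := by
    rw [hcr, hcs]
    exact_mod_cast hcpos.ne'
  have hcc : star (S.1 0 2) = S.1 0 2 := by
    rw [hcr]
    exact Complex.conj_ofReal _
  have hc' : S.1 2 0 = S.1 0 2 := GmB_sym S 2 0
  have he' : S.1 2 1 = 0 := by rw [GmB_sym]; exact he
  have hb' : S.1 1 0 = S.1 0 1 := GmB_sym S 1 0
  have hc2 : (S.1 0 2) ^ 2 = 1 - S.1 2 2 * star (S.1 2 2) := by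
    rw [GmB_ss, hcr]
    have : (S.1 0 2).re ^ 2 = 1 - Complex.normSq (S.1 2 2) := by
      rw [hcn] at hcol
      linarith
    exact_mod_cast this
  have e02 := GmB_conj S 0 2
  have e12 := GmB_conj S 1 2
  rw [if_neg (by decide), he, hcc] at e02
  rw [if_neg (by decide), he, hcc, hb'] at e12
  have hb : S.1 0 1 = 0 := by
    have h1 : S.1 0 1 * S.1 0 2 = 0 := by
      have h2 : star (0 : ℂ) = 0 := star_zero _
      rw [h2] at e12
      linear_combination e12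
    exact (mul_eq_zero.mp h1).resolve_right hc0
  have ha : S.1 0 0 = - star (S.1 2 2) := by
    have h1 : (S.1 0 0 + star (S.1 2 2)) * S.1 0 2 = 0 := by
      have h2 : star (0 : ℂ) = 0 := star_zero _
      rw [h2] at e02
      linear_combination e02
    have h3 := (mul_eq_zero.mp h1).resolve_right hc0
    linear_combination h3
  have hdet := GmB_det S
  rw [Matrix.det_fin_three, hc', he', he, hb', hb, ha] at hdet
  refine ⟨he, ?_, hb, ha, ?_⟩
  · linear_combination (-1 : ℂ) * hdet - (S.1 1 1) * hc2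
  · rw [hcr, hcs]

/-- The entries of `G S` for `S ∈ Kc`, `|S₂₂| < 1`: `ρ = (1 - t²r² - 2t√(1-r²))/(1+t²r²)`. -/
theorem GW_Kc (S : WX) (hS : S ∈ Kc) (h : ‖S.1 2 2‖ < 1) :
    (GW S).1 1 1 = -1 ∧ (GW S).1 1 2 = 0 ∧ ((GW S).1 0 2).im = 0 ∧ 0 < ((GW S).1 0 2).re ∧
    (GW S).1 2 2 = S.1 2 2 * (((1 - (7 / 24) ^ 2 * Complex.normSq (S.1 2 2) -
      2 * (7 / 24) * Real.sqrt (1 - Complex.normSq (S.1 2 2))) /
      (1 + (7 / 24) ^ 2 * Complex.normSq (S.1 2 2)) : ℝ) : ℂ) := by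
  obtain ⟨he, hd, hb, ha, hc⟩ := Kc_entries S hS h
  have hw1 : Complex.normSq (S.1 2 2) < 1 := by
    rw [GmB_nsq]
    have := norm_nonneg (S.1 2 2)
    nlinarith
  have hw0 : 0 ≤ Complex.normSq (S.1 2 2) := Complex.normSq_nonneg _
  have hcpos : 0 < Real.sqrt (1 - Complex.normSq (S.1 2 2)) := Real.sqrt_pos.mpr (by linarith)
  have hc' : S.1 2 0 = S.1 0 2 := GmB_sym S 2 0
  have he' : S.1 2 1 = 0 := by rw [GmB_sym]; exact he
  have hb' : S.1 1 0 = 0 := by rw [GmB_sym S 1 0]; exact hb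
  have hww : S.1 2 2 * star (S.1 2 2) = (Complex.normSq (S.1 2 2) : ℂ) := GmB_ss _
  obtain ⟨d00, d01, d02, d10, d11, d12, d20, d21, d22⟩ := GmB_D (S.1 2 2)
  have hGW : (GW S).1 = tr (Dm (S.1 2 2)) S.1 := rfl
  rw [hGW]
  have hcw2 : (cw (S.1 2 2)) ^ 2 = 1 / (1 + (7 / 24) ^ 2 * Complex.normSq (S.1 2 2)) := by
    unfold cw
    rw [div_pow, Real.sq_sqrt (by positivity), one_pow]
  have hcw2' : ((cw (S.1 2 2) : ℝ) : ℂ) ^ 2 = ((1 / (1 + (7 / 24) ^ 2 * Complex.normSq (S.1 2 2)) : ℝ) : ℂ) := by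
    rw [← hcw2]
    push_cast
    rfl
  have hcwp : 0 < (1 / (1 + (7 / 24) ^ 2 * Complex.normSq (S.1 2 2)) : ℝ) := by positivity
  have h02 : tr (Dm (S.1 2 2)) S.1 0 2 = (((1 / (1 + (7 / 24) ^ 2 * Complex.normSq (S.1 2 2))) *
      (Real.sqrt (1 - Complex.normSq (S.1 2 2)) * (1 - (7 / 24) ^ 2 * Complex.normSq (S.1 2 2)) +
        2 * (7 / 24) * Complex.normSq (S.1 2 2)) : ℝ) : ℂ) := by
    rw [Complex.ofReal_mul, ← hcw2']
    simp only [GmB_entry, d00, d01, d02, d10, d11, d12, d20, d21, d22, hc, he, hc', he', hb', hb, ha, hd]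
    push_cast
    rw [← hww]
    ring
  have h22 : tr (Dm (S.1 2 2)) S.1 2 2 = S.1 2 2 * (((1 / (1 + (7 / 24) ^ 2 * Complex.normSq (S.1 2 2))) *
      (1 - (7 / 24) ^ 2 * Complex.normSq (S.1 2 2) -
      2 * (7 / 24) * Real.sqrt (1 - Complex.normSq (S.1 2 2))) : ℝ) : ℂ) := by
    rw [Complex.ofReal_mul, ← hcw2']
    simp only [GmB_entry, d00, d01, d02, d10, d11, d12, d20, d21, d22, hc, he, hc', he', hb', hb, ha, hd]
    push_cast
    rw [← hww]
    ring
  refine ⟨?_, ?_, ?_, ?_, ?_⟩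
  · simp only [GmB_entry, d00, d01, d02, d10, d11, d12, d20, d21, d22, hc, he, hc', he', hb', hb, ha, hd]
    ring
  · simp only [GmB_entry, d00, d01, d02, d10, d11, d12, d20, d21, d22, hc, he, hc', he', hb', hb, ha, hd]
    ring
  · rw [h02]
    exact Complex.ofReal_im _
  · rw [h02, Complex.ofReal_re]
    apply mul_pos hcwp
    have h1 : 0 < 1 - (7 / 24) ^ 2 * Complex.normSq (S.1 2 2) := by nlinarith
    have h2 := mul_pos hcpos h1
    nlinarith
  · rw [h22]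
    congr 2
    exact one_div_mul_eq_div _ _

end Wu
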