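import Pool.Agent.Lib.MP_60079e_gt.GmB

/-! The values of `α, β` on `G (Kc)`. -/

open Set Metric Topology Matrix
open scoped ContDiff

namespace Wu

theorem GmC_om_re : om.re = -1 / 2 := rfl

theorem GmC_om_im : om.im = Real.sqrt 3 / 2 := rfl

theorem GmC_s3 : Real.sqrt 3 ^ 2 = 3 := Real.sq_sqrt (by norm_num)

theorem GmC_om2_re : (om ^ 2).re = -1 / 2 := by
  rw [pow_two, Complex.mul_re, GmC_om_re, GmC_om_im]
  nlinarith [GmC_s3]

theorem GmC_om2_im : (om ^ 2).im = -(Real.sqrt 3 / 2) := by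
  rw [pow_two, Complex.mul_im, GmC_om_re, GmC_om_im]
  ring

theorem GmC_sum : 1 + om + om ^ 2 = 0 := by
  refine Complex.ext ?_ ?_
  · rw [Complex.add_re, Complex.add_re, GmC_om2_re, GmC_om_re, Complex.one_re, Complex.zero_re]
    norm_num
  · rw [Complex.add_im, Complex.add_im, GmC_om2_im, GmC_om_im, Complex.one_im, Complex.zero_im]
    ring

theorem GmC_ns_om : Complex.normSq om = 1 := by
  rw [Complex.normSq_apply, GmC_om_re, GmC_om_im]
  nlinarith [GmC_s3]

theorem GmC_ns_kap (z : ℂ) : Complex.normSq (kap * z) = kap ^ 2 * Complex.normSq z := by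
  rw [map_mul, Complex.normSq_ofReal]
  ring

/-- Tubes met by `G S`, `|S₂₂| = 1`. -/
theorem mu_GW_M (S : WX) (h : ‖S.1 2 2‖ = 1) :
    4 * rr < mu (GW S).1 ∧
    mu (om ^ 1 • (GW S).1) = kap ^ 2 * Complex.normSq (star (S.1 1 1) + om) +
      (49 / 625) * Complex.normSq (S.1 0 1) ∧
    mu (om ^ 2 • (GW S).1) = kap ^ 2 * Complex.normSq (star (S.1 1 1) + om ^ 2) +
      (49 / 625) * Complex.normSq (S.1 0 1) := by
  obtain ⟨h02, -, h12, -⟩ := GW_M S h
  obtain ⟨-, -, -, hns, -⟩ := M_entries S h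
  have hn22 : Complex.normSq (S.1 2 2) = 1 := by
    rw [Complex.normSq_eq_norm_sq, h]
    norm_num
  have hT12 : Complex.normSq ((GW S).1 1 2) = (49 / 625) * Complex.normSq (S.1 0 1) := by
    have h1 : Complex.normSq (-(7 / 25) : ℂ) = 49 / 625 := by
      have h2 : (-(7 / 25) : ℂ) = ((-(7 / 25) : ℝ) : ℂ) := by push_cast; rfl
      rw [h2, Complex.normSq_ofReal]
      norm_num
    rw [h12, map_mul, map_mul, hn22, one_mul, h1]
  have hP : Complex.normSq (star (S.1 1 1)) + Complex.normSq (S.1 0 1) = 1 := by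
    have h1 : Complex.normSq (star (S.1 1 1)) = Complex.normSq (S.1 1 1) :=
      Complex.normSq_conj _
    rw [h1]
    exact hns
  have h01 : 0 ≤ Complex.normSq (S.1 0 1) := Complex.normSq_nonneg _
  refine ⟨?_, ?_, ?_⟩
  · unfold mu
    have h1 : (GW S).1 0 2 + kap = kap * (2 - star (S.1 1 1)) := by
      rw [h02]
      ring
    rw [h1, hT12, GmC_ns_kap]
    have h2 : 1 ≤ Complex.normSq (2 - star (S.1 1 1)) := by
      generalize star (S.1 1 1) = P at *
      have h3 : P.re * P.re + P.im * P.im ≤ 1 := by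
        rw [← Complex.normSq_apply]
        linarith
      have h4 : (2 - P).re = 2 - P.re := by simp
      have h5 : (2 - P).im = - P.im := by simp
      rw [Complex.normSq_apply, h4, h5]
      have h6 : P.re ≤ 1 := by nlinarith [mul_self_nonneg P.im, mul_self_nonneg (P.re - 1)]
      nlinarith [mul_self_nonneg P.im]
    have h3 : 0 < kap ^ 2 := by unfold kap; norm_num
    unfold rr
    nlinarith
  · unfold mu
    rw [Matrix.smul_apply, Matrix.smul_apply, smul_eq_mul, smul_eq_mul, map_mul, pow_one,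
      GmC_ns_om, one_mul, hT12, h02]
    have h1 : om * (kap * (1 - star (S.1 1 1))) + kap = kap * (-(om * (star (S.1 1 1) + om))) := by
      linear_combination (kap : ℂ) * GmC_sum
    rw [h1, GmC_ns_kap, Complex.normSq_neg, map_mul, GmC_ns_om, one_mul]
  · unfold mu
    have h2 : Complex.normSq (om ^ 2) = 1 := by
      rw [map_pow, GmC_ns_om, one_pow]
    rw [Matrix.smul_apply, Matrix.smul_apply, smul_eq_mul, smul_eq_mul, map_mul,
      h2, one_mul, hT12, h02]
    have h1 : om ^ 2 * (kap * (1 - star (S.1 1 1))) + kap =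
        kap * (-(om ^ 2 * (star (S.1 1 1) + om ^ 2))) := by
      linear_combination (kap : ℂ) * GmC_sum + (kap : ℂ) * om * om_cube
    rw [h1, GmC_ns_kap, Complex.normSq_neg, map_mul, h2, one_mul]

/-- The points of `Kc` off `M` do not meet the tubes. -/
theorem mu_GW_Kc (S : WX) (hS : S ∈ Kc) (h : ‖S.1 2 2‖ < 1) (k : ℕ) (hk : k < 3) :
    4 * rr < mu (om ^ k • (GW S).1) := by
  obtain ⟨-, h12, him, hre, -⟩ := GW_Kc S hS h
  have hkap : 0 < kap := by unfold kap; norm_num
  unfold mu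
  rw [Matrix.smul_apply, Matrix.smul_apply, smul_eq_mul, smul_eq_mul, h12, mul_zero, map_zero,
    add_zero]
  generalize (GW S).1 0 2 = z at *
  unfold rr
  have hsq : 0 < kap ^ 2 := by positivity
  have hs := GmC_s3
  have hk3 : k = 0 ∨ k = 1 ∨ k = 2 := by omega
  rcases hk3 with rfl | rfl | rfl
  · rw [pow_zero, one_mul, Complex.normSq_apply, Complex.add_re, Complex.add_im, him,
      Complex.ofReal_re, Complex.ofReal_im]
    nlinarith
  · rw [pow_one, Complex.normSq_apply, Complex.add_re, Complex.add_im, Complex.mul_re,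
      Complex.mul_im, him, GmC_om_re, GmC_om_im, Complex.ofReal_re, Complex.ofReal_im]
    have e : (-1 / 2 * z.re - Real.sqrt 3 / 2 * 0 + kap) *
        (-1 / 2 * z.re - Real.sqrt 3 / 2 * 0 + kap) +
        (-1 / 2 * 0 + Real.sqrt 3 / 2 * z.re + 0) * (-1 / 2 * 0 + Real.sqrt 3 / 2 * z.re + 0) =
        (z.re - kap / 2) ^ 2 + 3 / 4 * kap ^ 2 := by
      linear_combination (z.re ^ 2 / 4) * hs
    rw [e]
    nlinarith [sq_nonneg (z.re - kap / 2)]
  · rw [Complex.normSq_apply, Complex.add_re, Complex.add_im, Complex.mul_re,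
      Complex.mul_im, him, GmC_om2_re, GmC_om2_im, Complex.ofReal_re, Complex.ofReal_im]
    have e : (-1 / 2 * z.re - -(Real.sqrt 3 / 2) * 0 + kap) *
        (-1 / 2 * z.re - -(Real.sqrt 3 / 2) * 0 + kap) +
        (-1 / 2 * 0 + -(Real.sqrt 3 / 2) * z.re + 0) *
          (-1 / 2 * 0 + -(Real.sqrt 3 / 2) * z.re + 0) =
        (z.re - kap / 2) ^ 2 + 3 / 4 * kap ^ 2 := by
      linear_combination (z.re ^ 2 / 4) * hs
    rw [e]
    nlinarith [sq_nonneg (z.re - kap / 2)]

end Wu
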