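import Pool.Agent.Lib.MP_60079e_gt.GmB

/-! The sheet inequalities. -/

open Set Metric Topology Matrix
open scoped ContDiff

namespace Wu

theorem GmD_core (ε : ℝ) (hε : ε = 1 ∨ ε = -1) (e : ℂ) (he : e = ⟨-1 / 2, ε * (Real.sqrt 3 / 2)⟩)
    (S : WX) (h : ‖S.1 2 2‖ = 1) (hmu : mu (e • (GW S).1) ≤ 4 * rr)
    (hne : star (S.1 1 1) ≠ -e) : ε * nu (e • (GW S).1) < 0 := by
  obtain ⟨s, hs⟩ : ∃ s, s = Real.sqrt 3 / 2 := ⟨_, rfl⟩
  have hs2 : s * s = 3 / 4 := by
    have h3 : Real.sqrt 3 * Real.sqrt 3 = 3 := Real.mul_self_sqrt (by norm_num)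
    rw [hs]; linarith
  have hs0 : 0 ≤ s := by rw [hs]; positivity
  have hsl : 866 / 1000 ≤ s := by
    by_contra hc
    rw [not_le] at hc
    nlinarith
  have hsu : s ≤ 8661 / 10000 := by
    by_contra hc
    rw [not_le] at hc
    nlinarith
  rw [← hs] at he
  have hε2 : ε * ε = 1 := by rcases hε with rfl | rfl <;> norm_num
  have hεs : (ε * s) * (ε * s) = 3 / 4 := by
    have : (ε * s) * (ε * s) = (ε * ε) * (s * s) := by ring
    rw [this, hε2, hs2, one_mul]
  have e1 : e * e = star e := by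
    rw [he]
    apply Complex.ext
    · simp only [Complex.mul_re, Complex.star_def, Complex.conj_re]
      linarith
    · simp only [Complex.mul_im, Complex.star_def, Complex.conj_im]
      ring
  have e2 : e * star e = 1 := by
    rw [he]
    apply Complex.ext
    · simp only [Complex.mul_re, Complex.star_def, Complex.conj_re, Complex.conj_im, Complex.one_re]
      linarith
    · simp only [Complex.mul_im, Complex.star_def, Complex.conj_re, Complex.conj_im, Complex.one_im]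
      ring
  have e3 : 1 + e + star e = 0 := by
    rw [he]
    apply Complex.ext
    · simp only [Complex.add_re, Complex.star_def, Complex.conj_re, Complex.one_re,
        Complex.zero_re]
      ring
    · simp only [Complex.add_im, Complex.star_def, Complex.conj_im, Complex.one_im,
        Complex.zero_im]
      ring
  have e4 : star e * star e = e := by
    have := congrArg star e1
    rw [star_mul, star_star] at this
    exact this
  have hen : ‖e‖ = 1 := by
    have h1 : ‖e‖ * ‖e‖ = 1 := by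
      have h2 := congrArg norm e2
      rw [norm_mul, norm_star, norm_one] at h2
      exact h2
    nlinarith [norm_nonneg e]
  obtain ⟨-, -, -, hPz, hwz⟩ := M_entries S h
  obtain ⟨hT0, hT1, hT2, hT3⟩ := GW_M S h
  generalize (GW S).1 = T at *
  obtain ⟨P, hP⟩ : ∃ P, P = star (S.1 1 1) := ⟨_, rfl⟩
  obtain ⟨w, hw⟩ : ∃ w, w = S.1 2 2 := ⟨_, rfl⟩
  obtain ⟨z, hz⟩ : ∃ z, z = S.1 0 1 := ⟨_, rfl⟩
  have hnP : Complex.normSq P = Complex.normSq (S.1 1 1) := by
    rw [hP, Complex.star_def, Complex.normSq_conj]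
  rw [← hP] at hT0 hT3 hne
  rw [← hw, ← hz] at hwz hT2
  rw [← hw] at hT3 h
  rw [← hnP, ← hz] at hPz
  obtain ⟨ζ, hζ⟩ : ∃ ζ, ζ = 1 + star e * P := ⟨_, rfl⟩
  obtain ⟨q, hq⟩ : ∃ q, q = 576 / 625 + 49 / 625 * P := ⟨_, rfl⟩
  rw [← hq] at hT3
  have hww : w * star w = 1 := by
    rw [Complex.star_def, Complex.mul_conj, Complex.normSq_eq_norm_sq, h]
    norm_num
  -- the entries of `e T`
  have hA : (e • T) 0 2 + (kap : ℂ) = -(kap : ℂ) * star e * ζ := by
    rw [Matrix.smul_apply, smul_eq_mul, hT0, hζ]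
    linear_combination (kap : ℂ) * e3 + (kap : ℂ) * P * e4
  have hA2 : ((e • T) 0 2 + (kap : ℂ)) ^ 2 = (kap : ℂ) ^ 2 * (e * ζ ^ 2) := by
    rw [hA]
    linear_combination (kap : ℂ) ^ 2 * ζ ^ 2 * e4
  have hB : (e • T) 1 2 = -(7 / 25) * (e * (w * z)) := by
    rw [Matrix.smul_apply, smul_eq_mul, hT2]
    ring
  have hC : (e • T) 2 2 = e * (w * q) := by
    rw [Matrix.smul_apply, smul_eq_mul, hT3]
  have hnorm : ‖(e • T) 2 2‖ = ‖q‖ := by
    rw [hC, norm_mul, norm_mul, hen, h, one_mul, one_mul]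
  have hnz : ((Complex.normSq z : ℝ) : ℂ) = -(w * z ^ 2) := by
    rw [hwz]; ring
  have hB2 : ((e • T) 1 2) ^ 2 * star ((e • T) 2 2) =
      -((49 / 625 * Complex.normSq z : ℝ) : ℂ) * (e * star q) := by
    rw [hB, hC, star_mul, star_mul]
    push_cast
    rw [hnz]
    linear_combination (49 / 625 : ℂ) * e * w * z ^ 2 * star q * (e * star e) * hww +
      (49 / 625 : ℂ) * e * w * z ^ 2 * star q * e2
  have hnu : nu (e • T) = kap ^ 2 * (e * ζ ^ 2).im -
      49 / 625 * Complex.normSq z * ((e * star q).im / ‖q‖) := by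
    unfold nu
    rw [hA2, hB2, hnorm, Complex.add_im]
    have h1 : ((kap : ℂ) ^ 2 * (e * ζ ^ 2)).im = kap ^ 2 * (e * ζ ^ 2).im := by
      rw [← Complex.ofReal_pow, Complex.im_ofReal_mul]
    have h2 : (-((49 / 625 * Complex.normSq z : ℝ) : ℂ) * (e * star q) / ((‖q‖ : ℝ) : ℂ)).im =
        -(49 / 625 * Complex.normSq z * ((e * star q).im / ‖q‖)) := by
      rw [Complex.div_ofReal_im, neg_mul, Complex.neg_im, Complex.im_ofReal_mul]
      ring
    rw [h1, h2]
    ring
  -- real quantities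
  obtain ⟨x, hx⟩ : ∃ x, x = ζ.re := ⟨_, rfl⟩
  obtain ⟨y, hy⟩ : ∃ y, y = ζ.im := ⟨_, rfl⟩
  obtain ⟨N, hN⟩ : ∃ N, N = Complex.normSq z := ⟨_, rfl⟩
  rw [← hN] at hnu hPz
  have him1 : (e * ζ ^ 2).im = ε * s * (x ^ 2 - y ^ 2) - x * y := by
    rw [sq, Complex.mul_im, Complex.mul_im, Complex.mul_re, ← hx, ← hy, he]
    simp only
    ring
  have him2 : (e * star q).im = (576 * (ε * s) - 49 * y) / 625 := by
    have h1 : star ζ = 1 + e * star P := by
      rw [hζ, star_add, star_one, star_mul, star_star, mul_comm]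
    have h2 : e * star q = (576 / 625 : ℝ) * e + (49 / 625 : ℝ) * (star ζ - 1) := by
      have h3 : star q = 576 / 625 + 49 / 625 * star P := by
        rw [hq, star_add, star_mul]
        simp only [Complex.star_def, map_div₀, map_ofNat]
        ring
      rw [h1, h3]
      push_cast
      ring
    rw [h2, Complex.add_im, Complex.im_ofReal_mul, Complex.im_ofReal_mul, Complex.sub_im,
      Complex.one_im, Complex.star_def, Complex.conj_im, ← hy, he]
    simp only
    ring
  have hN1 : N = 2 * x - x ^ 2 - y ^ 2 := by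
    have h1 : Complex.normSq (ζ - 1) = Complex.normSq P := by
      rw [hζ, add_sub_cancel_left, map_mul, Complex.star_def, Complex.normSq_conj,
        Complex.normSq_eq_norm_sq e, hen, one_pow, one_mul]
    rw [Complex.normSq_apply, Complex.sub_re, Complex.sub_im, Complex.one_re, Complex.one_im,
      ← hx, ← hy] at h1
    linarith
  have hN0 : 0 ≤ N := by rw [hN]; exact Complex.normSq_nonneg z
  have hmu2 : kap ^ 2 * (x ^ 2 + y ^ 2) ≤ kap ^ 2 / 16 := by
    have h1 : mu (e • T) = kap ^ 2 * (x ^ 2 + y ^ 2) + Complex.normSq ((e • T) 1 2) := by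
      unfold mu
      rw [hA, map_mul, map_mul, Complex.normSq_neg, Complex.normSq_ofReal, Complex.star_def,
        Complex.normSq_conj, Complex.normSq_eq_norm_sq e, hen, Complex.normSq_apply ζ, ← hx, ← hy]
      ring
    have h2 := Complex.normSq_nonneg ((e • T) 1 2)
    have h3 : 4 * rr = kap ^ 2 / 16 := by unfold rr; ring
    rw [h1, h3] at hmu
    linarith
  have hkap : (0 : ℝ) < kap ^ 2 := by unfold kap; norm_num
  have hxy : x ^ 2 + y ^ 2 ≤ 1 / 16 := by
    by_contra hc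
    rw [not_le] at hc
    nlinarith
  have hx4 : x ≤ 1 / 4 := by nlinarith [sq_nonneg y, sq_nonneg (x - 1 / 4)]
  have hy4 : |y| ≤ 1 / 4 := by
    refine abs_le_of_sq_le_sq (by nlinarith [sq_nonneg x]) (by norm_num)
  have hx0 : 0 < x := by
    have h1 : ζ ≠ 0 := by
      intro h2
      apply hne
      rw [hζ] at h2
      linear_combination e * h2 - P * e2
    have h2 : 0 < x ^ 2 + y ^ 2 := by
      have h3 := Complex.normSq_pos.2 h1
      rw [Complex.normSq_apply, ← hx, ← hy] at h3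
      nlinarith
    nlinarith
  have hP1 : ‖P‖ ≤ 1 := by
    have h1 : Complex.normSq P ≤ 1 := by linarith
    rw [Complex.normSq_eq_norm_sq] at h1
    nlinarith [norm_nonneg P]
  have hq1 : ‖q‖ ≤ 1 := by
    rw [hq]
    refine (norm_add_le _ _).trans ?_
    rw [norm_mul, norm_div, norm_div, Complex.norm_ofNat, Complex.norm_ofNat, Complex.norm_ofNat]
    linarith
  have hεy : |ε * y| ≤ 1 / 4 := by
    rw [abs_mul]
    have : |ε| = 1 := by rcases hε with rfl | rfl <;> norm_num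
    rw [this, one_mul]
    exact hy4
  obtain ⟨h5, h6⟩ := abs_le.1 hεy
  have hI0 : 77 / 100 ≤ (576 * s - 49 * (ε * y)) / 625 := by
    rw [le_div_iff₀ (by norm_num)]
    linarith
  have hq0 : 0 < ‖q‖ := by
    refine norm_pos_iff.2 fun h0 => ?_
    rw [h0, star_zero, mul_zero, Complex.zero_im] at him2
    have h7 : ε * ((576 * (ε * s) - 49 * y) / 625) = (576 * s - 49 * (ε * y)) / 625 := by
      have : ε * ((576 * (ε * s) - 49 * y) / 625) = (576 * (ε * ε * s) - 49 * (ε * y)) / 625 := by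
        ring
      rw [this, hε2, one_mul]
    rw [← him2, mul_zero] at h7
    linarith
  have hI : 77 / 100 ≤ (576 * s - 49 * (ε * y)) / 625 / ‖q‖ := by
    rw [le_div_iff₀ hq0]
    nlinarith
  have hfin : ε * nu (e • T) = kap ^ 2 * (s * (x ^ 2 - y ^ 2) - x * (ε * y)) -
      49 / 625 * N * ((576 * s - 49 * (ε * y)) / 625 / ‖q‖) := by
    rw [hnu, him1, him2]
    have h7 : ε * (kap ^ 2 * (ε * s * (x ^ 2 - y ^ 2) - x * y) -
        49 / 625 * N * ((576 * (ε * s) - 49 * y) / 625 / ‖q‖)) =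
        kap ^ 2 * ((ε * ε) * s * (x ^ 2 - y ^ 2) - x * (ε * y)) -
        49 / 625 * N * ((576 * ((ε * ε) * s) - 49 * (ε * y)) / 625 / ‖q‖) := by
      ring
    rw [h7, hε2, one_mul]
  rw [hfin]
  have hk : (49 : ℝ) / 625 = kap ^ 2 * (30625 / 28224) := by unfold kap; norm_num
  have h8 : 49 / 625 * N * (77 / 100) ≤
      49 / 625 * N * ((576 * s - 49 * (ε * y)) / 625 / ‖q‖) :=
    mul_le_mul_of_nonneg_left hI (by positivity)
  have h9 : kap ^ 2 * (s * (x ^ 2 - y ^ 2) - x * (ε * y)) - 49 / 625 * N * (77 / 100) =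
      kap ^ 2 * ((s * (x ^ 2 - y ^ 2) - x * (ε * y)) - 30625 / 28224 * (77 / 100) * N) := by
    rw [hk]; ring
  have h10 : (s * (x ^ 2 - y ^ 2) - x * (ε * y)) - 30625 / 28224 * (77 / 100) * N < 0 := by
    rw [hN1]
    have h11 : -(x * (ε * y)) ≤ x * (1 / 4) := by nlinarith
    have h12 : x ^ 2 ≤ x * (1 / 4) := by nlinarith
    have h13 : 0 ≤ y ^ 2 := sq_nonneg y
    have h14 : s * x ^ 2 ≤ 8661 / 10000 * (x * (1 / 4)) :=
      mul_le_mul hsu h12 (sq_nonneg x) (by norm_num)
    have h15 : 866 / 1000 * y ^ 2 ≤ s * y ^ 2 := mul_le_mul_of_nonneg_right hsl h13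
    nlinarith
  have h16 := mul_neg_of_pos_of_neg hkap h10
  linarith

/-- The sheet inequality near `P = -om`. -/
theorem sheet_neg (S : WX) (h : ‖S.1 2 2‖ = 1) (hmu : mu (om ^ 1 • (GW S).1) ≤ 4 * rr)
    (hne : star (S.1 1 1) ≠ -om) : nu (om ^ 1 • (GW S).1) < 0 := by
  rw [pow_one] at hmu ⊢
  have h1 := GmD_core 1 (Or.inl rfl) om (by rw [one_mul]; rfl) S h hmu hne
  rwa [one_mul] at h1

/-- The sheet inequality near `P = -om²`. -/
theorem sheet_pos (S : WX) (h : ‖S.1 2 2‖ = 1) (hmu : mu (om ^ 2 • (GW S).1) ≤ 4 * rr)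
    (hne : star (S.1 1 1) ≠ -(om ^ 2)) : 0 < nu (om ^ 2 • (GW S).1) := by
  have h1 := GmD_core (-1) (Or.inr rfl) (om ^ 2) (by rw [WI_om_sq, neg_one_mul]) S h hmu hne
  linarith

end Wu
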