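import Pool.Agent.Lib.MP_60079e_gt.GmC
import Pool.Agent.Lib.MP_60079e_gt.GmD

/-! The values of `α, β` on `G (Kc)`. -/

open Set Metric Topology Matrix
open scoped ContDiff

namespace Wu

private theorem gmE_rr : rr = kap ^ 2 / 64 := rfl

private theorem gmE_kap_pos : 0 < kap := by unfold kap; norm_num

private theorem gmE_rr_pos : 0 < rr := by
  have := gmE_kap_pos
  unfold rr; positivity

private theorem gmE_norm22 (S : WX) : ‖S.1 2 2‖ ≤ 1 :=
  entry_norm_bound_of_unitary (Matrix.mem_specialUnitaryGroup_iff.1 S.2.1).1 2 2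

private theorem gmE_norm_cases (S : WX) (hS : S ∈ Kc) (h : (S.1 1 1).im ≠ 0) : ‖S.1 2 2‖ = 1 := by
  rcases lt_or_eq_of_le (gmE_norm22 S) with h1 | h1
  · exfalso
    have := (Kc_entries S hS h1).2.1
    rw [this] at h
    simp at h
  · exact h1

private theorem gmE_om_im : om.im = Real.sqrt 3 / 2 := rfl

private theorem gmE_om2_im : (om ^ 2).im = -(Real.sqrt 3 / 2) := by
  rw [pow_two, Complex.mul_im]
  simp only [om]
  ring

private theorem gmE_sq3 : (Real.sqrt 3 / 2) ^ 2 = 3 / 4 := by
  rw [div_pow, Real.sq_sqrt (by norm_num)]; norm_num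

private theorem gmE_im_sq_le (z : ℂ) : z.im ^ 2 ≤ Complex.normSq z := by
  rw [Complex.normSq_apply]; nlinarith [mul_self_nonneg z.re]

/-- far tube, first index -/
private theorem gmE_far1 (S : WX) (h : ‖S.1 2 2‖ = 1) (him : (S.1 1 1).im ≤ 0) :
    4 * rr < mu (om ^ 1 • (GW S).1) := by
  rw [(mu_GW_M S h).2.1]
  have h1 : 3 / 4 ≤ Complex.normSq (star (S.1 1 1) + om) := by
    refine le_trans ?_ (gmE_im_sq_le _)
    have e : (star (S.1 1 1) + om).im = -(S.1 1 1).im + Real.sqrt 3 / 2 := by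
      simp [Complex.add_im, gmE_om_im]
    rw [e, ← gmE_sq3]
    have : 0 ≤ Real.sqrt 3 / 2 := by positivity
    exact pow_le_pow_left₀ this (by linarith) 2
  have h2 : 0 ≤ Complex.normSq (S.1 0 1) := Complex.normSq_nonneg _
  have hk := gmE_kap_pos
  have hk2 : 0 < kap ^ 2 := by positivity
  rw [gmE_rr]
  nlinarith [mul_le_mul_of_nonneg_left h1 hk2.le]

private theorem gmE_far2 (S : WX) (h : ‖S.1 2 2‖ = 1) (him : 0 ≤ (S.1 1 1).im) :
    4 * rr < mu (om ^ 2 • (GW S).1) := by
  rw [(mu_GW_M S h).2.2]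
  have h1 : 3 / 4 ≤ Complex.normSq (star (S.1 1 1) + om ^ 2) := by
    refine le_trans ?_ (gmE_im_sq_le _)
    have e : (star (S.1 1 1) + om ^ 2).im = -((S.1 1 1).im + Real.sqrt 3 / 2) := by
      rw [Complex.add_im, gmE_om2_im]
      simp only [RCLike.star_def, Complex.conj_im]
      ring
    rw [e, neg_sq, ← gmE_sq3]
    have : 0 ≤ Real.sqrt 3 / 2 := by positivity
    exact pow_le_pow_left₀ this (by linarith) 2
  have h2 : 0 ≤ Complex.normSq (S.1 0 1) := Complex.normSq_nonneg _
  have hk := gmE_kap_pos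
  have hk2 : 0 < kap ^ 2 := by positivity
  rw [gmE_rr]
  nlinarith [mul_le_mul_of_nonneg_left h1 hk2.le]

private theorem gmE_ta (s : ℝ) (hs : s ≤ 2) : ta s = 1 := by
  unfold ta
  rw [Real.smoothTransition.zero_of_nonpos (by linarith)]
  ring

/-- At the crossing circles `α = -3`, `β = 0`. -/
theorem GW_crossing (S : WX) (h : ‖S.1 2 2‖ = 1) (k : ℕ) (hk : k = 1 ∨ k = 2)
    (hP : star (S.1 1 1) = -(om ^ k)) : al (GW S).1 = -3 ∧ be (GW S).1 = 0 := by
  have hom : Complex.normSq om = 1 := by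
    rw [Complex.normSq_apply]
    simp only [om]
    have := gmE_sq3
    nlinarith
  have hP1 : Complex.normSq (S.1 1 1) = 1 := by
    have h1 : Complex.normSq (star (S.1 1 1)) = Complex.normSq (S.1 1 1) := by
      simp [RCLike.star_def]
    rw [← h1, hP, Complex.normSq_neg, map_pow, hom, one_pow]
  have h01 : Complex.normSq (S.1 0 1) = 0 := by
    have := (M_entries S h).2.2.2.1
    linarith
  have hmu : mu (om ^ k • (GW S).1) = 0 := by
    rcases hk with rfl | rfl
    · rw [(mu_GW_M S h).2.1, hP, h01]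
      simp
    · rw [(mu_GW_M S h).2.2, hP, h01]
      simp
  have hle : mu (om ^ k • (GW S).1) ≤ 4 * rr := by
    rw [hmu]; have := gmE_rr_pos; linarith
  constructor
  · rw [← al_om _ k, al_tube _ hle, hmu, zero_div]
    unfold th
    rw [Real.smoothTransition.zero_of_nonpos (by norm_num)]
    norm_num
  · rw [← be_om _ k, be_tube _ hle]
    have h0 : nu (om ^ k • (GW S).1) = 0 := by
      have h1 := hmu
      unfold mu at h1
      have e1 : Complex.normSq ((om ^ k • (GW S).1) 0 2 + kap) = 0 :=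
        le_antisymm (by linarith [Complex.normSq_nonneg ((om ^ k • (GW S).1) 1 2)])
          (Complex.normSq_nonneg _)
      have e2 : Complex.normSq ((om ^ k • (GW S).1) 1 2) = 0 := by linarith
      rw [Complex.normSq_eq_zero] at e1 e2
      unfold nu
      rw [e1, e2]
      simp
    rw [h0, mul_zero]

theorem GW_sheet_pos (S : WX) (hS : S ∈ Kc) (h : 0 < (S.1 1 1).im) :
    0 < al (GW S).1 ∨ be (GW S).1 < 0 ∨ (al (GW S).1 = -3 ∧ be (GW S).1 = 0) := by
  have h22 := gmE_norm_cases S hS h.ne'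
  have hr := gmE_rr_pos
  by_cases h1 : 2 * rr ≤ mu (om ^ 1 • (GW S).1)
  · left
    have : al (GW S).1 = 1 := by
      refine al_outside _ ?_
      intro k hk
      interval_cases k
      · rw [pow_zero, one_smul]
        linarith [(mu_GW_M S h22).1]
      · exact h1
      · linarith [gmE_far2 S h22 h.le]
    rw [this]; norm_num
  · push Not at h1
    right
    have hle : mu (om ^ 1 • (GW S).1) ≤ 4 * rr := by linarith
    by_cases hP : star (S.1 1 1) = -om
    · right
      exact GW_crossing S h22 1 (Or.inl rfl) (by rw [pow_one]; exact hP)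
    · left
      rw [← be_om _ 1, be_tube _ hle, gmE_ta _ (by rw [div_le_iff₀ hr]; linarith), one_mul]
      exact sheet_neg S h22 hle hP

theorem GW_sheet_neg (S : WX) (hS : S ∈ Kc) (h : (S.1 1 1).im < 0) :
    0 < al (GW S).1 ∨ 0 < be (GW S).1 ∨ (al (GW S).1 = -3 ∧ be (GW S).1 = 0) := by
  have h22 := gmE_norm_cases S hS h.ne
  have hr := gmE_rr_pos
  by_cases h1 : 2 * rr ≤ mu (om ^ 2 • (GW S).1)
  · left
    have : al (GW S).1 = 1 := by
      refine al_outside _ ?_
      intro k hk
      interval_cases k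
      · rw [pow_zero, one_smul]
        linarith [(mu_GW_M S h22).1]
      · linarith [gmE_far1 S h22 h.le]
      · exact h1
    rw [this]; norm_num
  · push Not at h1
    right
    have hle : mu (om ^ 2 • (GW S).1) ≤ 4 * rr := by linarith
    by_cases hP : star (S.1 1 1) = -(om ^ 2)
    · right
      exact GW_crossing S h22 2 (Or.inr rfl) hP
    · left
      rw [← be_om _ 2, be_tube _ hle, gmE_ta _ (by rw [div_le_iff₀ hr]; linarith), one_mul]
      exact sheet_pos S h22 hle hP

theorem GW_sheet_zero (S : WX) (hS : S ∈ Kc) (h : (S.1 1 1).im = 0) (k : ℕ) (hk : k < 3) :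
    4 * rr < mu (om ^ k • (GW S).1) := by
  rcases lt_or_eq_of_le (gmE_norm22 S) with h1 | h1
  · exact mu_GW_Kc S hS h1 k hk
  · interval_cases k
    · rw [pow_zero, one_smul]
      exact (mu_GW_M S h1).1
    · exact gmE_far1 S h1 h.le
    · exact gmE_far2 S h1 h.ge

end Wu
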