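import Mathlib

/-! # The Hopf–Stiefel obstruction, combinatorial part A

Cells of the integer grid are integer sequences `q` (doubled coordinates): the coordinate `l` of
the cell is a point if `q l` is even and the interval `[q l - 1, q l + 1]` if `q l` is odd.
Chains are operators on functions of cells, with values in `ZMod 2`. -/

open Finset

namespace WuHS

abbrev Seq : Type := ℕ → ℤ
abbrev Z2 : Type := ZMod 2

/-- sum over the two facets in direction `l` -/
def bdl (l : ℕ) (f : Seq → Z2) (q : Seq) : Z2 :=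
  if Odd (q l) then f (Function.update q l (q l + 1)) + f (Function.update q l (q l - 1)) else 0

/-- sum over the facets in the directions of `s` -/
def bd (s : Finset ℕ) (f : Seq → Z2) (q : Seq) : Z2 := ∑ l ∈ s, bdl l f q

/-- negation of the coordinates in `s` -/
def neg (s : Finset ℕ) (q : Seq) : Seq := fun l => if l ∈ s then -q l else q l

/-- cells of the boundary of the cube `[-N, N]^s` (other coordinates free) -/
def InX (N : ℕ) (s : Finset ℕ) (q : Seq) : Prop :=
  (∀ l ∈ s, |q l| ≤ 2 * N) ∧ ∃ l ∈ s, |q l| = 2 * N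

/-! ### operators in one direction -/

private def HSa_dir (l : ℕ) (A : ℤ → Multiset ℤ) (f : Seq → Z2) (q : Seq) : Z2 :=
  ((A (q l)).map fun c => f (Function.update q l c)).sum

private theorem HSa_dir_add (l : ℕ) (A : ℤ → Multiset ℤ) (f g : Seq → Z2) :
    HSa_dir l A (fun q => f q + g q) = fun q => HSa_dir l A f q + HSa_dir l A g q := by
  funext q
  exact Multiset.sum_map_add

private theorem HSa_dir_comm {l l' : ℕ} (h : l ≠ l') (A A' : ℤ → Multiset ℤ) (f : Seq → Z2) :
    HSa_dir l A (HSa_dir l' A' f) = HSa_dir l' A' (HSa_dir l A f) := by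
  funext q
  unfold HSa_dir
  have h1 : ∀ c, (Function.update q l c) l' = q l' := fun c => Function.update_of_ne h.symm _ _
  have h2 : ∀ c, (Function.update q l' c) l = q l := fun c => Function.update_of_ne h _ _
  simp only [h1, h2]
  rw [Multiset.sum_map_sum_map]
  simp only [Function.update_comm h]

private theorem HSa_bdl (l : ℕ) : bdl l =
    HSa_dir l (fun x => if Odd x then {x + 1, x - 1} else 0) := by
  funext f q
  unfold bdl HSa_dir
  by_cases h : Odd (q l)
  · simp [h]
  · simp [h]

private theorem HSa_bdl_add (l : ℕ) (f g : Seq → Z2) :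
    bdl l (fun q => f q + g q) = fun q => bdl l f q + bdl l g q := by
  rw [HSa_bdl, HSa_dir_add]

private theorem HSa_bdl_zero (l : ℕ) : bdl l (fun _ => (0 : Z2)) = fun _ => 0 := by
  funext q
  unfold bdl
  split_ifs <;> simp

private theorem HSa_bd_empty (f : Seq → Z2) : bd ∅ f = fun _ => 0 := by
  funext q
  unfold bd
  rw [sum_empty]

private theorem HSa_bd_insert {l : ℕ} {s : Finset ℕ} (h : l ∉ s) (f : Seq → Z2) :
    bd (insert l s) f = fun q => bdl l f q + bd s f q := by
  funext q
  unfold bd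
  rw [sum_insert h]

private theorem HSa_bd_add (s : Finset ℕ) (f g : Seq → Z2) :
    bd s (fun q => f q + g q) = fun q => bd s f q + bd s g q := by
  funext q
  unfold bd
  rw [← sum_add_distrib]
  refine sum_congr rfl fun l _ => ?_
  rw [HSa_bdl_add]

private theorem HSa_bd_zero (s : Finset ℕ) : bd s (fun _ => (0 : Z2)) = fun _ => 0 := by
  funext q
  unfold bd
  refine sum_eq_zero fun l _ => ?_
  rw [HSa_bdl_zero]

private theorem HSa_dir_zero (l : ℕ) (A : ℤ → Multiset ℤ) :
    HSa_dir l A (fun _ => 0) = fun _ => 0 := by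
  funext q
  unfold HSa_dir
  exact Multiset.sum_map_zero

private theorem HSa_dir_bd {l : ℕ} {s : Finset ℕ} (h : l ∉ s) (A : ℤ → Multiset ℤ)
    (f : Seq → Z2) : HSa_dir l A (bd s f) = bd s (HSa_dir l A f) := by
  induction s using Finset.induction_on with
  | empty => rw [HSa_bd_empty, HSa_bd_empty, HSa_dir_zero]
  | insert a s ha ih =>
    have h1 : l ≠ a := fun h2 => h (h2 ▸ mem_insert_self _ _)
    have h2 : l ∉ s := fun h3 => h (mem_insert_of_mem h3)
    rw [HSa_bd_insert ha, HSa_bd_insert ha, HSa_dir_add, ih h2, HSa_bdl, HSa_dir_comm h1]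

private theorem HSa_two (x : Z2) : x + x = 0 := CharTwo.add_self_eq_zero x

private theorem HSa_bdl_even (l : ℕ) (f : Seq → Z2) (q : Seq) (h : ¬ Odd (q l)) :
    bdl l f q = 0 := if_neg h

private theorem HSa_bdl_bdl (l : ℕ) (f : Seq → Z2) : bdl l (bdl l f) = fun _ => 0 := by
  funext q
  by_cases h : Odd (q l)
  · have h1 : bdl l (bdl l f) q = bdl l f (Function.update q l (q l + 1)) +
        bdl l f (Function.update q l (q l - 1)) := if_pos h
    rw [h1, HSa_bdl_even, HSa_bdl_even, add_zero]
    · rw [Function.update_self]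
      exact Int.not_odd_iff_even.mpr (h.sub_odd odd_one)
    · rw [Function.update_self]
      exact Int.not_odd_iff_even.mpr (h.add_odd odd_one)
  · exact HSa_bdl_even l _ q h

theorem bd_bd (s : Finset ℕ) (f : Seq → Z2) (q : Seq) : bd s (bd s f) q = 0 := by
  have h : bd s (bd s f) = fun _ => 0 := by
    induction s using Finset.induction_on with
    | empty => rw [HSa_bd_empty]
    | insert a s ha ih =>
      rw [HSa_bd_insert ha f, HSa_bd_insert ha, HSa_bdl_add, HSa_bd_add, ih, HSa_bdl_bdl]
      have h1 : bd s (bdl a f) = bdl a (bd s f) := by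
        rw [HSa_bdl, HSa_dir_bd ha]
      rw [h1]
      funext q
      show (0 : Z2) + bdl a (bd s f) q + (bdl a (bd s f) q + 0) = 0
      rw [zero_add, add_zero, HSa_two]
  rw [h]

theorem bd_neg (s t : Finset ℕ) (f : Seq → Z2) (q : Seq) :
    bd s f (neg t q) = bd s (fun q' => f (neg t q')) q := by
  unfold bd
  refine sum_congr rfl fun l _ => ?_
  unfold bdl
  by_cases hl : l ∈ t
  · have h1 : neg t q l = -q l := if_pos hl
    have h2 : ∀ c, neg t (Function.update q l c) = Function.update (neg t q) l (-c) := by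
      intro c
      funext l'
      by_cases hl' : l' = l
      · subst hl'
        rw [Function.update_self]
        unfold neg
        rw [if_pos hl, Function.update_self]
      · rw [Function.update_of_ne hl']
        unfold neg
        rw [Function.update_of_ne hl']
    have h3 : -(q l + 1) = -q l - 1 := by ring
    have h4 : -(q l - 1) = -q l + 1 := by ring
    simp only [h1, h2, odd_neg, h3, h4]
    by_cases ho : Odd (q l)
    · rw [if_pos ho, if_pos ho, add_comm]
    · rw [if_neg ho, if_neg ho]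
  · have h1 : neg t q l = q l := if_neg hl
    have h2 : ∀ c, neg t (Function.update q l c) = Function.update (neg t q) l c := by
      intro c
      funext l'
      by_cases hl' : l' = l
      · subst hl'
        rw [Function.update_self]
        unfold neg
        rw [if_neg hl, Function.update_self]
      · rw [Function.update_of_ne hl']
        unfold neg
        rw [Function.update_of_ne hl']
    simp only [h1, h2]

theorem inX_facet (N : ℕ) (s : Finset ℕ) (q : Seq) (h : InX N s q) (l : ℕ) (hl : Odd (q l)) :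
    InX N s (Function.update q l (q l + 1)) ∧ InX N s (Function.update q l (q l - 1)) := by
  have key : ∀ c : ℤ, (|q l| ≤ 2 * N → |c| ≤ 2 * N) → InX N s (Function.update q l c) := by
    intro c hc
    obtain ⟨h1, l', h2, h3⟩ := h
    refine ⟨?_, l', h2, ?_⟩
    · intro m hm
      by_cases hml : m = l
      · subst hml
        rw [Function.update_self]
        exact hc (h1 m hm)
      · rw [Function.update_of_ne hml]
        exact h1 m hm
    · have hne : l' ≠ l := by
        rintro rfl
        obtain ⟨a, ha⟩ := hl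
        rcases abs_choice (q l') with h4 | h4 <;> omega
      rw [Function.update_of_ne hne]
      exact h3
  obtain ⟨a, ha⟩ := hl
  constructor
  · refine key _ fun h4 => ?_
    rw [abs_le] at h4 ⊢
    omega
  · refine key _ fun h4 => ?_
    rw [abs_le] at h4 ⊢
    omega

theorem inX_neg (N : ℕ) (s t : Finset ℕ) (q : Seq) : InX N s (neg t q) ↔ InX N s q := by
  have h : ∀ l, |neg t q l| = |q l| := by
    intro l
    unfold neg
    split_ifs
    · exact abs_neg _
    · rfl
  unfold InX
  simp only [h]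

/-- evaluation -/
def ev (l : ℕ) (c : ℤ) (f : Seq → Z2) (q : Seq) : Z2 := f (Function.update q l c)

/-- the interval `[0, 2N]` in direction `l` -/
def ip (N l : ℕ) (f : Seq → Z2) (q : Seq) : Z2 :=
  ∑ k ∈ range N, f (Function.update q l (2 * (k : ℤ) + 1))

/-- the interval `[-2N, 0]` in direction `l` -/
def im (N l : ℕ) (f : Seq → Z2) (q : Seq) : Z2 :=
  ∑ k ∈ range N, f (Function.update q l (-(2 * (k : ℤ) + 1)))

/-- the cube `[-2N, 2N]^k` in directions `o, …, o + k - 1` -/
def cubeOp (N o : ℕ) : ℕ → (Seq → Z2) → Seq → Z2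
  | 0, f => f
  | k + 1, f => cubeOp N o k (fun q => ip N (o + k) f q + im N (o + k) f q)

/-- the boundary of the cube `[-2N, 2N]^k` in directions `o, …, o + k - 1` -/
def dcubeOp (N o : ℕ) : ℕ → (Seq → Z2) → Seq → Z2
  | 0, _ => fun _ => 0
  | k + 1, f => fun q => dcubeOp N o k (fun q => ip N (o + k) f q + im N (o + k) f q) q +
      cubeOp N o k (fun q => ev (o + k) (2 * N) f q + ev (o + k) (-(2 * N)) f q) q

/-- the upper hemisphere of the sphere `∂ [-2N, 2N]^{k+1}` in directions `o, …, o + k` -/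
def Sph (N o k : ℕ) (f : Seq → Z2) (q : Seq) : Z2 :=
  dcubeOp N o k (ip N (o + k) f) q + cubeOp N o k (ev (o + k) (2 * N) f) q

private theorem HSa_ev (l : ℕ) (c : ℤ) : ev l c = HSa_dir l (fun _ => {c}) := by
  funext f q
  unfold ev HSa_dir
  simp

private theorem HSa_ip (N l : ℕ) :
    ip N l = HSa_dir l (fun _ => (range N).val.map fun k : ℕ => 2 * (k : ℤ) + 1) := by
  funext f q
  unfold ip HSa_dir
  rw [Multiset.map_map]
  rfl

private theorem HSa_im (N l : ℕ) :
    im N l = HSa_dir l (fun _ => (range N).val.map fun k : ℕ => -(2 * (k : ℤ) + 1)) := by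
  funext f q
  unfold im HSa_dir
  rw [Multiset.map_map]
  rfl

private theorem HSa_ip_add (N l : ℕ) (f g : Seq → Z2) :
    ip N l (fun q => f q + g q) = fun q => ip N l f q + ip N l g q := by
  rw [HSa_ip, HSa_dir_add]

private theorem HSa_im_add (N l : ℕ) (f g : Seq → Z2) :
    im N l (fun q => f q + g q) = fun q => im N l f q + im N l g q := by
  rw [HSa_im, HSa_dir_add]

private theorem HSa_ev_add (l : ℕ) (c : ℤ) (f g : Seq → Z2) :
    ev l c (fun q => f q + g q) = fun q => ev l c f q + ev l c g q := rfl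

/-- `ip + im` -/
private def HSa_ii (N l : ℕ) (f : Seq → Z2) : Seq → Z2 := fun q => ip N l f q + im N l f q

/-- `ev + ev` -/
private def HSa_ee (N l : ℕ) (f : Seq → Z2) : Seq → Z2 :=
  fun q => ev l (2 * N) f q + ev l (-(2 * N)) f q

private theorem HSa_ii_add (N l : ℕ) (f g : Seq → Z2) :
    HSa_ii N l (fun q => f q + g q) = fun q => HSa_ii N l f q + HSa_ii N l g q := by
  funext q
  unfold HSa_ii
  rw [HSa_ip_add, HSa_im_add]
  ring

private theorem HSa_ee_add (N l : ℕ) (f g : Seq → Z2) :
    HSa_ee N l (fun q => f q + g q) = fun q => HSa_ee N l f q + HSa_ee N l g q := by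
  funext q
  unfold HSa_ee
  rw [HSa_ev_add, HSa_ev_add]
  ring

private theorem HSa_cube_succ (N o k : ℕ) (f : Seq → Z2) :
    cubeOp N o (k + 1) f = cubeOp N o k (HSa_ii N (o + k) f) := rfl

private theorem HSa_dcube_succ (N o k : ℕ) (f : Seq → Z2) :
    dcubeOp N o (k + 1) f = fun q => dcubeOp N o k (HSa_ii N (o + k) f) q +
      cubeOp N o k (HSa_ee N (o + k) f) q := rfl

private theorem HSa_cube_add (N o k : ℕ) : ∀ (f g : Seq → Z2),
    cubeOp N o k (fun q => f q + g q) = fun q => cubeOp N o k f q + cubeOp N o k g q := by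
  induction k with
  | zero => intro f g; rfl
  | succ k ih =>
    intro f g
    rw [HSa_cube_succ, HSa_cube_succ, HSa_cube_succ, HSa_ii_add, ih]

private theorem HSa_dcube_add (N o k : ℕ) : ∀ (f g : Seq → Z2),
    dcubeOp N o k (fun q => f q + g q) = fun q => dcubeOp N o k f q + dcubeOp N o k g q := by
  induction k with
  | zero => intro f g; funext q; exact (add_zero (0 : Z2)).symm
  | succ k ih =>
    intro f g
    funext q
    rw [HSa_dcube_succ, HSa_dcube_succ, HSa_dcube_succ, HSa_ii_add, HSa_ee_add, ih, HSa_cube_add]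
    ring

private theorem HSa_ii_comm {N l l' : ℕ} (h : l ≠ l') (A : ℤ → Multiset ℤ) (f : Seq → Z2) :
    HSa_ii N l' (HSa_dir l A f) = HSa_dir l A (HSa_ii N l' f) := by
  have h1 : HSa_dir l A (HSa_ii N l' f) = fun q =>
      HSa_dir l A (ip N l' f) q + HSa_dir l A (im N l' f) q := HSa_dir_add _ _ _ _
  rw [h1]
  funext q
  unfold HSa_ii
  rw [HSa_ip, HSa_im, HSa_dir_comm h.symm, HSa_dir_comm h.symm]

private theorem HSa_ee_comm {N l l' : ℕ} (h : l ≠ l') (A : ℤ → Multiset ℤ) (f : Seq → Z2) :
    HSa_ee N l' (HSa_dir l A f) = HSa_dir l A (HSa_ee N l' f) := by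
  have h1 : HSa_dir l A (HSa_ee N l' f) = fun q =>
      HSa_dir l A (ev l' (2 * N) f) q + HSa_dir l A (ev l' (-(2 * N)) f) q := HSa_dir_add _ _ _ _
  rw [h1]
  funext q
  unfold HSa_ee
  rw [HSa_ev, HSa_ev, HSa_dir_comm h.symm, HSa_dir_comm h.symm]

private theorem HSa_cube_comm (N o l : ℕ) (A : ℤ → Multiset ℤ) (k : ℕ)
    (h : l ∉ Ico o (o + k)) : ∀ f : Seq → Z2,
    cubeOp N o k (HSa_dir l A f) = HSa_dir l A (cubeOp N o k f) := by
  induction k with
  | zero => intro f; rfl
  | succ k ih =>
    intro f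
    rw [mem_Ico] at h
    have h1 : l ∉ Ico o (o + k) := by
      rw [mem_Ico]
      omega
    have h2 : l ≠ o + k := by omega
    rw [HSa_cube_succ, HSa_cube_succ, HSa_ii_comm h2, ih h1]

private theorem HSa_dcube_comm (N o l : ℕ) (A : ℤ → Multiset ℤ) (k : ℕ)
    (h : l ∉ Ico o (o + k)) : ∀ f : Seq → Z2,
    dcubeOp N o k (HSa_dir l A f) = HSa_dir l A (dcubeOp N o k f) := by
  induction k with
  | zero => intro f; exact (HSa_dir_zero l A).symm
  | succ k ih =>
    intro f
    rw [mem_Ico] at h
    have h1 : l ∉ Ico o (o + k) := by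
      rw [mem_Ico]
      omega
    have h2 : l ≠ o + k := by omega
    rw [HSa_dcube_succ, HSa_dcube_succ, HSa_ii_comm h2, HSa_ee_comm h2, ih h1,
      HSa_cube_comm N o l A k h1, HSa_dir_add]

private theorem HSa_ip_bdl (N l : ℕ) (f : Seq → Z2) (q : Seq) :
    ip N l (bdl l f) q = ev l (2 * N) f q + ev l 0 f q := by
  unfold ip
  induction N with
  | zero =>
    rw [range_zero, sum_empty, Nat.cast_zero, mul_zero, HSa_two]
  | succ n ih =>
    rw [sum_range_succ, ih]
    have h1 : bdl l f (Function.update q l (2 * (n : ℤ) + 1)) =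
        ev l (2 * ((n + 1 : ℕ) : ℤ)) f q + ev l (2 * (n : ℤ)) f q := by
      unfold bdl ev
      rw [Function.update_self, if_pos ⟨(n : ℤ), rfl⟩, Function.update_idem, Function.update_idem]
      have h2 : 2 * (n : ℤ) + 1 + 1 = 2 * ((n + 1 : ℕ) : ℤ) := by push_cast; ring
      have h3 : 2 * (n : ℤ) + 1 - 1 = 2 * (n : ℤ) := by ring
      rw [h2, h3]
    rw [h1]
    have h4 := HSa_two (ev l (2 * (n : ℤ)) f q)
    linear_combination h4

private theorem HSa_im_bdl (N l : ℕ) (f : Seq → Z2) (q : Seq) :
    im N l (bdl l f) q = ev l (-(2 * N)) f q + ev l 0 f q := by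
  unfold im
  induction N with
  | zero =>
    rw [range_zero, sum_empty, Nat.cast_zero, mul_zero, neg_zero, HSa_two]
  | succ n ih =>
    rw [sum_range_succ, ih]
    have h1 : bdl l f (Function.update q l (-(2 * (n : ℤ) + 1))) =
        ev l (-(2 * (n : ℤ))) f q + ev l (-(2 * ((n + 1 : ℕ) : ℤ))) f q := by
      unfold bdl ev
      have h0 : Odd (-(2 * (n : ℤ) + 1)) := Odd.neg ⟨(n : ℤ), rfl⟩
      rw [Function.update_self, if_pos h0, Function.update_idem, Function.update_idem]
      have h2 : -(2 * (n : ℤ) + 1) + 1 = -(2 * (n : ℤ)) := by ring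
      have h3 : -(2 * (n : ℤ) + 1) - 1 = -(2 * ((n + 1 : ℕ) : ℤ)) := by push_cast; ring
      rw [h2, h3]
    rw [h1]
    have h4 := HSa_two (ev l (-(2 * (n : ℤ))) f q)
    linear_combination h4

private theorem HSa_ii_bdl (N l : ℕ) (f : Seq → Z2) : HSa_ii N l (bdl l f) = HSa_ee N l f := by
  funext q
  unfold HSa_ii HSa_ee
  rw [HSa_ip_bdl, HSa_im_bdl]
  have h4 := HSa_two (ev l 0 f q)
  linear_combination h4

private theorem HSa_ii_bd {N l : ℕ} {s : Finset ℕ} (h : l ∉ s) (f : Seq → Z2) :
    HSa_ii N l (bd s f) = bd s (HSa_ii N l f) := by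
  have h1 : bd s (HSa_ii N l f) = fun q => bd s (ip N l f) q + bd s (im N l f) q :=
    HSa_bd_add _ _ _
  rw [h1]
  funext q
  unfold HSa_ii
  rw [HSa_ip, HSa_im, HSa_dir_bd h, HSa_dir_bd h]

private theorem HSa_bd_Ico (o k : ℕ) (f : Seq → Z2) :
    bd (Ico o (o + (k + 1))) f = fun q => bdl (o + k) f q + bd (Ico o (o + k)) f q := by
  have h1 : Ico o (o + (k + 1)) = insert (o + k) (Ico o (o + k)) := by
    ext l
    rw [mem_insert, mem_Ico, mem_Ico]
    omega
  have h2 : o + k ∉ Ico o (o + k) := by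
    rw [mem_Ico]
    omega
  rw [h1, HSa_bd_insert h2]

private theorem HSa_cubeOp_bd (N o k : ℕ) : ∀ f : Seq → Z2,
    cubeOp N o k (bd (Ico o (o + k)) f) = dcubeOp N o k f := by
  induction k with
  | zero =>
    intro f
    have h1 : Ico o (o + 0) = ∅ := by
      rw [add_zero, Ico_self]
    rw [h1, HSa_bd_empty]
    rfl
  | succ k ih =>
    intro f
    have h2 : o + k ∉ Ico o (o + k) := by
      rw [mem_Ico]
      omega
    rw [HSa_bd_Ico, HSa_cube_succ, HSa_ii_add, HSa_cube_add, HSa_ii_bdl, HSa_ii_bd h2, ih,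
      HSa_dcube_succ]
    funext q
    rw [add_comm]

theorem cubeOp_bd (N o k : ℕ) (f : Seq → Z2) (q : Seq) :
    cubeOp N o k (bd (Ico o (o + k)) f) q = dcubeOp N o k f q := by
  rw [HSa_cubeOp_bd]

private theorem HSa_dcube_bd (N o k : ℕ) (f : Seq → Z2) :
    dcubeOp N o k (bd (Ico o (o + k)) f) = fun _ => 0 := by
  rw [← HSa_cubeOp_bd]
  have h1 : bd (Ico o (o + k)) (bd (Ico o (o + k)) f) = fun _ => 0 := by
    funext q
    exact bd_bd _ _ _
  rw [h1]
  have h2 := HSa_cube_add N o k (fun _ => 0) (fun _ => 0)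
  funext q
  have h3 := congrFun h2 q
  simp only [add_zero] at h3
  exact add_eq_left.mp h3.symm

/-! ### negation -/

private theorem HSa_neg_update (o k : ℕ) (q : Seq) (c : ℤ) :
    neg (Ico o (o + (k + 1))) (Function.update q (o + k) c) =
      Function.update (neg (Ico o (o + k)) q) (o + k) (-c) := by
  funext l
  by_cases hl : l = o + k
  · subst hl
    rw [Function.update_self]
    unfold neg
    rw [if_pos (by rw [mem_Ico]; omega), Function.update_self]
  · rw [Function.update_of_ne hl]
    unfold neg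
    rw [Function.update_of_ne hl]
    by_cases h1 : l ∈ Ico o (o + k)
    · rw [if_pos h1, if_pos (by rw [mem_Ico] at h1 ⊢; omega)]
    · rw [if_neg h1, if_neg (by rw [mem_Ico] at h1 ⊢; omega)]

private theorem HSa_ip_neg (N o k : ℕ) (f : Seq → Z2) :
    ip N (o + k) (fun q => f (neg (Ico o (o + (k + 1))) q)) =
      fun q => im N (o + k) f (neg (Ico o (o + k)) q) := by
  funext q
  unfold ip im
  simp only [HSa_neg_update]

private theorem HSa_im_neg (N o k : ℕ) (f : Seq → Z2) :
    im N (o + k) (fun q => f (neg (Ico o (o + (k + 1))) q)) =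
      fun q => ip N (o + k) f (neg (Ico o (o + k)) q) := by
  funext q
  unfold ip im
  simp only [HSa_neg_update, _root_.neg_neg]

private theorem HSa_ev_neg (o k : ℕ) (c : ℤ) (f : Seq → Z2) :
    ev (o + k) c (fun q => f (neg (Ico o (o + (k + 1))) q)) =
      fun q => ev (o + k) (-c) f (neg (Ico o (o + k)) q) := by
  funext q
  unfold ev
  simp only [HSa_neg_update]

private theorem HSa_cube_neg (N o k : ℕ) : ∀ f : Seq → Z2,
    cubeOp N o k (fun q => f (neg (Ico o (o + k)) q)) = cubeOp N o k f := by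
  induction k with
  | zero =>
    intro f
    have h1 : Ico o (o + 0) = ∅ := by
      rw [add_zero, Ico_self]
    rw [h1]
    rfl
  | succ k ih =>
    intro f
    have h1 : HSa_ii N (o + k) (fun q => f (neg (Ico o (o + (k + 1))) q)) =
        fun q => (HSa_ii N (o + k) f) (neg (Ico o (o + k)) q) := by
      funext q
      unfold HSa_ii
      rw [HSa_ip_neg, HSa_im_neg, add_comm]
    rw [HSa_cube_succ, h1, ih, HSa_cube_succ]

private theorem HSa_dcube_neg (N o k : ℕ) : ∀ f : Seq → Z2,
    dcubeOp N o k (fun q => f (neg (Ico o (o + k)) q)) = dcubeOp N o k f := by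
  induction k with
  | zero => intro f; rfl
  | succ k ih =>
    intro f
    have h1 : HSa_ii N (o + k) (fun q => f (neg (Ico o (o + (k + 1))) q)) =
        fun q => (HSa_ii N (o + k) f) (neg (Ico o (o + k)) q) := by
      funext q
      unfold HSa_ii
      rw [HSa_ip_neg, HSa_im_neg, add_comm]
    have h2 : HSa_ee N (o + k) (fun q => f (neg (Ico o (o + (k + 1))) q)) =
        fun q => (HSa_ee N (o + k) f) (neg (Ico o (o + k)) q) := by
      funext q
      unfold HSa_ee
      rw [HSa_ev_neg, HSa_ev_neg, _root_.neg_neg, add_comm]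
    rw [HSa_dcube_succ, h1, h2, ih, HSa_cube_neg, HSa_dcube_succ]

/-- Stokes -/
theorem sph_stokes (N o k : ℕ) (f : Seq → Z2) (q : Seq) (hq : q (o + k + 1) = 0) :
    Sph N o (k + 1) (bd (Ico o (o + k + 2)) f) q =
      Sph N o k f q + Sph N o k (fun q' => f (neg (Ico o (o + k + 1)) q')) q := by
  have hJ : o + (k + 1) ∉ Ico o (o + (k + 1)) := by
    rw [mem_Ico]
    omega
  have hbd : bd (Ico o (o + k + 2)) f = fun q => bdl (o + (k + 1)) f q +
      bd (Ico o (o + (k + 1))) f q := HSa_bd_Ico o (k + 1) f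
  have e1 : ip N (o + (k + 1)) (bd (Ico o (o + k + 2)) f) = fun q =>
      (ev (o + (k + 1)) (2 * N) f q + ev (o + (k + 1)) 0 f q) +
        bd (Ico o (o + (k + 1))) (ip N (o + (k + 1)) f) q := by
    rw [hbd, HSa_ip_add]
    funext q
    rw [HSa_ip_bdl]
    congr 1
    rw [HSa_ip, HSa_dir_bd hJ]
  have e2 : ev (o + (k + 1)) (2 * N) (bd (Ico o (o + k + 2)) f) =
      bd (Ico o (o + (k + 1))) (ev (o + (k + 1)) (2 * N) f) := by
    rw [hbd, HSa_ev_add]
    funext q
    have h1 : ev (o + (k + 1)) (2 * N) (bdl (o + (k + 1)) f) q = 0 := by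
      unfold ev
      apply HSa_bdl_even
      rw [Function.update_self, Int.not_odd_iff_even]
      exact even_two_mul _
    rw [h1, zero_add, HSa_ev, HSa_dir_bd hJ]
  have e3 : Sph N o (k + 1) (bd (Ico o (o + k + 2)) f) q =
      dcubeOp N o (k + 1) (ev (o + (k + 1)) 0 f) q := by
    show dcubeOp N o (k + 1) (ip N (o + (k + 1)) (bd (Ico o (o + k + 2)) f)) q +
      cubeOp N o (k + 1) (ev (o + (k + 1)) (2 * N) (bd (Ico o (o + k + 2)) f)) q = _
    rw [e1, e2, HSa_cubeOp_bd, HSa_dcube_add, HSa_dcube_bd]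
    have h2 : dcubeOp N o (k + 1) (fun q => ev (o + (k + 1)) (2 * N) f q +
        ev (o + (k + 1)) 0 f q) = fun q => dcubeOp N o (k + 1) (ev (o + (k + 1)) (2 * N) f) q +
        dcubeOp N o (k + 1) (ev (o + (k + 1)) 0 f) q := HSa_dcube_add _ _ _ _ _
    rw [h2]
    have h4 := HSa_two (dcubeOp N o (k + 1) (ev (o + (k + 1)) (2 * N) f) q)
    linear_combination h4
  have e4 : dcubeOp N o (k + 1) (ev (o + (k + 1)) 0 f) q = dcubeOp N o (k + 1) f q := by
    rw [HSa_ev, HSa_dcube_comm N o _ _ (k + 1) hJ, ← HSa_ev]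
    unfold ev
    have h5 : q (o + (k + 1)) = 0 := hq
    rw [← h5, Function.update_eq_self]
  have e5 : Sph N o k (fun q' => f (neg (Ico o (o + k + 1)) q')) q =
      dcubeOp N o k (im N (o + k) f) q + cubeOp N o k (ev (o + k) (-(2 * N)) f) q := by
    have h1 : ip N (o + k) (fun q' => f (neg (Ico o (o + k + 1)) q')) =
        fun q => im N (o + k) f (neg (Ico o (o + k)) q) := HSa_ip_neg N o k f
    have h2 : ev (o + k) (2 * N) (fun q' => f (neg (Ico o (o + k + 1)) q')) =
        fun q => ev (o + k) (-(2 * N)) f (neg (Ico o (o + k)) q) := HSa_ev_neg o k (2 * N) f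
    unfold Sph
    rw [h1, h2, HSa_dcube_neg, HSa_cube_neg]
  have e6 : dcubeOp N o (k + 1) f q = (dcubeOp N o k (ip N (o + k) f) q +
      dcubeOp N o k (im N (o + k) f) q) + (cubeOp N o k (ev (o + k) (2 * N) f) q +
      cubeOp N o k (ev (o + k) (-(2 * N)) f) q) := by
    have h1 : dcubeOp N o k (HSa_ii N (o + k) f) = fun q => dcubeOp N o k (ip N (o + k) f) q +
      dcubeOp N o k (im N (o + k) f) q := HSa_dcube_add _ _ _ _ _
    have h2 : cubeOp N o k (HSa_ee N (o + k) f) = fun q =>
      cubeOp N o k (ev (o + k) (2 * N) f) q + cubeOp N o k (ev (o + k) (-(2 * N)) f) q :=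
      HSa_cube_add _ _ _ _ _
    rw [HSa_dcube_succ, h1, h2]
  rw [e3, e4, e5, e6]
  unfold Sph
  ring

theorem sph_stokes_zero (N o : ℕ) (f : Seq → Z2) (q : Seq) :
    Sph N o 0 (bd (Ico o (o + 1)) f) q = 0 := by
  have h1 : bd (Ico o (o + 1)) f = bdl o f := by
    have h2 : Ico o (o + 1) = {o} := by
      ext l
      rw [mem_Ico, mem_singleton]
      omega
    funext q
    unfold bd
    rw [h2, sum_singleton]
  rw [h1]
  show (0 : Z2) + bdl o f (Function.update q (o + 0) (2 * N)) = 0
  rw [zero_add]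
  apply HSa_bdl_even
  rw [add_zero, Function.update_self, Int.not_odd_iff_even]
  exact even_two_mul _

private theorem HSa_ip_congr {N l : ℕ} {f g : Seq → Z2} {q : Seq}
    (h : ∀ c : ℤ, |c| ≤ 2 * N → f (Function.update q l c) = g (Function.update q l c)) :
    ip N l f q = ip N l g q := by
  unfold ip
  refine sum_congr rfl fun k hk => h _ ?_
  rw [mem_range] at hk
  rw [abs_le]
  omega

private theorem HSa_im_congr {N l : ℕ} {f g : Seq → Z2} {q : Seq}
    (h : ∀ c : ℤ, |c| ≤ 2 * N → f (Function.update q l c) = g (Function.update q l c)) :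
    im N l f q = im N l g q := by
  unfold im
  refine sum_congr rfl fun k hk => h _ ?_
  rw [mem_range] at hk
  rw [abs_le]
  omega

private theorem HSa_cube_congr (N o k : ℕ) (q : Seq) : ∀ (f g : Seq → Z2),
    (∀ q' : Seq, (∀ l, l ∉ Ico o (o + k) → q' l = q l) → (∀ l ∈ Ico o (o + k), |q' l| ≤ 2 * N) →
      f q' = g q') → cubeOp N o k f q = cubeOp N o k g q := by
  induction k with
  | zero =>
    intro f g h
    refine h q (fun l _ => rfl) fun l hl => ?_
    rw [mem_Ico] at hl
    omega
  | succ k ih =>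
    intro f g h
    rw [HSa_cube_succ, HSa_cube_succ]
    refine ih _ _ fun q' h1 h2 => ?_
    have h3 : ∀ c : ℤ, |c| ≤ 2 * N →
        f (Function.update q' (o + k) c) = g (Function.update q' (o + k) c) := by
      intro c hc
      refine h _ ?_ ?_
      · intro l hl
        rw [mem_Ico] at hl
        rw [Function.update_of_ne (by omega)]
        exact h1 l (by rw [mem_Ico]; omega)
      · intro l hl
        rw [mem_Ico] at hl
        by_cases hlk : l = o + k
        · subst hlk
          rw [Function.update_self]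
          exact hc
        · rw [Function.update_of_ne hlk]
          exact h2 l (by rw [mem_Ico]; omega)
    unfold HSa_ii
    rw [HSa_ip_congr h3, HSa_im_congr h3]

private theorem HSa_dcube_congr (N o k : ℕ) (q : Seq) : ∀ (f g : Seq → Z2),
    (∀ q' : Seq, (∀ l, l ∉ Ico o (o + k) → q' l = q l) → (∀ l ∈ Ico o (o + k), |q' l| ≤ 2 * N) →
      (∃ l ∈ Ico o (o + k), |q' l| = 2 * N) →
      f q' = g q') → dcubeOp N o k f q = dcubeOp N o k g q := by
  induction k with
  | zero => intro f g _; rfl
  | succ k ih =>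
    intro f g h
    rw [HSa_dcube_succ, HSa_dcube_succ]
    have hup : ∀ (q' : Seq) (c : ℤ), (∀ l, l ∉ Ico o (o + k) → q' l = q l) →
        (∀ l ∈ Ico o (o + k), |q' l| ≤ 2 * N) → |c| ≤ 2 * N →
        ((∃ l ∈ Ico o (o + k), |q' l| = 2 * N) ∨ |c| = 2 * N) →
        f (Function.update q' (o + k) c) = g (Function.update q' (o + k) c) := by
      intro q' c h1 h2 hc h4
      refine h _ ?_ ?_ ?_
      · intro l hl
        rw [mem_Ico] at hl
        rw [Function.update_of_ne (by omega)]
        exact h1 l (by rw [mem_Ico]; omega)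
      · intro l hl
        rw [mem_Ico] at hl
        by_cases hlk : l = o + k
        · subst hlk
          rw [Function.update_self]
          exact hc
        · rw [Function.update_of_ne hlk]
          exact h2 l (by rw [mem_Ico]; omega)
      · rcases h4 with ⟨l, hl, h5⟩ | h4
        · rw [mem_Ico] at hl
          refine ⟨l, by rw [mem_Ico]; omega, ?_⟩
          rw [Function.update_of_ne (by omega)]
          exact h5
        · refine ⟨o + k, by rw [mem_Ico]; omega, ?_⟩
          rw [Function.update_self]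
          exact h4
    have a1 : dcubeOp N o k (HSa_ii N (o + k) f) q = dcubeOp N o k (HSa_ii N (o + k) g) q := by
      refine ih _ _ fun q' h1 h2 h3 => ?_
      have h4 : ∀ c : ℤ, |c| ≤ 2 * N →
          f (Function.update q' (o + k) c) = g (Function.update q' (o + k) c) :=
        fun c hc => hup q' c h1 h2 hc (Or.inl h3)
      unfold HSa_ii
      rw [HSa_ip_congr h4, HSa_im_congr h4]
    have a2 : cubeOp N o k (HSa_ee N (o + k) f) q = cubeOp N o k (HSa_ee N (o + k) g) q := by
      refine HSa_cube_congr N o k q _ _ fun q' h1 h2 => ?_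
      have hN : |(2 * (N : ℤ))| = 2 * N := abs_of_nonneg (by positivity)
      have hN' : |(-(2 * (N : ℤ)))| = 2 * N := by rw [abs_neg, hN]
      unfold HSa_ee ev
      rw [hup q' _ h1 h2 hN.le (Or.inr hN), hup q' _ h1 h2 hN'.le (Or.inr hN')]
    show dcubeOp N o k (HSa_ii N (o + k) f) q + cubeOp N o k (HSa_ee N (o + k) f) q =
      dcubeOp N o k (HSa_ii N (o + k) g) q + cubeOp N o k (HSa_ee N (o + k) g) q
    rw [a1, a2]

/-- support of the hemisphere -/
theorem sph_congr (N o k : ℕ) (hN : 0 < N) (f g : Seq → Z2) (q : Seq)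
    (h : ∀ q' : Seq, (∀ l, l ∉ Ico o (o + k + 1) → q' l = q l) →
      InX N (Ico o (o + k + 1)) q' → f q' = g q') : Sph N o k f q = Sph N o k g q := by
  have hup : ∀ (q' : Seq) (c : ℤ), (∀ l, l ∉ Ico o (o + k) → q' l = q l) →
      (∀ l ∈ Ico o (o + k), |q' l| ≤ 2 * N) → |c| ≤ 2 * N →
      ((∃ l ∈ Ico o (o + k), |q' l| = 2 * N) ∨ |c| = 2 * N) →
      f (Function.update q' (o + k) c) = g (Function.update q' (o + k) c) := by
    intro q' c h1 h2 hc h4
    refine h _ ?_ ⟨?_, ?_⟩
    · intro l hl
      rw [mem_Ico] at hl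
      rw [Function.update_of_ne (by omega)]
      exact h1 l (by rw [mem_Ico]; omega)
    · intro l hl
      rw [mem_Ico] at hl
      by_cases hlk : l = o + k
      · subst hlk
        rw [Function.update_self]
        exact hc
      · rw [Function.update_of_ne hlk]
        exact h2 l (by rw [mem_Ico]; omega)
    · rcases h4 with ⟨l, hl, h5⟩ | h4
      · rw [mem_Ico] at hl
        refine ⟨l, by rw [mem_Ico]; omega, ?_⟩
        rw [Function.update_of_ne (by omega)]
        exact h5
      · refine ⟨o + k, by rw [mem_Ico]; omega, ?_⟩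
        rw [Function.update_self]
        exact h4
  have a1 : dcubeOp N o k (ip N (o + k) f) q = dcubeOp N o k (ip N (o + k) g) q := by
    refine HSa_dcube_congr N o k q _ _ fun q' h1 h2 h3 => ?_
    exact HSa_ip_congr fun c hc => hup q' c h1 h2 hc (Or.inl h3)
  have a2 : cubeOp N o k (ev (o + k) (2 * N) f) q = cubeOp N o k (ev (o + k) (2 * N) g) q := by
    refine HSa_cube_congr N o k q _ _ fun q' h1 h2 => ?_
    have hN : |(2 * (N : ℤ))| = 2 * N := abs_of_nonneg (by positivity)
    exact hup q' _ h1 h2 hN.le (Or.inr hN)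
  unfold Sph
  rw [a1, a2]

theorem sph_add (N o k : ℕ) (f g : Seq → Z2) (q : Seq) :
    Sph N o k (fun q' => f q' + g q') q = Sph N o k f q + Sph N o k g q := by
  unfold Sph
  rw [HSa_ip_add, HSa_ev_add, HSa_dcube_add, HSa_cube_add]
  ring

private theorem HSa_sph_comm (N o k l : ℕ) (A : ℤ → Multiset ℤ) (h : l ∉ Ico o (o + k + 1))
    (f : Seq → Z2) : Sph N o k (HSa_dir l A f) = HSa_dir l A (Sph N o k f) := by
  rw [mem_Ico] at h
  have h1 : l ∉ Ico o (o + k) := by
    rw [mem_Ico]
    omega
  have h2 : o + k ≠ l := by omega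
  have h3 : HSa_dir l A (Sph N o k f) = fun q => HSa_dir l A (dcubeOp N o k (ip N (o + k) f)) q +
      HSa_dir l A (cubeOp N o k (ev (o + k) (2 * N) f)) q := HSa_dir_add _ _ _ _
  rw [h3]
  funext q
  unfold Sph
  rw [HSa_ip, HSa_ev, HSa_dir_comm h2, HSa_dir_comm h2, HSa_dcube_comm N o l A k h1,
    HSa_cube_comm N o l A k h1]

/-- boundaries in other directions commute -/
theorem sph_bd_comm (N o k : ℕ) (s : Finset ℕ) (hs : Disjoint s (Ico o (o + k + 1)))
    (f : Seq → Z2) (q : Seq) : Sph N o k (bd s f) q = bd s (Sph N o k f) q := by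
  have h : Sph N o k (bd s f) = bd s (Sph N o k f) := by
    induction s using Finset.induction_on with
    | empty =>
      rw [HSa_bd_empty, HSa_bd_empty]
      funext q
      have h1 := sph_add N o k (fun _ => 0) (fun _ => 0) q
      simp only [add_zero] at h1
      exact add_eq_left.mp h1.symm
    | insert a s ha ih =>
      rw [disjoint_insert_left] at hs
      rw [HSa_bd_insert ha, HSa_bd_insert ha]
      funext q
      rw [sph_add, ih hs.2, HSa_bdl, HSa_sph_comm N o k a _ hs.1]
  rw [h]

end WuHS
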