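import Pool.Agent.Lib.MP_60079e_gt.HSa

/-! # The Hopf–Stiefel obstruction, combinatorial part B: the cochains `a k`. -/

open Finset

namespace WuHS

section
variable {n : ℕ} (S : Finset ℕ) (m : Seq → Finset (Fin n)) (sg : Seq → Fin n → Z2)

/-- sign of the smallest index -/
noncomputable def sv (m : Seq → Finset (Fin n)) (sg : Seq → Fin n → Z2) (q : Seq) : Z2 :=
  if h : (m q).Nonempty then sg q ((m q).min' h) else 0

/-- the cochains: `a 0 = 1`, `a (k+1) = ∂ (sv * a k)` -/
noncomputable def aa (S : Finset ℕ) (m : Seq → Finset (Fin n)) (sg : Seq → Fin n → Z2) :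
    ℕ → Seq → Z2
  | 0 => fun _ => 1
  | k + 1 => bd S (fun q => sv m sg q * aa S m sg k q)

/-- The hypotheses on the labelling over the set `X` of cells. -/
structure Lab (S : Finset ℕ) (m : Seq → Finset (Fin n)) (sg : Seq → Fin n → Z2)
    (X : Set Seq) : Prop where
  facet : ∀ q ∈ X, ∀ l ∈ S, Odd (q l) → Function.update q l (q l + 1) ∈ X ∧
    Function.update q l (q l - 1) ∈ X
  ne : ∀ q ∈ X, (m q).Nonempty
  mono : ∀ q ∈ X, ∀ l ∈ S, Odd (q l) → m (Function.update q l (q l + 1)) ⊆ m q ∧
    m (Function.update q l (q l - 1)) ⊆ m q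
  sg_eq : ∀ q ∈ X, ∀ l ∈ S, Odd (q l) →
    (∀ i ∈ m (Function.update q l (q l + 1)), sg (Function.update q l (q l + 1)) i = sg q i) ∧
    (∀ i ∈ m (Function.update q l (q l - 1)), sg (Function.update q l (q l - 1)) i = sg q i)

private theorem HSb_bd_congr (q : Seq) (f g : Seq → Z2)
    (h : ∀ l ∈ S, Odd (q l) → f (Function.update q l (q l + 1)) = g (Function.update q l (q l + 1)) ∧
      f (Function.update q l (q l - 1)) = g (Function.update q l (q l - 1))) :
    bd S f q = bd S g q := by
  unfold bd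
  refine Finset.sum_congr rfl fun l hl => ?_
  unfold bdl
  by_cases ho : Odd (q l)
  · rw [if_pos ho, if_pos ho, (h l hl ho).1, (h l hl ho).2]
  · rw [if_neg ho, if_neg ho]

private theorem HSb_bd_const_mul (q : Seq) (c : Z2) (f : Seq → Z2) :
    bd S (fun q' => c * f q') q = c * bd S f q := by
  unfold bd
  rw [Finset.mul_sum]
  refine Finset.sum_congr rfl fun l _ => ?_
  unfold bdl
  by_cases ho : Odd (q l)
  · rw [if_pos ho, if_pos ho, mul_add]
  · rw [if_neg ho, if_neg ho, mul_zero]

private theorem HSb_bd_add (q : Seq) (f g : Seq → Z2) :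
    bd S (fun q' => f q' + g q') q = bd S f q + bd S g q := by
  unfold bd
  rw [← Finset.sum_add_distrib]
  refine Finset.sum_congr rfl fun l _ => ?_
  unfold bdl
  by_cases ho : Odd (q l)
  · rw [if_pos ho, if_pos ho, if_pos ho]; ring
  · rw [if_neg ho, if_neg ho, if_neg ho, add_zero]

private theorem HSb_min_eq {A B : Finset (Fin n)} (hA : A.Nonempty) (hB : B.Nonempty) (h : A = B) :
    A.min' hA = B.min' hB := by
  subst h
  rfl

theorem bd_aa (k : ℕ) (q : Seq) : bd S (aa S m sg k) q = 0 := by
  cases k with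
  | zero =>
    unfold bd
    refine Finset.sum_eq_zero fun l _ => ?_
    unfold bdl
    by_cases ho : Odd (q l)
    · rw [if_pos ho]
      show (1 : Z2) + 1 = 0
      decide
    · rw [if_neg ho]
  | succ k => exact bd_bd S (fun q => sv m sg q * aa S m sg k q) q

theorem aa_vanish {X : Set Seq} (h : Lab S m sg X) (k : ℕ) (q : Seq) (hq : q ∈ X)
    (hk : (m q).card ≤ k) : aa S m sg k q = 0 := by
  induction k generalizing q with
  | zero =>
    have h1 := h.ne q hq
    rw [Nat.le_zero, Finset.card_eq_zero] at hk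
    rw [hk] at h1
    exact absurd h1 Finset.not_nonempty_empty
  | succ k ih =>
    have key : ∀ q', q' ∈ X → m q' ⊆ m q → (∀ i ∈ m q', sg q' i = sg q i) →
        sv m sg q' * aa S m sg k q' = sv m sg q * aa S m sg k q' := by
      intro q' hq' hsub hsg
      by_cases hc : (m q').card ≤ k
      · rw [ih q' hq' hc, mul_zero, mul_zero]
      · have he : m q' = m q := Finset.eq_of_subset_of_card_le hsub (by omega)
        have h1 : sv m sg q' = sv m sg q := by
          unfold sv
          rw [dif_pos (h.ne q' hq'), dif_pos (h.ne q hq), hsg _ (Finset.min'_mem _ _)]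
          congr 1
          exact HSb_min_eq _ _ he
        rw [h1]
    have h2 : aa S m sg (k + 1) q = bd S (fun q' => sv m sg q * aa S m sg k q') q := by
      show bd S (fun q => sv m sg q * aa S m sg k q) q = _
      apply HSb_bd_congr
      intro l hl ho
      obtain ⟨f1, f2⟩ := h.facet q hq l hl ho
      obtain ⟨m1, m2⟩ := h.mono q hq l hl ho
      obtain ⟨s1, s2⟩ := h.sg_eq q hq l hl ho
      exact ⟨key _ f1 m1 s1, key _ f2 m2 s2⟩
    rw [h2, HSb_bd_const_mul, bd_aa, mul_zero]

/-- symmetry under the negation of the coordinates of `t` -/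
theorem aa_neg {X : Set Seq} (h : Lab S m sg X) (t : Finset ℕ) (hX : ∀ q ∈ X, neg t q ∈ X)
    (hm : ∀ q ∈ X, m (neg t q) = m q) (hs : ∀ q ∈ X, ∀ i ∈ m q, sg (neg t q) i = 1 + sg q i)
    (k : ℕ) (q : Seq) (hq : q ∈ X) :
    sv m sg (neg t q) = 1 + sv m sg q ∧ aa S m sg k (neg t q) = aa S m sg k q := by
  have hsv : ∀ q ∈ X, sv m sg (neg t q) = 1 + sv m sg q := by
    intro q hq
    unfold sv
    rw [dif_pos (h.ne _ (hX q hq)), dif_pos (h.ne q hq), ← hs q hq _ (Finset.min'_mem _ _)]
    congr 1
    exact HSb_min_eq _ _ (hm q hq)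
  refine ⟨hsv q hq, ?_⟩
  induction k generalizing q with
  | zero => rfl
  | succ k ih =>
    have h1 : aa S m sg (k + 1) (neg t q)
        = bd S (fun q' => sv m sg (neg t q') * aa S m sg k (neg t q')) q :=
      bd_neg S t (fun q => sv m sg q * aa S m sg k q) q
    have h2 : bd S (fun q' => sv m sg (neg t q') * aa S m sg k (neg t q')) q
        = bd S (fun q' => aa S m sg k q' + sv m sg q' * aa S m sg k q') q := by
      have key : ∀ q' ∈ X, sv m sg (neg t q') * aa S m sg k (neg t q')
          = aa S m sg k q' + sv m sg q' * aa S m sg k q' := by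
        intro q' hq'
        rw [hsv q' hq', ih q' hq']
        ring
      apply HSb_bd_congr
      intro l hl ho
      obtain ⟨f1, f2⟩ := h.facet q hq l hl ho
      exact ⟨key _ f1, key _ f2⟩
    rw [h1, h2, HSb_bd_add, bd_aa, zero_add]
    rfl

end

end WuHS
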