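import Pool.Agent.Lib.MP_60079e_gt.HSb

/-! # The combinatorial Hopf–Stiefel obstruction -/

open Finset

namespace WuHS

theorem HSb2_neg_update {t : Finset ℕ} {l : ℕ} (hl : l ∉ t) (q : Seq) (c : ℤ) :
    Function.update (neg t q) l c = neg t (Function.update q l c) := by
  funext l'
  by_cases h : l' = l
  · subst h
    simp [neg, hl]
  · simp [neg, Function.update_of_ne h]

theorem HSb2_ip_neg {t : Finset ℕ} {l : ℕ} (hl : l ∉ t) (N : ℕ) (f : Seq → Z2) (q : Seq) :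
    ip N l f (neg t q) = ip N l (fun q' => f (neg t q')) q := by
  unfold ip
  refine Finset.sum_congr rfl fun k _ => ?_
  rw [HSb2_neg_update hl]

theorem HSb2_im_neg {t : Finset ℕ} {l : ℕ} (hl : l ∉ t) (N : ℕ) (f : Seq → Z2) (q : Seq) :
    im N l f (neg t q) = im N l (fun q' => f (neg t q')) q := by
  unfold im
  refine Finset.sum_congr rfl fun k _ => ?_
  rw [HSb2_neg_update hl]

theorem HSb2_ev_neg {t : Finset ℕ} {l : ℕ} (hl : l ∉ t) (c : ℤ) (f : Seq → Z2) (q : Seq) :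
    ev l c f (neg t q) = ev l c (fun q' => f (neg t q')) q := by
  unfold ev
  rw [HSb2_neg_update hl]

theorem HSb2_cube_neg (N o : ℕ) (t : Finset ℕ) (k : ℕ) : (∀ l ∈ Ico o (o + k), l ∉ t) →
    ∀ (f : Seq → Z2) (q : Seq),
    cubeOp N o k f (neg t q) = cubeOp N o k (fun q' => f (neg t q')) q := by
  induction k with
  | zero => intro _ f q; rfl
  | succ k ih =>
    intro hk f q
    have h1 : ∀ l ∈ Ico o (o + k), l ∉ t := fun l hl => hk l (by
      rw [mem_Ico] at hl ⊢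
      omega)
    have h2 : o + k ∉ t := hk _ (by
      rw [mem_Ico]
      omega)
    show cubeOp N o k (fun q => ip N (o + k) f q + im N (o + k) f q) (neg t q) =
      cubeOp N o k (fun q => ip N (o + k) (fun q' => f (neg t q')) q +
        im N (o + k) (fun q' => f (neg t q')) q) q
    rw [ih h1]
    congr 1
    funext q'
    rw [HSb2_ip_neg h2, HSb2_im_neg h2]

theorem HSb2_dcube_neg (N o : ℕ) (t : Finset ℕ) (k : ℕ) : (∀ l ∈ Ico o (o + k), l ∉ t) →
    ∀ (f : Seq → Z2) (q : Seq),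
    dcubeOp N o k f (neg t q) = dcubeOp N o k (fun q' => f (neg t q')) q := by
  induction k with
  | zero => intro _ f q; rfl
  | succ k ih =>
    intro hk f q
    have h1 : ∀ l ∈ Ico o (o + k), l ∉ t := fun l hl => hk l (by
      rw [mem_Ico] at hl ⊢
      omega)
    have h2 : o + k ∉ t := hk _ (by
      rw [mem_Ico]
      omega)
    show dcubeOp N o k (fun q => ip N (o + k) f q + im N (o + k) f q) (neg t q) +
        cubeOp N o k (fun q => ev (o + k) (2 * N) f q + ev (o + k) (-(2 * N)) f q) (neg t q) =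
      dcubeOp N o k (fun q => ip N (o + k) (fun q' => f (neg t q')) q +
        im N (o + k) (fun q' => f (neg t q')) q) q +
        cubeOp N o k (fun q => ev (o + k) (2 * N) (fun q' => f (neg t q')) q +
          ev (o + k) (-(2 * N)) (fun q' => f (neg t q')) q) q
    rw [ih h1, HSb2_cube_neg N o t k h1]
    congr 1
    · congr 1
      funext q'
      rw [HSb2_ip_neg h2, HSb2_im_neg h2]
    · congr 1
      funext q'
      rw [HSb2_ev_neg h2, HSb2_ev_neg h2]

theorem HSb2_sph_neg (N o k : ℕ) (t : Finset ℕ) (h : ∀ l ∈ Ico o (o + k + 1), l ∉ t)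
    (f : Seq → Z2) (q : Seq) :
    Sph N o k f (neg t q) = Sph N o k (fun q' => f (neg t q')) q := by
  have h1 : ∀ l ∈ Ico o (o + k), l ∉ t := fun l hl => h l (by
    rw [mem_Ico] at hl ⊢
    omega)
  have h2 : o + k ∉ t := h _ (by
    rw [mem_Ico]
    omega)
  unfold Sph
  rw [HSb2_dcube_neg N o t k h1, HSb2_cube_neg N o t k h1]
  have e1 : (fun q' => ip N (o + k) f (neg t q')) = ip N (o + k) (fun q' => f (neg t q')) :=
    funext fun q' => HSb2_ip_neg h2 N f q'
  have e2 : (fun q' => ev (o + k) (2 * N) f (neg t q')) =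
      ev (o + k) (2 * N) (fun q' => f (neg t q')) :=
    funext fun q' => HSb2_ev_neg h2 (2 * N) f q'
  rw [e1, e2]

theorem HSb2_sph_zero (N o k : ℕ) (q : Seq) : Sph N o k (fun _ => 0) q = 0 := by
  have h := sph_add N o k (fun _ => 0) (fun _ => 0) q
  simp only [add_zero] at h
  have h2 := congrArg (fun x => x - Sph N o k (fun _ => 0) q) h
  simp only [sub_self, add_sub_cancel_right] at h2
  exact h2.symm

/-- double congruence -/
theorem HSb2_congr (N : ℕ) (hN : 0 < N) (i j : ℕ) (hi : i ≤ 2) (f g : Seq → Z2)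
    (h : ∀ q : Seq, (∀ l, l ∉ Ico 0 (i + 1) → l ∉ Ico 3 (3 + j + 1) → q l = 0) →
      InX N (Ico 0 (i + 1)) q → InX N (Ico 3 (3 + j + 1)) q → f q = g q) :
    Sph N 0 i (Sph N 3 j f) 0 = Sph N 0 i (Sph N 3 j g) 0 := by
  refine sph_congr N 0 i hN _ _ 0 fun q hq hX => ?_
  rw [Nat.zero_add] at hq hX
  refine sph_congr N 3 j hN _ _ q fun q' hq' hX' => ?_
  refine h q' ?_ ?_ hX'
  · intro l h1 h2
    rw [hq' l h2, hq l h1]
    rfl
  · have h3 : ∀ l ∈ Ico 0 (i + 1), q' l = q l := fun l hl => hq' l (by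
      rw [mem_Ico] at hl ⊢
      omega)
    obtain ⟨a1, l, hl, a2⟩ := hX
    refine ⟨fun l hl => ?_, l, hl, ?_⟩
    · rw [h3 l hl]
      exact a1 l hl
    · rw [h3 l hl]
      exact a2

theorem HSb2_inX (N : ℕ) (i j : ℕ) (hi : i ≤ 2) (hj : j ≤ 4) (q : Seq)
    (h0 : ∀ l, l ∉ Ico 0 (i + 1) → l ∉ Ico 3 (3 + j + 1) → q l = 0)
    (h1 : InX N (Ico 0 (i + 1)) q) (h2 : InX N (Ico 3 (3 + j + 1)) q) :
    InX N (range 3) q ∧ InX N (Ico 3 8) q := by
  constructor
  · obtain ⟨a1, l, hl, a2⟩ := h1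
    refine ⟨fun l' hl' => ?_, l, ?_, a2⟩
    · by_cases h : l' ∈ Ico 0 (i + 1)
      · exact a1 l' h
      · rw [h0 l' h (by
          rw [mem_range] at hl'
          rw [mem_Ico]
          omega), abs_zero]
        positivity
    · rw [mem_Ico] at hl
      rw [mem_range]
      omega
  · obtain ⟨a1, l, hl, a2⟩ := h2
    refine ⟨fun l' hl' => ?_, l, ?_, a2⟩
    · by_cases h : l' ∈ Ico 3 (3 + j + 1)
      · exact a1 l' h
      · rw [h0 l' (by
          rw [mem_Ico] at hl' ⊢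
          omega) h, abs_zero]
        positivity
    · rw [mem_Ico] at hl ⊢
      omega

theorem HSb2_split (N : ℕ) (hN : 0 < N) (i j : ℕ) (hi : i ≤ 2) (hj : j ≤ 4) (g : Seq → Z2) :
    Sph N 0 i (Sph N 3 j (bd (range 8) g)) 0 =
      Sph N 0 i (Sph N 3 j (bd (Ico 0 (i + 1)) g)) 0 +
      Sph N 0 i (Sph N 3 j (bd (Ico 3 (3 + j + 1)) g)) 0 := by
  have h1 : Sph N 0 i (Sph N 3 j (bd (range 8) g)) 0 =
      Sph N 0 i (Sph N 3 j (fun q => bd (Ico 0 (i + 1)) g q + bd (Ico 3 (3 + j + 1)) g q)) 0 := by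
    refine HSb2_congr N hN i j hi _ _ fun q h0 _ _ => ?_
    show (∑ l ∈ range 8, bdl l g q) = (∑ l ∈ Ico 0 (i + 1), bdl l g q) +
      ∑ l ∈ Ico 3 (3 + j + 1), bdl l g q
    have hdis : Disjoint (Ico 0 (i + 1)) (Ico 3 (3 + j + 1)) := by
      rw [Finset.disjoint_left]
      intro l h1 h2
      rw [mem_Ico] at h1 h2
      omega
    rw [← Finset.sum_union hdis]
    symm
    refine Finset.sum_subset ?_ ?_
    · intro l hl
      rw [mem_union, mem_Ico, mem_Ico] at hl
      rw [mem_range]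
      omega
    · intro l _ hl
      rw [mem_union, not_or] at hl
      have h2 : q l = 0 := h0 l hl.1 hl.2
      unfold bdl
      rw [if_neg]
      rw [h2]
      decide
  have h2 : Sph N 3 j (fun q => bd (Ico 0 (i + 1)) g q + bd (Ico 3 (3 + j + 1)) g q) =
      fun q => Sph N 3 j (bd (Ico 0 (i + 1)) g) q + Sph N 3 j (bd (Ico 3 (3 + j + 1)) g) q :=
    funext fun q => sph_add N 3 j _ _ q
  rw [h1, h2, sph_add]

theorem HSb2_first (N : ℕ) (hN : 0 < N) (i j : ℕ) (hi : i + 1 ≤ 2) (hj : j ≤ 4) (g a : Seq → Z2)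
    (hg : ∀ q, InX N (range 3) q → InX N (Ico 3 8) q → g q + g (neg (range 3) q) = a q) :
    Sph N 0 (i + 1) (Sph N 3 j (bd (Ico 0 (i + 1 + 1)) g)) 0 =
      Sph N 0 i (Sph N 3 j a) 0 := by
  have hdis : Disjoint (Ico 0 (i + 1 + 1)) (Ico 3 (3 + j + 1)) := by
    rw [Finset.disjoint_left]
    intro l h1 h2
    rw [mem_Ico] at h1 h2
    omega
  have e1 : Sph N 3 j (bd (Ico 0 (i + 1 + 1)) g) = bd (Ico 0 (i + 1 + 1)) (Sph N 3 j g) :=
    funext fun q => sph_bd_comm N 3 j _ hdis g q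
  have e2 := sph_stokes N 0 i (Sph N 3 j g) 0 rfl
  rw [Nat.zero_add] at e2
  have e3 : (fun q' => Sph N 3 j g (neg (Ico 0 (i + 1)) q')) =
      Sph N 3 j (fun q' => g (neg (Ico 0 (i + 1)) q')) :=
    funext fun q => HSb2_sph_neg N 3 j (Ico 0 (i + 1)) (by
      intro l h1 h2
      rw [mem_Ico] at h1 h2
      omega) g q
  have e4 : (fun q => Sph N 3 j g q + Sph N 3 j (fun q' => g (neg (Ico 0 (i + 1)) q')) q) =
      Sph N 3 j (fun q => g q + g (neg (Ico 0 (i + 1)) q)) :=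
    funext fun q => (sph_add N 3 j g (fun q' => g (neg (Ico 0 (i + 1)) q')) q).symm
  rw [e1]
  refine e2.trans ?_
  rw [e3, ← sph_add, e4]
  refine HSb2_congr N hN i j (by omega) _ _ fun q h0 h1 h2 => ?_
  obtain ⟨x1, x2⟩ := HSb2_inX N i j (by omega) hj q h0 h1 h2
  have e5 : neg (Ico 0 (i + 1)) q = neg (range 3) q := by
    funext l
    unfold neg
    by_cases hl : l ∈ Ico 0 (i + 1)
    · rw [if_pos hl, if_pos (by
        rw [mem_Ico] at hl
        rw [mem_range]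
        omega)]
    · rw [if_neg hl]
      by_cases hl3 : l ∈ range 3
      · rw [if_pos hl3, h0 l hl (by
          rw [mem_range] at hl3
          rw [mem_Ico]
          omega), neg_zero]
      · rw [if_neg hl3]
  rw [e5]
  exact hg q x1 x2

theorem HSb2_first_zero (N : ℕ) (j : ℕ) (g : Seq → Z2) :
    Sph N 0 0 (Sph N 3 j (bd (Ico 0 (0 + 1)) g)) 0 = 0 := by
  have hdis : Disjoint (Ico 0 (0 + 1)) (Ico 3 (3 + j + 1)) := by
    rw [Finset.disjoint_left]
    intro l h1 h2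
    rw [mem_Ico] at h1 h2
    omega
  have e1 : Sph N 3 j (bd (Ico 0 (0 + 1)) g) = bd (Ico 0 (0 + 1)) (Sph N 3 j g) :=
    funext fun q => sph_bd_comm N 3 j _ hdis g q
  rw [e1]
  exact sph_stokes_zero N 0 (Sph N 3 j g) 0

theorem HSb2_second (N : ℕ) (hN : 0 < N) (i j : ℕ) (hi : i ≤ 2) (hj : j + 1 ≤ 4) (g a : Seq → Z2)
    (hg : ∀ q, InX N (range 3) q → InX N (Ico 3 8) q → g q + g (neg (Ico 3 8) q) = a q) :
    Sph N 0 i (Sph N 3 (j + 1) (bd (Ico 3 (3 + (j + 1) + 1)) g)) 0 =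
      Sph N 0 i (Sph N 3 j a) 0 := by
  have e1 : Sph N 0 i (Sph N 3 (j + 1) (bd (Ico 3 (3 + (j + 1) + 1)) g)) 0 =
      Sph N 0 i (Sph N 3 j (fun q => g q + g (neg (Ico 3 (3 + j + 1)) q))) 0 := by
    refine sph_congr N 0 i hN _ _ 0 fun q hq _ => ?_
    have e2 := sph_stokes N 3 j g q (hq _ (by
      rw [mem_Ico]
      omega))
    rw [sph_add]
    exact e2
  rw [e1]
  refine HSb2_congr N hN i j hi _ _ fun q h0 h1 h2 => ?_
  obtain ⟨x1, x2⟩ := HSb2_inX N i j hi (by omega) q h0 h1 h2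
  have e5 : neg (Ico 3 (3 + j + 1)) q = neg (Ico 3 8) q := by
    funext l
    unfold neg
    by_cases hl : l ∈ Ico 3 (3 + j + 1)
    · rw [if_pos hl, if_pos (by
        rw [mem_Ico] at hl ⊢
        omega)]
    · rw [if_neg hl]
      by_cases hl3 : l ∈ Ico 3 8
      · rw [if_pos hl3, h0 l (by
          rw [mem_Ico] at hl3 ⊢
          omega) hl, neg_zero]
      · rw [if_neg hl3]
  rw [e5]
  exact hg q x1 x2

theorem HSb2_second_zero (N : ℕ) (hN : 0 < N) (i : ℕ) (g : Seq → Z2) :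
    Sph N 0 i (Sph N 3 0 (bd (Ico 3 (3 + 0 + 1)) g)) 0 = 0 := by
  have e1 : Sph N 3 0 (bd (Ico 3 (3 + 0 + 1)) g) = fun _ => 0 :=
    funext fun q => sph_stokes_zero N 3 g q
  rw [e1]
  exact HSb2_sph_zero N 0 i 0

theorem HSb2_base (N o : ℕ) (f : Seq → Z2) (q : Seq) :
    Sph N o 0 f q = f (Function.update q o (2 * N)) := by
  show (0 : Z2) + f (Function.update q (o + 0) (2 * N)) = _
  rw [zero_add, add_zero]

/-- The combinatorial Hopf–Stiefel obstruction for `(3, 5, 6)`. -/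
theorem hs_comb (N : ℕ) (hN : 0 < N) (m : Seq → Finset (Fin 6)) (sg : Seq → Fin 6 → Z2)
    (h : Lab (range 8) m sg {q | InX N (range 3) q ∧ InX N (Ico 3 8) q})
    (hm1 : ∀ q, InX N (range 3) q → InX N (Ico 3 8) q → m (neg (range 3) q) = m q ∧
      ∀ i ∈ m q, sg (neg (range 3) q) i = 1 + sg q i)
    (hm2 : ∀ q, InX N (range 3) q → InX N (Ico 3 8) q → m (neg (Ico 3 8) q) = m q ∧
      ∀ i ∈ m q, sg (neg (Ico 3 8) q) i = 1 + sg q i) : False := by
  classical
  set X : Set Seq := {q | InX N (range 3) q ∧ InX N (Ico 3 8) q} with hXdef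
  set a : ℕ → Seq → Z2 := aa (range 8) m sg with ha
  have hg : ∀ (t : Finset ℕ), (∀ q ∈ X, m (neg t q) = m q ∧
      ∀ i ∈ m q, sg (neg t q) i = 1 + sg q i) → ∀ (k : ℕ) (q : Seq),
      InX N (range 3) q → InX N (Ico 3 8) q →
      (fun q => sv m sg q * a k q) q + (fun q => sv m sg q * a k q) (neg t q) = a k q := by
    intro t ht k q h1 h2
    have hq : q ∈ X := ⟨h1, h2⟩
    have hneg : ∀ q ∈ X, neg t q ∈ X := fun q hq =>
      ⟨(inX_neg N (range 3) t q).2 hq.1, (inX_neg N (Ico 3 8) t q).2 hq.2⟩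
    obtain ⟨e1, e2⟩ := aa_neg (range 8) m sg h t hneg (fun q hq => (ht q hq).1)
      (fun q hq => (ht q hq).2) k q hq
    show sv m sg q * a k q + sv m sg (neg t q) * a k (neg t q) = a k q
    rw [e1]
    rw [show a k (neg t q) = a k q from e2]
    have h3 : sv m sg q * a k q + (1 + sv m sg q) * a k q =
        a k q + (sv m sg q * a k q + sv m sg q * a k q) := by ring
    rw [h3, CharTwo.add_self_eq_zero, add_zero]
  have hg1 := hg (range 3) (fun q hq => hm1 q hq.1 hq.2)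
  have hg2 := hg (Ico 3 8) (fun q hq => hm2 q hq.1 hq.2)
  have hsucc : ∀ k, a (k + 1) = bd (range 8) (fun q => sv m sg q * a k q) := fun k => rfl
  -- the recursion
  have hrec : ∀ i j, i + 1 ≤ 2 → j + 1 ≤ 4 →
      Sph N 0 (i + 1) (Sph N 3 (j + 1) (a (i + j + 2))) 0 =
        Sph N 0 i (Sph N 3 (j + 1) (a (i + j + 1))) 0 +
        Sph N 0 (i + 1) (Sph N 3 j (a (i + j + 1))) 0 := by
    intro i j hi hj
    rw [hsucc (i + j + 1), HSb2_split N hN (i + 1) (j + 1) hi hj,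
      HSb2_first N hN i (j + 1) hi hj _ (a (i + j + 1)) (hg1 (i + j + 1)),
      HSb2_second N hN (i + 1) j hi hj _ (a (i + j + 1)) (hg2 (i + j + 1))]
  have hrec0 : ∀ j, j + 1 ≤ 4 → Sph N 0 0 (Sph N 3 (j + 1) (a (j + 1))) 0 =
        Sph N 0 0 (Sph N 3 j (a j)) 0 := by
    intro j hj
    rw [hsucc j, HSb2_split N hN 0 (j + 1) (by omega) hj, HSb2_first_zero,
      HSb2_second N hN 0 j (by omega) hj _ (a j) (hg2 j), zero_add]
  have hrec1 : ∀ i, i + 1 ≤ 2 → Sph N 0 (i + 1) (Sph N 3 0 (a (i + 1))) 0 =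
        Sph N 0 i (Sph N 3 0 (a i)) 0 := by
    intro i hi
    rw [hsucc i, HSb2_split N hN (i + 1) 0 hi (by omega), HSb2_second_zero N hN,
      HSb2_first N hN i 0 hi (by omega) _ (a i) (hg1 i), add_zero]
  have h00 : Sph N 0 0 (Sph N 3 0 (a 0)) 0 = 1 := by
    rw [HSb2_base, HSb2_base]
    rfl
  have h01 := (hrec0 0 (by norm_num)).trans h00
  have h02 := (hrec0 1 (by norm_num)).trans h01
  have h03 := (hrec0 2 (by norm_num)).trans h02
  have h04 := (hrec0 3 (by norm_num)).trans h03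
  have h10 := (hrec1 0 (by norm_num)).trans h00
  have h20 := (hrec1 1 (by norm_num)).trans h10
  have h11 := hrec 0 0 (by norm_num) (by norm_num)
  have h12 := hrec 0 1 (by norm_num) (by norm_num)
  have h13 := hrec 0 2 (by norm_num) (by norm_num)
  have h14 := hrec 0 3 (by norm_num) (by norm_num)
  have h21 := hrec 1 0 (by norm_num) (by norm_num)
  have h22 := hrec 1 1 (by norm_num) (by norm_num)
  have h23 := hrec 1 2 (by norm_num) (by norm_num)
  have h24 := hrec 1 3 (by norm_num) (by norm_num)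
  norm_num at h01 h02 h03 h04 h10 h20 h11 h12 h13 h14 h21 h22 h23 h24
  have z2 : (1 : Z2) + 1 = 0 := by decide
  rw [h01, h10, z2] at h11
  rw [h02, h11, add_zero] at h12
  rw [h03, h12, z2] at h13
  rw [h04, h13, add_zero] at h14
  rw [h11, h20, zero_add] at h21
  rw [h12, h21, z2] at h22
  rw [h13, h22, add_zero] at h23
  rw [h14, h23, add_zero] at h24
  have hvan : Sph N 0 2 (Sph N 3 4 (a 6)) 0 = 0 := by
    rw [HSb2_congr N hN 2 4 le_rfl (a 6) (fun _ => 0) (fun q h0 h1 h2 => by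
      have hx := HSb2_inX N 2 4 le_rfl le_rfl q h0 h1 h2
      exact aa_vanish (range 8) m sg h 6 q hx (by
        refine (Finset.card_le_univ _).trans ?_
        rw [Fintype.card_fin]))]
    have e1 : Sph N 3 4 (fun _ => (0 : Z2)) = fun _ => 0 := funext fun q => HSb2_sph_zero N 3 4 q
    rw [e1]
    exact HSb2_sph_zero N 0 2 0
  rw [hvan] at h24
  exact absurd h24 (by decide)

end WuHS
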