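import Pool.Agent.Lib.MP_60079e_gt.HSb2

/-! # There is no bi-odd map `S² × S⁴ → ℝ⁶ \ {0}` -/

open Set Metric Topology

namespace WuHS

/-- the points of a cell (doubled coordinates) -/
def HSc_cube (q : Seq) : Set (ℕ → ℝ) :=
  {r | ∀ l, |r l - (q l : ℝ)| ≤ if Odd (q l) then 1 else 0}

/-- negation of the coordinates in `t` -/
def HSc_neg (t : Finset ℕ) (r : ℕ → ℝ) : ℕ → ℝ := fun l => if l ∈ t then -r l else r l

theorem HSc_neg_mem (t : Finset ℕ) (q : Seq) (r : ℕ → ℝ) (h : r ∈ HSc_cube q) :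
    HSc_neg t r ∈ HSc_cube (neg t q) := by
  intro l
  have h1 := h l
  unfold HSc_neg neg
  by_cases hl : l ∈ t
  · rw [if_pos hl, if_pos hl]
    have h2 : |-r l - ((-q l : ℤ) : ℝ)| = |r l - (q l : ℝ)| := by
      push_cast
      rw [← abs_neg]
      congr 1
      ring
    rw [h2]
    by_cases ho : Odd (q l)
    · rw [if_pos ho] at h1
      rw [if_pos (by rwa [odd_neg])]
      exact h1
    · rw [if_neg ho] at h1
      rw [if_neg (by rwa [odd_neg])]
      exact h1
  · rw [if_neg hl, if_neg hl]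
    exact h1

theorem HSc_neg_neg (t : Finset ℕ) (q : Seq) : neg t (neg t q) = q := by
  funext l
  unfold neg
  by_cases hl : l ∈ t
  · rw [if_pos hl, if_pos hl, neg_neg]
  · rw [if_neg hl, if_neg hl]

/-- The abstract form of the argument. -/
theorem HSc_abs (N : ℕ) (hN : 0 < N) (G : (ℕ → ℝ) → Fin 6 → ℝ) (δ : ℝ) (hδ : 0 < δ)
    (h1 : ∀ q, InX N (Finset.range 3) q → InX N (Finset.Ico 3 8) q → ∀ r ∈ HSc_cube q,
      ∃ i, δ ≤ |G r i|)
    (h2 : ∀ q, InX N (Finset.range 3) q → InX N (Finset.Ico 3 8) q → ∀ r ∈ HSc_cube q,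
      ∀ r' ∈ HSc_cube q, ∀ i, |G r i - G r' i| < δ)
    (h3 : ∀ q, InX N (Finset.range 3) q → InX N (Finset.Ico 3 8) q → ∀ r ∈ HSc_cube q,
      ∀ i, G (HSc_neg (Finset.range 3) r) i = -G r i)
    (h4 : ∀ q, InX N (Finset.range 3) q → InX N (Finset.Ico 3 8) q → ∀ r ∈ HSc_cube q,
      ∀ i, G (HSc_neg (Finset.Ico 3 8) r) i = -G r i) : False := by
  classical
  set m : Seq → Finset (Fin 6) := fun q =>
    Finset.univ.filter (fun i => ∃ r ∈ HSc_cube q, δ ≤ |G r i|) with hm
  set sg : Seq → Fin 6 → Z2 := fun q i => if ∃ r ∈ HSc_cube q, G r i ≤ -δ then 1 else 0 with hsg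
  have memm : ∀ q i, i ∈ m q ↔ ∃ r ∈ HSc_cube q, δ ≤ |G r i| := by
    intro q i
    simp [hm]
  -- the sign is determined by any large value
  have sgneg : ∀ q i r, r ∈ HSc_cube q → G r i ≤ -δ → sg q i = 1 := by
    intro q i r hr h
    simp only [hsg]
    rw [if_pos ⟨r, hr, h⟩]
  have sgpos : ∀ q i, InX N (Finset.range 3) q → InX N (Finset.Ico 3 8) q →
      ∀ r ∈ HSc_cube q, δ ≤ G r i → sg q i = 0 := by
    intro q i hq1 hq2 r hr h
    simp only [hsg]
    rw [if_neg]
    rintro ⟨r', hr', h'⟩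
    have h5 := (abs_lt.1 (h2 q hq1 hq2 r hr r' hr' i)).2
    linarith
  have cubesub : ∀ (q : Seq) (l : ℕ), Odd (q l) → ∀ e : ℤ, (e = 1 ∨ e = -1) →
      HSc_cube (Function.update q l (q l + e)) ⊆ HSc_cube q := by
    intro q l hl e he r hr l'
    have h5 := hr l'
    by_cases hll : l' = l
    · subst hll
      rw [Function.update_self] at h5
      have hev : ¬ Odd (q l' + e) := by
        rw [Int.not_odd_iff_even]
        rcases he with rfl | rfl
        · exact hl.add_one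
        · exact hl.add_odd (by decide)
      rw [if_neg hev] at h5
      rw [if_pos hl]
      have h6 : r l' - ((q l' + e : ℤ) : ℝ) = 0 := abs_eq_zero.1 (le_antisymm h5 (abs_nonneg _))
      have h7 : r l' - (q l' : ℝ) = (e : ℝ) := by
        push_cast at h6
        linarith
      rw [h7]
      rcases he with rfl | rfl
      · simp
      · simp
    · rw [Function.update_of_ne hll] at h5
      exact h5
  have facet : ∀ (q : Seq), InX N (Finset.range 3) q → InX N (Finset.Ico 3 8) q →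
      ∀ l, Odd (q l) → ∀ e : ℤ, (e = 1 ∨ e = -1) →
        (InX N (Finset.range 3) (Function.update q l (q l + e)) ∧
          InX N (Finset.Ico 3 8) (Function.update q l (q l + e))) ∧
        m (Function.update q l (q l + e)) ⊆ m q ∧
        ∀ i ∈ m (Function.update q l (q l + e)), sg (Function.update q l (q l + e)) i = sg q i := by
    intro q hq1 hq2 l hl e he
    have hX : InX N (Finset.range 3) (Function.update q l (q l + e)) ∧
          InX N (Finset.Ico 3 8) (Function.update q l (q l + e)) := by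
      rcases he with rfl | rfl
      · exact ⟨(inX_facet N _ q hq1 l hl).1, (inX_facet N _ q hq2 l hl).1⟩
      · exact ⟨(inX_facet N _ q hq1 l hl).2, (inX_facet N _ q hq2 l hl).2⟩
    have hsub := cubesub q l hl e he
    refine ⟨hX, ?_, ?_⟩
    · intro i hi
      rw [memm] at hi ⊢
      obtain ⟨r, hr, h⟩ := hi
      exact ⟨r, hsub hr, h⟩
    · intro i hi
      rw [memm] at hi
      obtain ⟨r, hr, h⟩ := hi
      rcases le_abs.1 h with h5 | h5
      · rw [sgpos _ i hX.1 hX.2 r hr h5, sgpos q i hq1 hq2 r (hsub hr) h5]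
      · have h6 : G r i ≤ -δ := by linarith
        rw [sgneg _ i r hr h6, sgneg q i r (hsub hr) h6]
  have symm : ∀ t : Finset ℕ, (∀ q, InX N (Finset.range 3) q → InX N (Finset.Ico 3 8) q →
      ∀ r ∈ HSc_cube q, ∀ i, G (HSc_neg t r) i = -G r i) →
      ∀ q, InX N (Finset.range 3) q → InX N (Finset.Ico 3 8) q → m (neg t q) = m q ∧
        ∀ i ∈ m q, sg (neg t q) i = 1 + sg q i := by
    intro t ht q hq1 hq2
    have hn1 := (inX_neg N (Finset.range 3) t q).2 hq1
    have hn2 := (inX_neg N (Finset.Ico 3 8) t q).2 hq2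
    constructor
    · ext i
      rw [memm, memm]
      constructor
      · rintro ⟨r, hr, h⟩
        refine ⟨HSc_neg t r, ?_, ?_⟩
        · have h5 := HSc_neg_mem t _ r hr
          rwa [HSc_neg_neg] at h5
        · rw [ht _ hn1 hn2 r hr i, abs_neg]
          exact h
      · rintro ⟨r, hr, h⟩
        refine ⟨HSc_neg t r, HSc_neg_mem t _ r hr, ?_⟩
        rw [ht _ hq1 hq2 r hr i, abs_neg]
        exact h
    · intro i hi
      rw [memm] at hi
      obtain ⟨r, hr, h⟩ := hi
      have hr' := HSc_neg_mem t _ r hr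
      have hG := ht _ hq1 hq2 r hr i
      rcases le_abs.1 h with h5 | h5
      · rw [sgpos q i hq1 hq2 r hr h5, sgneg (neg t q) i (HSc_neg t r) hr' (by rw [hG]; linarith)]
        rfl
      · rw [sgneg q i r hr (by linarith),
          sgpos (neg t q) i hn1 hn2 (HSc_neg t r) hr' (by rw [hG]; linarith)]
        rfl
  refine hs_comb N hN m sg ⟨?_, ?_, ?_, ?_⟩ (symm _ h3) (symm _ h4)
  · rintro q ⟨hq1, hq2⟩ l _ hl
    exact ⟨(facet q hq1 hq2 l hl 1 (Or.inl rfl)).1, (facet q hq1 hq2 l hl (-1) (Or.inr rfl)).1⟩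
  · rintro q ⟨hq1, hq2⟩
    obtain ⟨i, hi⟩ := h1 q hq1 hq2 (fun l => (q l : ℝ)) (by
      intro l
      rw [sub_self, abs_zero]
      split_ifs
      · norm_num
      · norm_num)
    exact ⟨i, (memm q i).2 ⟨_, (by
      intro l
      rw [sub_self, abs_zero]
      split_ifs
      · norm_num
      · norm_num), hi⟩⟩
  · rintro q ⟨hq1, hq2⟩ l _ hl
    exact ⟨(facet q hq1 hq2 l hl 1 (Or.inl rfl)).2.1, (facet q hq1 hq2 l hl (-1) (Or.inr rfl)).2.1⟩
  · rintro q ⟨hq1, hq2⟩ l _ hl
    exact ⟨(facet q hq1 hq2 l hl 1 (Or.inl rfl)).2.2, (facet q hq1 hq2 l hl (-1) (Or.inr rfl)).2.2⟩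

theorem HSc_le (N : ℕ) (s : Finset ℕ) (q : Seq) (h : InX N s q) (r : ℕ → ℝ)
    (hr : r ∈ HSc_cube q) : (∀ l ∈ s, |r l| ≤ 2 * N) ∧ ∃ l ∈ s, |r l| = 2 * N := by
  obtain ⟨hle, l0, hl0, hl0'⟩ := h
  have heven : ∀ l, ¬ Odd (q l) → r l = q l := by
    intro l hl
    have h1 := hr l
    rw [if_neg hl] at h1
    have h2 := abs_eq_zero.1 (le_antisymm h1 (abs_nonneg _))
    linarith
  constructor
  · intro l hl
    have h1 := hle l hl
    by_cases ho : Odd (q l)
    · have h2 := hr l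
      rw [if_pos ho] at h2
      have h3 : |q l| ≤ 2 * N - 1 := by
        obtain ⟨k, hk⟩ := ho
        rw [abs_le] at h1 ⊢
        omega
      have h4 : |(q l : ℝ)| ≤ 2 * N - 1 := by
        have : ((|q l| : ℤ) : ℝ) ≤ ((2 * N - 1 : ℤ) : ℝ) := by exact_mod_cast h3
        push_cast at this
        exact this
      calc |r l| = |(r l - q l) + q l| := by rw [sub_add_cancel]
        _ ≤ |r l - q l| + |(q l : ℝ)| := abs_add_le _ _
        _ ≤ 2 * N := by linarith
    · rw [heven l ho]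
      have : ((|q l| : ℤ) : ℝ) ≤ ((2 * N : ℤ) : ℝ) := by exact_mod_cast h1
      push_cast at this
      exact this
  · refine ⟨l0, hl0, ?_⟩
    have ho : ¬ Odd (q l0) := by
      rintro ⟨k, hk⟩
      rcases abs_cases (q l0) with h | h <;> omega
    rw [heven l0 ho]
    have : ((|q l0| : ℤ) : ℝ) = ((2 * N : ℤ) : ℝ) := by exact_mod_cast hl0'
    push_cast at this
    exact this

theorem no_biodd (F : (Fin 3 → ℝ) → (Fin 5 → ℝ) → (Fin 6 → ℝ))
    (hc : ContinuousOn (fun p : (Fin 3 → ℝ) × (Fin 5 → ℝ) => F p.1 p.2)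
      {p | p.1 ≠ 0 ∧ p.2 ≠ 0})
    (h1 : ∀ x y, x ≠ 0 → y ≠ 0 → F (-x) y = -F x y)
    (h2 : ∀ x y, x ≠ 0 → y ≠ 0 → F x (-y) = -F x y)
    (h0 : ∀ x y, x ≠ 0 → y ≠ 0 → F x y ≠ 0) : False := by
  set K : Set ((Fin 3 → ℝ) × (Fin 5 → ℝ)) := sphere 0 1 ×ˢ sphere 0 1 with hK
  have hKc : IsCompact K := (isCompact_sphere 0 1).prod (isCompact_sphere 0 1)
  have hKne : ∀ p ∈ K, p.1 ≠ 0 ∧ p.2 ≠ 0 := by
    rintro ⟨x, y⟩ ⟨hx, hy⟩
    have hx' : ‖x‖ = 1 := mem_sphere_zero_iff_norm.1 hx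
    have hy' : ‖y‖ = 1 := mem_sphere_zero_iff_norm.1 hy
    constructor
    · intro h
      simp only at h
      rw [h, norm_zero] at hx'
      exact zero_ne_one hx'
    · intro h
      simp only at h
      rw [h, norm_zero] at hy'
      exact zero_ne_one hy'
  have hcK : ContinuousOn (fun p : (Fin 3 → ℝ) × (Fin 5 → ℝ) => F p.1 p.2) K := hc.mono hKne
  have hKn : K.Nonempty := by
    refine ⟨(fun _ => 1, fun _ => 1), ?_, ?_⟩
    · simp
    · simp
  obtain ⟨p0, hp0, hmin⟩ := hKc.exists_isMinOn hKn hcK.norm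
  obtain ⟨δ, hδ⟩ : ∃ δ : ℝ, δ = ‖F p0.1 p0.2‖ := ⟨_, rfl⟩
  have hδ0 : 0 < δ := by
    rw [hδ]
    exact norm_pos_iff.2 (h0 _ _ (hKne p0 hp0).1 (hKne p0 hp0).2)
  have hδmin : ∀ p ∈ K, δ ≤ ‖F p.1 p.2‖ := by
    intro p hp
    rw [hδ]
    exact hmin hp
  have huc := hKc.uniformContinuousOn_of_continuous hcK
  obtain ⟨η, hη, huc'⟩ := Metric.uniformContinuousOn_iff.1 huc δ hδ0
  obtain ⟨n, hn⟩ := exists_nat_one_div_lt hη
  obtain ⟨N, hNdef⟩ : ∃ N : ℕ, N = n + 1 := ⟨_, rfl⟩
  have hN : 0 < N := by omega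
  have hNR : (0 : ℝ) < N := by exact_mod_cast hN
  have hNη : 1 / (N : ℝ) < η := by
    rw [hNdef]
    push_cast
    exact hn
  set X : (ℕ → ℝ) → (Fin 3 → ℝ) := fun r j => r (j : ℕ) / (2 * N) with hX
  set Y : (ℕ → ℝ) → (Fin 5 → ℝ) := fun r j => r (3 + (j : ℕ)) / (2 * N) with hY
  -- the points of the cells lie on the product of the spheres
  have hXn : ∀ q r, InX N (Finset.range 3) q → r ∈ HSc_cube q → ‖X r‖ = 1 := by
    intro q r hq hr
    obtain ⟨ha, l, hl, hb⟩ := HSc_le N _ q hq r hr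
    apply le_antisymm
    · refine (pi_norm_le_iff_of_nonneg zero_le_one).2 fun j => ?_
      rw [Real.norm_eq_abs, abs_div, abs_of_pos (by positivity : (0 : ℝ) < 2 * N),
        div_le_one (by positivity)]
      exact ha _ (Finset.mem_range.2 j.2)
    · have h5 := norm_le_pi_norm (X r) ⟨l, Finset.mem_range.1 hl⟩
      have h6 : ‖X r ⟨l, Finset.mem_range.1 hl⟩‖ = 1 := by
        simp only [hX]
        rw [Real.norm_eq_abs, abs_div, abs_of_pos (by positivity : (0 : ℝ) < 2 * N), hb]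
        exact div_self (by positivity)
      linarith
  have hYn : ∀ q r, InX N (Finset.Ico 3 8) q → r ∈ HSc_cube q → ‖Y r‖ = 1 := by
    intro q r hq hr
    obtain ⟨ha, l, hl, hb⟩ := HSc_le N _ q hq r hr
    have hl' := Finset.mem_Ico.1 hl
    apply le_antisymm
    · refine (pi_norm_le_iff_of_nonneg zero_le_one).2 fun j => ?_
      rw [Real.norm_eq_abs, abs_div, abs_of_pos (by positivity : (0 : ℝ) < 2 * N),
        div_le_one (by positivity)]
      have hj := j.2
      exact ha _ (Finset.mem_Ico.2 ⟨by omega, by omega⟩)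
    · have h5 := norm_le_pi_norm (Y r) ⟨l - 3, by omega⟩
      have h6 : ‖Y r ⟨l - 3, by omega⟩‖ = 1 := by
        simp only [hY]
        have h7 : 3 + (l - 3) = l := by omega
        rw [h7, Real.norm_eq_abs, abs_div, abs_of_pos (by positivity : (0 : ℝ) < 2 * N), hb]
        exact div_self (by positivity)
      linarith
  have hmemK : ∀ q r, InX N (Finset.range 3) q → InX N (Finset.Ico 3 8) q → r ∈ HSc_cube q →
      (X r, Y r) ∈ K := by
    intro q r hq1 hq2 hr
    exact ⟨mem_sphere_zero_iff_norm.2 (hXn q r hq1 hr), mem_sphere_zero_iff_norm.2 (hYn q r hq2 hr)⟩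
  have hdist : ∀ q r r', r ∈ HSc_cube q → r' ∈ HSc_cube q → ∀ l,
      |r l / (2 * N) - r' l / (2 * N)| < η := by
    intro q r r' hr hr' l
    have h5 : |r l - r' l| ≤ 2 := by
      have h6 := hr l
      have h7 := hr' l
      have h8 : (if Odd (q l) then (1 : ℝ) else 0) ≤ 1 := by
        split_ifs
        · exact le_rfl
        · exact zero_le_one
      calc |r l - r' l| = |(r l - q l) - (r' l - q l)| := by
            congr 1
            ring
        _ ≤ |r l - q l| + |r' l - q l| := abs_sub _ _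
        _ ≤ 2 := by linarith
    rw [← sub_div, abs_div, abs_of_pos (by positivity : (0 : ℝ) < 2 * N)]
    refine lt_of_le_of_lt ?_ hNη
    rw [div_le_div_iff₀ (by positivity) hNR]
    nlinarith
  refine HSc_abs N hN (fun r => F (X r) (Y r)) δ hδ0 ?_ ?_ ?_ ?_
  · intro q hq1 hq2 r hr
    by_contra hcon
    push Not at hcon
    have h5 := hδmin _ (hmemK q r hq1 hq2 hr)
    have h6 : ‖F (X r) (Y r)‖ < δ := (pi_norm_lt_iff hδ0).2 fun i => by
      rw [Real.norm_eq_abs]
      exact hcon i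
    exact absurd h5 (not_le.2 h6)
  · intro q hq1 hq2 r hr r' hr' i
    have h5 := huc' _ (hmemK q r hq1 hq2 hr) _ (hmemK q r' hq1 hq2 hr') (by
      rw [Prod.dist_eq]
      refine max_lt ?_ ?_
      · refine (dist_pi_lt_iff hη).2 fun j => ?_
        rw [Real.dist_eq]
        exact hdist q r r' hr hr' _
      · refine (dist_pi_lt_iff hη).2 fun j => ?_
        rw [Real.dist_eq]
        exact hdist q r r' hr hr' _)
    have h6 := dist_le_pi_dist (F (X r) (Y r)) (F (X r') (Y r')) i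
    rw [Real.dist_eq] at h6
    exact lt_of_le_of_lt h6 h5
  · intro q hq1 hq2 r hr i
    have hne := hKne _ (hmemK q r hq1 hq2 hr)
    have e1 : X (HSc_neg (Finset.range 3) r) = -X r := by
      funext j
      simp only [hX, HSc_neg, Pi.neg_apply]
      rw [if_pos (Finset.mem_range.2 j.2), neg_div]
    have e2 : Y (HSc_neg (Finset.range 3) r) = Y r := by
      funext j
      simp only [hY, HSc_neg]
      rw [if_neg (by rw [Finset.mem_range]; omega)]
    show F (X (HSc_neg (Finset.range 3) r)) (Y (HSc_neg (Finset.range 3) r)) i = -F (X r) (Y r) i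
    rw [e1, e2, h1 _ _ hne.1 hne.2]
    rfl
  · intro q hq1 hq2 r hr i
    have hne := hKne _ (hmemK q r hq1 hq2 hr)
    have e1 : X (HSc_neg (Finset.Ico 3 8) r) = X r := by
      funext j
      have hj := j.2
      simp only [hX, HSc_neg]
      rw [if_neg (by rw [Finset.mem_Ico]; omega)]
    have e2 : Y (HSc_neg (Finset.Ico 3 8) r) = -Y r := by
      funext j
      have hj := j.2
      simp only [hY, HSc_neg, Pi.neg_apply]
      rw [if_pos (by rw [Finset.mem_Ico]; omega), neg_div]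
    show F (X (HSc_neg (Finset.Ico 3 8) r)) (Y (HSc_neg (Finset.Ico 3 8) r)) i = -F (X r) (Y r) i
    rw [e1, e2, h2 _ _ hne.1 hne.2]
    rfl

end WuHS
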