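import Pool.Agent.Lib.MP_60079e_gt.HSc

/-! # Loops of rotations are not null-homotopic through odd maps `S⁵ → ℝ⁶ \ {0}` -/

open Set Metric Topology

namespace WuHS

/-- `h : D² × (ℂ³ \ 0) → ℝ⁶ \ 0`, odd in the second variable. -/
structure OddDisc (h : ℂ → (Fin 3 → ℂ) → (Fin 6 → ℝ)) : Prop where
  cont : ContinuousOn (fun p : ℂ × (Fin 3 → ℂ) => h p.1 p.2) {p | ‖p.1‖ ≤ 1 ∧ p.2 ≠ 0}
  odd : ∀ z u, ‖z‖ ≤ 1 → u ≠ 0 → h z (-u) = -h z u
  ne : ∀ z u, ‖z‖ ≤ 1 → u ≠ 0 → h z u ≠ 0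

/-- Euclidean norm -/
private noncomputable def HSd_r (x : Fin 3 → ℝ) : ℝ := √(x 0 ^ 2 + x 1 ^ 2 + x 2 ^ 2)

private noncomputable def HSd_z (x : Fin 3 → ℝ) : ℂ :=
  ((x 0 / HSd_r x : ℝ) : ℂ) + ((x 1 / HSd_r x : ℝ) : ℂ) * Complex.I

private noncomputable def HSd_u (y : Fin 5 → ℝ) : Fin 3 → ℂ :=
  ![(y 0 : ℂ) + (y 1 : ℂ) * Complex.I, (y 2 : ℂ) + (y 3 : ℂ) * Complex.I, (y 4 : ℂ)]

private theorem HSd_r_pos {x : Fin 3 → ℝ} (hx : x ≠ 0) : 0 < HSd_r x := by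
  unfold HSd_r
  refine Real.sqrt_pos.2 ?_
  by_contra hcon
  have h0 := sq_nonneg (x 0)
  have h1 := sq_nonneg (x 1)
  have h2 := sq_nonneg (x 2)
  refine hx (funext fun i => ?_)
  have e0 : x 0 = 0 := pow_eq_zero_iff (two_ne_zero) |>.1 (by linarith)
  have e1 : x 1 = 0 := pow_eq_zero_iff (two_ne_zero) |>.1 (by linarith)
  have e2 : x 2 = 0 := pow_eq_zero_iff (two_ne_zero) |>.1 (by linarith)
  fin_cases i
  · exact e0
  · exact e1
  · exact e2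

private theorem HSd_norm_sq (x : Fin 3 → ℝ) (hx : x ≠ 0) :
    ‖HSd_z x‖ ^ 2 = 1 - (x 2 / HSd_r x) ^ 2 := by
  have hr := HSd_r_pos hx
  have h1 : HSd_r x ^ 2 = x 0 ^ 2 + x 1 ^ 2 + x 2 ^ 2 := by
    unfold HSd_r
    exact Real.sq_sqrt (by positivity)
  rw [Complex.sq_norm]
  unfold HSd_z
  rw [Complex.normSq_add_mul_I]
  have h2 : (x 0 / HSd_r x) ^ 2 + (x 1 / HSd_r x) ^ 2 + (x 2 / HSd_r x) ^ 2 = 1 := by
    rw [div_pow, div_pow, div_pow, ← add_div, ← add_div, ← h1]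
    exact div_self (pow_pos hr 2).ne'
  linarith

private theorem HSd_norm_le {x : Fin 3 → ℝ} (hx : x ≠ 0) : ‖HSd_z x‖ ≤ 1 := by
  have h1 := HSd_norm_sq x hx
  have h2 := sq_nonneg (x 2 / HSd_r x)
  have h3 := norm_nonneg (HSd_z x)
  nlinarith

private theorem HSd_norm_one {x : Fin 3 → ℝ} (hx : x ≠ 0) (h : x 2 = 0) : ‖HSd_z x‖ = 1 := by
  have h1 := HSd_norm_sq x hx
  rw [h, zero_div] at h1
  have h3 := norm_nonneg (HSd_z x)
  have h4 : ‖HSd_z x‖ ^ 2 = 1 ^ 2 := by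
    rw [h1]
    norm_num
  exact (pow_left_inj₀ h3 zero_le_one two_ne_zero).1 h4

private theorem HSd_r_neg (x : Fin 3 → ℝ) : HSd_r (-x) = HSd_r x := by
  unfold HSd_r
  simp only [Pi.neg_apply, neg_sq]

private theorem HSd_z_neg (x : Fin 3 → ℝ) : HSd_z (-x) = -HSd_z x := by
  unfold HSd_z
  rw [HSd_r_neg, Pi.neg_apply, Pi.neg_apply, neg_div, neg_div]
  push_cast
  ring

private theorem HSd_u_neg (y : Fin 5 → ℝ) : HSd_u (-y) = -HSd_u y := by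
  funext i
  fin_cases i
  · show ((-y 0 : ℝ) : ℂ) + ((-y 1 : ℝ) : ℂ) * Complex.I =
      -((y 0 : ℂ) + (y 1 : ℂ) * Complex.I)
    push_cast
    ring
  · show ((-y 2 : ℝ) : ℂ) + ((-y 3 : ℝ) : ℂ) * Complex.I =
      -((y 2 : ℂ) + (y 3 : ℂ) * Complex.I)
    push_cast
    ring
  · show ((-y 4 : ℝ) : ℂ) = -(y 4 : ℂ)
    push_cast
    ring

private theorem HSd_add_I {a b : ℝ} (h : (a : ℂ) + (b : ℂ) * Complex.I = 0) : a = 0 ∧ b = 0 := by
  have h1 := congrArg Complex.re h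
  have h2 := congrArg Complex.im h
  simp only [Complex.add_re, Complex.ofReal_re, Complex.mul_re, Complex.I_re, mul_zero,
    Complex.ofReal_im, Complex.I_im, mul_one, sub_self, add_zero, Complex.zero_re] at h1
  simp only [Complex.add_im, Complex.ofReal_im, Complex.mul_im, Complex.ofReal_re, Complex.I_im,
    mul_one, Complex.I_re, mul_zero, add_zero, zero_add, Complex.zero_im] at h2
  exact ⟨h1, h2⟩

private theorem HSd_u_ne {y : Fin 5 → ℝ} (hy : y ≠ 0) : HSd_u y ≠ 0 := by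
  intro h
  have h0 := HSd_add_I (a := y 0) (b := y 1) (congrFun h 0)
  have h1 := HSd_add_I (a := y 2) (b := y 3) (congrFun h 1)
  have h2 : (y 4 : ℂ) = 0 := congrFun h 2
  refine hy (funext fun i => ?_)
  fin_cases i
  · exact h0.1
  · exact h0.2
  · exact h1.1
  · exact h1.2
  · exact Complex.ofReal_eq_zero.1 h2

private theorem HSd_u_cont : Continuous HSd_u := by
  refine continuous_pi fun i => ?_
  fin_cases i
  · show Continuous fun y : Fin 5 → ℝ => (y 0 : ℂ) + (y 1 : ℂ) * Complex.I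
    fun_prop
  · show Continuous fun y : Fin 5 → ℝ => (y 2 : ℂ) + (y 3 : ℂ) * Complex.I
    fun_prop
  · show Continuous fun y : Fin 5 → ℝ => (y 4 : ℂ)
    fun_prop

private theorem HSd_r_cont : Continuous HSd_r := by
  unfold HSd_r
  fun_prop

theorem no_disc (h : ℂ → (Fin 3 → ℂ) → (Fin 6 → ℝ)) (hh : OddDisc h)
    (hb : ∀ z u, ‖z‖ = 1 → u ≠ 0 → h z u = h 1 (z • u)) : False := by
  classical
  have hneg : ∀ x : Fin 3 → ℝ, x ≠ 0 → ‖-HSd_z x‖ ≤ 1 := fun x hx => by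
    rw [norm_neg]
    exact HSd_norm_le hx
  have hagree : ∀ (x : Fin 3 → ℝ) (u : Fin 3 → ℂ), x ≠ 0 → u ≠ 0 → x 2 = 0 →
      h (HSd_z x) u = -h (-HSd_z x) u := by
    intro x u hx hu h0
    have hz := HSd_norm_one hx h0
    have hz0 : HSd_z x ≠ 0 := by
      intro h1
      rw [h1, norm_zero] at hz
      exact zero_ne_one hz
    rw [hb _ _ hz hu, hb (-HSd_z x) u (by rw [norm_neg]; exact hz) hu, neg_smul,
      hh.odd 1 _ (by rw [norm_one]) (smul_ne_zero hz0 hu), neg_neg]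
  refine no_biodd (fun x y => if 0 ≤ x 2 then h (HSd_z x) (HSd_u y) else -h (-HSd_z x) (HSd_u y))
    ?_ ?_ ?_ ?_
  · rw [continuousOn_iff_continuous_domRestrict]
    have hx : Continuous (fun p : {p : (Fin 3 → ℝ) × (Fin 5 → ℝ) // p.1 ≠ 0 ∧ p.2 ≠ 0} =>
        p.1.1) := continuous_fst.comp continuous_subtype_val
    have hy : Continuous (fun p : {p : (Fin 3 → ℝ) × (Fin 5 → ℝ) // p.1 ≠ 0 ∧ p.2 ≠ 0} =>
        p.1.2) := continuous_snd.comp continuous_subtype_val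
    have hr : Continuous (fun p : {p : (Fin 3 → ℝ) × (Fin 5 → ℝ) // p.1 ≠ 0 ∧ p.2 ≠ 0} =>
        HSd_r p.1.1) := HSd_r_cont.comp hx
    have hr0 : ∀ p : {p : (Fin 3 → ℝ) × (Fin 5 → ℝ) // p.1 ≠ 0 ∧ p.2 ≠ 0},
        HSd_r p.1.1 ≠ 0 := fun p => (HSd_r_pos p.2.1).ne'
    have hz : Continuous (fun p : {p : (Fin 3 → ℝ) × (Fin 5 → ℝ) // p.1 ≠ 0 ∧ p.2 ≠ 0} =>
        HSd_z p.1.1) := by
      refine Continuous.add ?_ (Continuous.mul ?_ continuous_const)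
      · exact Complex.continuous_ofReal.comp
          (((continuous_apply 0).comp hx).div hr hr0)
      · exact Complex.continuous_ofReal.comp
          (((continuous_apply 1).comp hx).div hr hr0)
    have hu : Continuous (fun p : {p : (Fin 3 → ℝ) × (Fin 5 → ℝ) // p.1 ≠ 0 ∧ p.2 ≠ 0} =>
        HSd_u p.1.2) := HSd_u_cont.comp hy
    have h1 : Continuous (fun p : {p : (Fin 3 → ℝ) × (Fin 5 → ℝ) // p.1 ≠ 0 ∧ p.2 ≠ 0} =>
        h (HSd_z p.1.1) (HSd_u p.1.2)) :=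
      hh.cont.comp_continuous (hz.prodMk hu)
        (fun p => ⟨HSd_norm_le p.2.1, HSd_u_ne p.2.2⟩)
    have h2 : Continuous (fun p : {p : (Fin 3 → ℝ) × (Fin 5 → ℝ) // p.1 ≠ 0 ∧ p.2 ≠ 0} =>
        -h (-HSd_z p.1.1) (HSd_u p.1.2)) :=
      (hh.cont.comp_continuous (hz.neg.prodMk hu)
        (fun p => ⟨hneg _ p.2.1, HSd_u_ne p.2.2⟩)).neg
    exact h1.if_le h2 continuous_const ((continuous_apply 2).comp hx)
      (fun p hp => hagree _ _ p.2.1 (HSd_u_ne p.2.2) hp.symm)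
  · intro x y hx hy
    have hu := HSd_u_ne hy
    show (if 0 ≤ (-x) 2 then h (HSd_z (-x)) (HSd_u y) else -h (-HSd_z (-x)) (HSd_u y)) =
      -(if 0 ≤ x 2 then h (HSd_z x) (HSd_u y) else -h (-HSd_z x) (HSd_u y))
    rw [HSd_z_neg, neg_neg, Pi.neg_apply]
    rcases lt_trichotomy (x 2) 0 with h1 | h1 | h1
    · rw [if_pos (by linarith), if_neg (by linarith), neg_neg]
    · rw [if_pos (by linarith), if_pos (by linarith), hagree x _ hx hu h1, neg_neg]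
    · rw [if_neg (by linarith), if_pos (by linarith)]
  · intro x y hx hy
    have hu := HSd_u_ne hy
    show (if 0 ≤ x 2 then h (HSd_z x) (HSd_u (-y)) else -h (-HSd_z x) (HSd_u (-y))) =
      -(if 0 ≤ x 2 then h (HSd_z x) (HSd_u y) else -h (-HSd_z x) (HSd_u y))
    rw [HSd_u_neg, hh.odd _ _ (HSd_norm_le hx) hu, hh.odd _ _ (hneg x hx) hu]
    split_ifs <;> rfl
  · intro x y hx hy
    have hu := HSd_u_ne hy
    show (if 0 ≤ x 2 then h (HSd_z x) (HSd_u y) else -h (-HSd_z x) (HSd_u y)) ≠ 0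
    split_ifs
    · exact hh.ne _ _ (HSd_norm_le hx) hu
    · exact neg_ne_zero.2 (hh.ne _ _ (hneg x hx) hu)

end WuHS
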