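import Pool.Agent.Lib.MP_60079e_gt.HSd

/-! # Two loops of rotations -/

open Set Metric Topology

namespace WuHS

/-- precomposition of an odd disc with a family of odd maps of `ℂ³ \ 0` -/
theorem HSe_comp {h : ℂ → (Fin 3 → ℂ) → (Fin 6 → ℝ)} (hh : OddDisc h)
    (R : ℂ → (Fin 3 → ℂ) → (Fin 3 → ℂ))
    (hc : Continuous (fun p : ℂ × (Fin 3 → ℂ) => R p.1 p.2))
    (ho : ∀ z u, R z (-u) = -R z u)
    (hn : ∀ z u, ‖z‖ ≤ 1 → u ≠ 0 → R z u ≠ 0) : OddDisc (fun z u => h z (R z u)) where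
  cont := by
    have h1 : ContinuousOn (fun p : ℂ × (Fin 3 → ℂ) => (p.1, R p.1 p.2))
        {p | ‖p.1‖ ≤ 1 ∧ p.2 ≠ 0} := (continuous_fst.prodMk hc).continuousOn
    exact hh.cont.comp h1 (fun p hp => ⟨hp.1, hn p.1 p.2 hp.1 hp.2⟩)
  odd := by
    intro z u hz hu
    show h z (R z (-u)) = -h z (R z u)
    rw [ho]
    exact hh.odd z (R z u) hz (hn z u hz hu)
  ne := fun z u hz hu => hh.ne z (R z u) hz (hn z u hz hu)

/-- the cofactor `√(1 - |z|²)` -/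
noncomputable def HSe_s (z : ℂ) : ℂ := ((Real.sqrt (1 - ‖z‖ ^ 2) : ℝ) : ℂ)

theorem HSe_s_cont : Continuous HSe_s := by
  unfold HSe_s
  exact Complex.continuous_ofReal.comp
    (Real.continuous_sqrt.comp (continuous_const.sub (continuous_norm.pow 2)))

theorem HSe_s_conj (z : ℂ) : (starRingEnd ℂ) (HSe_s z) = HSe_s z := Complex.conj_ofReal _

theorem HSe_s_sq {z : ℂ} (hz : ‖z‖ ≤ 1) : (starRingEnd ℂ) z * z + HSe_s z * HSe_s z = 1 := by
  have h1 : Real.sqrt (1 - ‖z‖ ^ 2) * Real.sqrt (1 - ‖z‖ ^ 2) = 1 - ‖z‖ ^ 2 :=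
    Real.mul_self_sqrt (by nlinarith [norm_nonneg z])
  have h2 : (starRingEnd ℂ) z * z = ((‖z‖ ^ 2 : ℝ) : ℂ) := by
    rw [mul_comm, Complex.mul_conj, Complex.normSq_eq_norm_sq]
  rw [h2, HSe_s, ← Complex.ofReal_mul, h1, ← Complex.ofReal_add]
  simp

theorem HSe_s_one {z : ℂ} (hz : ‖z‖ = 1) : HSe_s z = 0 := by
  unfold HSe_s
  rw [hz]
  norm_num

/-- the first family of rotations -/
noncomputable def HSe_A (z : ℂ) (u : Fin 3 → ℂ) : Fin 3 → ℂ :=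
  ![(starRingEnd ℂ) z * u 0 - HSe_s z * u 2, u 1, HSe_s z * u 0 + z * u 2]

/-- the second family of rotations -/
noncomputable def HSe_B (z : ℂ) (u : Fin 3 → ℂ) : Fin 3 → ℂ :=
  ![u 0, z * u 1 - HSe_s z * (starRingEnd ℂ) (u 2), z * u 2 + HSe_s z * (starRingEnd ℂ) (u 1)]

theorem HSe_cp (i : Fin 3) : Continuous (fun p : ℂ × (Fin 3 → ℂ) => p.2 i) :=
  (continuous_apply i).comp continuous_snd

theorem HSe_cs : Continuous (fun p : ℂ × (Fin 3 → ℂ) => HSe_s p.1) :=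
  HSe_s_cont.comp continuous_fst

theorem HSe_A_cont : Continuous (fun p : ℂ × (Fin 3 → ℂ) => HSe_A p.1 p.2) := by
  refine continuous_pi fun i => ?_
  fin_cases i
  · exact ((Complex.continuous_conj.comp continuous_fst).mul (HSe_cp 0)).sub
      (HSe_cs.mul (HSe_cp 2))
  · exact HSe_cp 1
  · exact (HSe_cs.mul (HSe_cp 0)).add (continuous_fst.mul (HSe_cp 2))

theorem HSe_B_cont : Continuous (fun p : ℂ × (Fin 3 → ℂ) => HSe_B p.1 p.2) := by
  refine continuous_pi fun i => ?_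
  fin_cases i
  · exact HSe_cp 0
  · exact (continuous_fst.mul (HSe_cp 1)).sub
      (HSe_cs.mul (Complex.continuous_conj.comp (HSe_cp 2)))
  · exact (continuous_fst.mul (HSe_cp 2)).add
      (HSe_cs.mul (Complex.continuous_conj.comp (HSe_cp 1)))

theorem HSe_A_neg (z : ℂ) (u : Fin 3 → ℂ) : HSe_A z (-u) = -HSe_A z u := by
  funext i
  fin_cases i
  · show (starRingEnd ℂ) z * (-u 0) - HSe_s z * (-u 2) = -((starRingEnd ℂ) z * u 0 - HSe_s z * u 2)
    ring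
  · rfl
  · show HSe_s z * (-u 0) + z * (-u 2) = -(HSe_s z * u 0 + z * u 2)
    ring

theorem HSe_B_neg (z : ℂ) (u : Fin 3 → ℂ) : HSe_B z (-u) = -HSe_B z u := by
  funext i
  fin_cases i
  · rfl
  · show z * (-u 1) - HSe_s z * (starRingEnd ℂ) (-u 2) =
      -(z * u 1 - HSe_s z * (starRingEnd ℂ) (u 2))
    rw [map_neg]
    ring
  · show z * (-u 2) + HSe_s z * (starRingEnd ℂ) (-u 1) =
      -(z * u 2 + HSe_s z * (starRingEnd ℂ) (u 1))
    rw [map_neg]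
    ring

theorem HSe_A_ne (z : ℂ) (u : Fin 3 → ℂ) (hz : ‖z‖ ≤ 1) (hu : u ≠ 0) : HSe_A z u ≠ 0 := by
  intro h
  apply hu
  have h0 : (starRingEnd ℂ) z * u 0 - HSe_s z * u 2 = 0 := congrFun h 0
  have h1 : u 1 = 0 := congrFun h 1
  have h2 : HSe_s z * u 0 + z * u 2 = 0 := congrFun h 2
  have hs := HSe_s_sq hz
  funext i
  fin_cases i
  · show u 0 = 0
    linear_combination (-u 0) * hs + z * h0 + HSe_s z * h2
  · exact h1
  · show u 2 = 0
    linear_combination (-u 2) * hs + (starRingEnd ℂ) z * h2 - HSe_s z * h0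

theorem HSe_B_ne (z : ℂ) (u : Fin 3 → ℂ) (hz : ‖z‖ ≤ 1) (hu : u ≠ 0) : HSe_B z u ≠ 0 := by
  intro h
  apply hu
  have h0 : u 0 = 0 := congrFun h 0
  have h1 : z * u 1 - HSe_s z * (starRingEnd ℂ) (u 2) = 0 := congrFun h 1
  have h2 : z * u 2 + HSe_s z * (starRingEnd ℂ) (u 1) = 0 := congrFun h 2
  have h1' := congrArg (starRingEnd ℂ) h1
  have h2' := congrArg (starRingEnd ℂ) h2
  rw [map_zero, map_sub, map_mul, map_mul, HSe_s_conj, Complex.conj_conj] at h1'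
  rw [map_zero, map_add, map_mul, map_mul, HSe_s_conj, Complex.conj_conj] at h2'
  have hs := HSe_s_sq hz
  funext i
  fin_cases i
  · exact h0
  · show u 1 = 0
    linear_combination (-u 1) * hs + (starRingEnd ℂ) z * h1 + HSe_s z * h2'
  · show u 2 = 0
    linear_combination (-u 2) * hs + (starRingEnd ℂ) z * h2 - HSe_s z * h1'

theorem no_rotA (h : ℂ → (Fin 3 → ℂ) → (Fin 6 → ℝ)) (hh : OddDisc h)
    (hb : ∀ z u, ‖z‖ = 1 → u ≠ 0 → h z u = h 1 ![z ^ 2 * u 0, z * u 1, u 2]) : False := by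
  refine no_disc (fun z u => h z (HSe_A z u))
    (HSe_comp hh HSe_A HSe_A_cont HSe_A_neg HSe_A_ne) ?_
  intro z u hz hu
  show h z (HSe_A z u) = h 1 (HSe_A 1 (z • u))
  have hzz : z * (starRingEnd ℂ) z = 1 := by
    rw [Complex.mul_conj, Complex.normSq_eq_norm_sq, hz]
    norm_num
  rw [hb z _ hz (HSe_A_ne z u hz.le hu)]
  congr 1
  funext i
  have hs : HSe_s z = 0 := HSe_s_one hz
  have hs1 : HSe_s 1 = 0 := HSe_s_one norm_one
  fin_cases i
  · show z ^ 2 * ((starRingEnd ℂ) z * u 0 - HSe_s z * u 2) =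
      (starRingEnd ℂ) 1 * (z * u 0) - HSe_s 1 * (z * u 2)
    rw [hs, hs1, map_one]
    linear_combination z * u 0 * hzz
  · rfl
  · show HSe_s z * u 0 + z * u 2 = HSe_s 1 * (z * u 0) + 1 * (z * u 2)
    rw [hs, hs1]
    ring

theorem no_rotB (h : ℂ → (Fin 3 → ℂ) → (Fin 6 → ℝ)) (hh : OddDisc h)
    (hb : ∀ z u, ‖z‖ = 1 → u ≠ 0 → h z u = h 1 ![z * u 0, u 1, u 2]) : False := by
  refine no_disc (fun z u => h z (HSe_B z u))
    (HSe_comp hh HSe_B HSe_B_cont HSe_B_neg HSe_B_ne) ?_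
  intro z u hz hu
  show h z (HSe_B z u) = h 1 (HSe_B 1 (z • u))
  rw [hb z _ hz (HSe_B_ne z u hz.le hu)]
  congr 1
  funext i
  have hs : HSe_s z = 0 := HSe_s_one hz
  have hs1 : HSe_s 1 = 0 := HSe_s_one norm_one
  fin_cases i
  · rfl
  · show z * u 1 - HSe_s z * (starRingEnd ℂ) (u 2) =
      1 * (z * u 1) - HSe_s 1 * (starRingEnd ℂ) (z * u 2)
    rw [hs, hs1]
    ring
  · show z * u 2 + HSe_s z * (starRingEnd ℂ) (u 1) =
      1 * (z * u 2) + HSe_s 1 * (starRingEnd ℂ) (z * u 1)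
    rw [hs, hs1]
    ring

end WuHS
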