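import Pool.Agent.Lib.MP_60079e_gt.Sm

/-! Slice charts of a regular hypersurface `{F = 0}` in `M × ℝ`. -/

open Set Metric Topology
open scoped ContDiff

namespace Wu

/-- A chart of `M × ℝ` whose last coordinate is `F`. -/
def IsSlice (M : Mfd E5) (F : M.X × ℝ → ℝ) (Θ : OpenPartialHomeomorph (M.X × ℝ) (E5 × ℝ)) :
    Prop :=
  (∀ p ∈ Θ.source, (Θ p).2 = F p) ∧ ∀ p ∈ Θ.source, OPAt (prodR M) (euc (E5 × ℝ)) Θ p

theorem hypA_ev {E : Type} [NormedAddCommGroup E] [NormedSpace ℝ E] [FiniteDimensional ℝ E]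
    (M : Mfd E) (f : M.X → E) (p : M.X) (hs : ∀ᶠ q in 𝓝 p, SmAt M f q)
    (h : OPAt M (euc E) f p) : ∀ᶠ q in 𝓝 p, OPAt M (euc E) f q := by
  obtain ⟨c, hc, hp⟩ := M.cover p
  have h1 : OPaP (f ∘ c.symm) (c p) :=
    h.chart hc (d := OpenPartialHomeomorph.refl E) rfl hp (mem_univ _)
  have h2 : ContDiffAt ℝ 0 (fderiv ℝ (f ∘ c.symm)) (c p) := h1.1.fderiv_right (by simp)
  have h3 : ContinuousAt (fun z => (fderiv ℝ (f ∘ c.symm) z).det) (c p) :=
    ContinuousAt.comp (g := fun A : E →L[ℝ] E => A.det)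
      ContinuousLinearMap.continuous_det.continuousAt h2.continuousAt
  have h4 : ∀ᶠ z in 𝓝 (c p), 0 < (fderiv ℝ (f ∘ c.symm) z).det :=
    h3.eventually (lt_mem_nhds h1.2)
  have h5 : ∀ᶠ q in 𝓝 p, 0 < (fderiv ℝ (f ∘ c.symm) (c q)).det :=
    (c.continuousAt hp).eventually h4
  filter_upwards [hs, h5, c.open_source.mem_nhds hp] with q hq1 hq2 hq3
  exact ⟨hq1.continuousAt, c, hc, OpenPartialHomeomorph.refl E, rfl, hq3, mem_univ _,
    hq1.chart hc hq3, hq2⟩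

theorem hypA_mk (M : Mfd E5) (F : M.X × ℝ → ℝ) (p : M.X × ℝ) (Θ0 : M.X × ℝ → E5 × ℝ)
    (h1 : ∀ᶠ q in 𝓝 p, SmAt (prodR M) Θ0 q) (h2 : OPAt (prodR M) (euc (E5 × ℝ)) Θ0 p)
    (h3 : ∀ q, (Θ0 q).2 = F q) {P : M.X × ℝ → Prop} (hP : ∀ᶠ q in 𝓝 p, P q) :
    ∃ Θ, IsSlice M F Θ ∧ p ∈ Θ.source ∧ ∀ q ∈ Θ.source, P q ∧ Θ q = Θ0 q := by
  obtain ⟨e, he1, he2, he3⟩ := h2.exists_local
  have h4 := (hypA_ev (prodR M) Θ0 p h1 h2).and hP
  obtain ⟨U, hU1, hU2, hU3⟩ := mem_nhds_iff.1 h4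
  have h5 : (e.restrOpen U hU2).source = e.source ∩ U := OpenPartialHomeomorph.restrOpen_source _ _ _
  refine ⟨e.restrOpen U hU2, ⟨?_, ?_⟩, ?_, ?_⟩
  · intro q hq
    rw [h5] at hq
    show (e q).2 = F q
    rw [he2 q hq.1, h3]
  · intro q hq
    rw [h5] at hq
    apply (hU1 hq.2).1.congr
    filter_upwards [e.open_source.mem_nhds hq.1] with y hy
    exact (he2 y hy).symm
  · rw [h5]
    exact ⟨he1, hU3⟩
  · intro q hq
    rw [h5] at hq
    exact ⟨(hU1 hq.2).2, he2 q hq.1⟩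

/-- Slice charts exist at regular points. -/
theorem exists_slice (M : Mfd E5) (F : M.X × ℝ → ℝ) (hF : ∀ p, SmAt (prodR M) F p)
    (p : M.X × ℝ) (hp : SubmAt (prodR M) F p) : ∃ Θ, IsSlice M F Θ ∧ p ∈ Θ.source := by
  obtain ⟨D, hD, hpD, h0, h1⟩ := hp
  obtain ⟨T, hT⟩ := exists_complete _ h1
  have hev : ∀ q ∈ D.source, (fun q => (T (D q), F q)) ∘ D.symm =ᶠ[𝓝 (D q)]
      fun z => (T z, (F ∘ D.symm) z) := by
    intro q hq
    filter_upwards [D.open_target.mem_nhds (D.map_source hq)] with z hz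
    simp only [Function.comp_apply]
    rw [D.right_inv hz]
  have h2 : ∀ q ∈ D.source, SmAt (prodR M) (fun q => (T (D q), F q)) q := by
    intro q hq
    refine ⟨D, hD, hq, ?_⟩
    exact (T.contDiff.contDiffAt.prodMk ((hF q).chart hD hq)).congr_of_eventuallyEq (hev q hq)
  have h3 : OPAt (prodR M) (euc (E5 × ℝ)) (fun q => (T (D q), F q)) p := by
    refine ⟨(h2 p hpD).continuousAt, D, hD, OpenPartialHomeomorph.refl _, rfl, hpD,
      mem_univ _, (h2 p hpD).chart hD hpD, ?_⟩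
    show 0 < (fderiv ℝ ((fun q => (T (D q), F q)) ∘ D.symm) (D p)).det
    rw [(hev p hpD).fderiv_eq]
    have h4 : HasFDerivAt (fun z => (T z, (F ∘ D.symm) z))
        (T.prod (fderiv ℝ (F ∘ D.symm) (D p))) (D p) :=
      T.hasFDerivAt.prodMk (h0.differentiableAt (by simp)).hasFDerivAt
    rw [h4.fderiv]
    exact hT
  obtain ⟨Θ, h5, h6, -⟩ := hypA_mk M F p (fun q => (T (D q), F q))
    (Filter.eventually_of_mem (D.open_source.mem_nhds hpD) h2) h3 (fun q => rfl)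
    (P := fun _ => True) (Filter.Eventually.of_forall fun _ => trivial)
  exact ⟨Θ, h5, h6⟩

/-- If `∂F/∂h > 0` the chart `(c, F)` is a slice chart near `p`. -/
theorem exists_slice_graph (M : Mfd E5) (F : M.X × ℝ → ℝ) (hF : ∀ p, SmAt (prodR M) F p)
    (p : M.X × ℝ) (hp : 0 < deriv (fun h => F (p.1, h)) p.2) {c : OpenPartialHomeomorph M.X E5}
    (hc : c ∈ M.atlas) (hx : p.1 ∈ c.source) :
    ∃ Θ, IsSlice M F Θ ∧ p ∈ Θ.source ∧ ∀ q ∈ Θ.source, q.1 ∈ c.source ∧ (Θ q).1 = c q.1 := by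
  have hD : c.prod (OpenPartialHomeomorph.refl ℝ) ∈ (prodR M).atlas := ⟨c, hc, rfl⟩
  have hDs : ∀ q : M.X × ℝ, q.1 ∈ c.source → q ∈ (c.prod (OpenPartialHomeomorph.refl ℝ)).source := by
    intro q hq
    rw [OpenPartialHomeomorph.prod_source]
    exact ⟨hq, mem_univ _⟩
  have h1 : ∀ q : M.X × ℝ, q.1 ∈ c.source → SmAt (prodR M) (fun q => (c q.1, F q)) q := by
    intro q hq
    have h2 : SmAt M c q.1 := ⟨c, hc, hq, (M.compat c hc c hc q.1 hq hq).1⟩
    exact (smAt_prodR_fst h2 q.2).prodMk (hF q)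
  have h2 : ∀ᶠ q in 𝓝 p, q.1 ∈ c.source :=
    (continuous_fst.continuousAt (x := p)).eventually (c.open_source.mem_nhds hx)
  have h0 := (hF p).chart hD (hDs p hx)
  have hev : (fun q : M.X × ℝ => (c q.1, F q)) ∘ (c.prod (OpenPartialHomeomorph.refl ℝ)).symm
      =ᶠ[𝓝 (c.prod (OpenPartialHomeomorph.refl ℝ) p)]
      fun z => (z.1, (F ∘ (c.prod (OpenPartialHomeomorph.refl ℝ)).symm) z) := by
    filter_upwards [(c.prod (OpenPartialHomeomorph.refl ℝ)).open_target.mem_nhds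
      ((c.prod (OpenPartialHomeomorph.refl ℝ)).map_source (hDs p hx))] with z hz
    rw [OpenPartialHomeomorph.prod_target] at hz
    show (c (c.symm z.1), _) = _
    rw [c.right_inv hz.1]
    rfl
  have h3 : OPAt (prodR M) (euc (E5 × ℝ)) (fun q => (c q.1, F q)) p := by
    refine ⟨(h1 p hx).continuousAt, _, hD, OpenPartialHomeomorph.refl _, rfl, hDs p hx,
      mem_univ _, (h1 p hx).chart hD (hDs p hx), ?_⟩
    show 0 < (fderiv ℝ ((fun q : M.X × ℝ => (c q.1, F q)) ∘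
      (c.prod (OpenPartialHomeomorph.refl ℝ)).symm)
        (c.prod (OpenPartialHomeomorph.refl ℝ) p)).det
    rw [hev.fderiv_eq]
    have h4 : HasFDerivAt (fun z : E5 × ℝ =>
        (z.1, (F ∘ (c.prod (OpenPartialHomeomorph.refl ℝ)).symm) z))
        ((ContinuousLinearMap.fst ℝ E5 ℝ).prod
          (fderiv ℝ (F ∘ (c.prod (OpenPartialHomeomorph.refl ℝ)).symm)
            (c.prod (OpenPartialHomeomorph.refl ℝ) p)))
        (c.prod (OpenPartialHomeomorph.refl ℝ) p) :=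
      hasFDerivAt_fst.prodMk (h0.differentiableAt (by simp)).hasFDerivAt
    rw [h4.fderiv, det_block_fst _ (ContinuousLinearMap.id ℝ E5) (fun q => by simp)]
    have h5 : (ContinuousLinearMap.id ℝ E5).det = 1 := by
      show LinearMap.det (LinearMap.id : E5 →ₗ[ℝ] E5) = 1
      exact LinearMap.det_id
    rw [h5, mul_one]
    have h6 : HasDerivAt (fun h : ℝ => ((c p.1, h) : E5 × ℝ)) (0, 1) p.2 :=
      (hasDerivAt_const p.2 (c p.1)).prodMk (hasDerivAt_id p.2)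
    have h7 : HasFDerivAt (F ∘ (c.prod (OpenPartialHomeomorph.refl ℝ)).symm)
        (fderiv ℝ (F ∘ (c.prod (OpenPartialHomeomorph.refl ℝ)).symm)
            (c.prod (OpenPartialHomeomorph.refl ℝ) p)) ((c p.1, p.2) : E5 × ℝ) :=
      (h0.differentiableAt (by simp)).hasFDerivAt
    have h8 := h7.comp_hasDerivAt p.2 h6
    have h9 : (F ∘ (c.prod (OpenPartialHomeomorph.refl ℝ)).symm) ∘
        (fun h : ℝ => ((c p.1, h) : E5 × ℝ)) = fun h => F (p.1, h) := by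
      funext h
      show F (c.symm (c p.1), h) = F (p.1, h)
      rw [c.left_inv hx]
    rw [h9] at h8
    rw [h8.deriv] at hp
    exact hp
  obtain ⟨Θ, h5, h6, h7⟩ := hypA_mk M F p (fun q => (c q.1, F q))
    (h2.mono h1) h3 (fun q => rfl) h2
  refine ⟨Θ, h5, h6, fun q hq => ⟨(h7 q hq).1, ?_⟩⟩
  rw [(h7 q hq).2]

end Wu
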