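import Pool.Agent.Lib.MP_60079e_gt.NotA0

/-! `W` minus two points does not embed topologically in a regular `C¹` hypersurface of `ℝ⁶`. -/

open Set Metric Topology Matrix
open scoped ContDiff

namespace Wu

private theorem Kappa_isHermitian (x : E5) : (Xm x).IsHermitian := by
  ext i j
  fin_cases i <;> fin_cases j <;> simp [Xm, Matrix.conjTranspose_apply, -Complex.ofReal_neg,
    -Complex.ofReal_mul, -Complex.ofReal_sub, -Complex.ofReal_add, Complex.conj_ofReal]

private theorem Kappa_transpose (x : E5) : (Xm x)ᵀ = Xm x := by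
  ext i j
  fin_cases i <;> fin_cases j <;> simp [Xm]

private theorem Kappa_trace (x : E5) : (Xm x).trace = 0 := by
  simp [Xm, Matrix.trace, Fin.sum_univ_three]
  ring

private theorem Kappa_det (A : M3) (hA : A.IsHermitian) (h0 : A.trace = 0) :
    (NormedSpace.exp (Complex.I • A)).det = 1 := by
  have hs := hA.spectral_theorem
  set U := hA.eigenvectorUnitary with hU
  have h1 : (U : M3) * star (U : M3) = 1 := Unitary.mul_star_self_of_mem U.2
  have h2 : star (U : M3) * (U : M3) = 1 := Unitary.star_mul_self_of_mem U.2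
  have hinv : (U : M3)⁻¹ = star (U : M3) := Matrix.inv_eq_right_inv h1
  have hunit : IsUnit (U : M3) := ⟨⟨U, star (U : M3), h1, h2⟩, rfl⟩
  have h3 : Complex.I • A = (U : M3) * diagonal (fun i => Complex.I * (hA.eigenvalues i : ℂ)) *
      (U : M3)⁻¹ := by
    rw [hinv]
    conv_lhs => rw [hs]
    rw [Unitary.conjStarAlgAut_apply]
    have h4 : diagonal (fun i => Complex.I * (hA.eigenvalues i : ℂ)) =
      Complex.I • (diagonal (RCLike.ofReal ∘ hA.eigenvalues) : M3) := by
      rw [← Matrix.diagonal_smul]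
      rfl
    rw [h4, mul_smul_comm, smul_mul_assoc]
  have h5 : (U : M3).det * (U : M3)⁻¹.det = 1 := by
    rw [← Matrix.det_mul, hinv, h1, Matrix.det_one]
  rw [h3, Matrix.exp_conj _ _ hunit, Matrix.det_mul, Matrix.det_mul, mul_right_comm, h5, one_mul,
    Matrix.exp_diagonal, Matrix.det_diagonal]
  have h6 : ∑ i, (hA.eigenvalues i : ℂ) = 0 := by
    rw [← h0]
    exact hA.trace_eq_sum_eigenvalues.symm
  have h7 : ∀ i, NormedSpace.exp (fun i => Complex.I * (hA.eigenvalues i : ℂ)) i =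
      Complex.exp (Complex.I * (hA.eigenvalues i : ℂ)) := by
    intro i
    rw [Pi.coe_exp, Complex.exp_eq_exp_ℂ]
  simp only [h7]
  rw [← Complex.exp_sum, ← Finset.mul_sum, h6, mul_zero, Complex.exp_zero]

private theorem Kappa_star (A : M3) (hA : A.IsHermitian) :
    NormedSpace.exp (Complex.I • A) * (NormedSpace.exp (Complex.I • A))ᴴ = 1 := by
  rw [← Matrix.exp_conjTranspose, Matrix.conjTranspose_smul, hA.eq]
  have h : star Complex.I • A = -(Complex.I • A) := by
    simp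
  rw [h, Matrix.exp_neg]
  exact Matrix.mul_nonsing_inv _ ((Matrix.isUnit_iff_isUnit_det _).mp (Matrix.isUnit_exp _))

private theorem Kappa_mem (x : E5) : NormedSpace.exp (Complex.I • Xm x) ∈ SU3 ∧
    (NormedSpace.exp (Complex.I • Xm x))ᵀ = NormedSpace.exp (Complex.I • Xm x) := by
  refine ⟨?_, ?_⟩
  · rw [Matrix.mem_specialUnitaryGroup_iff]
    refine ⟨?_, Kappa_det _ (Kappa_isHermitian x) (Kappa_trace x)⟩
    rw [Matrix.mem_unitaryGroup_iff]
    exact Kappa_star _ (Kappa_isHermitian x)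
  · rw [← Matrix.exp_transpose, Matrix.transpose_smul, Kappa_transpose]

private theorem Kappa_rot (ϑ : ℝ) (x y : E5)
    (h0 : y 0 = Real.cos (2 * ϑ) * x 0 - Real.sin (2 * ϑ) * x 1)
    (h1 : y 1 = Real.sin (2 * ϑ) * x 0 + Real.cos (2 * ϑ) * x 1)
    (h2 : y 2 = Real.cos ϑ * x 2 - Real.sin ϑ * x 3)
    (h3 : y 3 = Real.sin ϑ * x 2 + Real.cos ϑ * x 3) (h4 : y 4 = x 4) :
    Xm y = Rot ϑ * Xm x * (Rot ϑ)ᵀ := by
  have hcs : (Real.sin ϑ : ℂ) ^ 2 + (Real.cos ϑ : ℂ) ^ 2 = 1 := by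
    exact_mod_cast Real.sin_sq_add_cos_sq ϑ
  rw [Real.cos_two_mul, Real.sin_two_mul] at h0 h1
  have e0 : (y 0 : ℂ) = (2 * (Real.cos ϑ : ℂ) ^ 2 - 1) * x 0 -
      2 * (Real.sin ϑ : ℂ) * (Real.cos ϑ : ℂ) * x 1 := by
    rw [h0]; simp only [Complex.ofReal_sub, Complex.ofReal_mul, Complex.ofReal_pow,
      Complex.ofReal_one, Complex.ofReal_ofNat]
  have e1 : (y 1 : ℂ) = 2 * (Real.sin ϑ : ℂ) * (Real.cos ϑ : ℂ) * x 0 +
      (2 * (Real.cos ϑ : ℂ) ^ 2 - 1) * x 1 := by
    rw [h1]; simp only [Complex.ofReal_sub, Complex.ofReal_add, Complex.ofReal_mul,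
      Complex.ofReal_pow, Complex.ofReal_one, Complex.ofReal_ofNat]
  have e2 : (y 2 : ℂ) = (Real.cos ϑ : ℂ) * x 2 - (Real.sin ϑ : ℂ) * x 3 := by
    rw [h2]; simp only [Complex.ofReal_sub, Complex.ofReal_mul]
  have e3 : (y 3 : ℂ) = (Real.sin ϑ : ℂ) * x 2 + (Real.cos ϑ : ℂ) * x 3 := by
    rw [h3]; simp only [Complex.ofReal_add, Complex.ofReal_mul]
  have e4 : (y 4 : ℂ) = (x 4 : ℂ) := by rw [h4]
  ext i j
  fin_cases i <;> fin_cases j <;>
    simp only [Fin.zero_eta, Fin.mk_one, Fin.reduceFinMk, Xm, Rot, Matrix.mul_apply,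
      Fin.sum_univ_three, Matrix.of_apply, Matrix.cons_val', Matrix.cons_val_zero,
      Matrix.cons_val_one, Matrix.cons_val, Matrix.cons_val_fin_one, Matrix.transpose_apply,
      Complex.ofReal_add, Complex.ofReal_sub, Complex.ofReal_mul, Complex.ofReal_neg,
      Complex.ofReal_ofNat, e0, e1, e2, e3, e4]
  · linear_combination ((x 0 : ℂ) - x 4) * hcs
  · linear_combination (x 1 : ℂ) * hcs
  · ring
  · linear_combination (x 1 : ℂ) * hcs
  · linear_combination -((x 0 : ℂ) + x 4) * hcs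
  · ring
  · ring
  · ring
  · ring

private theorem Kappa_RotT (ϑ : ℝ) : Rot ϑ * (Rot ϑ)ᵀ = 1 := by
  have hcs : Real.sin ϑ ^ 2 + Real.cos ϑ ^ 2 = 1 := Real.sin_sq_add_cos_sq ϑ
  have hcs' : (Real.sin ϑ : ℂ) ^ 2 + (Real.cos ϑ : ℂ) ^ 2 = 1 := by exact_mod_cast hcs
  ext i j
  fin_cases i <;> fin_cases j <;>
    simp only [Fin.zero_eta, Fin.mk_one, Fin.reduceFinMk, Rot, Matrix.mul_apply,
      Fin.sum_univ_three, Matrix.of_apply, Matrix.cons_val', Matrix.cons_val_zero,
      Matrix.cons_val_one, Matrix.cons_val, Matrix.cons_val_fin_one, Matrix.transpose_apply,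
      Matrix.one_apply_eq, ne_eq, Fin.reduceEq, not_false_eq_true, zero_ne_one, one_ne_zero,
      Matrix.one_apply_ne]
  · linear_combination hcs'
  · ring
  · ring
  · ring
  · linear_combination hcs'
  · ring
  · ring
  · ring
  · ring

/-- An equivariant parametrisation of `W` near `1`. -/
theorem exists_kappa : ∃ κ : E5 → WX, Continuous κ ∧ (κ 0).1 = 1 ∧
    (∃ ε : ℝ, 0 < ε ∧ InjOn κ (closedBall 0 ε)) ∧
    ∀ (ϑ : ℝ) (x y : E5), y 0 = Real.cos (2 * ϑ) * x 0 - Real.sin (2 * ϑ) * x 1 →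
      y 1 = Real.sin (2 * ϑ) * x 0 + Real.cos (2 * ϑ) * x 1 →
      y 2 = Real.cos ϑ * x 2 - Real.sin ϑ * x 3 →
      y 3 = Real.sin ϑ * x 2 + Real.cos ϑ * x 3 → y 4 = x 4 →
      (κ y).1 = tr (Rot ϑ) (κ x).1 := by
  have hXc : Continuous Xm := by
    apply continuous_matrix
    intro i j
    fin_cases i <;> fin_cases j <;> simp [Xm] <;> fun_prop
  have hexp : Continuous (NormedSpace.exp : M3 → M3) := by
    let _ : NormedRing M3 := Matrix.linftyOpNormedRing
    let _ : NormedAlgebra ℂ M3 := Matrix.linftyOpNormedAlgebra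
    let _ : NormedAlgebra ℚ M3 := NormedAlgebra.restrictScalars ℚ ℂ M3
    exact NormedSpace.exp_continuous
  refine ⟨fun x => ⟨NormedSpace.exp (Complex.I • Xm x), Kappa_mem x⟩, ?_, ?_, ?_, ?_⟩
  · exact Continuous.subtype_mk (hexp.comp (Continuous.const_smul hXc Complex.I)) _
  · have h : Xm 0 = 0 := by
      ext i j
      fin_cases i <;> fin_cases j <;> simp [Xm]
    simp only [h, smul_zero, NormedSpace.exp_zero]
  · let _ : NormedRing M3 := Matrix.linftyOpNormedRing
    let _ : NormedAlgebra ℂ M3 := Matrix.linftyOpNormedAlgebra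
    have hstrict : HasStrictFDerivAt (NormedSpace.exp : M3 → M3)
        ((ContinuousLinearEquiv.refl ℂ M3 : M3 ≃L[ℂ] M3) : M3 →L[ℂ] M3) 0 :=
      hasStrictFDerivAt_exp_zero
    set e := hstrict.toOpenPartialHomeomorph with he
    have hsrc : (0 : M3) ∈ e.source := hstrict.mem_toOpenPartialHomeomorph_source
    have hc0 : Filter.Tendsto (fun x : E5 => Complex.I • Xm x) (𝓝 0) (𝓝 0) := by
      have h' : Complex.I • Xm 0 = 0 := by
        ext i j
        fin_cases i <;> fin_cases j <;> simp [Xm]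
      have h : Filter.Tendsto (fun x : E5 => Complex.I • Xm x) (𝓝 0) (𝓝 (Complex.I • Xm 0)) :=
        (Continuous.const_smul hXc Complex.I).tendsto (0 : E5)
      rw [h'] at h
      exact h
    have hev : ∀ᶠ x : E5 in 𝓝 0, Complex.I • Xm x ∈ e.source :=
      hc0.eventually (e.open_source.mem_nhds hsrc)
    obtain ⟨ε, hε, hball⟩ := Metric.nhds_basis_closedBall.eventually_iff.mp hev
    refine ⟨ε, hε, ?_⟩
    intro x hx y hy hxy
    have h1 : NormedSpace.exp (Complex.I • Xm x) = NormedSpace.exp (Complex.I • Xm y) :=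
      congrArg Subtype.val hxy
    have h2 : Complex.I • Xm x = Complex.I • Xm y := e.injOn (hball hx) (hball hy) h1
    have h3 : Xm x = Xm y := smul_right_injective _ Complex.I_ne_zero h2
    have g0 := congrFun (congrFun h3 0) 0
    have g1 := congrFun (congrFun h3 0) 1
    have g2 := congrFun (congrFun h3 0) 2
    have g3 := congrFun (congrFun h3 1) 2
    have g4 := congrFun (congrFun h3 2) 2
    simp only [Xm, Matrix.of_apply, Matrix.cons_val', Matrix.cons_val_zero, Matrix.cons_val_one,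
      Matrix.cons_val, Complex.ofReal_inj] at g0 g1 g2 g3 g4
    ext i
    fin_cases i
    · simp only [Fin.zero_eta]; linarith
    · simp only [Fin.mk_one]; linarith
    · simpa using g2
    · simpa using g3
    · have : x 4 = y 4 := by linarith
      simpa using this
  · intro ϑ x y h0 h1 h2 h3 h4
    have hT : (Rot ϑ)⁻¹ = (Rot ϑ)ᵀ := Matrix.inv_eq_right_inv (Kappa_RotT ϑ)
    have hU : IsUnit (Rot ϑ) := by
      rw [Matrix.isUnit_iff_isUnit_det]
      exact Matrix.isUnit_det_of_right_inverse (Kappa_RotT ϑ)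
    show NormedSpace.exp (Complex.I • Xm y) = Rot ϑ * NormedSpace.exp (Complex.I • Xm x) * (Rot ϑ)ᵀ
    rw [Kappa_rot ϑ x y h0 h1 h2 h3 h4, ← hT, ← Matrix.exp_conj _ _ hU, mul_smul_comm,
      smul_mul_assoc]

end Wu
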