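import Pool.Agent.Lib.MP_60079e_gt.LiftS

/-! Lifting maps from `W \ {m}` through coverings. -/

open Set Metric Topology Matrix
open scoped ContDiff

namespace Wu

/-- the parameter space of `fW` -/
abbrev LiftAK : Type := {p : C2 × ℂ // ‖p.1‖ = 1 ∧ ‖p.2‖ ≤ 1}

/-- `fW` as a map to `W` -/
noncomputable def liftAf (p : LiftAK) : WX := ⟨fW p.1.1 p.1.2, fW_mem _ _ p.2.1 p.2.2⟩

theorem liftAf_continuous : Continuous liftAf :=
  Continuous.subtype_mk (continuous_fW.comp continuous_subtype_val) _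

theorem liftAf_surjective : Function.Surjective liftAf := by
  intro S
  obtain ⟨y, w, hy, hw, h⟩ := fW_surj S.1 S.2.1 S.2.2
  exact ⟨⟨(y, w), hy, hw⟩, Subtype.ext h⟩

theorem liftAK_compact : CompactSpace LiftAK := by
  have h : IsCompact {p : C2 × ℂ | ‖p.1‖ = 1 ∧ ‖p.2‖ ≤ 1} := by
    have : {p : C2 × ℂ | ‖p.1‖ = 1 ∧ ‖p.2‖ ≤ 1} = sphere (0 : C2) 1 ×ˢ closedBall (0 : ℂ) 1 := by
      ext p; simp
    rw [this]
    exact (isCompact_sphere _ _).prod (isCompact_closedBall _ _)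
  exact isCompact_iff_compactSpace.1 h

/-- Lifting on `W \ {m}` when `|m₂₂| = 1`. -/
theorem lift_cover_aux {X B : Type} [TopologicalSpace X] [TopologicalSpace B] (π : X → B)
    (cov : IsCoveringMap π) (hsurj : Function.Surjective π) (m : WX) (hm : ‖m.1 2 2‖ = 1)
    (Φ : WX → B) (hΦ : ContinuousOn Φ {m}ᶜ) :
    ∃ Φ' : WX → X, ContinuousOn Φ' {m}ᶜ ∧ ∀ x, x ≠ m → π (Φ' x) = Φ x := by
  have hcompact := liftAK_compact
  have h22 : ∀ p : LiftAK, (liftAf p).1 2 2 = p.1.2 := fun p => rfl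
  -- the base
  have hmem : ∀ y : C2, ‖y‖ = 1 → ‖y‖ = 1 ∧ ‖(0 : ℂ)‖ ≤ 1 := fun y hy => ⟨hy, by simp⟩
  classical
  let y0 : C2 := !₂[1, 0]
  have hy0 : ‖y0‖ = 1 := by rw [liftS_norm_C2]; simp [y0]
  let e : C2 → WX := fun y => if h : ‖y‖ = 1 then liftAf ⟨(y, 0), hmem y h⟩ else m
  have he : ∀ y (h : ‖y‖ = 1), e y = liftAf ⟨(y, 0), hmem y h⟩ := fun y h => dif_pos h
  have hec : ContinuousOn e {y | ‖y‖ = 1} := by
    rw [continuousOn_iff_continuous_domRestrict]
    have h1 : Continuous (fun y : {y : C2 | ‖y‖ = 1} => liftAf ⟨((y : C2), 0), hmem y y.2⟩) :=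
      liftAf_continuous.comp (Continuous.subtype_mk (by fun_prop) _)
    convert h1 using 1
    funext y
    simp only [Set.domRestrict_apply]
    exact he y y.2
  have hem : ∀ y, ‖y‖ = 1 → e y ≠ m := by
    intro y hy h
    rw [he y hy] at h
    have : ‖(liftAf ⟨(y, 0), hmem y hy⟩).1 2 2‖ = 1 := by rw [h]; exact hm
    rw [h22] at this
    simp at this
  have hfc : ContinuousOn (fun y => Φ (e y)) {y | ‖y‖ = 1} :=
    hΦ.comp hec (fun y hy => hem y hy)
  obtain ⟨x0, hx0⟩ := hsurj (Φ (e y0))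
  obtain ⟨g0, hg0c, hg0⟩ := lift_sphere π cov (fun y => Φ (e y)) hfc y0 hy0 x0 hx0
  -- the homotopy
  let Y : Set LiftAK := liftAf ⁻¹' {m}ᶜ
  have hsc : ∀ (r : unitInterval) (p : LiftAK), ‖(p.1.1)‖ = 1 ∧ ‖((r : ℝ) : ℂ) * p.1.2‖ ≤ 1 := by
    intro r p
    refine ⟨p.2.1, ?_⟩
    rw [norm_mul, Complex.norm_real, Real.norm_eq_abs, abs_of_nonneg r.2.1]
    exact mul_le_one₀ r.2.2 (norm_nonneg _) p.2.2
  let sc : unitInterval × LiftAK → LiftAK := fun q => ⟨(q.2.1.1, ((q.1 : ℝ) : ℂ) * q.2.1.2), hsc q.1 q.2⟩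
  have hscc : Continuous sc := by
    apply Continuous.subtype_mk
    fun_prop
  have hne : ∀ (r : unitInterval) (p : Y), liftAf (sc (r, p.1)) ≠ m := by
    intro r p h
    have h1 : ‖(liftAf (sc (r, p.1))).1 2 2‖ = 1 := by rw [h]; exact hm
    rw [h22] at h1
    have h2 : ‖((r : ℝ) : ℂ) * p.1.1.2‖ = 1 := h1
    rw [norm_mul, Complex.norm_real, Real.norm_eq_abs, abs_of_nonneg r.2.1] at h2
    have h3 : (r : ℝ) = 1 := by
      have := r.2.2
      have := p.1.2.2
      have := norm_nonneg p.1.1.2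
      nlinarith [r.2.1]
    have h4 : sc (r, p.1) = p.1 := by
      apply Subtype.ext
      apply Prod.ext
      · rfl
      · show ((r : ℝ) : ℂ) * p.1.1.2 = p.1.1.2
        rw [h3]; simp
    rw [h4] at h
    exact p.2 h
  have hHc : Continuous (fun q : unitInterval × Y => Φ (liftAf (sc (q.1, q.2.1)))) := by
    refine hΦ.comp_continuous ?_ (fun q => hne q.1 q.2)
    exact liftAf_continuous.comp (hscc.comp (by fun_prop))
  let H : C(unitInterval × Y, B) := ⟨_, hHc⟩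
  have hf0c : Continuous (fun p : Y => g0 p.1.1.1) :=
    hg0c.comp_continuous (by fun_prop) (fun p => p.1.2.1)
  let f0 : C(Y, X) := ⟨_, hf0c⟩
  have hH0 : ∀ a : Y, H (0, a) = π (f0 a) := by
    intro a
    show Φ (liftAf (sc (0, a.1))) = π (g0 a.1.1.1)
    rw [hg0 _ a.1.2.1]
    show Φ (liftAf (sc (0, a.1))) = Φ (e a.1.1.1)
    rw [he _ a.1.2.1]
    congr 2
    apply Subtype.ext
    apply Prod.ext
    · rfl
    · show (((0 : unitInterval) : ℝ) : ℂ) * a.1.1.2 = 0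
      simp
  let L := cov.liftHomotopy H f0 hH0
  have hL : ∀ p, π (L p) = Φ (liftAf (sc (p.1, p.2.1))) := fun p =>
    congrFun (cov.liftHomotopy_lifts H f0 hH0) p
  have hL1 : ∀ p : Y, π (L (1, p)) = Φ (liftAf p.1) := by
    intro p
    rw [hL]
    congr 2
    apply Subtype.ext
    apply Prod.ext
    · rfl
    · show (((1 : unitInterval) : ℝ) : ℂ) * p.1.1.2 = p.1.1.2
      simp
  have hfib : ∀ p p' : Y, liftAf p.1 = liftAf p'.1 → L (1, p) = L (1, p') := by
    intro p p' h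
    set S := liftAf p.1 with hS
    have hSm : S ≠ m := p.2
    have hpre := fW_fibre S.1 S.2.1 S.2.2
    let F : Set (C2 × ℂ) := {p : C2 × ℂ | ‖p.1‖ = 1 ∧ ‖p.2‖ ≤ 1 ∧ fW p.1 p.2 = S.1}
    have : PreconnectedSpace F := Subtype.preconnectedSpace hpre
    have hj : ∀ q : F, liftAf ⟨q.1, q.2.1, q.2.2.1⟩ = S := fun q => Subtype.ext q.2.2.2
    let j : F → Y := fun q => ⟨⟨q.1, q.2.1, q.2.2.1⟩, by
      show liftAf ⟨q.1, q.2.1, q.2.2.1⟩ ≠ m
      rw [hj q]; exact hSm⟩
    have hjc : Continuous j := by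
      apply Continuous.subtype_mk
      apply Continuous.subtype_mk
      exact continuous_subtype_val
    have hc := cov.const_of_comp (g := fun q : F => L (1, j q)) (L.continuous.comp (by fun_prop))
      (fun a a' => by
        rw [hL1, hL1]
        show Φ (liftAf ⟨a.1, a.2.1, a.2.2.1⟩) = Φ (liftAf ⟨a'.1, a'.2.1, a'.2.2.1⟩)
        rw [hj, hj])
    have e1 : p.1.1 ∈ F := ⟨p.1.2.1, p.1.2.2, rfl⟩
    have e2 : p'.1.1 ∈ F := ⟨p'.1.2.1, p'.1.2.2, by
      show (liftAf p'.1).1 = S.1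
      rw [← h]⟩
    exact hc ⟨p.1.1, e1⟩ ⟨p'.1.1, e2⟩
  -- descend
  let q : Y → ({m}ᶜ : Set WX) := ({m}ᶜ : Set WX).restrictPreimage liftAf
  have hqc : Continuous q := liftAf_continuous.restrictPreimage
  have hqs : Function.Surjective q := Set.restrictPreimage_surjective _ liftAf_surjective
  have hqcl : IsClosedMap q := (liftAf_continuous.isClosedMap).restrictPreimage _
  have hqq : IsQuotientMap q := hqcl.isQuotientMap hqc hqs
  let g2 : ({m}ᶜ : Set WX) → X := fun S => L (1, Function.surjInv hqs S)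
  have hg2 : g2 ∘ q = fun p => L (1, p) := by
    funext p
    apply hfib
    exact congrArg Subtype.val (Function.surjInv_eq hqs (q p))
  have hg2c : Continuous g2 := by
    rw [hqq.continuous_iff, hg2]
    exact L.continuous.comp (by fun_prop)
  refine ⟨fun S => if h : S ≠ m then g2 ⟨S, h⟩ else x0, ?_, ?_⟩
  · rw [continuousOn_iff_continuous_domRestrict]
    convert hg2c using 1
    funext S
    simp only [Set.domRestrict_apply]
    exact dif_pos (show S.1 ≠ m from S.2)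
  · intro S hS
    simp only [dif_pos hS]
    show π (L (1, Function.surjInv hqs ⟨S, hS⟩)) = Φ S
    rw [hL1]
    congr 1
    exact congrArg Subtype.val (Function.surjInv_eq hqs ⟨S, hS⟩)

theorem lift_cover {X B : Type} [TopologicalSpace X] [TopologicalSpace B] (π : X → B)
    (cov : IsCoveringMap π) (hsurj : Function.Surjective π) (m : WX)
    (Φ : WX → B) (hΦ : ContinuousOn Φ {m}ᶜ) :
    ∃ Φ' : WX → X, ContinuousOn Φ' {m}ᶜ ∧ ∀ x, x ≠ m → π (Φ' x) = Φ x := by
  obtain ⟨C, hC, hCm⟩ := takagi m.1 m.2.1 m.2.2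
  have hcont : ∀ (g : M3) (hg : g ∈ SU3), Continuous (trW g hg) := by
    intro g hg
    apply Continuous.subtype_mk
    show Continuous (fun S : WX => g * S.1 * gᵀ)
    exact (continuous_const.mul continuous_subtype_val).mul continuous_const
  let one : WX := ⟨1, one_mem _, Matrix.transpose_one⟩
  have h1 : trW C hC one = m := by
    apply Subtype.ext
    show C * 1 * Cᵀ = m.1
    rw [Matrix.mul_one, hCm]
  have h2 : ∀ S, trW C hC (trW Cᴴ (ct_mem hC) S) = S := fun S => Subtype.ext (tr_tr_ct hC S.1)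
  have h3 : ∀ S, trW Cᴴ (ct_mem hC) (trW C hC S) = S := fun S => Subtype.ext (tr_ct_tr hC S.1)
  have hone : ‖one.1 2 2‖ = 1 := by simp [one]
  have hΦ1 : ContinuousOn (fun S => Φ (trW C hC S)) {one}ᶜ := by
    refine hΦ.comp (hcont C hC).continuousOn ?_
    intro S hS h
    apply hS
    have h' : trW C hC S = m := h
    have : trW Cᴴ (ct_mem hC) (trW C hC S) = trW Cᴴ (ct_mem hC) (trW C hC one) := by rw [h', h1]
    rw [h3, h3] at this
    exact this
  obtain ⟨Ψ, hΨc, hΨ⟩ := lift_cover_aux π cov hsurj one hone _ hΦ1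
  have hne : ∀ S, S ≠ m → trW Cᴴ (ct_mem hC) S ≠ one := by
    intro S hS h
    apply hS
    rw [← h2 S, h, h1]
  refine ⟨fun S => Ψ (trW Cᴴ (ct_mem hC) S), ?_, ?_⟩
  · exact hΨc.comp (hcont _ _).continuousOn (fun S hS => hne S hS)
  · intro S hS
    rw [hΨ _ (hne S hS)]
    show Φ (trW C hC (trW Cᴴ (ct_mem hC) S)) = Φ S
    rw [h2]

end Wu
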