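import Pool.Agent.Lib.MP_60079e_gt.WGb
import Pool.Agent.Lib.MP_60079e_gt.WF

/-! Lifting maps from `W \ {m}` through coverings. -/

open Set Metric Topology Matrix
open scoped ContDiff

namespace Wu

/-- three dimensional space -/
abbrev LiftSE3 : Type := EuclideanSpace ℝ (Fin 3)

/-- the unit sphere -/
abbrev LiftSS2 : Type := {u : LiftSE3 // ‖u‖ = 1}

/-- suspension coordinates on `S³` -/
noncomputable def liftSQ (t : ℝ) (u : LiftSE3) : C2 :=
  !₂[(⟨Real.cos (Real.pi * t), Real.sin (Real.pi * t) * u 0⟩ : ℂ),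
    (⟨Real.sin (Real.pi * t) * u 1, Real.sin (Real.pi * t) * u 2⟩ : ℂ)]

theorem liftSQ_continuous : Continuous (fun p : ℝ × LiftSE3 => liftSQ p.1 p.2) := by
  unfold liftSQ
  have hmk : Continuous (fun p : ℝ × ℝ => (⟨p.1, p.2⟩ : ℂ)) := by
    have : (fun p : ℝ × ℝ => (⟨p.1, p.2⟩ : ℂ)) = fun p : ℝ × ℝ => Complex.equivRealProdCLM.symm p := by
      funext p; rfl
    rw [this]; exact Complex.equivRealProdCLM.symm.continuous
  have h1 : Continuous (fun p : ℝ × LiftSE3 =>
      (⟨Real.cos (Real.pi * p.1), Real.sin (Real.pi * p.1) * p.2 0⟩ : ℂ)) := by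
    refine hmk.comp (f := fun p : ℝ × LiftSE3 =>
      (Real.cos (Real.pi * p.1), Real.sin (Real.pi * p.1) * p.2 0)) ?_
    fun_prop
  have h2 : Continuous (fun p : ℝ × LiftSE3 =>
      (⟨Real.sin (Real.pi * p.1) * p.2 1, Real.sin (Real.pi * p.1) * p.2 2⟩ : ℂ)) := by
    refine hmk.comp (f := fun p : ℝ × LiftSE3 =>
      (Real.sin (Real.pi * p.1) * p.2 1, Real.sin (Real.pi * p.1) * p.2 2)) ?_
    fun_prop
  refine (PiLp.continuous_toLp 2 _).comp ?_
  refine continuous_pi ?_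
  intro i
  fin_cases i
  · exact h1
  · exact h2

theorem liftS_norm_C2 (y : C2) : ‖y‖ = 1 ↔
    (y 0).re ^ 2 + (y 0).im ^ 2 + (y 1).re ^ 2 + (y 1).im ^ 2 = 1 := by
  have h : ‖y‖ ^ 2 = (y 0).re ^ 2 + (y 0).im ^ 2 + (y 1).re ^ 2 + (y 1).im ^ 2 := by
    rw [EuclideanSpace.norm_sq_eq]
    simp only [Fin.sum_univ_two, ← Complex.normSq_eq_norm_sq, Complex.normSq_apply]
    ring
  constructor
  · intro h1
    rw [← h, h1]; norm_num
  · intro h1
    rw [← h] at h1
    have h2 : 0 ≤ ‖y‖ := norm_nonneg y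
    nlinarith

theorem liftS_norm_E3 (u : LiftSE3) : ‖u‖ = 1 ↔ u 0 ^ 2 + u 1 ^ 2 + u 2 ^ 2 = 1 := by
  have h : ‖u‖ ^ 2 = u 0 ^ 2 + u 1 ^ 2 + u 2 ^ 2 := by
    rw [EuclideanSpace.norm_sq_eq]
    simp only [Fin.sum_univ_three, Real.norm_eq_abs, sq_abs]
  constructor
  · intro h1
    rw [← h, h1]; norm_num
  · intro h1
    rw [← h] at h1
    have h2 : 0 ≤ ‖u‖ := norm_nonneg u
    nlinarith

theorem liftSQ_norm (t : ℝ) (u : LiftSE3) (hu : ‖u‖ = 1) : ‖liftSQ t u‖ = 1 := by
  rw [liftS_norm_C2]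
  rw [liftS_norm_E3] at hu
  simp only [liftSQ, PiLp.toLp_apply, Matrix.cons_val_zero, Matrix.cons_val_one]
  have h := Real.sin_sq_add_cos_sq (Real.pi * t)
  linear_combination h + Real.sin (Real.pi * t) ^ 2 * hu

theorem liftSQ_surj (y : C2) (hy : ‖y‖ = 1) :
    ∃ t ∈ Icc (0 : ℝ) 1, ∃ u : LiftSE3, ‖u‖ = 1 ∧ liftSQ t u = y := by
  rw [liftS_norm_C2] at hy
  have hpi := Real.pi_pos
  set c := (y 0).re with hc
  have hc1 : c ^ 2 ≤ 1 := by nlinarith [sq_nonneg (y 0).im, sq_nonneg (y 1).re, sq_nonneg (y 1).im]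
  have hc2 : -1 ≤ c ∧ c ≤ 1 := abs_le.1 (by rw [← sq_le_one_iff_abs_le_one]; exact hc1)
  have ht : Real.pi * (Real.arccos c / Real.pi) = Real.arccos c := by field_simp
  have hcos : Real.cos (Real.pi * (Real.arccos c / Real.pi)) = c := by
    rw [ht]; exact Real.cos_arccos hc2.1 hc2.2
  have hsin : Real.sin (Real.pi * (Real.arccos c / Real.pi)) = Real.sqrt (1 - c ^ 2) := by
    rw [ht]; exact Real.sin_arccos c
  refine ⟨Real.arccos c / Real.pi, ⟨div_nonneg (Real.arccos_nonneg c) hpi.le, ?_⟩, ?_⟩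
  · rw [div_le_one hpi]; exact Real.arccos_le_pi c
  have hext : ∀ z w : C2, (z 0).re = (w 0).re → (z 0).im = (w 0).im → (z 1).re = (w 1).re →
      (z 1).im = (w 1).im → z = w := by
    intro z w h1 h2 h3 h4
    ext i
    fin_cases i
    · exact Complex.ext h1 h2
    · exact Complex.ext h3 h4
  by_cases hs : 1 - c ^ 2 = 0
  · have h0 : Real.sqrt (1 - c ^ 2) = 0 := by rw [hs]; exact Real.sqrt_zero
    have h1 : (y 0).im = 0 := by nlinarith [sq_nonneg (y 0).im, sq_nonneg (y 1).re, sq_nonneg (y 1).im]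
    have h2 : (y 1).re = 0 := by nlinarith [sq_nonneg (y 0).im, sq_nonneg (y 1).re, sq_nonneg (y 1).im]
    have h3 : (y 1).im = 0 := by nlinarith [sq_nonneg (y 0).im, sq_nonneg (y 1).re, sq_nonneg (y 1).im]
    refine ⟨!₂[1, 0, 0], ?_, ?_⟩
    · rw [liftS_norm_E3]; simp
    · apply hext
      · simp only [liftSQ, PiLp.toLp_apply, Matrix.cons_val_zero]; rw [hcos]
      · simp only [liftSQ, PiLp.toLp_apply, Matrix.cons_val_zero]; rw [hsin, h0, h1]; ring
      · simp only [liftSQ, PiLp.toLp_apply, Matrix.cons_val_one, Matrix.cons_val_zero]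
        rw [hsin, h0, h2]; ring
      · simp only [liftSQ, PiLp.toLp_apply, Matrix.cons_val_one, Matrix.cons_val_zero]
        rw [hsin, h0, h3]; ring
  · have hpos : 0 < 1 - c ^ 2 := lt_of_le_of_ne (by linarith) (Ne.symm hs)
    have hsp : 0 < Real.sqrt (1 - c ^ 2) := Real.sqrt_pos.2 hpos
    have hsq : Real.sqrt (1 - c ^ 2) ^ 2 = 1 - c ^ 2 := Real.sq_sqrt hpos.le
    set s := Real.sqrt (1 - c ^ 2) with hsdef
    have hne : s ≠ 0 := hsp.ne'
    refine ⟨!₂[(y 0).im / s, (y 1).re / s, (y 1).im / s], ?_, ?_⟩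
    · rw [liftS_norm_E3]
      have e0 : (!₂[(y 0).im / s, (y 1).re / s, (y 1).im / s] : LiftSE3) 0 = (y 0).im / s := rfl
      have e1 : (!₂[(y 0).im / s, (y 1).re / s, (y 1).im / s] : LiftSE3) 1 = (y 1).re / s := rfl
      have e2 : (!₂[(y 0).im / s, (y 1).re / s, (y 1).im / s] : LiftSE3) 2 = (y 1).im / s := rfl
      rw [e0, e1, e2, div_pow, div_pow, div_pow, ← add_div, ← add_div, hsq, div_eq_one_iff_eq hs]
      linarith
    · apply hext
      · simp only [liftSQ, PiLp.toLp_apply, Matrix.cons_val_zero]; rw [hcos]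
      · show Real.sin _ * ((y 0).im / s) = _
        rw [hsin]; field_simp
      · show Real.sin _ * ((y 1).re / s) = _
        rw [hsin]; field_simp
      · show Real.sin _ * ((y 1).im / s) = _
        rw [hsin]; field_simp

theorem liftSQ_fibre (t t' : ℝ) (ht : t ∈ Icc (0 : ℝ) 1) (ht' : t' ∈ Icc (0 : ℝ) 1) (u u' : LiftSE3)
    (h : liftSQ t u = liftSQ t' u') : t = t' ∧ (t = 0 ∨ t = 1 ∨ u = u') := by
  have hpi := Real.pi_pos
  have h1 : Real.cos (Real.pi * t) = Real.cos (Real.pi * t') :=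
    congrArg (fun y : C2 => (y 0).re) h
  have h2 : Real.sin (Real.pi * t) * u 0 = Real.sin (Real.pi * t') * u' 0 :=
    congrArg (fun y : C2 => (y 0).im) h
  have h3 : Real.sin (Real.pi * t) * u 1 = Real.sin (Real.pi * t') * u' 1 :=
    congrArg (fun y : C2 => (y 1).re) h
  have h4 : Real.sin (Real.pi * t) * u 2 = Real.sin (Real.pi * t') * u' 2 :=
    congrArg (fun y : C2 => (y 1).im) h
  have m1 : Real.pi * t ∈ Icc 0 Real.pi := ⟨mul_nonneg hpi.le ht.1, by nlinarith [ht.2]⟩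
  have m2 : Real.pi * t' ∈ Icc 0 Real.pi := ⟨mul_nonneg hpi.le ht'.1, by nlinarith [ht'.2]⟩
  have h5 := Real.injOn_cos m1 m2 h1
  have h6 : t = t' := mul_left_cancel₀ hpi.ne' h5
  refine ⟨h6, ?_⟩
  subst h6
  by_cases a : t = 0
  · exact Or.inl a
  by_cases b : t = 1
  · exact Or.inr (Or.inl b)
  right; right
  have hs : Real.sin (Real.pi * t) ≠ 0 := by
    apply ne_of_gt
    apply Real.sin_pos_of_pos_of_lt_pi
    · exact mul_pos hpi (lt_of_le_of_ne ht.1 (Ne.symm a))
    · have : t < 1 := lt_of_le_of_ne ht.2 b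
      nlinarith
  ext i
  fin_cases i
  · exact mul_left_cancel₀ hs h2
  · exact mul_left_cancel₀ hs h3
  · exact mul_left_cancel₀ hs h4

/-- Maps from `S³` lift through coverings. -/
theorem lift_sphere {X B : Type} [TopologicalSpace X] [TopologicalSpace B] (π : X → B)
    (cov : IsCoveringMap π) (f : C2 → B) (hf : ContinuousOn f {y | ‖y‖ = 1}) (y0 : C2)
    (hy0 : ‖y0‖ = 1) (x0 : X) (hx0 : π x0 = f y0) :
    ∃ g : C2 → X, ContinuousOn g {y | ‖y‖ = 1} ∧ ∀ y, ‖y‖ = 1 → π (g y) = f y := by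
  -- a point over the pole
  let N : C2 := liftSQ 0 !₂[1, 0, 0]
  have hN : ‖N‖ = 1 := liftSQ_norm _ _ (by rw [liftS_norm_E3]; simp)
  obtain ⟨xN, hxN⟩ : ∃ xN : X, π xN = f N := by
    have hr : 1 < Module.rank ℝ C2 := by
      have h4 : Module.finrank ℝ C2 = 4 := by
        have h5 := Module.finrank_mul_finrank ℝ ℂ C2
        rw [Complex.finrank_real_complex, finrank_euclideanSpace_fin] at h5
        omega
      rw [← Module.finrank_eq_rank, h4]
      norm_num
    have hpc := isPathConnected_sphere hr (0 : C2) (r := 1) zero_le_one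
    obtain ⟨γ, hγ⟩ := hpc.joinedIn y0 (by simpa using hy0) N (by simpa using hN)
    have hγc : Continuous (fun t => f (γ t)) := hf.comp_continuous γ.continuous
      (fun t => by simpa using hγ t)
    let γ' : C(unitInterval, B) := ⟨fun t => f (γ t), hγc⟩
    have h0 : γ' 0 = π x0 := by
      show f (γ 0) = π x0
      rw [γ.source, hx0]
    refine ⟨cov.liftPath γ' x0 h0 1, ?_⟩
    have := congrFun (cov.liftPath_lifts γ' x0 h0) 1
    simp only [Function.comp_apply] at this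
    rw [this]
    show f (γ 1) = f N
    rw [γ.target]
  -- the unit sphere of `ℝ³`
  
  have hS2 : {u : LiftSE3 | ‖u‖ = 1} = sphere (0 : LiftSE3) 1 := by ext u; simp
  have hcS : IsCompact {u : LiftSE3 | ‖u‖ = 1} := by rw [hS2]; exact isCompact_sphere _ _
  have : CompactSpace LiftSS2 := isCompact_iff_compactSpace.1 hcS
  have hpS : IsPreconnected {u : LiftSE3 | ‖u‖ = 1} := by
    rw [hS2]
    refine isPreconnected_sphere ?_ _ _
    rw [← Module.finrank_eq_rank, finrank_euclideanSpace_fin]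
    norm_num
  have : PreconnectedSpace LiftSS2 := Subtype.preconnectedSpace hpS
  let S3 := {y : C2 // ‖y‖ = 1}
  let Q : unitInterval × LiftSS2 → S3 := fun p => ⟨liftSQ p.1 p.2.1, liftSQ_norm _ _ p.2.2⟩
  have hQc : Continuous Q := by
    apply Continuous.subtype_mk
    exact liftSQ_continuous.comp (f := fun p : unitInterval × LiftSS2 => ((p.1 : ℝ), p.2.1)) (by fun_prop)
  have hQs : Function.Surjective Q := by
    intro y
    obtain ⟨t, ht, u, hu, h⟩ := liftSQ_surj y.1 y.2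
    exact ⟨(⟨t, ht⟩, ⟨u, hu⟩), Subtype.ext h⟩
  have hQq : IsQuotientMap Q := hQc.isClosedMap.isQuotientMap hQc hQs
  have hH : Continuous (fun p : unitInterval × LiftSS2 => f (Q p).1) :=
    hf.comp_continuous (continuous_subtype_val.comp hQc) (fun p => (Q p).2)
  let H : C(unitInterval × LiftSS2, B) := ⟨fun p => f (Q p).1, hH⟩
  have hQ0 : ∀ a : LiftSS2, (Q (0, a)).1 = N := by
    intro a
    show liftSQ ((0 : unitInterval) : ℝ) a.1 = liftSQ 0 !₂[1, 0, 0]
    simp [liftSQ]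
  have hH0 : ∀ a : LiftSS2, H (0, a) = π ((ContinuousMap.const LiftSS2 xN) a) := by
    intro a
    show f (Q (0, a)).1 = π xN
    rw [hQ0 a, hxN]
  let L := cov.liftHomotopy H (ContinuousMap.const LiftSS2 xN) hH0
  have hL : ∀ p, π (L p) = f (Q p).1 := fun p =>
    congrFun (cov.liftHomotopy_lifts H (ContinuousMap.const LiftSS2 xN) hH0) p
  have hL0 : ∀ a a' : LiftSS2, L (0, a) = L (0, a') := by
    intro a a'
    rw [show L (0, a) = xN from cov.liftHomotopy_zero H (ContinuousMap.const LiftSS2 xN) hH0 a,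
      show L (0, a') = xN from cov.liftHomotopy_zero H (ContinuousMap.const LiftSS2 xN) hH0 a']
  have hL1 : ∀ a a' : LiftSS2, L (1, a) = L (1, a') := by
    intro a a'
    refine cov.const_of_comp (g := fun a : LiftSS2 => L (1, a)) (by fun_prop) ?_ a a'
    intro b b'
    rw [hL, hL]
    congr 1
    show liftSQ ((1 : unitInterval) : ℝ) b.1 = liftSQ ((1 : unitInterval) : ℝ) b'.1
    simp [liftSQ]
  have hfib : ∀ p p', Q p = Q p' → L p = L p' := by
    rintro ⟨t, u⟩ ⟨t', u'⟩ h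
    obtain ⟨h1, h2⟩ := liftSQ_fibre t.1 t'.1 t.2 t'.2 u.1 u'.1 (congrArg Subtype.val h)
    have h1' : t = t' := Subtype.ext h1
    subst h1'
    rcases h2 with h2 | h2 | h2
    · have : t = 0 := Subtype.ext h2
      subst this; exact hL0 _ _
    · have : t = 1 := Subtype.ext h2
      subst this; exact hL1 _ _
    · have : u = u' := Subtype.ext h2
      subst this; rfl
  let g3 : S3 → X := fun y => L (Function.surjInv hQs y)
  have hg3 : g3 ∘ Q = L := by
    funext p
    exact hfib _ _ (Function.surjInv_eq hQs (Q p))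
  have hg3c : Continuous g3 := by
    rw [hQq.continuous_iff, hg3]
    exact L.continuous
  classical
  refine ⟨fun y => if h : ‖y‖ = 1 then g3 ⟨y, h⟩ else x0, ?_, ?_⟩
  · rw [continuousOn_iff_continuous_domRestrict]
    have : ({y : C2 | ‖y‖ = 1}.domRestrict fun y => if h : ‖y‖ = 1 then g3 ⟨y, h⟩ else x0) = g3 := by
      funext y
      simp only [Set.domRestrict_apply]
      rw [dif_pos (show ‖(y : C2)‖ = 1 from y.2)]
      rfl
    rw [this]
    exact hg3c
  · intro y hy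
    simp only [dif_pos hy]
    have := hL (Function.surjInv hQs ⟨y, hy⟩)
    rw [Function.surjInv_eq hQs] at this
    exact this

end Wu
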