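import Pool.Agent.Lib.MP_60079e_gt.EmbJ
import Pool.Agent.Lib.MP_60079e_gt.EmbW
import Pool.Agent.Lib.MP_60079e_gt.EmbA
import Pool.Agent.Lib.MP_60079e_gt.CapC

/-! The positive part. -/

open Set Metric Topology
open scoped ContDiff

namespace Wu

/-- The positive part: `P = A # N = W # Y`. -/
theorem exists_sums (B : BaseA) : ∃ (S0 : WX) (Q : BaseP B S0) (N Y : Mfd E5),
    N.Closed ∧ Y.Closed ∧ IsConnSum WM Y Q.P ∧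
    ∃ (j : E5 → N.X) (ΦA : B.A.X → Q.P.X) (Ψ : N.X → Q.P.X),
      ConnSumData B.A N Q.P (fun x : E5 => B.π (ib x)) j ΦA Ψ ∧
      ∃ R : ℝ, 1 < R ∧ ∀ a, a ∉ (fun x : E5 => B.π (ib x)) '' closedBall (0 : E5) R →
        Q.ι (ΦA a) = (a, 0) := by
  obtain ⟨S0, ρ, O, hO, hK, hS0K, hG, hρ0, hal, hbe, hib, h1, h2⟩ := exists_j B
  have h0 : B.F (B.π S0, 0) = 0 := by
    rw [B.hF]
    unfold FW
    simp only
    rw [hbe]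
    ring
  obtain ⟨Q⟩ := exists_baseP B S0 h0
  obtain ⟨ΦW, hΦW⟩ := exists_PhiW B S0 ρ O hO hK hS0K hG hρ0 h1 h2 Q
  obtain ⟨ΦA, hΦA, R, hR, hRA⟩ := exists_PhiA B S0 hib Q
  obtain ⟨Y, hY, jW, ΨW, hdW⟩ := exists_cap WM Q.P closed_WM Q.closed cell ΦW
    ⟨fun x _ => oEmb_cell.1 x (mem_univ x), oEmb_cell.2.mono (subset_univ _)⟩ hΦW
  obtain ⟨N, hN, j, Ψ, hd⟩ := exists_cap B.A Q.P B.closed Q.closed (fun x : E5 => B.π (ib x)) ΦA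
    ⟨fun x _ => B.oEmb_ib.1 x (mem_univ x), B.oEmb_ib.2.mono (subset_univ _)⟩ hΦA
  exact ⟨S0, Q, N, Y, hN, hY, ⟨cell, jW, ΦW, ΨW, hdW⟩, j, ΦA, Ψ, hd, R, hR, hRA⟩

end Wu
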