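import Pool.Agent.Lib.MP_60079e_gt.Kappa

/-! `W` minus two points does not embed in a regular hypersurface of `ℝ⁶`. -/

open Set Metric Topology Matrix
open scoped ContDiff

namespace Wu

/-- retraction to the disc -/
private noncomputable def nRet (z : ℂ) : ℂ := (((max 1 ‖z‖)⁻¹ : ℝ) : ℂ) * z

private theorem nRet_norm (z : ℂ) : ‖nRet z‖ ≤ 1 := by
  unfold nRet
  have h1 : (0 : ℝ) < max 1 ‖z‖ := lt_of_lt_of_le one_pos (le_max_left _ _)
  rw [norm_mul, Complex.norm_real, Real.norm_of_nonneg (by positivity), inv_mul_le_iff₀ h1,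
    mul_one]
  exact le_max_right _ _

private theorem nRet_eq {z : ℂ} (hz : ‖z‖ ≤ 1) : nRet z = z := by
  unfold nRet
  rw [max_eq_left hz]
  simp

private theorem continuous_nRet : Continuous nRet := by
  unfold nRet
  have h1 : Continuous (fun z : ℂ => (max 1 ‖z‖)⁻¹) := by
    apply Continuous.inv₀ (by fun_prop)
    intro z
    exact (lt_of_lt_of_le one_pos (le_max_left _ _)).ne'
  exact (Complex.continuous_ofReal.comp h1).mul continuous_id

private noncomputable def nC (φ : ℝ) (z : ℂ) : M3 := gphi φ * Fz (star (nRet z))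

private theorem nC_mem (φ : ℝ) (z : ℂ) : nC φ z ∈ SU3 := by
  unfold nC
  apply mul_mem (gphi_mem φ)
  apply Fz_mem
  rw [norm_star]
  exact nRet_norm z

private noncomputable def nS (κ : E5 → WX) (φ : ℝ) (z : ℂ) (x : E5) : WX :=
  ⟨tr (nC φ z) (κ x).1, tr_mem (nC_mem φ z) (κ x).2⟩

private theorem continuous_nC (φ : ℝ) : Continuous (nC φ) := by
  unfold nC
  exact continuous_const.matrix_mul
    (continuous_Fz.comp (continuous_star.comp continuous_nRet))

private theorem continuous_nS {κ : E5 → WX} (hκ : Continuous κ) (φ : ℝ) :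
    Continuous (fun p : ℂ × E5 => nS κ φ p.1 p.2) := by
  unfold nS
  apply Continuous.subtype_mk
  unfold tr
  have h1 : Continuous (fun p : ℂ × E5 => nC φ p.1) := (continuous_nC φ).comp continuous_fst
  have h2 : Continuous (fun p : ℂ × E5 => (κ p.2).1) :=
    continuous_subtype_val.comp (hκ.comp continuous_snd)
  exact (h1.matrix_mul h2).matrix_mul h1.matrix_transpose

private noncomputable def ngr (L : (Fin 6 → ℝ) →L[ℝ] ℝ) : Fin 6 → ℝ :=
  fun k => L (Pi.single k 1)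

private theorem continuous_ngr : Continuous ngr := by
  unfold ngr
  apply continuous_pi
  intro k
  exact (ContinuousLinearMap.apply ℝ ℝ (Pi.single k (1 : ℝ) : Fin 6 → ℝ)).continuous

private theorem ngr_formula (L : (Fin 6 → ℝ) →L[ℝ] ℝ) (v : Fin 6 → ℝ) :
    L v = ∑ k, v k * ngr L k := by
  conv_lhs => rw [← Finset.univ_sum_single v]
  rw [map_sum]
  apply Finset.sum_congr rfl
  intro k _
  have h1 : (Pi.single k (v k) : Fin 6 → ℝ) = v k • (Pi.single k (1 : ℝ) : Fin 6 → ℝ) := by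
    rw [← Pi.single_smul, smul_eq_mul, mul_one]
  rw [h1, map_smul, smul_eq_mul]
  rfl

private theorem ngr_ne {L : (Fin 6 → ℝ) →L[ℝ] ℝ} (hL : L ≠ 0) : ngr L ≠ 0 := by
  intro h
  apply hL
  ext v
  rw [ngr_formula L v]
  simp [h]

private theorem ngr_sq (L : (Fin 6 → ℝ) →L[ℝ] ℝ) : ‖ngr L‖ ^ 2 ≤ L (ngr L) := by
  rw [ngr_formula]
  have h0 : (0 : ℝ) ≤ ∑ k, ngr L k * ngr L k :=
    Finset.sum_nonneg fun k _ => mul_self_nonneg _
  have h1 : ‖ngr L‖ ≤ Real.sqrt (∑ k, ngr L k * ngr L k) := by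
    rw [pi_norm_le_iff_of_nonneg (Real.sqrt_nonneg _)]
    intro k
    rw [Real.norm_eq_abs, ← Real.sqrt_mul_self_eq_abs]
    apply Real.sqrt_le_sqrt
    exact Finset.single_le_sum (f := fun k => ngr L k * ngr L k)
      (fun k _ => mul_self_nonneg _) (Finset.mem_univ k)
  calc ‖ngr L‖ ^ 2 ≤ (Real.sqrt (∑ k, ngr L k * ngr L k)) ^ 2 := by gcongr
    _ = _ := Real.sq_sqrt h0

/-- Euclidean norm of a vector of `ℂ³` -/
private noncomputable def nn (u : Fin 3 → ℂ) : ℝ :=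
  Real.sqrt (Complex.normSq (u 0) + Complex.normSq (u 1) + Complex.normSq (u 2))

private theorem nn_pos {u : Fin 3 → ℂ} (hu : u ≠ 0) : 0 < nn u := by
  unfold nn
  apply Real.sqrt_pos.mpr
  by_contra hcon
  apply hu
  have h0 := Complex.normSq_nonneg (u 0)
  have h1 := Complex.normSq_nonneg (u 1)
  have h2 := Complex.normSq_nonneg (u 2)
  have e0 : Complex.normSq (u 0) = 0 := by linarith
  have e1 : Complex.normSq (u 1) = 0 := by linarith
  have e2 : Complex.normSq (u 2) = 0 := by linarith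
  funext i
  fin_cases i
  · exact Complex.normSq_eq_zero.mp e0
  · exact Complex.normSq_eq_zero.mp e1
  · exact Complex.normSq_eq_zero.mp e2

private theorem nn_sq (u : Fin 3 → ℂ) : nn u ^ 2 =
    Complex.normSq (u 0) + Complex.normSq (u 1) + Complex.normSq (u 2) := by
  unfold nn
  apply Real.sq_sqrt
  have h0 := Complex.normSq_nonneg (u 0)
  have h1 := Complex.normSq_nonneg (u 1)
  have h2 := Complex.normSq_nonneg (u 2)
  positivity

private theorem continuous_nn : Continuous nn := by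
  unfold nn
  apply Real.continuous_sqrt.comp
  have h (i : Fin 3) : Continuous (fun u : Fin 3 → ℂ => Complex.normSq (u i)) :=
    Complex.continuous_normSq.comp (continuous_apply i)
  exact ((h 0).add (h 1)).add (h 2)

private noncomputable def nX (u : Fin 3 → ℂ) : E5 :=
  !₂[(u 0).re, (u 0).im, (u 1).re, (u 1).im, (u 2).re]

private theorem continuous_nX : Continuous nX := by
  unfold nX
  apply (PiLp.continuous_toLp 2 _).comp
  apply continuous_pi
  intro i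
  have hr (j : Fin 3) : Continuous (fun u : Fin 3 → ℂ => (u j).re) :=
    Complex.continuous_re.comp (continuous_apply j)
  have hi (j : Fin 3) : Continuous (fun u : Fin 3 → ℂ => (u j).im) :=
    Complex.continuous_im.comp (continuous_apply j)
  fin_cases i
  · exact hr 0
  · exact hi 0
  · exact hr 1
  · exact hi 1
  · exact hr 2

private theorem nX_neg (u : Fin 3 → ℂ) : nX (-u) = -nX u := by
  ext i
  fin_cases i <;> simp [nX]

private theorem nn_neg (u : Fin 3 → ℂ) : nn (-u) = nn u := by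
  simp [nn, Complex.normSq_neg]

private noncomputable def nx (u : Fin 3 → ℂ) : E5 := (nn u)⁻¹ • nX u

private noncomputable def ns (u : Fin 3 → ℂ) : ℝ := (nn u)⁻¹ * (u 2).im

private theorem nx_neg (u : Fin 3 → ℂ) : nx (-u) = -nx u := by
  rw [nx, nx, nn_neg, nX_neg, smul_neg]

private theorem ns_neg (u : Fin 3 → ℂ) : ns (-u) = -ns u := by
  rw [ns, ns, nn_neg]
  simp

private theorem nx_sq {u : Fin 3 → ℂ} (hu : u ≠ 0) : ‖nx u‖ ^ 2 + ns u ^ 2 = 1 := by
  have h1 := nn_pos hu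
  have h2 := nn_sq u
  have h3 : ‖nX u‖ ^ 2 + (u 2).im ^ 2 = nn u ^ 2 := by
    rw [EuclideanSpace.norm_sq_eq, Fin.sum_univ_five, h2]
    simp only [nX, Complex.normSq_apply, Real.norm_eq_abs, sq_abs]
    simp
    ring
  rw [nx, ns, norm_smul, Real.norm_of_nonneg (by positivity), mul_pow, mul_pow, ← mul_add, h3,
    ← mul_pow, inv_mul_cancel₀ h1.ne', one_pow]

private theorem continuousAt_nx {u : Fin 3 → ℂ} (hu : u ≠ 0) : ContinuousAt nx u := by
  unfold nx
  exact (continuous_nn.continuousAt.inv₀ (nn_pos hu).ne').smul continuous_nX.continuousAt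

private theorem continuousAt_ns {u : Fin 3 → ℂ} (hu : u ≠ 0) : ContinuousAt ns u := by
  unfold ns
  exact (continuous_nn.continuousAt.inv₀ (nn_pos hu).ne').mul
    (Complex.continuous_im.comp (continuous_apply 2)).continuousAt

/-- the transport along the boundary circle -/
private theorem nS_boundary {κ : E5 → WX} {φ : ℝ}
    (heq : ∀ (ϑ : ℝ) (x y : E5), y 0 = Real.cos (2 * ϑ) * x 0 - Real.sin (2 * ϑ) * x 1 →
      y 1 = Real.sin (2 * ϑ) * x 0 + Real.cos (2 * ϑ) * x 1 →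
      y 2 = Real.cos ϑ * x 2 - Real.sin ϑ * x 3 →
      y 3 = Real.sin ϑ * x 2 + Real.cos ϑ * x 3 → y 4 = x 4 →
      (κ y).1 = tr (Rot ϑ) (κ x).1) {z : ℂ} (hz : ‖z‖ = 1) (u : Fin 3 → ℂ) (c : ℝ) :
    nS κ φ z (c • nX u) = nS κ φ 1 (c • nX ![z ^ 2 * u 0, z * u 1, u 2]) := by
  set ϑ : ℝ := Complex.arg z with hϑ
  have hzexp : Complex.exp (ϑ * Complex.I) = z := by
    have := Complex.norm_mul_exp_arg_mul_I z
    rw [hz, Complex.ofReal_one, one_mul] at this
    exact this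
  have hre : z.re = Real.cos ϑ := by
    rw [← hzexp, Complex.exp_ofReal_mul_I_re]
  have him : z.im = Real.sin ϑ := by
    rw [← hzexp, Complex.exp_ofReal_mul_I_im]
  have hstar : star z = Complex.exp ((-ϑ : ℝ) * Complex.I) := by
    apply Complex.ext
    · rw [Complex.exp_ofReal_mul_I_re, Real.cos_neg]
      exact hre
    · rw [Complex.exp_ofReal_mul_I_im, Real.sin_neg]
      show -z.im = _
      rw [him]
  have hC : nC φ z = nC φ 1 * Rot ϑ := by
    unfold nC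
    rw [nRet_eq hz.le, nRet_eq (by simp), hstar, Fz_boundary, neg_neg, star_one, mul_assoc]
  apply Subtype.ext
  show tr (nC φ z) (κ (c • nX u)).1 = tr (nC φ 1) (κ (c • nX ![z ^ 2 * u 0, z * u 1, u 2])).1
  have h2 := heq ϑ (c • nX u) (c • nX ![z ^ 2 * u 0, z * u 1, u 2]) (by
      rw [Real.cos_two_mul, Real.sin_two_mul, ← hre, ← him]
      have h1 : z.re ^ 2 + z.im ^ 2 = 1 := by rw [hre, him]; exact Real.cos_sq_add_sin_sq ϑ
      simp [nX, pow_two]
      linear_combination (-c * (u 0).re) * h1) (by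
      rw [Real.cos_two_mul, Real.sin_two_mul, ← hre, ← him]
      have h1 : z.re ^ 2 + z.im ^ 2 = 1 := by rw [hre, him]; exact Real.cos_sq_add_sin_sq ϑ
      simp [nX, pow_two]
      linear_combination (-c * (u 0).im) * h1) (by
      rw [← hre, ← him]
      simp [nX]
      ring) (by
      rw [← hre, ← him]
      simp [nX]
      ring) (by simp [nX])
  rw [h2, tr_tr, hC]

private theorem nn_rot {z : ℂ} (hz : ‖z‖ = 1) (u : Fin 3 → ℂ) :
    nn ![z ^ 2 * u 0, z * u 1, u 2] = nn u := by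
  have h1 : Complex.normSq z = 1 := by
    rw [Complex.normSq_eq_norm_sq, hz, one_pow]
  unfold nn
  congr 1
  simp [h1, map_pow]

theorem no_embed_hyp (FB : (Fin 6 → ℝ) → ℝ) (h1 : ContDiff ℝ 1 FB)
    (hreg : ∀ p, FB p = 0 → fderiv ℝ FB p ≠ 0) (m m' : WX) (J : WX → (Fin 6 → ℝ))
    (hJ : ContinuousOn J {x | x ≠ m ∧ x ≠ m'}) (hinj : InjOn J {x | x ≠ m ∧ x ≠ m'})
    (hz : ∀ x, x ≠ m → x ≠ m' → FB (J x) = 0) : False := by
  obtain ⟨φ, hφ⟩ := exists_avoid m m'
  obtain ⟨κ, hκc, hκ0, ⟨ε0, hε0, hκinj⟩, heq⟩ := exists_kappa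
  set X0 : Set WX := {x | x ≠ m ∧ x ≠ m'} with hX0
  have hX0o : IsOpen X0 := by
    have : X0 = {m}ᶜ ∩ {m'}ᶜ := by
      ext x; simp [hX0]
    rw [this]
    exact isOpen_compl_singleton.inter isOpen_compl_singleton
  have hS := continuous_nS hκc φ
  have hS0 : ∀ z : ℂ, ‖z‖ ≤ 1 → nS κ φ z 0 ∈ X0 := by
    intro z hz1
    have h2 : ‖star z‖ ≤ 1 := by rw [norm_star]; exact hz1
    have h3 := hφ (star z) h2
    have h4 : (nS κ φ z 0).1 = tr (gphi φ) (vv (star z)) := by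
      show tr (nC φ z) (κ 0).1 = _
      rw [hκ0]
      unfold nC vv tr
      rw [nRet_eq hz1]
      simp only [Matrix.transpose_mul, mul_one, mul_assoc]
    refine ⟨fun h => h3.1 ?_, fun h => h3.2 ?_⟩
    · rw [← h4, h]
    · rw [← h4, h]
  have hJat : ∀ x ∈ X0, ContinuousAt J x := fun x hx => hJ.continuousAt (hX0o.mem_nhds hx)
  have hFd : Continuous (fderiv ℝ FB) := h1.continuous_fderiv (by norm_num)
  -- uniform smallness
  let P : E5 → ℂ → Prop := fun x z => nS κ φ z x ∈ X0 ∧ nS κ φ z (-x) ∈ X0 ∧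
    ‖FB (J (nS κ φ z x)) - FB (J (nS κ φ z (-x))) -
      fderiv ℝ FB (J (nS κ φ z 0)) (J (nS κ φ z x) - J (nS κ φ z (-x)))‖ ≤
      ‖ngr (fderiv ℝ FB (J (nS κ φ z 0)))‖ / 2 * ‖J (nS κ φ z x) - J (nS κ φ z (-x))‖
  have hP : ∀ᶠ x in 𝓝 (0 : E5), ∀ z ∈ closedBall (0 : ℂ) 1, P x z := by
    apply (isCompact_closedBall (0 : ℂ) 1).eventually_forall_of_forall_eventually
    intro z hz1
    rw [mem_closedBall, dist_zero_right] at hz1
    have hp : nS κ φ z 0 ∈ X0 := hS0 z hz1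
    have c1 : ContinuousAt (fun w : E5 × ℂ => nS κ φ w.2 w.1) (0, z) :=
      (hS.comp (continuous_snd.prodMk continuous_fst)).continuousAt
    have c2 : ContinuousAt (fun w : E5 × ℂ => nS κ φ w.2 (-w.1)) (0, z) :=
      (hS.comp (continuous_snd.prodMk continuous_fst.neg)).continuousAt
    have c3 : ContinuousAt (fun w : E5 × ℂ => nS κ φ w.2 0) (0, z) :=
      (hS.comp (continuous_snd.prodMk continuous_const)).continuousAt
    have e1 : ∀ᶠ w : E5 × ℂ in 𝓝 (0, z), nS κ φ w.2 w.1 ∈ X0 :=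
      c1.eventually_mem (hX0o.mem_nhds hp)
    have e2 : ∀ᶠ w : E5 × ℂ in 𝓝 (0, z), nS κ φ w.2 (-w.1) ∈ X0 := by
      apply c2.eventually_mem
      apply hX0o.mem_nhds
      show nS κ φ z (-0) ∈ X0
      rw [neg_zero]
      exact hp
    have d1 : ContinuousAt (fun w : E5 × ℂ => J (nS κ φ w.2 w.1)) (0, z) :=
      ContinuousAt.comp (f := fun w : E5 × ℂ => nS κ φ w.2 w.1) (g := J) (hJat _ hp) c1
    have d2 : ContinuousAt (fun w : E5 × ℂ => J (nS κ φ w.2 (-w.1))) (0, z) := by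
      apply ContinuousAt.comp (f := fun w : E5 × ℂ => nS κ φ w.2 (-w.1)) (g := J) _ c2
      apply hJat
      show nS κ φ z (-0) ∈ X0
      rw [neg_zero]
      exact hp
    have d3 : ContinuousAt (fun w : E5 × ℂ => J (nS κ φ w.2 0)) (0, z) :=
      ContinuousAt.comp (f := fun w : E5 × ℂ => nS κ φ w.2 0) (g := J) (hJat _ hp) c3
    set p0 := J (nS κ φ z 0) with hp0
    set L0 := fderiv ℝ FB p0 with hL0
    have hL0ne : L0 ≠ 0 := hreg p0 (hz _ hp.1 hp.2)
    have he0 : 0 < ‖ngr L0‖ := norm_pos_iff.mpr (ngr_ne hL0ne)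
    have hstrict : HasStrictFDerivAt FB L0 p0 :=
      (h1.contDiffAt).hasStrictFDerivAt (by norm_num)
    have e3 : ∀ᶠ q : (Fin 6 → ℝ) × (Fin 6 → ℝ) in 𝓝 (p0, p0),
        ‖FB q.1 - FB q.2 - L0 (q.1 - q.2)‖ ≤ ‖ngr L0‖ / 8 * ‖q.1 - q.2‖ :=
      hstrict.isLittleO.def (by positivity)
    have e4 : ∀ᶠ w : E5 × ℂ in 𝓝 (0, z),
        ‖FB (J (nS κ φ w.2 w.1)) - FB (J (nS κ φ w.2 (-w.1))) -
          L0 (J (nS κ φ w.2 w.1) - J (nS κ φ w.2 (-w.1)))‖ ≤
          ‖ngr L0‖ / 8 * ‖J (nS κ φ w.2 w.1) - J (nS κ φ w.2 (-w.1))‖ := by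
      have ht : Filter.Tendsto (fun w : E5 × ℂ => (J (nS κ φ w.2 w.1), J (nS κ φ w.2 (-w.1))))
          (𝓝 (0, z)) (𝓝 (p0, p0)) := by
        have h5 : Filter.Tendsto (fun w : E5 × ℂ => J (nS κ φ w.2 (-w.1))) (𝓝 (0, z))
            (𝓝 p0) := by
          have h6 : J (nS κ φ z (-(0 : E5))) = p0 := by rw [neg_zero]
          rw [← h6]
          exact d2
        exact Filter.Tendsto.prodMk_nhds d1 h5
      exact ht.eventually e3
    have e5 : ∀ᶠ w : E5 × ℂ in 𝓝 (0, z),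
        ‖fderiv ℝ FB (J (nS κ φ w.2 0)) - L0‖ < ‖ngr L0‖ / 8 := by
      have h5 : ContinuousAt (fun w : E5 × ℂ => fderiv ℝ FB (J (nS κ φ w.2 0))) (0, z) :=
        ContinuousAt.comp (f := fun w : E5 × ℂ => J (nS κ φ w.2 0)) (g := fderiv ℝ FB)
          hFd.continuousAt d3
      have h6 : ContinuousAt
          (fun w : E5 × ℂ => ‖fderiv ℝ FB (J (nS κ φ w.2 0)) - L0‖) (0, z) :=
        (h5.sub continuousAt_const).norm
      apply h6.eventually_lt continuousAt_const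
      show ‖fderiv ℝ FB (J (nS κ φ z 0)) - L0‖ < _
      rw [← hp0, ← hL0, sub_self, norm_zero]
      positivity
    have e6 : ∀ᶠ w : E5 × ℂ in 𝓝 (0, z),
        ‖ngr L0‖ / 2 < ‖ngr (fderiv ℝ FB (J (nS κ φ w.2 0)))‖ := by
      have h5 : ContinuousAt (fun w : E5 × ℂ => fderiv ℝ FB (J (nS κ φ w.2 0))) (0, z) :=
        ContinuousAt.comp (f := fun w : E5 × ℂ => J (nS κ φ w.2 0)) (g := fderiv ℝ FB)
          hFd.continuousAt d3
      have h6 : ContinuousAt
          (fun w : E5 × ℂ => ‖ngr (fderiv ℝ FB (J (nS κ φ w.2 0)))‖) (0, z) :=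
        (ContinuousAt.comp (f := fun w : E5 × ℂ => fderiv ℝ FB (J (nS κ φ w.2 0))) (g := ngr)
          continuous_ngr.continuousAt h5).norm
      apply continuousAt_const.eventually_lt h6
      show _ < ‖ngr (fderiv ℝ FB (J (nS κ φ z 0)))‖
      rw [← hp0, ← hL0]
      linarith
    filter_upwards [e1, e2, e4, e5, e6] with w w1 w2 w4 w5 w6
    refine ⟨w1, w2, ?_⟩
    set q := J (nS κ φ w.2 w.1) - J (nS κ φ w.2 (-w.1)) with hq
    set L := fderiv ℝ FB (J (nS κ φ w.2 0)) with hL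
    have h7 : FB (J (nS κ φ w.2 w.1)) - FB (J (nS κ φ w.2 (-w.1))) - L q =
        (FB (J (nS κ φ w.2 w.1)) - FB (J (nS κ φ w.2 (-w.1))) - L0 q) - (L - L0) q := by
      rw [_root_.sub_apply]
      ring
    rw [h7]
    have h8 : ‖(L - L0) q‖ ≤ ‖ngr L0‖ / 8 * ‖q‖ :=
      ((L - L0).le_opNorm q).trans (mul_le_mul_of_nonneg_right w5.le (norm_nonneg _))
    have h9 : 0 ≤ ‖q‖ := norm_nonneg _
    calc _ ≤ _ := norm_sub_le _ _
      _ ≤ ‖ngr L0‖ / 8 * ‖q‖ + ‖ngr L0‖ / 8 * ‖q‖ := add_le_add w4 h8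
      _ = (‖ngr L0‖ / 2) / 2 * ‖q‖ := by ring
      _ ≤ ‖ngr L‖ / 2 * ‖q‖ := by gcongr
  obtain ⟨r, hr, hrP⟩ := Metric.eventually_nhds_iff_ball.mp hP
  set ε : ℝ := min (r / 2) ε0 with hε
  have hεpos : 0 < ε := lt_min (by linarith) hε0
  have hεr : ε < r := lt_of_le_of_lt (min_le_left _ _) (by linarith)
  have hnx : ∀ u : Fin 3 → ℂ, u ≠ 0 → ‖nx u‖ ≤ 1 := by
    intro u hu
    have h2 := nx_sq hu
    have h3 : ‖nx u‖ ^ 2 ≤ 1 := by nlinarith [sq_nonneg (ns u)]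
    exact (sq_le_one_iff₀ (norm_nonneg _)).mp h3
  have hεx : ∀ u : Fin 3 → ℂ, u ≠ 0 → ‖ε • nx u‖ ≤ ε := by
    intro u hu
    rw [norm_smul, Real.norm_of_nonneg hεpos.le]
    have := hnx u hu
    nlinarith
  have hPu : ∀ (z : ℂ) (u : Fin 3 → ℂ), ‖z‖ ≤ 1 → u ≠ 0 → P (ε • nx u) z := by
    intro z u hz1 hu
    apply hrP
    · rw [mem_ball, dist_zero_right]
      exact lt_of_le_of_lt (hεx u hu) hεr
    · rw [mem_closedBall, dist_zero_right]
      exact hz1
  -- the odd map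
  let h : ℂ → (Fin 3 → ℂ) → (Fin 6 → ℝ) := fun z u =>
    J (nS κ φ z (ε • nx u)) - J (nS κ φ z (-(ε • nx u))) +
      ns u • ngr (fderiv ℝ FB (J (nS κ φ z 0)))
  refine WuHS.no_rotA h ⟨?_, ?_, ?_⟩ ?_
  · rintro ⟨z, u⟩ ⟨hz1, hu⟩
    apply ContinuousAt.continuousWithinAt
    obtain ⟨w1, w2, _⟩ := hPu z u hz1 hu
    have hx : ContinuousAt (fun p : ℂ × (Fin 3 → ℂ) => ε • nx p.2) (z, u) :=
      ContinuousAt.const_smul (ContinuousAt.comp (f := Prod.snd) (g := nx)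
        (continuousAt_nx hu) continuousAt_snd :
        ContinuousAt (fun p : ℂ × (Fin 3 → ℂ) => nx p.2) (z, u)) ε
    have c1 : ContinuousAt (fun p : ℂ × (Fin 3 → ℂ) => nS κ φ p.1 (ε • nx p.2)) (z, u) :=
      ContinuousAt.comp (f := fun p : ℂ × (Fin 3 → ℂ) => (p.1, ε • nx p.2))
        (g := fun q : ℂ × E5 => nS κ φ q.1 q.2) hS.continuousAt (continuousAt_fst.prodMk hx)
    have c2 : ContinuousAt (fun p : ℂ × (Fin 3 → ℂ) => nS κ φ p.1 (-(ε • nx p.2))) (z, u) :=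
      ContinuousAt.comp (f := fun p : ℂ × (Fin 3 → ℂ) => (p.1, -(ε • nx p.2)))
        (g := fun q : ℂ × E5 => nS κ φ q.1 q.2) hS.continuousAt
        (continuousAt_fst.prodMk hx.neg)
    have c3 : ContinuousAt (fun p : ℂ × (Fin 3 → ℂ) => nS κ φ p.1 0) (z, u) :=
      ContinuousAt.comp (f := fun p : ℂ × (Fin 3 → ℂ) => (p.1, (0 : E5)))
        (g := fun q : ℂ × E5 => nS κ φ q.1 q.2) hS.continuousAt
        (continuousAt_fst.prodMk continuousAt_const)
    have d1 : ContinuousAt (fun p : ℂ × (Fin 3 → ℂ) => J (nS κ φ p.1 (ε • nx p.2))) (z, u) :=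
      ContinuousAt.comp (f := fun p : ℂ × (Fin 3 → ℂ) => nS κ φ p.1 (ε • nx p.2)) (g := J)
        (hJat _ w1) c1
    have d2 : ContinuousAt (fun p : ℂ × (Fin 3 → ℂ) => J (nS κ φ p.1 (-(ε • nx p.2)))) (z, u) :=
      ContinuousAt.comp (f := fun p : ℂ × (Fin 3 → ℂ) => nS κ φ p.1 (-(ε • nx p.2))) (g := J)
        (hJat _ w2) c2
    have d3 : ContinuousAt (fun p : ℂ × (Fin 3 → ℂ) => J (nS κ φ p.1 0)) (z, u) :=
      ContinuousAt.comp (f := fun p : ℂ × (Fin 3 → ℂ) => nS κ φ p.1 0) (g := J)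
        (hJat _ (hS0 z hz1)) c3
    have d4 : ContinuousAt (fun p : ℂ × (Fin 3 → ℂ) => ngr (fderiv ℝ FB (J (nS κ φ p.1 0))))
        (z, u) :=
      ContinuousAt.comp (f := fun p : ℂ × (Fin 3 → ℂ) => J (nS κ φ p.1 0))
        (g := fun q => ngr (fderiv ℝ FB q)) (continuous_ngr.comp hFd).continuousAt d3
    have d5 : ContinuousAt (fun p : ℂ × (Fin 3 → ℂ) => ns p.2) (z, u) :=
      ContinuousAt.comp (f := Prod.snd) (g := ns) (continuousAt_ns hu) continuousAt_snd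
    exact (d1.sub d2).add (d5.smul d4)
  · intro z u hz1 hu
    show J (nS κ φ z (ε • nx (-u))) - J (nS κ φ z (-(ε • nx (-u)))) +
      ns (-u) • ngr (fderiv ℝ FB (J (nS κ φ z 0))) = -(J (nS κ φ z (ε • nx u)) -
      J (nS κ φ z (-(ε • nx u))) + ns u • ngr (fderiv ℝ FB (J (nS κ φ z 0))))
    rw [nx_neg, ns_neg, smul_neg, neg_neg, neg_smul]
    abel
  · intro z u hz1 hu h0
    obtain ⟨w1, w2, w3⟩ := hPu z u hz1 hu
    have h0' : J (nS κ φ z (ε • nx u)) - J (nS κ φ z (-(ε • nx u))) +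
      ns u • ngr (fderiv ℝ FB (J (nS κ φ z 0))) = 0 := h0
    set L := fderiv ℝ FB (J (nS κ φ z 0)) with hL
    have hLne : L ≠ 0 := hreg _ (hz _ (hS0 z hz1).1 (hS0 z hz1).2)
    have hgpos : 0 < ‖ngr L‖ := norm_pos_iff.mpr (ngr_ne hLne)
    have hq : J (nS κ φ z (ε • nx u)) - J (nS κ φ z (-(ε • nx u))) = -(ns u • ngr L) :=
      eq_neg_of_add_eq_zero_left h0'
    rw [hq, hz _ w1.1 w1.2, hz _ w2.1 w2.2, sub_self, zero_sub, norm_neg, map_neg, norm_neg,
      norm_neg, map_smul, norm_smul, norm_smul] at w3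
    have hLn : ‖ngr L‖ ^ 2 ≤ ‖L (ngr L)‖ := (ngr_sq L).trans (Real.le_norm_self _)
    have hs0 : ns u = 0 := by
      by_contra hne
      have hspos : 0 < ‖ns u‖ := norm_pos_iff.mpr hne
      have h5 : ‖ns u‖ * ‖ngr L‖ ^ 2 ≤ ‖ns u‖ * (‖ngr L‖ ^ 2 / 2) := by
        calc ‖ns u‖ * ‖ngr L‖ ^ 2 ≤ ‖ns u‖ * ‖L (ngr L)‖ := by gcongr
          _ ≤ _ := w3
          _ = _ := by ring
      have h6 := le_of_mul_le_mul_left h5 hspos
      have h7 : 0 < ‖ngr L‖ ^ 2 := by positivity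
      linarith
    rw [hs0, zero_smul, neg_zero, sub_eq_zero] at hq
    have h5 := hinj w1 w2 hq
    have h6 : tr (nC φ z) (κ (ε • nx u)).1 = tr (nC φ z) (κ (-(ε • nx u))).1 :=
      congrArg Subtype.val h5
    have h7 : (κ (ε • nx u)).1 = (κ (-(ε • nx u))).1 := by
      rw [← tr_ct_tr (nC_mem φ z) (κ (ε • nx u)).1, h6, tr_ct_tr (nC_mem φ z)]
    have h8 := hκinj (by
      rw [mem_closedBall, dist_zero_right]
      exact (hεx u hu).trans (min_le_right _ _)) (by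
      rw [mem_closedBall, dist_zero_right, norm_neg]
      exact (hεx u hu).trans (min_le_right _ _)) (Subtype.ext h7)
    have h9 : ε • nx u = 0 := by
      have h9' : (2 : ℝ) • (ε • nx u) = 0 := by
        rw [two_smul]
        exact add_eq_zero_iff_eq_neg.mpr h8
      exact (smul_eq_zero.mp h9').resolve_left two_ne_zero
    have h10 : nx u = 0 := (smul_eq_zero.mp h9).resolve_left hεpos.ne'
    have h11 := nx_sq hu
    rw [h10, hs0, norm_zero] at h11
    norm_num at h11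
  · intro z u hz1 hu
    have hu' : nn ![z ^ 2 * u 0, z * u 1, u 2] = nn u := nn_rot hz1 u
    have hb : ∀ c : ℝ, nS κ φ z (c • nX u) = nS κ φ 1 (c • nX ![z ^ 2 * u 0, z * u 1, u 2]) :=
      fun c => nS_boundary heq hz1 u c
    have b1 : nS κ φ z (ε • nx u) = nS κ φ 1 (ε • nx ![z ^ 2 * u 0, z * u 1, u 2]) := by
      unfold nx
      rw [hu', smul_smul, smul_smul]
      exact hb _
    have b2 : nS κ φ z (-(ε • nx u)) = nS κ φ 1 (-(ε • nx ![z ^ 2 * u 0, z * u 1, u 2])) := by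
      unfold nx
      rw [hu', smul_smul, smul_smul, ← neg_smul, ← neg_smul]
      exact hb _
    have b3 : nS κ φ z 0 = nS κ φ 1 0 := by
      have := hb 0
      rw [zero_smul, zero_smul] at this
      exact this
    have b4 : ns u = ns ![z ^ 2 * u 0, z * u 1, u 2] := by
      unfold ns
      rw [hu']
      rfl
    show J (nS κ φ z (ε • nx u)) - J (nS κ φ z (-(ε • nx u))) +
      ns u • ngr (fderiv ℝ FB (J (nS κ φ z 0))) = _
    rw [b1, b2, b3, b4]

end Wu
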