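import Pool.Agent.Lib.MP_60079e_gt.BaseP
import Pool.Agent.Lib.MP_60079e_gt.NotN

/-! `W \ pt` does not embed in `N`. -/

open Set Metric Topology
open scoped ContDiff

namespace Wu

/-- The function `F` on the second cell times `ℝ`, in the coordinates of `E5 × ℝ`. -/
private theorem mainB_smooth (B : BaseA) (p : E5 × ℝ) :
    ContDiffAt ℝ ∞ (fun q : E5 × ℝ => B.F (B.π (ib q.1), q.2)) p := by
  have h1 := (B.smF (B.π (ib p.1), p.2)).comp_op (opAt_prodR (B.oEmb_ib.1 p.1 (mem_univ _)) p.2)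
  have h2 := h1.chart (c := (OpenPartialHomeomorph.refl E5).prod (OpenPartialHomeomorph.refl ℝ))
    ⟨OpenPartialHomeomorph.refl E5, rfl, rfl⟩ (by simp)
  exact h2

private theorem mainB_reg (B : BaseA) (p : E5 × ℝ) (h0 : B.F (B.π (ib p.1), p.2) = 0) :
    fderiv ℝ (fun q : E5 × ℝ => B.F (B.π (ib q.1), q.2)) p ≠ 0 := by
  have h1 := (B.regF (B.π (ib p.1), p.2) h0).comp_op
    (opAt_prodR (B.oEmb_ib.1 p.1 (mem_univ _)) p.2)
  obtain ⟨c, hc, -, -, hne⟩ := h1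
  obtain ⟨d, hd, rfl⟩ := hc
  have hd' : d = OpenPartialHomeomorph.refl E5 := hd
  subst hd'
  exact hne

/-- `W \ pt` does not embed in `N`. -/
theorem no_embed_N (B : BaseA) {S0 : WX} (Q : BaseP B S0) (N : Mfd E5) (j : E5 → N.X)
    (ΦA : B.A.X → Q.P.X) (Ψ : N.X → Q.P.X)
    (h : ConnSumData B.A N Q.P (fun x : E5 => B.π (ib x)) j ΦA Ψ) (R : ℝ)
    (hR : ∀ a, a ∉ (fun x : E5 => B.π (ib x)) '' closedBall (0 : E5) R → Q.ι (ΦA a) = (a, 0))
    (m : WX) (Φ : WX → N.X) (hc : ContinuousOn Φ {m}ᶜ) (hinj : InjOn Φ {m}ᶜ) : False := by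
  classical
  obtain ⟨R', -, hR'⟩ := B.F_outside
  obtain ⟨e, hes, het, hey, -⟩ := B.oEmb_ib.exists_oph isOpen_univ univ_nonempty
  have hfin : Module.finrank ℝ (Fin 6 → ℝ) = Module.finrank ℝ (E5 × ℝ) := by
    rw [Module.finrank_prod]
    simp
  let L : (Fin 6 → ℝ) ≃L[ℝ] (E5 × ℝ) := ContinuousLinearEquiv.ofFinrankEq hfin
  let f : E5 × ℝ → ℝ := fun q => B.F (B.π (ib q.1), q.2)
  -- the point to be removed
  obtain ⟨m', hm'⟩ : ∃ m' : WX, ∀ x, x ≠ m → x ≠ m' → Φ x ≠ j 0 := by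
    by_cases hex : ∃ m', m' ≠ m ∧ Φ m' = j 0
    · obtain ⟨m', h1, h2⟩ := hex
      exact ⟨m', fun x hx hx' h3 => hx' (hinj hx h1 (h3.trans h2.symm))⟩
    · refine ⟨m, fun x hx _ h3 => hex ⟨x, hx, h3⟩⟩
  -- the image points lie over the second cell
  have hcell : ∀ b : N.X, b ≠ j 0 → (Q.ι (Ψ b)).1 ∈ e.target := by
    intro b hb
    rw [het]
    by_contra hno
    have hno' : ∀ r : ℝ, (Q.ι (Ψ b)).1 ∉ (fun x : E5 => B.π (ib x)) '' closedBall (0 : E5) r :=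
      fun r hr => hno (image_mono (subset_univ _) hr)
    have h1 := hR' _ (hno' R') (Q.ι (Ψ b)).2
    have h2 : B.F ((Q.ι (Ψ b)).1, (Q.ι (Ψ b)).2) = 0 := Q.zero (Ψ b)
    rw [h2] at h1
    have h3 : (Q.ι (Ψ b)).2 = 0 := by
      have h4 : (Q.ι (Ψ b)).2 * ((Q.ι (Ψ b)).2 ^ 2 + 1) = 0 := by
        rw [mul_add, ← pow_succ', mul_one]
        exact h1.symm
      rcases mul_eq_zero.1 h4 with h5 | h5
      · exact h5
      · nlinarith [sq_nonneg (Q.ι (Ψ b)).2]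
    have h6 : Q.ι (ΦA (Q.ι (Ψ b)).1) = Q.ι (Ψ b) := by
      rw [hR _ (hno' R)]
      exact Prod.ext rfl h3.symm
    have h7 := Q.emb.injective h6
    have h8 : (Q.ι (Ψ b)).1 ≠ (fun x : E5 => B.π (ib x)) 0 := by
      intro h9
      exact hno ⟨0, mem_univ _, h9.symm⟩
    obtain ⟨x, -, -, hx⟩ := h.sep _ _ h8 hb h7
    exact hno ⟨x, mem_univ _, hx.symm⟩
  have hright : ∀ b : N.X, b ≠ j 0 → B.π (ib (e.symm (Q.ι (Ψ b)).1)) = (Q.ι (Ψ b)).1 := by
    intro b hb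
    have h1 := e.right_inv (hcell b hb)
    rw [hey _ (mem_univ _)] at h1
    exact h1
  let J : WX → (Fin 6 → ℝ) := fun x => L.symm (e.symm (Q.ι (Ψ (Φ x))).1, (Q.ι (Ψ (Φ x))).2)
  refine no_embed_hyp (fun p => f (L p)) ?_ ?_ m m' J ?_ ?_ ?_
  · -- smoothness
    rw [contDiff_iff_contDiffAt]
    intro p
    have h1 : ContDiffAt ℝ ∞ f (L p) := mainB_smooth B (L p)
    have h2 : ContDiffAt ℝ 1 f (L p) := h1.of_le (by exact_mod_cast le_top)
    exact ContDiffAt.comp (g := f) (f := fun p => L p) p h2 L.contDiff.contDiffAt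
  · -- regularity
    intro p hp hd
    have h1 : ContDiffAt ℝ ∞ f (L p) := mainB_smooth B (L p)
    have h2 : DifferentiableAt ℝ f (L p) := h1.differentiableAt (by simp)
    have h3 : fderiv ℝ (fun p => f (L p)) p = (fderiv ℝ f (L p)).comp (L : (Fin 6 → ℝ) →L[ℝ] E5 × ℝ) := by
      have h4 := h2.hasFDerivAt.comp p L.hasFDerivAt
      exact h4.fderiv
    refine mainB_reg B (L p) hp ?_
    rw [h3] at hd
    refine ContinuousLinearMap.ext (fun v => ?_)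
    have h5 := congrArg (fun T : (Fin 6 → ℝ) →L[ℝ] ℝ => T (L.symm v)) hd
    simpa using h5
  · -- continuity
    intro x hx
    have hΦ : ContinuousAt Φ x := hc.continuousAt (isOpen_compl_singleton.mem_nhds hx.1)
    have hΨ : ContinuousAt Ψ (Φ x) := (h.Ψ_emb.1 (Φ x) (hm' x hx.1 hx.2)).1
    have h1 : ContinuousAt (fun x => Q.ι (Ψ (Φ x))) x :=
      Q.emb.continuous.continuousAt.comp (ContinuousAt.comp hΨ hΦ)
    have h2 : ContinuousAt (fun x => e.symm (Q.ι (Ψ (Φ x))).1) x := by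
      have h3 : ContinuousAt e.symm (Q.ι (Ψ (Φ x))).1 :=
        e.continuousAt_symm (hcell _ (hm' x hx.1 hx.2))
      exact ContinuousAt.comp (f := fun x => (Q.ι (Ψ (Φ x))).1) h3
        (continuousAt_fst.comp h1)
    have h4 : ContinuousAt J x :=
      L.symm.continuous.continuousAt.comp (h2.prodMk (continuousAt_snd.comp h1))
    exact h4.continuousWithinAt
  · -- injectivity
    intro x hx y hy hxy
    have h1 := L.symm.injective hxy
    rw [Prod.mk.injEq] at h1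
    have h2 : (Q.ι (Ψ (Φ x))).1 = (Q.ι (Ψ (Φ y))).1 := by
      rw [← hright _ (hm' x hx.1 hx.2), ← hright _ (hm' y hy.1 hy.2), h1.1]
    have h3 := Q.emb.injective (Prod.ext h2 h1.2)
    exact hinj hx.1 hy.1 (h.Ψ_emb.2 (hm' x hx.1 hx.2) (hm' y hy.1 hy.2) h3)
  · intro x hx hx'
    have h1 : f (L (J x)) = B.F (Q.ι (Ψ (Φ x))) := by
      simp only [J, f, ContinuousLinearEquiv.apply_symm_apply]
      rw [hright _ (hm' x hx hx')]
    exact h1.trans (Q.zero _)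

end Wu
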