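import Pool.Agent.Lib.MP_60079e_gt.NotA0

/-! `W \ {m}` does not embed in `W / μ₃`. -/

open Set Metric Topology Matrix
open scoped ContDiff

namespace Wu

/-- retraction of the plane to the closed disc -/
noncomputable def NotA_r (z : ℂ) : ℂ := ((max 1 ‖z‖ : ℝ) : ℂ)⁻¹ * z

theorem NotA_r_norm (z : ℂ) : ‖NotA_r z‖ ≤ 1 := by
  have h1 : (0 : ℝ) < max 1 ‖z‖ := lt_max_of_lt_left one_pos
  rw [NotA_r, norm_mul, norm_inv, Complex.norm_real, Real.norm_of_nonneg h1.le,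
    inv_mul_le_iff₀ h1, mul_one]
  exact le_max_right _ _

theorem NotA_r_eq {z : ℂ} (hz : ‖z‖ ≤ 1) : NotA_r z = z := by
  rw [NotA_r, max_eq_left hz]; simp

theorem NotA_r_cont : Continuous NotA_r := by
  have h1 : ∀ z : ℂ, ((max 1 ‖z‖ : ℝ) : ℂ) ≠ 0 := by
    intro z h
    have h2 : (0 : ℝ) < max 1 ‖z‖ := lt_max_of_lt_left one_pos
    rw [Complex.ofReal_eq_zero] at h
    exact h2.ne' h
  exact ((Complex.continuous_ofReal.comp (continuous_const.max continuous_norm)).inv₀ h1).mul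
    continuous_id

/-- the sphere `v`, translated -/
noncomputable def NotA_v (φ : ℝ) (z : ℂ) : WX :=
  ⟨tr (gphi φ) (vv (NotA_r z)), tr_mem (gphi_mem φ) (mulT_mem (Fz_mem _ (NotA_r_norm z)))⟩

theorem NotA_v_val {φ : ℝ} {z : ℂ} (hz : ‖z‖ ≤ 1) : (NotA_v φ z).1 = tr (gphi φ) (vv z) := by
  have h : (NotA_v φ z).1 = tr (gphi φ) (vv (NotA_r z)) := rfl
  rw [h, NotA_r_eq hz]

theorem NotA_v_cont (φ : ℝ) : Continuous (NotA_v φ) := by
  refine Continuous.subtype_mk ?_ _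
  have h1 : Continuous (fun z : ℂ => Fz (NotA_r z)) := continuous_Fz.comp NotA_r_cont
  have h2 : Continuous (fun z : ℂ => vv (NotA_r z)) := h1.matrix_mul h1.matrix_transpose
  exact (continuous_const.matrix_mul h2).matrix_mul continuous_const

theorem NotA_v_bd {φ : ℝ} {z : ℂ} (hz : ‖z‖ = 1) : NotA_v φ z = NotA_v φ 1 := by
  refine Subtype.ext ?_
  rw [NotA_v_val hz.le, NotA_v_val (z := 1) (by simp), vv_boundary z hz]

theorem LiftU_congr {f g : ℂ → WX} (h : LiftU f) (hfg : ∀ z ∈ closedBall (0 : ℂ) 1, f z = g z) :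
    LiftU g := by
  obtain ⟨V, h1, h2, h3, h4⟩ := h
  exact ⟨V, h1, h2, fun z hz => by rw [h3 z hz, hfg z hz], h4⟩

theorem NotA_no_lift (φ : ℝ) (h : LiftU (NotA_v φ)) : False := by
  obtain ⟨V, h1, h2, h3, h4⟩ := h
  have hg := gphi_mem φ
  refine no_unitary_lift (fun z => (gphi φ)ᴴ * V z) ?_ ?_ ?_ ?_
  · exact (continuous_const.matrix_mul continuous_id).comp_continuousOn h1
  · intro z hz
    exact mul_mem (Matrix.mem_specialUnitaryGroup_iff.1 (ct_mem hg)).1 (h2 z hz)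
  · intro z hz
    have h5 : ‖z‖ ≤ 1 := mem_closedBall_zero_iff.1 hz
    rw [← tr_mulT, h3 z hz, NotA_v_val h5, tr_ct_tr hg]
  · intro z hz
    change (gphi φ)ᴴ * V z = (gphi φ)ᴴ * V 1
    rw [h4 z hz]

theorem NotA_open {B : Type} [TopologicalSpace B] (π : WX → B) (cov : IsCoveringMap π) (m : WX)
    (Φ : WX → B) (hopen : ∀ U : Set WX, U ⊆ {m}ᶜ → IsOpen U → IsOpen (Φ '' U)) (Φ' : WX → WX)
    (hc' : ContinuousOn Φ' {m}ᶜ) (hΦ' : ∀ x, x ≠ m → π (Φ' x) = Φ x) (U : Set WX)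
    (hU : U ⊆ {m}ᶜ) (hUo : IsOpen U) : IsOpen (Φ' '' U) := by
  rw [isOpen_iff_mem_nhds]
  rintro _ ⟨x, hx, rfl⟩
  obtain ⟨e, he, hπe⟩ := cov.isLocalHomeomorph (Φ' x)
  have hUc : ContinuousOn Φ' U := hc'.mono hU
  have hU' : IsOpen (U ∩ Φ' ⁻¹' e.source) := hUc.isOpen_inter_preimage hUo e.open_source
  have h1 : IsOpen (Φ '' (U ∩ Φ' ⁻¹' e.source)) := hopen _ (inter_subset_left.trans hU) hU'
  have h2 : IsOpen (e.source ∩ π ⁻¹' (Φ '' (U ∩ Φ' ⁻¹' e.source))) :=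
    e.open_source.inter (h1.preimage cov.continuous)
  refine Filter.mem_of_superset (h2.mem_nhds ⟨he, ⟨x, ⟨hx, he⟩, (hΦ' x (hU hx)).symm⟩⟩) ?_
  rintro z ⟨hz, u, ⟨hu1, hu2⟩, hu3⟩
  refine ⟨u, hu1, ?_⟩
  have h3 : π (Φ' u) = π z := by rw [hΦ' u (hU hu1), hu3]
  rw [hπe] at h3
  exact e.injOn hu2 hz h3

theorem no_embed_quot {B : Type} [TopologicalSpace B] (π : WX → B) (cov : IsCoveringMap π)
    (hsurj : Function.Surjective π)
    (hfib : ∀ x y : WX, π x = π y ↔ ∃ k < 3, x = omW k y) (m : WX) (Φ : WX → B)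
    (hc : ContinuousOn Φ {m}ᶜ) (hinj : InjOn Φ {m}ᶜ)
    (hopen : ∀ U : Set WX, U ⊆ {m}ᶜ → IsOpen U → IsOpen (Φ '' U)) : False := by
  obtain ⟨Φ', hc', hΦ'⟩ := lift_cover π cov hsurj m Φ hc
  have hinj' : InjOn Φ' {m}ᶜ := by
    intro x hx y hy hxy
    refine hinj hx hy ?_
    rw [← hΦ' x hx, ← hΦ' y hy, hxy]
  have hopen' := NotA_open π cov m Φ hopen Φ' hc' hΦ'
  -- disjoint images
  have hdisj : ∀ x, x ≠ m → omW 1 (Φ' x) ∉ Φ' '' {m}ᶜ := by
    rintro x hx ⟨y, hy, hxy⟩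
    have h1 : π (Φ' y) = π (Φ' x) := (hfib _ _).2 ⟨1, by norm_num, hxy⟩
    rw [hΦ' y hy, hΦ' x hx] at h1
    have h2 := hinj hy hx h1
    rw [h2] at hxy
    exact omW_ne (Or.inl rfl) (Φ' x) hxy.symm
  obtain ⟨φ, hφ⟩ := exists_avoid m m
  have hav : ∀ z ∈ closedBall (0 : ℂ) 1, NotA_v φ z ≠ m := by
    intro z hz h
    have h5 : ‖z‖ ≤ 1 := mem_closedBall_zero_iff.1 hz
    refine (hφ z h5).1 ?_
    rw [← NotA_v_val h5, h]
  have hK : IsCompact (NotA_v φ '' closedBall 0 1) :=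
    (isCompact_closedBall 0 1).image (NotA_v_cont φ)
  obtain ⟨p, κ, q, hp, hpK, hκ, hq, hout⟩ := exists_collapse m Φ' hc' hinj' hopen' _ hK
    (by rintro ⟨z, hz, h⟩; exact hav z hz h)
  obtain ⟨Ho, hHo, hHo0, hHo1⟩ := exists_om_homotopy
  -- continuity of the lifted sphere
  have hv' : ContinuousOn (fun z => Φ' (NotA_v φ z)) (closedBall 0 1) :=
    hc'.comp (NotA_v_cont φ).continuousOn (fun z hz => hav z hz)
  have hom : Continuous (omW 1) := by
    have : omW 1 = fun S => Ho 1 S := funext fun S => (hHo1 S).symm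
    rw [this]
    exact hHo.comp (Continuous.prodMk_right 1)
  have hw : ContinuousOn (fun z => q (omW 1 (Φ' (NotA_v φ z)))) (closedBall 0 1) :=
    hq.comp (hom.comp_continuousOn hv') (fun z hz => hdisj _ (hav z hz))
  have hbd : ∀ z : ℂ, ‖z‖ = 1 → Φ' (NotA_v φ z) = Φ' (NotA_v φ 1) := by
    intro z hz
    rw [NotA_v_bd hz]
  -- second homotopy
  have hL2 : LiftU (fun z => κ (q (omW 1 (Φ' (NotA_v φ z))))) := by
    have h := LiftU.homotopy
      (fun s z => κ ((1 - s) • q (omW 1 (Φ' (NotA_v φ z))))) ?_ ?_ ?_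
    · simpa using h
    · refine hκ.comp ?_ ?_
      · refine ContinuousOn.smul (continuous_const.sub continuous_fst).continuousOn ?_
        exact hw.comp continuous_snd.continuousOn (fun x hx => hx.2)
      · rintro ⟨s, z⟩ ⟨hs, hz⟩
        have h6 := (hout _ (hdisj _ (hav z hz))).1
        rw [mem_closedBall_zero_iff] at h6 ⊢
        rw [norm_smul, Real.norm_of_nonneg (by linarith [hs.2])]
        have h7 : 1 - s ≤ 1 := by linarith [hs.1]
        have h8 : 0 ≤ 1 - s := by linarith [hs.2]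
        change (1 - s) * ‖q (omW 1 (Φ' (NotA_v φ z)))‖ ≤ 1
        nlinarith [norm_nonneg (q (omW 1 (Φ' (NotA_v φ z))))]
    · intro s _ z hz
      simp only [hbd z hz]
    · simp only [sub_self, zero_smul]
      exact liftU_const _
  have hL1 : LiftU (fun z => p (Ho 0 (Φ' (NotA_v φ z)))) := by
    refine LiftU.homotopy (fun s z => p (Ho s (Φ' (NotA_v φ z)))) ?_ ?_ ?_
    · have h9 : ContinuousOn (fun x : ℝ × ℂ => (x.1, Φ' (NotA_v φ x.2)))
          (Icc 0 1 ×ˢ closedBall 0 1) :=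
        continuous_fst.continuousOn.prodMk
          (hv'.comp continuous_snd.continuousOn (fun x hx => hx.2))
      exact hp.comp_continuousOn (hHo.comp_continuousOn h9)
    · intro s _ z hz
      simp only [hbd z hz]
    · refine LiftU_congr hL2 fun z hz => ?_
      change κ (q (omW 1 (Φ' (NotA_v φ z)))) = p (Ho 1 (Φ' (NotA_v φ z)))
      rw [hHo1, (hout _ (hdisj _ (hav z hz))).2]
  refine NotA_no_lift φ (LiftU_congr hL1 fun z hz => ?_)
  change p (Ho 0 (Φ' (NotA_v φ z))) = NotA_v φ z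
  rw [hHo0]
  exact hpK _ ⟨z, hz, rfl⟩

end Wu
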