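import Pool.Agent.Lib.MP_60079e_gt.CatB
import Pool.Agent.Lib.MP_60079e_gt.MainA
import Pool.Agent.Lib.MP_60079e_gt.MainB
import Pool.Agent.Lib.MP_60079e_gt.NotA

/-! Assembly. -/

open Set Metric Topology
open scoped ContDiff

namespace Wu

theorem main (C : WuCat.Cat) : ∃ W : WuCat.Mfd C, W.Closed ∧ WuCat.IsWu W ∧
    ∃ M N P : WuCat.Mfd C, M.Closed ∧ N.Closed ∧ P.Closed ∧ WuCat.IsConnSum M N P ∧
      WuCat.Divides W P ∧ ¬ WuCat.Divides W M ∧ ¬ WuCat.Divides W N := by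
  obtain ⟨B⟩ := exists_baseA
  obtain ⟨S0, Q, N, Y, hN, hY, ⟨i1, j1, Φ1, Ψ1, h1⟩, j, ΦA, Ψ, h2, R, -, hR⟩ := exists_sums B
  refine ⟨toC C WM, closed_WM, isWu_toC C, toC C B.A, toC C N, toC C Q.P, B.closed, hN,
    Q.closed, ⟨_, _, _, _, connSumData_toC C h2⟩, ⟨toC C Y, hY, _, _, _, _,
      connSumData_toC C h1⟩, ?_, ?_⟩
  · rintro ⟨Y', -, i', j', Φ', Ψ', h3⟩
    have hc : ContinuousOn (Φ' : WX → B.A.X) {i' 0}ᶜ := by
      intro x hx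
      exact (h3.Φ_loc x hx).1.continuousWithinAt
    refine no_embed_quot B.π B.cov B.surj B.fib (i' 0) Φ' hc h3.Φ_inj ?_
    intro U hU hUo
    exact isOpen_image_of_locIso (M := toC C WM) (N := toC C B.A) (f := Φ') (U := {i' 0}ᶜ)
      (fun x hx => h3.Φ_loc x hx) U hU hUo
  · rintro ⟨Y', -, i', j', Φ', Ψ', h3⟩
    have hc : ContinuousOn (Φ' : WX → N.X) {i' 0}ᶜ := by
      intro x hx
      exact (h3.Φ_loc x hx).1.continuousWithinAt
    exact no_embed_N B Q N j ΦA Ψ h2 R hR (i' 0) Φ' hc h3.Φ_inj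

end Wu
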