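import Pool.Agent.Lib.MP_60079e_gt.WA
import Pool.Agent.Lib.MP_60079e_gt.HSe

/-! The sphere `v = F Fᵀ` in `W` does not lift to `U(3)`. -/

open Set Metric Topology Matrix
open scoped ContDiff

set_option maxHeartbeats 4000000

namespace Wu

/-- `F z = (√(1-|z|²) + i [[x, y], [y, -x]]) ⊕ 1`, `z = x + i y`. -/
noncomputable def Fz (z : ℂ) : M3 :=
  !![⟨Real.sqrt (1 - Complex.normSq z), z.re⟩, ⟨0, z.im⟩, 0;
     ⟨0, z.im⟩, ⟨Real.sqrt (1 - Complex.normSq z), -z.re⟩, 0;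
     0, 0, 1]

/-- rotation by `ϑ` in the first two coordinates -/
noncomputable def Rot (ϑ : ℝ) : M3 :=
  !![(Real.cos ϑ : ℂ), -(Real.sin ϑ : ℂ), 0; (Real.sin ϑ : ℂ), (Real.cos ϑ : ℂ), 0; 0, 0, 1]

theorem NVa_sq (z : ℂ) (hz : ‖z‖ ≤ 1) :
    Real.sqrt (1 - Complex.normSq z) * Real.sqrt (1 - Complex.normSq z) + z.re * z.re +
      z.im * z.im = 1 := by
  have h : Complex.normSq z ≤ 1 := by
    rw [Complex.normSq_eq_norm_sq]
    nlinarith [norm_nonneg z]
  rw [Real.mul_self_sqrt (by linarith), Complex.normSq_apply]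
  ring

theorem Fz_mem (z : ℂ) (hz : ‖z‖ ≤ 1) : Fz z ∈ SU3 := by
  have h := NVa_sq z hz
  set a := Real.sqrt (1 - Complex.normSq z) with ha
  rw [Matrix.mem_specialUnitaryGroup_iff, Matrix.mem_unitaryGroup_iff, star_eq_conjTranspose]
  refine ⟨?_, ?_⟩
  · ext i j
    fin_cases i <;> fin_cases j <;>
      simp [Fz, Matrix.mul_apply, Fin.sum_univ_three, Complex.ext_iff, ← ha] <;>
      first | nlinarith | (constructor <;> nlinarith)
  · rw [Matrix.det_fin_three]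
    simp [Fz, Complex.ext_iff, ← ha]
    constructor
    · nlinarith
    · ring

theorem continuous_Fz : Continuous Fz := by
  have h1 : Continuous (fun z : ℂ => Real.sqrt (1 - Complex.normSq z)) :=
    Real.continuous_sqrt.comp (continuous_const.sub Complex.continuous_normSq)
  have hmk : ∀ f g : ℂ → ℝ, Continuous f → Continuous g →
      Continuous (fun z : ℂ => (⟨f z, g z⟩ : ℂ)) := by
    intro f g hf hg
    have : (fun z : ℂ => (⟨f z, g z⟩ : ℂ)) = fun z => (f z : ℂ) + (g z : ℂ) * Complex.I := by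
      funext z
      apply Complex.ext <;> simp
    rw [this]
    exact (Complex.continuous_ofReal.comp hf).add
      ((Complex.continuous_ofReal.comp hg).mul continuous_const)
  refine continuous_matrix ?_
  intro i j
  fin_cases i <;> fin_cases j
  all_goals simp only [Fz, Matrix.of_apply, Matrix.cons_val', Matrix.cons_val_zero,
    Matrix.cons_val_one, Matrix.cons_val_fin_one, Fin.zero_eta, Fin.mk_one, Fin.reduceFinMk,
    Matrix.cons_val]
  · exact hmk _ _ h1 Complex.continuous_re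
  · exact hmk _ _ continuous_const Complex.continuous_im
  · exact continuous_const
  · exact hmk _ _ continuous_const Complex.continuous_im
  · exact hmk _ _ h1 Complex.continuous_re.neg
  · exact continuous_const
  · exact continuous_const
  · exact continuous_const
  · exact continuous_const

theorem Rot_mem (ϑ : ℝ) : Rot ϑ ∈ SU3 := by
  have h := Real.sin_sq_add_cos_sq ϑ
  rw [Matrix.mem_specialUnitaryGroup_iff, Matrix.mem_unitaryGroup_iff, star_eq_conjTranspose]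
  refine ⟨?_, ?_⟩
  · ext i j
    fin_cases i <;> fin_cases j <;>
      simp [Rot, Matrix.mul_apply, Fin.sum_univ_three, Complex.ext_iff, Complex.cos_ofReal_re,
        Complex.sin_ofReal_re, Complex.cos_ofReal_im, Complex.sin_ofReal_im] <;>
      nlinarith
  · rw [Matrix.det_fin_three]
    simp [Rot, Complex.ext_iff, Complex.cos_ofReal_re,
        Complex.sin_ofReal_re, Complex.cos_ofReal_im, Complex.sin_ofReal_im]
    nlinarith

/-- On the boundary circle `F (e^{iϑ}) = F(1) Rot(-ϑ)`. -/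
theorem Fz_boundary (ϑ : ℝ) : Fz (Complex.exp (ϑ * Complex.I)) = Fz 1 * Rot (-ϑ) := by
  have hn : Complex.normSq (Complex.exp (ϑ * Complex.I)) = 1 := by
    rw [Complex.normSq_eq_norm_sq, Complex.norm_exp_ofReal_mul_I]
    norm_num
  have hre : (Complex.exp (ϑ * Complex.I)).re = Real.cos ϑ := Complex.exp_ofReal_mul_I_re ϑ
  have him : (Complex.exp (ϑ * Complex.I)).im = Real.sin ϑ := Complex.exp_ofReal_mul_I_im ϑ
  ext i j
  fin_cases i <;> fin_cases j <;>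
    simp [Fz, Rot, Matrix.mul_apply, Fin.sum_univ_three, Complex.ext_iff, hn, hre, him,
      Complex.cos_ofReal_re, Complex.sin_ofReal_re, Complex.cos_ofReal_im, Complex.sin_ofReal_im]

/-- The sphere `v`. -/
noncomputable def vv (z : ℂ) : M3 := Fz z * (Fz z)ᵀ

theorem NVa_Rot_mul_T (ϑ : ℝ) : Rot ϑ * (Rot ϑ)ᵀ = 1 := by
  have h := Real.sin_sq_add_cos_sq ϑ
  ext i j
  fin_cases i <;> fin_cases j <;>
    simp [Rot, Matrix.mul_apply, Fin.sum_univ_three, Complex.ext_iff, Complex.cos_ofReal_re,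
      Complex.sin_ofReal_re, Complex.cos_ofReal_im, Complex.sin_ofReal_im] <;>
    nlinarith

theorem NVa_exists_angle (z : ℂ) (hz : ‖z‖ = 1) : ∃ ϑ : ℝ, z = Complex.exp (ϑ * Complex.I) := by
  refine ⟨Complex.arg z, ?_⟩
  have := Complex.norm_mul_exp_arg_mul_I z
  rw [hz] at this
  simpa using this.symm

theorem vv_boundary (z : ℂ) (hz : ‖z‖ = 1) : vv z = vv 1 := by
  obtain ⟨ϑ, rfl⟩ := NVa_exists_angle z hz
  unfold vv
  rw [Fz_boundary, transpose_mul]
  calc Fz 1 * Rot (-ϑ) * ((Rot (-ϑ))ᵀ * (Fz 1)ᵀ)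
      = Fz 1 * (Rot (-ϑ) * (Rot (-ϑ))ᵀ) * (Fz 1)ᵀ := by simp only [Matrix.mul_assoc]
    _ = Fz 1 * (Fz 1)ᵀ := by rw [NVa_Rot_mul_T, Matrix.mul_one]

/-- A complex matrix which is unitary and orthogonal is real. -/
theorem NVa_real (K : M3) (hU : K * Kᴴ = 1) (hT : K * Kᵀ = 1) (i j : Fin 3) : (K i j).im = 0 := by
  have h1 : Kᴴ * K = 1 := mul_eq_one_comm.mp hU
  have h2 : Kᴴ = Kᵀ := by
    calc Kᴴ = Kᴴ * (K * Kᵀ) := by rw [hT, Matrix.mul_one]
      _ = (Kᴴ * K) * Kᵀ := by rw [Matrix.mul_assoc]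
      _ = Kᵀ := by rw [h1, Matrix.one_mul]
  have h3 : Kᴴ j i = Kᵀ j i := by rw [h2]
  rw [conjTranspose_apply, transpose_apply] at h3
  exact Complex.conj_eq_iff_im.mp h3

/-- the three real coordinates -/
noncomputable def NVa_x (u : Fin 3 → ℂ) : Fin 3 → ℂ :=
  ![((u 0).re : ℂ), ((u 0).im : ℂ), ((u 1).re : ℂ)]

/-- the odd disc -/
noncomputable def NVa_h (K : ℂ → M3) (z : ℂ) (u : Fin 3 → ℂ) : Fin 6 → ℝ :=
  ![((K z *ᵥ NVa_x u) 0).re, ((K z *ᵥ NVa_x u) 1).re, ((K z *ᵥ NVa_x u) 2).re,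
    (u 1).im, (u 2).re, (u 2).im]

theorem NVa_x_cont : Continuous NVa_x := by
  refine continuous_pi fun i => ?_
  fin_cases i
  · exact Complex.continuous_ofReal.comp (Complex.continuous_re.comp (continuous_apply 0))
  · exact Complex.continuous_ofReal.comp (Complex.continuous_im.comp (continuous_apply 0))
  · exact Complex.continuous_ofReal.comp (Complex.continuous_re.comp (continuous_apply 1))

theorem NVa_x_neg (u : Fin 3 → ℂ) : NVa_x (-u) = -NVa_x u := by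
  funext i
  fin_cases i <;> simp [NVa_x]

theorem NVa_cT {X : Type} [TopologicalSpace X] (A : X → M3) (s : Set X)
    (hA : ContinuousOn A s) : ContinuousOn (fun x => (A x)ᴴ) s := by
  have hct : Continuous (fun M : M3 => Mᴴ) := continuous_id.matrix_conjTranspose
  exact hct.comp_continuousOn hA

theorem NVa_cmul {X : Type} [TopologicalSpace X] (A B : X → M3) (s : Set X)
    (hA : ContinuousOn A s) (hB : ContinuousOn B s) : ContinuousOn (fun x => A x * B x) s := by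
  have hmm : Continuous (fun q : M3 × M3 => q.1 * q.2) :=
    continuous_fst.matrix_mul continuous_snd
  exact hmm.comp_continuousOn (hA.prodMk hB)

theorem NVa_cvec {X : Type} [TopologicalSpace X] (A : X → M3) (B : X → (Fin 3 → ℂ)) (s : Set X)
    (hA : ContinuousOn A s) (hB : ContinuousOn B s) : ContinuousOn (fun x => A x *ᵥ B x) s := by
  have hm : Continuous (fun q : M3 × (Fin 3 → ℂ) => q.1 *ᵥ q.2) :=
    continuous_fst.matrix_mulVec continuous_snd
  exact hm.comp_continuousOn (hA.prodMk hB)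

theorem NVa_conj_mem {z : ℂ} (hz : ‖z‖ ≤ 1) : (starRingEnd ℂ) z ∈ closedBall (0 : ℂ) 1 := by
  rw [mem_closedBall_zero_iff, RCLike.norm_conj]
  exact hz

/-- the real orthogonal matrix -/
noncomputable def NVa_K (V : ℂ → M3) (z : ℂ) : M3 :=
  (V ((starRingEnd ℂ) z))ᴴ * Fz ((starRingEnd ℂ) z)

theorem NVa_KU (V : ℂ → M3)
    (hU : ∀ z ∈ closedBall (0 : ℂ) 1, V z ∈ Matrix.unitaryGroup (Fin 3) ℂ)
    (z : ℂ) (hz : ‖z‖ ≤ 1) : NVa_K V z * (NVa_K V z)ᴴ = 1 := by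
  have h1 := hU _ (NVa_conj_mem hz)
  have h2 : Fz ((starRingEnd ℂ) z) ∈ SU3 := Fz_mem _ (by rw [RCLike.norm_conj]; exact hz)
  rw [Matrix.mem_specialUnitaryGroup_iff] at h2
  have h3 := Matrix.mem_unitaryGroup_iff'.mp h1
  have h4 := Matrix.mem_unitaryGroup_iff.mp h2.1
  rw [star_eq_conjTranspose] at h3 h4
  unfold NVa_K
  generalize V ((starRingEnd ℂ) z) = A at h3 ⊢
  generalize Fz ((starRingEnd ℂ) z) = B at h4 ⊢
  rw [conjTranspose_mul, conjTranspose_conjTranspose]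
  calc Aᴴ * B * (Bᴴ * A) = Aᴴ * (B * Bᴴ) * A := by simp only [Matrix.mul_assoc]
    _ = 1 := by rw [h4, Matrix.mul_one, h3]

theorem NVa_KT (V : ℂ → M3)
    (hU : ∀ z ∈ closedBall (0 : ℂ) 1, V z ∈ Matrix.unitaryGroup (Fin 3) ℂ)
    (hv : ∀ z ∈ closedBall (0 : ℂ) 1, V z * (V z)ᵀ = vv z)
    (z : ℂ) (hz : ‖z‖ ≤ 1) : NVa_K V z * (NVa_K V z)ᵀ = 1 := by
  have h1 := hU _ (NVa_conj_mem hz)
  have h5 := hv _ (NVa_conj_mem hz)
  have h3 := Matrix.mem_unitaryGroup_iff'.mp h1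
  rw [star_eq_conjTranspose] at h3
  unfold vv at h5
  unfold NVa_K
  generalize V ((starRingEnd ℂ) z) = A at h3 h5 ⊢
  generalize Fz ((starRingEnd ℂ) z) = B at h5 ⊢
  rw [transpose_mul]
  have h6 : Aᵀ * (Aᴴ)ᵀ = 1 := by
    rw [← transpose_mul, h3, transpose_one]
  calc Aᴴ * B * (Bᵀ * (Aᴴ)ᵀ) = Aᴴ * (B * Bᵀ) * (Aᴴ)ᵀ := by simp only [Matrix.mul_assoc]
    _ = Aᴴ * (A * Aᵀ) * (Aᴴ)ᵀ := by rw [h5]
    _ = (Aᴴ * A) * (Aᵀ * (Aᴴ)ᵀ) := by simp only [Matrix.mul_assoc]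
    _ = 1 := by rw [h3, h6, Matrix.mul_one]

theorem NVa_Kb (V : ℂ → M3) (hb : ∀ z : ℂ, ‖z‖ = 1 → V z = V 1) (ϑ : ℝ) :
    NVa_K V (Complex.exp (ϑ * Complex.I)) = NVa_K V 1 * Rot ϑ := by
  have hc : (starRingEnd ℂ) (Complex.exp (ϑ * Complex.I)) =
      Complex.exp (((-ϑ : ℝ) : ℂ) * Complex.I) := by
    rw [← Complex.exp_conj]
    congr 1
    simp
  unfold NVa_K
  rw [hc, Fz_boundary, hb _ (Complex.norm_exp_ofReal_mul_I _), map_one, neg_neg,
    Matrix.mul_assoc]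

theorem NVa_Kc (V : ℂ → M3) (hV : ContinuousOn V (closedBall 0 1)) :
    ContinuousOn (NVa_K V) (closedBall 0 1) := by
  have h1 : ContinuousOn (fun z : ℂ => V ((starRingEnd ℂ) z)) (closedBall 0 1) :=
    hV.comp Complex.continuous_conj.continuousOn
      (fun z hz => NVa_conj_mem (by rwa [mem_closedBall_zero_iff] at hz))
  have h2 : ContinuousOn (fun z : ℂ => (V ((starRingEnd ℂ) z))ᴴ) (closedBall 0 1) :=
    NVa_cT _ _ h1
  have h3 : ContinuousOn (fun z : ℂ => Fz ((starRingEnd ℂ) z)) (closedBall 0 1) :=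
    (continuous_Fz.comp Complex.continuous_conj).continuousOn
  exact NVa_cmul _ _ _ h2 h3

theorem NVa_hc (K : ℂ → M3) (hKc : ContinuousOn K (closedBall 0 1)) :
    ContinuousOn (fun p : ℂ × (Fin 3 → ℂ) => NVa_h K p.1 p.2) {p | ‖p.1‖ ≤ 1 ∧ p.2 ≠ 0} := by
  have h1 : ContinuousOn (fun p : ℂ × (Fin 3 → ℂ) => K p.1) {p | ‖p.1‖ ≤ 1 ∧ p.2 ≠ 0} :=
    hKc.comp continuous_fst.continuousOn
      (fun p hp => by rw [mem_closedBall_zero_iff]; exact hp.1)
  have h2 : ContinuousOn (fun p : ℂ × (Fin 3 → ℂ) => (K p.1) *ᵥ NVa_x p.2)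
      {p | ‖p.1‖ ≤ 1 ∧ p.2 ≠ 0} :=
    NVa_cvec _ _ _ h1 (NVa_x_cont.comp continuous_snd).continuousOn
  have h3 : ∀ i : Fin 3, ContinuousOn (fun p : ℂ × (Fin 3 → ℂ) => ((K p.1 *ᵥ NVa_x p.2) i).re)
      {p | ‖p.1‖ ≤ 1 ∧ p.2 ≠ 0} := by
    intro i
    have hci : Continuous (fun y : Fin 3 → ℂ => (y i).re) :=
      Complex.continuous_re.comp (continuous_apply i)
    exact hci.comp_continuousOn h2
  have h4 : ∀ i : Fin 3, Continuous (fun p : ℂ × (Fin 3 → ℂ) => (p.2 i).re) := fun i =>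
    Complex.continuous_re.comp ((continuous_apply i).comp continuous_snd)
  have h5 : ∀ i : Fin 3, Continuous (fun p : ℂ × (Fin 3 → ℂ) => (p.2 i).im) := fun i =>
    Complex.continuous_im.comp ((continuous_apply i).comp continuous_snd)
  refine continuousOn_pi.mpr fun i => ?_
  fin_cases i
  · exact h3 0
  · exact h3 1
  · exact h3 2
  · exact (h5 1).continuousOn
  · exact (h4 2).continuousOn
  · exact (h5 2).continuousOn

theorem NVa_hn (K : M3) (hKU : K * Kᴴ = 1) (hKT : K * Kᵀ = 1) (u : Fin 3 → ℂ)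
    (e0 : ((K *ᵥ NVa_x u) 0).re = 0) (e1 : ((K *ᵥ NVa_x u) 1).re = 0)
    (e2 : ((K *ᵥ NVa_x u) 2).re = 0) : (u 0).re = 0 ∧ (u 0).im = 0 ∧ (u 1).re = 0 := by
  have hre := NVa_real K hKU hKT
  have him : ∀ i, ((K *ᵥ NVa_x u) i).im = 0 := by
    intro i
    simp [Matrix.mulVec, dotProduct, Fin.sum_univ_three, NVa_x, hre]
  have hy : K *ᵥ NVa_x u = 0 := by
    funext i
    apply Complex.ext
    · fin_cases i
      · exact e0
      · exact e1
      · exact e2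
    · exact him i
  have hx : NVa_x u = 0 := by
    have h7 : Kᴴ * K = 1 := mul_eq_one_comm.mp hKU
    calc NVa_x u = (Kᴴ * K) *ᵥ NVa_x u := by rw [h7, Matrix.one_mulVec]
      _ = Kᴴ *ᵥ (K *ᵥ NVa_x u) := by rw [Matrix.mulVec_mulVec]
      _ = 0 := by rw [hy, Matrix.mulVec_zero]
  refine ⟨?_, ?_, ?_⟩
  · have := congrFun hx 0
    simpa [NVa_x] using this
  · have := congrFun hx 1
    simpa [NVa_x] using this
  · have := congrFun hx 2
    simpa [NVa_x] using this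

theorem NVa_rot (ϑ : ℝ) (u : Fin 3 → ℂ) :
    Rot ϑ *ᵥ NVa_x u = NVa_x ![Complex.exp (ϑ * Complex.I) * u 0, u 1, u 2] := by
  have hre : (Complex.exp (ϑ * Complex.I)).re = Real.cos ϑ := Complex.exp_ofReal_mul_I_re ϑ
  have him : (Complex.exp (ϑ * Complex.I)).im = Real.sin ϑ := Complex.exp_ofReal_mul_I_im ϑ
  funext i
  fin_cases i
  · simp [Rot, NVa_x, Matrix.mulVec, dotProduct, Fin.sum_univ_three, Complex.ext_iff,
      hre, him, Complex.cos_ofReal_re, Complex.sin_ofReal_re, Complex.cos_ofReal_im,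
      Complex.sin_ofReal_im]
    ring
  · simp [Rot, NVa_x, Matrix.mulVec, dotProduct, Fin.sum_univ_three, Complex.ext_iff,
      hre, him, Complex.cos_ofReal_re, Complex.sin_ofReal_re, Complex.cos_ofReal_im,
      Complex.sin_ofReal_im]
    ring
  · simp [Rot, NVa_x, Matrix.mulVec, dotProduct, Fin.sum_univ_three]

theorem NVa_h_eq (K : ℂ → M3) (z w : ℂ) (u v : Fin 3 → ℂ)
    (h : K z *ᵥ NVa_x u = K w *ᵥ NVa_x v) (h1 : (u 1).im = (v 1).im) (h2 : u 2 = v 2) :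
    NVa_h K z u = NVa_h K w v := by
  unfold NVa_h
  rw [h, h1, h2]

theorem no_unitary_lift (V : ℂ → M3) (hV : ContinuousOn V (closedBall 0 1))
    (hU : ∀ z ∈ closedBall (0 : ℂ) 1, V z ∈ Matrix.unitaryGroup (Fin 3) ℂ)
    (hv : ∀ z ∈ closedBall (0 : ℂ) 1, V z * (V z)ᵀ = vv z)
    (hb : ∀ z : ℂ, ‖z‖ = 1 → V z = V 1) : False := by
  refine WuHS.no_rotB (NVa_h (NVa_K V)) ⟨NVa_hc _ (NVa_Kc V hV), ?_, ?_⟩ ?_
  · intro z u _ _
    have h0 : NVa_K V z *ᵥ NVa_x (-u) = -(NVa_K V z *ᵥ NVa_x u) := by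
      rw [NVa_x_neg, Matrix.mulVec_neg]
    funext i
    fin_cases i <;> simp [NVa_h, h0]
  · intro z u hz hu h
    apply hu
    have e0 : ((NVa_K V z *ᵥ NVa_x u) 0).re = 0 := congrFun h 0
    have e1 : ((NVa_K V z *ᵥ NVa_x u) 1).re = 0 := congrFun h 1
    have e2 : ((NVa_K V z *ᵥ NVa_x u) 2).re = 0 := congrFun h 2
    have e3 : (u 1).im = 0 := congrFun h 3
    have e4 : (u 2).re = 0 := congrFun h 4
    have e5 : (u 2).im = 0 := congrFun h 5
    obtain ⟨x0, x1, x2⟩ := NVa_hn (NVa_K V z) (NVa_KU V hU z hz) (NVa_KT V hU hv z hz) u e0 e1 e2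
    funext i
    fin_cases i
    · exact Complex.ext x0 x1
    · exact Complex.ext x2 e3
    · exact Complex.ext e4 e5
  · intro z u hz _
    obtain ⟨ϑ, rfl⟩ := NVa_exists_angle z hz
    refine NVa_h_eq _ _ _ _ _ ?_ rfl rfl
    rw [NVa_Kb V hb, ← Matrix.mulVec_mulVec, NVa_rot]

end Wu
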