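import Pool.Agent.Lib.MP_60079e_gt.NVa

/-! The sphere `v` is essential in `W`. -/

open Set Metric Topology Matrix
open scoped ContDiff

namespace Wu

/-- `φ : D²/∂ → W` lifts to `U(3)`. -/
def LiftU (φ : ℂ → WX) : Prop :=
  ∃ V : ℂ → M3, ContinuousOn V (closedBall 0 1) ∧
    (∀ z ∈ closedBall (0 : ℂ) 1, V z ∈ Matrix.unitaryGroup (Fin 3) ℂ) ∧
    (∀ z ∈ closedBall (0 : ℂ) 1, V z * (V z)ᵀ = (φ z).1) ∧ ∀ z : ℂ, ‖z‖ = 1 → V z = V 1

theorem LiftU.step (φ ψ : ℂ → WX) (hψ : ContinuousOn ψ (closedBall 0 1))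
    (hb : ∀ z : ℂ, ‖z‖ = 1 → ψ z = ψ 1)
    (hd : ∀ z ∈ closedBall (0 : ℂ) 1, ((φ z).1 + (ψ z).1).det ≠ 0) (h : LiftU φ) : LiftU ψ := by
  obtain ⟨σ, hσ⟩ := exists_unitaryRoot
  obtain ⟨V, hVc, hVu, hVV, hVb⟩ := h
  have e1 : ∀ z ∈ closedBall (0 : ℂ) 1, V z * (V z)ᴴ = 1 := fun z hz =>
    Matrix.mem_unitaryGroup_iff.1 (hVu z hz)
  have e2 : ∀ z ∈ closedBall (0 : ℂ) 1, ((V z)ᴴ)ᵀ * (V z)ᵀ = 1 := fun z hz => by
    rw [← Matrix.transpose_mul, e1 z hz, Matrix.transpose_one]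
  have hS : ∀ z ∈ closedBall (0 : ℂ) 1,
      V z * ((V z)ᴴ * (ψ z).1 * ((V z)ᴴ)ᵀ) * (V z)ᵀ = (ψ z).1 := fun z hz => by
    calc V z * ((V z)ᴴ * (ψ z).1 * ((V z)ᴴ)ᵀ) * (V z)ᵀ
        = (V z * (V z)ᴴ) * (ψ z).1 * (((V z)ᴴ)ᵀ * (V z)ᵀ) := by simp only [Matrix.mul_assoc]
      _ = (ψ z).1 := by rw [e1 z hz, e2 z hz, Matrix.one_mul, Matrix.mul_one]
  have hSu : ∀ z ∈ closedBall (0 : ℂ) 1,
      (V z)ᴴ * (ψ z).1 * ((V z)ᴴ)ᵀ ∈ Matrix.unitaryGroup (Fin 3) ℂ := fun z hz => by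
    have h1 : (V z)ᴴ ∈ Matrix.unitaryGroup (Fin 3) ℂ := by
      rw [Matrix.mem_unitaryGroup_iff, Matrix.star_eq_conjTranspose,
        Matrix.conjTranspose_conjTranspose, ← Matrix.star_eq_conjTranspose]
      exact Matrix.mem_unitaryGroup_iff'.1 (hVu z hz)
    have h2 : (ψ z).1 ∈ Matrix.unitaryGroup (Fin 3) ℂ :=
      (Matrix.mem_specialUnitaryGroup_iff.1 (ψ z).2.1).1
    have h3 : ((V z)ᴴ)ᵀ ∈ Matrix.unitaryGroup (Fin 3) ℂ := by
      rw [Matrix.mem_unitaryGroup_iff', Matrix.star_eq_conjTranspose]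
      have : (((V z)ᴴ)ᵀ)ᴴ = (V z)ᵀ := by
        ext i j
        simp [Matrix.conjTranspose_apply, Matrix.transpose_apply]
      rw [this, ← Matrix.transpose_mul]
      have h4 : (V z)ᴴ * V z = 1 := by
        have := Matrix.mem_unitaryGroup_iff'.1 (hVu z hz)
        simpa [Matrix.star_eq_conjTranspose] using this
      rw [h4, Matrix.transpose_one]
    exact mul_mem (mul_mem h1 h2) h3
  have hSt : ∀ z ∈ closedBall (0 : ℂ) 1,
      ((V z)ᴴ * (ψ z).1 * ((V z)ᴴ)ᵀ)ᵀ = (V z)ᴴ * (ψ z).1 * ((V z)ᴴ)ᵀ := fun z hz => by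
    rw [Matrix.transpose_mul, Matrix.transpose_mul, Matrix.transpose_transpose, (ψ z).2.2,
      Matrix.mul_assoc]
  have hSd : ∀ z ∈ closedBall (0 : ℂ) 1,
      (1 + (V z)ᴴ * (ψ z).1 * ((V z)ᴴ)ᵀ).det ≠ 0 := fun z hz h0 => by
    apply hd z hz
    have : (φ z).1 + (ψ z).1 = V z * (1 + (V z)ᴴ * (ψ z).1 * ((V z)ᴴ)ᵀ) * (V z)ᵀ := by
      rw [Matrix.mul_add, Matrix.add_mul, hS z hz, Matrix.mul_one, hVV z hz]
    rw [this, Matrix.det_mul, Matrix.det_mul, h0, mul_zero, zero_mul]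
  refine ⟨fun z => V z * σ ((V z)ᴴ * (ψ z).1 * ((V z)ᴴ)ᵀ), ?_, ?_, ?_, ?_⟩
  · have c1 : ContinuousOn (fun z => (V z)ᴴ * (ψ z).1 * ((V z)ᴴ)ᵀ) (closedBall 0 1) := by
      have hH : ContinuousOn (fun z => (V z)ᴴ) (closedBall 0 1) :=
        continuous_id.matrix_conjTranspose.comp_continuousOn hVc
      have hT : ContinuousOn (fun z => ((V z)ᴴ)ᵀ) (closedBall 0 1) :=
        continuous_id.matrix_transpose.comp_continuousOn hH
      exact (hH.mul (continuous_subtype_val.comp_continuousOn hψ)).mul hT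
    refine hVc.mul ?_
    intro z hz
    exact ContinuousAt.comp_continuousWithinAt (g := σ)
      (f := fun z => (V z)ᴴ * (ψ z).1 * ((V z)ᴴ)ᵀ) (hσ _ (hSu z hz) (hSt z hz) (hSd z hz)).1
      (c1 z hz)
  · intro z hz
    exact mul_mem (hVu z hz) (hσ _ (hSu z hz) (hSt z hz) (hSd z hz)).2.1
  · intro z hz
    have h3 := (hσ _ (hSu z hz) (hSt z hz) (hSd z hz)).2.2
    calc _ = V z * (σ ((V z)ᴴ * (ψ z).1 * ((V z)ᴴ)ᵀ) *
          (σ ((V z)ᴴ * (ψ z).1 * ((V z)ᴴ)ᵀ))ᵀ) * (V z)ᵀ := by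
            rw [Matrix.transpose_mul]; simp only [Matrix.mul_assoc]
      _ = (ψ z).1 := by rw [h3, hS z hz]
  · intro z hz
    show V z * σ ((V z)ᴴ * (ψ z).1 * ((V z)ᴴ)ᵀ) = V 1 * σ ((V 1)ᴴ * (ψ 1).1 * ((V 1)ᴴ)ᵀ)
    rw [hVb z hz, hb z hz]

/-- Liftability is a homotopy invariant. -/
theorem LiftU.homotopy (H : ℝ → ℂ → WX)
    (hH : ContinuousOn (fun p : ℝ × ℂ => H p.1 p.2) (Icc 0 1 ×ˢ closedBall 0 1))
    (hb : ∀ s ∈ Icc (0 : ℝ) 1, ∀ z : ℂ, ‖z‖ = 1 → H s z = H s 1) (h : LiftU (H 1)) :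
    LiftU (H 0) := by
  -- the homotopy on subtypes
  let I := Icc (0 : ℝ) 1
  let B := closedBall (0 : ℂ) 1
  have hc : Continuous (fun p : I × B => H p.1 p.2) := by
    have h1 : Continuous (fun p : I × B => ((p.1 : ℝ), (p.2 : ℂ))) := by fun_prop
    exact hH.comp_continuous h1 (fun p => ⟨p.1.2, p.2.2⟩)
  have : CompactSpace B := isCompact_iff_compactSpace.1 (isCompact_closedBall 0 1)
  have hD : Continuous (fun p : (I × I) × B => ((H p.1.1 p.2).1 + (H p.1.2 p.2).1).det) := by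
    have h1 : Continuous (fun p : (I × I) × B => (H p.1.1 p.2).1) :=
      continuous_subtype_val.comp (hc.comp (by fun_prop : Continuous
        (fun p : (I × I) × B => ((p.1.1, p.2) : I × B))))
    have h2 : Continuous (fun p : (I × I) × B => (H p.1.2 p.2).1) :=
      continuous_subtype_val.comp (hc.comp (by fun_prop : Continuous
        (fun p : (I × I) × B => ((p.1.2, p.2) : I × B))))
    exact (h1.add h2).matrix_det
  have hloc : ∀ s0 : I, ∀ᶠ p : I × I in 𝓝 (s0, s0), ∀ z : B,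
      ((H p.1 z).1 + (H p.2 z).1).det ≠ 0 := by
    intro s0
    have h1 : ∀ z ∈ (univ : Set B), ∀ᶠ q : (I × I) × B in 𝓝 ((s0, s0), z),
        ((H q.1.1 q.2).1 + (H q.1.2 q.2).1).det ≠ 0 := by
      intro z _
      apply hD.continuousAt.eventually_ne
      show ((H s0 z).1 + (H s0 z).1).det ≠ 0
      have e1 : (H s0 z).1 + (H s0 z).1 = (2 : ℂ) • (H s0 z).1 := by rw [two_smul]
      have e2 : (H s0 z).1.det = 1 := (Matrix.mem_specialUnitaryGroup_iff.1 (H s0 z).2.1).2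
      rw [e1, Matrix.det_smul, e2]
      norm_num
    have h2 := IsCompact.eventually_forall_of_forall_eventually
      (P := fun (p : I × I) (z : B) => ((H p.1 z).1 + (H p.2 z).1).det ≠ 0)
      (isCompact_univ (X := B)) h1
    filter_upwards [h2] with p hp z
    exact hp z (mem_univ z)
  have hcont : ∀ s : I, ContinuousOn (H s) (closedBall 0 1) := by
    intro s
    have h1 : ContinuousOn (fun z : ℂ => ((s : ℝ), z)) (closedBall 0 1) := by fun_prop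
    exact hH.comp h1 (fun z hz => ⟨s.2, hz⟩)
  have hconst : IsLocallyConstant (fun s : I => LiftU (H s)) := by
    rw [IsLocallyConstant.iff_eventually_eq]
    intro s0
    have h1 := hloc s0
    have h2 : ∀ᶠ s : I in 𝓝 s0, ∀ z : B, ((H s z).1 + (H s0 z).1).det ≠ 0 := by
      have hcs : ContinuousAt (fun s : I => ((s, s0) : I × I)) s0 := by fun_prop
      exact hcs.eventually h1
    filter_upwards [h2] with s hs
    apply propext
    constructor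
    · intro hl
      exact LiftU.step (H s) (H s0) (hcont s0) (hb s0 s0.2) (fun z hz => hs ⟨z, hz⟩) hl
    · intro hl
      refine LiftU.step (H s0) (H s) (hcont s) (hb s s.2) (fun z hz => ?_) hl
      rw [add_comm]
      exact hs ⟨z, hz⟩
  have : PreconnectedSpace I := Subtype.preconnectedSpace isPreconnected_Icc
  have := hconst.apply_eq_of_preconnectedSpace (⟨1, zero_le_one, le_rfl⟩ : I)
    ⟨0, le_rfl, zero_le_one⟩
  exact (this : LiftU (H 1) = LiftU (H 0)) ▸ h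

theorem liftU_const (S : WX) : LiftU (fun _ => S) := by
  obtain ⟨C, hC, hCS⟩ := takagi S.1 S.2.1 S.2.2
  exact ⟨fun _ => C, continuousOn_const, fun _ _ => (Matrix.mem_specialUnitaryGroup_iff.1 hC).1,
    fun _ _ => hCS, fun _ _ => rfl⟩

end Wu
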