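import Pool.Agent.Lib.MP_60079e_gt.WF

/-! The second cell `ib : E5 → W` (last column near `-e₁`), injective modulo `μ₃`. -/

open Set Metric Topology Matrix
open scoped ContDiff

namespace Wu

/-- the cube root of unity `e^{2πi/3}` -/
noncomputable def om : ℂ := ⟨-1 / 2, Real.sqrt 3 / 2⟩

theorem WI_om_sq : om ^ 2 = ⟨-1 / 2, -(Real.sqrt 3 / 2)⟩ := by
  have h3 : Real.sqrt 3 * Real.sqrt 3 = 3 := Real.mul_self_sqrt (by norm_num)
  rw [sq]
  apply Complex.ext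
  · simp only [om, Complex.mul_re]
    linarith
  · simp only [om, Complex.mul_im]
    ring

theorem om_cube : om ^ 3 = 1 := by
  have h3 : Real.sqrt 3 * Real.sqrt 3 = 3 := Real.mul_self_sqrt (by norm_num)
  rw [pow_succ, WI_om_sq]
  apply Complex.ext
  · simp only [om, Complex.mul_re, Complex.one_re]
    linarith
  · simp only [om, Complex.mul_im, Complex.one_im]
    ring

theorem WI_om_norm : om * star om = 1 := by
  have h3 : Real.sqrt 3 * Real.sqrt 3 = 3 := Real.mul_self_sqrt (by norm_num)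
  apply Complex.ext
  · simp only [om, Complex.star_def, Complex.mul_re, Complex.conj_re, Complex.conj_im,
      Complex.one_re]
    linarith
  · simp only [om, Complex.star_def, Complex.mul_im, Complex.conj_re, Complex.conj_im,
      Complex.one_im]
    ring

theorem WI_om_pow (k : ℕ) : om ^ k = 1 ∨ om ^ k = om ∨ om ^ k = om ^ 2 := by
  have h : om ^ k = om ^ (k % 3) := by
    conv_lhs => rw [← Nat.div_add_mod k 3, pow_add, pow_mul, om_cube, one_pow, one_mul]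
  have h2 : k % 3 < 3 := Nat.mod_lt _ (by norm_num)
  rw [h]
  interval_cases k % 3
  · left; rw [pow_zero]
  · right; left; rw [pow_one]
  · right; right; rfl

theorem om_smul_mem {S : M3} (hS : S ∈ SU3 ∧ Sᵀ = S) (k : ℕ) :
    om ^ k • S ∈ SU3 ∧ (om ^ k • S)ᵀ = om ^ k • S := by
  obtain ⟨h1, h2⟩ := hS
  have h3 := Matrix.mem_specialUnitaryGroup_iff.1 h1
  refine ⟨Matrix.mem_specialUnitaryGroup_iff.2 ⟨?_, ?_⟩, ?_⟩
  · rw [Matrix.mem_unitaryGroup_iff, star_smul, Matrix.smul_mul, Matrix.mul_smul, smul_smul,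
      (Matrix.mem_unitaryGroup_iff.1 h3.1), star_pow, ← mul_pow, WI_om_norm, one_pow, one_smul]
  · rw [Matrix.det_smul, h3.2, mul_one, Fintype.card_fin, ← pow_mul, mul_comm, pow_mul, om_cube,
      one_pow]
  · rw [Matrix.transpose_smul, h2]

/-- multiplication by `om ^ k` on `W` -/
noncomputable def omW (k : ℕ) (S : WX) : WX := ⟨om ^ k • S.1, om_smul_mem S.2 k⟩

theorem opAt_omW (k : ℕ) (S : WX) : OPAt WM WM (omW k) S := by
  have hg : om ^ (2 * k) • (1 : M3) ∈ SU3 := (om_smul_mem ⟨SU3.one_mem, Matrix.transpose_one⟩ _).1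
  have h : omW k = trW (om ^ (2 * k) • (1 : M3)) hg := by
    funext T
    apply Subtype.ext
    show om ^ k • T.1 = tr (om ^ (2 * k) • (1 : M3)) T.1
    unfold tr
    rw [Matrix.transpose_smul, Matrix.transpose_one, Matrix.smul_mul, Matrix.one_mul,
      Matrix.smul_mul, Matrix.mul_smul, Matrix.mul_one, smul_smul, ← pow_add]
    have h2 : 2 * k + 2 * k = 3 * k + k := by ring
    rw [h2, pow_add, pow_mul, om_cube, one_pow, one_mul]
  rw [h]
  exact opAt_tr _ hg S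

theorem omW_ne {k : ℕ} (hk : k = 1 ∨ k = 2) (S : WX) : omW k S ≠ S := by
  intro h
  have h1 : om ^ k • S.1 = S.1 := congrArg Subtype.val h
  have h2 : (om ^ k - 1) • S.1 = 0 := by rw [sub_smul, one_smul, h1, sub_self]
  have h3 : S.1 ≠ 0 := by
    intro h0
    have h4 := (Matrix.mem_specialUnitaryGroup_iff.1 S.2.1).2
    rw [h0, Matrix.det_zero] at h4
    exact zero_ne_one h4
  rcases smul_eq_zero.1 h2 with h4 | h4
  · have h5 : (om ^ k).re = 1 := by
      rw [sub_eq_zero.1 h4, Complex.one_re]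
    rcases hk with rfl | rfl
    · rw [pow_one] at h5
      simp only [om] at h5
      norm_num at h5
    · rw [WI_om_sq] at h5
      norm_num at h5
  · exact h3 h4

noncomputable def kap : ℝ := 168 / 625

noncomputable def rr : ℝ := kap ^ 2 / 64

/-- squared distance of the last column to the crossing circle -/
noncomputable def mu (T : M3) : ℝ := Complex.normSq (T 0 2 + kap) + Complex.normSq (T 1 2)

noncomputable def Ub (x : E5) : C3 :=
  let n : ℝ := 2 * Real.sqrt (1 + x 0 ^ 2 + x 1 ^ 2 + x 2 ^ 2)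
  ![⟨-1, -(x 0) / n⟩, ⟨-(x 1) / n, -(x 2) / n⟩, ⟨x 3, x 4⟩]

theorem Ub_ne (x : E5) : Ub x 0 ≠ 0 ∨ Ub x 1 ≠ 0 := by
  left
  intro h
  have h1 := congrArg Complex.re h
  simp [Ub] at h1

/-- the norm factor in `Ub` -/
noncomputable def WI_n (x : E5) : ℝ := 2 * Real.sqrt (1 + x 0 ^ 2 + x 1 ^ 2 + x 2 ^ 2)

theorem WI_s_pos (x : E5) : 0 < 1 + x 0 ^ 2 + x 1 ^ 2 + x 2 ^ 2 := by positivity

theorem WI_n_pos (x : E5) : 0 < WI_n x := by
  unfold WI_n
  have := Real.sqrt_pos.2 (WI_s_pos x)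
  positivity

theorem WI_n_sq (x : E5) : WI_n x ^ 2 = 4 * (1 + x 0 ^ 2 + x 1 ^ 2 + x 2 ^ 2) := by
  unfold WI_n
  rw [mul_pow, Real.sq_sqrt (WI_s_pos x).le]
  ring

theorem WI_Ub (x : E5) : Ub x = ![⟨-1, -(x 0) / WI_n x⟩, ⟨-(x 1) / WI_n x, -(x 2) / WI_n x⟩,
    ⟨x 3, x 4⟩] := rfl

theorem WI_real6 (x : E5) : real6 (Ub x) =
    ![-1, -(x 0) / WI_n x, -(x 1) / WI_n x, -(x 2) / WI_n x, x 3, x 4] := rfl

theorem WI_n_contDiff : ContDiff ℝ ∞ WI_n := by
  have h : ContDiff ℝ ∞ (fun x : E5 => 1 + x 0 ^ 2 + x 1 ^ 2 + x 2 ^ 2) := by fun_prop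
  exact contDiff_const.mul (h.sqrt fun x => (WI_s_pos x).ne')

theorem WI_quot_contDiff (j : Fin 5) : ContDiff ℝ ∞ (fun x : E5 => -(x j) / WI_n x) := by
  have h : ContDiff ℝ ∞ (fun x : E5 => -(x j)) := by fun_prop
  exact h.div WI_n_contDiff fun x => (WI_n_pos x).ne'

theorem WI_cpx_contDiff {f g : E5 → ℝ} (hf : ContDiff ℝ ∞ f) (hg : ContDiff ℝ ∞ g) :
    ContDiff ℝ ∞ (fun x : E5 => (⟨f x, g x⟩ : ℂ)) := by
  have h := Complex.equivRealProdCLM.symm.contDiff (n := ∞) |>.comp (hf.prodMk hg)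
  exact h

theorem WI_Ub_contDiff : ContDiff ℝ ∞ Ub := by
  rw [contDiff_pi]
  intro i
  fin_cases i
  · exact WI_cpx_contDiff contDiff_const (WI_quot_contDiff 0)
  · exact WI_cpx_contDiff (WI_quot_contDiff 1) (WI_quot_contDiff 2)
  · exact WI_cpx_contDiff (f := fun x => x 3) (g := fun x => x 4) (by fun_prop) (by fun_prop)

theorem WI_real6_fderiv (x v : E5) (i : Fin 6) :
    real6 (fderiv ℝ Ub x v) i = fderiv ℝ (fun y => real6 (Ub y) i) x v := by
  have hU : HasFDerivAt Ub (fderiv ℝ Ub x) x :=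
    (WI_Ub_contDiff.differentiable (by simp)).differentiableAt.hasFDerivAt
  have hpi : ∀ j : Fin 3, HasFDerivAt (fun y => Ub y j)
      ((ContinuousLinearMap.proj (R := ℝ) (φ := fun _ : Fin 3 => ℂ) j).comp (fderiv ℝ Ub x)) x :=
    fun j => (ContinuousLinearMap.proj (R := ℝ) (φ := fun _ : Fin 3 => ℂ) j).hasFDerivAt.comp x hU
  have hre : ∀ j : Fin 3, fderiv ℝ (fun y => (Ub y j).re) x v = (fderiv ℝ Ub x v j).re := by
    intro j
    have h := Complex.reCLM.hasFDerivAt.comp x (hpi j)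
    exact congrArg (fun L : E5 →L[ℝ] ℝ => L v) h.fderiv
  have him : ∀ j : Fin 3, fderiv ℝ (fun y => (Ub y j).im) x v = (fderiv ℝ Ub x v j).im := by
    intro j
    have h := Complex.imCLM.hasFDerivAt.comp x (hpi j)
    exact congrArg (fun L : E5 →L[ℝ] ℝ => L v) h.fderiv
  fin_cases i
  · exact (hre 0).symm
  · exact (him 0).symm
  · exact (hre 1).symm
  · exact (him 1).symm
  · exact (hre 2).symm
  · exact (him 2).symm

theorem WI_n_fderiv (x : E5) : ∃ L : E5 →L[ℝ] ℝ, HasFDerivAt WI_n L x ∧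
    ∀ v : E5, L v = 4 * (x 0 * v 0 + x 1 * v 1 + x 2 * v 2) / WI_n x := by
  have hp : ∀ j : Fin 5, HasFDerivAt (fun y : E5 => y j)
      (EuclideanSpace.proj j : E5 →L[ℝ] ℝ) x := fun j =>
      (EuclideanSpace.proj j : E5 →L[ℝ] ℝ).hasFDerivAt
  have hs := ((((hp 0).mul (hp 0)).const_add (1 : ℝ)).add ((hp 1).mul (hp 1))).add
    ((hp 2).mul (hp 2))
  have hs' : HasFDerivAt (fun y : E5 => 1 + y 0 ^ 2 + y 1 ^ 2 + y 2 ^ 2) _ x :=
    hs.congr_of_eventuallyEq (Filter.Eventually.of_forall fun y => by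
      simp only [Pi.add_apply, Pi.mul_apply]; ring)
  have hn := (hs'.sqrt (WI_s_pos x).ne').const_mul (2 : ℝ)
  refine ⟨_, hn, fun v => ?_⟩
  have h0 := WI_n_pos x
  have h1 : Real.sqrt (1 + x 0 ^ 2 + x 1 ^ 2 + x 2 ^ 2) = WI_n x / 2 := by
    unfold WI_n; ring
  have hpr : ∀ j : Fin 5, (EuclideanSpace.proj j : E5 →L[ℝ] ℝ) v = v j := fun _ => rfl
  simp only [_root_.smul_apply, _root_.add_apply, smul_eq_mul,
    hpr, h1]
  field_simp
  ring

theorem WI_quot_fderiv (x v : E5) (j : Fin 5) :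
    fderiv ℝ (fun y : E5 => -(y j) / WI_n y) x v =
      -(v j) / WI_n x + x j * (4 * (x 0 * v 0 + x 1 * v 1 + x 2 * v 2)) / WI_n x ^ 3 := by
  obtain ⟨L, hL, hLv⟩ := WI_n_fderiv x
  have hp : HasFDerivAt (fun y : E5 => y j)
      (EuclideanSpace.proj j : E5 →L[ℝ] ℝ) x :=
    (EuclideanSpace.proj j : E5 →L[ℝ] ℝ).hasFDerivAt
  have h0 := WI_n_pos x
  have hi : HasFDerivAt (fun y : E5 => (WI_n y)⁻¹) (-(WI_n x ^ 2)⁻¹ • L) x :=
    (hasDerivAt_inv h0.ne').comp_hasFDerivAt x hL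
  have h := hp.neg.mul hi
  have h' : HasFDerivAt (fun y : E5 => -(y j) / WI_n y) _ x :=
    h.congr_of_eventuallyEq (Filter.Eventually.of_forall fun y => by
      simp only [Pi.mul_apply, Pi.neg_apply, div_eq_mul_inv])
  rw [h'.fderiv]
  have hpr : ∀ j : Fin 5, (EuclideanSpace.proj j : E5 →L[ℝ] ℝ) v = v j := fun _ => rfl
  simp only [_root_.smul_apply, _root_.add_apply, smul_eq_mul,
    _root_.neg_apply, hpr, hLv, Pi.neg_apply]
  field_simp
  ring

noncomputable def ib (x : E5) : WX := ⟨sig (Ub x), sig_mem _ (Ub_ne x)⟩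

theorem WI_det (a b x0 x1 x2 x3 x4 : ℝ) : Matrix.det (Matrix.of (Fin.cons
    ![-1, -x0 * a, -x1 * a, -x2 * a, x3, x4]
    ![![0, -a + x0 * x0 * b, x1 * x0 * b, x2 * x0 * b, 0, 0],
      ![0, x0 * x1 * b, -a + x1 * x1 * b, x2 * x1 * b, 0, 0],
      ![0, x0 * x2 * b, x1 * x2 * b, -a + x2 * x2 * b, 0, 0],
      ![0, 0, 0, 0, 1, 0],
      ![0, 0, 0, 0, 0, 1]] : Fin 6 → Fin 6 → ℝ)) =
    a ^ 2 * (a - b * (x0 ^ 2 + x1 ^ 2 + x2 ^ 2)) := by
  simp [Matrix.det_succ_column_zero, Fin.sum_univ_succ, Fin.succAbove]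
  ring

theorem WI_det6 (x : E5) : 0 < det6 (Ub x) (fun k => fderiv ℝ Ub x (bE k)) := by
  have h0 := WI_n_pos x
  have h1 := WI_n_sq x
  have hb : ∀ j k : Fin 5, bE k j = if j = k then 1 else 0 := by
    intro j k
    simp [bE]
  have hrow : (fun k => real6 (fderiv ℝ Ub x (bE k))) =
      ![![0, -(WI_n x)⁻¹ + x 0 * x 0 * (4 / WI_n x ^ 3), x 1 * x 0 * (4 / WI_n x ^ 3),
          x 2 * x 0 * (4 / WI_n x ^ 3), 0, 0],
        ![0, x 0 * x 1 * (4 / WI_n x ^ 3), -(WI_n x)⁻¹ + x 1 * x 1 * (4 / WI_n x ^ 3),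
          x 2 * x 1 * (4 / WI_n x ^ 3), 0, 0],
        ![0, x 0 * x 2 * (4 / WI_n x ^ 3), x 1 * x 2 * (4 / WI_n x ^ 3),
          -(WI_n x)⁻¹ + x 2 * x 2 * (4 / WI_n x ^ 3), 0, 0],
        ![0, 0, 0, 0, 1, 0],
        ![0, 0, 0, 0, 0, 1]] := by
    have e0 : ∀ v : E5, real6 (fderiv ℝ Ub x v) 0 = 0 := by
      intro v
      rw [WI_real6_fderiv]
      have : (fun y : E5 => real6 (Ub y) 0) = fun _ => (-1 : ℝ) := rfl
      rw [this, fderiv_fun_const]
      rfl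
    have eq : ∀ (v : E5) (j : Fin 5), fderiv ℝ (fun y : E5 => -(y j) / WI_n y) x v =
      -(v j) / WI_n x + x j * (4 * (x 0 * v 0 + x 1 * v 1 + x 2 * v 2)) / WI_n x ^ 3 :=
      fun v j => WI_quot_fderiv x v j
    have ec : ∀ (v : E5) (j : Fin 5), fderiv ℝ (fun y : E5 => y j) x v = v j := by
      intro v j
      have hp : HasFDerivAt (fun y : E5 => y j) (EuclideanSpace.proj j : E5 →L[ℝ] ℝ) x :=
        (EuclideanSpace.proj j : E5 →L[ℝ] ℝ).hasFDerivAt
      rw [hp.fderiv]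
      rfl
    have e1 : ∀ v : E5, real6 (fderiv ℝ Ub x v) 1 = -(v 0) / WI_n x +
        x 0 * (4 * (x 0 * v 0 + x 1 * v 1 + x 2 * v 2)) / WI_n x ^ 3 := fun v =>
      (WI_real6_fderiv x v 1).trans (eq v 0)
    have e2 : ∀ v : E5, real6 (fderiv ℝ Ub x v) 2 = -(v 1) / WI_n x +
        x 1 * (4 * (x 0 * v 0 + x 1 * v 1 + x 2 * v 2)) / WI_n x ^ 3 := fun v =>
      (WI_real6_fderiv x v 2).trans (eq v 1)
    have e3 : ∀ v : E5, real6 (fderiv ℝ Ub x v) 3 = -(v 2) / WI_n x +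
        x 2 * (4 * (x 0 * v 0 + x 1 * v 1 + x 2 * v 2)) / WI_n x ^ 3 := fun v =>
      (WI_real6_fderiv x v 3).trans (eq v 2)
    have e4 : ∀ v : E5, real6 (fderiv ℝ Ub x v) 4 = v 3 := fun v =>
      (WI_real6_fderiv x v 4).trans (ec v 3)
    have e5 : ∀ v : E5, real6 (fderiv ℝ Ub x v) 5 = v 4 := fun v =>
      (WI_real6_fderiv x v 5).trans (ec v 4)
    funext k i
    fin_cases i
    · show real6 (fderiv ℝ Ub x (bE k)) 0 = _
      rw [e0]
      fin_cases k <;> rfl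
    · show real6 (fderiv ℝ Ub x (bE k)) 1 = _
      rw [e1, hb, hb, hb]
      fin_cases k <;> simp <;> ring
    · show real6 (fderiv ℝ Ub x (bE k)) 2 = _
      rw [e2, hb, hb, hb]
      fin_cases k <;> simp <;> ring
    · show real6 (fderiv ℝ Ub x (bE k)) 3 = _
      rw [e3, hb, hb, hb]
      fin_cases k <;> simp <;> ring
    · show real6 (fderiv ℝ Ub x (bE k)) 4 = _
      rw [e4, hb]
      fin_cases k <;> simp
    · show real6 (fderiv ℝ Ub x (bE k)) 5 = _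
      rw [e5, hb]
      fin_cases k <;> simp
  have hdet := WI_det (WI_n x)⁻¹ (4 / WI_n x ^ 3) (x 0) (x 1) (x 2) (x 3) (x 4)
  simp only [← div_eq_mul_inv] at hdet
  unfold det6
  rw [hrow, WI_real6, hdet]
  have h2 : (WI_n x)⁻¹ - 4 / WI_n x ^ 3 * (x 0 ^ 2 + x 1 ^ 2 + x 2 ^ 2) = 4 / WI_n x ^ 3 := by
    have h3 : (WI_n x)⁻¹ = WI_n x ^ 2 / WI_n x ^ 3 := by
      field_simp
    rw [h3, h1]
    ring
  rw [h2]
  positivity

theorem opAt_ib (x : E5) : OPAt (euc E5) WM ib x :=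
  opAt_sig ib Ub x WI_Ub_contDiff.contDiffAt (Ub_ne x) (Filter.Eventually.of_forall fun _ => rfl)
    (WI_det6 x)

theorem WI_Ub_re (x : E5) : (Ub x 0).re = -1 := rfl

theorem WI_Ub_im_sq (x : E5) : (Ub x 0).im ^ 2 < 1 / 4 := by
  have h0 := WI_n_pos x
  have h1 := WI_n_sq x
  have h2 : (Ub x 0).im = -(x 0) / WI_n x := rfl
  rw [h2, div_pow, div_lt_iff₀ (by positivity), h1]
  nlinarith [sq_nonneg (x 1), sq_nonneg (x 2)]

/-- the norm of the last column before scaling -/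
noncomputable def WI_N (x : E5) : ℝ :=
  Real.sqrt (Complex.normSq (Ub x 0) + Complex.normSq (Ub x 1) + Complex.normSq (Ub x 2))

theorem WI_N_pos (x : E5) : 0 < WI_N x := by
  refine Real.sqrt_pos.2 ?_
  have h1 : 0 < Complex.normSq (Ub x 0) := by
    rw [Complex.normSq_pos]
    intro h
    have := congrArg Complex.re h
    rw [WI_Ub_re, Complex.zero_re] at this
    norm_num at this
  have h2 := Complex.normSq_nonneg (Ub x 1)
  have h3 := Complex.normSq_nonneg (Ub x 2)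
  linarith

theorem WI_ib_col (x : E5) (i : Fin 3) : (ib x).1 i 2 = Ub x i / (WI_N x : ℝ) := sig_col (Ub x) i

theorem WI_squeeze {x y : E5} (h : ∀ j : Fin 3, x j.castSucc.castSucc / WI_n x =
    y j.castSucc.castSucc / WI_n y) : ∀ j : Fin 3, x j.castSucc.castSucc = y j.castSucc.castSucc := by
  have h0 := WI_n_pos x
  have h1 := WI_n_pos y
  have h2 := WI_n_sq x
  have h3 := WI_n_sq y
  have e0 : x 0 / WI_n x = y 0 / WI_n y := h 0
  have e1 : x 1 / WI_n x = y 1 / WI_n y := h 1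
  have e2 : x 2 / WI_n x = y 2 / WI_n y := h 2
  have hn : WI_n x = WI_n y := by
    have e : ∀ z : E5, 0 < WI_n z → WI_n z ^ 2 = 4 * (1 + z 0 ^ 2 + z 1 ^ 2 + z 2 ^ 2) →
        (z 0 / WI_n z) ^ 2 + (z 1 / WI_n z) ^ 2 + (z 2 / WI_n z) ^ 2 = 1 / 4 - 1 / WI_n z ^ 2 := by
      intro z hz hz2
      have hz3 : z 0 ^ 2 + z 1 ^ 2 + z 2 ^ 2 = WI_n z ^ 2 / 4 - 1 := by rw [hz2]; ring
      rw [div_pow, div_pow, div_pow, ← add_div, ← add_div, hz3]
      field_simp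
    have e3 := e x h0 h2
    have e4 := e y h1 h3
    rw [e0, e1, e2, e4] at e3
    have e5 : 1 / WI_n x ^ 2 = 1 / WI_n y ^ 2 := by linarith
    have e6 : WI_n x ^ 2 = WI_n y ^ 2 := by
      rw [one_div, one_div] at e5
      exact inv_injective e5
    exact (sq_eq_sq₀ h0.le h1.le).1 e6
  intro j
  have hj := h j
  rw [hn] at hj
  exact (div_left_inj' h1.ne').1 hj

theorem ib_inj (x y : E5) (k : ℕ) (h : ib x = omW k (ib y)) : x = y := by
  have hx := WI_N_pos x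
  have hy := WI_N_pos y
  have hcol : ∀ i, Ub x i / (WI_N x : ℝ) = om ^ k * (Ub y i / (WI_N y : ℝ)) := by
    intro i
    rw [← WI_ib_col, ← WI_ib_col, h]
    rfl
  have h0 := hcol 0
  have hre : (Ub x 0 / (WI_N x : ℝ)).re = -1 / WI_N x := by
    rw [Complex.div_ofReal_re, WI_Ub_re]
  have hneg : (Ub x 0 / (WI_N x : ℝ)).re < 0 := by
    rw [hre]
    exact div_neg_of_neg_of_pos (by norm_num) hx
  have hu := WI_Ub_im_sq y
  have hs3 : Real.sqrt 3 * Real.sqrt 3 = 3 := Real.mul_self_sqrt (by norm_num)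
  have hs : 0 ≤ Real.sqrt 3 := Real.sqrt_nonneg 3
  have hk : om ^ k = 1 := by
    rcases WI_om_pow k with h1 | h1 | h1
    · exact h1
    · exfalso
      rw [h1] at h0
      have h2 : om * (Ub y 0 / (WI_N y : ℝ)) = (om * Ub y 0) / (WI_N y : ℝ) := by ring
      rw [h0, h2, Complex.div_ofReal_re] at hneg
      have h3 : (om * Ub y 0).re < 0 := by
        by_contra hc
        exact absurd hneg (not_lt.2 (div_nonneg (not_lt.1 hc) hy.le))
      rw [Complex.mul_re, WI_Ub_re] at h3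
      simp only [om] at h3
      nlinarith [sq_nonneg ((Ub y 0).im - Real.sqrt 3 / 6), sq_nonneg ((Ub y 0).im * Real.sqrt 3 + 1),
        sq_nonneg (Real.sqrt 3 * (Ub y 0).im - 1)]
    · exfalso
      rw [h1, WI_om_sq] at h0
      have h2 : (⟨-1 / 2, -(Real.sqrt 3 / 2)⟩ : ℂ) * (Ub y 0 / (WI_N y : ℝ)) =
        ((⟨-1 / 2, -(Real.sqrt 3 / 2)⟩ : ℂ) * Ub y 0) / (WI_N y : ℝ) := by ring
      rw [h0, h2, Complex.div_ofReal_re] at hneg
      have h3 : ((⟨-1 / 2, -(Real.sqrt 3 / 2)⟩ : ℂ) * Ub y 0).re < 0 := by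
        by_contra hc
        exact absurd hneg (not_lt.2 (div_nonneg (not_lt.1 hc) hy.le))
      rw [Complex.mul_re, WI_Ub_re] at h3
      nlinarith [sq_nonneg ((Ub y 0).im * Real.sqrt 3 + 1),
        sq_nonneg (Real.sqrt 3 * (Ub y 0).im - 1)]
  have hN : WI_N x = WI_N y := by
    have h1 := congrArg Complex.re h0
    rw [hk, one_mul, Complex.div_ofReal_re, Complex.div_ofReal_re, WI_Ub_re, WI_Ub_re] at h1
    have h2 := neg_div (WI_N x) (1 : ℝ)
    have h3 := neg_div (WI_N y) (1 : ℝ)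
    rw [h2, h3, neg_inj, one_div, one_div] at h1
    exact inv_injective h1
  have hU : ∀ i, Ub x i = Ub y i := by
    intro i
    have h1 := hcol i
    rw [hk, one_mul, hN] at h1
    have h2 : ((WI_N y : ℝ) : ℂ) ≠ 0 := by exact_mod_cast hy.ne'
    exact (div_left_inj' h2).1 h1
  have e0 : -(x 0) / WI_n x = -(y 0) / WI_n y := congrArg Complex.im (hU 0)
  have e1 : -(x 1) / WI_n x = -(y 1) / WI_n y := congrArg Complex.re (hU 1)
  have e2 : -(x 2) / WI_n x = -(y 2) / WI_n y := congrArg Complex.im (hU 1)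
  have e3 : x 3 = y 3 := congrArg Complex.re (hU 2)
  have e4 : x 4 = y 4 := congrArg Complex.im (hU 2)
  rw [neg_div, neg_div, neg_inj] at e0 e1 e2
  have hsq := WI_squeeze (x := x) (y := y) (by
    intro j
    fin_cases j
    · exact e0
    · exact e1
    · exact e2)
  ext i
  fin_cases i
  · exact hsq 0
  · exact hsq 1
  · exact hsq 2
  · exact e3
  · exact e4

theorem ib_tube : ∃ R : ℝ, 0 < R ∧ ∀ T : WX, mu T.1 ≤ 4 * rr → ∃ x : E5, ‖x‖ ≤ R ∧ ib x = T := by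
  refine ⟨10, by norm_num, fun T hT => ?_⟩
  obtain ⟨S, hS, hSt⟩ := T
  have hmu : mu S ≤ 4 * rr := hT
  have hcol := col_normSq hS 2
  obtain ⟨A, hA⟩ : ∃ A, A = (S 0 2).re := ⟨_, rfl⟩
  obtain ⟨B, hB⟩ : ∃ B, B = (S 0 2).im := ⟨_, rfl⟩
  obtain ⟨C, hC⟩ : ∃ C, C = (S 1 2).re := ⟨_, rfl⟩
  obtain ⟨D, hD⟩ : ∃ D, D = (S 1 2).im := ⟨_, rfl⟩
  obtain ⟨E, hE⟩ : ∃ E, E = (S 2 2).re := ⟨_, rfl⟩
  obtain ⟨F, hF⟩ : ∃ F, F = (S 2 2).im := ⟨_, rfl⟩
  have hk : kap = 168 / 625 := rfl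
  have h1 : (A + kap) ^ 2 + B ^ 2 + C ^ 2 + D ^ 2 ≤ kap ^ 2 / 16 := by
    unfold mu rr at hmu
    rw [Complex.normSq_apply, Complex.normSq_apply, Complex.add_re, Complex.add_im,
      Complex.ofReal_re, Complex.ofReal_im, ← hA, ← hB, ← hC, ← hD] at hmu
    linarith
  have h2 : A ^ 2 + B ^ 2 + C ^ 2 + D ^ 2 + E ^ 2 + F ^ 2 = 1 := by
    rw [Complex.normSq_apply, Complex.normSq_apply, Complex.normSq_apply, ← hA, ← hB, ← hC, ← hD,
      ← hE, ← hF] at hcol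
    linarith
  have hA1 : A ≤ -(3 / 4 * kap) := by
    have h3 : (A + kap) ^ 2 ≤ (kap / 4) ^ 2 := by nlinarith [sq_nonneg B, sq_nonneg C, sq_nonneg D]
    have h4 := abs_le_of_sq_le_sq h3 (by rw [hk]; norm_num)
    have h5 := (abs_le.1 h4).2
    linarith
  obtain ⟨h, hh⟩ : ∃ h, h = -A := ⟨_, rfl⟩
  have hh1 : 3 / 4 * kap ≤ h := by linarith
  have hh0 : 0 < h := lt_of_lt_of_le (by rw [hk]; norm_num) hh1
  have hh2 : 9 / 16 * kap ^ 2 ≤ h ^ 2 := by
    have := mul_self_le_mul_self (by rw [hk]; norm_num) hh1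
    nlinarith
  have hW : B ^ 2 + C ^ 2 + D ^ 2 ≤ h ^ 2 / 9 := by nlinarith [sq_nonneg (A + kap)]
  obtain ⟨q, hq⟩ : ∃ q, q = (B ^ 2 + C ^ 2 + D ^ 2) / h ^ 2 := ⟨_, rfl⟩
  have hq0 : 0 ≤ q := by rw [hq]; positivity
  have hq1 : q ≤ 1 / 9 := by
    rw [hq, div_le_iff₀ (by positivity)]
    linarith
  obtain ⟨t, ht⟩ : ∃ t, t = Real.sqrt (1 - 4 * q) := ⟨_, rfl⟩
  have ht0 : 0 < t := by
    rw [ht]
    exact Real.sqrt_pos.2 (by linarith)
  have ht2 : t ^ 2 = 1 - 4 * q := by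
    rw [ht]
    exact Real.sq_sqrt (by linarith)
  let x : E5 := !₂[-(2 * B / (h * t)), -(2 * C / (h * t)), -(2 * D / (h * t)), E / h, F / h]
  have hx0 : x 0 = -(2 * B / (h * t)) := rfl
  have hx1 : x 1 = -(2 * C / (h * t)) := rfl
  have hx2 : x 2 = -(2 * D / (h * t)) := rfl
  have hx3 : x 3 = E / h := rfl
  have hx4 : x 4 = F / h := rfl
  have hsum : x 0 ^ 2 + x 1 ^ 2 + x 2 ^ 2 = 4 * q / t ^ 2 := by
    rw [hx0, hx1, hx2, hq]
    field_simp
    ring
  have hs : 1 + x 0 ^ 2 + x 1 ^ 2 + x 2 ^ 2 = (1 / t) ^ 2 := by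
    have e : 1 + x 0 ^ 2 + x 1 ^ 2 + x 2 ^ 2 = 1 + (x 0 ^ 2 + x 1 ^ 2 + x 2 ^ 2) := by ring
    rw [e, hsum]
    field_simp
    linarith
  have hn : WI_n x = 2 / t := by
    unfold WI_n
    rw [hs, Real.sqrt_sq (by positivity)]
    ring
  refine ⟨x, ?_, ?_⟩
  · have h3 : ‖x‖ ^ 2 ≤ 10 ^ 2 := by
      rw [EuclideanSpace.norm_sq_eq, Fin.sum_univ_five]
      simp only [Real.norm_eq_abs, sq_abs]
      rw [hsum, hx3, hx4]
      have h4 : 4 * q / t ^ 2 ≤ 1 := by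
        rw [ht2, div_le_one (by linarith)]
        linarith
      have h5 : (E / h) ^ 2 + (F / h) ^ 2 ≤ 99 := by
        rw [div_pow, div_pow, ← add_div, div_le_iff₀ (by positivity)]
        rw [hk] at hh2
        nlinarith [sq_nonneg A, sq_nonneg B, sq_nonneg C, sq_nonneg D]
      linarith
    exact (abs_le_of_sq_le_sq' h3 (by norm_num)).2
  · apply Subtype.ext
    show sig (Ub x) = S
    have hUb : Ub x = (1 / h) • (fun i => S i 2) := by
      rw [WI_Ub, hn, hx0, hx1, hx2, hx3, hx4]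
      funext i
      fin_cases i
      · apply Complex.ext
        · show (-1 : ℝ) = ((1 / h : ℝ) • S 0 2).re
          have hA' : A = -h := by linarith
          rw [Complex.real_smul, Complex.re_ofReal_mul, ← hA, hA']
          field_simp
        · show - -(2 * B / (h * t)) / (2 / t) = ((1 / h : ℝ) • S 0 2).im
          rw [Complex.real_smul, Complex.im_ofReal_mul, ← hB]
          field_simp
      · apply Complex.ext
        · show - -(2 * C / (h * t)) / (2 / t) = ((1 / h : ℝ) • S 1 2).re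
          rw [Complex.real_smul, Complex.re_ofReal_mul, ← hC]
          field_simp
        · show - -(2 * D / (h * t)) / (2 / t) = ((1 / h : ℝ) • S 1 2).im
          rw [Complex.real_smul, Complex.im_ofReal_mul, ← hD]
          field_simp
      · apply Complex.ext
        · show E / h = ((1 / h : ℝ) • S 2 2).re
          rw [Complex.real_smul, Complex.re_ofReal_mul, ← hE]
          ring
        · show F / h = ((1 / h : ℝ) • S 2 2).im
          rw [Complex.real_smul, Complex.im_ofReal_mul, ← hF]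
          ring
    rw [hUb, sig_smul_pos _ _ (by positivity)]
    refine sig_of_col S hS hSt (Or.inl fun h0 => ?_)
    rw [h0, Complex.zero_re] at hA
    linarith

end Wu
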