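import Pool.Agent.Lib.MP_60079e_gt.NVb
import Pool.Agent.Lib.MP_60079e_gt.LiftA
import Pool.Agent.Lib.MP_60079e_gt.Coll
import Pool.Agent.Lib.MP_60079e_gt.WI

/-! `W \ {m}` does not embed in `W / μ₃`. -/

open Set Metric Topology Matrix
open scoped ContDiff

namespace Wu

/-- translates of `v` by `diag(e^{iφ}, 1, e^{-iφ})` -/
noncomputable def gphi (φ : ℝ) : M3 :=
  !![Complex.exp (φ * Complex.I), 0, 0; 0, 1, 0; 0, 0, Complex.exp (-(φ * Complex.I))]

/-- the diagonal matrix with entries `x, y, z` -/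
private def NotA0_dg (x y z : ℂ) : M3 := !![x, 0, 0; 0, y, 0; 0, 0, z]

private theorem NotA0_dg_mem {x y z : ℂ} (hx : x * star x = 1) (hy : y * star y = 1)
    (hz : z * star z = 1) (h : x * y * z = 1) : NotA0_dg x y z ∈ SU3 := by
  rw [Matrix.mem_specialUnitaryGroup_iff, Matrix.mem_unitaryGroup_iff]
  constructor
  · ext i j
    fin_cases i <;> fin_cases j <;>
      simp [NotA0_dg, Matrix.mul_apply, Fin.sum_univ_three, Matrix.star_apply] <;> assumption
  · rw [Matrix.det_fin_three]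
    simp [NotA0_dg]
    exact h

private theorem NotA0_exp (a : ℝ) :
    Complex.exp (a * Complex.I) * star (Complex.exp (a * Complex.I)) = 1 := by
  rw [Complex.star_def, Complex.mul_conj, Complex.normSq_eq_norm_sq,
    Complex.norm_exp_ofReal_mul_I]
  simp

private theorem NotA0_exp' (a : ℝ) :
    Complex.exp (-(a * Complex.I)) * star (Complex.exp (-(a * Complex.I))) = 1 := by
  have h := NotA0_exp (-a)
  have e : ((-a : ℝ) : ℂ) * Complex.I = -(a * Complex.I) := by push_cast; ring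
  rwa [e] at h

theorem gphi_mem (φ : ℝ) : gphi φ ∈ SU3 := by
  refine NotA0_dg_mem (NotA0_exp φ) (by simp) (NotA0_exp' φ) ?_
  rw [mul_one, ← Complex.exp_add, add_neg_cancel, Complex.exp_zero]

private theorem NotA0_vv (z : ℂ) : vv z 2 2 = 1 := by
  simp [vv, Fz, Matrix.mul_apply, Fin.sum_univ_three]

private theorem NotA0_tr (φ : ℝ) (z : ℂ) :
    tr (gphi φ) (vv z) 2 2 = Complex.exp (-(φ * Complex.I)) * Complex.exp (-(φ * Complex.I)) := by
  have h : tr (gphi φ) (vv z) 2 2 =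
      Complex.exp (-(φ * Complex.I)) * vv z 2 2 * Complex.exp (-(φ * Complex.I)) := by
    simp [tr, gphi, Matrix.mul_apply, Fin.sum_univ_three, Matrix.vecMul, dotProduct]
  rw [h, NotA0_vv, mul_one]

/-- The translates `z ↦ g v g^T` avoid any two given points, for some `φ`. -/
theorem exists_avoid (m m' : WX) : ∃ φ : ℝ, ∀ z : ℂ, ‖z‖ ≤ 1 →
    tr (gphi φ) (vv z) ≠ m.1 ∧ tr (gphi φ) (vv z) ≠ m'.1 := by
  have key : ∀ φ : ℝ, ∀ e : ℂ,
      Complex.exp (-(φ * Complex.I)) * Complex.exp (-(φ * Complex.I)) = e →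
      e ≠ m.1 2 2 → e ≠ m'.1 2 2 → ∃ φ : ℝ, ∀ z : ℂ, ‖z‖ ≤ 1 →
    tr (gphi φ) (vv z) ≠ m.1 ∧ tr (gphi φ) (vv z) ≠ m'.1 := by
    intro φ e he h1 h2
    refine ⟨φ, fun z _ => ⟨fun h => h1 ?_, fun h => h2 ?_⟩⟩
    · rw [← h, NotA0_tr, he]
    · rw [← h, NotA0_tr, he]
  have e0 : Complex.exp (-(((0 : ℝ) : ℂ) * Complex.I)) *
      Complex.exp (-(((0 : ℝ) : ℂ) * Complex.I)) = 1 := by simp
  have e1 : Complex.exp (-(((Real.pi / 2 : ℝ) : ℂ) * Complex.I)) *
      Complex.exp (-(((Real.pi / 2 : ℝ) : ℂ) * Complex.I)) = -1 := by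
    rw [← Complex.exp_add]
    have : -(((Real.pi / 2 : ℝ) : ℂ) * Complex.I) + -(((Real.pi / 2 : ℝ) : ℂ) * Complex.I) =
        -(Real.pi * Complex.I) := by push_cast; ring
    rw [this, Complex.exp_neg, Complex.exp_pi_mul_I]
    norm_num
  have e2 : Complex.exp (-(((Real.pi / 4 : ℝ) : ℂ) * Complex.I)) *
      Complex.exp (-(((Real.pi / 4 : ℝ) : ℂ) * Complex.I)) = -Complex.I := by
    rw [← Complex.exp_add]
    have : -(((Real.pi / 4 : ℝ) : ℂ) * Complex.I) + -(((Real.pi / 4 : ℝ) : ℂ) * Complex.I) =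
        -(Real.pi / 2 * Complex.I) := by push_cast; ring
    rw [this, Complex.exp_neg, Complex.exp_pi_div_two_mul_I, Complex.inv_I]
  have d01 : (1 : ℂ) ≠ -1 := by norm_num
  have d02 : (1 : ℂ) ≠ -Complex.I := by
    intro h
    have := congrArg Complex.re h
    simp at this
  have d12 : (-1 : ℂ) ≠ -Complex.I := by
    intro h
    have := congrArg Complex.re h
    simp at this
  by_cases a0 : (1 : ℂ) ≠ m.1 2 2 ∧ (1 : ℂ) ≠ m'.1 2 2
  · exact key 0 1 e0 a0.1 a0.2
  by_cases a1 : (-1 : ℂ) ≠ m.1 2 2 ∧ (-1 : ℂ) ≠ m'.1 2 2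
  · exact key _ _ e1 a1.1 a1.2
  by_cases a2 : (-Complex.I : ℂ) ≠ m.1 2 2 ∧ (-Complex.I : ℂ) ≠ m'.1 2 2
  · exact key _ _ e2 a2.1 a2.2
  exfalso
  have b0 : (1 : ℂ) = m.1 2 2 ∨ (1 : ℂ) = m'.1 2 2 := by tauto
  have b1 : (-1 : ℂ) = m.1 2 2 ∨ (-1 : ℂ) = m'.1 2 2 := by tauto
  have b2 : (-Complex.I : ℂ) = m.1 2 2 ∨ (-Complex.I : ℂ) = m'.1 2 2 := by tauto
  rcases b0 with b0 | b0 <;> rcases b1 with b1 | b1 <;> rcases b2 with b2 | b2
  · exact d01 (b0.trans b1.symm)
  · exact d01 (b0.trans b1.symm)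
  · exact d02 (b0.trans b2.symm)
  · exact d12 (b1.trans b2.symm)
  · exact d12 (b1.trans b2.symm)
  · exact d02 (b0.trans b2.symm)
  · exact d01 (b0.trans b1.symm)
  · exact d01 (b0.trans b1.symm)

/-- the path of diagonal matrices -/
private noncomputable def NotA0_D (s : ℝ) : M3 :=
  NotA0_dg (Complex.exp ((4 * Real.pi * s / 3 : ℝ) * Complex.I))
    (Complex.exp ((4 * Real.pi * s / 3 : ℝ) * Complex.I))
    (Complex.exp ((-(8 * Real.pi * s / 3) : ℝ) * Complex.I))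

private theorem NotA0_D_mem (s : ℝ) : NotA0_D s ∈ SU3 := by
  refine NotA0_dg_mem (NotA0_exp _) (NotA0_exp _) (NotA0_exp _) ?_
  rw [← Complex.exp_add, ← Complex.exp_add]
  have : ((4 * Real.pi * s / 3 : ℝ) : ℂ) * Complex.I + ((4 * Real.pi * s / 3 : ℝ) : ℂ) * Complex.I +
      ((-(8 * Real.pi * s / 3) : ℝ) : ℂ) * Complex.I = 0 := by
    push_cast
    ring
  rw [this, Complex.exp_zero]

private theorem NotA0_D_zero : NotA0_D 0 = 1 := by
  ext i j
  fin_cases i <;> fin_cases j <;> simp [NotA0_D, NotA0_dg]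

private theorem NotA0_om : Complex.exp ((2 * Real.pi / 3 : ℝ) * Complex.I) = om := by
  have hc : Real.cos (2 * Real.pi / 3) = -1 / 2 := by
    have : 2 * Real.pi / 3 = Real.pi - Real.pi / 3 := by ring
    rw [this, Real.cos_pi_sub, Real.cos_pi_div_three]
    ring
  have hs : Real.sin (2 * Real.pi / 3) = Real.sqrt 3 / 2 := by
    have : 2 * Real.pi / 3 = Real.pi - Real.pi / 3 := by ring
    rw [this, Real.sin_pi_sub, Real.sin_pi_div_three]
  apply Complex.ext
  · rw [Complex.exp_ofReal_mul_I_re, hc]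
    rfl
  · rw [Complex.exp_ofReal_mul_I_im, hs]
    rfl

private theorem NotA0_D_one : NotA0_D 1 = (om ^ 2) • (1 : M3) := by
  have h1 : Complex.exp ((4 * Real.pi * 1 / 3 : ℝ) * Complex.I) = om ^ 2 := by
    rw [← NotA0_om, ← Complex.exp_nat_mul]
    congr 1
    push_cast
    ring
  have h2 : Complex.exp ((-(8 * Real.pi * 1 / 3) : ℝ) * Complex.I) = om ^ 2 := by
    rw [← NotA0_om, ← Complex.exp_nat_mul, Complex.exp_eq_exp_iff_exists_int]
    refine ⟨-2, ?_⟩
    push_cast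
    ring
  ext i j
  fin_cases i <;> fin_cases j <;> simp [NotA0_D, NotA0_dg] <;>
    first
    | simpa using h1
    | simpa using h2

private theorem NotA0_D_cont : Continuous NotA0_D := by
  refine continuous_matrix (fun i j => ?_)
  fin_cases i <;> fin_cases j <;> simp [NotA0_D, NotA0_dg] <;> fun_prop

/-- multiplication by `om` is homotopic to the identity of `W` -/
theorem exists_om_homotopy : ∃ H : ℝ → WX → WX,
    Continuous (fun p : ℝ × WX => H p.1 p.2) ∧ (∀ S, H 0 S = S) ∧ ∀ S, H 1 S = omW 1 S := by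
  refine ⟨fun s S => ⟨tr (NotA0_D s) S.1, tr_mem (NotA0_D_mem s) S.2⟩, ?_, ?_, ?_⟩
  · refine Continuous.subtype_mk ?_ _
    have h1 : Continuous (fun p : ℝ × WX => NotA0_D p.1) := NotA0_D_cont.comp continuous_fst
    have h2 : Continuous (fun p : ℝ × WX => (p.2.1 : M3)) :=
      continuous_subtype_val.comp continuous_snd
    exact (h1.matrix_mul h2).matrix_mul h1.matrix_transpose
  · intro S
    apply Subtype.ext
    change NotA0_D 0 * S.1 * (NotA0_D 0)ᵀ = S.1
    rw [NotA0_D_zero, one_mul, Matrix.transpose_one, mul_one]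
  · intro S
    apply Subtype.ext
    change NotA0_D 1 * S.1 * (NotA0_D 1)ᵀ = om ^ 1 • S.1
    rw [NotA0_D_one, Matrix.transpose_smul, Matrix.transpose_one, Matrix.smul_mul, one_mul,
      Matrix.mul_smul, mul_one, smul_smul]
    congr 1
    linear_combination om * om_cube

end Wu
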