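import Pool.Agent.Lib.MP_60079e_gt.Defs

/-! Orientation preserving local diffeomorphisms: independence of the charts, composition. -/

open Set Metric Topology
open scoped ContDiff

namespace Wu

variable {E : Type} [NormedAddCommGroup E] [NormedSpace ℝ E]

/-- smooth with positive Jacobian at a point. -/
def OPaP (f : E → E) (x : E) : Prop := ContDiffAt ℝ ∞ f x ∧ 0 < (fderiv ℝ f x).det

theorem OPaP.comp {g f : E → E} {x : E} (hg : OPaP g (f x)) (hf : OPaP f x) :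
    OPaP (g ∘ f) x := by
  refine ⟨hg.1.comp x hf.1, ?_⟩
  rw [fderiv_comp x (hg.1.differentiableAt (by simp)) (hf.1.differentiableAt (by simp))]
  have : ((fderiv ℝ g (f x)).comp (fderiv ℝ f x)).det
      = (fderiv ℝ g (f x)).det * (fderiv ℝ f x).det := by
    unfold ContinuousLinearMap.det
    rw [← LinearMap.det_comp]
    rfl
  rw [this]
  exact mul_pos hg.2 hf.2

theorem OPaP.congr {g f : E → E} {x : E} (hf : OPaP f x) (h : g =ᶠ[𝓝 x] f) :
    OPaP g x := by
  refine ⟨hf.1.congr_of_eventuallyEq h, ?_⟩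
  rw [h.fderiv_eq]
  exact hf.2

theorem opa_symm_ev {X Y : Type} [TopologicalSpace X] [TopologicalSpace Y]
    (c : OpenPartialHomeomorph X Y) {x : X} (hx : x ∈ c.source) {p : X → Prop}
    (hp : ∀ᶠ y in 𝓝 x, p y) : ∀ᶠ z in 𝓝 (c x), p (c.symm z) := by
  have h1 : Filter.Tendsto c.symm (𝓝 (c x)) (𝓝 x) := by
    have h2 := c.continuousAt_symm (c.map_source hx)
    unfold ContinuousAt at h2
    rwa [c.left_inv hx] at h2
  exact h1.eventually hp

theorem opAt_euc {f : E → E} {x : E} (h : ContDiffAt ℝ ∞ f x) (hd : 0 < (fderiv ℝ f x).det) :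
    OPAt (euc E) (euc E) f x := by
  refine ⟨h.continuousAt, OpenPartialHomeomorph.refl E, rfl, OpenPartialHomeomorph.refl E, rfl,
    mem_univ _, mem_univ _, ?_⟩
  exact ⟨h, hd⟩

theorem OPAt.euc_iff {f : E → E} {x : E} : OPAt (euc E) (euc E) f x ↔
    ContDiffAt ℝ ∞ f x ∧ 0 < (fderiv ℝ f x).det := by
  constructor
  · rintro ⟨-, c, hc, d, hd, -, -, h⟩
    have hc' : c = OpenPartialHomeomorph.refl E := hc
    have hd' : d = OpenPartialHomeomorph.refl E := hd
    subst hc'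
    subst hd'
    exact h
  · rintro ⟨h, hd⟩
    exact opAt_euc h hd

/-- Independence of the charts. -/
theorem OPAt.chart {M N : Mfd E} {f : M.X → N.X} {x : M.X} (h : OPAt M N f x)
    {c : OpenPartialHomeomorph M.X E} (hc : c ∈ M.atlas) {d : OpenPartialHomeomorph N.X E}
    (hd : d ∈ N.atlas) (hx : x ∈ c.source) (hfx : f x ∈ d.source) :
    ContDiffAt ℝ ∞ (d ∘ f ∘ c.symm) (c x) ∧ 0 < (fderiv ℝ (d ∘ f ∘ c.symm) (c x)).det := by
  obtain ⟨hfc, c0, hc0, d0, hd0, hx0, hfx0, h0⟩ := h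
  have h1 : OPaP (c0 ∘ c.symm) (c x) := M.compat c hc c0 hc0 x hx hx0
  have h2 : OPaP (d ∘ d0.symm) (d0 (f x)) := N.compat d0 hd0 d hd (f x) hfx0 hfx
  have h3 : OPaP (d0 ∘ f ∘ c0.symm) ((c0 ∘ c.symm) (c x)) := by
    have : (c0 ∘ c.symm) (c x) = c0 x := by simp [c.left_inv hx]
    rw [this]
    exact h0
  have h4 : OPaP (d ∘ d0.symm) ((d0 ∘ f ∘ c0.symm) ((c0 ∘ c.symm) (c x))) := by
    have : (d0 ∘ f ∘ c0.symm) ((c0 ∘ c.symm) (c x)) = d0 (f x) := by
      simp [c.left_inv hx, c0.left_inv hx0]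
    rw [this]
    exact h2
  have h5 := OPaP.comp (f := (d0 ∘ f ∘ c0.symm) ∘ (c0 ∘ c.symm)) h4 (OPaP.comp h3 h1)
  have h6 : ∀ᶠ y in 𝓝 x, y ∈ c0.source ∧ f y ∈ d0.source :=
    (c0.open_source.mem_nhds hx0 |> fun h => Filter.eventually_of_mem h (fun y hy => hy)).and
      (hfc.eventually (d0.open_source.mem_nhds hfx0))
  have h7 := opa_symm_ev c hx h6
  apply OPaP.congr h5
  filter_upwards [h7] with z hz
  simp only [Function.comp_apply]
  rw [c0.left_inv hz.1, d0.left_inv hz.2]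

theorem opAt_id (M : Mfd E) (x : M.X) : OPAt M M (fun y => y) x := by
  obtain ⟨c, hc, hx⟩ := M.cover x
  exact ⟨continuousAt_id, c, hc, c, hc, hx, hx, M.compat c hc c hc x hx hx⟩

theorem OPAt.congr {M N : Mfd E} {f g : M.X → N.X} {x : M.X} (h : OPAt M N f x)
    (hfg : f =ᶠ[𝓝 x] g) : OPAt M N g x := by
  obtain ⟨hfc, c, hc, d, hd, hx, hfx, h0⟩ := h
  have hx' : f x = g x := hfg.eq_of_nhds
  refine ⟨hfc.congr hfg, c, hc, d, hd, hx, hx' ▸ hfx, ?_⟩
  have h7 := opa_symm_ev c hx hfg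
  have h8 : OPaP (d ∘ f ∘ c.symm) (c x) := h0
  apply OPaP.congr h8
  filter_upwards [h7] with z hz
  simp only [Function.comp_apply]
  rw [hz]

theorem OPAt.comp {M N K : Mfd E} {g : N.X → K.X} {f : M.X → N.X} {x : M.X}
    (hg : OPAt N K g (f x)) (hf : OPAt M N f x) : OPAt M K (fun y => g (f y)) x := by
  obtain ⟨hfc, c, hc, d, hd, hx, hfx, h0⟩ := hf
  obtain ⟨e, he, hgx⟩ := K.cover (g (f x))
  have h1 : OPaP (e ∘ g ∘ d.symm) (d (f x)) := hg.chart hd he hfx hgx
  have h2 : OPaP (d ∘ f ∘ c.symm) (c x) := h0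
  have h3 : OPaP (e ∘ g ∘ d.symm) ((d ∘ f ∘ c.symm) (c x)) := by
    have : (d ∘ f ∘ c.symm) (c x) = d (f x) := by simp [c.left_inv hx]
    rw [this]
    exact h1
  refine ⟨ContinuousAt.comp (f := f) hg.1 hfc, c, hc, e, he, hx, hgx, ?_⟩
  have h6 : ∀ᶠ y in 𝓝 x, f y ∈ d.source := hfc.eventually (d.open_source.mem_nhds hfx)
  have h7 := opa_symm_ev c hx h6
  apply OPaP.congr (h3.comp h2)
  filter_upwards [h7] with z hz
  simp only [Function.comp_apply]
  rw [d.left_inv hz]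

theorem opAt_chart (M : Mfd E) {c : OpenPartialHomeomorph M.X E} (hc : c ∈ M.atlas) {x : M.X}
    (hx : x ∈ c.source) : OPAt M (euc E) c x := by
  exact ⟨c.continuousAt hx, c, hc, OpenPartialHomeomorph.refl E, rfl, hx, mem_univ _,
    M.compat c hc c hc x hx hx⟩

theorem opAt_chart_symm (M : Mfd E) {c : OpenPartialHomeomorph M.X E} (hc : c ∈ M.atlas) {y : E}
    (hy : y ∈ c.target) : OPAt (euc E) M c.symm y := by
  have h := M.compat c hc c hc (c.symm y) (c.map_target hy) (c.map_target hy)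
  rw [c.right_inv hy] at h
  exact ⟨c.continuousAt_symm hy, OpenPartialHomeomorph.refl E, rfl, c, hc, mem_univ _,
    c.map_target hy, h⟩

theorem OPAt.of_chart {M N : Mfd E} {f : M.X → N.X} {x : M.X} (hf : ContinuousAt f x)
    {c : OpenPartialHomeomorph M.X E} (hc : c ∈ M.atlas) (hx : x ∈ c.source)
    (h : OPAt (euc E) N (fun y : E => f (c.symm y)) (c x)) : OPAt M N f x := by
  have h1 := h.comp (opAt_chart M hc hx)
  apply h1.congr
  filter_upwards [c.open_source.mem_nhds hx] with y hy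
  show f (c.symm (c y)) = f y
  rw [c.left_inv hy]

end Wu
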