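import Pool.Agent.Lib.MP_60079e_gt.OPb

/-! `M \ {i 0}` embeds in `M \ i (closedBall 0 R)`, by the identity outside a compact set. -/

open Set Metric Topology
open scoped ContDiff RealInnerProductSpace

namespace Wu

/-- The derivative of `Real.smoothTransition` is bounded. -/
private theorem StretchA_bound : ∃ M : ℝ, 0 < M ∧
    ∀ u : ℝ, deriv Real.smoothTransition u ≤ M := by
  have hc : Continuous (deriv Real.smoothTransition) :=
    (Real.smoothTransition.contDiff (n := 1)).continuous_deriv le_rfl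
  obtain ⟨C, hC⟩ := (isCompact_Icc (a := (0 : ℝ)) (b := 1)).exists_bound_of_continuousOn
    (f := deriv Real.smoothTransition) hc.continuousOn
  refine ⟨max C 1, lt_max_of_lt_right one_pos, fun u => ?_⟩
  rcases lt_or_ge u 0 with h0 | h0
  · have : Real.smoothTransition =ᶠ[𝓝 u] fun _ => (0 : ℝ) := by
      filter_upwards [Iio_mem_nhds h0] with v hv
      exact Real.smoothTransition.zero_of_nonpos hv.le
    rw [this.deriv_eq, deriv_const]
    exact le_trans zero_le_one (le_max_right _ _)
  rcases lt_or_ge 1 u with h1 | h1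
  · have : Real.smoothTransition =ᶠ[𝓝 u] fun _ => (1 : ℝ) := by
      filter_upwards [Ioi_mem_nhds h1] with v hv
      exact Real.smoothTransition.one_of_one_le (le_of_lt hv)
    rw [this.deriv_eq, deriv_const]
    exact le_trans zero_le_one (le_max_right _ _)
  · exact (le_trans (le_trans (le_abs_self _) (hC u ⟨h0, h1⟩)) (le_max_left _ _))

/-- A linear map with positive quadratic form has positive determinant. -/
private theorem StretchA_det_pos (A : E5 →L[ℝ] E5) (hA : ∀ v, v ≠ 0 → 0 < ⟪A v, v⟫) :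
    0 < A.det := by
  have hdet : ∀ s ∈ Icc (0 : ℝ) 1,
      ((1 - s) • ContinuousLinearMap.id ℝ E5 + s • A).det ≠ 0 := by
    intro s hs h0
    have hker : ∃ v : E5, v ≠ 0 ∧ ((1 - s) • ContinuousLinearMap.id ℝ E5 + s • A) v = 0 := by
      by_contra hcon
      push Not at hcon
      have hinj : LinearMap.ker
          (((1 - s) • ContinuousLinearMap.id ℝ E5 + s • A : E5 →L[ℝ] E5) : E5 →ₗ[ℝ] E5) = ⊥ := by
        rw [LinearMap.ker_eq_bot']
        intro v hv
        by_contra hv0
        exact hcon v hv0 hv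
      have hu : IsUnit (((1 - s) • ContinuousLinearMap.id ℝ E5 + s • A : E5 →L[ℝ] E5) :
          E5 →ₗ[ℝ] E5) := by
        rw [LinearMap.isUnit_iff_ker_eq_bot]
        exact hinj
      have := LinearMap.isUnit_det _ hu
      rw [ContinuousLinearMap.det] at h0
      rw [h0] at this
      exact not_isUnit_zero this
    obtain ⟨v, hv, hv0⟩ := hker
    have h1 : (1 - s) * ⟪v, v⟫ + s * ⟪A v, v⟫ = 0 := by
      have := congrArg (fun w => ⟪w, v⟫) hv0
      simpa [inner_add_left, inner_smul_left] using this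
    have h2 := hA v hv
    have h3 : 0 < ⟪v, v⟫ := real_inner_self_pos.2 hv
    rcases eq_or_lt_of_le hs.1 with h | h
    · rw [← h] at h1
      simp only [sub_zero, one_mul, zero_mul, add_zero] at h1
      exact h3.ne' h1
    · have h4 : 0 < s * ⟪A v, v⟫ := mul_pos h h2
      have h5 : 0 ≤ (1 - s) * ⟪v, v⟫ := mul_nonneg (by linarith [hs.2]) h3.le
      linarith
  have hcont : ContinuousOn
      (fun s : ℝ => ((1 - s) • ContinuousLinearMap.id ℝ E5 + s • A).det) (Icc 0 1) := by
    apply Continuous.continuousOn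
    exact ContinuousLinearMap.continuous_det.comp (by fun_prop)
  have h0 : ((1 - (0 : ℝ)) • ContinuousLinearMap.id ℝ E5 + (0 : ℝ) • A).det = 1 := by
    simp [ContinuousLinearMap.det]
  have h1 : ((1 - (1 : ℝ)) • ContinuousLinearMap.id ℝ E5 + (1 : ℝ) • A).det = A.det := by
    rw [sub_self, one_smul, zero_smul ℝ (ContinuousLinearMap.id ℝ E5), zero_add]
  by_contra hneg
  push Not at hneg
  have hne : A.det ≠ 0 := by
    rw [← h1]
    exact hdet 1 ⟨zero_le_one, le_rfl⟩
  have hlt : A.det < 0 := lt_of_le_of_ne hneg hne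
  have := intermediate_value_Icc' (zero_le_one (α := ℝ)) hcont
  obtain ⟨s, hs, hs0⟩ := this (show (0 : ℝ) ∈ _ from ⟨by
    show ((1 - (1 : ℝ)) • ContinuousLinearMap.id ℝ E5 + (1 : ℝ) • A).det ≤ 0
    rw [h1]; exact hlt.le, by
    show (0 : ℝ) ≤ ((1 - (0 : ℝ)) • ContinuousLinearMap.id ℝ E5 + (0 : ℝ) • A).det
    rw [h0]; exact zero_le_one⟩)
  exact hdet s hs hs0

/-- Radial stretching of `E5 \ {0}`. -/
theorem exists_radial (R : ℝ) (hR : 0 < R) : ∃ s : E5 → E5, ∃ R' : ℝ, R < R' ∧
    (∀ x, x ≠ 0 → R < ‖s x‖) ∧ (∀ x, R' ≤ ‖x‖ → s x = x) ∧ InjOn s {0}ᶜ ∧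
    (∀ x, ‖x‖ ≤ R' → ‖s x‖ ≤ R') ∧
    ∀ x, x ≠ 0 → ContDiffAt ℝ ∞ s x ∧ 0 < (fderiv ℝ s x).det := by
  obtain ⟨M, hM, hder⟩ := StretchA_bound
  obtain ⟨L, hL0, hLR, hLM⟩ : ∃ L : ℝ, 0 < L ∧ R < L ∧ R * M < L :=
    ⟨R + R * M, by positivity, by nlinarith [mul_pos hR hM], by linarith⟩
  set lam : ℝ → ℝ := fun t => t + R * (1 - Real.smoothTransition (t / L)) with hlam
  have hlamD : ∀ t, HasDerivAt lam
      (1 - R * (deriv Real.smoothTransition (t / L) / L)) t := by
    intro t
    have hS : HasDerivAt Real.smoothTransition (deriv Real.smoothTransition (t / L)) (t / L) :=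
      ((Real.smoothTransition.contDiffAt (n := 1)).differentiableAt (by simp)).hasDerivAt
    have h1 : HasDerivAt (fun t : ℝ => t / L) (1 / L) t := (hasDerivAt_id t).div_const L
    have h2 := (hS.comp t h1)
    have h3 := (hasDerivAt_id t).add (((hasDerivAt_const t (1 : ℝ)).sub h2).const_mul R)
    refine h3.congr_deriv ?_
    ring
  have hlam' : ∀ t, 0 < 1 - R * (deriv Real.smoothTransition (t / L) / L) := by
    intro t
    have h1 := hder (t / L)
    have h2 : R * (deriv Real.smoothTransition (t / L) / L) ≤ R * (M / L) := by gcongr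
    have h3 : R * (M / L) < 1 := by
      rw [← mul_div_assoc, div_lt_one hL0]
      exact hLM
    linarith
  have hmono : StrictMono lam := by
    apply strictMono_of_deriv_pos
    intro t
    rw [(hlamD t).deriv]
    exact hlam' t
  have hlam0 : lam 0 = R := by
    simp [hlam, Real.smoothTransition.zero]
  have hlamL : ∀ t, L ≤ t → lam t = t := by
    intro t ht
    have : Real.smoothTransition (t / L) = 1 :=
      Real.smoothTransition.one_of_one_le (by rwa [le_div_iff₀ hL0, one_mul])
    simp [hlam, this]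
  have hlampos : ∀ t, 0 < t → R < lam t := by
    intro t ht
    rw [← hlam0]
    exact hmono ht
  set s : E5 → E5 := fun x => (lam ‖x‖ / ‖x‖) • x with hs
  have hnorm : ∀ x, x ≠ 0 → ‖s x‖ = lam ‖x‖ := by
    intro x hx
    have hx0 : 0 < ‖x‖ := norm_pos_iff.2 hx
    have h1 : 0 < lam ‖x‖ := hR.trans (hlampos _ hx0)
    rw [hs]
    simp only [norm_smul, norm_div, Real.norm_eq_abs, abs_norm]
    rw [abs_of_pos h1]
    field_simp
  refine ⟨s, L, hLR, ?_, ?_, ?_, ?_, ?_⟩
  · intro x hx
    rw [hnorm x hx]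
    exact hlampos _ (norm_pos_iff.2 hx)
  · intro x hx
    have hx0 : 0 < ‖x‖ := hL0.trans_le hx
    rw [hs]
    simp only
    rw [hlamL _ hx, div_self hx0.ne', one_smul]
  · intro x hx y hy hxy
    have hx : x ≠ 0 := hx
    have hy : y ≠ 0 := hy
    have h1 : lam ‖x‖ = lam ‖y‖ := by
      rw [← hnorm x hx, ← hnorm y hy, hxy]
    have h2 : ‖x‖ = ‖y‖ := hmono.injective h1
    have hy0 : 0 < ‖y‖ := norm_pos_iff.2 hy
    have h3 : 0 < lam ‖y‖ / ‖y‖ := div_pos (hR.trans (hlampos _ hy0)) hy0
    have h4 : (lam ‖y‖ / ‖y‖) • x = (lam ‖y‖ / ‖y‖) • y := by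
      have := hxy
      simp only [hs, h2] at this
      exact this
    exact smul_right_injective E5 h3.ne' h4
  · intro x hx
    by_cases hx0 : x = 0
    · subst hx0
      simp [hs, hL0.le]
    · rw [hnorm x hx0, ← hlamL L le_rfl]
      exact hmono.monotone hx
  · intro x hx
    have hx0 : 0 < ‖x‖ := norm_pos_iff.2 hx
    constructor
    · have h1 : ContDiffAt ℝ ∞ (fun y : E5 => ‖y‖) x := contDiffAt_norm ℝ hx
      have h2 : ContDiffAt ℝ ∞ (fun y : E5 => lam ‖y‖) x := by
        have h3 : ContDiff ℝ ∞ lam := by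
          have h4 : ContDiff ℝ ∞ (fun t : ℝ => Real.smoothTransition (t / L)) :=
            Real.smoothTransition.contDiff.comp (contDiff_id.div_const L)
          exact contDiff_id.add (contDiff_const.mul (contDiff_const.sub h4))
        exact h3.contDiffAt.comp x h1
      exact (h2.div h1 hx0.ne').smul contDiffAt_id
    · -- the derivative
      set t : ℝ := ‖x‖ with ht
      set l' : ℝ := 1 - R * (deriv Real.smoothTransition (t / L) / L) with hl'
      have hn : HasFDerivAt (fun y : E5 => ‖y‖) (t⁻¹ • innerSL ℝ x) x := by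
        have h1 : HasFDerivAt (fun y : E5 => ‖y‖ ^ 2) (2 • innerSL ℝ x) x :=
          (hasStrictFDerivAt_norm_sq x).hasFDerivAt
        have h2 := h1.sqrt (by positivity)
        have h3 : (fun y : E5 => √(‖y‖ ^ 2)) = fun y => ‖y‖ := by
          funext y
          exact Real.sqrt_sq (norm_nonneg _)
        rw [h3, Real.sqrt_sq (norm_nonneg _)] at h2
        refine h2.congr_fderiv ?_
        ext v
        simp only [smul_apply, innerSL_apply_apply, smul_eq_mul, nsmul_eq_mul,
          Nat.cast_ofNat]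
        rw [← ht]
        field_simp
      have hq : HasFDerivAt (fun y : E5 => lam ‖y‖ / ‖y‖)
          (((l' * t - lam t) / t ^ 2) • (t⁻¹ • innerSL ℝ x)) x := by
        have h1 : HasDerivAt (fun r : ℝ => lam r / r) ((l' * t - lam t * 1) / t ^ 2) t :=
          (hlamD t).div (hasDerivAt_id t) hx0.ne'
        rw [mul_one] at h1
        exact h1.comp_hasFDerivAt x hn
      have hsD : HasFDerivAt s ((lam t / t) • ContinuousLinearMap.id ℝ E5 +
          (((l' * t - lam t) / t ^ 2) • (t⁻¹ • innerSL ℝ x)).smulRight x) x :=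
        hq.smul (hasFDerivAt_id x)
      rw [hsD.fderiv]
      apply StretchA_det_pos
      intro v hv
      have hv0 : 0 < ‖v‖ := norm_pos_iff.2 hv
      have hform : ⟪((lam t / t) • ContinuousLinearMap.id ℝ E5 +
          (((l' * t - lam t) / t ^ 2) • (t⁻¹ • innerSL ℝ x)).smulRight x) v, v⟫ =
          (lam t / t) * ‖v‖ ^ 2 + (l' * t - lam t) / t ^ 3 * ⟪x, v⟫ ^ 2 := by
        simp only [add_apply, smul_apply,
          ContinuousLinearMap.id_apply, ContinuousLinearMap.smulRight_apply, innerSL_apply_apply,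
          smul_eq_mul, inner_add_left, real_inner_smul_left, real_inner_self_eq_norm_sq]
        field_simp
      rw [hform]
      have hcs : ⟪x, v⟫ ^ 2 ≤ t ^ 2 * ‖v‖ ^ 2 := by
        have := abs_real_inner_le_norm x v
        have h2 : |⟪x, v⟫| ^ 2 ≤ (‖x‖ * ‖v‖) ^ 2 := by gcongr
        rw [sq_abs, mul_pow] at h2
        exact h2
      have hl : 0 < l' := hlam' t
      have hlt : 0 < lam t := hR.trans (hlampos _ hx0)
      rcases le_or_gt 0 (l' * t - lam t) with hpos | hneg
      · have h1 : 0 ≤ (l' * t - lam t) / t ^ 3 * ⟪x, v⟫ ^ 2 := by positivity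
        have h2 : 0 < (lam t / t) * ‖v‖ ^ 2 := by positivity
        linarith
      · have h1 : (l' * t - lam t) / t ^ 3 * (t ^ 2 * ‖v‖ ^ 2) ≤
            (l' * t - lam t) / t ^ 3 * ⟪x, v⟫ ^ 2 := by
          apply mul_le_mul_of_nonpos_left hcs
          exact div_nonpos_of_nonpos_of_nonneg hneg.le (by positivity)
        have h2 : (lam t / t) * ‖v‖ ^ 2 + (l' * t - lam t) / t ^ 3 * (t ^ 2 * ‖v‖ ^ 2) =
            l' * ‖v‖ ^ 2 := by
          field_simp
          ring
        have h3 : 0 < l' * ‖v‖ ^ 2 := by positivity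
        linarith

end Wu
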