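import Pool.Agent.Lib.MP_60079e_gt.Defs

/-! Basic definitions for the concrete Wu manifold `{S ∈ SU(3) : Sᵀ = S}`. -/

open Set Metric Topology Matrix
open scoped ContDiff

namespace Wu

/-- complex `3 × 3` matrices -/
abbrev M3 : Type := Matrix (Fin 3) (Fin 3) ℂ

/-- the same, as a normed space -/
abbrev A3 : Type := Fin 3 → Fin 3 → ℂ

/-- a matrix as an element of the normed space `A3` -/
def toA (S : M3) : A3 := S

/-- `ℂ³` with the sup norm -/
abbrev C3 : Type := Fin 3 → ℂ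

/-- `SU(3)` -/
abbrev SU3 : Submonoid M3 := Matrix.specialUnitaryGroup (Fin 3) ℂ

/-- The space of symmetric matrices in `SU(3)`. -/
abbrev WX : Type := {S : M3 // S ∈ SU3 ∧ Sᵀ = S}

/-- Real symmetric traceless matrices (with complex entries), parametrised by `E5`. -/
def Xm (x : E5) : M3 :=
  !![((x 0 + x 4 : ℝ) : ℂ), ((x 1 : ℝ) : ℂ), ((x 2 : ℝ) : ℂ);
     ((x 1 : ℝ) : ℂ), ((x 4 - x 0 : ℝ) : ℂ), ((x 3 : ℝ) : ℂ);
     ((x 2 : ℝ) : ℂ), ((x 3 : ℝ) : ℂ), ((-2 * x 4 : ℝ) : ℂ)]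

theorem Xm_add (x y : E5) : Xm (x + y) = Xm x + Xm y := by
  ext i j
  fin_cases i <;> fin_cases j <;> simp [Xm] <;> ring

theorem Xm_smul (a : ℝ) (x : E5) : Xm (a • x) = a • Xm x := by
  ext i j
  fin_cases i <;> fin_cases j <;> simp [Xm] <;> ring

theorem FrL_add (C : M3) (x y : E5) : C * (Complex.I • Xm (x + y)) * Cᵀ =
    C * (Complex.I • Xm x) * Cᵀ + C * (Complex.I • Xm y) * Cᵀ := by
  rw [Xm_add, smul_add, mul_add, add_mul]

theorem FrL_smul (C : M3) (a : ℝ) (x : E5) : C * (Complex.I • Xm (a • x)) * Cᵀ =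
    a • (C * (Complex.I • Xm x) * Cᵀ) := by
  rw [Xm_smul, smul_comm, mul_smul_comm, smul_mul_assoc]

/-- The frame `x ↦ C (i X(x)) Cᵀ` of the tangent space at `C Cᵀ`. -/
noncomputable def FrL (C : M3) : E5 →L[ℝ] A3 :=
  LinearMap.toContinuousLinearMap
    ({ toFun := fun x => toA (C * (Complex.I • Xm x) * Cᵀ)
       map_add' := fun x y => FrL_add C x y
       map_smul' := fun a x => FrL_smul C a x } : E5 →ₗ[ℝ] A3)

theorem FrL_apply (C : M3) (x : E5) : FrL C x = toA (C * (Complex.I • Xm x) * Cᵀ) := rfl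

/-- last column -/
noncomputable def colL : A3 →L[ℝ] C3 :=
  ContinuousLinearMap.pi (fun i => (ContinuousLinearMap.proj (R := ℝ) (φ := fun _ : Fin 3 => ℂ)
    (2 : Fin 3)).comp (ContinuousLinearMap.proj (R := ℝ) (φ := fun _ : Fin 3 => (Fin 3 → ℂ)) i))

theorem colL_apply (S : A3) (i : Fin 3) : colL S i = S i 2 := by
  simp [colL]

/-- Translation `S ↦ g S gᵀ`. -/
def tr (g S : M3) : M3 := g * S * gᵀ

/-- The symmetric special unitary matrix with last column proportional (by a positive factor)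
to `U`, `(U 0, U 1) ≠ 0`. -/
noncomputable def sig (U : C3) : M3 :=
  let N : ℝ := Real.sqrt (Complex.normSq (U 0) + Complex.normSq (U 1) + Complex.normSq (U 2))
  let n : ℝ := Complex.normSq (U 0) + Complex.normSq (U 1)
  let p := U 0
  let q := U 1
  let w := U 2
  !![-(star w * p ^ 2 / N + star q ^ 2) / n, -(star w * p * q / N - star p * star q) / n, p / N;
     -(star w * p * q / N - star p * star q) / n, -(star w * q ^ 2 / N + star p ^ 2) / n, q / N;
     p / N, q / N, w / N]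

/-- gnomonic coordinates on `{Re (u 0) > 0}` -/
noncomputable def gnom (u : C3) : E5 :=
  !₂[(u 0).im / (u 0).re, (u 1).re / (u 0).re, (u 1).im / (u 0).re, (u 2).re / (u 0).re,
    (u 2).im / (u 0).re]

/-- inverse of the gnomonic coordinates (up to a positive factor) -/
noncomputable def ugn (x : E5) : C3 :=
  ![⟨1, x 0⟩, ⟨x 1, x 2⟩, ⟨x 3, x 4⟩]

/-- real coordinates of a vector of `ℂ³` -/
def real6 (u : C3) : Fin 6 → ℝ :=
  ![(u 0).re, (u 0).im, (u 1).re, (u 1).im, (u 2).re, (u 2).im]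

/-- the real determinant of `u, δ 0, …, δ 4` in `ℂ³ = ℝ⁶` -/
noncomputable def det6 (u : C3) (δ : Fin 5 → C3) : ℝ :=
  Matrix.det (Matrix.of (Fin.cons (real6 u) (fun k => real6 (δ k)) : Fin 6 → Fin 6 → ℝ))

/-- standard basis of `E5` -/
noncomputable def bE (k : Fin 5) : E5 := EuclideanSpace.single k 1

/-- `c` is the gnomonic chart of `W` attached to `g ∈ SU(3)`. -/
def IsWChart (g : M3) (c : OpenPartialHomeomorph WX E5) : Prop :=
  (∀ S : WX, S ∈ c.source ↔ 0 < (tr gᴴ S.1 0 2).re) ∧ c.target = univ ∧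
  (∀ S : WX, S ∈ c.source → c S = gnom (fun i => tr gᴴ S.1 i 2)) ∧
  ∀ x : E5, (c.symm x).1 = tr g (sig (ugn x))

end Wu
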