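import Pool.Agent.Lib.MP_60079e_gt.W0
import Pool.Agent.Lib.MP_60079e_gt.Chol

/-! Takagi factorisation and translations. -/

open Set Metric Topology Matrix
open scoped ContDiff

namespace Wu

theorem ct_mem {g : M3} (hg : g ∈ SU3) : gᴴ ∈ SU3 := by
  rw [Matrix.mem_specialUnitaryGroup_iff] at hg ⊢
  obtain ⟨h1, h2⟩ := hg
  refine ⟨?_, ?_⟩
  · have := Matrix.mem_unitaryGroup_iff.1 h1
    rw [Matrix.mem_unitaryGroup_iff', star_eq_conjTranspose, conjTranspose_conjTranspose]
    rwa [star_eq_conjTranspose] at this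
  · rw [det_conjTranspose, h2, star_one]

theorem mul_ct {g : M3} (hg : g ∈ SU3) : g * gᴴ = 1 := by
  rw [Matrix.mem_specialUnitaryGroup_iff] at hg
  exact Matrix.mem_unitaryGroup_iff.1 hg.1

theorem ct_mul {g : M3} (hg : g ∈ SU3) : gᴴ * g = 1 := by
  rw [Matrix.mem_specialUnitaryGroup_iff] at hg
  exact Matrix.mem_unitaryGroup_iff'.1 hg.1

theorem WA_T_mem {g : M3} (hg : g ∈ SU3) : gᵀ ∈ SU3 := by
  have h1 := mul_ct hg
  have h2 := ct_mul hg
  rw [Matrix.mem_specialUnitaryGroup_iff] at hg ⊢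
  refine ⟨?_, by rw [det_transpose]; exact hg.2⟩
  rw [Matrix.mem_unitaryGroup_iff, star_eq_conjTranspose]
  have h3 : (gᴴ * g)ᵀ = 1 := by rw [h2, transpose_one]
  rw [transpose_mul] at h3
  have h4 : (gᵀ)ᴴ = (gᴴ)ᵀ := by
    ext i j; simp [conjTranspose_apply, transpose_apply]
  rw [h4]
  exact h3

theorem tr_mem {g S : M3} (hg : g ∈ SU3) (hS : S ∈ SU3 ∧ Sᵀ = S) :
    tr g S ∈ SU3 ∧ (tr g S)ᵀ = tr g S := by
  refine ⟨?_, ?_⟩
  · unfold tr
    exact Submonoid.mul_mem _ (Submonoid.mul_mem _ hg hS.1) (WA_T_mem hg)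
  · unfold tr
    rw [transpose_mul, transpose_mul, transpose_transpose, hS.2, Matrix.mul_assoc]

theorem mulT_mem {C : M3} (hC : C ∈ SU3) : C * Cᵀ ∈ SU3 ∧ (C * Cᵀ)ᵀ = C * Cᵀ := by
  refine ⟨Submonoid.mul_mem _ hC (WA_T_mem hC), ?_⟩
  rw [transpose_mul, transpose_transpose]

theorem tr_tr (g h S : M3) : tr g (tr h S) = tr (g * h) S := by
  unfold tr
  rw [transpose_mul]
  simp only [Matrix.mul_assoc]

theorem tr_mulT (g C : M3) : tr g (C * Cᵀ) = (g * C) * (g * C)ᵀ := by
  unfold tr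
  rw [transpose_mul]
  simp only [Matrix.mul_assoc]

theorem WA_tr_one (S : M3) : tr 1 S = S := by
  unfold tr
  rw [transpose_one, Matrix.mul_one, Matrix.one_mul]

theorem tr_ct_tr {g : M3} (hg : g ∈ SU3) (S : M3) : tr gᴴ (tr g S) = S := by
  rw [tr_tr, ct_mul hg, WA_tr_one]

theorem tr_tr_ct {g : M3} (hg : g ∈ SU3) (S : M3) : tr g (tr gᴴ S) = S := by
  rw [tr_tr, mul_ct hg, WA_tr_one]

/-- `S * conj S = 1` for symmetric unitary `S`. -/
theorem mul_conj_of_mem {S : M3} (hS : S ∈ SU3) (hT : Sᵀ = S) : S * S.map star = 1 := by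
  have h := mul_ct hS
  have h2 : Sᴴ = S.map star := by
    rw [conjTranspose, hT]
  rwa [h2] at h

/-- The last column is a unit vector. -/
theorem col_normSq {S : M3} (hS : S ∈ SU3) (j : Fin 3) :
    Complex.normSq (S 0 j) + Complex.normSq (S 1 j) + Complex.normSq (S 2 j) = 1 := by
  have h := ct_mul hS
  have h1 := congrFun (congrFun h j) j
  rw [Matrix.mul_apply, Fin.sum_univ_three] at h1
  simp only [conjTranspose_apply, one_apply_eq, Complex.star_def] at h1
  have h2 : ∀ z : ℂ, (starRingEnd ℂ) z * z = (Complex.normSq z : ℂ) := fun z => by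
    rw [mul_comm, Complex.mul_conj]
  rw [h2, h2, h2] at h1
  exact_mod_cast h1

theorem WA_exists_phase (S : M3) : ∃ ζ : ℂ, ζ * star ζ = 1 ∧ (1 + (ζ ^ 2) • S).det ≠ 0 := by
  classical
  set p : Polynomial ℂ := (-S).charpoly with hp
  have hp0 : p ≠ 0 := (Matrix.charpoly_monic (-S)).ne_zero
  set q : Polynomial ℂ := p.comp (Polynomial.X ^ 2) with hq
  have hq0 : q ≠ 0 := by
    intro h
    rw [hq, Polynomial.comp_eq_zero_iff] at h
    rcases h with h | ⟨-, h⟩
    · exact hp0 h
    · have := congrArg Polynomial.natDegree h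
      simp at this
  -- the unit complex numbers `(1 + i s) / (1 - i s)`
  set u : ℝ → ℂ := fun s => (1 + s * Complex.I) / (1 - s * Complex.I) with hu
  have hne : ∀ s : ℝ, (1 - s * Complex.I : ℂ) ≠ 0 := by
    intro s h
    have := congrArg Complex.re h
    simp at this
  have hne' : ∀ s : ℝ, (1 + s * Complex.I : ℂ) ≠ 0 := by
    intro s h
    have := congrArg Complex.re h
    simp at this
  have huu : ∀ s : ℝ, u s * star (u s) = 1 := by
    intro s
    have h1 : star (u s) = (1 - s * Complex.I) / (1 + s * Complex.I) := by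
      simp only [hu, Complex.star_def, map_div₀, map_add, map_sub, map_one, map_mul,
        Complex.conj_ofReal, Complex.conj_I]
      congr 1 <;> ring
    rw [h1, hu]
    have := hne s
    have := hne' s
    field_simp
  have hinj : Function.Injective u := by
    intro s t h
    simp only [hu] at h
    rw [div_eq_div_iff (hne s) (hne t)] at h
    have h2 := congrArg Complex.im h
    simp at h2
    linarith
  have hinf : (Set.range u).Infinite := Set.infinite_range_of_injective hinj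
  have hfin : (q.roots.toFinset : Set ℂ).Finite := Finset.finite_toSet _
  obtain ⟨η, hη, hηq⟩ := (hinf.sdiff hfin).nonempty
  obtain ⟨s, rfl⟩ := hη
  have hev : q.eval (u s) ≠ 0 := by
    intro h
    apply hηq
    simp only [Finset.mem_coe, Multiset.mem_toFinset]
    exact (Polynomial.mem_roots hq0).2 h
  refine ⟨star (u s), by rw [star_star, mul_comm]; exact huu s, ?_⟩
  have h1 : q.eval (u s) = ((u s) ^ 2 • (1 : M3) + S).det := by
    rw [hq, Polynomial.eval_comp, hp, Matrix.eval_charpoly]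
    congr 1
    simp [Matrix.smul_eq_diagonal_mul]
  have h2 : (1 : M3) + (star (u s)) ^ 2 • S = (star (u s)) ^ 2 • ((u s) ^ 2 • (1 : M3) + S) := by
    rw [smul_add, smul_smul, ← mul_pow, mul_comm (star (u s)), huu, one_pow, one_smul]
  rw [h2, det_smul, ← h1]
  have h3 : star (u s) ≠ 0 := by
    intro h
    have := huu s
    rw [h, mul_zero] at this
    exact zero_ne_one this
  exact mul_ne_zero (pow_ne_zero _ (pow_ne_zero _ h3)) hev

theorem takagi (S : M3) (hS : S ∈ SU3) (hT : Sᵀ = S) : ∃ C ∈ SU3, C * Cᵀ = S := by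
  obtain ⟨σ, hσ⟩ := exists_unitaryRoot
  obtain ⟨ζ, hζ, hdet⟩ := WA_exists_phase S
  have hSU := (Matrix.mem_specialUnitaryGroup_iff.1 hS)
  have hζ' : star ζ * ζ = 1 := by rw [mul_comm]; exact hζ
  have hζ2 : ζ ^ 2 * star (ζ ^ 2) = 1 := by
    rw [star_pow, ← mul_pow, hζ, one_pow]
  have hU : (ζ ^ 2) • S ∈ Matrix.unitaryGroup (Fin 3) ℂ := by
    rw [Matrix.mem_unitaryGroup_iff, star_smul, smul_mul_smul_comm, hζ2, one_smul]
    exact Matrix.mem_unitaryGroup_iff.1 hSU.1
  have hTU : ((ζ ^ 2) • S)ᵀ = (ζ ^ 2) • S := by rw [transpose_smul, hT]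
  obtain ⟨-, hV, hVV⟩ := hσ _ hU hTU hdet
  set V := σ ((ζ ^ 2) • S) with hVdef
  -- C0 = conj ζ • V
  have hC0 : (star ζ • V) ∈ Matrix.unitaryGroup (Fin 3) ℂ := by
    rw [Matrix.mem_unitaryGroup_iff, star_smul, smul_mul_smul_comm, star_star, hζ', one_smul]
    exact Matrix.mem_unitaryGroup_iff.1 hV
  have hC0S : (star ζ • V) * (star ζ • V)ᵀ = S := by
    rw [transpose_smul, smul_mul_smul_comm, hVV, smul_smul]
    have : star ζ * star ζ * ζ ^ 2 = 1 := by
      have : star ζ * star ζ * ζ ^ 2 = (star ζ * ζ) * (star ζ * ζ) := by ring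
      rw [this, hζ', one_mul]
    rw [this, one_smul]
  have hd : (star ζ • V).det ^ 2 = 1 := by
    have := congrArg Matrix.det hC0S
    rw [det_mul, det_transpose, hSU.2] at this
    rw [sq]; exact this
  rw [sq, mul_self_eq_one_iff] at hd
  rcases hd with h | h
  · exact ⟨_, Matrix.mem_specialUnitaryGroup_iff.2 ⟨hC0, h⟩, hC0S⟩
  · set D : M3 := Matrix.diagonal ![-1, 1, 1] with hD
    have hDT : Dᵀ = D := Matrix.diagonal_transpose _
    have hDD : D * D = 1 := by
      rw [hD, Matrix.diagonal_mul_diagonal, ← Matrix.diagonal_one]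
      congr 1
      ext i
      fin_cases i <;> simp
    have hDU : D ∈ Matrix.unitaryGroup (Fin 3) ℂ := by
      rw [Matrix.mem_unitaryGroup_iff, star_eq_conjTranspose]
      have : Dᴴ = D := by
        rw [hD, Matrix.diagonal_conjTranspose]
        congr 1
        ext i
        fin_cases i <;> simp
      rw [this, hDD]
    have hDd : D.det = -1 := by
      rw [hD, Matrix.det_diagonal, Fin.prod_univ_three]
      simp
    refine ⟨(star ζ • V) * D, Matrix.mem_specialUnitaryGroup_iff.2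
      ⟨Submonoid.mul_mem _ hC0 hDU, by rw [det_mul, h, hDd]; norm_num⟩, ?_⟩
    rw [transpose_mul, hDT, Matrix.mul_assoc, ← Matrix.mul_assoc D D, hDD, Matrix.one_mul, hC0S]

end Wu
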