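import Pool.Agent.Lib.MP_60079e_gt.WA

/-! The explicit family `sig`. -/

open Set Metric Topology Matrix
open scoped ContDiff

namespace Wu

private theorem WB_unit (p q w P Q W u m : ℂ) (h1 : u ^ 2 * (p * P + q * Q + w * W) = 1)
    (h2 : m * (p * P + q * Q) = 1) :
    (!![-(W * p ^ 2 * u + Q ^ 2) * m, -(W * p * q * u - P * Q) * m, p * u;
       -(W * p * q * u - P * Q) * m, -(W * q ^ 2 * u + P ^ 2) * m, q * u;
       p * u, q * u, w * u] : M3) *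
    (!![-(w * P ^ 2 * u + q ^ 2) * m, -(w * P * Q * u - p * q) * m, P * u;
       -(w * P * Q * u - p * q) * m, -(w * Q ^ 2 * u + p ^ 2) * m, Q * u;
       P * u, Q * u, W * u] : M3) = 1 := by
  ext i j
  fin_cases i <;> fin_cases j <;>
    simp [Matrix.mul_apply, Fin.sum_univ_three]
  · linear_combination h2 * ((W * w * p * P * u ^ 2 + q * Q) * m - u ^ 2 * p * P + 1) +
      h1 * (p * P * m)
  all_goals grind

private theorem WB_det (p q w P Q W u m : ℂ) (h1 : u ^ 2 * (p * P + q * Q + w * W) = 1)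
    (h2 : m * (p * P + q * Q) = 1) :
    (!![-(W * p ^ 2 * u + Q ^ 2) * m, -(W * p * q * u - P * Q) * m, p * u;
       -(W * p * q * u - P * Q) * m, -(W * q ^ 2 * u + P ^ 2) * m, q * u;
       p * u, q * u, w * u] : M3).det = 1 := by
  rw [Matrix.det_fin_three]
  simp
  grind

/-- the norm -/
private noncomputable def WB_N (U : C3) : ℝ :=
  Real.sqrt (Complex.normSq (U 0) + Complex.normSq (U 1) + Complex.normSq (U 2))

/-- the squared norm of the first two coordinates -/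
private noncomputable def WB_n (U : C3) : ℝ := Complex.normSq (U 0) + Complex.normSq (U 1)

private theorem WB_n_pos (U : C3) (h : U 0 ≠ 0 ∨ U 1 ≠ 0) : 0 < WB_n U := by
  unfold WB_n
  rcases h with h | h
  · have := Complex.normSq_pos.2 h
    have := Complex.normSq_nonneg (U 1)
    linarith
  · have := Complex.normSq_pos.2 h
    have := Complex.normSq_nonneg (U 0)
    linarith

private theorem WB_N_arg_pos (U : C3) (h : U 0 ≠ 0 ∨ U 1 ≠ 0) :
    0 < Complex.normSq (U 0) + Complex.normSq (U 1) + Complex.normSq (U 2) := by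
  have := WB_n_pos U h
  unfold WB_n at this
  have := Complex.normSq_nonneg (U 2)
  linarith

private theorem WB_N_pos (U : C3) (h : U 0 ≠ 0 ∨ U 1 ≠ 0) : 0 < WB_N U :=
  Real.sqrt_pos.2 (WB_N_arg_pos U h)

private theorem WB_sig_eq (U : C3) : sig U =
    (!![-(star (U 2) * U 0 ^ 2 * (WB_N U : ℂ)⁻¹ + star (U 1) ^ 2) * (WB_n U : ℂ)⁻¹,
        -(star (U 2) * U 0 * U 1 * (WB_N U : ℂ)⁻¹ - star (U 0) * star (U 1)) * (WB_n U : ℂ)⁻¹,
        U 0 * (WB_N U : ℂ)⁻¹;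
       -(star (U 2) * U 0 * U 1 * (WB_N U : ℂ)⁻¹ - star (U 0) * star (U 1)) * (WB_n U : ℂ)⁻¹,
        -(star (U 2) * U 1 ^ 2 * (WB_N U : ℂ)⁻¹ + star (U 0) ^ 2) * (WB_n U : ℂ)⁻¹,
        U 1 * (WB_N U : ℂ)⁻¹;
       U 0 * (WB_N U : ℂ)⁻¹, U 1 * (WB_N U : ℂ)⁻¹, U 2 * (WB_N U : ℂ)⁻¹] : M3) := by
  simp only [sig, WB_N, WB_n, div_eq_mul_inv]

private theorem WB_h2 (U : C3) (h : U 0 ≠ 0 ∨ U 1 ≠ 0) :
    (WB_n U : ℂ)⁻¹ * (U 0 * star (U 0) + U 1 * star (U 1)) = 1 := by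
  have h0 : U 0 * star (U 0) = (Complex.normSq (U 0) : ℂ) := Complex.mul_conj (U 0)
  have h1 : U 1 * star (U 1) = (Complex.normSq (U 1) : ℂ) := Complex.mul_conj (U 1)
  rw [h0, h1, ← Complex.ofReal_add]
  have hn : (WB_n U : ℂ) ≠ 0 := by exact_mod_cast (WB_n_pos U h).ne'
  exact inv_mul_cancel₀ hn

private theorem WB_h1 (U : C3) (h : U 0 ≠ 0 ∨ U 1 ≠ 0) :
    ((WB_N U : ℂ)⁻¹) ^ 2 * (U 0 * star (U 0) + U 1 * star (U 1) + U 2 * star (U 2)) = 1 := by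
  have h0 : U 0 * star (U 0) = (Complex.normSq (U 0) : ℂ) := Complex.mul_conj (U 0)
  have h1 : U 1 * star (U 1) = (Complex.normSq (U 1) : ℂ) := Complex.mul_conj (U 1)
  have h2 : U 2 * star (U 2) = (Complex.normSq (U 2) : ℂ) := Complex.mul_conj (U 2)
  have hN : (WB_N U : ℂ) ≠ 0 := by exact_mod_cast (WB_N_pos U h).ne'
  have hs : (WB_N U) ^ 2 = Complex.normSq (U 0) + Complex.normSq (U 1) + Complex.normSq (U 2) :=
    Real.sq_sqrt (WB_N_arg_pos U h).le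
  rw [h0, h1, h2, ← Complex.ofReal_add, ← Complex.ofReal_add, ← hs, Complex.ofReal_pow,
    inv_pow]
  exact inv_mul_cancel₀ (pow_ne_zero 2 hN)

theorem sig_mem (U : C3) (h : U 0 ≠ 0 ∨ U 1 ≠ 0) : sig U ∈ SU3 ∧ (sig U)ᵀ = sig U := by
  have hT : (sig U)ᵀ = sig U := by
    rw [WB_sig_eq]
    ext i j
    fin_cases i <;> fin_cases j <;> simp [Matrix.transpose_apply]
  refine ⟨?_, hT⟩
  rw [Matrix.mem_specialUnitaryGroup_iff]
  constructor
  · rw [Matrix.mem_unitaryGroup_iff]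
    have e : star (sig U) =
      (!![-(U 2 * star (U 0) ^ 2 * (WB_N U : ℂ)⁻¹ + U 1 ^ 2) * (WB_n U : ℂ)⁻¹,
        -(U 2 * star (U 0) * star (U 1) * (WB_N U : ℂ)⁻¹ - U 0 * U 1) * (WB_n U : ℂ)⁻¹,
        star (U 0) * (WB_N U : ℂ)⁻¹;
       -(U 2 * star (U 0) * star (U 1) * (WB_N U : ℂ)⁻¹ - U 0 * U 1) * (WB_n U : ℂ)⁻¹,
        -(U 2 * star (U 1) ^ 2 * (WB_N U : ℂ)⁻¹ + U 0 ^ 2) * (WB_n U : ℂ)⁻¹,
        star (U 1) * (WB_N U : ℂ)⁻¹;
       star (U 0) * (WB_N U : ℂ)⁻¹, star (U 1) * (WB_N U : ℂ)⁻¹,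
        star (U 2) * (WB_N U : ℂ)⁻¹] : M3) := by
      rw [WB_sig_eq]
      ext i j
      fin_cases i <;> fin_cases j <;> simp [Matrix.star_apply]
    rw [e, WB_sig_eq]
    exact WB_unit (U 0) (U 1) (U 2) (star (U 0)) (star (U 1)) (star (U 2)) _ _
      (WB_h1 U h) (WB_h2 U h)
  · rw [WB_sig_eq]
    exact WB_det (U 0) (U 1) (U 2) (star (U 0)) (star (U 1)) (star (U 2)) _ _
      (WB_h1 U h) (WB_h2 U h)

theorem sig_col (U : C3) (i : Fin 3) : sig U i 2 = U i /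
    (Real.sqrt (Complex.normSq (U 0) + Complex.normSq (U 1) + Complex.normSq (U 2)) : ℝ) := by
  fin_cases i <;> simp [sig]

theorem sig_smul_pos (U : C3) (a : ℝ) (ha : 0 < a) : sig (a • U) = sig U := by
  have hN : WB_N (a • U) = a * WB_N U := by
    unfold WB_N
    have e : Complex.normSq ((a • U) 0) + Complex.normSq ((a • U) 1) +
        Complex.normSq ((a • U) 2) =
        a ^ 2 * (Complex.normSq (U 0) + Complex.normSq (U 1) + Complex.normSq (U 2)) := by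
      simp [Complex.normSq_mul]
      ring
    rw [e, Real.sqrt_mul (by positivity), Real.sqrt_sq ha.le]
  have hn : WB_n (a • U) = a ^ 2 * WB_n U := by
    unfold WB_n
    simp [Complex.normSq_mul]
    ring
  have ha' : (a : ℂ) ≠ 0 := by exact_mod_cast ha.ne'
  have hx : ∀ i, (a • U) i = (a : ℂ) * U i := fun i => by simp
  have key : ∀ x : ℂ, (a : ℂ) * x * ((a : ℂ) * WB_N U)⁻¹ = x * (WB_N U : ℂ)⁻¹ := by
    intro x
    rw [mul_inv]
    field_simp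
  rw [WB_sig_eq, WB_sig_eq, hN, hn]
  simp only [hx, Complex.ofReal_mul, Complex.ofReal_pow, mul_inv]
  have c1 : (a : ℂ) * (a : ℂ)⁻¹ = 1 := mul_inv_cancel₀ ha'
  ext i j
  fin_cases i <;> fin_cases j <;> simp <;> grind

theorem sig_of_col (S : M3) (hS : S ∈ SU3) (hT : Sᵀ = S) (h : S 0 2 ≠ 0 ∨ S 1 2 ≠ 0) :
    sig (fun i => S i 2) = S := by
  have h1 := mul_conj_of_mem hS hT
  have hdet : S.det = 1 := (Matrix.mem_specialUnitaryGroup_iff.1 hS).2
  have hadj : S.adjugate = S.map star := by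
    calc S.adjugate = S.adjugate * (S * S.map star) := by rw [h1, mul_one]
      _ = (S.adjugate * S) * S.map star := by rw [mul_assoc]
      _ = S.map star := by rw [Matrix.adjugate_mul, hdet, one_smul, one_mul]
  have hs : ∀ i j, S i j = S j i := fun i j => by
    conv_lhs => rw [← hT]
    rfl
  have hcol := col_normSq hS 2
  have hN : WB_N (fun i => S i 2) = 1 := by
    unfold WB_N
    rw [hcol, Real.sqrt_one]
  have e02 : (S * S.map star) 0 2 = 0 := by rw [h1]; simp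
  have e12 : (S * S.map star) 1 2 = 0 := by rw [h1]; simp
  rw [Matrix.mul_apply, Fin.sum_univ_three] at e02 e12
  simp only [Matrix.map_apply] at e02 e12
  have a02 : S.adjugate 0 2 = star (S 0 2) := by rw [hadj]; rfl
  have a12 : S.adjugate 1 2 = star (S 1 2) := by rw [hadj]; rfl
  rw [Matrix.adjugate_fin_three] at a02 a12
  simp at a02 a12
  have hh2 : ((WB_n (fun i => S i 2) : ℝ) : ℂ)⁻¹ *
      (S 0 2 * star (S 0 2) + S 1 2 * star (S 1 2)) = 1 := WB_h2 (fun i => S i 2) h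
  rw [WB_sig_eq, hN]
  simp only [Complex.ofReal_one, inv_one, mul_one]
  have s10 := hs 1 0
  have s20 := hs 2 0
  have s21 := hs 2 1
  ext i j
  fin_cases i <;> fin_cases j <;> simp <;> simp at e02 e12 hh2 <;> grind

theorem sig_contDiffAt (U : C3) (h : U 0 ≠ 0 ∨ U 1 ≠ 0) :
    ContDiffAt ℝ ∞ (fun V : C3 => toA (sig V)) U := by
  have hc : ∀ i, ContDiffAt ℝ ∞ (fun V : C3 => V i) U := fun i =>
    (contDiff_apply ℝ ℂ i).contDiffAt
  have hst : ∀ i, ContDiffAt ℝ ∞ (fun V : C3 => star (V i)) U := fun i =>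
    (Complex.conjCLE.contDiff.contDiffAt).comp U (hc i)
  have hsq : ∀ i, ContDiffAt ℝ ∞ (fun V : C3 => Complex.normSq (V i)) U := by
    intro i
    have e : (fun V : C3 => Complex.normSq (V i)) =
        fun V : C3 => (V i).re * (V i).re + (V i).im * (V i).im := by
      funext V
      rw [Complex.normSq_apply]
    rw [e]
    have hre : ContDiffAt ℝ ∞ (fun V : C3 => (V i).re) U :=
      (Complex.reCLM.contDiff.contDiffAt).comp U (hc i)
    have him : ContDiffAt ℝ ∞ (fun V : C3 => (V i).im) U :=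
      (Complex.imCLM.contDiff.contDiffAt).comp U (hc i)
    exact (hre.mul hre).add (him.mul him)
  have hn : ContDiffAt ℝ ∞ (fun V : C3 => (WB_n V : ℂ)⁻¹) U := by
    have h1 : ContDiffAt ℝ ∞ (fun V : C3 => WB_n V) U := (hsq 0).add (hsq 1)
    have h2 : ContDiffAt ℝ ∞ (fun V : C3 => (WB_n V : ℂ)) U :=
      (Complex.ofRealCLM.contDiff.contDiffAt).comp U h1
    refine h2.inv ?_
    exact_mod_cast (WB_n_pos U h).ne'
  have hN : ContDiffAt ℝ ∞ (fun V : C3 => (WB_N V : ℂ)⁻¹) U := by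
    have h1 : ContDiffAt ℝ ∞ (fun V : C3 => WB_N V) U := by
      unfold WB_N
      exact (((hsq 0).add (hsq 1)).add (hsq 2)).sqrt (WB_N_arg_pos U h).ne'
    have h2 : ContDiffAt ℝ ∞ (fun V : C3 => (WB_N V : ℂ)) U :=
      (Complex.ofRealCLM.contDiff.contDiffAt).comp U h1
    refine h2.inv ?_
    exact_mod_cast (WB_N_pos U h).ne'
  have e : (fun V : C3 => toA (sig V)) = fun V => toA
    (!![-(star (V 2) * V 0 ^ 2 * (WB_N V : ℂ)⁻¹ + star (V 1) ^ 2) * (WB_n V : ℂ)⁻¹,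
        -(star (V 2) * V 0 * V 1 * (WB_N V : ℂ)⁻¹ - star (V 0) * star (V 1)) * (WB_n V : ℂ)⁻¹,
        V 0 * (WB_N V : ℂ)⁻¹;
       -(star (V 2) * V 0 * V 1 * (WB_N V : ℂ)⁻¹ - star (V 0) * star (V 1)) * (WB_n V : ℂ)⁻¹,
        -(star (V 2) * V 1 ^ 2 * (WB_N V : ℂ)⁻¹ + star (V 0) ^ 2) * (WB_n V : ℂ)⁻¹,
        V 1 * (WB_N V : ℂ)⁻¹;
       V 0 * (WB_N V : ℂ)⁻¹, V 1 * (WB_N V : ℂ)⁻¹, V 2 * (WB_N V : ℂ)⁻¹] : M3) := by
    funext V
    rw [WB_sig_eq]
  rw [e]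
  have k1 : ContDiffAt ℝ ∞ (fun V : C3 =>
      -(star (V 2) * V 0 ^ 2 * (WB_N V : ℂ)⁻¹ + star (V 1) ^ 2) * (WB_n V : ℂ)⁻¹) U :=
    (((((hst 2).mul ((hc 0).pow 2)).mul hN).add ((hst 1).pow 2)).neg).mul hn
  have k2 : ContDiffAt ℝ ∞ (fun V : C3 =>
      -(star (V 2) * V 0 * V 1 * (WB_N V : ℂ)⁻¹ - star (V 0) * star (V 1)) *
        (WB_n V : ℂ)⁻¹) U :=
    ((((((hst 2).mul (hc 0)).mul (hc 1)).mul hN).sub ((hst 0).mul (hst 1))).neg).mul hn
  have k3 : ContDiffAt ℝ ∞ (fun V : C3 =>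
      -(star (V 2) * V 1 ^ 2 * (WB_N V : ℂ)⁻¹ + star (V 0) ^ 2) * (WB_n V : ℂ)⁻¹) U :=
    (((((hst 2).mul ((hc 1).pow 2)).mul hN).add ((hst 0).pow 2)).neg).mul hn
  have k4 : ContDiffAt ℝ ∞ (fun V : C3 => V 0 * (WB_N V : ℂ)⁻¹) U := (hc 0).mul hN
  have k5 : ContDiffAt ℝ ∞ (fun V : C3 => V 1 * (WB_N V : ℂ)⁻¹) U := (hc 1).mul hN
  have k6 : ContDiffAt ℝ ∞ (fun V : C3 => V 2 * (WB_N V : ℂ)⁻¹) U := (hc 2).mul hN
  rw [contDiffAt_pi]
  intro i
  rw [contDiffAt_pi]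
  intro j
  fin_cases i <;> fin_cases j
  · exact k1
  · exact k2
  · exact k4
  · exact k2
  · exact k3
  · exact k5
  · exact k4
  · exact k5
  · exact k6

end Wu
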