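import Pool.Agent.Lib.MP_60079e_gt.WA

/-! Frames: tangent vectors. -/

open Set Metric Topology Matrix
open scoped ContDiff

namespace Wu

private theorem WCa_tr_add (g x y : M3) : tr g (x + y) = tr g x + tr g y := by
  unfold tr
  rw [mul_add, add_mul]

private theorem WCa_tr_smul (g : M3) (a : ℝ) (x : M3) : tr g (a • x) = a • tr g x := by
  unfold tr
  rw [mul_smul_comm, smul_mul_assoc]

private theorem WCa_unit {S : M3} (h : S ∈ SU3) (i j : Fin 3) :
    ∑ k, S i k * star (S j k) = (1 : M3) i j := by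
  have h3 : S * star S = 1 :=
    (Matrix.mem_unitaryGroup_iff).1 (Matrix.mem_specialUnitaryGroup_iff.1 h).1
  have h4 := congrFun (congrFun h3 i) j
  rw [Matrix.mul_apply] at h4
  exact h4

private theorem WCa_det {S : M3} (h : S ∈ SU3) :
    S 0 0 * S 1 1 * S 2 2 - S 0 0 * S 1 2 * S 2 1 -
        S 0 1 * S 1 0 * S 2 2 + S 0 1 * S 1 2 * S 2 0 + S 0 2 * S 1 0 * S 2 1 -
        S 0 2 * S 1 1 * S 2 0 = 1 := by
  have h3 : S.det = 1 := (Matrix.mem_specialUnitaryGroup_iff.1 h).2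
  rw [Matrix.det_fin_three] at h3
  exact h3

/-- translation as a continuous linear map -/
private noncomputable def WCa_L (g : M3) : A3 →L[ℝ] A3 :=
  LinearMap.toContinuousLinearMap
    ({ toFun := fun S => toA (tr g (S : M3))
       map_add' := fun x y => WCa_tr_add g x y
       map_smul' := fun a x => WCa_tr_smul g a x } : A3 →ₗ[ℝ] A3)

private theorem WCa_L_apply (g : M3) (S : A3) : WCa_L g S = toA (tr g (S : M3)) := rfl

private theorem WCa_star {u : ℝ → ℂ} {z : ℂ} (h : HasDerivAt u z 0) :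
    HasDerivAt (fun s => star (u s)) (star z) 0 := h.star

/-- Velocities of curves in `W` are in the image of the frame. -/
theorem tangent_curve (f : ℝ → A3) (v : A3) (hf : HasDerivAt f v 0)
    (hW : ∀ᶠ s in 𝓝 (0 : ℝ), (f s : M3) ∈ SU3 ∧ (f s : M3)ᵀ = f s) (C : M3) (hC : C ∈ SU3)
    (h0 : f 0 = toA (C * Cᵀ)) : ∃ x : E5, v = FrL C x := by
  obtain ⟨g, hg⟩ : ∃ g : ℝ → A3, g = fun s => WCa_L Cᴴ (f s) := ⟨_, rfl⟩
  obtain ⟨Y, hY⟩ : ∃ Y : A3, Y = WCa_L Cᴴ v := ⟨_, rfl⟩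
  have hd : HasDerivAt g Y 0 := by
    rw [hg, hY]
    exact (WCa_L Cᴴ).hasFDerivAt.comp_hasDerivAt 0 hf
  have hgW : ∀ᶠ s in 𝓝 (0 : ℝ), (g s : M3) ∈ SU3 ∧ (g s : M3)ᵀ = g s := by
    filter_upwards [hW] with s hs
    rw [hg]
    exact tr_mem (ct_mem hC) hs
  have hg0 : g 0 = toA 1 := by
    rw [hg]
    change toA (tr Cᴴ (f 0 : M3)) = _
    rw [h0]
    change toA (tr Cᴴ (C * Cᵀ)) = _
    rw [tr_mulT, ct_mul hC, Matrix.transpose_one, mul_one]
  have hde : ∀ i j, HasDerivAt (fun s => g s i j) (Y i j) 0 := fun i j =>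
    hasDerivAt_pi.1 (hasDerivAt_pi.1 hd i) j
  have hg0' : ∀ i j, g 0 i j = (1 : M3) i j := fun i j => by rw [hg0]; rfl
  have hsym : ∀ i j, Y i j = Y j i := by
    intro i j
    have h1 := hde j i
    have h2 : (fun s => g s i j) =ᶠ[𝓝 0] fun s => g s j i := by
      filter_upwards [hgW] with s hs
      have := congrFun (congrFun hs.2 j) i
      exact this
    exact (hde i j).unique (h1.congr_of_eventuallyEq h2)
  have hanti : ∀ i j, Y i j + star (Y j i) = 0 := by
    intro i j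
    have h1 : HasDerivAt (fun s => ∑ k, g s i k * star (g s j k))
        (∑ k, (Y i k * star (g 0 j k) + g 0 i k * star (Y j k))) 0 :=
      HasDerivAt.fun_sum fun k _ => (hde i k).mul (WCa_star (hde j k))
    have h2 : (fun s => ∑ k, g s i k * star (g s j k)) =ᶠ[𝓝 0] fun _ => (1 : M3) i j := by
      filter_upwards [hgW] with s hs
      exact WCa_unit hs.1 i j
    have h3 := (hasDerivAt_const (0 : ℝ) ((1 : M3) i j)).congr_of_eventuallyEq h2
    have h4 := h1.unique h3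
    simp only [hg0'] at h4
    rw [← h4]
    fin_cases i <;> fin_cases j <;> simp [Fin.sum_univ_three, Matrix.one_apply] <;>
      exact add_comm _ _
  have htr : Y 0 0 + Y 1 1 + Y 2 2 = 0 := by
    have h1 : HasDerivAt (fun s => g s 0 0 * g s 1 1 * g s 2 2 - g s 0 0 * g s 1 2 * g s 2 1 -
        g s 0 1 * g s 1 0 * g s 2 2 + g s 0 1 * g s 1 2 * g s 2 0 + g s 0 2 * g s 1 0 * g s 2 1 -
        g s 0 2 * g s 1 1 * g s 2 0) _ 0 :=
      (((((((hde 0 0).mul (hde 1 1)).mul (hde 2 2)).sub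
        (((hde 0 0).mul (hde 1 2)).mul (hde 2 1))).sub
        (((hde 0 1).mul (hde 1 0)).mul (hde 2 2))).add
        (((hde 0 1).mul (hde 1 2)).mul (hde 2 0))).add
        (((hde 0 2).mul (hde 1 0)).mul (hde 2 1))).sub
        (((hde 0 2).mul (hde 1 1)).mul (hde 2 0))
    have h2 : (fun s => g s 0 0 * g s 1 1 * g s 2 2 - g s 0 0 * g s 1 2 * g s 2 1 -
        g s 0 1 * g s 1 0 * g s 2 2 + g s 0 1 * g s 1 2 * g s 2 0 + g s 0 2 * g s 1 0 * g s 2 1 -
        g s 0 2 * g s 1 1 * g s 2 0) =ᶠ[𝓝 0] fun _ => (1 : ℂ) := by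
      filter_upwards [hgW] with s hs
      exact WCa_det hs.1
    have h3 := (hasDerivAt_const (0 : ℝ) (1 : ℂ)).congr_of_eventuallyEq h2
    have h4 := h1.unique h3
    simp [hg0'] at h4
    linear_combination h4
  have hre : ∀ i j, (Y i j).re = 0 := by
    intro i j
    have h1 := hanti i j
    rw [← hsym i j] at h1
    have h2 := congrArg Complex.re h1
    simp at h2
    linarith
  have hI : ∀ i j, Y i j = Complex.I * ((Y i j).im : ℂ) := by
    intro i j
    have h1 := Complex.re_add_im (Y i j)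
    rw [hre i j, Complex.ofReal_zero, zero_add] at h1
    rw [mul_comm]
    exact h1.symm
  have him : (Y 0 0).im + (Y 1 1).im + (Y 2 2).im = 0 := by
    have := congrArg Complex.im htr
    simpa using this
  obtain ⟨x, hx⟩ : ∃ x : E5, x = !₂[((Y 0 0).im - (Y 1 1).im) / 2, (Y 0 1).im, (Y 0 2).im,
    (Y 1 2).im, ((Y 0 0).im + (Y 1 1).im) / 2] := ⟨_, rfl⟩
  refine ⟨x, ?_⟩
  have hx0 : x 0 = ((Y 0 0).im - (Y 1 1).im) / 2 := by rw [hx]; rfl
  have hx1 : x 1 = (Y 0 1).im := by rw [hx]; rfl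
  have hx2 : x 2 = (Y 0 2).im := by rw [hx]; rfl
  have hx3 : x 3 = (Y 1 2).im := by rw [hx]; rfl
  have hx4 : x 4 = ((Y 0 0).im + (Y 1 1).im) / 2 := by rw [hx]; rfl
  have hXY : (Complex.I • Xm x : M3) = (Y : M3) := by
    have a0 : x 0 + x 4 = (Y 0 0).im := by rw [hx0, hx4]; ring
    have a1 : x 4 - x 0 = (Y 1 1).im := by rw [hx0, hx4]; ring
    have a2 : -2 * x 4 = (Y 2 2).im := by rw [hx4]; linarith
    have e : ∀ i j, (Xm x) i j = (((Y i j).im : ℝ) : ℂ) := by
      intro i j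
      have b0 : Xm x 0 0 = ((x 0 + x 4 : ℝ) : ℂ) := rfl
      have b1 : Xm x 0 1 = ((x 1 : ℝ) : ℂ) := rfl
      have b2 : Xm x 0 2 = ((x 2 : ℝ) : ℂ) := rfl
      have b3 : Xm x 1 0 = ((x 1 : ℝ) : ℂ) := rfl
      have b4 : Xm x 1 1 = ((x 4 - x 0 : ℝ) : ℂ) := rfl
      have b5 : Xm x 1 2 = ((x 3 : ℝ) : ℂ) := rfl
      have b6 : Xm x 2 0 = ((x 2 : ℝ) : ℂ) := rfl
      have b7 : Xm x 2 1 = ((x 3 : ℝ) : ℂ) := rfl
      have b8 : Xm x 2 2 = ((-2 * x 4 : ℝ) : ℂ) := rfl
      fin_cases i <;> fin_cases j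
      · exact b0.trans (by rw [a0]; rfl)
      · exact b1.trans (by rw [hx1]; rfl)
      · exact b2.trans (by rw [hx2]; rfl)
      · exact b3.trans (by rw [hx1, hsym 0 1]; rfl)
      · exact b4.trans (by rw [a1]; rfl)
      · exact b5.trans (by rw [hx3]; rfl)
      · exact b6.trans (by rw [hx2, hsym 0 2]; rfl)
      · exact b7.trans (by rw [hx3, hsym 1 2]; rfl)
      · exact b8.trans (by rw [a2]; rfl)
    ext i j
    rw [Matrix.smul_apply, e i j, smul_eq_mul]
    exact (hI i j).symm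
  rw [FrL_apply, hXY, hY]
  change v = toA (tr C (tr Cᴴ (v : M3)))
  rw [tr_tr_ct hC]
  rfl

theorem FrL_injective {C : M3} (hC : C ∈ SU3) : Function.Injective (FrL C) := by
  intro x y hxy
  have h1 : tr C (Complex.I • Xm x) = tr C (Complex.I • Xm y) := hxy
  have h2 : (Complex.I • Xm x : M3) = Complex.I • Xm y := by
    rw [← tr_ct_tr hC (Complex.I • Xm x), h1, tr_ct_tr hC]
  have h3 : Xm x = Xm y := smul_right_injective _ Complex.I_ne_zero h2
  have c : ∀ i j, Xm x i j = Xm y i j := fun i j => by rw [h3]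
  have e0 : x 0 + x 4 = y 0 + y 4 := Complex.ofReal_injective (c 0 0)
  have e1 : x 1 = y 1 := Complex.ofReal_injective (c 0 1)
  have e2 : x 2 = y 2 := Complex.ofReal_injective (c 0 2)
  have e3 : x 3 = y 3 := Complex.ofReal_injective (c 1 2)
  have e4 : x 4 - x 0 = y 4 - y 0 := Complex.ofReal_injective (c 1 1)
  have e5 : x 0 = y 0 := by linarith
  have e6 : x 4 = y 4 := by linarith
  ext i
  fin_cases i
  · exact e5
  · exact e1
  · exact e2
  · exact e3
  · exact e6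

/-- The derivative of a map to `W` factors through the frame. -/
theorem tangent_frame (f : E5 → A3) (x : E5) (hf : DifferentiableAt ℝ f x)
    (hW : ∀ᶠ y in 𝓝 x, (f y : M3) ∈ SU3 ∧ (f y : M3)ᵀ = f y) (C : M3) (hC : C ∈ SU3)
    (hx : f x = toA (C * Cᵀ)) : ∃ m : E5 →L[ℝ] E5, fderiv ℝ f x = (FrL C).comp m := by
  have key : ∀ y : E5, ∃ z : E5, fderiv ℝ f x y = FrL C z := by
    intro y
    have hline : HasDerivAt (fun s : ℝ => x + s • y) y 0 := by
      have h1 : HasDerivAt (fun s : ℝ => s • y) ((1 : ℝ) • y) 0 :=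
        (hasDerivAt_id (0 : ℝ)).smul_const y
      rw [one_smul] at h1
      exact h1.const_add x
    have hx0 : x + (0 : ℝ) • y = x := by simp
    have hcomp : HasDerivAt (fun s : ℝ => f (x + s • y)) (fderiv ℝ f x y) 0 := by
      have h1 : HasFDerivAt f (fderiv ℝ f x) (x + (0 : ℝ) • y) := by
        rw [hx0]; exact hf.hasFDerivAt
      exact h1.comp_hasDerivAt 0 hline
    have hcont : Filter.Tendsto (fun s : ℝ => x + s • y) (𝓝 0) (𝓝 x) := by
      have h1 := hline.continuousAt.tendsto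
      rw [hx0] at h1
      exact h1
    have hW' : ∀ᶠ s in 𝓝 (0 : ℝ), (f (x + s • y) : M3) ∈ SU3 ∧
        (f (x + s • y) : M3)ᵀ = f (x + s • y) := hcont.eventually hW
    exact tangent_curve (fun s : ℝ => f (x + s • y)) _ hcomp hW' C hC (by
      rw [hx0, hx])
  obtain ⟨g, hg⟩ := LinearMap.exists_leftInverse_of_injective (FrL C : E5 →ₗ[ℝ] A3)
    (LinearMap.ker_eq_bot.2 (FrL_injective hC))
  have hg' : ∀ z, g (FrL C z) = z := fun z => by
    have := LinearMap.congr_fun hg z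
    exact this
  refine ⟨(LinearMap.toContinuousLinearMap g).comp (fderiv ℝ f x), ?_⟩
  ext1 y
  obtain ⟨z, hz⟩ := key y
  change fderiv ℝ f x y = FrL C (g (fderiv ℝ f x y))
  rw [hz, hg' z]

end Wu
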