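import Pool.Agent.Lib.MP_60079e_gt.WA

/-! Positivity of frames, seen in the last column. -/

open Set Metric Topology Matrix
open scoped ContDiff

namespace Wu

theorem WCb_det (a b c d e f : ℝ) : Matrix.det (!![a, b, c, d, e, f;
    -b, a, d, -c, 0, 0;
    -d, c, -b, a, 0, 0;
    -f, e, 0, 0, -b, a;
    0, 0, -f, e, -d, c;
    -b, a, -d, c, 2 * f, -2 * e] : Matrix (Fin 6) (Fin 6) ℝ) =
    1 / 2 * (a ^ 2 + b ^ 2 + c ^ 2 + d ^ 2 + e ^ 2 + f ^ 2) *
      ((a ^ 2 + b ^ 2 + c ^ 2 + d ^ 2 + e ^ 2 + f ^ 2) ^ 2 -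
        ((a ^ 2 - b ^ 2 + c ^ 2 - d ^ 2 + e ^ 2 - f ^ 2) ^ 2 +
          (2 * a * b + 2 * c * d + 2 * e * f) ^ 2)) := by
  simp [Matrix.det_succ_row_zero, Fin.sum_univ_succ, Fin.succAbove, Matrix.submatrix]
  ring

/-- `real6` as a linear equivalence -/
noncomputable def WCb_lin : C3 ≃ₗ[ℝ] (Fin 6 → ℝ) where
  toFun := real6
  map_add' u v := by ext i; fin_cases i <;> simp [real6]
  map_smul' a u := by ext i; fin_cases i <;> simp [real6]
  invFun x := ![⟨x 0, x 1⟩, ⟨x 2, x 3⟩, ⟨x 4, x 5⟩]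
  left_inv u := by ext i; fin_cases i <;> simp [real6]
  right_inv x := by ext i; fin_cases i <;> simp [real6]

/-- the basis of `ℂ³` over `ℝ` with coordinates `real6` -/
noncomputable def WCb_b : Module.Basis (Fin 6) ℝ C3 := Module.Basis.ofEquivFun WCb_lin

theorem WCb_det6 (u : C3) (δ : Fin 5 → C3) :
    det6 u δ = WCb_b.det (Fin.cons u δ : Fin 6 → C3) := by
  rw [Module.Basis.det_apply, ← Matrix.det_transpose, det6]
  congr 1
  ext i j
  rw [Matrix.transpose_apply, Module.Basis.toMatrix_apply]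
  refine Fin.cases ?_ (fun k => ?_) i
  · rfl
  · rfl

theorem WCb_row (x : E5) (e : C3) : real6 ((Complex.I • Xm x) *ᵥ e) =
    ![-((x 0 + x 4) * (e 0).im + x 1 * (e 1).im + x 2 * (e 2).im),
      (x 0 + x 4) * (e 0).re + x 1 * (e 1).re + x 2 * (e 2).re,
      -(x 1 * (e 0).im + (x 4 - x 0) * (e 1).im + x 3 * (e 2).im),
      x 1 * (e 0).re + (x 4 - x 0) * (e 1).re + x 3 * (e 2).re,
      -(x 2 * (e 0).im + x 3 * (e 1).im + (-2 * x 4) * (e 2).im),
      x 2 * (e 0).re + x 3 * (e 1).re + (-2 * x 4) * (e 2).re] := by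
  ext i
  fin_cases i <;>
    simp [real6, Xm, Matrix.mulVec, dotProduct, Fin.sum_univ_succ] <;> ring

theorem WCb_frame (e : C3) : det6 e (fun k => (Complex.I • Xm (bE k)) *ᵥ e) =
    1 / 2 * (Complex.normSq (e 0) + Complex.normSq (e 1) + Complex.normSq (e 2)) *
      ((Complex.normSq (e 0) + Complex.normSq (e 1) + Complex.normSq (e 2)) ^ 2 -
        Complex.normSq (e 0 ^ 2 + e 1 ^ 2 + e 2 ^ 2)) := by
  have h : (Matrix.of (Fin.cons (real6 e) (fun k => real6 ((Complex.I • Xm (bE k)) *ᵥ e)) :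
      Fin 6 → Fin 6 → ℝ)) = !![(e 0).re, (e 0).im, (e 1).re, (e 1).im, (e 2).re, (e 2).im;
    -(e 0).im, (e 0).re, (e 1).im, -(e 1).re, 0, 0;
    -(e 1).im, (e 1).re, -(e 0).im, (e 0).re, 0, 0;
    -(e 2).im, (e 2).re, 0, 0, -(e 0).im, (e 0).re;
    0, 0, -(e 2).im, (e 2).re, -(e 1).im, (e 1).re;
    -(e 0).im, (e 0).re, -(e 1).im, (e 1).re, 2 * (e 2).im, -2 * (e 2).re] := by
    ext i j
    refine Fin.cases ?_ (fun k => ?_) i
    · fin_cases j <;> rfl
    · rw [Matrix.of_apply, Fin.cons_succ, WCb_row]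
      fin_cases k <;> fin_cases j <;> simp [bE]
  rw [det6, h, WCb_det]
  simp only [Complex.normSq_apply, Complex.add_re, Complex.add_im, pow_two, Complex.mul_re,
    Complex.mul_im]
  ring

/-- Positivity of the frame, seen in the last column (`= ½ |e|² (|e|⁴ - |e·e|²)` with
`e = Cᵀ e₃`). -/
theorem det6_frame_pos (C : M3) (hC : C ∈ SU3) (h : (C * Cᵀ) 0 2 ≠ 0 ∨ (C * Cᵀ) 1 2 ≠ 0) :
    0 < det6 (fun i => (C * Cᵀ) i 2) (fun k => colL (FrL C (bE k))) := by
  have hdet : C.det = 1 := (Matrix.mem_specialUnitaryGroup_iff.1 hC).2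
  set e : C3 := fun j => C 2 j with he
  have h1 : (fun i => (C * Cᵀ) i 2 : C3) = C *ᵥ e := by
    funext i
    simp only [Matrix.mul_apply, Matrix.transpose_apply, Matrix.mulVec, dotProduct, he]
  have h2 : ∀ x : E5, colL (FrL C x) = C *ᵥ ((Complex.I • Xm x) *ᵥ e) := by
    intro x
    funext i
    rw [colL_apply, FrL_apply, Matrix.mulVec_mulVec]
    show (C * (Complex.I • Xm x) * Cᵀ) i 2 = _
    rw [Matrix.mul_apply]
    simp only [Matrix.transpose_apply, Matrix.mulVec, dotProduct, he]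
  set f : C3 →ₗ[ℝ] C3 := (Matrix.toLin' C).restrictScalars ℝ with hf
  have hfdet : LinearMap.det f = 1 := by
    rw [hf, LinearMap.det_restrictScalars, LinearMap.det_toLin', hdet, map_one]
  have h3 : det6 (fun i => (C * Cᵀ) i 2) (fun k => colL (FrL C (bE k))) =
      det6 e (fun k => (Complex.I • Xm (bE k)) *ᵥ e) := by
    rw [WCb_det6, WCb_det6]
    have h4 : (Fin.cons (fun i => (C * Cᵀ) i 2) (fun k => colL (FrL C (bE k))) : Fin 6 → C3) =
        f ∘ (Fin.cons e (fun k => (Complex.I • Xm (bE k)) *ᵥ e) : Fin 6 → C3) := by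
      funext i
      refine Fin.cases ?_ (fun k => ?_) i
      · rw [Function.comp_apply, Fin.cons_zero, Fin.cons_zero, h1]
        rfl
      · rw [Function.comp_apply, Fin.cons_succ, Fin.cons_succ, h2]
        rfl
    rw [h4, Module.Basis.det_comp, hfdet, one_mul]
  rw [h3, WCb_frame]
  have h5 : Complex.normSq (e 0) + Complex.normSq (e 1) + Complex.normSq (e 2) = 1 := by
    have := col_normSq (ct_mem hC) 2
    simpa [Matrix.conjTranspose_apply, he] using this
  have h6 := col_normSq (mulT_mem hC).1 2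
  have h7 : e 0 ^ 2 + e 1 ^ 2 + e 2 ^ 2 = (C * Cᵀ) 2 2 := by
    simp only [Matrix.mul_apply, Matrix.transpose_apply, he, Fin.sum_univ_three]
    ring
  rw [h5, h7]
  have h8 : 0 < Complex.normSq ((C * Cᵀ) 0 2) + Complex.normSq ((C * Cᵀ) 1 2) := by
    have ha := Complex.normSq_nonneg ((C * Cᵀ) 0 2)
    have hb := Complex.normSq_nonneg ((C * Cᵀ) 1 2)
    rcases h with h | h
    · have := Complex.normSq_pos.2 h
      linarith
    · have := Complex.normSq_pos.2 h
      linarith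
  linarith

theorem WCb_detB (A : Matrix (Fin 5) (Fin 5) ℝ) :
    Matrix.det (Matrix.of (Fin.cons (Fin.cons 1 0 : Fin 6 → ℝ)
      (fun k => (Fin.cons 0 (A k) : Fin 6 → ℝ)) : Fin 6 → Fin 6 → ℝ)) = A.det := by
  rw [Matrix.det_succ_column_zero, Fin.sum_univ_succ]
  rw [Finset.sum_eq_zero]
  · simp only [Fin.val_zero, pow_zero, one_mul, Matrix.of_apply, Fin.cons_zero, add_zero]
    rfl
  · intro k _
    simp [Matrix.of_apply]

theorem det6_comp (u : C3) (L : E5 →L[ℝ] C3) (m : E5 →L[ℝ] E5) :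
    det6 u (fun k => L (m (bE k))) = m.det * det6 u (fun k => L (bE k)) := by
  set A : Matrix (Fin 5) (Fin 5) ℝ := fun k l => m (bE k) l with hA
  have hdet : m.det = A.det := by
    rw [ContinuousLinearMap.det, ← LinearMap.det_toMatrix (EuclideanSpace.basisFun (Fin 5) ℝ).toBasis,
      ← Matrix.det_transpose]
    congr 1
  have hexp : ∀ x : E5, x = ∑ l, x l • bE l := by
    intro x
    ext i
    simp [bE, Pi.single_apply]
  have hrow : ∀ k, real6 (L (m (bE k))) = ∑ l, A k l • real6 (L (bE l)) := by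
    intro k
    have h1 : WCb_lin (L (m (bE k))) = ∑ l, A k l • WCb_lin (L (bE l)) := by
      conv_lhs => rw [hexp (m (bE k))]
      simp only [map_sum, map_smul]
      rfl
    exact h1
  rw [hdet, ← WCb_detB A, det6, det6, ← Matrix.det_mul]
  congr 1
  ext i j
  refine Fin.cases ?_ (fun k => ?_) i
  · rw [Matrix.mul_apply, Fin.sum_univ_succ]
    simp
  · rw [Matrix.mul_apply, Fin.sum_univ_succ]
    simp [hrow]

end Wu
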