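import Pool.Agent.Lib.MP_60079e_gt.W0

/-! Gnomonic coordinates. -/

open Set Metric Topology Matrix
open scoped ContDiff

namespace Wu

/-- the real coordinates as continuous linear maps -/
private noncomputable def ell : Fin 6 → (C3 →L[ℝ] ℝ) :=
  ![Complex.reCLM.comp (ContinuousLinearMap.proj (R := ℝ) (φ := fun _ : Fin 3 => ℂ) 0),
    Complex.imCLM.comp (ContinuousLinearMap.proj (R := ℝ) (φ := fun _ : Fin 3 => ℂ) 0),
    Complex.reCLM.comp (ContinuousLinearMap.proj (R := ℝ) (φ := fun _ : Fin 3 => ℂ) 1),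
    Complex.imCLM.comp (ContinuousLinearMap.proj (R := ℝ) (φ := fun _ : Fin 3 => ℂ) 1),
    Complex.reCLM.comp (ContinuousLinearMap.proj (R := ℝ) (φ := fun _ : Fin 3 => ℂ) 2),
    Complex.imCLM.comp (ContinuousLinearMap.proj (R := ℝ) (φ := fun _ : Fin 3 => ℂ) 2)]

private lemma ell_apply (j : Fin 6) (u : C3) : ell j u = real6 u j := by
  fin_cases j <;> rfl

private lemma gnom_apply (u : C3) (i : Fin 5) : gnom u i = real6 u i.succ / real6 u 0 := by
  fin_cases i <;> rfl

private lemma gnom_apply' (u : C3) (i : Fin 5) : gnom u i = ell i.succ u / ell 0 u := by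
  rw [ell_apply, ell_apply, gnom_apply]

theorem gnom_contDiffAt (u : C3) (h : (u 0).re ≠ 0) : ContDiffAt ℝ ∞ gnom u := by
  rw [contDiffAt_euclidean]
  intro i
  have h1 : (fun x => gnom x i) = fun x => ell i.succ x / ell 0 x := by
    funext x
    exact gnom_apply' x i
  rw [h1]
  refine ContDiffAt.div (ell i.succ).contDiff.contDiffAt (ell 0).contDiff.contDiffAt ?_
  rw [ell_apply]
  exact h

theorem gnom_ugn (x : E5) : gnom (ugn x) = x := by
  ext i
  fin_cases i <;> simp [gnom, ugn]

theorem gnom_smul (u : C3) (a : ℝ) (ha : a ≠ 0) : gnom (a • u) = gnom u := by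
  ext i
  rw [gnom_apply', gnom_apply', map_smul, map_smul, smul_eq_mul, smul_eq_mul,
    mul_div_mul_left _ _ ha]

theorem ugn_gnom (u : C3) (h : (u 0).re ≠ 0) : u = (u 0).re • ugn (gnom u) := by
  ext i
  fin_cases i <;> apply Complex.ext <;> simp [gnom, ugn] <;> field_simp

theorem ugn_contDiff : ContDiff ℝ ∞ ugn := by
  have hx : ∀ i : Fin 5, ContDiff ℝ ∞ (fun x : E5 => x i) := fun i =>
    (contDiff_euclidean.1 contDiff_id) i
  have hc : ∀ f g : E5 → ℝ, ContDiff ℝ ∞ f → ContDiff ℝ ∞ g →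
      ContDiff ℝ ∞ (fun x => (⟨f x, g x⟩ : ℂ)) := by
    intro f g hf hg
    have h1 : (fun x => (⟨f x, g x⟩ : ℂ)) = fun x => f x • (1 : ℂ) + g x • Complex.I := by
      funext x
      apply Complex.ext <;> simp
    rw [h1]
    exact (hf.smul contDiff_const).add (hg.smul contDiff_const)
  rw [contDiff_pi]
  intro i
  fin_cases i
  · exact hc (fun _ => 1) (fun x => x 0) contDiff_const (hx 0)
  · exact hc (fun x => x 1) (fun x => x 2) (hx 1) (hx 2)
  · exact hc (fun x => x 3) (fun x => x 4) (hx 3) (hx 4)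

private lemma real6_add (u v : C3) (j : Fin 6) : real6 (u + v) j = real6 u j + real6 v j := by
  rw [← ell_apply, ← ell_apply, ← ell_apply, map_add]

private lemma real6_smul (a : ℝ) (u : C3) (j : Fin 6) : real6 (a • u) j = a * real6 u j := by
  rw [← ell_apply, ← ell_apply, map_smul, smul_eq_mul]

private lemma fderiv_gnom (u : C3) (h : (u 0).re ≠ 0) (v : C3) (i : Fin 5) :
    (fderiv ℝ gnom u v) i = (real6 v i.succ * real6 u 0 - real6 u i.succ * real6 v 0)
      / real6 u 0 ^ 2 := by
  have hd : DifferentiableAt ℝ gnom u := (gnom_contDiffAt u h).differentiableAt (by simp)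
  have h1 : HasFDerivAt gnom (fderiv ℝ gnom u) u := hd.hasFDerivAt
  have hline : HasDerivAt (fun t : ℝ => u + t • v) v 0 := by
    have := ((hasDerivAt_id (0 : ℝ)).smul_const v).const_add u
    simpa using this
  have h2 : HasDerivAt (fun t : ℝ => gnom (u + t • v)) (fderiv ℝ gnom u v) 0 := by
    have h0 : u = (fun t : ℝ => u + t • v) 0 := by simp
    have h1' : HasFDerivAt gnom (fderiv ℝ gnom u) ((fun t : ℝ => u + t • v) 0) := by
      rw [← h0]; exact h1
    exact h1'.comp_hasDerivAt (0 : ℝ) hline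
  have h3 : HasDerivAt (fun t : ℝ => gnom (u + t • v) i) ((fderiv ℝ gnom u v) i) 0 := by
    exact (EuclideanSpace.proj (𝕜 := ℝ) i).hasFDerivAt.comp_hasDerivAt (0 : ℝ) h2
  have h4 : HasDerivAt (fun t : ℝ => ell i.succ (u + t • v) / ell 0 (u + t • v))
      ((ell i.succ v * ell 0 (u + (0 : ℝ) • v) - ell i.succ (u + (0 : ℝ) • v) * ell 0 v)
        / ell 0 (u + (0 : ℝ) • v) ^ 2) 0 := by
    have a1 : HasDerivAt (fun t : ℝ => ell i.succ (u + t • v)) (ell i.succ v) 0 :=
      (ell i.succ).hasFDerivAt.comp_hasDerivAt (0 : ℝ) hline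
    have a2 : HasDerivAt (fun t : ℝ => ell 0 (u + t • v)) (ell 0 v) 0 :=
      (ell 0).hasFDerivAt.comp_hasDerivAt (0 : ℝ) hline
    refine a1.div a2 ?_
    rw [ell_apply, zero_smul, add_zero]
    exact h
  have h5 : (fun t : ℝ => gnom (u + t • v) i)
      = fun t : ℝ => ell i.succ (u + t • v) / ell 0 (u + t • v) := by
    funext t
    exact gnom_apply' _ i
  rw [h5] at h3
  have h6 := h3.unique h4
  rw [h6]
  simp only [zero_smul, add_zero, ell_apply]

/-- The Jacobian of gnomonic coordinates. -/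
theorem det_gnom (u : C3) (h : 0 < (u 0).re) (L : E5 →L[ℝ] C3) :
    ((fderiv ℝ gnom u).comp L).det = det6 u (fun k => L (bE k)) / (u 0).re ^ 6 := by
  have hr : real6 u 0 = (u 0).re := rfl
  have hr0 : real6 u 0 ≠ 0 := by rw [hr]; exact h.ne'
  -- the matrix of the derivative
  set J : Matrix (Fin 5) (Fin 5) ℝ := Matrix.of (fun k i =>
    (real6 (L (bE k)) i.succ * real6 u 0 - real6 u i.succ * real6 (L (bE k)) 0)
      / real6 u 0 ^ 2) with hJ
  have h1 : ((fderiv ℝ gnom u).comp L).det = J.det := by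
    have e1 : ((fderiv ℝ gnom u).comp L).det
        = LinearMap.det (((fderiv ℝ gnom u).comp L : E5 →L[ℝ] E5) : E5 →ₗ[ℝ] E5) := rfl
    rw [e1, ← LinearMap.det_toMatrix (EuclideanSpace.basisFun (Fin 5) ℝ).toBasis,
      ← Matrix.det_transpose J]
    congr 1
    ext i k
    rw [LinearMap.toMatrix_apply]
    simp only [OrthonormalBasis.coe_toBasis, EuclideanSpace.basisFun_apply,
      OrthonormalBasis.coe_toBasis_repr_apply, EuclideanSpace.basisFun_repr]
    show (fderiv ℝ gnom u (L (EuclideanSpace.single k 1))) i = J k i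
    rw [fderiv_gnom u h.ne']
    rfl
  -- row reduction
  set B : Matrix (Fin 6) (Fin 6) ℝ := Matrix.of (Fin.cons (real6 u)
    (fun k => Fin.cons 0 (fun i => real6 u 0 * J k i)) : Fin 6 → Fin 6 → ℝ) with hB
  have h2 : det6 u (fun k => L (bE k)) = B.det := by
    unfold det6
    refine Matrix.det_eq_of_forall_row_eq_smul_add_const
      (Fin.cons 0 (fun k => real6 (L (bE k)) 0 / real6 u 0)) 0 rfl ?_
    intro i j
    refine Fin.cases ?_ (fun k => ?_) i
    · simp [hB]
    · refine Fin.cases ?_ (fun i => ?_) j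
      · simp only [hB, Matrix.of_apply, Fin.cons_succ, Fin.cons_zero]
        field_simp
        ring
      · simp only [hB, hJ, Matrix.of_apply, Fin.cons_succ, Fin.cons_zero]
        field_simp
        ring
  have h3 : B.det = real6 u 0 ^ 6 * J.det := by
    rw [Matrix.det_succ_column_zero, Fin.sum_univ_succ]
    have e1 : ∀ k : Fin 5, B k.succ 0 = 0 := fun k => by simp [hB]
    have e2 : B.submatrix (Fin.succAbove 0) Fin.succ = real6 u 0 • J := by
      ext k i
      simp [hB]
    rw [e2, Matrix.det_smul]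
    simp only [e1, mul_zero, zero_mul, Finset.sum_const_zero, add_zero, Fin.val_zero, pow_zero,
      one_mul, Fintype.card_fin]
    have e3 : B 0 0 = real6 u 0 := by simp [hB]
    rw [e3]
    ring
  rw [h1, h2, h3, ← hr]
  field_simp

/-- Rescaling by a positive function does not change the sign of `det6`. -/
theorem det6_scale (U : E5 → C3) (ρ : E5 → ℝ) (x : E5) (hU : DifferentiableAt ℝ U x)
    (hρ : DifferentiableAt ℝ ρ x) :
    det6 (ρ x • U x) (fun k => fderiv ℝ (fun y => ρ y • U y) x (bE k)) =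
      ρ x ^ 6 * det6 (U x) (fun k => fderiv ℝ U x (bE k)) := by
  have h1 : ∀ v : E5, fderiv ℝ (fun y => ρ y • U y) x v
      = ρ x • fderiv ℝ U x v + (fderiv ℝ ρ x v) • U x := by
    intro v
    rw [fderiv_fun_smul hρ hU]
    simp
  by_cases h0 : ρ x = 0
  · rw [h0]
    unfold det6
    rw [Matrix.det_eq_zero_of_row_eq_zero 0]
    · ring
    · intro j
      simp only [Matrix.of_apply, Fin.cons_zero]
      rw [real6_smul, zero_mul]
  · have h2 : ρ x ^ 6 * det6 (U x) (fun k => fderiv ℝ U x (bE k))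
        = (ρ x • Matrix.of (Fin.cons (real6 (U x)) (fun k => real6 (fderiv ℝ U x (bE k))) :
            Fin 6 → Fin 6 → ℝ)).det := by
      rw [Matrix.det_smul, Fintype.card_fin]
      rfl
    rw [h2]
    unfold det6
    refine Matrix.det_eq_of_forall_row_eq_smul_add_const
      (Fin.cons 0 (fun k => fderiv ℝ ρ x (bE k) / ρ x)) 0 rfl ?_
    intro i j
    refine Fin.cases ?_ (fun k => ?_) i
    · simp only [Matrix.of_apply, Fin.cons_zero, Matrix.smul_apply, smul_eq_mul, zero_mul, add_zero]
      rw [real6_smul]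
    · simp only [Matrix.of_apply, Fin.cons_zero, Fin.cons_succ, Matrix.smul_apply, smul_eq_mul]
      rw [h1, real6_add, real6_smul, real6_smul]
      field_simp

end Wu
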