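import Pool.Agent.Lib.MP_60079e_gt.WB
import Pool.Agent.Lib.MP_60079e_gt.WCa
import Pool.Agent.Lib.MP_60079e_gt.WCb
import Pool.Agent.Lib.MP_60079e_gt.WD
import Pool.Agent.Lib.MP_60079e_gt.OPa

/-! The manifold `W`. -/

open Set Metric Topology Matrix
open scoped ContDiff

namespace Wu

theorem WE_tr_add (g S T : M3) : tr g (S + T) = tr g S + tr g T := by
  rw [tr, tr, tr, mul_add, add_mul]

theorem WE_tr_smul (g : M3) (a : ℝ) (S : M3) : tr g (a • S) = a • tr g S := by
  rw [tr, tr, mul_smul_comm, smul_mul_assoc]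

/-- Translation, as a continuous linear map. -/
noncomputable def trL (g : M3) : A3 →L[ℝ] A3 :=
  LinearMap.toContinuousLinearMap
    ({ toFun := fun S => toA (tr g S)
       map_add' := fun S T => WE_tr_add g S T
       map_smul' := fun a S => WE_tr_smul g a S } : A3 →ₗ[ℝ] A3)

theorem trL_apply (g S : M3) : trL g (toA S) = toA (tr g S) := rfl

theorem trL_comp_FrL (g C : M3) : (trL g).comp (FrL C) = FrL (g * C) := by
  ext1 x
  rw [ContinuousLinearMap.comp_apply, FrL_apply, FrL_apply, trL_apply]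
  congr 1
  rw [tr, Matrix.transpose_mul]
  simp only [Matrix.mul_assoc]

theorem WE_cont_toA : Continuous (fun S : WX => toA S.1) := continuous_subtype_val

theorem WE_cont_tr (g : M3) : Continuous (fun S : WX => toA (tr g S.1)) :=
  (trL g).continuous.comp WE_cont_toA

theorem WE_cont_col (g : M3) : Continuous (fun S : WX => (fun i => tr g S.1 i 2 : C3)) := by
  have h : Continuous (fun S : WX => colL (toA (tr g S.1))) :=
    colL.continuous.comp (WE_cont_tr g)
  have e : (fun S : WX => colL (toA (tr g S.1))) = (fun S : WX => (fun i => tr g S.1 i 2 : C3)) := by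
    funext S i
    rw [colL_apply]
    rfl
  rwa [e] at h

theorem WE_ugn_re (x : E5) : (ugn x 0).re = 1 := by simp [ugn]

theorem WE_ugn_ne (x : E5) : ugn x 0 ≠ 0 ∨ ugn x 1 ≠ 0 := by
  left
  intro h
  have h2 := WE_ugn_re x
  rw [h] at h2
  simp at h2

/-- norm of a vector of `ℂ³` -/
noncomputable def WE_N (U : C3) : ℝ :=
  Real.sqrt (Complex.normSq (U 0) + Complex.normSq (U 1) + Complex.normSq (U 2))

theorem WE_N_pos (U : C3) (h : U 0 ≠ 0 ∨ U 1 ≠ 0) : 0 < WE_N U := by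
  apply Real.sqrt_pos.mpr
  have h0 := Complex.normSq_nonneg (U 0)
  have h1 := Complex.normSq_nonneg (U 1)
  have h2 := Complex.normSq_nonneg (U 2)
  rcases h with h | h
  · have := Complex.normSq_pos.mpr h
    linarith
  · have := Complex.normSq_pos.mpr h
    linarith

theorem WE_sig_col (U : C3) : (fun i => sig U i 2 : C3) = (WE_N U)⁻¹ • U := by
  funext i
  rw [sig_col, Pi.smul_apply, Complex.real_smul, WE_N, Complex.ofReal_inv]
  rw [div_eq_mul_inv, mul_comm]

theorem WE_re_ne {u : C3} (h : (u 0).re ≠ 0) : u 0 ≠ 0 ∨ u 1 ≠ 0 := by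
  left
  intro h2
  apply h
  rw [h2]
  simp

theorem WE_gnom_cont (u : C3) (h : (u 0).re ≠ 0) : ContinuousAt gnom u :=
  (gnom_contDiffAt u h).continuousAt

theorem WE_sig_ugn_contDiffAt (x : E5) : ContDiffAt ℝ ∞ (fun y : E5 => toA (sig (ugn y))) x :=
  ContDiffAt.comp x (g := fun V : C3 => toA (sig V)) (sig_contDiffAt (ugn x) (WE_ugn_ne x))
    ugn_contDiff.contDiffAt

theorem WE_tr_sig_contDiffAt (g : M3) (x : E5) :
    ContDiffAt ℝ ∞ (fun y : E5 => toA (tr g (sig (ugn y)))) x :=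
  ((trL g).contDiff.contDiffAt).comp x (WE_sig_ugn_contDiffAt x)

theorem exists_wchart (g : M3) (hg : g ∈ SU3) : ∃ c, IsWChart g c := by
  have hgh : gᴴ ∈ SU3 := ct_mem hg
  have key : ∀ x : E5, tr gᴴ (tr g (sig (ugn x))) = sig (ugn x) := fun x => tr_ct_tr hg _
  let c : OpenPartialHomeomorph WX E5 :=
    { toFun := fun S => gnom (fun i => tr gᴴ S.1 i 2)
      invFun := fun x => ⟨tr g (sig (ugn x)), tr_mem hg (sig_mem (ugn x) (WE_ugn_ne x))⟩
      source := {S : WX | 0 < (tr gᴴ S.1 0 2).re}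
      target := univ
      map_source' := fun _ _ => mem_univ _
      map_target' := by
        intro x _
        change 0 < (tr gᴴ (tr g (sig (ugn x))) 0 2).re
        rw [key, congrFun (WE_sig_col (ugn x)) 0, Pi.smul_apply, Complex.real_smul,
          Complex.re_ofReal_mul, WE_ugn_re, mul_one]
        exact inv_pos.mpr (WE_N_pos _ (WE_ugn_ne x))
      left_inv' := by
        intro S hS
        change 0 < (tr gᴴ S.1 0 2).re at hS
        apply Subtype.ext
        change tr g (sig (ugn (gnom (fun i => tr gᴴ S.1 i 2)))) = S.1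
        have hT := tr_mem hgh S.2
        have hne : ((fun i => tr gᴴ S.1 i 2 : C3) 0).re ≠ 0 := hS.ne'
        have h1 := ugn_gnom (fun i => tr gᴴ S.1 i 2 : C3) hne
        have h2 := sig_smul_pos (ugn (gnom (fun i => tr gᴴ S.1 i 2 : C3))) _ hS
        have h3 := sig_of_col (tr gᴴ S.1) hT.1 hT.2 (WE_re_ne (u := fun i => tr gᴴ S.1 i 2) hne)
        rw [← h2, ← h1, h3, tr_tr_ct hg]
      right_inv' := by
        intro x _
        change gnom (fun i => tr gᴴ (tr g (sig (ugn x))) i 2) = x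
        rw [key, WE_sig_col, gnom_smul _ _ (inv_pos.mpr (WE_N_pos _ (WE_ugn_ne x))).ne', gnom_ugn]
      open_source := by
        have h : Continuous (fun S : WX => (tr gᴴ S.1 0 2).re) :=
          Complex.continuous_re.comp ((continuous_apply (0 : Fin 3)).comp (WE_cont_col gᴴ))
        exact isOpen_lt continuous_const h
      open_target := isOpen_univ
      continuousOn_toFun := by
        intro S hS
        apply ContinuousAt.continuousWithinAt
        have hne : ((fun i => tr gᴴ S.1 i 2 : C3) 0).re ≠ 0 := (show 0 < (tr gᴴ S.1 0 2).re from hS).ne'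
        exact ContinuousAt.comp (f := fun S : WX => (fun i => tr gᴴ S.1 i 2 : C3)) (g := gnom)
          (WE_gnom_cont _ hne) (WE_cont_col gᴴ).continuousAt
      continuousOn_invFun := by
        apply Continuous.continuousOn
        apply Continuous.subtype_mk
        apply continuous_iff_continuousAt.mpr
        intro x
        exact (WE_tr_sig_contDiffAt g x).continuousAt }
  exact ⟨c, fun S => Iff.rfl, rfl, fun S _ => rfl, fun x => rfl⟩

theorem wchart_cover (S : WX) : ∃ c ∈ {c : OpenPartialHomeomorph WX E5 | ∃ g ∈ SU3, IsWChart g c},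
    S ∈ c.source := by
  obtain ⟨C, hC, hCS⟩ := takagi S.1 S.2.1 S.2.2
  have h0 : (![1, 0, 0] : C3) 0 ≠ 0 ∨ (![1, 0, 0] : C3) 1 ≠ 0 := by left; simp
  obtain ⟨hs1, hs2⟩ := sig_mem ![1, 0, 0] h0
  obtain ⟨C0, hC0, hCS0⟩ := takagi _ hs1 hs2
  have hg : C * C0ᴴ ∈ SU3 := mul_mem hC (ct_mem hC0)
  obtain ⟨c, hc⟩ := exists_wchart (C * C0ᴴ) hg
  refine ⟨c, ⟨_, hg, hc⟩, ?_⟩
  rw [hc.1]
  have e : tr (C * C0ᴴ)ᴴ S.1 = sig ![1, 0, 0] := by
    have e1 : (C * C0ᴴ)ᴴ * C = C0 := by
      rw [Matrix.conjTranspose_mul, Matrix.conjTranspose_conjTranspose, Matrix.mul_assoc,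
        ct_mul hC, Matrix.mul_one]
    rw [← hCS, tr_mulT, e1, hCS0]
  rw [e, congrFun (WE_sig_col ![1, 0, 0]) 0, Pi.smul_apply, Complex.real_smul,
    Complex.re_ofReal_mul]
  have := WE_N_pos _ h0
  simp only [Matrix.cons_val_zero, Complex.one_re, mul_one]
  exact inv_pos.mpr this

/-- The differential of a chart along a frame. -/
theorem wchart_frame {g : M3} (hg : g ∈ SU3) {c : OpenPartialHomeomorph WX E5} (hc : IsWChart g c)
    (S : WX) (hS : S ∈ c.source) (C : M3) (hC : C ∈ SU3) (hCS : S.1 = C * Cᵀ) :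
    ∃ κ : ℝ, 0 < κ ∧ ∀ (f : E5 → WX) (x : E5), f x = S →
      ContDiffAt ℝ ∞ (fun y => toA (f y).1) x → ∀ m : E5 →L[ℝ] E5,
      fderiv ℝ (fun y => toA (f y).1) x = (FrL C).comp m →
      ContDiffAt ℝ ∞ (fun y => c (f y)) x ∧ (fderiv ℝ (fun y => c (f y)) x).det = κ * m.det := by
  have hpos : 0 < (tr gᴴ S.1 0 2).re := (hc.1 S).mp hS
  have hgC : gᴴ * C ∈ SU3 := mul_mem (ct_mem hg) hC
  have e1 : tr gᴴ S.1 = (gᴴ * C) * (gᴴ * C)ᵀ := by rw [hCS, tr_mulT]
  set u : C3 := fun i => ((gᴴ * C) * (gᴴ * C)ᵀ) i 2 with hu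
  have hu0 : 0 < (u 0).re := by
    rw [hu]; simp only; rw [← e1]; exact hpos
  have hdet := det6_frame_pos (gᴴ * C) hgC (WE_re_ne (u := u) hu0.ne')
  refine ⟨det6 u (fun k => colL (FrL (gᴴ * C) (bE k))) / (u 0).re ^ 6,
    div_pos hdet (pow_pos hu0 6), ?_⟩
  intro f x hfx hf m hm
  have hcont : ContinuousAt f x := by
    rw [Topology.IsInducing.subtypeVal.continuousAt_iff]
    exact hf.continuousAt
  have hnear : ∀ᶠ y in 𝓝 x, f y ∈ c.source := by
    apply hcont.eventually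
    rw [hfx]
    exact c.open_source.mem_nhds hS
  have hev : (fun y => c (f y)) =ᶠ[𝓝 x] (fun y => gnom (colL (trL gᴴ (toA (f y).1)))) := by
    filter_upwards [hnear] with y hy
    rw [hc.2.2.1 _ hy, trL_apply]
    congr 1
  have hval : colL (trL gᴴ (toA (f x).1)) = u := by
    rw [hfx, trL_apply, e1, hu]
    funext i
    rw [colL_apply]
    rfl
  have hlin : ContDiffAt ℝ ∞ (fun y => colL (trL gᴴ (toA (f y).1))) x :=
    ((colL.comp (trL gᴴ)).contDiff.contDiffAt).comp x hf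
  have hgn : ContDiffAt ℝ ∞ gnom (colL (trL gᴴ (toA (f x).1))) := by
    rw [hval]; exact gnom_contDiffAt u hu0.ne'
  have hcd : ContDiffAt ℝ ∞ (fun y => gnom (colL (trL gᴴ (toA (f y).1)))) x :=
    ContDiffAt.comp x (g := gnom) (f := fun y => colL (trL gᴴ (toA (f y).1))) hgn hlin
  refine ⟨hcd.congr_of_eventuallyEq hev, ?_⟩
  rw [hev.fderiv_eq]
  have d1 : HasFDerivAt (fun y => toA (f y).1) ((FrL C).comp m) x := by
    rw [← hm]
    exact (hf.differentiableAt (by simp)).hasFDerivAt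
  have d2 : HasFDerivAt (fun y => colL (trL gᴴ (toA (f y).1)))
      ((colL.comp (trL gᴴ)).comp ((FrL C).comp m)) x :=
    (colL.comp (trL gᴴ)).hasFDerivAt.comp x d1
  have d3 : HasFDerivAt gnom (fderiv ℝ gnom u) (colL (trL gᴴ (toA (f x).1))) := by
    rw [hval]
    exact ((gnom_contDiffAt u hu0.ne').differentiableAt (by simp)).hasFDerivAt
  have d4 : HasFDerivAt (fun y => gnom (colL (trL gᴴ (toA (f y).1))))
      ((fderiv ℝ gnom u).comp ((colL.comp (trL gᴴ)).comp ((FrL C).comp m))) x :=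
    HasFDerivAt.comp x (g := gnom) (f := fun y => colL (trL gᴴ (toA (f y).1))) d3 d2
  rw [d4.fderiv]
  have e2 : (fderiv ℝ gnom u).comp ((colL.comp (trL gᴴ)).comp ((FrL C).comp m)) =
      ((fderiv ℝ gnom u).comp (colL.comp (FrL (gᴴ * C)))).comp m := by
    rw [← trL_comp_FrL]
    rfl
  have e3 := det_gnom u hu0 (colL.comp (FrL (gᴴ * C)))
  have e4 : ∀ A B : E5 →L[ℝ] E5, (A.comp B).det = A.det * B.det := fun A B => by
    change LinearMap.det ((A : E5 →ₗ[ℝ] E5) ∘ₗ (B : E5 →ₗ[ℝ] E5)) = _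
    rw [LinearMap.det_comp]
  rw [e2, e4, e3]
  rfl

/-- The inverse of a chart, in a frame. -/
theorem wchart_symm_frame {g : M3} (hg : g ∈ SU3) {c : OpenPartialHomeomorph WX E5}
    (hc : IsWChart g c) (S : WX) (hS : S ∈ c.source) (C : M3) (hC : C ∈ SU3)
    (hCS : S.1 = C * Cᵀ) :
    ContDiffAt ℝ ∞ (fun y => toA (c.symm y).1) (c S) ∧ ∃ m : E5 →L[ℝ] E5, 0 < m.det ∧
      fderiv ℝ (fun y => toA (c.symm y).1) (c S) = (FrL C).comp m := by
  have e : (fun y => toA (c.symm y).1) = fun y => toA (tr g (sig (ugn y))) := by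
    funext y
    rw [hc.2.2.2]
  have hcd : ContDiffAt ℝ ∞ (fun y => toA (c.symm y).1) (c S) := by
    rw [e]
    exact WE_tr_sig_contDiffAt g (c S)
  have hx : (c.symm (c S)) = S := c.left_inv hS
  obtain ⟨m, hm⟩ := tangent_frame (fun y => toA (c.symm y).1) (c S)
    (hcd.differentiableAt (by simp)) (Filter.Eventually.of_forall fun y => (c.symm y).2) C hC
    (by rw [hx, hCS])
  refine ⟨hcd, m, ?_, hm⟩
  obtain ⟨κ, hκ, H⟩ := wchart_frame hg hc S hS C hC hCS
  obtain ⟨-, h2⟩ := H c.symm (c S) hx hcd m hm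
  have h3 : (fun y => c (c.symm y)) = (fun y => y) := by
    funext y
    exact c.right_inv (by rw [hc.2.1]; exact mem_univ _)
  rw [h3] at h2
  have h4 : (fderiv ℝ (fun y : E5 => y) (c S)).det = 1 := by
    rw [fderiv_fun_id]
    simp [ContinuousLinearMap.det]
  rw [h4] at h2
  by_contra h5
  have h6 : κ * m.det ≤ 0 := mul_nonpos_of_nonneg_of_nonpos hκ.le (not_lt.mp h5)
  linarith

theorem wchart_compat :
    ∀ c ∈ {c : OpenPartialHomeomorph WX E5 | ∃ g ∈ SU3, IsWChart g c},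
    ∀ d ∈ {c : OpenPartialHomeomorph WX E5 | ∃ g ∈ SU3, IsWChart g c},
    ∀ S : WX, S ∈ c.source → S ∈ d.source →
    ContDiffAt ℝ ∞ (d ∘ c.symm) (c S) ∧ 0 < (fderiv ℝ (d ∘ c.symm) (c S)).det := by
  rintro c ⟨g, hg, hc⟩ d ⟨h, hh, hd⟩ S hSc hSd
  obtain ⟨C, hC, hCS⟩ := takagi S.1 S.2.1 S.2.2
  obtain ⟨h1, m, hm, h2⟩ := wchart_symm_frame hg hc S hSc C hC hCS.symm
  obtain ⟨κ, hκ, H⟩ := wchart_frame hh hd S hSd C hC hCS.symm
  obtain ⟨h3, h4⟩ := H c.symm (c S) (c.left_inv hSc) h1 m h2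
  refine ⟨h3, ?_⟩
  change 0 < (fderiv ℝ (fun y => d (c.symm y)) (c S)).det
  rw [h4]
  exact mul_pos hκ hm

/-- The Wu manifold. -/
@[reducible] noncomputable def WM : Mfd E5 where
  X := WX
  atlas := {c | ∃ g ∈ SU3, IsWChart g c}
  cover := wchart_cover
  compat := wchart_compat

end Wu
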