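import Pool.Agent.Lib.MP_60079e_gt.WB
import Pool.Agent.Lib.MP_60079e_gt.WE

/-! The map `S³ × D̄ → W`. -/

open Set Metric Topology Matrix
open scoped ContDiff

namespace Wu

abbrev C2 : Type := EuclideanSpace ℂ (Fin 2)

noncomputable def fW (y : C2) (w : ℂ) : M3 :=
  let a : ℝ := Real.sqrt (1 - Complex.normSq w)
  !![-(star w * y 0 ^ 2 + star (y 1) ^ 2), -(star w * y 0 * y 1 - star (y 0) * star (y 1)),
      a * y 0;
     -(star w * y 0 * y 1 - star (y 0) * star (y 1)), -(star w * y 1 ^ 2 + star (y 0) ^ 2),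
      a * y 1;
     a * y 0, a * y 1, w]

theorem WGa_norm (y : C2) : ‖y‖ ^ 2 = Complex.normSq (y 0) + Complex.normSq (y 1) := by
  rw [EuclideanSpace.norm_sq_eq, Fin.sum_univ_two, Complex.sq_norm, Complex.sq_norm]

theorem WGa_norm' (y : C2) (hy : ‖y‖ = 1) : y 0 * star (y 0) + y 1 * star (y 1) = 1 := by
  have h := WGa_norm y
  rw [hy] at h
  have h2 : ((Complex.normSq (y 0) + Complex.normSq (y 1) : ℝ) : ℂ) = 1 := by
    rw [← h]; norm_num
  rw [Complex.ofReal_add, ← Complex.mul_conj, ← Complex.mul_conj] at h2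
  exact h2

private noncomputable def WGaU (y : C2) : M3 :=
  !![y 0, -star (y 1), 0; y 1, star (y 0), 0; 0, 0, 1]

private noncomputable def WGaS (w : ℂ) : M3 :=
  let a : ℝ := Real.sqrt (1 - Complex.normSq w)
  !![-star w, 0, a; 0, -1, 0; a, 0, w]

private theorem WGaU_mem (y : C2) (hy : ‖y‖ = 1) : WGaU y ∈ SU3 := by
  have h1 := WGa_norm' y hy
  rw [Matrix.mem_specialUnitaryGroup_iff, Matrix.mem_unitaryGroup_iff]
  constructor
  · ext i j
    fin_cases i <;> fin_cases j <;>
      simp [WGaU, Matrix.mul_apply, Fin.sum_univ_three, Matrix.star_apply] <;>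
      simp only [Complex.star_def] at h1 <;>
      first
        | linear_combination h1
        | ring
  · simp only [Complex.star_def] at h1
    simp [WGaU, Matrix.det_fin_three]
    linear_combination h1

private theorem WGaS_mem (w : ℂ) (hw : ‖w‖ ≤ 1) : WGaS w ∈ SU3 ∧ (WGaS w)ᵀ = WGaS w := by
  have hn : Complex.normSq w ≤ 1 := by
    rw [Complex.normSq_eq_norm_sq]
    nlinarith [norm_nonneg w]
  have h1 : ((Real.sqrt (1 - Complex.normSq w) : ℝ) : ℂ) * (Real.sqrt (1 - Complex.normSq w) : ℝ)
      = 1 - w * (starRingEnd ℂ) w := by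
    rw [← Complex.ofReal_mul, Real.mul_self_sqrt (by linarith), Complex.mul_conj]
    push_cast
    ring
  constructor
  · rw [Matrix.mem_specialUnitaryGroup_iff, Matrix.mem_unitaryGroup_iff]
    constructor
    · ext i j
      fin_cases i <;> fin_cases j <;>
        simp [WGaS, Matrix.mul_apply, Fin.sum_univ_three, Matrix.star_apply] <;>
        first
          | linear_combination h1
          | ring
    · simp [WGaS, Matrix.det_fin_three]
      linear_combination h1
  · ext i j
    fin_cases i <;> fin_cases j <;> simp [WGaS]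

private theorem WGa_eq (y : C2) (w : ℂ) : fW y w = tr (WGaU y) (WGaS w) := by
  ext i j
  fin_cases i <;> fin_cases j <;>
    simp [fW, tr, WGaU, WGaS, Matrix.mul_apply, Fin.sum_univ_three] <;> ring

theorem fW_mem (y : C2) (w : ℂ) (hy : ‖y‖ = 1) (hw : ‖w‖ ≤ 1) :
    fW y w ∈ SU3 ∧ (fW y w)ᵀ = fW y w := by
  rw [WGa_eq]
  exact tr_mem (WGaU_mem y hy) (WGaS_mem w hw)

theorem continuous_fW : Continuous (fun p : C2 × ℂ => fW p.1 p.2) := by
  have hs : Continuous (fun p : C2 × ℂ => ((Real.sqrt (1 - Complex.normSq p.2) : ℝ) : ℂ)) := by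
    have := Complex.continuous_normSq
    have h2 := Real.continuous_sqrt
    exact Complex.continuous_ofReal.comp (h2.comp (continuous_const.sub
      (this.comp continuous_snd)))
  have h0 : Continuous (fun p : C2 × ℂ => p.1 0) := by fun_prop
  have h1 : Continuous (fun p : C2 × ℂ => p.1 1) := by fun_prop
  have hw : Continuous (fun p : C2 × ℂ => p.2) := continuous_snd
  refine continuous_matrix fun i j => ?_
  fin_cases i <;> fin_cases j <;> simp only [fW] <;> simp <;>
    first
      | exact hw
      | exact hs.mul h0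
      | exact hs.mul h1
      | skip
  · exact ((((Complex.continuous_conj.comp h1).pow 2).neg).add
      (((Complex.continuous_conj.comp hw).mul (h0.pow 2)).neg))
  · exact ((Complex.continuous_conj.comp h0).mul (Complex.continuous_conj.comp h1)).sub
      (((Complex.continuous_conj.comp hw).mul h0).mul h1)
  · exact ((Complex.continuous_conj.comp h0).mul (Complex.continuous_conj.comp h1)).sub
      (((Complex.continuous_conj.comp hw).mul h0).mul h1)
  · exact ((((Complex.continuous_conj.comp h0).pow 2).neg).add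
      (((Complex.continuous_conj.comp hw).mul (h1.pow 2)).neg))

end Wu
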